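import Pool.Agent.P.MP_408b1f_gt.Defs2

/-! Third layer: eventual statements with full margins. -/

open Set MeasureTheory Filter Topology

noncomputable section

namespace XR

variable {f g : ℝ → ℝ}

/-- eventually in eps, for all systems with full margins -/
def EvG (c : Ctx f g) (Q : (ε : ℝ) → (I : Type) → Sys f g ε I → Prop) : Prop :=
  ∀ᶠ ε in 𝓝[>] (0:ℝ), ∀ (I : Type) (S : Sys f g ε I) (yL yR ς : ℝ),
    Mg c.η c.ys S yL yR ς → Q ε I S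

theorem EvG.of_neg (c : Ctx f g)
    {Q : (ε : ℝ) → (I : Type) → Sys (negF f) (negF g) ε I → Prop} (h : EvG c.neg Q) :
    EvG c fun ε I S => Q ε I S.neg := by
  filter_upwards [h] with ε h I S yL yR ς hm
  exact h I S.neg _ _ ς hm.neg

/-- the basic eventualities of the outer quantifiers of EvAll -/
theorem Ctx.ev_σ (c : Ctx f g) : ∀ᶠ σ in 𝓝[>] (0:ℝ), 0 < σ ∧ σ ≤ c.σ0 := ev_le c.σ0pos

theorem Ctx.ev_sm (c : Ctx f g) {σ : ℝ} (hσ : 0 < σ) (hσ' : σ ≤ c.σ0) :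
    ∃ φ, ∀ᶠ ε in 𝓝[>] (0:ℝ), Sm f ε σ φ :=
  c.hf.ev_sm hσ (by linarith [c.toCtx0.σ0_le])

theorem Ctx.η_le (c : Ctx f g) {ε : ℝ} {I : Type} {S : Sys f g ε I} {yL yR ς : ℝ}
    (hm : Mg c.η c.ys S yL yR ς) : 2 * c.η ≤ c.ys ∧ c.ys ≤ 1 - 2 * c.η := by
  have h1 := hm.hL; have h2 := hm.hR; have h3 := hm.sL; have h4 := hm.sR
  rcases hm.hς with h | h <;> rw [h] at h3 h4 <;> constructor <;> linarith [h1.1, h1.2, h2.1, h2.2]

@[simp] theorem Ctx.neg_σ0 (c : Ctx f g) : c.neg.σ0 = c.σ0 := rfl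
@[simp] theorem Ctx.neg_f0 (c : Ctx f g) : c.neg.f0 = c.f0 := rfl
@[simp] theorem Ctx.neg_η (c : Ctx f g) : c.neg.η = c.η := rfl
@[simp] theorem Ctx.neg_ys (c : Ctx f g) : c.neg.ys = 1 - c.ys := rfl

end XR
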