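import Pool.Agent.P.MP_408b1f_gt.Geo3
import Pool.Agent.P.MP_408b1f_gt.Defs3

/-! Travelling along joint runs.
exit_bwd: as exit_fwd, going backwards with R.symm (xL, hL, tL of step).
joint_fwd, joint_bwd: exit_fwd (exit_bwd) for j and for T j, take the smaller time (comm_pow,
Run.mono, Run.shift).
mid_travel: along joint runs t1 is constant (run_mono), so mid_range orders x (T j') and x j' in the
same way at all times: 0 <= t1 varsigma (x (T j') - x j'). At the forward end one of the two indices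
is near the end in the direction t1, hence the leading one is; nearR_t, nearL_t (with yP_T) give
eta / 2 <= t1 varsigma (ys - yO). At the backward end eta / 2 <= t1 varsigma (yO - ys). The heights
move by at most eps / sigma per step (sandO, g1_of, xstep), so a discrete intermediate value
argument on the forward or on the backward run finishes. -/

open Set MeasureTheory Filter Topology

noncomputable section

namespace XR

variable {f g : ℝ → ℝ} {ε : ℝ} {I : Type} {S : Sys f g ε I} {yL yR ς : ℝ}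

theorem win2_ivt {a : ℕ → ℝ} {e : ℝ} (he : 0 ≤ e) :
    ∀ n, (∀ k < n, |a (k + 1) - a k| ≤ e) → 0 ≤ a 0 → a n ≤ 0 → ∃ m ≤ n, |a m| ≤ e := by
  intro n
  induction n with
  | zero =>
    intro _ h0 h1
    refine ⟨0, le_rfl, ?_⟩
    rw [le_antisymm h1 h0, abs_zero]
    exact he
  | succ n ih =>
    intro ha h0 h1
    by_cases hc : a n ≤ 0
    · obtain ⟨m, hm, hx⟩ := ih (fun k hk => ha k (by omega)) h0 hc
      exact ⟨m, by omega, hx⟩
    · refine ⟨n + 1, le_rfl, ?_⟩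
      have h2 := (abs_le.mp (ha n (by omega))).1
      have h3 := not_le.mp hc
      rw [abs_le]
      constructor <;> linarith

theorem win2_pow_add (m n : ℕ) (j : I) : (S.R ^ n) ((S.R ^ m) j) = (S.R ^ (m + n)) j := by
  rw [add_comm, pow_add, Equiv.Perm.mul_apply]

theorem win2_ystep {s φ : ℝ} (hs : Sm f ε s φ) {j : I} {n : ℕ} (h : S.Run s j n) {k : ℕ}
    (hk : k < n) : |S.yO ((S.R ^ (k + 1)) j) - S.yO ((S.R ^ k) j)| ≤ ε / s := by
  have hε := hs.εpos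
  have hεs : ε < s := by linarith [hs.le16]
  have h0 := h k hk.le
  have h1 := h (k + 1) hk
  rw [S.g2a_pow_succ] at h1 ⊢
  obtain ⟨r, e, r1, r2, -, -⟩ := (S.g2a_step hs h0).sandO
  have b0 := abs_le.mp (S.g1_of hε hεs h0).2.2.2.1
  have b1 := abs_le.mp (S.g1_of hε hεs h1).2.2.2.1
  have hr : |r| ≤ 1 / s := abs_le.mpr ⟨by linarith [b0.1], by linarith [b1.2]⟩
  have hx := S.xstep hε.le ((S.R ^ k) j)
  rw [e, abs_mul]
  calc |r| * |S.x (S.R ((S.R ^ k) j)) - S.x ((S.R ^ k) j)| ≤ 1 / s * ε :=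
        mul_le_mul hr hx (abs_nonneg _) (le_trans (abs_nonneg _) hr)
    _ = ε / s := by ring

theorem win2_between {s φ : ℝ} (hs : Sm f ε s φ) {j : I} {n : ℕ} (h : S.Run s j n) {l : ℕ}
    (hl : l ≤ n) :
    (S.x j ≤ S.x ((S.R ^ l) j) ∧ S.x ((S.R ^ l) j) ≤ S.x ((S.R ^ n) j)) ∨
      (S.x ((S.R ^ n) j) ≤ S.x ((S.R ^ l) j) ∧ S.x ((S.R ^ l) j) ≤ S.x j) := by
  have h1 := (S.run_mono hs h (l := 0) (l' := l) (Nat.zero_le _) (by omega)).2
  have h2 := (S.run_mono hs h (l := l) (l' := n) hl (by omega)).2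
  have h3 : 0 ≤ ε * φ / 2 := by have := hs.εpos; have := hs.φpos; positivity
  have h4 : 0 ≤ ((l : ℝ) - (0 : ℕ)) * (ε * φ / 2) :=
    mul_nonneg (by simp) h3
  have h5 : 0 ≤ ((n : ℝ) - l) * (ε * φ / 2) :=
    mul_nonneg (sub_nonneg.mpr (by exact_mod_cast hl)) h3
  have h6 : S.InB s j := by simpa using h 0 (Nat.zero_le _)
  simp only [pow_zero, Equiv.Perm.coe_one, id_eq] at h1
  rcases S.g2a_t hs h6 with ht | ht <;> rw [ht] at h1 h2
  · exact Or.inl ⟨by linarith, by linarith⟩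
  · exact Or.inr ⟨by linarith, by linarith⟩

theorem exit_bwd {s φ : ℝ} (hs : Sm f ε s φ) {j : I} (hj : S.InB s j) :
    ∃ n j', (S.R ^ n) j' = j ∧ S.Run s j' n ∧ ¬ S.InB s (S.R.symm j') ∧
      (S.t1 j = 1 → S.x j' < s + ε) ∧ (S.t1 j = -1 → 1 - s - ε < S.x j') := by
  classical
  have hex : ∃ n, ¬ S.InB s ((S.R⁻¹ ^ (n + 1)) j) := by
    by_contra hc
    rw [not_exists] at hc
    refine S.g2a_not_all hs fun n => ⟨(S.R⁻¹ ^ n) j, fun l hl => ?_⟩
    rw [S.g2a_pow_inv n l hl]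
    generalize n - l = m
    cases m with
    | zero => simpa using hj
    | succ m => exact not_not.mp (hc m)
  have hrun : S.Run s ((S.R⁻¹ ^ (Nat.find hex)) j) (Nat.find hex) := by
    intro l hl
    rw [S.g2a_pow_inv _ l hl]
    have hm : Nat.find hex - l ≤ Nat.find hex := Nat.sub_le _ _
    generalize Nat.find hex - l = m at hm
    cases m with
    | zero => simpa using hj
    | succ m => exact not_not.mp (Nat.find_min hex (by omega))
  have hout := Nat.find_spec hex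
  generalize Nat.find hex = n at hrun hout
  have hback : (S.R ^ n) ((S.R⁻¹ ^ n) j) = j := by
    rw [S.g2a_pow_inv n n le_rfl]; simp
  have e1 : (S.R⁻¹ ^ (n + 1)) j = S.R.symm ((S.R⁻¹ ^ n) j) := by
    rw [pow_succ', Equiv.Perm.mul_apply]; rfl
  rw [e1] at hout
  refine ⟨n, (S.R⁻¹ ^ n) j, hback, hrun, hout, ?_⟩
  generalize (S.R⁻¹ ^ n) j = i at hrun hout hback
  have ht := (S.run_mono hs hrun (l := 0) (l' := n) (by omega) (by omega)).1
  rw [hback] at ht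
  have hi : S.InB s i := by simpa using hrun 0 (Nat.zero_le _)
  have st := S.g2a_step hs hi
  have h1 := st.xL
  have h2 : 0 < ε * S.h i := mul_pos hs.εpos st.hpos
  have h3 : ε * S.h i ≤ ε := by
    have := mul_le_mul_of_nonneg_left st.hle hs.εpos.le
    linarith
  have h5 := S.g2a_notInB hout
  rw [← ht] at h1
  constructor
  · intro h
    rw [h] at h1
    rcases h5 with h5 | h5 <;> linarith [hi.1, hi.2]
  · intro h
    rw [h] at h1
    rcases h5 with h5 | h5 <;> linarith [hi.1, hi.2]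

theorem joint_fwd {s φ : ℝ} (hs : Sm f ε s φ) {j : I} (hj : S.InB s j) (hj' : S.InB s (S.T j)) :
    ∃ n, S.Run s j n ∧ S.Run s (S.T j) n ∧
      (((S.t1 j = 1 → 1 - s - ε < S.x ((S.R ^ n) j)) ∧ (S.t1 j = -1 → S.x ((S.R ^ n) j) < s + ε)) ∨
        ((S.t1 (S.T j) = 1 → 1 - s - ε < S.x (S.T ((S.R ^ n) j))) ∧
          (S.t1 (S.T j) = -1 → S.x (S.T ((S.R ^ n) j)) < s + ε))) := by
  obtain ⟨n1, r1, -, p1⟩ := S.exit_fwd hs hj
  obtain ⟨n2, r2, -, p2⟩ := S.exit_fwd hs hj'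
  rcases le_total n1 n2 with h | h
  · exact ⟨n1, r1, r2.mono h, Or.inl p1⟩
  · rw [S.comm_pow] at p2
    exact ⟨n2, r1.mono h, r2, Or.inr p2⟩

theorem joint_bwd {s φ : ℝ} (hs : Sm f ε s φ) {j : I} (hj : S.InB s j) (hj' : S.InB s (S.T j)) :
    ∃ n j', (S.R ^ n) j' = j ∧ S.Run s j' n ∧ S.Run s (S.T j') n ∧
      (((S.t1 j = 1 → S.x j' < s + ε) ∧ (S.t1 j = -1 → 1 - s - ε < S.x j')) ∨
        ((S.t1 (S.T j) = 1 → S.x (S.T j') < s + ε) ∧
          (S.t1 (S.T j) = -1 → 1 - s - ε < S.x (S.T j')))) := by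
  obtain ⟨n1, j1, e1, r1, p1⟩ := S.exit_bwd hs hj
  obtain ⟨n2, j2, e2, r2, p2⟩ := S.exit_bwd hs hj'
  rcases le_total n1 n2 with h | h
  · obtain ⟨m, rfl⟩ := Nat.exists_eq_add_of_le' h
    have e3 : (S.R ^ m) j2 = S.T j1 := by
      apply (S.R ^ n1).injective
      rw [win2_pow_add, e2, S.comm_pow, e1]
    have r3 := r2.shift
    rw [e3] at r3
    exact ⟨n1, j1, e1, r1, r3, Or.inl p1⟩
  · obtain ⟨m, rfl⟩ := Nat.exists_eq_add_of_le' h
    have e0 : (S.R ^ n2) ((S.R ^ m) j1) = j := by rw [win2_pow_add, e1]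
    have e3 : S.T ((S.R ^ m) j1) = j2 := by
      apply (S.R ^ n2).injective
      rw [S.comm_pow, e0, e2]
    refine ⟨n2, (S.R ^ m) j1, e0, r1.shift, ?_, Or.inr ?_⟩
    · rw [e3]; exact r2
    · rw [e3]; exact p2

theorem win2_left {c : Ctx f g} (hs : c.Small ε) (hm : Mg c.η c.ys S yL yR ς) {i : I}
    (h : S.x i ≤ 2 * c.σ0 ∨ S.x (S.T i) ≤ 2 * c.σ0) : 0 ≤ ς * (S.yO i - c.ys) := by
  have hη := c.ηpos
  rcases h with h | h
  · have := (nearL_t hs hm h).2.2.1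
    linarith
  · have := (nearL_t hs hm h).2.2.2
    rw [S.yP_T] at this
    linarith

theorem win2_right {c : Ctx f g} (hs : c.Small ε) (hm : Mg c.η c.ys S yL yR ς) {i : I}
    (h : 1 - 2 * c.σ0 ≤ S.x i ∨ 1 - 2 * c.σ0 ≤ S.x (S.T i)) : ς * (S.yO i - c.ys) ≤ 0 := by
  have hη := c.ηpos
  rcases h with h | h
  · have := (nearR_t hs hm h).2.2.1
    linarith
  · have := (nearR_t hs hm h).2.2.2
    rw [S.yP_T] at this
    linarith

theorem win2_cross {σ φ : ℝ} (hσ : Sm f ε σ φ) {j : I} {n : ℕ} (h : S.Run σ j n) {a y : ℝ}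
    (ha : a = 1 ∨ a = -1) (h0 : 0 ≤ a * (S.yO j - y)) (h1 : a * (S.yO ((S.R ^ n) j) - y) ≤ 0) :
    ∃ m ≤ n, |S.yO ((S.R ^ m) j) - y| ≤ ε / σ := by
  have hε := hσ.εpos
  have hσ0 : 0 < σ := by linarith [hσ.le16]
  have habs : ∀ z : ℝ, |a * z| = |z| := by
    intro z
    rcases ha with h | h <;> simp [h]
  obtain ⟨m, hm, hx⟩ := win2_ivt (a := fun k => a * (S.yO ((S.R ^ k) j) - y)) (e := ε / σ)
    (by positivity) n (fun k hk => by
      have e : a * (S.yO ((S.R ^ (k + 1)) j) - y) - a * (S.yO ((S.R ^ k) j) - y) =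
          a * (S.yO ((S.R ^ (k + 1)) j) - S.yO ((S.R ^ k) j)) := by ring
      rw [e, habs]
      exact win2_ystep hσ h hk) (by simpa using h0) h1
  exact ⟨m, hm, by rwa [habs] at hx⟩

theorem mid_travel {c : Ctx f g} (hs : c.Small ε) (hm : Mg c.η c.ys S yL yR ς) {σ φ : ℝ}
    (hσ : Sm f ε σ φ) (hσ' : σ ≤ c.σ0) {j : I} (hj : S.InB σ j) (hj' : S.InB σ (S.T j))
    (ht : S.t1 j = S.t1 (S.T j)) :
    ∃ j0 n, (((S.R ^ n) j = j0 ∧ S.Run σ j n ∧ S.Run σ (S.T j) n) ∨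
      ((S.R ^ n) j0 = j ∧ S.Run σ j0 n ∧ S.Run σ (S.T j0) n)) ∧ |S.yO j0 - c.ys| ≤ ε / σ := by
  have hε := hs.εpos
  have hεσ : ε ≤ c.σ0 := by linarith [hs.leσ]
  have ht1 := S.g2a_t hσ hj
  have ha : S.t1 j * ς = 1 ∨ S.t1 j * ς = -1 := by
    rcases ht1 with h | h <;> rcases hm.hς with h' | h' <;> simp [h, h']
  rcases le_total 0 (S.t1 j * ς * (S.yO j - c.ys)) with h0 | h0
  · obtain ⟨n, r1, r2, hp⟩ := joint_fwd hσ hj hj'
    rw [← ht] at hp
    have h1 : S.t1 j * ς * (S.yO ((S.R ^ n) j) - c.ys) ≤ 0 := by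
      rcases ht1 with h | h
      · have := win2_right hs hm (i := (S.R ^ n) j) (by
          rcases hp with hp | hp
          · exact Or.inl (by linarith [hp.1 h])
          · exact Or.inr (by linarith [hp.1 h]))
        rw [h]; linarith
      · have := win2_left hs hm (i := (S.R ^ n) j) (by
          rcases hp with hp | hp
          · exact Or.inl (by linarith [hp.2 h])
          · exact Or.inr (by linarith [hp.2 h]))
        rw [h]; linarith
    obtain ⟨m, hmn, hx⟩ := win2_cross hσ r1 ha h0 h1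
    exact ⟨_, m, Or.inl ⟨rfl, r1.mono hmn, r2.mono hmn⟩, hx⟩
  · obtain ⟨n, i, e, r1, r2, hp⟩ := joint_bwd hσ hj hj'
    rw [← ht] at hp
    have h1 : 0 ≤ S.t1 j * ς * (S.yO i - c.ys) := by
      rcases ht1 with h | h
      · have := win2_left hs hm (i := i) (by
          rcases hp with hp | hp
          · exact Or.inl (by linarith [hp.1 h])
          · exact Or.inr (by linarith [hp.1 h]))
        rw [h]; linarith
      · have := win2_right hs hm (i := i) (by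
          rcases hp with hp | hp
          · exact Or.inl (by linarith [hp.2 h])
          · exact Or.inr (by linarith [hp.2 h]))
        rw [h]; linarith
    obtain ⟨m, hmn, hx⟩ := win2_cross hσ r1 ha h1 (by rw [e]; exact h0)
    obtain ⟨k, rfl⟩ := Nat.exists_eq_add_of_le hmn
    refine ⟨(S.R ^ m) i, k, Or.inr ⟨by rw [win2_pow_add, e], r1.shift, ?_⟩, hx⟩
    rw [← S.comm_pow]
    exact r2.shift

theorem win2_runs {c : Ctx f g} (hs : c.Small ε) (hm : Mg c.η c.ys S yL yR ς) {σ φ : ℝ}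
    (hσ : Sm f ε σ φ) (hσ' : σ ≤ c.σ0) {j : I} {n : ℕ} (h : S.Run σ j n)
    (hx : (S.x j ≤ 2 * c.σ0 ∧ S.x ((S.R ^ n) j) ≤ 2 * c.σ0) ∨
      (1 - 2 * c.σ0 ≤ S.x j ∧ 1 - 2 * c.σ0 ≤ S.x ((S.R ^ n) j))) :
    S.Run σ (S.T j) n ∧ S.Run σ (S.T.symm j) n := by
  have h0 := c.σ0pos
  have key : ∀ l ≤ n, S.InB (4 * c.σ0) (S.T ((S.R ^ l) j)) ∧
      S.InB (4 * c.σ0) (S.T.symm ((S.R ^ l) j)) := by
    intro l hl
    have hb := win2_between hσ h hl
    rcases hx with hx | hx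
    · refine (nearL hs hm.toMg0 (i := (S.R ^ l) j) ?_).2.2.2.2.2.2
      rcases hb with hb | hb <;> linarith [hb.1, hb.2, hx.1, hx.2]
    · refine (nearR hs hm.toMg0 (i := (S.R ^ l) j) ?_).2.2.2.2.2.2
      rcases hb with hb | hb <;> linarith [hb.1, hb.2, hx.1, hx.2]
  refine ⟨fun l hl => ?_, fun l hl => ?_⟩
  · rw [S.comm_pow]
    exact (key l hl).1.mono (by linarith)
  · rw [S.comm_pow_symm]
    exact (key l hl).2.mono (by linarith)

/-- transport to the standard window near an end -/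
theorem end_window {c : Ctx f g} (hs : c.Small ε) (hm : Mg c.η c.ys S yL yR ς) {σ φ : ℝ}
    (hσ : Sm f ε σ φ) (hσ' : σ ≤ c.σ0) {i : I} (hi : S.InB σ i)
    (hx : S.x i ≤ σ + ε ∨ 1 - σ - ε ≤ S.x i) :
    ∃ i0 n, (S.x i0 ∈ Icc c.σ0 (c.σ0 + ε) ∨ S.x i0 ∈ Icc (1 - c.σ0 - ε) (1 - c.σ0)) ∧
      (((S.R ^ n) i = i0 ∧ S.Run σ i n ∧ S.Run σ (S.T i) n ∧ S.Run σ (S.T.symm i) n) ∨
        ((S.R ^ n) i0 = i ∧ S.Run σ i0 n ∧ S.Run σ (S.T i0) n ∧ S.Run σ (S.T.symm i0) n)) := by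
  have hε := hs.εpos
  have hεσ : ε ≤ c.σ0 := by linarith [hs.leσ]
  have h8 := c.toCtx0.σ0_le
  rcases hx with hx | hx
  · rcases S.to_window hσ hi (x0 := c.σ0) hσ' (by linarith) with ⟨n, r, hw⟩ | ⟨n, j, e, r, hw⟩
    · exact ⟨_, n, Or.inl hw, Or.inl ⟨rfl, r,
        win2_runs hs hm hσ hσ' r (Or.inl ⟨by linarith, by linarith [hw.2]⟩)⟩⟩
    · exact ⟨j, n, Or.inl hw, Or.inr ⟨e, r,
        win2_runs hs hm hσ hσ' r (Or.inl ⟨by linarith [hw.2], by rw [e]; linarith⟩)⟩⟩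
  · have e1 : 1 - c.σ0 - ε + ε = 1 - c.σ0 := by ring
    rcases S.to_window hσ hi (x0 := 1 - c.σ0 - ε) (by linarith) (by linarith) with
      ⟨n, r, hw⟩ | ⟨n, j, e, r, hw⟩
    · rw [e1] at hw
      exact ⟨_, n, Or.inr hw, Or.inl ⟨rfl, r,
        win2_runs hs hm hσ hσ' r (Or.inr ⟨by linarith, by linarith [hw.1]⟩)⟩⟩
    · rw [e1] at hw
      exact ⟨j, n, Or.inr hw, Or.inr ⟨e, r,
        win2_runs hs hm hσ hσ' r (Or.inr ⟨by linarith [hw.1], by rw [e]; linarith⟩)⟩⟩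

end XR
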