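import Pool.Agent.P.MP_408b1f_gt.KE
import Pool.Agent.P.MP_408b1f_gt.Win2

/-! The curvature term, the zone differences and the parameter e.
an1: exit_fwd gives i = R^n j in InB sigma near an end (x i <= 2 sigma or >= 1 - 2 sigma). two_links
at i (nearL, nearR), st_near and Link.curv with a = z0 / f (x i) (gamma^2 S^2 <= 3 by gamma_le and
f >= phi) give ct i <= 6 M f (x i)^2 / z0^2 (bD at T.symm i and at i, kap_near). f (x i) is small
when sigma is small (Half.small), given Lambda. Then ct j <= gamma j ^ 2 kappa j |zeta i| +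
gamma j ^ 2 (n |e| + M) <= 8 ct i + 10^8 eps^2 (2 / phi + 1) M by ke with eta = 1, kratio, run_len. -/

open Set MeasureTheory Filter Topology

noncomputable section

namespace XR

variable {f g : ℝ → ℝ}

private theorem an1_sq {γ S ε C φ F : ℝ} (hγ : 0 ≤ γ) (h1 : γ ≤ 10000 * ε) (hφ : 0 < φ)
    (hF : φ ≤ F) (hC : 0 < C) (h2 : |S| ≤ C / F) (h3 : ε ≤ φ / (10000 * C)) :
    γ ^ 2 * S ^ 2 ≤ 3 := by
  have a : |S| ≤ C / φ := h2.trans (div_le_div_of_nonneg_left hC.le hφ hF)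
  have b : γ ≤ φ / C := by
    rw [le_div_iff₀ (by positivity)] at h3
    rw [le_div_iff₀ hC]
    nlinarith
  have d : γ * |S| ≤ 1 := by
    refine (mul_le_mul b a (abs_nonneg _) (by positivity)).trans (le_of_eq ?_)
    field_simp
  have e : γ ^ 2 * S ^ 2 = (γ * |S|) ^ 2 := by rw [mul_pow, sq_abs]
  have h0 : 0 ≤ γ * |S| := by positivity
  nlinarith

private theorem an1_fin {Λ η M z F ε q a b γ : ℝ} (hΛ : 0 < Λ) (hM : 0 ≤ M) (hz : 0 < z)
    (hF : 0 < F) (hF1 : F ≤ 1) (hF2 : F ≤ η * z ^ 2 / (96 * Λ)) (hq : 0 < q) (hε : 0 < ε)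
    (hε1 : ε ≤ 1) (hε2 : ε ≤ η / (2 * 10 ^ 8 * Λ * q)) (hγ : 0 ≤ γ) (hγ' : γ ≤ 10000 * ε)
    (h1 : a * (z / F) ^ 2 ≤ 6 * M) (h2 : b ≤ 8 * a + γ ^ 2 * (q * M)) : Λ * b ≤ η * M := by
  rw [le_div_iff₀ (by positivity)] at hF2 hε2
  rw [div_pow, ← mul_div_assoc, div_le_iff₀ (by positivity)] at h1
  have c1 : Λ * (8 * a) ≤ η / 2 * M := by
    refine le_of_mul_le_mul_right ?_ (by positivity : 0 < z ^ 2)
    have d1 : F ^ 2 ≤ F := by nlinarith
    have d2 := mul_le_mul_of_nonneg_left d1 hM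
    have d3 := mul_le_mul_of_nonneg_left hF2 hM
    have d4 := mul_le_mul_of_nonneg_left h1 hΛ.le
    have d5 := mul_le_mul_of_nonneg_left d2 hΛ.le
    nlinarith
  have c2 : Λ * (γ ^ 2 * (q * M)) ≤ η / 2 * M := by
    have d1 : γ ^ 2 ≤ 10 ^ 8 * ε := by nlinarith
    have d2 := mul_le_mul_of_nonneg_left d1 (by positivity : 0 ≤ Λ * q * M)
    have d3 := mul_le_mul_of_nonneg_left hε2 hM
    nlinarith
  have c3 := mul_le_mul_of_nonneg_left h2 hΛ.le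
  nlinarith

theorem an1 (c : Ctx f g) {η : ℝ} (hη : 0 < η) :
    EvAll c fun Λ σ _ _ S ξ M => ∀ j, S.InB σ j → Λ * ξ.ct j ≤ η * M := by
  obtain ⟨z0, hz0, C0, hC0, hst⟩ := st_near c
  filter_upwards [ke c one_pos, eventually_gt_atTop 0] with Λ hke hΛ
  obtain ⟨s, hs, hsm⟩ := c.hf.small (δ := η * z0 ^ 2 / (96 * Λ)) (by positivity)
  filter_upwards [hke, c.ev_σ, ev_le (half_pos hs)] with σ hke hσ hσs
  obtain ⟨φ, hφ⟩ := c.ev_sm hσ.1 hσ.2
  have hφ0 : 0 < φ := hφ.exists.choose_spec.φpos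
  filter_upwards [hke, hφ, c.toCtx0.ev_small, hst σ hσ.1 hσ.2,
    kap_near c.toCtx0 hσ.1 hσ.2 one_half_pos, ev_le (a := φ / (10000 * C0)) (by positivity),
    ev_le (a := η / (2 * 10 ^ 8 * Λ * (2 / φ + 1))) (by positivity)]
    with ε hke hφ hS hst hkap h1 h2 I S yL yR ς hm ξ M hb j hj
  have hε := hφ.εpos
  have h16 := hφ.le16
  have h4 : 4 * ε ≤ σ := by linarith
  obtain ⟨n, hr, -, e1, e2⟩ := S.exit_fwd hφ hj
  have hk := hke I S yL yR ς hm ξ M hb j n hr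
  obtain ⟨k1, -, k3, -⟩ := kratio hφ hr le_rfl
  have hi : S.InB σ ((S.R ^ n) j) := hr n le_rfl
  set i := (S.R ^ n) j
  have hx : S.x i ≤ 2 * σ ∨ 1 - 2 * σ ≤ S.x i := by
    rcases (S.step hε h4 hj).g1.1.ht with h | h
    · exact Or.inr (by linarith [e1 h])
    · exact Or.inl (by linarith [e2 h])
  have hx0 : S.x i ≤ 2 * c.σ0 ∨ 1 - 2 * c.σ0 ≤ S.x i :=
    hx.imp (fun h => by linarith [hσ.2]) fun h => by linarith [hσ.2]
  have hn : S.G2 i ∧ S.G2 (S.T.symm i) ∧ S.InB (4 * c.σ0) (S.T i) ∧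
      S.InB (4 * c.σ0) (S.T.symm i) := by
    rcases hx0 with h | h
    · obtain ⟨-, -, a, b, -, -, d⟩ := nearL hS hm.toMg0 h
      exact ⟨a, b, d⟩
    · obtain ⟨-, -, a, b, -, -, d⟩ := nearR hS hm.toMg0 h
      exact ⟨a, b, d⟩
  have hA : S.InB σ (S.T i) := hn.2.2.1.mono (by linarith [hσ.1, hσ.2])
  have hB : S.InB σ (S.T.symm i) := hn.2.2.2.mono (by linarith [hσ.1, hσ.2])
  obtain ⟨bB, bA, l1, l2⟩ := two_links ξ hε h4 hi hB hA hn.2.1 hn.1
  obtain ⟨s1, s2, s3, s4, s5⟩ := hst I S yL yR ς hm i hx0 hi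
  have hF : φ ≤ f (S.x i) := hφ.low _ hi
  obtain ⟨κi, -, -, -, γi, -⟩ := S.kappa_pos hε h4 hi
  obtain ⟨κj, -, -, -, γj, -⟩ := S.kappa_pos hε h4 hj
  have gi := S.gamma_le hφ hi
  have hc := Link.curv (sq_nonneg _) l1 l2 s5 (div_nonneg hz0.le (hφ0.le.trans hF)) s3 s1
    (an1_sq γi gi hφ0 hF hC0 s4 h1.2) (an1_sq γi gi hφ0 hF hC0 s2 h1.2)
  have b1 := hb.bD i hi hA
  have b2 := hb.bD (S.T.symm i) hB (by rwa [Equiv.apply_symm_apply])
  rw [Equiv.apply_symm_apply] at b2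
  have b3 : S.κ i ≤ 2 * S.κ (S.T.symm i) := by
    have := (abs_le.1 ((hkap I S yL yR hm.toMg0 i hx0).2.2 hi).2).1
    have h : 1 / 2 ≤ S.κ (S.T.symm i) / S.κ i := by linarith
    rw [le_div_iff₀ κi] at h
    linarith
  have b4 : max |S.κ i * ξ.ζ (S.T i) - S.κ i * ξ.ζ i| |S.κ i * ξ.ζ i - S.κ i * ξ.ζ (S.T.symm i)|
      ≤ 2 * M := by
    rw [← mul_sub, ← mul_sub, abs_mul, abs_mul, abs_of_pos κi, max_le_iff]
    have := mul_le_mul_of_nonneg_right b3 (abs_nonneg (ξ.ζ i - ξ.ζ (S.T.symm i)))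
    constructor <;> linarith [hb.nn]
  refine an1_fin (a := ξ.ct i) hΛ hb.nn hz0 (hφ0.trans_le hF) (c.hf.le1 _ (S.x_mem i))
    (hsm _ (S.x_mem i) (hx.imp (fun h => by linarith [hσs.2]) fun h => by linarith [hσs.2]))
    (by positivity) hε (by linarith [hφ.s4]) h2.2 γj (S.gamma_le hφ hj) ?_ ?_
  · rw [abs_mul, abs_of_pos κi] at hc
    rw [Lin.ct]
    linarith
  · have d1 : |(n : ℝ) * ξ.e| ≤ 2 / φ * M := by
      rw [abs_mul, Nat.abs_cast]
      have := mul_le_mul_of_nonneg_left hb.be (Nat.cast_nonneg (α := ℝ) n)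
      have := mul_le_mul_of_nonneg_right (S.run_len hφ hr) hb.nn
      linarith
    have d2 : S.κ j * |ξ.ζ j| ≤ S.κ j * |ξ.ζ i| + (2 / φ + 1) * M := by
      rw [← abs_of_pos κj, ← abs_mul, ← abs_mul]
      have := abs_le.1 hk
      have := abs_le.1 d1
      have := le_abs_self (S.κ j * ξ.ζ i)
      have := neg_abs_le (S.κ j * ξ.ζ i)
      rw [abs_le]
      constructor <;> linarith
    have d3 : S.γ j ^ 2 * S.κ j ≤ 8 * (S.γ i ^ 2 * S.κ i) := by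
      have := mul_le_mul (pow_le_pow_left₀ γj k3 2) k1 κj.le (sq_nonneg _)
      linarith
    have d4 := mul_le_mul_of_nonneg_right d3 (abs_nonneg (ξ.ζ i))
    have d5 := mul_le_mul_of_nonneg_left d2 (sq_nonneg (S.γ j))
    simp only [Lin.ct]
    linarith

end XR
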