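import Pool.Agent.P.MP_408b1f_gt.KE

/-! The link at the height ys, generic position of the incoming link.
Let i0 = T.symm j0. Half.small gives s2 with i0 in InB s2; let g1 be a lower bound of g on
[r1 / 2, 1 - r1 / 2], phi2 one of f on [s2 / 2, 1 - s2 / 2] (s2 <= 1/4 WLOG). Take r small
(r <= min (s2 / 2) (g1 / 4), 2 r / sigma0 <= min (eta / 4) (r1 / 2) (f0 / 4)), n = floor (r / eps),
j from hwin, i = T.symm j. For l <= 2 n: zfacts at R^l j; R^l i is in InB (s2 / 2) (xstep_pow), its link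
has height yP (R^l j) in [r1 / 2, 1 - r1 / 2], is G2, and the height stays on one side of ys at distance
>= f0 / 2 (G1.ydiff, t1 constant by run_mono), so |m2| in [z, 2 / r1] with constant sign (sg_lower);
t2 (R^l i) is the same at l = 0 and 2 n (G2.x_eq: the chord has length >= g1 and x differences move
by at most 2 r... compare each with the centre n). So by St_est S1 = St (i l) (kappa j l / kappa i l)^2
has the same sign at l = 0, 2 n and size in [z / 16, C]. By zmove the heights yO at l = 0 and 2 n are on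
opposite sides of ys at distance >= eta f0 r / 16 (eps / sigma is much smaller), so m2 has opposite
signs, and St (j l) has opposite signs (St_est, zfacts), size <= Cz (zlink_cmp). two_links and
Link.elim give |D2 - rho D1| <= C M / (Lambda kappa) at both times, with rho = S2 / S1,
D2 = zeta (T j l) - zeta (j l), D1 = zeta (j l) - zeta (i l). dv for j and for i, squeeze, then
dv_transfer from l = 0 to l = n. -/

open Set MeasureTheory Filter Topology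

noncomputable section

namespace XR

variable {f g : ℝ → ℝ}

theorem squeeze {a a' b b' p p' C δ : ℝ} (hp : p * p' ≤ 0) (hC : |p'| ≤ C)
    (h1 : |a - p * b| ≤ δ) (h2 : |a' - p' * b'| ≤ δ) (h3 : |a' - a| ≤ δ) (h4 : |b' - b| ≤ δ) :
    |a| ≤ (2 + C) * δ := by
  have hδ : 0 ≤ δ := (abs_nonneg _).trans h1
  have hC0 : 0 ≤ C := (abs_nonneg _).trans hC
  have h5 : |p' * (b' - b)| ≤ C * δ := by
    rw [abs_mul]; exact mul_le_mul hC h4 (abs_nonneg _) hC0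
  have hs : (p * b) * (p' * b) ≤ 0 := by nlinarith only [hp, sq_nonneg b]
  have hCδ : 0 ≤ C * δ := mul_nonneg hC0 hδ
  obtain ⟨a1, a2⟩ := abs_le.1 h1
  obtain ⟨b1, b2⟩ := abs_le.1 h2
  obtain ⟨c1, c2⟩ := abs_le.1 h3
  obtain ⟨d1, d2⟩ := abs_le.1 h5
  rw [mul_sub] at d1 d2
  rw [abs_le]
  rcases mul_nonpos_iff.1 hs with ⟨u, v⟩ | ⟨u, v⟩ <;> constructor <;> linarith only [hδ, hCδ, a1, u, b2, c1, d2, v, b1, c2, d1, a2]

theorem a2a_alg {D S1 S2 zB bB z b zA bA A B z0 : ℝ} (hD : 0 ≤ D) (h1 : Link D S1 zB bB z b)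
    (h2 : Link D S2 z b zA bA) (pz : 0 < z0) (l1 : z0 ≤ |S1|) (u1 : |S1| ≤ 3 * A)
    (u2 : |S2| ≤ A) (hB : D * |z| ≤ B) :
    |(zA - z) - S2 / S1 * (z - zB)| ≤ 2 * A ^ 2 * B ∧ |S2 / S1| ≤ A / z0 := by
  have p1 : 0 < |S1| := pz.trans_le l1
  have n1 : S1 ≠ 0 := abs_pos.1 p1
  have hA : 0 ≤ A := (abs_nonneg _).trans u2
  have e := Link.elim hD h1 h2
  have e1 : S1 * (zA - z) - S2 * (z - zB) = S1 * ((zA - z) - S2 / S1 * (z - zB)) := by
    field_simp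
  have e2 : D * |S1| * |S2| * (|S1| + |S2|) / 2 * |z| =
      |S1| * (|S2| * (|S1| + |S2|) / 2 * (D * |z|)) := by ring
  rw [e1, e2, abs_mul] at e
  refine ⟨(le_of_mul_le_mul_left e p1).trans ?_, ?_⟩
  · have q0 : 0 ≤ D * |z| := mul_nonneg hD (abs_nonneg _)
    have q1 : |S2| * (|S1| + |S2|) ≤ A * (4 * A) :=
      mul_le_mul u2 (by linarith only [u1, u2]) (by positivity) hA
    exact mul_le_mul (by linarith only [q1]) hB q0 (by positivity)
  · rw [abs_div]; exact div_le_div₀ hA u2 pz l1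

theorem a2a_floor {ε r : ℝ} (hε : 0 < ε) (h : ε ≤ r / 2) :
    ∃ n : ℕ, n * ε ≤ r ∧ r / 2 ≤ n * ε := by
  have h0 : 0 ≤ r / ε := by apply div_nonneg <;> linarith only [hε, h]
  refine ⟨⌊r / ε⌋₊, ?_, ?_⟩
  · have := Nat.floor_le h0
    rwa [le_div_iff₀ hε] at this
  · have := Nat.lt_floor_add_one (r / ε)
    rw [div_lt_iff₀ hε] at this
    linarith only [h, this]

theorem a2a_seq {a : ℕ → ℝ} {lo : ℝ} {N : ℕ} (h : ∀ l < N, lo ≤ a (l + 1) - a l) (k m : ℕ)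
    (hkm : k + m ≤ N) : m * lo ≤ a (k + m) - a k := by
  induction m with
  | zero => simp
  | succ m ih =>
    have i1 := ih (by omega)
    have j1 := h (k + m) (by omega)
    rw [← add_assoc]; push_cast
    linarith only [i1, j1]

theorem a2a_xwin {ε : ℝ} {I : Type} (S : Sys f g ε I) (hε : 0 ≤ ε) (i : I) {n l : ℕ}
    (hl : l ≤ 2 * n) : |S.x ((S.R ^ l) i) - S.x ((S.R ^ n) i)| ≤ n * ε := by
  rcases le_total l n with h | h
  · obtain ⟨k, rfl⟩ := Nat.exists_eq_add_of_le' h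
    have := S.xstep_pow hε ((S.R ^ l) i) k
    rw [← Equiv.Perm.mul_apply, ← pow_add, abs_sub_comm] at this
    refine this.trans ?_
    push_cast; nlinarith only [hε, mul_nonneg (Nat.cast_nonneg (α := ℝ) l) hε]
  · obtain ⟨k, rfl⟩ := Nat.exists_eq_add_of_le' h
    have := S.xstep_pow hε ((S.R ^ n) i) k
    rw [← Equiv.Perm.mul_apply, ← pow_add] at this
    refine this.trans (mul_le_mul_of_nonneg_right ?_ hε)
    exact_mod_cast (by omega : k ≤ n)

/-- the window of R around a link near the height ys -/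
theorem a2a_win {c : Ctx f g} {ε : ℝ} {I : Type} {S : Sys f g ε I} {yL yR ς : ℝ}
    (hs : c.Small ε) (hm : Mg c.η c.ys S yL yR ς) {r r1 s : ℝ} (pr : 0 < r)
    (hr1 : r ≤ c.σ0 * c.η / 8) (hr2 : r ≤ s) (hr3 : r ≤ c.σ0 * r1 / 2)
    (hr4 : r ≤ c.σ0 * c.f0 / 4) {n : ℕ} (n1 : n * ε ≤ r) (n2 : r / 2 ≤ n * ε) {j0 : I}
    (h0 : |S.yO j0 - c.ys| ≤ c.η * c.f0 * r / 16) (hy : S.yP j0 ∈ Icc r1 (1 - r1))
    (hi : S.InB (2 * s) (S.T.symm j0)) :
    ∃ j, (S.R ^ n) j = j0 ∧ (∀ l ≤ 2 * n, |S.yO ((S.R ^ l) j) - c.ys| ≤ c.η / 4 ∧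
      S.InB s (S.T.symm ((S.R ^ l) j)) ∧ S.yP ((S.R ^ l) j) ∈ Icc (r1 / 2) (1 - r1 / 2) ∧
      c.f0 / 2 ≤ S.t1 j * (S.yP ((S.R ^ l) j) - c.ys) ∧ S.t1 ((S.R ^ l) j) = S.t1 j ∧
      S.t2 ((S.R ^ l) j) = S.t2 j) ∧ c.η * c.f0 * r / 16 ≤ S.t2 j * (c.ys - S.yO j) ∧
      c.η * c.f0 * r / 16 ≤ S.t2 j * (S.yO ((S.R ^ (2 * n)) j) - c.ys) := by
  have e1 := c.η_le hm
  have p1 := c.σ0pos
  have p2 := c.ηpos
  have p3 := c.f0pos
  have p4 := c.toCtx0.σ0_le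
  have pε := hs.εpos
  have hη : c.η ≤ 1 := by linarith only [e1, p1, p4, e1.1, e1.2]
  have h1 : r ≤ c.η / 8 := by nlinarith only [hr1, pr, p1, p4]
  have h2 : n * ε ≤ c.σ0 := by nlinarith only [hr1, n1, pr, e1, p1, h1, n2]
  have hf0 : c.f0 ≤ 1 :=
    (c.fge (1 / 2) ⟨by linarith only [pr, e1, p4, h1], by linarith only [pr, e1, p4, h1]⟩).trans (c.hf.le1 _ ⟨by norm_num, by norm_num⟩)
  have k1 : c.η * c.f0 * r / 16 ≤ c.η / 8 := by
    have : c.f0 * r ≤ 1 * 1 := mul_le_mul hf0 (by linarith only [pr, e1, h1]) pr.le zero_le_one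
    nlinarith only [hr1, pr, e1, h1, this, p1]
  have k2 : c.η * c.f0 * r / 16 ≤ c.f0 / 4 := by
    have : c.η * r ≤ 1 * 1 := mul_le_mul hη (by linarith only [pr, e1, h1]) pr.le zero_le_one
    nlinarith only [hr4, pr, e1, h1, this, p1]
  obtain ⟨j, hj, hrun, hw⟩ := hwin hs (zfacts hs hm (h0.trans (by linarith only [pr, h1, k1]))).1 h2
  have q1 : n * ε / c.σ0 ≤ c.η / 8 := by rw [div_le_iff₀ p1]; linarith only [hr1, n1]
  have q2 : n * ε / c.σ0 ≤ r1 / 2 := by rw [div_le_iff₀ p1]; linarith only [hr3, n1]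
  have q3 : n * ε / c.σ0 ≤ c.f0 / 4 := by rw [div_le_iff₀ p1]; linarith only [hr4, n1]
  obtain ⟨o1, o2⟩ := abs_le.1 h0
  have w1 : ∀ l ≤ 2 * n, |S.yO ((S.R ^ l) j) - c.ys| ≤ c.η / 4 := fun l hl => by
    obtain ⟨u, v⟩ := abs_le.1 (hw l hl).2.1
    rw [abs_le]; constructor <;> linarith only [k1, q1, o1, u, o2, v]
  have run' : S.Run (c.σ0 / 2) j (2 * n) := fun l hl => (hrun l hl).mono (by linarith only [p1])
  have w2 : ∀ l ≤ 2 * n, S.t1 ((S.R ^ l) j) = S.t1 j := fun l hl =>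
    (S.run_mono hs.sm run' (l := 0) (l' := l) (by omega) (by omega)).1
  have w3 : ∀ l ≤ 2 * n, S.t2 ((S.R ^ l) j) = S.t2 j := fun l hl => by
    induction l with
    | zero => rfl
    | succ l ih =>
      have := w1 (l + 1) hl
      rw [S.g2a_pow_succ] at this ⊢
      rw [(zmove hs hm (w1 l (by omega)) this).1, ih (by omega)]
  have w4 : ∀ l < 2 * n, c.η * c.f0 / 4 * ε ≤
      S.t2 j * S.yO ((S.R ^ (l + 1)) j) - S.t2 j * S.yO ((S.R ^ l) j) := fun l hl => by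
    have := w1 (l + 1) hl
    rw [S.g2a_pow_succ] at this ⊢
    have h3 := (zmove hs hm (w1 l (by omega)) this).2
    rw [w3 l (by omega)] at h3
    linarith only [h3]
  have m1 := a2a_seq (a := fun l => S.t2 j * S.yO ((S.R ^ l) j)) w4 0 n (by omega)
  have m2 := a2a_seq (a := fun l => S.t2 j * S.yO ((S.R ^ l) j)) w4 n n (by omega)
  simp only [zero_add, ← two_mul, hj, pow_zero, Equiv.Perm.coe_one, id_eq] at m1 m2
  have m3 : c.η * c.f0 * r / 8 ≤ n * (c.η * c.f0 / 4 * ε) := by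
    have : c.η * c.f0 / 4 * (r / 2) ≤ c.η * c.f0 / 4 * (n * ε) :=
      mul_le_mul_of_nonneg_left n2 (by positivity)
    linarith only [this]
  have ht2 : S.t2 j = 1 ∨ S.t2 j = -1 := by
    have := (zfacts hs hm (w1 0 (by omega))).2.2.1
    exact this.1.ht
  refine ⟨j, hj, fun l hl => ⟨w1 l hl, ?_, ?_, ?_, w2 l hl, w3 l hl⟩, ?_, ?_⟩
  · have := abs_le.1 (a2a_xwin S pε.le (S.T.symm j) hl)
    rw [S.comm_pow_symm, S.comm_pow_symm, hj] at this
    exact ⟨by linarith only [hr2, n1, this, hi.1, this.1], by linarith only [hr2, n1, this, hi.2, this.2]⟩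
  · obtain ⟨u, v⟩ := abs_le.1 (hw l hl).2.2
    exact ⟨by linarith only [q2, u, hy.1], by linarith only [q2, v, hy.2]⟩
  · have g1 := (S.g1_of pε (by linarith only [pε, hs.leσ]) (hrun l hl)).1
    have d := g1.ydiff
    have hF := c.fge _ (run' l hl)
    have ht := g1.1.ht
    rw [w2 l hl] at d ht
    obtain ⟨u, v⟩ := abs_le.1 (hw l hl).2.1
    rcases ht with h | h <;> rw [h] at d ⊢ <;> linarith only [k2, q3, o1, d, hF, u, o2, v]
  · rcases ht2 with h | h <;> rw [h] at m1 ⊢ <;> linarith only [o2, m1, m3, o1]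
  · rcases ht2 with h | h <;> rw [h] at m2 ⊢ <;> linarith only [o1, m2, m3, o2]

theorem a2a_up {ε : ℝ} {I : Type} {S : Sys f g ε I} {s φ a : ℝ} (hs : Sm f ε s φ) (pa : 0 < a)
    {j : I} (b1 : S.InB s j) (b2 : S.InB s (S.T j)) (h2 : S.G2 j) (hy : S.yO j ∈ Icc a (1 - a))
    (h : |S.St j| ≤ 4 * (|S.m2 j| + 1) / (S.h j * S.h (S.T j))) :
    |S.St j| ≤ 16 * (1 / a + 1) / φ ^ 2 := by
  have u := (h_bounds hs b1).2.2.1
  have v := (h_bounds hs b2).2.2.1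
  have m := (h2.hslope pa hy.1 hy.2).2.2.2.2
  have pφ := hs.φpos
  have q : φ / 2 * (φ / 2) ≤ S.h j * S.h (S.T j) :=
    mul_le_mul u v (by positivity) (by linarith only [u, pφ])
  refine h.trans ?_
  have e : 16 * (1 / a + 1) / φ ^ 2 = 4 * (1 / a + 1) / (φ / 2 * (φ / 2)) := by
    field_simp; norm_num
  rw [e]
  exact div_le_div₀ (by positivity) (by linarith only [m]) (by positivity) q

theorem a2a_low {ε : ℝ} {I : Type} {S : Sys f g ε I} {s φ z : ℝ} (hs : Sm f ε s φ)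
    {j : I} (b1 : S.InB s j) (b2 : S.InB s (S.T j)) (hz : z ≤ |S.m2 j|)
    (h : |S.m2 j| / (4 * (S.h j * S.h (S.T j))) ≤ |S.St j|) : z / 4 ≤ |S.St j| := by
  obtain ⟨-, -, u, u'⟩ := h_bounds hs b1
  obtain ⟨-, -, v, v'⟩ := h_bounds hs b2
  have pφ := hs.φpos
  have q : S.h j * S.h (S.T j) ≤ 1 * 1 := mul_le_mul u' v' (by linarith only [v, pφ]) zero_le_one
  have q' : 0 < S.h j * S.h (S.T j) := mul_pos (by linarith only [u, pφ]) (by linarith only [v, pφ])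
  exact (div_le_div₀ (abs_nonneg _) hz (by positivity) (by linarith only [q])).trans h

/-- the two links at one time -/
theorem a2a_time {ε : ℝ} {I : Type} {S : Sys f g ε I} (ξ : Lin S) {s φ A B z : ℝ}
    (hs : Sm f ε s φ) (pz : 0 < z) {k : I} (b0 : S.InB s (S.T.symm k)) (b1 : S.InB s k)
    (b2 : S.InB s (S.T k)) (g0 : S.G2 (S.T.symm k)) (g1 : S.G2 k)
    (l0 : z / 4 ≤ |S.St (S.T.symm k)|) (u0 : |S.St (S.T.symm k)| ≤ A) (u1 : |S.St k| ≤ A)
    (hκ : |S.κ k / S.κ (S.T.symm k) - 1| ≤ 1 / 2) (hB : ξ.ct k ≤ B) :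
    ∃ q > (0:ℝ), S.κ k * |(ξ.ζ (S.T k) - ξ.ζ k) -
        S.St k / (S.St (S.T.symm k) * q) * (ξ.ζ k - ξ.ζ (S.T.symm k))| ≤ 2 * A ^ 2 * B ∧
      |S.St k / (S.St (S.T.symm k) * q)| ≤ A / (z / 16) := by
  have pε := hs.εpos
  have h4 : 4 * ε ≤ s := by linarith only [pε, hs.le16]
  have pκ := (S.kappa_pos pε h4 b1).1
  obtain ⟨bB, bA, L1, L2⟩ := two_links ξ pε h4 b1 b0 b2 g0 g1
  obtain ⟨k1, k2⟩ := abs_le.1 hκ
  obtain ⟨q, hq⟩ : ∃ q, q = (S.κ k / S.κ (S.T.symm k)) ^ 2 := ⟨_, rfl⟩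
  have q1 : 1 / 4 ≤ q := by rw [hq]; nlinarith only [k1]
  have q2 : q ≤ 3 := by rw [hq]; nlinarith only [k2, k1]
  rw [← hq] at L1
  have hA : 0 ≤ A := (abs_nonneg _).trans u1
  have e : |S.St (S.T.symm k) * q| = |S.St (S.T.symm k)| * q := by
    rw [abs_mul, abs_of_pos (a := q) (by linarith only [q1])]
  obtain ⟨r1, r2⟩ := a2a_alg (A := A) (B := B) (z0 := z / 16) (sq_nonneg _) L1 L2 (by positivity)
    (by rw [e]; nlinarith only [l0, pz, q1, hq]) (by rw [e]; nlinarith only [u0, pz, q2, l0, abs_nonneg (S.St (S.T.symm k))]) u1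
    (by rw [(linkT_ct ξ pκ).1]; exact hB)
  refine ⟨q, by linarith only [q1], le_trans (le_of_eq ?_) r1, r2⟩
  rw [← abs_of_pos pκ, ← abs_mul, abs_of_pos pκ]
  congr 1; ring

theorem a2a_sign {x x' y y' q q' : ℝ} (hx : x * x' < 0) (hy : 0 < y * y') (hq : 0 < q)
    (hq' : 0 < q') : x / (y * q) * (x' / (y' * q')) ≤ 0 := by
  have e : x / (y * q) * (x' / (y' * q')) = x * x' / (y * y' * (q * q')) := by
    rw [div_mul_div_comm]; congr 1; ring
  rw [e]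
  exact (div_neg_of_neg_of_pos hx (by positivity)).le

theorem a2a_same {x x' u v : ℝ} (h : x * u < 0) (h' : x' * v < 0) (huv : 0 < u * v) :
    0 < x * x' := by
  have : 0 < x * x' * (u * v) := by nlinarith only [h, h', mul_pos_of_neg_of_neg h h']
  exact (pos_iff_pos_of_mul_pos this).2 huv

theorem a2a_opp {x x' u v : ℝ} (h : x * u < 0) (h' : x' * v < 0) (huv : u * v < 0) :
    x * x' < 0 := by
  have := a2a_same (x := x) (x' := -x') (u := u) (v := -v) h (by linarith) (by linarith)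
  linarith

theorem an2a (c : Ctx f g) {η r1 r2 : ℝ} (hη : 0 < η) (h1 : 0 < r1) (h2 : 0 < r2) :
    EvAll c fun _ σ ε _ S ξ M => ∀ j0, |S.yO j0 - c.ys| ≤ ε / σ → S.yP j0 ∈ Icc r1 (1 - r1) →
      r2 ≤ f (S.x (S.T.symm j0)) → S.κ j0 * |ξ.ζ (S.T j0) - ξ.ζ j0| ≤ η * M := by
  have p1 := c.σ0pos
  have p2 := c.ηpos
  have p3 := c.f0pos
  obtain ⟨s2, ps2, hs2⟩ := c.hf.small (δ := r2 / 2) (by positivity)
  obtain ⟨s, ps, hs1, hs0⟩ : ∃ s > (0:ℝ), s ≤ s2 / 2 ∧ s ≤ c.σ0 :=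
    ⟨min _ _, lt_min (by positivity) p1, min_le_left _ _, min_le_right _ _⟩
  obtain ⟨φ, hφ⟩ := c.ev_sm ps hs0
  have pφ : 0 < φ := hφ.exists.choose_spec.φpos
  obtain ⟨g1, pg1, hg1⟩ := c.hg.lower (s := r1 / 2) (by positivity)
  obtain ⟨r, pr, hr1, hr2, hr3, hr4, hr5⟩ : ∃ r > (0:ℝ), r ≤ c.σ0 * c.η / 8 ∧ r ≤ s ∧
      r ≤ c.σ0 * r1 / 2 ∧ r ≤ c.σ0 * c.f0 / 4 ∧ r ≤ g1 / 4 :=
    ⟨min (c.σ0 * c.η / 8) (min s (min (c.σ0 * r1 / 2) (min (c.σ0 * c.f0 / 4) (g1 / 4)))),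
      by positivity, min_le_left _ _, (min_le_right _ _).trans (min_le_left _ _),
      (min_le_right _ _).trans ((min_le_right _ _).trans (min_le_left _ _)),
      (min_le_right _ _).trans ((min_le_right _ _).trans
        ((min_le_right _ _).trans (min_le_left _ _))),
      (min_le_right _ _).trans ((min_le_right _ _).trans
        ((min_le_right _ _).trans (min_le_right _ _)))⟩
  obtain ⟨z1, pz1, hz1⟩ := c.hg.sg_lower c.ysI c.ysmax (δ := c.f0 / 2) (by positivity)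
  obtain ⟨z2, pz2, hz2⟩ :=
    c.hg.sg_lower c.ysI c.ysmax (δ := c.η * c.f0 * r / 16) (by positivity)
  obtain ⟨z, pz, zz1, zz2⟩ : ∃ z > (0:ℝ), z ≤ z1 ∧ z ≤ z2 :=
    ⟨min _ _, lt_min pz1 pz2, min_le_left _ _, min_le_right _ _⟩
  obtain ⟨a, pa, aa1, aa2⟩ : ∃ a > (0:ℝ), a ≤ r1 / 2 ∧ a ≤ c.η :=
    ⟨min _ _, lt_min (by positivity) p2, min_le_left _ _, min_le_right _ _⟩
  obtain ⟨A, hA⟩ : ∃ A, A = 16 * (1 / a + 1) / φ ^ 2 := ⟨_, rfl⟩
  have pA : 0 < A := by rw [hA]; positivity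
  obtain ⟨C, hC⟩ : ∃ C, C = A / (z / 16) := ⟨_, rfl⟩
  have pC : 0 < C := by rw [hC]; positivity
  obtain ⟨e, pe, he⟩ : ∃ e > (0:ℝ), 8 * (2 + C) * e = η :=
    ⟨η / (8 * (2 + C)), by positivity, by field_simp⟩
  filter_upwards [dv c pe, dv_transfer c (η := η / 2) (by positivity),
    eventually_ge_atTop (2 * A ^ 2 / e), eventually_gt_atTop 0] with Λ hdv hdt hΛ pΛ
  filter_upwards [hdv, hdt, ev_le ps] with σ hdv hdt hσ
  filter_upwards [hdv, hdt, c.ev_small, hφ, St_est c.toCtx0 ps hs0 pz,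
    kap_link c.toCtx0 ps hs0 (δ := 1 / 2) (by norm_num), ev_le (a := r / 2) (by positivity),
    ev_le (a := c.η * c.f0 * r / 16 * σ) (mul_pos (by positivity) hσ.1),
    ev_le (a := r1 / 8) (by positivity)]
    with ε hdv hdt hs hsm hSt hkl e1 e2 e3 I S yL yR ς hm ξ M hb j0 h0 hy hx
  have hdv := hdv I S yL yR ς hm ξ M hb
  have hdt := hdt I S yL yR ς hm ξ M hb
  have hSt := hSt I S yL yR hm.toMg0
  have hkl := hkl I S yL yR hm.toMg0
  have pε := e1.1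
  have hM := hb.nn
  obtain ⟨n, n1, n2⟩ := a2a_floor pε e1.2
  have h0' : |S.yO j0 - c.ys| ≤ c.η * c.f0 * r / 16 :=
    h0.trans (by rw [div_le_iff₀ hσ.1]; exact e2.2)
  have hi0 : S.InB (2 * s) (S.T.symm j0) := by
    by_contra hB
    have := hs2 _ (S.x_mem (S.T.symm j0)) (by
      rcases not_and_or.1 hB with h | h
      · left; linarith only [hs1, h, not_le.1 h]
      · right; linarith only [hs1, h, not_le.1 h])
    linarith only [h2, hx, this]
  obtain ⟨j, hj, hw, d0, d1⟩ := a2a_win hs hm pr hr1 hr2 hr3 hr4 n1 n2 h0' hy hi0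
  have bj : ∀ l ≤ 2 * n, S.InB s ((S.R ^ l) j) := fun l hl =>
    (zfacts hs hm (hw l hl).1).1.mono (by linarith only [hs0, hr2, e1])
  have bT : ∀ l ≤ 2 * n, S.InB s (S.T ((S.R ^ l) j)) := fun l hl =>
    (zfacts hs hm (hw l hl).1).2.1.mono (by linarith only [hs0, hr2, e1])
  have gi : ∀ l ≤ 2 * n, S.G2 (S.T.symm ((S.R ^ l) j)) := fun l hl => by
    have := (hw l hl).2.2.1
    refine S.g2_of ?_ ?_ <;> rw [S.yO_Tsymm] <;> linarith only [e1, e3, this.1, this.2, e3.2]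
  have runj : S.Run s j (2 * n) := bj
  have runT : S.Run s (S.T j) (2 * n) := fun l hl => by rw [S.comm_pow]; exact bT l hl
  have runi : S.Run s (S.T.symm j) (2 * n) := fun l hl => by
    rw [S.comm_pow_symm]; exact (hw l hl).2.1
  have ht : S.t1 j = 1 ∨ S.t1 j = -1 := S.g2a_t hsm (bj 0 (by omega))
  have hti : S.t1 (S.T.symm j) = 1 ∨ S.t1 (S.T.symm j) = -1 := S.g2a_t hsm (runi 0 (by omega))
  -- the incoming links
  have inc : ∀ l ≤ 2 * n, z / 4 ≤ |S.St (S.T.symm ((S.R ^ l) j))| ∧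
      |S.St (S.T.symm ((S.R ^ l) j))| ≤ A ∧
      S.St (S.T.symm ((S.R ^ l) j)) *
        -(S.t1 (S.T.symm j) * S.t2 (S.T.symm ((S.R ^ l) j))) < 0 := fun l hl => by
    obtain ⟨-, w2, w3, w4, w5, -⟩ := hw l hl
    have b2 : S.InB s (S.T (S.T.symm ((S.R ^ l) j))) := by
      rw [Equiv.apply_symm_apply]; exact bj l hl
    obtain ⟨s1, s2⟩ := hSt _ w2 b2 (gi l hl)
    have hd : c.f0 / 2 ≤ |S.yP ((S.R ^ l) j) - c.ys| := by
      refine w4.trans ((le_abs_self _).trans (le_of_eq ?_))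
      rw [abs_mul, linkT_abs ht, one_mul]
    have sg : SG g (S.yP ((S.R ^ l) j)) (S.m2 (S.T.symm ((S.R ^ l) j))) := by
      rw [← S.yO_Tsymm]; exact (gi l hl).2
    obtain ⟨m1, m2⟩ := hz1 _ (S.yP_mem _) hd _ sg
    obtain ⟨s3, -, s5⟩ := s2 (zz1.trans m1)
    refine ⟨a2a_low hsm w2 b2 (zz1.trans m1) s3, ?_, ?_⟩
    · rw [hA]
      refine a2a_up hsm pa w2 b2 (gi l hl) ?_ s1
      rw [S.yO_Tsymm]; exact ⟨by linarith only [aa1, w3.1], by linarith only [aa1, w3.2]⟩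
    · have t1 : S.t1 (S.T.symm ((S.R ^ l) j)) = S.t1 (S.T.symm j) := by
        rw [← S.comm_pow_symm]
        exact (S.run_mono hsm runi (l := 0) (l' := l) (by omega) (by omega)).1
      rw [Equiv.apply_symm_apply, t1, w5] at s5
      have m3 : S.t1 j * S.m2 (S.T.symm ((S.R ^ l) j)) < 0 := by
        rcases ht with h | h <;> rw [h] at w4 ⊢ <;> nlinarith only [m2, p3, w4]
      have m4 : 0 < S.St (S.T.symm ((S.R ^ l) j)) *
          (S.t1 (S.T.symm j) * S.t2 (S.T.symm ((S.R ^ l) j))) := by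
        by_contra hn
        nlinarith only [s5, hn, m3, mul_nonneg_of_nonpos_of_nonpos (not_lt.1 hn) m3.le]
      linarith only [m4]
  -- the outgoing links
  have out : ∀ l ≤ 2 * n, |S.St ((S.R ^ l) j)| ≤ A ∧
      (c.η * c.f0 * r / 16 ≤ |S.yO ((S.R ^ l) j) - c.ys| →
        S.St ((S.R ^ l) j) * (S.t2 j * (c.ys - S.yO ((S.R ^ l) j))) < 0) := fun l hl => by
    obtain ⟨w1, -, -, -, w5, w6⟩ := hw l hl
    obtain ⟨-, -, y3, y4, -, y6, -⟩ := zfacts hs hm w1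
    obtain ⟨s1, s2⟩ := hSt _ (bj l hl) (bT l hl) y3
    refine ⟨?_, fun hd => ?_⟩
    · rw [hA]
      exact a2a_up hsm pa (bj l hl) (bT l hl) y3 ⟨by linarith only [aa2, y6.1], by linarith only [aa2, y6.2]⟩ s1
    · obtain ⟨m1, m2⟩ := hz2 _ (S.yO_mem _) hd _ y3.2
      obtain ⟨-, -, s5⟩ := s2 (zz2.trans m1)
      rw [y4, w5, w6, linkT_sq ht, one_mul] at s5
      by_contra hn
      have m0 : 0 < S.m2 ((S.R ^ l) j) * S.m2 ((S.R ^ l) j) :=
        mul_self_pos.2 (abs_pos.1 (by linarith only [pz2, m1]))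
      nlinarith only [hn, m0, s5, m2, mul_nonneg (not_lt.1 hn) m0.le, mul_pos_of_neg_of_neg s5 (neg_lt_zero.2 m2)]
  have ht2 : S.t2 j = 1 ∨ S.t2 j = -1 := (zfacts hs hm (hw 0 (by omega)).1).2.2.1.1.ht
  have pd : 0 < c.η * c.f0 * r / 16 := by positivity
  have sgn2 : S.St j * S.St ((S.R ^ (2 * n)) j) < 0 := by
    have o0 := (out 0 (by omega)).2 (by
      refine d0.trans ((le_abs_self _).trans (le_of_eq ?_))
      rw [abs_mul, linkT_abs ht2, one_mul, abs_sub_comm]; rfl)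
    have o1 := (out (2 * n) le_rfl).2 (by
      refine d1.trans ((le_abs_self _).trans (le_of_eq ?_))
      rw [abs_mul, linkT_abs ht2, one_mul])
    exact a2a_opp o0 o1 (mul_neg_of_pos_of_neg (pd.trans_le d0) (by linarith only [d1, pd]))
  have t2i : S.t2 (S.T.symm ((S.R ^ (2 * n)) j)) = S.t2 (S.T.symm j) := by
    have x0 := (gi 0 (by omega)).x_eq
    have x1 := (gi (2 * n) le_rfl).x_eq
    have y0 := hg1 _ (hw 0 (by omega)).2.2.1
    have y1 := hg1 _ (hw (2 * n) le_rfl).2.2.1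
    have t0 := (gi 0 (by omega)).1.ht
    have t1 := (gi (2 * n) le_rfl).1.ht
    rw [Equiv.apply_symm_apply, S.yO_Tsymm] at x0 x1
    have a0 := abs_le.1 (S.xstep_pow pε.le j (2 * n))
    have a1 := abs_le.1 (S.xstep_pow pε.le (S.T.symm j) (2 * n))
    rw [S.comm_pow_symm] at a1
    simp only [pow_zero, Equiv.Perm.coe_one, id_eq] at x0 y0 t0
    rw [Nat.cast_mul, Nat.cast_ofNat] at a0 a1
    rcases t0 with h | h <;> rcases t1 with h' | h' <;> rw [h] at x0 ⊢ <;> rw [h'] at x1 ⊢ <;>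
      linarith only [hr5, e1, n1, x1, y1, a0, a1, x0, y0, a0.1, a0.2, a1.1, a1.2]
  have sgn1 : 0 < S.St (S.T.symm j) * S.St (S.T.symm ((S.R ^ (2 * n)) j)) := by
    have o0 := (inc 0 (by omega)).2.2
    have o1 := (inc (2 * n) le_rfl).2.2
    rw [t2i] at o1
    refine a2a_same o0 o1 (mul_self_pos.2 ?_)
    intro h
    rw [h, mul_zero] at o0
    exact lt_irrefl _ o0
  have kl : ∀ l ≤ 2 * n, |S.κ ((S.R ^ l) j) / S.κ (S.T.symm ((S.R ^ l) j)) - 1| ≤ 1 / 2 :=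
    fun l hl => by
      have := (hkl _ (hw l hl).2.1 (by rw [Equiv.apply_symm_apply]; exact bj l hl)).1
      rwa [Equiv.apply_symm_apply] at this
  have tm := fun l (hl : l ≤ 2 * n) => a2a_time ξ (A := A) (B := M / Λ) hsm pz (hw l hl).2.1
    (bj l hl) (bT l hl) (gi l hl) (zfacts hs hm (hw l hl).1).2.2.1 (inc l hl).1 (inc l hl).2.1
    (out l hl).1 (kl l hl)
    (by rw [le_div_iff₀ pΛ, mul_comm]; exact hb.bc _ ((bj l hl).mono hσ.2))
  obtain ⟨q0, pq0, A0, -⟩ := tm 0 (by omega)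
  obtain ⟨q1, pq1, A1, A2⟩ := tm (2 * n) le_rfl
  simp only [pow_zero, Equiv.Perm.coe_one, id_eq] at A0
  rw [← hC] at A2
  have h4 : 4 * ε ≤ s := by linarith only [e1, hsm.le16]
  have pκ : 0 < S.κ j := (S.kappa_pos pε h4 (bj 0 (by omega))).1
  have pκi : 0 < S.κ (S.T.symm j) := (S.kappa_pos pε h4 (runi 0 (by omega))).1
  have k1 : S.κ j ≤ 2 * S.κ ((S.R ^ (2 * n)) j) := (kratio hsm runj le_rfl).1
  have k2 : S.κ j ≤ 2 * S.κ (S.T.symm j) := by
    have := (abs_le.1 (kl 0 (by omega))).2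
    simp only [pow_zero, Equiv.Perm.coe_one, id_eq] at this
    rw [← div_le_iff₀ pκi]; linarith only [this]
  have mono : ∀ {k : I} {m : ℕ}, S.Run s k m → S.Run σ k m := fun h l hl => (h l hl).mono hσ.2
  have D1 := hdv j (2 * n) (mono runj) (mono runT)
  have D2 := hdv (S.T.symm j) (2 * n) (mono runi)
    (by rw [Equiv.apply_symm_apply]; exact mono runj)
  rw [S.comm_pow_symm, Equiv.apply_symm_apply, Equiv.apply_symm_apply] at D2
  have hB : 2 * A ^ 2 * (M / Λ) ≤ e * M := by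
    rw [div_le_iff₀ pe] at hΛ
    rw [← mul_div_assoc, div_le_iff₀ pΛ]; nlinarith only [hΛ, hM]
  have heM : 0 ≤ e * M := by positivity
  have sc : ∀ {x y B : ℝ}, S.κ j ≤ 2 * x → x * |y| ≤ B → |S.κ j * y| ≤ 2 * B :=
    fun {x y B} u v => by
      rw [abs_mul, abs_of_pos pκ]; nlinarith only [v, u, abs_nonneg y]
  have key := squeeze (δ := 2 * (e * M))
    (a := S.κ j * (ξ.ζ (S.T j) - ξ.ζ j))
    (a' := S.κ j * (ξ.ζ (S.T ((S.R ^ (2 * n)) j)) - ξ.ζ ((S.R ^ (2 * n)) j)))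
    (b := S.κ j * (ξ.ζ j - ξ.ζ (S.T.symm j)))
    (b' := S.κ j * (ξ.ζ ((S.R ^ (2 * n)) j) - ξ.ζ (S.T.symm ((S.R ^ (2 * n)) j))))
    (a2a_sign sgn2 sgn1 pq0 pq1) A2
    (by rw [mul_left_comm, ← mul_sub]; exact sc (by linarith only [pκ]) (A0.trans hB))
    (by rw [mul_left_comm, ← mul_sub]; exact sc k1 (A1.trans hB))
    (by rw [← mul_sub]; exact sc (by linarith only [pκ]) D1)
    (by rw [← mul_sub]; exact sc k2 D2)
  have fin := (hdt j n (mono (runj.mono (by omega))) (mono (runT.mono (by omega)))).2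
  rw [hj] at fin
  rw [abs_mul, abs_of_pos pκ] at key
  have e4 : 2 * ((2 + C) * (2 * (e * M))) = η / 2 * M := by rw [← he]; ring
  linarith only [key, fin, e4]

end XR
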