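import Pool.Agent.P.MP_408b1f_gt.KE

/-! The link at the height ys, special positions of the incoming link. -/

open Set MeasureTheory Filter Topology

noncomputable section

namespace XR

variable {f g : ℝ → ℝ}

theorem a2b_floor {ε r : ℝ} (hε : 0 < ε) (h : ε ≤ r / 2) :
    ∃ n : ℕ, n * ε ≤ r ∧ r / 2 ≤ n * ε := by
  have h0 : 0 ≤ r / ε := by apply div_nonneg <;> linarith only [hε, h]
  refine ⟨⌊r / ε⌋₊, ?_, ?_⟩
  · have := Nat.floor_le h0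
    rwa [le_div_iff₀ hε] at this
  · have := Nat.lt_floor_add_one (r / ε)
    rw [div_lt_iff₀ hε] at this
    linarith only [h, this]

theorem a2b_seq {a : ℕ → ℝ} {lo hi : ℝ} {N : ℕ}
    (h : ∀ l < N, lo ≤ a (l + 1) - a l ∧ a (l + 1) - a l ≤ hi) (k m : ℕ) (hkm : k + m ≤ N) :
    m * lo ≤ a (k + m) - a k ∧ a (k + m) - a k ≤ m * hi := by
  induction m with
  | zero => simp
  | succ m ih =>
    obtain ⟨i1, i2⟩ := ih (by omega)
    obtain ⟨j1, j2⟩ := h (k + m) (by omega)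
    rw [← add_assoc]; push_cast
    constructor <;> linarith only [i1, j1, i2, j2]

theorem a2b_ends {a : ℕ → ℝ} {lo hi : ℝ} {n : ℕ} (hlo : 0 ≤ lo)
    (h : ∀ l < 2 * n, lo ≤ a (l + 1) - a l ∧ a (l + 1) - a l ≤ hi) :
    ∃ t, (t = 0 ∨ t = 2 * n) ∧ n * lo ≤ |a t| ∧ |a t| ≤ |a n| + n * hi := by
  obtain ⟨p1, p2⟩ := a2b_seq h 0 n (by omega)
  obtain ⟨q1, q2⟩ := a2b_seq h n n (by omega)
  rw [zero_add] at p1 p2
  rw [← two_mul] at q1 q2
  have hn : 0 ≤ n * lo := by positivity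
  by_cases h0 : 0 ≤ a n
  · refine ⟨2 * n, Or.inr rfl, ?_, ?_⟩
    · rw [abs_of_nonneg (by linarith)]; linarith
    · rw [abs_of_nonneg (by linarith), abs_of_nonneg h0]; linarith
  · refine ⟨0, Or.inl rfl, ?_, ?_⟩
    · rw [abs_of_nonpos (by linarith)]; linarith
    · rw [abs_of_nonpos (by linarith), abs_of_nonpos (by linarith)]; linarith

theorem a2b_xwin {ε : ℝ} {I : Type} (S : Sys f g ε I) (hε : 0 ≤ ε) (i : I) {n l : ℕ}
    (hl : l ≤ 2 * n) : |S.x ((S.R ^ l) i) - S.x ((S.R ^ n) i)| ≤ n * ε := by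
  rcases le_total l n with h | h
  · obtain ⟨k, rfl⟩ := Nat.exists_eq_add_of_le' h
    have := S.xstep_pow hε ((S.R ^ l) i) k
    rw [← Equiv.Perm.mul_apply, ← pow_add, abs_sub_comm] at this
    refine this.trans ?_
    push_cast; nlinarith only [hε, mul_nonneg (Nat.cast_nonneg (α := ℝ) l) hε]
  · obtain ⟨k, rfl⟩ := Nat.exists_eq_add_of_le' h
    have := S.xstep_pow hε ((S.R ^ n) i) k
    rw [← Equiv.Perm.mul_apply, ← pow_add] at this
    refine this.trans (mul_le_mul_of_nonneg_right ?_ hε)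
    exact_mod_cast (by omega : k ≤ n)

theorem a2b_zwin {c : Ctx f g} {ε : ℝ} {I : Type} {S : Sys f g ε I} {yL yR ς : ℝ}
    (hs : c.Small ε) (hm : Mg c.η c.ys S yL yR ς) {r : ℝ} (hr : r ≤ c.σ0 * c.η / 8) {n : ℕ}
    (hn : n * ε ≤ r) {j0 : I} (h0 : |S.yO j0 - c.ys| ≤ r) :
    n * ε ≤ c.σ0 ∧ ∃ j, (S.R ^ n) j = j0 ∧ S.Run c.σ0 j (2 * n) ∧
      ∀ l ≤ 2 * n, |S.yO ((S.R ^ l) j) - c.ys| ≤ c.η / 4 := by
  have e1 := c.η_le hm
  have p1 := c.σ0pos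
  have p2 := c.ηpos
  have p3 := c.toCtx0.σ0_le
  have hη : c.η ≤ 1 := by linarith only [e1, p1, p3, e1.1, e1.2]
  have h1 : r ≤ c.η / 8 := by nlinarith only [hr, p2, p3]
  have h2 : n * ε ≤ c.σ0 := by nlinarith only [hr, hn, p1, e1]
  obtain ⟨j, hj, hrun, hw⟩ := hwin hs (zfacts hs hm (h0.trans (by linarith only [p2, h1]))).1 h2
  refine ⟨h2, j, hj, hrun, fun l hl => ?_⟩
  have h3 : n * ε / c.σ0 ≤ c.η / 8 := by rw [div_le_iff₀ p1]; linarith only [hr, hn]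
  have := (hw l hl).2.1
  calc |S.yO ((S.R ^ l) j) - c.ys|
      = |(S.yO ((S.R ^ l) j) - S.yO j0) + (S.yO j0 - c.ys)| := by ring_nf
    _ ≤ _ := abs_add_le _ _
    _ ≤ c.η / 4 := by linarith only [h0, h1, h3, this]

theorem a2b_fin (c : Ctx f g) : ∃ Cz > (0:ℝ), ∀ η > (0:ℝ),
    EvAll c fun Λ _ _ _ S ξ M => ∀ (j) (n : ℕ) (δ : ℝ),
      (∀ l ≤ 2 * n, |S.yO ((S.R ^ l) j) - c.ys| ≤ c.η / 4) →
      (∃ t, (t = 0 ∨ t = 2 * n) ∧ |ξ.β ((S.R ^ t) j)| ≤ δ * M) →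
      S.κ ((S.R ^ n) j) * |ξ.ζ (S.T ((S.R ^ n) j)) - ξ.ζ ((S.R ^ n) j)| ≤
        (2 * Cz * (δ + 1 / Λ) + η) * M := by
  obtain ⟨Cz, pz, hz⟩ := zlink_cmp c
  refine ⟨Cz, pz, fun η hη => ?_⟩
  filter_upwards [hz, dv_transfer c hη] with Λ hz hd
  filter_upwards [hz, hd, c.ev_σ] with σ hz hd hσ
  filter_upwards [hz, hd, c.ev_small] with ε hz hd hs I S yL yR ς hm ξ M hb j n δ hw ht
  have hz := hz I S yL yR ς hm ξ M hb
  have hd := hd I S yL yR ς hm ξ M hb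
  have p1 := c.σ0pos
  have r1 : S.Run σ j (n + n) := fun l hl =>
    (zfacts hs hm (hw l (by omega))).1.mono (by linarith only [hσ, hσ.2])
  have r2 : S.Run σ (S.T j) (n + n) := fun l hl => by
    rw [S.comm_pow]; exact (zfacts hs hm (hw l (by omega))).2.1.mono (by linarith only [hσ, hσ.2])
  obtain ⟨t, ht, hβ⟩ := ht
  have key : S.κ ((S.R ^ t) j) * |ξ.ζ (S.T ((S.R ^ t) j)) - ξ.ζ ((S.R ^ t) j)| ≤
      Cz * (δ * M + M / Λ) :=
    (hz _ (hw t (by omega))).2.2.2.2.1.trans (mul_le_mul_of_nonneg_left (by linarith) pz.le)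
  have fin : 2 * (Cz * (δ * M + M / Λ)) + η * M = (2 * Cz * (δ + 1 / Λ) + η) * M := by ring
  rcases ht with rfl | rfl
  · have := (hd j n (r1.mono (by omega)) (r2.mono (by omega))).2
    simp only [pow_zero, Equiv.Perm.coe_one, id_eq] at key
    linarith only [fin, this, key]
  · have r2' := r2.shift
    rw [S.comm_pow] at r2'
    have := (hd _ n r1.shift r2').1
    rw [← Equiv.Perm.mul_apply (S.R ^ n), ← pow_add, ← two_mul] at this
    linarith only [fin, key, this]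

theorem an2b (c : Ctx f g) {η : ℝ} (hη : 0 < η) : ∃ r1 > (0:ℝ),
    EvAll c fun _ σ ε _ S ξ M => ∀ j0, |S.yO j0 - c.ys| ≤ ε / σ →
      (S.yP j0 < r1 ∨ 1 - r1 < S.yP j0) → S.κ j0 * |ξ.ζ (S.T j0) - ξ.ζ j0| ≤ η * M := by
  obtain ⟨Cz, pz, hfin⟩ := a2b_fin c
  obtain ⟨Cp, pp, hp⟩ := plink_bd c
  obtain ⟨s, ps, hp⟩ := hp (max 1 (240 * Cz / η)) (le_max_left _ _)
  have p1 := c.σ0pos
  have p2 := c.ηpos
  have p3 := c.f0pos
  obtain ⟨r, pr, hr1, hr2⟩ : ∃ r > (0:ℝ), r ≤ c.σ0 * c.η / 8 ∧ r ≤ c.σ0 * s / 2 :=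
    ⟨min _ _, lt_min (by positivity) (by positivity), min_le_left _ _, min_le_right _ _⟩
  obtain ⟨r1, pr1, h11, h12, h13⟩ : ∃ r1 > (0:ℝ), r1 ≤ s / 2 ∧ r1 ≤ c.η / 4 ∧ r1 ≤ c.f0 / 2 :=
    ⟨min _ (min _ _), lt_min (by positivity) (lt_min (by positivity) (by positivity)),
      min_le_left _ _, (min_le_right _ _).trans (min_le_left _ _),
      (min_le_right _ _).trans (min_le_right _ _)⟩
  refine ⟨r1, pr1, ?_⟩
  filter_upwards [hfin (η / 2) (by positivity), hp,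
    eventually_ge_atTop (8 * Cz * (1 + Cp / (c.f0 * r / 2)) / η), eventually_gt_atTop 0]
    with Λ hfin hp hΛ pΛ
  filter_upwards [hfin, hp, c.ev_σ] with σ hfin hp hσ
  filter_upwards [hfin, hp, c.ev_small, ev_le (a := r / 2) (by positivity),
    ev_le (a := r * σ) (mul_pos pr hσ.1)] with ε hfin hp hs e1 e2 I S yL yR ς hm ξ M hb j0 h0 hy
  obtain ⟨n, n1, n2⟩ := a2b_floor e1.1 e1.2
  have h0' : |S.yO j0 - c.ys| ≤ r := h0.trans (by rw [div_le_iff₀ hσ.1]; exact e2.2)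
  obtain ⟨n3, j, hj, hrun, hw⟩ := a2b_zwin hs hm hr1 n1 h0'
  obtain ⟨τ, hτ⟩ : ∃ τ : ℝ, (τ = 1 ∧ 1 - r1 ≤ S.yO (S.T.symm j0)) ∨
      (τ = -1 ∧ S.yO (S.T.symm j0) ≤ r1) := by
    rw [S.yO_Tsymm]
    rcases hy with h | h
    exacts [⟨-1, Or.inr ⟨rfl, h.le⟩⟩, ⟨1, Or.inl ⟨rfl, h.le⟩⟩]
  obtain ⟨b1, -, t1, t2⟩ := pfacts hs hm h12 h13 hτ
  obtain ⟨i, hi, irun, iw⟩ := hwin hs b1 n3
  have hT : S.T i = j := (S.R ^ n).injective (by
    rw [S.comm_pow, hi, hj, Equiv.apply_symm_apply])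
  have lev : ∀ {k : I}, S.Run c.σ0 k (2 * n) → S.t1 ((S.R ^ n) k) = S.t1 k := fun {k} hk =>
    (S.run_mono hs.sm (n := 2 * n) (fun l hl => (hk l hl).mono (by linarith only [p1])) (l := 0) (l' := n)
      (by omega) (by omega)).1
  have u1 : S.t1 i = -τ := by rw [← lev irun, hi, t1]
  have u2 : S.t1 (S.T i) = τ := by
    rw [hT, ← lev hrun, hj, ← t2, Equiv.apply_symm_apply]
  have hc := pchord hs irun (hT ▸ hrun) u1 u2 (l := 0) (l' := 2 * n) (by omega) le_rfl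
  have hτ1 : |τ| = 1 := by rcases hτ with h | h <;> simp [h.1]
  obtain ⟨t, ht, hd⟩ : ∃ t, (t = 0 ∨ t = 2 * n) ∧
      c.f0 * r / 2 ≤ |S.x (S.T ((S.R ^ t) i)) - S.x ((S.R ^ t) i)| := by
    by_contra hno
    push Not at hno
    have q0 := hno 0 (Or.inl rfl)
    have q1 := hno (2 * n) (Or.inr rfl)
    have w0 := neg_abs_le (τ * (S.x (S.T ((S.R ^ 0) i)) - S.x ((S.R ^ 0) i)))
    have w1 := le_abs_self (τ * (S.x (S.T ((S.R ^ (2 * n)) i)) - S.x ((S.R ^ (2 * n)) i)))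
    rw [abs_mul, hτ1] at w0 w1
    rw [Nat.cast_mul, Nat.cast_zero, Nat.cast_ofNat] at hc
    have w2 : c.f0 * (r / 2) ≤ c.f0 * (n * ε) := mul_le_mul_of_nonneg_left n2 p3.le
    linarith only [hc, q0, q1, w0, w1, w2]
  have hh : S.yO ((S.R ^ t) i) ≤ s ∨ 1 - s ≤ S.yO ((S.R ^ t) i) := by
    have := abs_le.1 (iw t (by omega)).2.1
    have h3 : n * ε / c.σ0 ≤ s / 2 := by rw [div_le_iff₀ p1]; linarith only [hr2, n1]
    rcases hτ with h | h
    · right; linarith only [h11, this, h3, h, h.2, this.1]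
    · left; linarith only [h11, this, h3, h, h.2, this.2]
  have hβ := (hp I S yL yR ς hm ξ M hb _ _ hh (by positivity) hd).2
  rw [← S.comm_pow, hT] at hβ
  have := hfin I S yL yR ς hm ξ M hb j n _ hw ⟨t, ht, hβ⟩
  rw [hj] at this
  refine this.trans (mul_le_mul_of_nonneg_right ?_ hb.nn)
  have a1 : 2 * Cz * (30 / max 1 (240 * Cz / η)) ≤ η / 4 := by
    have : 240 * Cz / η ≤ max 1 (240 * Cz / η) := le_max_right _ _
    have pm : 0 < max 1 (240 * Cz / η) := lt_of_lt_of_le one_pos (le_max_left _ _)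
    rw [div_le_iff₀ hη] at this
    rw [← mul_div_assoc, div_le_iff₀ pm]; linarith only [this]
  have a2 : 2 * Cz * (Cp / (c.f0 * r / 2 * Λ) + 1 / Λ) ≤ η / 4 := by
    rw [div_le_iff₀ hη] at hΛ
    have : Cp / (c.f0 * r / 2 * Λ) + 1 / Λ = (1 + Cp / (c.f0 * r / 2)) / Λ := by
      field_simp; ring
    rw [this, ← mul_div_assoc, div_le_iff₀ pΛ]; linarith only [hΛ]
  linarith only [a1, a2]

theorem an2c (c : Ctx f g) {η : ℝ} (hη : 0 < η) : ∃ r2 > (0:ℝ),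
    EvAll c fun _ σ ε _ S ξ M => ∀ j0, |S.yO j0 - c.ys| ≤ ε / σ →
      f (S.x (S.T.symm j0)) < r2 → S.κ j0 * |ξ.ζ (S.T j0) - ξ.ζ j0| ≤ η * M := by
  obtain ⟨Cz, pz, hfin⟩ := a2b_fin c
  obtain ⟨Ce, pe, he⟩ := elink_bd c
  have p1 := c.σ0pos
  have p2 := c.ηpos
  have p3 := c.f0pos
  obtain ⟨a, pa, ha⟩ : ∃ a > (0:ℝ), 20 * Cz * Ce * a = η :=
    ⟨η / (20 * Cz * Ce), by positivity, by field_simp⟩
  obtain ⟨r, pr, hr1, hr2⟩ : ∃ r > (0:ℝ), r ≤ c.σ0 * c.η / 8 ∧ r ≤ c.σ0 * a / 2 :=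
    ⟨min _ _, lt_min (by positivity) (by positivity), min_le_left _ _, min_le_right _ _⟩
  obtain ⟨s, ps, hsm⟩ := c.hf.small (δ := c.η * c.f0 / 4 * r / 2) (by positivity)
  refine ⟨min c.f0 a, lt_min p3 pa, ?_⟩
  filter_upwards [hfin (η / 2) (by positivity), he,
    eventually_ge_atTop (1 / (a * (c.η * c.f0 / 4 * r))), eventually_ge_atTop (1 / (Ce * a)),
    eventually_gt_atTop 0] with Λ hfin he hΛ hΛ' pΛ
  filter_upwards [hfin, he, c.ev_σ, ev_le ps] with σ hfin he hσ hσs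
  filter_upwards [hfin, he, c.ev_small, ev_le (a := r / 2) (by positivity),
    ev_le (a := r * σ) (mul_pos pr hσ.1), ev_le pa]
    with ε hfin he hs e1 e2 e3 I S yL yR ς hm ξ M hb j0 h0 hy
  obtain ⟨n, n1, n2⟩ := a2b_floor e1.1 e1.2
  have h0' : |S.yO j0 - c.ys| ≤ r := h0.trans (by rw [div_le_iff₀ hσ.1]; exact e2.2)
  obtain ⟨n3, j, hj, -, hw⟩ := a2b_zwin hs hm hr1 n1 h0'
  obtain ⟨i, hT⟩ := S.T.surjective j
  have hi : (S.R ^ n) i = S.T.symm j0 := by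
    rw [Equiv.eq_symm_apply, ← S.comm_pow, hT, hj]
  rw [← hi] at hy
  have xw := fun l (hl : l ≤ 2 * n) => abs_le.1 (a2b_xwin S e1.1.le i hl)
  have side : (∀ l ≤ 2 * n, S.x ((S.R ^ l) i) ≤ 2 * c.σ0) ∨
      (∀ l ≤ 2 * n, 1 - 2 * c.σ0 ≤ S.x ((S.R ^ l) i)) := by
    by_cases q1 : S.x ((S.R ^ n) i) < c.σ0 / 2
    · exact Or.inl fun l hl => by linarith only [p1, n3, q1, hl, (xw l hl).2]
    by_cases q2 : 1 - c.σ0 / 2 < S.x ((S.R ^ n) i)
    · exact Or.inr fun l hl => by linarith only [p1, n3, q2, hl, (xw l hl).1]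
    have := c.fge _ ⟨not_lt.1 q1, not_lt.1 q2⟩
    linarith only [hy, this, min_le_left c.f0 a]
  have lo0 : 0 ≤ 2 * (c.η * c.f0 / 4 * ε) := by have := e1.1; positivity
  obtain ⟨t, ht, d1, d2⟩ : ∃ t, (t = 0 ∨ t = 2 * n) ∧
      n * (2 * (c.η * c.f0 / 4 * ε)) ≤ |S.yP ((S.R ^ t) i) - S.yO ((S.R ^ t) i)| ∧
      |S.yP ((S.R ^ t) i) - S.yO ((S.R ^ t) i)| ≤
        |S.yP ((S.R ^ n) i) - S.yO ((S.R ^ n) i)| + n * (2 * (ε / c.σ0)) := by
    rcases side with h | h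
    · refine a2b_ends (a := fun l => S.yP ((S.R ^ l) i) - S.yO ((S.R ^ l) i)) lo0 fun l hl => ?_
      have e : (S.R ^ (l + 1)) i = S.R ((S.R ^ l) i) := by rw [pow_succ']; rfl
      obtain ⟨k1, k2, k3, k4⟩ := ls hs hm.toMg0 (h l (by omega)) (e ▸ h (l + 1) (by omega))
      simp only [e]; constructor <;> linarith only [k1, k3, k2, k4]
    · obtain ⟨t, ht, d1, d2⟩ := a2b_ends (hi := 2 * (ε / c.σ0)) (n := n)
        (a := fun l => S.yO ((S.R ^ l) i) - S.yP ((S.R ^ l) i)) lo0 fun l hl => by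
          have e : (S.R ^ (l + 1)) i = S.R ((S.R ^ l) i) := by rw [pow_succ']; rfl
          obtain ⟨k1, k2, k3, k4⟩ := lsR hs hm.toMg0 (h l (by omega)) (e ▸ h (l + 1) (by omega))
          simp only [e]; constructor <;> linarith only [k1, k3, k2, k4]
      exact ⟨t, ht, by rwa [abs_sub_comm], by rwa [abs_sub_comm, abs_sub_comm (S.yP _)]⟩
  have d0 : c.η * c.f0 / 4 * r ≤ |S.yP ((S.R ^ t) i) - S.yO ((S.R ^ t) i)| := by
    refine le_trans ?_ d1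
    have : 0 < c.η * c.f0 / 4 := by positivity
    nlinarith only [e1, n2, lo0]
  have pc : 0 < c.η * c.f0 / 4 * r := by positivity
  have g1 : S.G1 ((S.R ^ t) i) := S.g1_of_ne c.hf.zero0 c.hf.zero1 fun h => by
    have : S.yP ((S.R ^ t) i) = S.yO ((S.R ^ t) i) := congrArg Prod.snd h
    rw [this, sub_self, abs_zero] at d0; linarith only [d0, pc]
  have hF : |S.yP ((S.R ^ t) i) - S.yO ((S.R ^ t) i)| = f (S.x ((S.R ^ t) i)) := by
    rw [g1.ydiff, abs_mul, abs_of_nonneg (c.hf.nonneg _ (S.x_mem _))]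
    rcases g1.1.ht with h | h <;> simp [h]
  have vd : |S.yP ((S.R ^ n) i) - S.yO ((S.R ^ n) i)| ≤ f (S.x ((S.R ^ n) i)) :=
    S.hK.vdist (S.memP _).1 (S.memO _).1 (S.lev1 _)
  rw [hF] at d0 d2
  have F2 : f (S.x ((S.R ^ t) i)) ≤ 2 * a := by
    have : n * (2 * (ε / c.σ0)) ≤ a := by
      have : n * (2 * (ε / c.σ0)) = 2 * (n * ε) / c.σ0 := by ring
      rw [this, div_le_iff₀ p1]; linarith only [hr2, n1]
    linarith only [hy, d2, vd, this, min_le_right c.f0 a]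
  have hB : S.InB σ ((S.R ^ t) i) := by
    by_contra hB
    have := hsm _ (S.x_mem ((S.R ^ t) i)) (by
      rcases not_and_or.1 hB with h | h
      · left; linarith only [hσs, h, not_le.1 h, hσs.2]
      · right; linarith only [hσs, h, not_le.1 h, hσs.2])
    linarith only [d0, pc, this]
  have hβ := he I S yL yR ς hm ξ M hb ((S.R ^ t) i)
    (side.imp (fun h => h t (by omega)) fun h => h t (by omega)) hB
  rw [← S.comm_pow, hT] at hβ
  have := hfin I S yL yR ς hm ξ M hb j n _ hw ⟨t, ht, hβ⟩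
  rw [hj] at this
  refine this.trans (mul_le_mul_of_nonneg_right ?_ hb.nn)
  have a1 : 1 / (Λ * f (S.x ((S.R ^ t) i))) ≤ a := by
    rw [div_le_iff₀ (by positivity)] at hΛ
    rw [div_le_iff₀ (mul_pos pΛ (by linarith only [d0, pc]))]
    have : Λ * a * (c.η * c.f0 / 4 * r) ≤ Λ * a * f (S.x ((S.R ^ t) i)) :=
      mul_le_mul_of_nonneg_left d0 (by positivity)
    linarith only [hΛ, this]
  have a2 : 1 / Λ ≤ Ce * a := by
    rw [div_le_iff₀ (by positivity)] at hΛ'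
    rw [div_le_iff₀ pΛ]; linarith only [hΛ']
  have a3 : Ce * (f (S.x ((S.R ^ t) i)) + 1 / (Λ * f (S.x ((S.R ^ t) i))) + ε) ≤ Ce * (4 * a) :=
    mul_le_mul_of_nonneg_left (by linarith only [e3, F2, a1, e3.2]) pe.le
  have a4 : 2 * Cz * (Ce * (f (S.x ((S.R ^ t) i)) + 1 / (Λ * f (S.x ((S.R ^ t) i))) + ε) + 1 / Λ) ≤
      2 * Cz * (5 * (Ce * a)) := mul_le_mul_of_nonneg_left (by linarith only [a2, a3]) (by positivity)
  linarith only [ha, a4]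

end XR
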