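import Pool.Agent.P.MP_408b1f_gt.An2a
import Pool.Agent.P.MP_408b1f_gt.An2b
import Pool.Agent.P.MP_408b1f_gt.Win2

/-! All link differences are small.
an2: mid_travel, an2a, an2b, an2c, dv_transfer.
an3w: by nearL_t (nearR_t) t1 (T i) = - t1 (T.symm i), so one of the two links at i has equal t1 at
its ends and an2 applies to it (kap_near to pass from kappa (T.symm i) to kappa i). two_links,
Link.elim and st_near (f (x i) in [f0, 1], so both parameters have size in [z0, C0 / f0]) bound the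
other one by (C0 / (f0 z0)) times the first plus C ct i <= C M / Lambda.
an3: joint_fwd, then end_window for the index near the end (R^n j or T (R^n j)), an3w and
dv_transfer twice (for the link from T.symm i use comm_pow_symm and T (T.symm i) = i). -/

open Set MeasureTheory Filter Topology

noncomputable section

namespace XR

variable {f g : ℝ → ℝ}

theorem an2 (c : Ctx f g) {η : ℝ} (hη : 0 < η) :
    EvAll c fun _ σ _ _ S ξ M => ∀ j, S.InB σ j → S.InB σ (S.T j) → S.t1 j = S.t1 (S.T j) →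
      S.κ j * |ξ.ζ (S.T j) - ξ.ζ j| ≤ η * M := by
  have h4 : 0 < η / 4 := by positivity
  obtain ⟨r1, p1, hb⟩ := an2b c h4
  obtain ⟨r2, p2, hc⟩ := an2c c h4
  filter_upwards [an2a c h4 p1 p2, hb, hc, dv_transfer c (half_pos hη)] with Λ ha hb hc hd
  filter_upwards [ha, hb, hc, hd, c.ev_σ] with σ ha hb hc hd hσ
  obtain ⟨φ, hφ⟩ := c.ev_sm hσ.1 hσ.2
  filter_upwards [ha, hb, hc, hd, hφ, c.toCtx0.ev_small]
    with ε ha hb hc hd hφ hS I S yL yR ς hm ξ M hB j hj hj' ht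
  obtain ⟨j0, n, hr, h0⟩ := mid_travel hS hm hφ hσ.2 hj hj' ht
  have key : S.κ j0 * |ξ.ζ (S.T j0) - ξ.ζ j0| ≤ η / 4 * M := by
    by_cases k1 : S.yP j0 < r1 ∨ 1 - r1 < S.yP j0
    · exact hb I S yL yR ς hm ξ M hB j0 h0 k1
    rcases lt_or_ge (f (S.x (S.T.symm j0))) r2 with k2 | k2
    · exact hc I S yL yR ς hm ξ M hB j0 h0 k2
    · rw [not_or, not_lt, not_lt] at k1
      exact ha I S yL yR ς hm ξ M hB j0 h0 k1 k2
  rcases hr with ⟨e, a, b⟩ | ⟨e, a, b⟩
  · have := (hd I S yL yR ς hm ξ M hB j n a b).1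
    rw [e] at this
    linarith only [key, this]
  · have := (hd I S yL yR ς hm ξ M hB j0 n a b).2
    rw [e] at this
    linarith

theorem an3_alg {D S1 S2 zB bB z b zA bA A B z0 : ℝ} (hD : 0 ≤ D) (h1 : Link D S1 zB bB z b)
    (h2 : Link D S2 z b zA bA) (l1 : z0 ≤ |S1|) (l2 : z0 ≤ |S2|) (u1 : |S1| ≤ A)
    (u2 : |S2| ≤ A) (hB : D * |z| ≤ B) :
    z0 * |zA - z| ≤ A * |z - zB| + A ^ 3 * B ∧ z0 * |z - zB| ≤ A * |zA - z| + A ^ 3 * B := by
  have hA : 0 ≤ A := (abs_nonneg _).trans u2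
  have e := Link.elim hD h1 h2
  have q0 : 0 ≤ D * |z| := mul_nonneg hD (abs_nonneg _)
  have q1 : |S1| * |S2| ≤ A * A := mul_le_mul u1 u2 (abs_nonneg _) hA
  have q2 : |S1| * |S2| * ((|S1| + |S2|) / 2) ≤ A * A * A :=
    mul_le_mul q1 (by linarith only [u1, u2]) (by positivity) (by positivity)
  have q3 := mul_le_mul q2 hB q0 (by positivity)
  have q4 : |S1 * (zA - z) - S2 * (z - zB)| ≤ A ^ 3 * B := by linarith only [e, q3]
  have r1 := abs_sub_abs_le_abs_sub (S1 * (zA - z)) (S2 * (z - zB))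
  have r2 := abs_sub_abs_le_abs_sub (S2 * (z - zB)) (S1 * (zA - z))
  rw [abs_sub_comm (S2 * (z - zB))] at r2
  rw [abs_mul, abs_mul] at r1 r2
  have s1 := mul_le_mul_of_nonneg_right l1 (abs_nonneg (zA - z))
  have s2 := mul_le_mul_of_nonneg_right l2 (abs_nonneg (z - zB))
  have s3 := mul_le_mul_of_nonneg_right u1 (abs_nonneg (zA - z))
  have s4 := mul_le_mul_of_nonneg_right u2 (abs_nonneg (z - zB))
  constructor <;> linarith only [e, q3, r1, s1, s4, r2, s2, s3]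

theorem an3w (c : Ctx f g) {η : ℝ} (hη : 0 < η) :
    EvAll c fun _ _ ε _ S ξ M => ∀ i,
      (S.x i ∈ Icc c.σ0 (c.σ0 + ε) ∨ S.x i ∈ Icc (1 - c.σ0 - ε) (1 - c.σ0)) →
      S.κ i * |ξ.ζ (S.T i) - ξ.ζ i| ≤ η * M ∧
        S.κ (S.T.symm i) * |ξ.ζ i - ξ.ζ (S.T.symm i)| ≤ η * M := by
  obtain ⟨z0, hz0, C0, hC0, hst⟩ := st_near c
  have pf := c.f0pos
  have pσ := c.σ0pos
  have pσ' := c.toCtx0.σ0_le
  obtain ⟨A, pA, hA⟩ : ∃ A > (0:ℝ), A = C0 / c.f0 := ⟨_, by positivity, rfl⟩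
  obtain ⟨θ, pθ, θ1, θ2⟩ : ∃ θ > (0:ℝ), θ ≤ η ∧ θ ≤ η * z0 / (4 * A) :=
    ⟨min _ _, by positivity, min_le_left _ _, min_le_right _ _⟩
  rw [le_div_iff₀ (by positivity)] at θ2
  filter_upwards [an2 c pθ, eventually_gt_atTop 0, eventually_ge_atTop (4 * A ^ 3 / (η * z0))]
    with Λ ha hΛ hΛ'
  rw [div_le_iff₀ (by positivity)] at hΛ'
  filter_upwards [ha, c.ev_σ] with σ ha hσ
  obtain ⟨φ, hφ⟩ := c.ev_sm hσ.1 hσ.2
  filter_upwards [ha, hφ, c.toCtx0.ev_small, hst σ hσ.1 hσ.2,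
    kap_near c.toCtx0 hσ.1 hσ.2 one_half_pos]
    with ε ha hφ hS hst hkap I S yL yR ς hm ξ M hb i hx
  have hε := hφ.εpos
  have h4 : 4 * ε ≤ σ := by linarith only [hε, hφ.le16]
  have h64 := hS.leσ
  have hM := hb.nn
  have hi0 : S.InB c.σ0 i := by
    rcases hx with h | h
    · exact ⟨h.1, by linarith [h.2]⟩
    · exact ⟨by linarith [h.1], h.2⟩
  have hi : S.InB σ i := hi0.mono hσ.2
  have hx0 : S.x i ≤ 2 * c.σ0 ∨ 1 - 2 * c.σ0 ≤ S.x i :=
    hx.imp (fun h => by linarith [h.2]) fun h => by linarith [h.1]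
  have hn : S.G2 i ∧ S.G2 (S.T.symm i) ∧ S.InB (4 * c.σ0) (S.T i) ∧
      S.InB (4 * c.σ0) (S.T.symm i) := by
    rcases hx0 with h | h
    · obtain ⟨-, -, a, b, -, -, d⟩ := nearL hS hm.toMg0 h
      exact ⟨a, b, d⟩
    · obtain ⟨-, -, a, b, -, -, d⟩ := nearR hS hm.toMg0 h
      exact ⟨a, b, d⟩
  have ht : S.t1 i = S.t1 (S.T i) ∨ S.t1 (S.T.symm i) = S.t1 i := by
    have a := (S.step hε h4 hi).g1.1.ht
    have b := hm.hς
    rcases hx0 with h | h
    · obtain ⟨u, v, -⟩ := nearL_t hS hm h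
      rw [u, v]
      rcases a with a | a <;> rcases b with b | b <;> rw [a, b] <;> norm_num
    · obtain ⟨u, v, -⟩ := nearR_t hS hm h
      rw [u, v]
      rcases a with a | a <;> rcases b with b | b <;> rw [a, b] <;> norm_num
  have hTA : S.InB σ (S.T i) := hn.2.2.1.mono (by linarith [hσ.1, hσ.2])
  have hTB : S.InB σ (S.T.symm i) := hn.2.2.2.mono (by linarith [hσ.1, hσ.2])
  obtain ⟨bB, bA, l1, l2⟩ := two_links ξ hε h4 hi hTB hTA hn.2.1 hn.1
  obtain ⟨s1, s2, s3, s4, -⟩ := hst I S yL yR ς hm i hx0 hi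
  have hF : c.f0 ≤ f (S.x i) := c.fge _ ⟨by linarith [hi0.1], by linarith [hi0.2]⟩
  have hF1 : z0 ≤ z0 / f (S.x i) := by
    rw [le_div_iff₀ (pf.trans_le hF)]
    exact mul_le_of_le_one_right hz0.le (c.hf.le1 _ (S.x_mem i))
  have hF2 : C0 / f (S.x i) ≤ A := hA ▸ div_le_div_of_nonneg_left hC0.le pf hF
  obtain ⟨κi, -⟩ := S.kappa_pos hε h4 hi
  have hct : S.γ i ^ 2 * |S.κ i * ξ.ζ i| ≤ M / Λ := by
    rw [abs_mul, abs_of_pos κi, le_div_iff₀ hΛ, ← mul_assoc, mul_comm]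
    exact hb.bc i hi
  obtain ⟨a1, a2⟩ := an3_alg (sq_nonneg _) l1 l2 (hF1.trans s3) (hF1.trans s1) (s4.trans hF2)
    (s2.trans hF2) hct
  rw [← mul_sub, ← mul_sub, abs_mul, abs_mul, abs_of_pos κi] at a1 a2
  have a3 : A ^ 3 * (M / Λ) ≤ η * z0 / 4 * M := by
    rw [← mul_div_assoc, div_le_iff₀ hΛ]
    nlinarith only [hΛ', hM, mul_le_mul_of_nonneg_right hΛ' hM]
  obtain ⟨k1, k2⟩ := abs_le.1 ((hkap I S yL yR hm.toMg0 i hx0).2.2 hi).2
  have k3 : 1 / 2 * S.κ i ≤ S.κ (S.T.symm i) := by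
    rw [← le_div_iff₀ κi]
    linarith only [k1]
  have k4 : S.κ (S.T.symm i) ≤ 2 * S.κ i := by
    rw [← div_le_iff₀ κi]
    linarith only [pσ', hε, h64, k2]
  have k5 := mul_le_mul_of_nonneg_right k3 (abs_nonneg (ξ.ζ i - ξ.ζ (S.T.symm i)))
  have k6 := mul_le_mul_of_nonneg_right k4 (abs_nonneg (ξ.ζ i - ξ.ζ (S.T.symm i)))
  have m1 := mul_le_mul_of_nonneg_right θ1 hM
  have m2 := mul_le_mul_of_nonneg_right θ2 hM
  have m3 : 0 ≤ η * z0 * M := by positivity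
  rcases ht with ht | ht
  · have b := ha I S yL yR ς hm ξ M hb i hi hTA ht
    refine ⟨b.trans m1, le_of_mul_le_mul_left ?_ hz0⟩
    have b1 := mul_le_mul_of_nonneg_left b pA.le
    have b2 := mul_le_mul_of_nonneg_left k6 hz0.le
    linarith only [a2, a3, m2, b1, b2]
  · have b := ha I S yL yR ς hm ξ M hb (S.T.symm i) hTB (by rwa [Equiv.apply_symm_apply])
      (by rwa [Equiv.apply_symm_apply])
    rw [Equiv.apply_symm_apply] at b
    refine ⟨le_of_mul_le_mul_left ?_ hz0, b.trans m1⟩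
    have b1 := mul_le_mul_of_nonneg_left (k5.trans b) pA.le
    linarith only [a1, a3, m2, m3, b1]

theorem an3 (c : Ctx f g) {η : ℝ} (hη : 0 < η) :
    EvAll c fun _ σ _ _ S ξ M => ∀ j, S.InB σ j → S.InB σ (S.T j) →
      S.κ j * |ξ.ζ (S.T j) - ξ.ζ j| ≤ η * M := by
  have h7 : 0 < η / 7 := by positivity
  filter_upwards [an3w c h7, dv_transfer c h7] with Λ ha hd
  filter_upwards [ha, hd, c.ev_σ] with σ ha hd hσ
  obtain ⟨φ, hφ⟩ := c.ev_sm hσ.1 hσ.2
  filter_upwards [ha, hd, hφ, c.toCtx0.ev_small]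
    with ε ha hd hφ hS I S yL yR ς hm ξ M hB j hj hj'
  replace ha := ha I S yL yR ς hm ξ M hB
  replace hd := hd I S yL yR ς hm ξ M hB
  have hε := hφ.εpos
  have h4 : 4 * ε ≤ σ := by linarith only [hε, hφ.le16]
  obtain ⟨n, r1, r2, he⟩ := joint_fwd hφ hj hj'
  have d0 := (hd j n r1 r2).1
  have i1 : S.InB σ ((S.R ^ n) j) := r1 n le_rfl
  have i2 : S.InB σ (S.T ((S.R ^ n) j)) := S.comm_pow n j ▸ r2 n le_rfl
  generalize (S.R ^ n) j = i at d0 i1 i2 he
  have key : S.κ i * |ξ.ζ (S.T i) - ξ.ζ i| ≤ 2 * (η / 7 * M) + η / 7 * M := by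
    rcases he with ⟨e1, e2⟩ | ⟨e1, e2⟩
    · have hx : S.x i ≤ σ + ε ∨ 1 - σ - ε ≤ S.x i := by
        rcases (S.step hε h4 hj).g1.1.ht with h | h
        · exact Or.inr (e1 h).le
        · exact Or.inl (e2 h).le
      obtain ⟨i0, m, hw, hr⟩ := end_window hS hm hφ hσ.2 i1 hx
      have w := (ha i0 hw).1
      rcases hr with ⟨e, a, b, -⟩ | ⟨e, a, b, -⟩
      · have := (hd i m a b).1
        rw [e] at this
        linarith only [w, this]
      · have := (hd i0 m a b).2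
        rw [e] at this
        linarith only [w, this]
    · have hx : S.x (S.T i) ≤ σ + ε ∨ 1 - σ - ε ≤ S.x (S.T i) := by
        rcases (S.step hε h4 hj').g1.1.ht with h | h
        · exact Or.inr (e1 h).le
        · exact Or.inl (e2 h).le
      obtain ⟨i0, m, hw, hr⟩ := end_window hS hm hφ hσ.2 i2 hx
      have w := (ha i0 hw).2
      rcases hr with ⟨e, a, -, b⟩ | ⟨e, a, -, b⟩
      · rw [Equiv.symm_apply_apply] at b
        have := (hd i m b a).1
        have e' : (S.R ^ m) i = S.T.symm i0 := by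
          rw [← e, S.comm_pow, Equiv.symm_apply_apply]
        rw [e', Equiv.apply_symm_apply] at this
        linarith only [w, this]
      · have := (hd (S.T.symm i0) m b (by rwa [Equiv.apply_symm_apply])).2
        rw [S.comm_pow_symm, e, Equiv.symm_apply_apply, Equiv.apply_symm_apply] at this
        linarith only [w, this]
  linarith

end XR
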