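import Pool.Agent.P.MP_408b1f_gt.An3

/-! The zone differences and the parameter e.
an4: reenter_bwd gives j in InB sigma with R^l j = i and the intermediate indices outside; zone_left
or zone_right (l0 = l) keep the passage within 2 sigma0 of one end, so T j and T.symm j start runs of
length l in InB (4 sigma0) (nearL, nearR, comm_pow, comm_pow_symm), l eps <= 2 / f0 (run_len with
Small.sm). ke for both runs, kap_near (ratio of kappa (T j) and kappa (T.symm j) close to 1), be, an3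
at j and T.symm j, kratio.
an5: let s be the sign of e and j maximise s * zeta over the finite nonempty set InB sigma (hbulk,
S.fin). exit_fwd gives i0 = R^n j; reenter_fwd from i0 gives j2 = R^l i0 (l >= 2), the passage stays
near one end, so T i0 starts a run of length l; R.symm j2 is outside, so xL of step shows that j2
moves away from that end, and exit_fwd from j2 has length n2 with n2 eps >= 1/2 (xstep_pow). Chain
ke (j, n), an3 (i0), ke (T i0, l), an3 (j2), ke (j2, n2); the terms n |e|, l |e| have the good sign;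
all kappa are comparable (kratio, kap_link). Result n2 |e| <= 30 eta' M. -/

open Set MeasureTheory Filter Topology

noncomputable section

namespace XR

variable {f g : ℝ → ℝ}

/-- a passage near an end produces two runs in the bulk -/
theorem an45_runs {c : Ctx0 f g} {ε : ℝ} {I : Type} {S : Sys f g ε I} {yL yR : ℝ}
    (hs : c.Small ε) (hm : Mg0 c.η S yL yR) {j : I} {l : ℕ}
    (h : ∀ l' ≤ l, S.x ((S.R ^ l') j) ≤ 2 * c.σ0 ∨ 1 - 2 * c.σ0 ≤ S.x ((S.R ^ l') j))
    {s : ℝ} (hs' : s ≤ 4 * c.σ0) :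
    S.Run s (S.T j) l ∧ S.Run s (S.T.symm j) l := by
  have key : ∀ l' ≤ l, S.InB (4 * c.σ0) (S.T ((S.R ^ l') j)) ∧
      S.InB (4 * c.σ0) (S.T.symm ((S.R ^ l') j)) := by
    intro l' hl'
    rcases h l' hl' with h | h
    · exact (nearL hs hm h).2.2.2.2.2.2
    · exact (nearR hs hm h).2.2.2.2.2.2
  refine ⟨fun l' hl' => ?_, fun l' hl' => ?_⟩
  · rw [S.comm_pow]; exact (key l' hl').1.mono hs'
  · rw [S.comm_pow_symm]; exact (key l' hl').2.mono hs'

theorem an45_ratio {a b δ : ℝ} (hb : 0 < b) (h : |a / b - 1| ≤ δ) (hδ : δ ≤ 1) : a ≤ 2 * b := by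
  have h1 : a / b ≤ 2 := by linarith [(abs_le.1 h).2]
  rwa [div_le_iff₀ hb] at h1

theorem an4_alg {A B K A' zTi zTj zj zSj zSi E δ u m : ℝ} (hA : 0 < A) (hB : 0 < B)
    (h1 : |A * (zTi - zTj) - E| ≤ u) (h2 : |B * (zSi - zSj) - E| ≤ u)
    (h3 : K * |zTj - zj| ≤ u) (h4 : B * |zj - zSj| ≤ u) (r1 : |A / B - 1| ≤ δ) (hδ : δ ≤ 1)
    (r2 : A ≤ 2 * K) (hE : |E| ≤ m) (hm : δ * m ≤ u) (r3 : A' ≤ 2 * A) :
    A' * |zTi - zSi| ≤ 16 * u := by
  have rB : A ≤ 2 * B := an45_ratio hB r1 hδ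
  have hq0 : 0 < A / B := div_pos hA hB
  have hq2 : A / B ≤ 2 := by linarith [(abs_le.1 r1).2]
  have e : A * (zTi - zSi) = (A * (zTi - zTj) - E) + A * (zTj - zj) + A * (zj - zSj) -
      A / B * (B * (zSi - zSj) - E) - (A / B - 1) * E := by
    field_simp
    ring
  have b1 : |A * (zTj - zj)| ≤ 2 * u := by
    rw [abs_mul, abs_of_pos hA]
    have := mul_le_mul_of_nonneg_right r2 (abs_nonneg (zTj - zj))
    linarith
  have b2 : |A * (zj - zSj)| ≤ 2 * u := by
    rw [abs_mul, abs_of_pos hA]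
    have := mul_le_mul_of_nonneg_right rB (abs_nonneg (zj - zSj))
    linarith
  have b3 : |A / B * (B * (zSi - zSj) - E)| ≤ 2 * u := by
    rw [abs_mul, abs_of_pos hq0]
    exact mul_le_mul hq2 h2 (abs_nonneg _) (by norm_num)
  have b4 : |(A / B - 1) * E| ≤ u := by
    rw [abs_mul]
    exact (mul_le_mul r1 hE (abs_nonneg _) ((abs_nonneg _).trans r1)).trans hm
  have b5 : A * |zTi - zSi| ≤ 8 * u := by
    rw [← abs_of_pos hA, ← abs_mul, e, abs_le]
    have := abs_le.1 h1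
    have := abs_le.1 b1
    have := abs_le.1 b2
    have := abs_le.1 b3
    have := abs_le.1 b4
    constructor <;> linarith
  have := mul_le_mul_of_nonneg_right r3 (abs_nonneg (zTi - zSi))
  linarith

theorem an4 (c : Ctx f g) {η : ℝ} (hη : 0 < η) :
    EvAll c fun _ σ _ _ S ξ M => ∀ i, ¬ S.InB σ i →
      S.κ (S.T i) * |ξ.ζ (S.T i) - ξ.ζ (S.T.symm i)| ≤ η * M := by
  have hη' : 0 < η / 16 := by positivity
  have hf0 := c.f0pos
  have hδ : 0 < min 1 (η / 16 * c.f0 / 2) := by positivity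
  filter_upwards [ke c hη', an3 c hη'] with Λ hke h3
  filter_upwards [hke, h3, c.ev_σ] with σ hke h3 hσ
  obtain ⟨φ, hφ⟩ := c.ev_sm hσ.1 hσ.2
  filter_upwards [hke, h3, hφ, c.toCtx0.ev_small, kap_near c.toCtx0 hσ.1 hσ.2 hδ]
    with ε hke h3 hφ hS hkap I S yL yR ς hm ξ M hb i hi
  have hε := hφ.εpos
  have h16 := hφ.le16
  have h4 : 4 * ε ≤ σ := by linarith
  have hσ0 := c.toCtx0.σ0_le
  have hσ1 := hσ.1
  have hσ2 := hσ.2
  obtain ⟨l, j, -, hji, hj, hz⟩ := S.reenter_bwd hφ.s4 i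
  have hnear : ∀ l' ≤ l, S.x ((S.R ^ l') j) ≤ 2 * c.σ0 ∨ 1 - 2 * c.σ0 ≤ S.x ((S.R ^ l') j) := by
    intro l' hl'
    by_cases hx : S.x i < σ
    · left
      have := S.zone_left (s := σ) hε (by linarith) (i := j) (l := l)
        ⟨l, le_rfl, by rw [hji]; linarith⟩ hz l' hl'
      linarith
    · right
      have hx' : 1 - σ < S.x i := by
        by_contra hc
        exact hi ⟨not_lt.1 hx, not_lt.1 hc⟩
      have := S.zone_right (s := σ) hε (by linarith) (i := j) (l := l)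
        ⟨l, le_rfl, by rw [hji]; linarith⟩ hz l' hl'
      linarith
  obtain ⟨rA, rB⟩ := an45_runs hS hm.toMg0 hnear (s := σ) (by linarith)
  obtain ⟨rA', -⟩ := an45_runs hS hm.toMg0 hnear (s := c.σ0 / 2) (by linarith)
  have hlen := S.run_len hS.sm rA'
  have bA : S.InB σ (S.T j) := by simpa using rA 0 (Nat.zero_le _)
  have bB : S.InB σ (S.T.symm j) := by simpa using rB 0 (Nat.zero_le _)
  have k1 := hke I S yL yR ς hm ξ M hb _ l rA
  have k2 := hke I S yL yR ς hm ξ M hb _ l rB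
  rw [S.comm_pow, hji] at k1
  rw [S.comm_pow_symm, hji] at k2
  have k3 := h3 I S yL yR ς hm ξ M hb j hj bA
  have k4 := h3 I S yL yR ς hm ξ M hb (S.T.symm j) bB (by rwa [Equiv.apply_symm_apply])
  rw [Equiv.apply_symm_apply] at k4
  have pA := (S.kappa_pos hε h4 bA).1
  have pB := (S.kappa_pos hε h4 bB).1
  have pj := (S.kappa_pos hε h4 hj).1
  obtain ⟨q1, -, q3⟩ := hkap I S yL yR hm.toMg0 j (by simpa using hnear 0 (Nat.zero_le _))
  have q4 := an45_ratio pj (q3 hj).1 (min_le_left _ _)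
  have q5 := (kratio hφ rA le_rfl).2.1
  rw [S.comm_pow, hji] at q5
  have hE : |(l : ℝ) * ξ.e| ≤ 2 / c.f0 * M := by
    rw [abs_mul, Nat.abs_cast]
    have := mul_le_mul_of_nonneg_left hb.be (Nat.cast_nonneg (α := ℝ) l)
    have := mul_le_mul_of_nonneg_right hlen hb.nn
    linarith
  have hM := hb.nn
  have hm' : min 1 (η / 16 * c.f0 / 2) * (2 / c.f0 * M) ≤ η / 16 * M := by
    refine (mul_le_mul_of_nonneg_right (min_le_right _ _) (by positivity)).trans (le_of_eq ?_)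
    field_simp
  have := an4_alg pA pB k1 k2 k3 k4 q1 (min_le_left _ _) q4 hE hm' q5
  linarith

theorem an5_step {s K a b E u : ℝ} (hs : s = 1 ∨ s = -1) (h : |K * (b - a) - E| ≤ u) :
    s * E - u ≤ K * (s * b - s * a) := by
  have := abs_le.1 h
  rcases hs with rfl | rfl <;> linarith

theorem an5_link {s K a b u : ℝ} (hs : s = 1 ∨ s = -1) (hK : 0 < K) (h : K * |b - a| ≤ u) :
    -u ≤ K * (s * b - s * a) ∧ -u ≤ K * (s * a - s * b) := by
  rw [← abs_of_pos hK, ← abs_mul] at h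
  have := abs_le.1 h
  rcases hs with rfl | rfl <;> constructor <;> linarith

theorem an5_scale {K K' d u r : ℝ} (hK : 0 < K) (hK' : 0 < K') (hu : 0 ≤ u) (h : -u ≤ K * d)
    (hr : K' ≤ r * K) : -(r * u) ≤ K' * d := by
  have hr0 : 0 < r := by
    by_contra hc
    have := mul_nonpos_of_nonpos_of_nonneg (not_lt.1 hc) hK.le
    linarith
  rcases le_total 0 d with hd | hd
  · have := mul_nonneg hK'.le hd
    have := mul_nonneg hr0.le hu
    linarith
  · have h1 := mul_le_mul_of_nonpos_right hr hd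
    have h2 := mul_le_mul_of_nonneg_left h hr0.le
    nlinarith

theorem an5 (c : Ctx f g) {η : ℝ} (hη : 0 < η) :
    EvAll c fun _ _ ε _ _ ξ M => |ξ.e| ≤ ε * (η * M) := by
  have hη' : 0 < η / 60 := by positivity
  filter_upwards [ke c hη', an3 c hη'] with Λ hke h3
  filter_upwards [hke, h3, c.ev_σ] with σ hke h3 hσ
  obtain ⟨φ, hφ⟩ := c.ev_sm hσ.1 hσ.2
  filter_upwards [hke, h3, hφ, c.toCtx0.ev_small, kap_link c.toCtx0 hσ.1 hσ.2 one_pos]
    with ε hke h3 hφ hS hkap I S yL yR ς hm ξ M hb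
  have hε := hφ.εpos
  have h16 := hφ.le16
  have h4 : 4 * ε ≤ σ := by linarith
  have hσ0 := c.toCtx0.σ0_le
  have hσ1 := hσ.1
  have hσ2 := hσ.2
  have hM := hb.nn
  have hu : 0 ≤ η / 60 * M := by positivity
  obtain ⟨s, hs, hse⟩ : ∃ s : ℝ, (s = 1 ∨ s = -1) ∧ s * ξ.e = |ξ.e| := by
    rcases le_total 0 ξ.e with h | h
    · exact ⟨1, Or.inl rfl, by rw [abs_of_nonneg h, one_mul]⟩
    · exact ⟨-1, Or.inr rfl, by rw [abs_of_nonpos h]; ring⟩
  have hsn : ∀ n : ℕ, s * (n * ξ.e) = n * |ξ.e| := fun n => by rw [← hse]; ring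
  have hsn0 : ∀ n : ℕ, 0 ≤ (n : ℝ) * |ξ.e| := fun n => by positivity
  have := S.fin
  obtain ⟨j, hj, hmax⟩ : ∃ j, S.InB σ j ∧ ∀ k, S.InB σ k → s * ξ.ζ k ≤ s * ξ.ζ j := by
    obtain ⟨j0⟩ := S.ne
    obtain ⟨n0, h0⟩ := S.hbulk j0
    have hne : ({k | S.InB σ k} : Set I).Nonempty :=
      ⟨(S.R ^ n0) j0, by
        show σ ≤ (S.P _).1
        linarith [h0.1, hφ.s4], by
        show (S.P _).1 ≤ 1 - σ
        linarith [h0.2, hφ.s4]⟩
    exact Set.exists_max_image _ (fun k => s * ξ.ζ k) (Set.toFinite _) hne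
  obtain ⟨n, hr, hout, e1, e2⟩ := S.exit_fwd hφ hj
  have hi : S.InB σ ((S.R ^ n) j) := hr n le_rfl
  have k1 := hke I S yL yR ς hm ξ M hb j n hr
  have q1 := (kratio hφ hr le_rfl).2.1
  rw [pow_succ', Equiv.Perm.mul_apply] at hout
  have ht := (S.step hε h4 hj).g1.1.ht
  generalize (S.R ^ n) j = i at hi k1 q1 hout e1 e2
  obtain ⟨l, hl, hj2, hz⟩ := S.reenter_fwd hφ.s4 i
  obtain ⟨m, rfl⟩ : ∃ m, l = m + 1 := ⟨l - 1, by omega⟩
  have hm0 : 0 < m := by
    rcases Nat.eq_zero_or_pos m with rfl | h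
    · exact absurd (by simpa using hj2) hout
    · exact h
  have hprev := hz m hm0 (by omega)
  have hsymm : S.R.symm ((S.R ^ (m + 1)) i) = (S.R ^ m) i := by
    rw [pow_succ', Equiv.Perm.mul_apply, Equiv.symm_apply_apply]
  have st2 := S.step hε h4 hj2
  have hxL := st2.xL
  rw [hsymm] at hxL
  have hpos : 0 < ε * S.h ((S.R ^ (m + 1)) i) := mul_pos hε st2.hpos
  obtain ⟨n2, hr2, -, e3, e4⟩ := S.exit_fwd hφ hj2
  have hxs := abs_le.1 (S.xstep_pow hε.le ((S.R ^ (m + 1)) i) n2)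
  have hzone : (∀ l' ≤ m + 1, S.x ((S.R ^ l') i) ≤ 2 * c.σ0 ∨ 1 - 2 * c.σ0 ≤ S.x ((S.R ^ l') i))
      ∧ 1 / 2 ≤ n2 * ε := by
    rcases ht with ht | ht
    · have hz' := S.zone_right (s := σ) hε (by linarith) (i := i) (l := m + 1)
        ⟨0, Nat.zero_le _, by simpa using (e1 ht).le⟩ hz
      refine ⟨fun l' hl' => Or.inr (by linarith [hz' l' hl']), ?_⟩
      have a1 := hz' m (by omega)
      have a2 := hz' (m + 1) le_rfl
      have a3 : 1 - σ < S.x ((S.R ^ m) i) := by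
        by_contra hc
        exact hprev ⟨by linarith, not_lt.1 hc⟩
      rcases st2.g1.1.ht with h | h
      · rw [h] at hxL
        linarith [hj2.2]
      · linarith [e4 h, hxs.1]
    · have hz' := S.zone_left (s := σ) hε (by linarith) (i := i) (l := m + 1)
        ⟨0, Nat.zero_le _, by simpa using (e2 ht).le⟩ hz
      refine ⟨fun l' hl' => Or.inl (by linarith [hz' l' hl']), ?_⟩
      have a1 := hz' m (by omega)
      have a2 := hz' (m + 1) le_rfl
      have a3 : S.x ((S.R ^ m) i) < σ := by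
        by_contra hc
        exact hprev ⟨not_lt.1 hc, by linarith⟩
      rcases st2.g1.1.ht with h | h
      · linarith [e3 h, hxs.2]
      · rw [h] at hxL
        linarith [hj2.1]
  obtain ⟨hnear, hn2⟩ := hzone
  obtain ⟨rA, -⟩ := an45_runs hS hm.toMg0 hnear (s := σ) (by linarith)
  have bA : S.InB σ (S.T i) := by simpa using rA 0 (Nat.zero_le _)
  have bA2 := rA (m + 1) le_rfl
  have k3 := hke I S yL yR ς hm ξ M hb _ _ rA
  have q3 := (kratio hφ rA le_rfl).2.1
  rw [S.comm_pow] at bA2 k3 q3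
  have hj3 := hr2 n2 le_rfl
  have k5 := hke I S yL yR ς hm ξ M hb _ _ hr2
  generalize (S.R ^ (m + 1)) i = j2 at hj2 bA2 k3 q3 hj3 k5
  have k2 := h3 I S yL yR ς hm ξ M hb i hi bA
  have k4 := h3 I S yL yR ς hm ξ M hb j2 hj2 bA2
  have p0 := (S.kappa_pos hε h4 hj).1
  have p1 := (S.kappa_pos hε h4 hi).1
  have p2 := (S.kappa_pos hε h4 bA).1
  have p3 := (S.kappa_pos hε h4 bA2).1
  have p4 := (S.kappa_pos hε h4 hj2).1
  have q2 := an45_ratio p1 (hkap I S yL yR hm.toMg0 i hi bA).1 le_rfl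
  have q4 := an45_ratio p3 (hkap I S yL yR hm.toMg0 j2 hj2 bA2).2 le_rfl
  have c1 := an5_step hs k1
  have c3 := an5_step hs k3
  have c5 := an5_step hs k5
  rw [hsn] at c1 c3 c5
  have d1 := an5_scale (r := 16) p0 p4 hu (le_trans (by linarith [hsn0 n]) c1) (by linarith)
  have d2 := an5_scale (r := 8) p1 p4 hu (an5_link hs p1 k2).1 (by linarith)
  have d3 := an5_scale (r := 4) p2 p4 hu (le_trans (by linarith [hsn0 (m + 1)]) c3) (by linarith)
  have d4 := (an5_link hs p4 k4).2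
  have d5 := mul_le_mul_of_nonneg_left (hmax _ hj3) p4.le
  have d6 : (n2 : ℝ) * |ξ.e| ≤ 30 * (η / 60 * M) := by linarith
  have d7 := mul_le_mul_of_nonneg_right hn2 (abs_nonneg ξ.e)
  have d8 := mul_le_mul_of_nonneg_left d6 hε.le
  linarith

end XR
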