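import Pool.Agent.P.MP_408b1f_gt.Defs

/-! Permutations of a finite cyclically ordered set.
eq_one_of_mono: a strictly monotone self map of a finite linear order is the identity (count the
elements below, or take a minimal moved element).
cyc_comm: D a b c < 0 is the clockwise relation. For a in I order I minus a by b < c iff
D a b c < 0 (strict total order by tot, tr). If I has at least two points let s a be the least
element: b = s a iff b differs from a and D a b c < 0 for all c not in {a, b}. A preserving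
permutation commutes with s (a preserving bijection also reflects the relation, by tot and
antisymmetry). Every point is s^n a (induction on the number of points between a and b: the
largest point p before b in the order from a, or a itself, has s p = b). So F a = s^k a for one
a gives F = s^k as functions; two such functions commute. -/

open Set MeasureTheory Filter Topology

noncomputable section

namespace XR

theorem eq_one_of_mono {I : Type} [Finite I] (lt : I → I → Prop)
    (irr : ∀ a, ¬ lt a a) (tr : ∀ a b c, lt a b → lt b c → lt a c)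
    (tot : ∀ a b, a ≠ b → lt a b ∨ lt b a) (F : I → I) (hF : ∀ a b, lt a b → lt (F a) (F b))
    (a : I) : F a = a := by
  have : IsTrans I lt := ⟨tr⟩
  have : Std.Irrefl lt := ⟨irr⟩
  have wf := Finite.wellFounded_of_trans_of_irrefl lt
  have inj : Function.Injective F := fun x y h => by
    by_contra hne
    rcases tot x y hne with h1 | h1
    · exact irr _ (h ▸ hF x y h1)
    · exact irr _ (h ▸ hF y x h1)
  induction a using wf.induction with
  | _ a ih =>
    by_contra hne
    rcases tot _ _ hne with h | h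
    · exact hne (inj (ih _ h))
    · obtain ⟨b, hb⟩ := Finite.injective_iff_surjective.1 inj a
      have hba : b ≠ a := fun e => hne (by rw [← e] at hb ⊢; exact hb)
      rcases tot b a hba with h1 | h1
      · exact hba ((ih b h1).symm.trans hb)
      · exact irr a (tr _ _ _ h (hb ▸ hF a b h1))

private theorem cyc_aux {I : Type} [Finite I] (C : I → I → I → Prop)
    (cyc : ∀ a b c, C a b c → C b c a) (asym : ∀ a b c, C a b c → ¬ C a c b)
    (tot : ∀ a b c, a ≠ b → b ≠ c → a ≠ c → C a b c ∨ C a c b)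
    (tr : ∀ a b c d, C a b c → C a c d → C a b d) (hex : ∀ a : I, ∃ b, b ≠ a) :
    ∃ s : I → I, (∀ a b, ∃ n : ℕ, s^[n] a = b) ∧
      ∀ F : Equiv.Perm I, (∀ a b c, C a b c → C (F a) (F b) (F c)) → ∀ a, F (s a) = s (F a) := by
  have irr : ∀ a b, ¬ C a b b := fun a b h => asym a b b h h
  have wf : ∀ a, WellFounded (C a) := fun a => by
    have : IsTrans I (C a) := ⟨tr a⟩
    have : Std.Irrefl (C a) := ⟨irr a⟩
    exact Finite.wellFounded_of_trans_of_irrefl _
  have wf' : ∀ a, WellFounded fun x y => C a y x := fun a => by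
    have : IsTrans I fun x y => C a y x := ⟨fun x y z h h' => tr a _ _ _ h' h⟩
    have : Std.Irrefl fun x y => C a y x := ⟨irr a⟩
    exact Finite.wellFounded_of_trans_of_irrefl _
  have ex : ∀ a, ∃ b, b ≠ a ∧ ∀ c, c ≠ a → c ≠ b → C a b c := fun a => by
    obtain ⟨b, hb, hm⟩ := (wf a).has_min {x | x ≠ a} (hex a)
    exact ⟨b, hb, fun c h1 h2 => (tot a b c (Ne.symm hb) h2.symm h1.symm).resolve_right (hm c h1)⟩
  choose s hs1 hs2 using ex
  have uq : ∀ a b, b ≠ a → (∀ c, c ≠ a → c ≠ b → C a b c) → s a = b := fun a b h1 h2 => by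
    by_contra hne
    exact asym _ _ _ (h2 _ (hs1 a) hne) (hs2 a b h1 (Ne.symm hne))
  refine ⟨s, fun a b => ?_, fun F hF a => (uq _ _ (F.injective.ne (hs1 a)) fun c h1 h2 => ?_).symm⟩
  · induction b using (wf a).induction with
    | _ b ih =>
      by_cases hb : b = a
      · exact ⟨0, hb.symm⟩
      by_cases hp : ∃ p, C a p b
      · obtain ⟨p, hp, hm⟩ := (wf' a).has_min {p | C a p b} hp
        obtain ⟨n, hn⟩ := ih p hp
        refine ⟨n + 1, ?_⟩
        rw [Function.iterate_succ_apply', hn]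
        have hpa : a ≠ p := fun e => irr b a (cyc _ _ _ (cyc _ _ _ (e ▸ hp : C a a b)))
        refine uq p b (fun e => irr a b (e ▸ hp : C a b b)) fun c h1 h2 => ?_
        by_cases hc : c = a
        · exact hc ▸ cyc _ _ _ hp
        rcases tot a b c (Ne.symm hb) h2.symm (Ne.symm hc) with h | h
        · exact cyc _ _ _ (cyc _ _ _ (tr _ _ _ _ (cyc _ _ _ h) (cyc _ _ _ (cyc _ _ _ hp))))
        · have h3 := (tot a p c hpa h1.symm (Ne.symm hc)).resolve_left (hm c h)
          exact tr _ _ _ _ (cyc _ _ _ hp) (cyc _ _ _ (cyc _ _ _ h3))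
      · exact ⟨1, uq a b hb fun c h1 h2 =>
          (tot a b c (Ne.symm hb) h2.symm h1.symm).resolve_right fun h => hp ⟨c, h⟩⟩
  · obtain ⟨c, rfl⟩ := F.surjective c
    exact hF _ _ _ (hs2 a c (fun e => h1 (congrArg F e)) fun e => h2 (congrArg F e))

theorem cyc_comm {I : Type} [Finite I] (D : I → I → I → ℝ)
    (cyc : ∀ a b c, D a b c = D b c a) (anti : ∀ a b c, D a b c = -D a c b)
    (tot : ∀ a b c, a ≠ b → b ≠ c → a ≠ c → D a b c ≠ 0)
    (tr : ∀ a b c d, D a b c < 0 → D a c d < 0 → D a b d < 0)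
    (F G : Equiv.Perm I) (hF : ∀ a b c, D a b c < 0 → D (F a) (F b) (F c) < 0)
    (hG : ∀ a b c, D a b c < 0 → D (G a) (G b) (G c) < 0) (a : I) : F (G a) = G (F a) := by
  by_cases hex : ∀ x : I, ∃ b, b ≠ x
  · obtain ⟨s, h1, h2⟩ := cyc_aux (fun a b c => D a b c < 0) (fun a b c h => cyc a b c ▸ h)
      (fun a b c h h' => by have := anti a b c; linarith)
      (fun a b c x y z => (lt_or_gt_of_ne (tot a b c x y z)).imp id fun h => by
        have := anti a b c; linarith) tr hex
    have c1 : ∀ n x, F (s^[n] x) = s^[n] (F x) := fun n =>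
      Function.Commute.iterate_right (f := F) (g := s) (h2 F hF) n
    have c2 : ∀ n x, G (s^[n] x) = s^[n] (G x) := fun n =>
      Function.Commute.iterate_right (f := G) (g := s) (h2 G hG) n
    obtain ⟨k, hk⟩ := h1 a (F a)
    obtain ⟨l, hl⟩ := h1 a (G a)
    calc F (G a) = s^[l] (s^[k] a) := by rw [← hl, c1, hk]
      _ = s^[k] (s^[l] a) := by
        rw [← Function.iterate_add_apply, add_comm, Function.iterate_add_apply]
      _ = G (F a) := by rw [← hk, c2, hl]
  · push Not at hex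
    obtain ⟨x, hx⟩ := hex
    exact (hx _).trans (hx _).symm

/-- consistent scalings: a relation with multiplicative labels and trivial holonomy has a
potential -/
theorem rel_cocycle {N : Type} (Rel : N → N → ℝ → Prop)
    (pos : ∀ a b l, Rel a b l → 0 < l) (refl : ∀ a, Rel a a 1)
    (symm : ∀ a b l, Rel a b l → Rel b a l⁻¹)
    (trans : ∀ a b c l m, Rel a b l → Rel b c m → Rel a c (l * m))
    (uniq : ∀ a l, Rel a a l → l = 1) :
    ∃ ν : N → ℝ, (∀ a, 0 < ν a) ∧ ∀ a b l, Rel a b l → ν b = l * ν a := by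
  let S : Setoid N := ⟨fun a b => ∃ l, Rel a b l, fun a => ⟨1, refl a⟩,
    fun ⟨l, h⟩ => ⟨_, symm _ _ l h⟩, fun ⟨l, h⟩ ⟨m, h'⟩ => ⟨_, trans _ _ _ l m h h'⟩⟩
  have h : ∀ a, ∃ l, Rel (Quotient.mk S a).out a l := fun a => Quotient.mk_out (s := S) a
  choose ν hν using h
  refine ⟨ν, fun a => pos _ _ _ (hν a), fun a b l hl => ?_⟩
  have e : Quotient.mk S a = Quotient.mk S b := Quotient.sound ⟨l, hl⟩
  have h1 := trans _ _ _ _ _ (trans _ _ _ _ _ (hν a) hl) (symm _ _ _ (hν b))
  rw [← e] at h1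
  have h2 := uniq _ _ h1
  rw [mul_inv_eq_one₀ (pos _ _ _ (hν b)).ne'] at h2
  rw [← h2, mul_comm]

/-- asymptotic scaling equivalence of two germs of monotone functions at zero -/
def ARel (A B : ℝ → ℝ) (l : ℝ) : Prop :=
  0 < l ∧ ∀ η > (0:ℝ), ∀ᶠ t in 𝓝[>] (0:ℝ), A t ≤ B ((1 + η) * l * t) ∧ B (l * t) ≤ A ((1 + η) * t)

/-- a good germ: monotone near zero on the right, positive, tending to zero -/
def Germ (A : ℝ → ℝ) : Prop :=
  ∃ r > (0:ℝ), MonotoneOn A (Ioo 0 r) ∧ (∀ t ∈ Ioo 0 r, 0 < A t) ∧ Tendsto A (𝓝[>] 0) (𝓝 0)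

private theorem tendsto_scale {c : ℝ} (hc : 0 < c) :
    Tendsto (fun t : ℝ => c * t) (𝓝[>] 0) (𝓝[>] 0) := by
  refine tendsto_nhdsWithin_iff.2 ⟨?_, ?_⟩
  · have : Tendsto (fun t : ℝ => c * t) (𝓝 0) (𝓝 (c * 0)) := (continuous_const_mul c).tendsto 0
    rw [mul_zero] at this
    exact this.mono_left nhdsWithin_le_nhds
  · filter_upwards [self_mem_nhdsWithin] with t ht
    exact mul_pos hc ht

private theorem no_contract {A : ℝ → ℝ} (hA : Germ A) {q : ℝ} (h0 : 0 < q) (h1 : q < 1)
    (h : ∀ᶠ t in 𝓝[>] (0:ℝ), A t ≤ A (q * t)) : False := by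
  obtain ⟨r, hr, -, hp, ht⟩ := hA
  obtain ⟨u, hu, hsub⟩ := mem_nhdsGT_iff_exists_Ioo_subset.1 (h.and (Ioo_mem_nhdsGT hr))
  have hu' : (0:ℝ) < u := hu
  have hm : ∀ n : ℕ, q ^ n * (u / 2) ∈ Ioo 0 u := fun n =>
    ⟨by positivity, by nlinarith [pow_le_one₀ (n := n) h0.le h1.le]⟩
  have hb : ∀ n : ℕ, A (u / 2) ≤ A (q ^ n * (u / 2)) := fun n => by
    induction n with
    | zero => simp
    | succ n ih =>
      rw [pow_succ', mul_assoc]
      exact ih.trans (hsub (hm n)).1
  have hl : Tendsto (fun n : ℕ => q ^ n * (u / 2)) atTop (𝓝[>] 0) := by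
    refine tendsto_nhdsWithin_iff.2 ⟨?_, Eventually.of_forall fun n => (hm n).1⟩
    simpa using (tendsto_pow_atTop_nhds_zero_of_lt_one h0.le h1).mul_const (u / 2)
  have h2 := ge_of_tendsto' (ht.comp hl) hb
  have h3 := hp _ (hsub (show u / 2 ∈ Ioo 0 u from ⟨by linarith, by linarith⟩)).2
  linarith

theorem ARel.refl {A : ℝ → ℝ} (hA : Germ A) : ARel A A 1 := by
  obtain ⟨r, hr, hm, -, -⟩ := hA
  refine ⟨one_pos, fun η hη => ?_⟩
  have h1 : (0:ℝ) < 1 + η := by linarith
  filter_upwards [Ioo_mem_nhdsGT hr, (tendsto_scale h1).eventually (Ioo_mem_nhdsGT hr)]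
    with t a b
  have := hm a b (by nlinarith [a.1])
  rw [mul_one, one_mul]
  exact ⟨this, this⟩

theorem ARel.symm {A B : ℝ → ℝ} {l : ℝ} (h : ARel A B l) : ARel B A l⁻¹ := by
  have hl := inv_pos.2 h.1
  refine ⟨hl, fun η hη => ?_⟩
  filter_upwards [(tendsto_scale hl).eventually (h.2 η hη)] with t ht
  rw [mul_assoc, mul_inv_cancel_left₀ h.1.ne', ← mul_assoc] at ht
  exact ⟨ht.2, ht.1⟩

theorem ARel.trans {A B C : ℝ → ℝ} {l m : ℝ} (hA : Germ A) (hC : Germ C) (h : ARel A B l)
    (h' : ARel B C m) : ARel A C (l * m) := by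
  have _ := hA
  have _ := hC
  refine ⟨mul_pos h.1 h'.1, fun η hη => ?_⟩
  obtain ⟨q, hq, hqq⟩ : ∃ q : ℝ, 0 < q ∧ (1 + q) * (1 + q) = 1 + η := by
    refine ⟨√(1 + η) - 1, sub_pos.2 (Real.lt_sqrt_of_sq_lt (by linarith)), ?_⟩
    rw [add_sub_cancel]
    exact Real.mul_self_sqrt (by linarith)
  have h1 : (0:ℝ) < 1 + q := by linarith
  filter_upwards [h.2 q hq, (tendsto_scale (mul_pos h1 h.1)).eventually (h'.2 q hq),
    (tendsto_scale h.1).eventually (h'.2 q hq), (tendsto_scale h1).eventually (h.2 q hq)]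
    with t a b c d
  rw [← hqq]
  constructor
  · rw [show (1 + q) * (1 + q) * (l * m) * t = (1 + q) * m * ((1 + q) * l * t) by ring]
    exact a.1.trans b.1
  · rw [show l * m * t = m * (l * t) by ring, mul_assoc (1 + q)]
    refine c.2.trans (le_of_eq_of_le ?_ d.2)
    rw [mul_left_comm]

/-- if l < 1 choose eta with (1 + eta) l < 1 and iterate A t <= A (q t); if l > 1 use the second
inequality -/
theorem ARel.uniq {A : ℝ → ℝ} {l : ℝ} (hA : Germ A) (h : ARel A A l) : l = 1 := by
  have hl := h.1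
  rcases lt_trichotomy l 1 with h1 | h1 | h1
  · have hη : 0 < (1 - l) / (2 * l) := div_pos (by linarith) (by linarith)
    have e : (1 + (1 - l) / (2 * l)) * l = (1 + l) / 2 := by field_simp; ring
    refine (no_contract hA (q := (1 + l) / 2) (by linarith) (by linarith) ?_).elim
    exact (h.2 _ hη).mono fun t ht => e ▸ ht.1
  · exact h1
  · have hη : 0 < (l - 1) / 2 := by linarith
    refine (no_contract hA (q := (1 + (l - 1) / 2) * l⁻¹) (by positivity) ?_ ?_).elim
    · rw [mul_inv_lt_iff₀ hl]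
      linarith
    · filter_upwards [(tendsto_scale (inv_pos.2 hl)).eventually (h.2 _ hη)] with t ht
      have := ht.2
      rwa [mul_inv_cancel_left₀ hl.ne', ← mul_assoc] at this

end XR
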