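import Pool.Agent.P.MP_408b1f_gt.Flag1
import Pool.Agent.P.MP_408b1f_gt.Cyc

/-! The combinatorial flag system.
exists_pre: on the finite set St of start flags, R0 = sm (eps,1) after sm (0,1) and
T0 = sm (-1,0) after sm (0,1) are permutations (sm_flag, sm_sm). They preserve det3 < 0 (sm_rev
twice, flag_det_ne for the nondegeneracy of the images; note det3 A B C < 0 forces distinct points),
so they commute by cyc_comm (cw_trans for K ∩ L). Restrict to the orbit of one flag under powers of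
R0 and T0 (finite permutations: inverses are positive powers, use orderOf or
Function.IsPeriodicPt).
hmaxuniq: face_ext and flag_not_side.
hleft: two points at the minimal level have potential difference zero (equal, or face_ext for
(F3 eps).neg and pot_zero_of_side); a start flag of (L, K) lies in Zmin K L (Zmin_eq); osc_neg.
hTT: E = (0,y) and E' = (1,y) lie in Zs, sm (0,1) fixes both (f 0 = f 1 = 0), sm (-1,0) swaps them.
Order the indices with P i different from E by det3 E (P i) (P j) < 0 (flag_det_ne, cw_trans);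
T after T is monotone for it (four applications of sm_rev, nondegenerate by flag_det_ne); an index
with P i = E is fixed by injectivity; eq_one_of_mono on the subtype. -/

open Set MeasureTheory Filter Topology

noncomputable section

namespace XR

variable {K L : Set V} {ε : ℝ}

theorem flag2_Zs {o : ℝ} {p : V} (hp : IsFlag o K L p) : p ∈ Zs K L := hp.1.1

theorem flag2_d1 : ((0, 1) : V) ≠ 0 := by simp

theorem flag2_d2 : ((-1, 0) : V) ≠ 0 := by simp

theorem flag2_d3 (ε : ℝ) : ((ε, 1) : V) ≠ 0 := by simp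

theorem flag2_ne {A B C : V} (h : det3 A B C ≠ 0) : A ≠ B ∧ B ≠ C ∧ A ≠ C := by
  refine ⟨?_, ?_, ?_⟩ <;> rintro rfl <;> apply h <;> simp [det3, det, mul_comm]

theorem flag2_inj (h : Pr K L) {d : V} (hd : d ≠ 0) {A B : V} (hA : A ∈ Zs K L) (hB : B ∈ Zs K L)
    (e : sm (K ∩ L) d A = sm (K ∩ L) d B) : A = B := by
  rw [← sm_sm h.body hd (Zs.mem_inter hA).1, e, sm_sm h.body hd (Zs.mem_inter hB).1]

theorem flag2_det (h : Pr K L) (ho : Osc K L) {o : ℝ} (hoo : o = 1 ∨ o = -1) {X B C : V}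
    (hX : X ∈ Zs K L) (hB : IsFlag o K L B) (hC : IsFlag o K L C) (h1 : X ≠ B) (h2 : B ≠ C)
    (h3 : X ≠ C) : det3 X B C ≠ 0 := by
  rw [det3_cyc]
  exact flag_det_ne h ho hoo hB hC hX h2 h1.symm h3.symm

theorem flag2_tr (h : Pr K L) (ho : Osc K L) {X A B C : V} (hX : X ∈ Zs K L)
    (hA : IsFlag 1 K L A) (hB : IsFlag 1 K L B) (hC : IsFlag 1 K L C) (h1 : det3 X A B < 0)
    (h2 : det3 X B C < 0) : det3 X A C < 0 := by
  refine cw_trans h.body.conv (Zs.mem_inter hX).2 (Zs.mem_inter (flag2_Zs hA)).1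
    (Zs.mem_inter (flag2_Zs hB)).1 (Zs.mem_inter (flag2_Zs hC)).1 h1 h2
    (flag2_det h ho (Or.inl rfl) hX hA hC (flag2_ne h1.ne).1 ?_ (flag2_ne h2.ne).2.2)
  rintro rfl
  rw [det3_swap] at h1
  linarith

theorem flag2_rev (h : Pr K L) (ho : Osc K L) {d : V} (hd : d ≠ 0) (hs : SameX d K L) {o : ℝ}
    (hoo : o = 1 ∨ o = -1) {X B C : V} (hX : X ∈ Zs K L) (hB : IsFlag o K L B)
    (hC : IsFlag o K L C) (h1 : det3 X B C < 0) :
    det3 (sm (K ∩ L) d X) (sm (K ∩ L) d C) (sm (K ∩ L) d B) < 0 := by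
  obtain ⟨n1, n2, n3⟩ := flag2_ne h1.ne
  have hoo' : -o = 1 ∨ -o = -1 := by rcases hoo with rfl | rfl <;> simp
  have h2 := sm_rev h.body hd (Zs.mem_inter hX).1 (Zs.mem_inter (flag2_Zs hB)).1
    (Zs.mem_inter (flag2_Zs hC)).1 (Zs.mem_inter hX).2 (Zs.mem_inter (flag2_Zs hB)).2
    (Zs.mem_inter (flag2_Zs hC)).2 h1
    (flag2_det h ho hoo' (sm_Zs h hd hs hX).1 (sm_flag h ho hd hs hoo hB)
      (sm_flag h ho hd hs hoo hC) (fun e => n1 (flag2_inj h hd hX (flag2_Zs hB) e))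
      (fun e => n2 (flag2_inj h hd (flag2_Zs hB) (flag2_Zs hC) e))
      (fun e => n3 (flag2_inj h hd hX (flag2_Zs hC) e)))
  rw [det3_swap]
  linarith

theorem flag2_rev2 (h : Pr K L) (ho : Osc K L) (h1 : SameX (0, 1) K L) {d : V} (hd : d ≠ 0)
    (hs : SameX d K L) {X B C : V} (hX : X ∈ Zs K L) (hB : IsFlag 1 K L B)
    (hC : IsFlag 1 K L C) (hlt : det3 X B C < 0) :
    det3 (sm (K ∩ L) d (sm (K ∩ L) (0, 1) X)) (sm (K ∩ L) d (sm (K ∩ L) (0, 1) B))
      (sm (K ∩ L) d (sm (K ∩ L) (0, 1) C)) < 0 :=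
  flag2_rev h ho hd hs (Or.inr rfl) (sm_Zs h flag2_d1 h1 hX).1
    (sm_flag h ho flag2_d1 h1 (Or.inl rfl) hC) (sm_flag h ho flag2_d1 h1 (Or.inl rfl) hB)
    (flag2_rev h ho flag2_d1 h1 (Or.inl rfl) hX hB hC hlt)

theorem flag2_two (h : Pr K L) (ho : Osc K L) {d d' : V} (hd : d ≠ 0) (hs : SameX d K L)
    (hd' : d' ≠ 0) (hs' : SameX d' K L) {p : V} (hp : IsFlag 1 K L p) :
    IsFlag 1 K L (sm (K ∩ L) d (sm (K ∩ L) d' p)) := by
  have := sm_flag h ho hd hs (Or.inr rfl) (sm_flag h ho hd' hs' (Or.inl rfl) hp)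
  rwa [neg_neg] at this

/-- the composition of two chord reflections as a permutation of the start flags -/
def flag2Perm (h : Pr K L) (ho : Osc K L) (h1 : SameX (0, 1) K L) {d : V} (hd : d ≠ 0)
    (hs : SameX d K L) : Equiv.Perm {p : V // IsFlag 1 K L p} where
  toFun p := ⟨sm (K ∩ L) d (sm (K ∩ L) (0, 1) p.1), flag2_two h ho hd hs flag2_d1 h1 p.2⟩
  invFun p := ⟨sm (K ∩ L) (0, 1) (sm (K ∩ L) d p.1), flag2_two h ho flag2_d1 h1 hd hs p.2⟩
  left_inv p := Subtype.ext (by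
    have hp := (Zs.mem_inter (flag2_Zs p.2)).1
    simp only
    rw [sm_sm h.body hd (sm_spec h.body flag2_d1 hp).1, sm_sm h.body flag2_d1 hp])
  right_inv p := Subtype.ext (by
    have hp := (Zs.mem_inter (flag2_Zs p.2)).1
    simp only
    rw [sm_sm h.body flag2_d1 (sm_spec h.body hd hp).1, sm_sm h.body hd hp])

theorem flag2_orbit {α : Type} [Finite α] (R T : Equiv.Perm α) (hc : Commute R T) (a : α) :
    ∃ (q : α → Prop) (R' T' : Equiv.Perm {x // q x}), q a ∧ (∀ x, (R' x).1 = R x.1) ∧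
      (∀ x, (T' x).1 = T x.1) ∧ ∀ i j, ∃ m n : ℕ, j = (R' ^ m) ((T' ^ n) i) := by
  have hR : ∀ x, (∃ m n : ℕ, x = (R ^ m * T ^ n) a) → ∃ m n : ℕ, R x = (R ^ m * T ^ n) a := by
    rintro _ ⟨m, n, rfl⟩
    exact ⟨m + 1, n, by rw [pow_succ', mul_assoc]; rfl⟩
  have hT : ∀ x, (∃ m n : ℕ, x = (R ^ m * T ^ n) a) → ∃ m n : ℕ, T x = (R ^ m * T ^ n) a := by
    rintro _ ⟨m, n, rfl⟩
    refine ⟨m, n + 1, ?_⟩
    rw [pow_succ', ← mul_assoc, (hc.pow_left m).eq, mul_assoc]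
    rfl
  have hpow : ∀ (F : Equiv.Perm α) (q : α → Prop) (F' : Equiv.Perm {x // q x}),
      (∀ x, (F' x).1 = F x.1) → ∀ (n : ℕ) x, ((F' ^ n) x).1 = (F ^ n) x.1 := by
    intro F q F' hF n
    induction n with
    | zero => intro x; rfl
    | succ n ih => intro x; rw [pow_succ', pow_succ', Equiv.Perm.mul_apply, hF, ih]; rfl
  have hdiv : ∀ (F : Equiv.Perm α) (c d : ℕ), ∃ m : ℕ, F ^ m * F ^ c = F ^ d := by
    intro F c d
    refine ⟨d + c * (orderOf F - 1), ?_⟩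
    have h0 := orderOf_pos F
    rw [← pow_add, show d + c * (orderOf F - 1) + c = d + orderOf F * c by
      obtain ⟨k, hk⟩ := Nat.exists_eq_succ_of_ne_zero h0.ne'
      rw [hk]; simp only [Nat.succ_sub_one, Nat.succ_eq_add_one]; ring,
      pow_add, pow_mul, pow_orderOf_eq_one, one_pow, mul_one]
  refine ⟨fun x => ∃ m n : ℕ, x = (R ^ m * T ^ n) a, R.subtypePermOfFintype hR,
    T.subtypePermOfFintype hT, ⟨0, 0, rfl⟩, fun _ => rfl, fun _ => rfl, ?_⟩
  rintro ⟨_, m, n, rfl⟩ ⟨_, m', n', rfl⟩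
  obtain ⟨k, hk⟩ := hdiv R m m'
  obtain ⟨l, hl⟩ := hdiv T n n'
  refine ⟨k, l, Subtype.ext ?_⟩
  rw [hpow R _ _ (fun _ => rfl), hpow T _ _ (fun _ => rfl)]
  change (R ^ m' * T ^ n') a = (R ^ k * (T ^ l * (R ^ m * T ^ n))) a
  rw [← hk, ← hl, ← mul_assoc (T ^ l), ← (hc.pow_pow m l).eq]
  simp only [mul_assoc]

theorem exists_pre (h : Pr K L) (ho : Osc K L) (h1 : SameX (0, 1) K L) (h2 : SameX (-1, 0) K L)
    (h3 : SameX (ε, 1) K L) : Nonempty (Pre K L ε) := by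
  have hfin : Finite {p : V // IsFlag 1 K L p} := (flag_finite h ho).to_subtype
  obtain ⟨p₀, hp₀⟩ := exists_flag h ho
  have hc : Commute (flag2Perm h ho h1 (flag2_d3 ε) h3) (flag2Perm h ho h1 flag2_d2 h2) :=
    Equiv.ext fun a => cyc_comm (fun a b c : {p : V // IsFlag 1 K L p} => det3 a.1 b.1 c.1)
      (fun a b c => det3_cyc _ _ _) (fun a b c => det3_swap _ _ _)
      (fun a b c n1 n2 n3 => flag2_det h ho (Or.inl rfl) (flag2_Zs a.2) b.2 c.2
        (fun e => n1 (Subtype.ext e)) (fun e => n2 (Subtype.ext e)) (fun e => n3 (Subtype.ext e)))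
      (fun a b c d => flag2_tr h ho (flag2_Zs a.2) b.2 c.2 d.2)
      (flag2Perm h ho h1 (flag2_d3 ε) h3) (flag2Perm h ho h1 flag2_d2 h2)
      (fun a b c => flag2_rev2 h ho h1 (flag2_d3 ε) h3 (flag2_Zs a.2) b.2 c.2)
      (fun a b c => flag2_rev2 h ho h1 flag2_d2 h2 (flag2_Zs a.2) b.2 c.2) a
  obtain ⟨q, R, T, hq, hR, hT, htr⟩ := flag2_orbit _ _ hc ⟨p₀, hp₀⟩
  exact ⟨{
    I := {x // q x}
    fin := inferInstance
    ne := ⟨⟨_, hq⟩⟩
    R := R
    T := T
    comm := fun i => Subtype.ext (by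
      rw [hR, hT, hT, hR]
      exact congrArg (fun F : Equiv.Perm _ => F i.1) hc.eq)
    trans := htr
    P := fun i => i.1.1
    O := fun i => sm (K ∩ L) (0, 1) i.1.1
    inj := fun i j e => Subtype.ext (Subtype.ext e)
    flag := fun i => i.1.2
    e1 := fun _ => rfl
    e2 := fun i => by rw [hT]; rfl
    e3 := fun i => by rw [hR]; rfl }⟩

theorem Pre.flagO (S : Pre K L ε) (h : Pr K L) (ho : Osc K L) (h1 : SameX (0, 1) K L) (i : S.I) :
    IsFlag (-1) K L (S.O i) := by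
  rw [S.e1]
  exact sm_flag h ho flag2_d1 h1 (Or.inl rfl) (S.flag i)

theorem Pre.e1' (S : Pre K L ε) (h : Pr K L) (i : S.I) : S.P i = sm (K ∩ L) (0, 1) (S.O i) := by
  rw [S.e1, sm_sm h.body flag2_d1 (Zs.mem_inter (flag2_Zs (S.flag i))).1]

theorem flag2_side {A B : V} {U : Set V} (e : w ε A = w ε B)
    (hs : (∀ X ∈ U, w ε X ≤ w ε A) ∨ ∀ X ∈ U, w ε A ≤ w ε X) :
    (∀ X ∈ U, det3 A B X ≤ 0) ∨ ∀ X ∈ U, 0 ≤ det3 A B X := by
  have key : ∀ X, det3 A B X = (B.2 - A.2) * (w ε A - w ε X) := by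
    intro X
    simp only [det3, det, w, Prod.fst_sub, Prod.snd_sub] at e ⊢
    linear_combination (A.2 - X.2) * e
  simp only [key]
  rcases le_total 0 (B.2 - A.2) with h | h <;> rcases hs with hs | hs
  · exact Or.inr fun X hX => mul_nonneg h (sub_nonneg.2 (hs X hX))
  · exact Or.inl fun X hX => mul_nonpos_of_nonneg_of_nonpos h (sub_nonpos.2 (hs X hX))
  · exact Or.inl fun X hX => mul_nonpos_of_nonpos_of_nonneg h (sub_nonneg.2 (hs X hX))
  · exact Or.inr fun X hX => mul_nonneg_of_nonpos_of_nonpos h (sub_nonpos.2 (hs X hX))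

theorem Pre.hmaxuniq (S : Pre K L ε) (h : Pr K L) (ho : Osc K L) (h3 : SameX (ε, 1) K L)
    (i j : S.I) (hi : ∀ p ∈ K ∩ L, w ε p ≤ w ε (S.P i)) (hj : ∀ p ∈ K ∩ L, w ε p ≤ w ε (S.P j)) :
    i = j := by
  by_contra hne
  have hP : S.P i ≠ S.P j := fun e => hne (S.inj e)
  have mi := (Zs.mem_inter (flag2_Zs (S.flag i))).1
  have mj := (Zs.mem_inter (flag2_Zs (S.flag j))).1
  have h4 := face_ext (F3 ε) h h3 mi mj hP (by simpa using hi) (by simpa using hj)
  simp only [F3_lev] at h4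
  exact flag_not_side h ho (Or.inl rfl) (S.flag i) (S.flag j) hP
    (flag2_side (le_antisymm (hj _ mi) (hi _ mj)) (Or.inl h4))

theorem Pre.hleft (S : Pre K L ε) (S' : Pre L K ε) (h : Pr K L) (ho : Osc K L)
    (h3 : SameX (ε, 1) K L) :
    (∀ j, ∃ p ∈ K ∩ L, w ε p < w ε (S.P j)) ∨ (∀ j, ∃ p ∈ L ∩ K, w ε p < w ε (S'.P j)) := by
  by_contra hc
  push Not at hc
  obtain ⟨⟨i, hi⟩, ⟨j, hj⟩⟩ := hc
  rw [inter_comm] at hj
  have hB : S'.P j ∈ Zmin K L := by rw [Zmin_eq h]; exact (S'.flag j).1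
  have h4 := osc_neg h ho (S.flag i).1 hB
  have mi := (Zs.mem_inter (flag2_Zs (S.flag i))).1
  have mj := (Zs.mem_inter hB.1).1
  by_cases e : S.P i = S'.P j
  · rw [e, pot_self] at h4
    exact lt_irrefl _ h4
  have h5 := face_ext (F3 ε).neg h h3.neg mi mj e
    (by simpa only [Frame.neg_lev, F3_lev, neg_le_neg_iff] using hi)
    (by simpa only [Frame.neg_lev, F3_lev, neg_le_neg_iff] using hj)
  simp only [Frame.neg_lev, F3_lev, neg_le_neg_iff] at h5
  rw [pot_zero_of_side h (flag2_side (le_antisymm (hi _ mj) (hj _ mi)) (Or.inr h5))] at h4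
  exact lt_irrefl _ h4

theorem Pre.hTT (S : Pre K L ε) (h : Pr K L) (ho : Osc K L) (h1 : SameX (0, 1) K L)
    (h2 : SameX (-1, 0) K L) {y : ℝ} (hE : ((0:ℝ), y) ∈ Zs K L) (hE' : ((1:ℝ), y) ∈ Zs K L)
    (f1 : sm (K ∩ L) (0, 1) (0, y) = (0, y)) (f2 : sm (K ∩ L) (0, 1) (1, y) = (1, y))
    (f3 : sm (K ∩ L) (-1, 0) (0, y) = (1, y)) (j : S.I) : S.T (S.T j) = j := by
  have f4 : sm (K ∩ L) (-1, 0) (1, y) = (0, y) := by
    rw [← f3, sm_sm h.body flag2_d2 (Zs.mem_inter hE).1]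
  have hT : ∀ i, S.P (S.T i) = sm (K ∩ L) (-1, 0) (sm (K ∩ L) (0, 1) (S.P i)) := fun i => by
    rw [S.e2, S.e1]
  have hfix : ∀ i, S.P i = (0, y) → S.T (S.T i) = i := fun i e =>
    S.inj (by rw [hT, hT, e, f1, f3, f2, f4])
  by_cases hj : S.P j = (0, y)
  · exact hfix j hj
  have hmem : ∀ i, S.P i ≠ (0, y) → S.P (S.T (S.T i)) ≠ (0, y) := fun i hi e => by
    have h4 : S.T (S.T i) = i := S.T.injective (S.T.injective (hfix _ e))
    rw [h4] at e
    exact hi e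
  have key := eq_one_of_mono (I := {i : S.I // S.P i ≠ (0, y)})
    (fun a b => det3 (0, y) (S.P a.1) (S.P b.1) < 0)
    (fun a => by simp [det3, det, mul_comm])
    (fun a b c => flag2_tr h ho hE (S.flag a.1) (S.flag b.1) (S.flag c.1))
    (fun a b hab => by
      have h4 := flag2_det h ho (Or.inl rfl) hE (S.flag a.1) (S.flag b.1) a.2.symm
        (fun e => hab (Subtype.ext (S.inj e))) b.2.symm
      rcases h4.lt_or_gt with h5 | h5
      · exact Or.inl h5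
      · refine Or.inr ?_
        rw [det3_swap]
        linarith)
    (fun a => ⟨S.T (S.T a.1), hmem a.1 a.2⟩)
    (fun a b hab => by
      have h4 := flag2_rev2 h ho h1 flag2_d2 h2 hE (S.flag a.1) (S.flag b.1) hab
      rw [f1, f3, ← hT, ← hT] at h4
      have h5 := flag2_rev2 h ho h1 flag2_d2 h2 hE' (S.flag _) (S.flag _) h4
      rw [f2, f4, ← hT, ← hT] at h5
      exact h5) ⟨j, hj⟩
  exact congrArg Subtype.val key

end XR
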