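import Pool.Agent.P.MP_408b1f_gt.NT
import Pool.Agent.P.MP_408b1f_gt.Flag2

/-! Every orbit of R meets the middle region.
lyap: write O = P - t1 (0,1), Q = O + t3 (eps,1). Key fact (A): if Y ∈ M has smaller abscissa than
a point Z and lies on the line through Z of direction (eps,1) below Z, then the segment from Y to o
crosses the vertical through Z at an interior point strictly below Z (slope < 1/eps because
o.1 - Y.1 > eps and heights are in [0,1]); a point of M on an open segment between an interior point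
and a point of M is interior. Cases: t1 < 0: if t3 >= 0 direct computation; if t3 < 0 and the
conclusion fails, P lies on the vertical segment between an interior point and O. t1 > 0: t3 < 0 is
impossible by (A) (O between an interior point and P); t3 = 0 is impossible since
O + s (eps,1) ∈ M for small s (triangle O, P, o), so O - s (eps,1) ∈ M by h3; if t3 > 0 and the
conclusion fails Q is inside the triangle P, O, o or on the open segment P o, so interior.
t1 = 0: t3 > 0 direct, t3 < 0 impossible by (A) and h1 (reflect the interior point), t3 = 0 means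
Q = P.
hbulk: abscissas change by at most eps along R. If the orbit avoids [1/4,3/4] it stays on one side.
Left: maximise the slope (y - o.2) / (o.1 - x) over the finite orbit; by lyap R j = j at the
maximiser, so O = P (the two chord directions are independent), so P is not Inner for F1 nor F3
(sm_gen), so it is minimal for both (points of K ∩ L further right exist): nofix. Right: apply lyap
to the image of M under negP, and nofixR. -/

open Set MeasureTheory Filter Topology

noncomputable section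

namespace XR

theorem bulk_tri {M : Set V} (hM : Convex ℝ M) {o Y Z X : V} (ho : o ∈ interior M) (hY : Y ∈ M)
    (hZ : Z ∈ M) {a b c : ℝ} (ha : 0 < a) (hb : 0 ≤ b) (hc : 0 ≤ c)
    (e1 : a * (o.1 - X.1) + b * (Y.1 - X.1) + c * (Z.1 - X.1) = 0)
    (e2 : a * (o.2 - X.2) + b * (Y.2 - X.2) + c * (Z.2 - X.2) = 0) : X ∈ interior M := by
  have hab : 0 < a + b := by positivity
  have hn : 0 < a + b + c := by positivity
  have h1 := hM.combo_interior_self_mem_interior ho hY (a := a / (a + b)) (b := b / (a + b))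
    (by positivity) (by positivity) (by field_simp)
  have h2 := hM.combo_interior_self_mem_interior h1 hZ (a := (a + b) / (a + b + c))
    (b := c / (a + b + c)) (by positivity) (by positivity) (by field_simp)
  have e : ((a + b) / (a + b + c)) • ((a / (a + b)) • o + (b / (a + b)) • Y) +
      (c / (a + b + c)) • Z = X := by
    ext
    · simp only [Prod.fst_add, Prod.smul_fst, smul_eq_mul]
      field_simp
      linear_combination e1
    · simp only [Prod.snd_add, Prod.smul_snd, smul_eq_mul]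
      field_simp
      linear_combination e2
  rwa [e] at h2

theorem bulk_corner {M : Set V} (hM : Convex ℝ M) {ε : ℝ} (hε : 0 < ε) {o O : V}
    (ho : o ∈ interior M) (hA : 0 < o.1 - O.1) (hB : 0 < o.1 - O.1 - ε * (o.2 - O.2))
    {s t : ℝ} (hs : 0 < s) (ht : 0 < t) (h1 : O + s • ((0:ℝ), (1:ℝ)) ∈ M)
    (h3 : O - t • (ε, (1:ℝ)) ∈ M) : O ∈ interior M := by
  refine bulk_tri hM ho h3 h1 (a := ε * t * s) (b := (o.1 - O.1) * s)
    (c := t * (o.1 - O.1 - ε * (o.2 - O.2))) (by positivity) (by positivity) (by positivity) ?_ ?_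
  · simp only [Prod.fst_add, Prod.fst_sub, Prod.smul_fst, smul_eq_mul]
    ring
  · simp only [Prod.snd_add, Prod.snd_sub, Prod.smul_snd, smul_eq_mul]
    ring

theorem lyap {M : Set V} (hM : Convex ℝ M) (hb : ∀ p ∈ M, 0 ≤ p.2 ∧ p.2 ≤ 1) {ε : ℝ} (hε : 0 < ε)
    {o P O Q : V} (ho : o ∈ interior M) (hP : P ∈ M) (hO : O ∈ M) (hQ : Q ∈ M)
    (hP' : P ∉ interior M) (hO' : O ∉ interior M) (hQ' : Q ∉ interior M)
    (e1 : O.1 = P.1) (e3 : w ε Q = w ε O)
    (h1 : ∀ s : ℝ, P + s • ((0:ℝ), (1:ℝ)) ∈ M ↔ O - s • ((0:ℝ), (1:ℝ)) ∈ M)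
    (h3 : ∀ s : ℝ, O + s • (ε, (1:ℝ)) ∈ M ↔ Q - s • (ε, (1:ℝ)) ∈ M)
    (hx : P.1 + ε < o.1) (hne : Q ≠ P) : det (P - o) (Q - o) < 0 := by
  obtain ⟨x, p⟩ := P
  obtain ⟨x', r⟩ := O
  obtain ⟨q1, q2⟩ := Q
  obtain ⟨a, b⟩ := o
  have e1' : x' = x := e1
  subst e1'
  obtain ⟨t, rfl⟩ : ∃ t, q2 = r + t := ⟨q2 - r, by ring⟩
  have hq : q1 = x' + ε * t := by
    simp only [w] at e3
    linarith
  subst hq
  have hb1 := hb _ (interior_subset ho)
  have hb2 := hb _ hP
  have hb3 := hb _ hO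
  simp only at hb1 hb2 hb3 hx
  have hA : 0 < a - x' := by linarith
  have hB : 0 < a - x' + ε * (p - b) := by nlinarith
  have hC : 0 < a - x' - ε * (b - r) := by nlinarith
  have hd : det ((x', p) - (a, b)) ((x' + ε * t, r + t) - (a, b)) =
      (a - x') * (p - r) - t * (a - x' + ε * (p - b)) := by
    simp only [det, Prod.fst_sub, Prod.snd_sub]
    ring
  rw [hd]
  by_contra hc
  rw [not_lt] at hc
  have hQt : t < 0 → ((x', r) : V) - (-t) • (ε, (1:ℝ)) ∈ M := fun _ => by
    have : ((x', r) : V) - (-t) • (ε, (1:ℝ)) = (x' + ε * t, r + t) := by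
      ext
      · simp only [Prod.fst_sub, Prod.smul_fst, smul_eq_mul]
        ring
      · simp only [Prod.snd_sub, Prod.smul_snd, smul_eq_mul]
        ring
    rwa [this]
  have hPt : ((x', r) : V) + (p - r) • ((0:ℝ), (1:ℝ)) ∈ M := by
    have : ((x', r) : V) + (p - r) • ((0:ℝ), (1:ℝ)) = (x', p) := by
      ext <;> simp
    rwa [this]
  rcases lt_trichotomy p r with hpr | hpr | hpr
  · have ht : t < 0 := by
      by_contra ht
      rw [not_lt] at ht
      nlinarith [mul_nonneg ht hB.le, mul_pos hA (sub_pos.2 hpr)]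
    refine hP' (bulk_tri hM ho hQ hO (a := ε * (-t) * (r - p)) (b := (a - x') * (r - p))
      (mul_pos (mul_pos hε (neg_pos.2 ht)) (sub_pos.2 hpr)) (mul_pos hA (sub_pos.2 hpr)).le hc
      ?_ ?_)
    · simp only
      ring
    · simp only
      ring
  · subst hpr
    rcases lt_trichotomy t 0 with ht | ht | ht
    · have hD : 0 < a - x' - ε * t := by nlinarith
      have hu : 0 < -t * (a - x' - ε * (b - p)) / (a - x' - ε * t) :=
        div_pos (mul_pos (neg_pos.2 ht) hC) hD
      refine hO' (bulk_corner hM hε ho hA hC hu (neg_pos.2 ht) ((h1 _).2 (interior_subset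
        (bulk_tri hM ho hQ hQ (a := ε * (-t)) (b := a - x') (c := 0)
          (mul_pos hε (neg_pos.2 ht)) hA.le le_rfl ?_ ?_))) (hQt ht))
      · simp only [Prod.fst_sub, Prod.smul_fst, smul_eq_mul]
        ring
      · simp only [Prod.snd_sub, Prod.smul_snd, smul_eq_mul]
        field_simp
        ring
    · subst ht
      exact hne (by simp)
    · nlinarith [mul_pos ht hB]
  · have hpr' : 0 < p - r := sub_pos.2 hpr
    rcases lt_trichotomy t 0 with ht | ht | ht
    · exact hO' (bulk_corner hM hε ho hA hC hpr' (neg_pos.2 ht) hPt (hQt ht))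
    · subst ht
      have hu : 0 < (a - x') * (p - r) / (a - x' + ε * (p - b)) := by positivity
      have h4 := (h3 _).1 (interior_subset
        (bulk_tri (X := (x', r) + ((a - x') * (p - r) / (a - x' + ε * (p - b))) • (ε, (1:ℝ)))
          hM ho hP hP (a := ε * (p - r)) (b := a - x' - ε * (b - r)) (c := 0)
          (by positivity) hC.le le_rfl ?_ ?_))
      · refine hO' (bulk_corner hM hε ho hA hC hpr' hu hPt ?_)
        simpa using h4
      · simp only [Prod.fst_add, Prod.smul_fst, smul_eq_mul]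
        field_simp
        ring
      · simp only [Prod.snd_add, Prod.smul_snd, smul_eq_mul]
        field_simp
        ring
    · refine hQ' (bulk_tri hM ho hO hP (a := ε * (p - r) * t) (c := (a - x' - ε * (b - r)) * t)
        (by positivity) hc (by positivity) ?_ ?_)
      · simp only
        ring
      · simp only
        ring

theorem lyapR {M : Set V} (hM : Convex ℝ M) (hb : ∀ p ∈ M, 0 ≤ p.2 ∧ p.2 ≤ 1) {ε : ℝ} (hε : 0 < ε)
    {o P O Q : V} (ho : o ∈ interior M) (hP : P ∈ M) (hO : O ∈ M) (hQ : Q ∈ M)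
    (hP' : P ∉ interior M) (hO' : O ∉ interior M) (hQ' : Q ∉ interior M)
    (e1 : O.1 = P.1) (e3 : w ε Q = w ε O)
    (h1 : ∀ s : ℝ, P + s • ((0:ℝ), (1:ℝ)) ∈ M ↔ O - s • ((0:ℝ), (1:ℝ)) ∈ M)
    (h3 : ∀ s : ℝ, O + s • (ε, (1:ℝ)) ∈ M ↔ Q - s • (ε, (1:ℝ)) ∈ M)
    (hx : o.1 + ε < P.1) (hne : Q ≠ P) : det (P - o) (Q - o) < 0 := by
  let c : V := (1, 1)
  let φ : V ≃ₜ V := Homeomorph.subLeft c
  have hφ : ∀ p, φ p = c - p := fun p => rfl
  have hm : ∀ p, c - p ∈ φ ⁻¹' M ↔ p ∈ M := fun p => by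
    rw [mem_preimage, hφ, sub_sub_cancel]
  have hi : ∀ p, c - p ∈ interior (φ ⁻¹' M) ↔ p ∈ interior M := fun p => by
    rw [← φ.preimage_interior, mem_preimage, hφ, sub_sub_cancel]
  have hM' : Convex ℝ (φ ⁻¹' M) := by
    intro x hx y hy a b ha hb hab
    have := hM hx hy ha hb hab
    have e : φ (a • x + b • y) = a • φ x + b • φ y := by
      simp only [hφ, smul_sub]
      have : c = a • c + b • c := by rw [← add_smul, hab, one_smul]
      linear_combination (norm := module) this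
    rwa [mem_preimage, e]
  have key := lyap hM' (fun p hp => by
      have := hb _ hp
      simp only [hφ, c, Prod.snd_sub] at this
      constructor <;> linarith) hε ((hi o).2 ho) ((hm P).2 hP) ((hm O).2 hO) ((hm Q).2 hQ)
    (fun h => hP' ((hi P).1 h)) (fun h => hO' ((hi O).1 h)) (fun h => hQ' ((hi Q).1 h))
    (by simp [e1]) (by simp only [w, Prod.fst_sub, Prod.snd_sub] at e3 ⊢; linarith)
    (fun s => by
      have a1 : c - P + s • ((0:ℝ), (1:ℝ)) = c - (P + (-s) • ((0:ℝ), (1:ℝ))) := by module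
      have a2 : c - O - s • ((0:ℝ), (1:ℝ)) = c - (O - (-s) • ((0:ℝ), (1:ℝ))) := by module
      rw [a1, a2, hm, hm, h1])
    (fun s => by
      have a1 : c - O + s • (ε, (1:ℝ)) = c - (O + (-s) • (ε, (1:ℝ))) := by module
      have a2 : c - Q - s • (ε, (1:ℝ)) = c - (Q - (-s) • (ε, (1:ℝ))) := by module
      rw [a1, a2, hm, hm, h3])
    (by simp only [Prod.fst_sub]; linarith) (fun h => hne (sub_right_injective h))
  simp only [det, Prod.fst_sub, Prod.snd_sub] at key ⊢
  linarith

theorem bulk_not_inner {K L : Set V} (F : Frame) (h : Pr K L) (hX : SameX F.d K L) {z : V}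
    (hz : z ∈ Zs K L) (hs : sm (K ∩ L) F.d z = z) : ¬ Inner (K ∩ L) F.lev z := by
  intro hi
  obtain ⟨h1, -, -, h2⟩ := sm_gen F h hX hz hi
  have h3 := F.bot_lt_top h.bK h1
  rw [hs] at h2
  have h4 : F.pt (F.lev z) (F.top K (F.lev z)) = F.pt (F.lev z) (F.bot K (F.lev z)) := by
    rcases h2 with ⟨a, b⟩ | ⟨a, b⟩
    · exact a.symm.trans b
    · exact b.symm.trans a
  have h5 := congrArg F.hgt h4
  rw [F.hgt_pt, F.hgt_pt] at h5
  exact h3.ne' h5

theorem Pre.hbulk {f g : ℝ → ℝ} {K L : Set V} {ε : ℝ} (S : Pre K L ε) (h : BadPair f g ε K L)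
    (hε : 0 < ε) (hε' : ε ≤ 1 / 10) (h0 : f 0 = 0) (h1 : f 1 = 0) (j : S.I) :
    ∃ n : ℕ, 1 / 4 ≤ (S.P ((S.R ^ n) j)).1 ∧ (S.P ((S.R ^ n) j)).1 ≤ 3 / 4 := by
  have pr := h.pr hε hε'
  have hB := pr.body
  have hb : ∀ p ∈ K ∩ L, 0 ≤ p.2 ∧ p.2 ≤ 1 := fun p hp => (h.hK.box p hp.1).2.2
  have d1 : ((0:ℝ), (1:ℝ)) ≠ 0 := by simp
  have d3 : (ε, (1:ℝ)) ≠ 0 := by simp
  have hZ : ∀ i, S.P i ∈ Zs K L := fun i => (S.flag i).1.1
  have hP : ∀ i, S.P i ∈ K ∩ L := fun i => (Zs.mem_inter (hZ i)).1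
  have hP' : ∀ i, S.P i ∉ interior (K ∩ L) := fun i => (Zs.mem_inter (hZ i)).2
  have s1 := fun i => sm_spec hB d1 (hP i)
  have hO' := fun i => sm_not_interior hB d1 (hP i) (hP' i)
  simp only [← S.e1] at s1 hO'
  have s3 := fun i => sm_spec hB d3 (s1 i).1
  simp only [← S.e3] at s3
  have e1 : ∀ i, (S.O i).1 = (S.P i).1 := fun i => by
    obtain ⟨τ, hτ⟩ := (s1 i).2.1
    simp [hτ]
  have e3 : ∀ i, w ε (S.P (S.R i)) = w ε (S.O i) := fun i => by
    obtain ⟨τ, hτ⟩ := (s3 i).2.1
    simp only [hτ, w, Prod.fst_add, Prod.snd_add, Prod.smul_fst, Prod.smul_snd, smul_eq_mul]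
    ring
  have step : ∀ i, (S.P (S.R i)).1 ≤ (S.P i).1 + ε ∧ (S.P i).1 - ε ≤ (S.P (S.R i)).1 := fun i => by
    have a1 := e1 i
    have a2 := e3 i
    have a3 := hb _ (hP (S.R i))
    have a4 := hb _ (s1 i).1
    simp only [w] at a2
    constructor <;> nlinarith
  obtain ⟨o, ho, ho1, ho2⟩ := h.mid hε hε'
  have hoM : o ∈ K ∩ L := interior_subset ho
  have hob := hb o hoM
  have pw : ∀ n : ℕ, (S.R ^ (n + 1)) j = S.R ((S.R ^ n) j) := fun n => by
    rw [pow_succ', Equiv.Perm.mul_apply]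
  -- a maximiser of the slope over the orbit
  obtain ⟨i, ⟨n, rfl⟩, hmax⟩ := Set.exists_max_image (range fun n : ℕ => (S.R ^ n) j)
    (fun i => ((S.P i).2 - o.2) / (o.1 - (S.P i).1)) (Set.toFinite _) (range_nonempty _)
  have hmax' := hmax _ ⟨n + 1, pw n⟩
  simp only at hmax'
  have fix : S.P (S.R ((S.R ^ n) j)) = S.P ((S.R ^ n) j) →
      ¬ Inner (K ∩ L) F1.lev (S.P ((S.R ^ n) j)) ∧
        ¬ Inner (K ∩ L) (F3 ε).lev (S.P ((S.R ^ n) j)) := fun hfix => by
    have a1 := e1 ((S.R ^ n) j)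
    have a2 := e3 ((S.R ^ n) j)
    rw [hfix] at a2
    have a3 : S.O ((S.R ^ n) j) = S.P ((S.R ^ n) j) := by
      refine Prod.ext a1 (mul_left_cancel₀ hε.ne' ?_)
      simp only [w] at a2
      linarith
    refine ⟨bulk_not_inner F1 pr (h.hK.sameX1 h.hL) (hZ _) ?_,
      bulk_not_inner (F3 ε) pr h.same (hZ _) ?_⟩
    · rw [F1_d, ← S.e1, a3]
    · rw [F3_d, ← a3, ← S.e3, hfix, a3]
  by_contra hc
  push Not at hc
  have hPb := hb _ (hP ((S.R ^ n) j))
  by_cases hj : (S.P j).1 < 1 / 4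
  · have hall : ∀ m : ℕ, (S.P ((S.R ^ m) j)).1 < 1 / 4 := by
      intro m
      induction m with
      | zero => simpa using hj
      | succ m ih =>
        by_contra hm
        have := hc _ (not_lt.1 hm)
        rw [pw] at this
        linarith [(step ((S.R ^ m) j)).1]
    have b1 := hall n
    have b2 := hall (n + 1)
    rw [pw] at b2
    have hfix : S.P (S.R ((S.R ^ n) j)) = S.P ((S.R ^ n) j) := by
      by_contra hne
      have := lyap hB.conv hb hε ho (hP _) (s1 _).1 (hP _) (hP' _) (hO' _) (hP' _) (e1 _) (e3 _)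
        (s1 _).2.2 (s3 _).2.2 (by linarith) hne
      rw [div_le_div_iff₀ (by linarith) (by linarith)] at hmax'
      simp only [det, Prod.fst_sub, Prod.snd_sub] at this
      linarith
    obtain ⟨n1, n3⟩ := fix hfix
    refine h.nofix hε hε' h0 (hP ((S.R ^ n) j)) fun p hp => ⟨?_, ?_⟩
    · by_contra hlt
      exact n1 ⟨⟨p, hp, by simpa using hlt⟩, ⟨o, hoM, by simp only [F1_lev]; linarith⟩⟩
    · by_contra hlt
      exact n3 ⟨⟨p, hp, by simpa using hlt⟩, ⟨o, hoM, by simp only [F3_lev, w]; nlinarith⟩⟩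
  · have hall : ∀ m : ℕ, 3 / 4 < (S.P ((S.R ^ m) j)).1 := by
      intro m
      induction m with
      | zero => exact hc 0 (by simpa using hj)
      | succ m ih =>
        refine hc _ ?_
        rw [pw]
        linarith [(step ((S.R ^ m) j)).2]
    have b1 := hall n
    have b2 := hall (n + 1)
    rw [pw] at b2
    have hfix : S.P (S.R ((S.R ^ n) j)) = S.P ((S.R ^ n) j) := by
      by_contra hne
      have := lyapR hB.conv hb hε ho (hP _) (s1 _).1 (hP _) (hP' _) (hO' _) (hP' _) (e1 _) (e3 _)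
        (s1 _).2.2 (s3 _).2.2 (by linarith) hne
      rw [← neg_div_neg_eq, ← neg_div_neg_eq ((S.P ((S.R ^ n) j)).2 - o.2),
        div_le_div_iff₀ (by linarith) (by linarith)] at hmax'
      simp only [det, Prod.fst_sub, Prod.snd_sub] at this
      linarith
    obtain ⟨n1, n3⟩ := fix hfix
    refine h.nofixR hε hε' h1 (hP ((S.R ^ n) j)) fun p hp => ⟨?_, ?_⟩
    · by_contra hlt
      exact n1 ⟨⟨o, hoM, by simp only [F1_lev]; linarith⟩, ⟨p, hp, by simpa using hlt⟩⟩
    · by_contra hlt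
      exact n3 ⟨⟨o, hoM, by simp only [F3_lev, w]; nlinarith⟩, ⟨p, hp, by simpa using hlt⟩⟩

end XR
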