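import Pool.Agent.P.MP_408b1f_gt.Defs2

/-! The hyperbolic calculus (pure algebra).
With q (a, a') = (a u * a' v + a v * a' u) / 2 and B (a) = (a u * det v xi + a v * det u xi) / 2 the
polynomial identities are
q (a,a')^2 = q (a,a) q (a',a') + (det u v)^2 / 4 * (det a a')^2,
a' xi * q (a,a) = q (a,a') * a xi + det a a' * B (a),
q (a,a) * B (a') = q (a,a') * B (a) + (det u v)^2 / 4 * det a a' * a xi.
Put C = sigma sigma' q / (n n') which is positive with C^2 >= 1. For Tr: dot a' (mul4 p) =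
dot (pull a') p and det is preserved, so zt, bt of a' at the target equal those of pull a' at the
source. H1: C - 1 = D S^2 / (C + 1) <= D S^2 / 2 and C - 1 <= sqrt D |S|. H2: S (b + b') =
(C + 1) (z' - z) and C + 1 <= 2 + sqrt D |S|. -/

open Set MeasureTheory Filter Topology

noncomputable section

namespace XR

private theorem mul4_smul (a b c d l : ℝ) (p : V) :
    mul4 a b c d (l • p) = l • mul4 a b c d p := by
  ext <;> simp only [mul4, Prod.smul_fst, Prod.smul_snd, smul_eq_mul] <;> ring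

private theorem mul4_mul4 (a b c d a' b' c' d' : ℝ) (p : V) :
    mul4 (a' * a + b' * c) (a' * b + b' * d) (c' * a + d' * c) (c' * b + d' * d) p =
      mul4 a' b' c' d' (mul4 a b c d p) := by
  ext <;> simp only [mul4] <;> ring

private theorem mul4_inv {a b c d : ℝ} (h : a * d - b * c = 1) (p : V) :
    mul4 d (-b) (-c) a (mul4 a b c d p) = p := by
  ext
  · simp only [mul4]; linear_combination p.1 * h
  · simp only [mul4]; linear_combination p.2 * h

private theorem det_mul4 {a b c d : ℝ} (h : a * d - b * c = 1) (p q : V) :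
    det (mul4 a b c d p) (mul4 a b c d q) = det p q := by
  simp only [mul4, det]; linear_combination (p.1 * q.2 - p.2 * q.1) * h

private theorem det_smul_l (l : ℝ) (p q : V) : det (l • p) q = l * det p q := by
  simp only [det, Prod.smul_fst, Prod.smul_snd, smul_eq_mul]; ring

private theorem det_smul_r (l : ℝ) (p q : V) : det p (l • q) = l * det p q := by
  simp only [det, Prod.smul_fst, Prod.smul_snd, smul_eq_mul]; ring

private theorem dot_smul_r (l : ℝ) (p q : V) : dot p (l • q) = l * dot p q := by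
  simp only [dot, Prod.smul_fst, Prod.smul_snd, smul_eq_mul]; ring

private theorem dot_pull (a b c d : ℝ) (α p : V) :
    dot (pull a b c d α) p = dot α (mul4 a b c d p) := by
  simp only [dot, pull, mul4]; ring

theorem Tr.refl (u v ξ : V) : Tr 1 0 0 1 u v ξ u v ξ :=
  ⟨by norm_num, 1, one_pos, by simp [mul4], by simp [mul4], by simp [mul4]⟩

theorem Tr.trans {a b c d a' b' c' d' : ℝ} {u v ξ u' v' ξ' u'' v'' ξ'' : V}
    (h : Tr a b c d u v ξ u' v' ξ') (h' : Tr a' b' c' d' u' v' ξ' u'' v'' ξ'') :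
    Tr (a' * a + b' * c) (a' * b + b' * d) (c' * a + d' * c) (c' * b + d' * d) u v ξ u'' v'' ξ'' := by
  obtain ⟨h0, l, hl, h1, h2, h3⟩ := h
  obtain ⟨h0', l', hl', h1', h2', h3'⟩ := h'
  refine ⟨by linear_combination (a' * d' - b' * c') * h0 + h0', l * l', mul_pos hl hl', ?_, ?_, ?_⟩
  · rw [mul4_mul4, h1, mul4_smul, h1', smul_smul]
  · rw [mul4_mul4, h2, mul4_smul, h2', smul_smul, mul_inv]
  · rw [mul4_mul4, h3, h3']

theorem Tr.symm {a b c d : ℝ} {u v ξ u' v' ξ' : V} (h : Tr a b c d u v ξ u' v' ξ') :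
    Tr d (-b) (-c) a u' v' ξ' u v ξ := by
  obtain ⟨h0, l, hl, h1, h2, h3⟩ := h
  refine ⟨by linear_combination h0, l⁻¹, inv_pos.2 hl, ?_, ?_, ?_⟩
  · have := mul4_inv h0 u
    rw [h1, mul4_smul] at this
    rw [← this, smul_smul, inv_mul_cancel₀ hl.ne', one_smul]
  · have := mul4_inv h0 v
    rw [h2, mul4_smul] at this
    rw [← this, smul_smul, inv_inv, mul_inv_cancel₀ hl.ne', one_smul]
  · rw [← h3, mul4_inv h0]

theorem Tr.det_eq {a b c d : ℝ} {u v ξ u' v' ξ' : V} (h : Tr a b c d u v ξ u' v' ξ') :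
    det u' v' = det u v := by
  obtain ⟨h0, l, hl, h1, h2, h3⟩ := h
  rw [← det_mul4 h0 u v, h1, h2, det_smul_l, det_smul_r, ← mul_assoc, mul_inv_cancel₀ hl.ne',
    one_mul]

theorem Tr.zero {a b c d : ℝ} {u v ξ u' v' ξ' : V} (h : Tr a b c d u v ξ u' v' ξ') :
    ξ = 0 ↔ ξ' = 0 := by
  obtain ⟨h0, l, hl, h1, h2, h3⟩ := h
  constructor
  · intro e
    rw [← h3, e]; simp [mul4]
  · intro e
    rw [← mul4_inv h0 ξ, h3, e]; simp [mul4]

/-- parallel displacement is transported -/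
theorem Tr.par {a b c d : ℝ} {u v ξ u' v' ξ' : V} (h : Tr a b c d u v ξ u' v' ξ') :
    (det u ξ = 0 ∧ det v ξ = 0) ↔ (det u' ξ' = 0 ∧ det v' ξ' = 0) := by
  obtain ⟨h0, l, hl, h1, h2, h3⟩ := h
  rw [← det_mul4 h0 u ξ, ← det_mul4 h0 v ξ, h1, h2, h3, det_smul_l, det_smul_l,
    mul_eq_zero_iff_left hl.ne', mul_eq_zero_iff_left (inv_pos.2 hl).ne']

/-- in the tangential case the normalised tangent is transported exactly -/
theorem Tr.tangential {a b c d : ℝ} {u ξ u' ξ' : V} (h : Tr a b c d u u ξ u' u' ξ') (hu : u' ≠ 0)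
    {s : ℝ} (hs : ξ = s • u) : ξ' = s • u' := by
  obtain ⟨h0, l, hl, h1, h2, h3⟩ := h
  have e : l = l⁻¹ := smul_left_injective ℝ hu (h1.symm.trans h2)
  have e2 : l * l = 1 := by
    have := mul_inv_cancel₀ hl.ne'
    rwa [← e] at this
  have e3 : l = 1 := by nlinarith
  rw [← h3, hs, mul4_smul, h1, e3, one_smul]

private theorem link_abs {σ σ' n n' q δ D X B X' B' : ℝ} (hσ : σ = 1 ∨ σ = -1)
    (hσ' : σ' = 1 ∨ σ' = -1) (hn : 0 < n) (hn' : 0 < n') (hD : 0 ≤ D) (hq : 0 < σ * σ' * q)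
    (e1 : q ^ 2 = n ^ 2 * n' ^ 2 + D * δ ^ 2) (e2 : X' * n ^ 2 = q * X + δ * B)
    (e3 : n ^ 2 * B' = q * B + D * δ * X) :
    Link D (σ * σ' * δ / (n * n')) (X / (σ * n)) (B / (σ * n)) (X' / (σ' * n'))
      (B' / (σ' * n')) := by
  have hC : 0 < σ * σ' * q / (n * n') := div_pos hq (mul_pos hn hn')
  have hC2 : (σ * σ' * q / (n * n')) ^ 2 = 1 + D * (σ * σ' * δ / (n * n')) ^ 2 := by
    rcases hσ with rfl | rfl <;> rcases hσ' with rfl | rfl <;> field_simp <;>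
      linear_combination e1
  refine ⟨σ * σ' * q / (n * n'), ?_, hC2, ?_, ?_⟩
  · have := mul_nonneg hD (sq_nonneg (σ * σ' * δ / (n * n')))
    nlinarith
  · rcases hσ with rfl | rfl <;> rcases hσ' with rfl | rfl <;> field_simp <;>
      first | linear_combination e2 | linear_combination -e2
  · rcases hσ with rfl | rfl <;> rcases hσ' with rfl | rfl <;> field_simp <;>
      first | linear_combination e3 | linear_combination -e3

private theorem pos_of_sign {σ A B : ℝ} (hσ : σ = 1 ∨ σ = -1) (h1 : 0 < σ * A) (h2 : 0 < σ * B) :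
    0 < A * B := by
  have := mul_pos h1 h2
  rcases hσ with rfl | rfl <;> nlinarith

private theorem link_same {σ σ' : ℝ} {u v ξ α α' : V}
    (hσ : σ = 1 ∨ σ = -1) (hσ' : σ' = 1 ∨ σ' = -1) (h1 : 0 < σ * dot α u) (h2 : 0 < σ * dot α v)
    (h3 : 0 < σ' * dot α' u) (h4 : 0 < σ' * dot α' v) :
    Link (det u v ^ 2 / 4)
      (σ * σ' * det α α' / (√(dot α u * dot α v) * √(dot α' u * dot α' v)))
      (zt σ α u v ξ) (bt σ α u v ξ) (zt σ' α' u v ξ) (bt σ' α' u v ξ) := by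
  have p1 := pos_of_sign hσ h1 h2
  have p2 := pos_of_sign hσ' h3 h4
  refine link_abs (q := (dot α u * dot α' v + dot α v * dot α' u) / 2) hσ hσ'
    (Real.sqrt_pos.2 p1) (Real.sqrt_pos.2 p2) (by positivity) ?_ ?_ ?_ ?_
  · have a1 := mul_pos h1 h4
    have a2 := mul_pos h2 h3
    linarith [a1, a2]
  · rw [Real.sq_sqrt p1.le, Real.sq_sqrt p2.le]
    simp only [dot, det]; ring
  · rw [Real.sq_sqrt p1.le]
    simp only [dot, det]; ring
  · rw [Real.sq_sqrt p1.le]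
    simp only [dot, det]; ring

theorem link_of_tr {a b c d σ σ' : ℝ} {u v ξ u' v' ξ' α α' : V} (h : Tr a b c d u v ξ u' v' ξ')
    (hσ : σ = 1 ∨ σ = -1) (hσ' : σ' = 1 ∨ σ' = -1) (h1 : 0 < σ * dot α u) (h2 : 0 < σ * dot α v)
    (h3 : 0 < σ' * dot α' u') (h4 : 0 < σ' * dot α' v') :
    Link (det u v ^ 2 / 4)
      (σ * σ' * det α (pull a b c d α') / (√(dot α u * dot α v) * √(dot α' u' * dot α' v')))
      (zt σ α u v ξ) (bt σ α u v ξ) (zt σ' α' u' v' ξ') (bt σ' α' u' v' ξ') := by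
  obtain ⟨h0, l, hl, e1, e2, e3⟩ := h
  have d1 : dot (pull a b c d α') u = l * dot α' u' := by rw [dot_pull, e1, dot_smul_r]
  have d2 : dot (pull a b c d α') v = l⁻¹ * dot α' v' := by rw [dot_pull, e2, dot_smul_r]
  have d3 : dot (pull a b c d α') ξ = dot α' ξ' := by rw [dot_pull, e3]
  have d4 : det u ξ = l * det u' ξ' := by rw [← det_mul4 h0, e1, e3, det_smul_l]
  have d5 : det v ξ = l⁻¹ * det v' ξ' := by rw [← det_mul4 h0, e2, e3, det_smul_l]
  have d6 : dot (pull a b c d α') u * dot (pull a b c d α') v = dot α' u' * dot α' v' := by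
    rw [d1, d2]; field_simp
  have z1 : zt σ' α' u' v' ξ' = zt σ' (pull a b c d α') u v ξ := by
    rw [zt, zt, d6, d3]
  have z2 : bt σ' α' u' v' ξ' = bt σ' (pull a b c d α') u v ξ := by
    rw [bt, bt, d6, d1, d2, d4, d5]
    congr 2
    field_simp
  rw [z1, z2, ← d6]
  refine link_same hσ hσ' h1 h2 ?_ ?_
  · rw [d1]
    have := mul_pos hl h3
    linarith
  · rw [d2]
    have := mul_pos (inv_pos.2 hl) h4
    linarith

theorem bt_of_par {σ : ℝ} {α u v ξ : V} (h1 : det u ξ = 0) (h2 : det v ξ = 0) :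
    bt σ α u v ξ = 0 := by
  simp [bt, h1, h2]

theorem eq_zero_of_zt_bt {σ : ℝ} {α u v ξ : V} (hσ : σ = 1 ∨ σ = -1) (h1 : 0 < σ * dot α u)
    (h2 : 0 < σ * dot α v) (hz : zt σ α u v ξ = 0) (hb : bt σ α u v ξ = 0) : ξ = 0 := by
  have p1 := pos_of_sign hσ h1 h2
  have hσ0 : σ ≠ 0 := by rcases hσ with rfl | rfl <;> norm_num
  have hn : σ * √(dot α u * dot α v) ≠ 0 := mul_ne_zero hσ0 (Real.sqrt_pos.2 p1).ne'
  rw [zt, div_eq_zero_iff, or_iff_left hn] at hz
  rw [bt, div_eq_zero_iff, or_iff_left hn] at hb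
  have key : ∀ α' : V, dot α' ξ = 0 := fun α' => by
    have e : dot α' ξ * (dot α u * dot α v) =
        (dot α u * dot α' v + dot α v * dot α' u) / 2 * dot α ξ +
          det α α' * ((dot α u * det v ξ + dot α v * det u ξ) / 2) := by
      simp only [dot, det]; ring
    rw [hz, hb, mul_zero, mul_zero, add_zero] at e
    exact (mul_eq_zero.1 e).resolve_right p1.ne'
  ext
  · simpa [dot] using key (1, 0)
  · simpa [dot] using key (0, 1)

theorem par_of_bt {σ : ℝ} {α u ξ : V} (hσ : σ = 1 ∨ σ = -1) (h1 : 0 < σ * dot α u)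
    (hb : bt σ α u u ξ = 0) : ∃ s : ℝ, ξ = s • u := by
  have p1 := pos_of_sign hσ h1 h1
  have hσ0 : σ ≠ 0 := by rcases hσ with rfl | rfl <;> norm_num
  have hn : σ * √(dot α u * dot α u) ≠ 0 := mul_ne_zero hσ0 (Real.sqrt_pos.2 p1).ne'
  have hA : dot α u ≠ 0 := fun e => by rw [e, mul_zero] at p1; exact lt_irrefl _ p1
  rw [bt, div_eq_zero_iff, or_iff_left hn] at hb
  have hd : det u ξ = 0 := by
    have : dot α u * det u ξ = 0 := by linarith
    exact (mul_eq_zero.1 this).resolve_left hA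
  refine ⟨dot α ξ / dot α u, ?_⟩
  ext
  · rw [Prod.smul_fst, smul_eq_mul, div_mul_eq_mul_div, eq_div_iff hA]
    simp only [dot, det] at hd ⊢
    linear_combination (-α.2) * hd
  · rw [Prod.smul_snd, smul_eq_mul, div_mul_eq_mul_div, eq_div_iff hA]
    simp only [dot, det] at hd ⊢
    linear_combination α.1 * hd

/-- reversing both tangents reverses the normalised values -/
theorem zt_bt_flip {σ l : ℝ} {α u v ξ : V} (hl : 0 < l) :
    zt (-σ) α (-(l • u)) (-(l⁻¹ • v)) ξ = -zt σ α u v ξ ∧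
      bt (-σ) α (-(l • u)) (-(l⁻¹ • v)) ξ = -bt σ α u v ξ := by
  rw [← neg_smul, ← neg_smul]
  have e : dot α ((-l) • u) * dot α ((-l⁻¹) • v) = dot α u * dot α v := by
    rw [dot_smul_r, dot_smul_r]; field_simp
  constructor
  · rw [zt, zt, e, neg_mul, div_neg]
  · rw [bt, bt, e, neg_mul, div_neg, dot_smul_r, dot_smul_r, det_smul_l, det_smul_l]
    congr 3
    field_simp

theorem q12_sq (u v : V) :
    ((u.1 * v.2 + u.2 * v.1) / 2) ^ 2 = (u.1 * v.1) * (u.2 * v.2) + det u v ^ 2 / 4 := by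
  simp only [det]; ring

namespace Link

variable {D S S1 S2 z b z' b' z'' b'' : ℝ}

private theorem c_le_sqrt {C : ℝ} (hD : 0 ≤ D) (h2 : C ^ 2 = 1 + D * S ^ 2) :
    C - 1 ≤ √D * |S| := by
  have h0 : 0 ≤ √D * |S| := by positivity
  have h3 : (√D * |S|) ^ 2 = D * S ^ 2 := by rw [mul_pow, Real.sq_sqrt hD, sq_abs]
  have : C ≤ 1 + √D * |S| := le_of_sq_le_sq (by nlinarith) (by linarith)
  linarith

private theorem c_le_half {C : ℝ} (h1 : 1 ≤ C) (h2 : C ^ 2 = 1 + D * S ^ 2) :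
    C - 1 ≤ D * S ^ 2 / 2 := by nlinarith [sq_nonneg (C - 1)]

theorem symm (h : Link D S z b z' b') : Link D (-S) z' b' z b := by
  obtain ⟨C, h1, h2, h3, h4⟩ := h
  refine ⟨C, h1, by rw [h2]; ring, ?_, ?_⟩
  · rw [h3, h4]; linear_combination (-z) * h2
  · rw [h3, h4]; linear_combination (-b) * h2

theorem trans (hD : 0 ≤ D) (h : Link D S1 z b z' b') (h' : Link D S2 z' b' z'' b'') :
    ∃ S, Link D S z b z'' b'' ∧ (0 ≤ S1 * S2 → |S1| + |S2| ≤ |S|) ∧
      |S| ≤ |S1| * (1 + √D * |S2|) + |S2| * (1 + √D * |S1|) := by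
  obtain ⟨C, h1, h2, h3, h4⟩ := h
  obtain ⟨C', h1', h2', h3', h4'⟩ := h'
  have e : (C * C' + D * S1 * S2) ^ 2 = 1 + D * (C' * S1 + C * S2) ^ 2 := by
    linear_combination (C' ^ 2 - D * S2 ^ 2) * h2 + h2'
  have hp : 0 ≤ C * C' + D * S1 * S2 := by
    have a1 : (D * S1 * S2) ^ 2 ≤ (C * C') ^ 2 := by
      have b1 := mul_nonneg hD (sq_nonneg S1)
      have b2 := mul_nonneg hD (sq_nonneg S2)
      rw [mul_pow C, h2, h2']
      nlinarith
    have a2 := abs_le_of_sq_le_sq' a1 (by positivity)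
    linarith [a2.1]
  refine ⟨C' * S1 + C * S2, ⟨C * C' + D * S1 * S2, ?_, e, ?_, ?_⟩, fun hs => ?_, ?_⟩
  · have := mul_nonneg hD (sq_nonneg (C' * S1 + C * S2))
    exact le_of_sq_le_sq (by linarith) hp
  · rw [h3', h3, h4]; ring
  · rw [h4', h3, h4]; ring
  · rcases mul_nonneg_iff.1 hs with ⟨a1, a2⟩ | ⟨a1, a2⟩
    · rw [abs_of_nonneg a1, abs_of_nonneg a2]
      refine le_trans ?_ (le_abs_self _)
      nlinarith
    · rw [abs_of_nonpos a1, abs_of_nonpos a2]
      refine le_trans ?_ (neg_le_abs _)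
      nlinarith
  · have a1 := c_le_sqrt hD h2
    have a2 := c_le_sqrt hD h2'
    refine (abs_add_le _ _).trans ?_
    rw [abs_mul, abs_mul, abs_of_nonneg (by linarith : 0 ≤ C), abs_of_nonneg (by linarith : 0 ≤ C')]
    have b1 := mul_le_mul_of_nonneg_left a2 (abs_nonneg S1)
    have b2 := mul_le_mul_of_nonneg_left a1 (abs_nonneg S2)
    linarith

theorem scale (h : Link D S z b z' b') {k : ℝ} (hk : 0 < k) :
    Link (D / k ^ 4) (S * k ^ 2) (k * z) (b / k) (k * z') (b' / k) := by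
  obtain ⟨C, h1, h2, h3, h4⟩ := h
  refine ⟨C, h1, ?_, ?_, ?_⟩
  · rw [h2]; field_simp
  · rw [h3]; field_simp
  · rw [h4]; field_simp

theorem H1 (hD : 0 ≤ D) (h : Link D S z b z' b') (hS : S ≠ 0) :
    |b| ≤ |z' - z| / |S| + min (D * |S| / 2) (√D) * |z| := by
  obtain ⟨C, h1, h2, h3, h4⟩ := h
  have hS' : 0 < |S| := abs_pos.2 hS
  have a1 : C - 1 ≤ min (D * |S| / 2) (√D) * |S| := by
    rw [min_mul_of_nonneg _ _ hS'.le]
    refine le_min ?_ (c_le_sqrt hD h2)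
    have := c_le_half h1 h2
    rw [← sq_abs] at this
    linarith
  have a2 : |b| * |S| ≤ |z' - z| + (C - 1) * |z| := by
    have e : b * S = (z' - z) - (C - 1) * z := by rw [h3]; ring
    rw [← abs_mul, e]
    refine (abs_sub _ _).trans ?_
    rw [abs_mul, abs_of_nonneg (by linarith : 0 ≤ C - 1)]
  have a3 := mul_le_mul_of_nonneg_right a1 (abs_nonneg z)
  rw [div_add' _ _ _ hS'.ne', le_div_iff₀ hS']
  linarith

theorem H2 (hD : 0 ≤ D) (h : Link D S z b z' b') (hS : S ≠ 0) :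
    |b'| ≤ |b| + (2 / |S| + √D) * |z' - z| := by
  obtain ⟨C, h1, h2, h3, h4⟩ := h
  have hS' : 0 < |S| := abs_pos.2 hS
  have e : (b + b') * S = (C + 1) * (z' - z) := by
    rw [h3, h4]; linear_combination (-z) * h2
  have a1 : |b + b'| ≤ (2 / |S| + √D) * |z' - z| := by
    rw [div_add' _ _ _ hS'.ne', div_mul_eq_mul_div, le_div_iff₀ hS', ← abs_mul, e, abs_mul,
      abs_of_nonneg (by linarith : 0 ≤ C + 1)]
    exact mul_le_mul_of_nonneg_right (by linarith [c_le_sqrt hD h2]) (abs_nonneg _)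
  have a2 := abs_sub (b + b') b
  rw [add_sub_cancel_left] at a2
  linarith

theorem H3 (hD : 0 ≤ D) (h : Link D S z b z' b') :
    |b' - b| ≤ D * S ^ 2 / 2 * |b| + D * |S| * |z| := by
  obtain ⟨C, h1, h2, h3, h4⟩ := h
  have e : b' - b = (C - 1) * b + D * S * z := by rw [h4]; ring
  rw [e]
  refine (abs_add_le _ _).trans ?_
  rw [abs_mul, abs_mul, abs_mul, abs_of_nonneg (by linarith : 0 ≤ C - 1), abs_of_nonneg hD]
  have := mul_le_mul_of_nonneg_right (c_le_half h1 h2) (abs_nonneg b)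
  linarith

theorem H4 (hD : 0 ≤ D) (h : Link D S z b z' b') :
    |z' - z - S * b| ≤ min (D * S ^ 2 / 2) (√D * |S|) * |z| := by
  obtain ⟨C, h1, h2, h3, h4⟩ := h
  have e : z' - z - S * b = (C - 1) * z := by rw [h3]; ring
  rw [e, abs_mul, abs_of_nonneg (by linarith : 0 ≤ C - 1)]
  exact mul_le_mul_of_nonneg_right (le_min (c_le_half h1 h2) (c_le_sqrt hD h2)) (abs_nonneg z)

private theorem elim_eq {zB bB zA bA : ℝ} (h1 : Link D S1 zB bB z b) (h2 : Link D S2 z b zA bA) :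
    ∃ C1 C2 : ℝ, 1 ≤ C1 ∧ C1 ^ 2 = 1 + D * S1 ^ 2 ∧ 1 ≤ C2 ∧ C2 ^ 2 = 1 + D * S2 ^ 2 ∧
      S1 * (zA - z) - S2 * (z - zB) = (S1 * (C2 - 1) + S2 * (C1 - 1)) * z := by
  obtain ⟨C1, a1, a2, a3, a4⟩ := h1.symm
  obtain ⟨C2, b1, b2, b3, b4⟩ := h2
  exact ⟨C1, C2, a1, by rw [a2]; ring, b1, b2, by rw [a3, b3]; ring⟩

/-- elimination of b between an incoming and an outgoing link -/
theorem elim {zB bB zA bA : ℝ} (hD : 0 ≤ D) (h1 : Link D S1 zB bB z b) (h2 : Link D S2 z b zA bA) :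
    |S1 * (zA - z) - S2 * (z - zB)| ≤ D * |S1| * |S2| * (|S1| + |S2|) / 2 * |z| := by
  obtain ⟨C1, C2, a1, a2, b1, b2, e⟩ := elim_eq h1 h2
  rw [e, abs_mul]
  refine mul_le_mul_of_nonneg_right ((abs_add_le _ _).trans ?_) (abs_nonneg z)
  rw [abs_mul, abs_mul, abs_of_nonneg (by linarith : 0 ≤ C1 - 1),
    abs_of_nonneg (by linarith : 0 ≤ C2 - 1)]
  have c1 := mul_le_mul_of_nonneg_left (c_le_half a1 a2) (abs_nonneg S2)
  have c2 := mul_le_mul_of_nonneg_left (c_le_half b1 b2) (abs_nonneg S1)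
  rw [← sq_abs S1] at c1
  rw [← sq_abs S2] at c2
  linarith

/-- two links of the same sign bound the curvature term -/
theorem curv {zB bB zA bA a : ℝ} (hD : 0 ≤ D) (h1 : Link D S1 zB bB z b)
    (h2 : Link D S2 z b zA bA) (hs : 0 < S1 * S2) (ha : 0 ≤ a) (ha1 : a ≤ |S1|) (ha2 : a ≤ |S2|)
    (hb1 : D * S1 ^ 2 ≤ 3) (hb2 : D * S2 ^ 2 ≤ 3) :
    D * a ^ 2 * |z| ≤ 3 * max |zA - z| |z - zB| := by
  obtain ⟨C1, C2, a1, a2, b1, b2, e⟩ := elim_eq h1 h2
  have c1 : C1 ≤ 2 := le_of_sq_le_sq (by linarith) (by norm_num)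
  have c2 : C2 ≤ 2 := le_of_sq_le_sq (by linarith) (by norm_num)
  have d1 : D * |S1| ^ 2 ≤ 3 * (C1 - 1) := by rw [sq_abs]; nlinarith
  have d2 : D * |S2| ^ 2 ≤ 3 * (C2 - 1) := by rw [sq_abs]; nlinarith
  have e2 : |S1 * (C2 - 1) + S2 * (C1 - 1)| = |S1| * (C2 - 1) + |S2| * (C1 - 1) := by
    rcases mul_pos_iff.1 hs with ⟨f1, f2⟩ | ⟨f1, f2⟩
    · rw [abs_of_pos f1, abs_of_pos f2, abs_of_nonneg]
      exact add_nonneg (mul_nonneg f1.le (by linarith)) (mul_nonneg f2.le (by linarith))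
    · rw [abs_of_neg f1, abs_of_neg f2, abs_of_nonpos, neg_add, neg_mul, neg_mul]
      exact add_nonpos (mul_nonpos_of_nonpos_of_nonneg f1.le (by linarith))
        (mul_nonpos_of_nonpos_of_nonneg f2.le (by linarith))
  have p1 : 0 < |S1| := abs_pos.2 (left_ne_zero_of_mul hs.ne')
  have p2 : 0 < |S2| := abs_pos.2 (right_ne_zero_of_mul hs.ne')
  have e3 : (|S1| * (C2 - 1) + |S2| * (C1 - 1)) * |z| ≤
      (|S1| + |S2|) * max |zA - z| |z - zB| := by
    rw [← e2, ← abs_mul, ← e]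
    refine (abs_sub _ _).trans ?_
    rw [abs_mul, abs_mul, add_mul]
    exact add_le_add (mul_le_mul_of_nonneg_left (le_max_left _ _) p1.le)
      (mul_le_mul_of_nonneg_left (le_max_right _ _) p2.le)
  have e4 : (|S1| + |S2|) * (D * (|S1| * |S2|)) ≤ 3 * (|S1| * (C2 - 1) + |S2| * (C1 - 1)) := by
    have g1 := mul_le_mul_of_nonneg_left d1 p2.le
    have g2 := mul_le_mul_of_nonneg_left d2 p1.le
    linarith
  have e5 : D * a ^ 2 ≤ D * (|S1| * |S2|) :=
    mul_le_mul_of_nonneg_left (by rw [sq]; exact mul_le_mul ha1 ha2 ha p1.le) hD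
  have e6 := mul_le_mul_of_nonneg_right e4 (abs_nonneg z)
  have e7 : D * (|S1| * |S2|) * |z| ≤ 3 * max |zA - z| |z - zB| :=
    le_of_mul_le_mul_left (by linarith) (add_pos p1 p2)
  exact (mul_le_mul_of_nonneg_right e5 (abs_nonneg z)).trans e7

/-- a closed loop of two links of the same sign -/
theorem loop (hD : 0 ≤ D) (h1 : Link D S1 z b z' b') (h2 : Link D S2 z' b' z b)
    (hs : 0 < S1 * S2) : b = 0 ∧ (D ≠ 0 → z = 0) := by
  obtain ⟨S, ⟨C, a1, a2, a3, a4⟩, h3, -⟩ := trans hD h1 h2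
  have p1 : 0 < |S1| := abs_pos.2 (left_ne_zero_of_mul hs.ne')
  have hS : S ≠ 0 := abs_pos.1 (by linarith [h3 hs.le, abs_nonneg S2])
  have e : (2 * S) * b = 0 := by linear_combination S * a4 - (C + 1) * a3 - z * a2
  have hb : b = 0 := (mul_eq_zero.1 e).resolve_left (mul_ne_zero two_ne_zero hS)
  refine ⟨hb, fun hD0 => ?_⟩
  have e2 : (D * S) * z = 0 := by rw [hb] at a4; linarith
  exact (mul_eq_zero.1 e2).resolve_left (mul_ne_zero hD0 hS)

end Link

end XR
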