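import Pool.Agent.P.MP_408b1f_gt.ELem4

/-! The end lemma. -/

open Set MeasureTheory Filter Topology

noncomputable section

namespace XR

variable {f g : ℝ → ℝ}

theorem elem_left (c : Ctx f g) :
    ∃ C : ℝ, 0 ≤ C ∧ EvAll c fun _ _ ε _ S ξ M => ∀ i, S.x i ≤ c.σ0 →
      ε * |ξ.β (S.T i)| ≤ C * M ∧ ε * |ξ.β (S.T.symm i)| ≤ C * M := by
  obtain ⟨C1, h1⟩ := elem_g1 c
  obtain ⟨C2, h2⟩ := elem_brk c
  refine ⟨max 0 (max C1 C2), le_max_left _ _, ?_⟩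
  filter_upwards [h1, h2] with Λ h1 h2
  filter_upwards [h1, h2] with σ h1 h2
  filter_upwards [h1, h2] with ε h1 h2 I S yL yR ς hm ξ M hb i hi
  have e1 : C1 * M ≤ max 0 (max C1 C2) * M :=
    mul_le_mul_of_nonneg_right ((le_max_left _ _).trans (le_max_right _ _)) hb.nn
  have e2 : C2 * M ≤ max 0 (max C1 C2) * M :=
    mul_le_mul_of_nonneg_right ((le_max_right _ _).trans (le_max_right _ _)) hb.nn
  by_cases hg : S.G1 i
  · obtain ⟨a, b⟩ := h1 I S yL yR ς hm ξ M hb i hi hg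
    exact ⟨a.trans e1, b.trans e1⟩
  · obtain ⟨a, b⟩ := h2 I S yL yR ς hm ξ M hb i hi hg
    exact ⟨a.trans e2, b.trans e2⟩

theorem elem (c : Ctx f g) :
    ∃ C : ℝ, 0 ≤ C ∧ EvAll c fun _ _ ε _ S ξ M => ∀ i, (S.x i ≤ c.σ0 ∨ 1 - c.σ0 ≤ S.x i) →
      ε * |ξ.β (S.T i)| ≤ C * M ∧ ε * |ξ.β (S.T.symm i)| ≤ C * M := by
  obtain ⟨C1, p1, h1⟩ := elem_left c
  obtain ⟨C2, p2, h2⟩ := elem_left c.neg
  have h2' := EvAll.of_neg c h2
  refine ⟨max C1 C2, p1.trans (le_max_left _ _), ?_⟩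
  filter_upwards [h1, h2'] with Λ h1 h2
  filter_upwards [h1, h2] with σ h1 h2
  filter_upwards [h1, h2] with ε h1 h2 I S yL yR ς hm ξ M hb i hi
  have e1 : C1 * M ≤ max C1 C2 * M := mul_le_mul_of_nonneg_right (le_max_left _ _) hb.nn
  have e2 : C2 * M ≤ max C1 C2 * M := mul_le_mul_of_nonneg_right (le_max_right _ _) hb.nn
  rcases hi with hi | hi
  · obtain ⟨a, b⟩ := h1 I S yL yR ς hm ξ M hb i hi
    exact ⟨a.trans e1, b.trans e1⟩
  · obtain ⟨a, b⟩ := h2 I S yL yR ς hm ξ M hb i (by simp only [Sys.neg_x, Ctx.neg_σ0]; linarith)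
    simp only [Sys.neg_T, Lin.neg_β] at a b
    exact ⟨a.trans e2, b.trans e2⟩

end XR
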