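import Pool.Agent.P.MP_408b1f_gt.XLem
import Pool.Agent.P.MP_408b1f_gt.ELem

/-! Classification of the bulk indices.
between_top: if G2 i holds, O i and P (T i) are the two ends of a horizontal chord and both are top
points of K over their abscissas (pfacts, G1.topbot). If the highest point p of K ∩ L were to the
right of both (left is symmetric), with p.2 larger than the height, the segment from the left end to
p would pass strictly above the right end; if p.2 equals the height, p lies on the chord (hdist,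
G2.x_eq). If G2 i fails, x (T i) = x i (g2_of_ne), O i is not Inner for the height (gen2), there is
a lower point (hMb), so O i is a highest point of K ∩ L and uniq_top applies. between_bot by neg or
in the same way.
classify: centres g yL, 1 - g yR, xT, xB (exT, exB); x1, x2 the abscissas of a highest and a lowest
point of the compact set K ∩ L. If T j or T.symm j is outside InB sigma use elem (j is in
InB (4 sigma0) by nearL, nearR; x j = x i plus or minus g (height), heightL, heightR, Half.small,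
Half.lip). Otherwise, if one of the two links (heights yO j and yP j = yO (T.symm j)) is in
[r, 1 - r] and r away from ys use glink_bd. Otherwise j is deep (deep_of_height) and
|yP j - yO j| = f (x j) is in [f0, 1 - 2 rho], so one height is near 0 or 1 and the other near ys.
If the chord of the link near 0 or 1 has length >= f0 eps / 4 use plink_bd with l = 1,
d = f0 eps / 4, widthT, widthB; otherwise xlemA, xlemB and between_top, between_bot. -/

open Set MeasureTheory Filter Topology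

noncomputable section

namespace XR

variable {f g : ℝ → ℝ} {ε : ℝ} {I : Type} {S : Sys f g ε I} {yL yR ς : ℝ}

theorem classify_seg {K : Set V} (hK : Fam f g K) {p q : V} (hp : p ∈ K) (hq : q ∈ K) {t : ℝ}
    (h0 : 0 ≤ t) (h1 : t ≤ 1) : ((p.1 + t * (q.1 - p.1), p.2 + t * (q.2 - p.2)) : V) ∈ K := by
  have h := hK.body.conv.add_smul_sub_mem hp hq ⟨h0, h1⟩
  have e : p + t • (q - p) = ((p.1 + t * (q.1 - p.1), p.2 + t * (q.2 - p.2)) : V) := by
    ext <;> simp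
  rwa [e] at h

theorem classify_btw {K : Set V} (hK : Fam f g K) {a b y : ℝ} (hab : a < b) (ha : (a, y) ∈ K)
    (hb : (b, y) ∈ K) (hg : b - a = g y) (ta : y = F1.top K a) (tb : y = F1.top K b) {p : V}
    (hp : p ∈ K) (hy : y ≤ p.2) : a ≤ p.1 ∧ p.1 ≤ b := by
  have hai : a ∈ Icc (0:ℝ) 1 := ⟨(hK.box _ ha).1, (hK.box _ ha).2.1⟩
  have hbi : b ∈ Icc (0:ℝ) 1 := ⟨(hK.box _ hb).1, (hK.box _ hb).2.1⟩
  rcases hy.eq_or_lt with h | h
  · have h1 := abs_le.1 (hK.hdist ha hp h)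
    have h2 := abs_le.1 (hK.hdist hb hp h)
    simp only at h1 h2
    constructor <;> linarith only [hg, h2, h1, h1.1, h1.2, h2.1, h2.2]
  · constructor
    · by_contra hc
      have hc : p.1 < a := not_le.1 hc
      have hd : 0 < b - p.1 := by linarith
      have ht0 : 0 < (b - a) / (b - p.1) := div_pos (by linarith) hd
      have ht1 : (b - a) / (b - p.1) ≤ 1 := by rw [div_le_one hd]; linarith
      have h1 := classify_seg hK hb hp ht0.le ht1
      have e : b + (b - a) / (b - p.1) * (p.1 - b) = a := by field_simp; ring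
      simp only [e] at h1
      have h2 := ((hK.mem_iff hai _).1 h1).2
      have h3 : 0 < (b - a) / (b - p.1) * (p.2 - y) := mul_pos ht0 (by linarith only [h])
      linarith only [ta, h2, h3]
    · by_contra hc
      have hc : b < p.1 := not_le.1 hc
      have hd : 0 < p.1 - a := by linarith
      have ht0 : 0 < (b - a) / (p.1 - a) := div_pos (by linarith) hd
      have ht1 : (b - a) / (p.1 - a) ≤ 1 := by rw [div_le_one hd]; linarith
      have h1 := classify_seg hK ha hp ht0.le ht1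
      have e : a + (b - a) / (p.1 - a) * (p.1 - a) = b := by field_simp; ring
      simp only [e] at h1
      have h2 := ((hK.mem_iff hbi _).1 h1).2
      have h3 : 0 < (b - a) / (p.1 - a) * (p.2 - y) := mul_pos ht0 (by linarith only [h])
      linarith only [tb, h2, h3]

theorem between_top {c : Ctx f g} (hs : c.Small ε) (hm : Mg c.η c.ys S yL yR ς) {i : I} {δ : ℝ}
    (hδ : δ ≤ c.η / 4) (hδ' : δ ≤ c.f0 / 2) (h : 1 - δ ≤ S.yO i) {p : V} (hp : p ∈ S.K ∩ S.L)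
    (hmax : ∀ q ∈ S.K ∩ S.L, q.2 ≤ p.2) :
    |S.x i - p.1| ≤ |S.x (S.T i) - S.x i| ∧ |S.x (S.T i) - p.1| ≤ |S.x (S.T i) - S.x i| := by
  have hσ := c.σ0pos
  have hε := hs.εpos
  obtain ⟨b1, b2, t1, t2⟩ := pfacts hs hm (i := i) (τ := 1) hδ hδ' (Or.inl ⟨rfl, h⟩)
  have g1 := (S.g1_of hε (by linarith only [hσ, hs.leσ]) b1).1
  have g2 := (S.g1_of hε (by linarith [hs.leσ]) b2).1
  have e1 := (g1.topbot.2 t1).2
  have e2 := (g2.topbot.1 t2).1
  rw [S.yP_T] at e2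
  have mO : ((S.x i, S.yO i) : V) ∈ S.K := by
    have := (S.memO i).1
    rwa [← S.xO i]
  have mP : ((S.x (S.T i), S.yO i) : V) ∈ S.K := by
    have := (S.memP (S.T i)).1
    rwa [← S.yP_T i]
  have hy : S.yO i ≤ p.2 := hmax _ (S.memO i)
  by_cases hG : S.G2 i
  · have ex := hG.x_eq
    have hl : 0 < g (S.yO i) := hG.1.hlen
    rcases hG.1.ht with ht | ht <;> rw [ht] at ex
    · obtain ⟨k1, k2⟩ := classify_btw S.hK (a := S.x (S.T i)) (b := S.x i) (by linarith only [ex, hl]) mP mO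
        (by linarith only [ex]) e2 e1 hp.1 hy
      rw [abs_of_nonpos (by linarith : S.x (S.T i) - S.x i ≤ 0), abs_le, abs_le]
      refine ⟨⟨?_, ?_⟩, ?_, ?_⟩ <;> linarith only [ex, hl, k2, k1]
    · obtain ⟨k1, k2⟩ := classify_btw S.hK (a := S.x i) (b := S.x (S.T i)) (by linarith) mO mP
        (by linarith) e1 e2 hp.1 hy
      rw [abs_of_nonneg (by linarith : 0 ≤ S.x (S.T i) - S.x i), abs_le, abs_le]
      refine ⟨⟨?_, ?_⟩, ?_, ?_⟩ <;> linarith only [k2, ex, hl, k1]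
  · have hx : S.x (S.T i) = S.x i := by
      by_contra hne
      exact hG (S.g2_of_ne c.hg.zero0 c.hg.zero1 hne)
    have htop : ∀ z ∈ S.K ∩ S.L, z.2 ≤ (S.O i).2 := by
      intro z hz
      by_contra hc
      apply hG
      apply S.gen2
      obtain ⟨q, hq, hq'⟩ := S.hMb
      refine ⟨⟨q, hq, ?_⟩, z, hz, not_le.1 hc⟩
      have h1 := hm.hL
      have h2 := hs.leη
      have h3 : (S.O i).2 = S.yO i := rfl
      have h4 := c.ηpos
      linarith only [hδ, h, hε, hq', h1, h2, h3, h1.1, h1.2]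
    have e := S.uniq_top c.hg.zero1 hp (S.memO i) hmax htop
    rw [hx, e, S.xO]
    simp

theorem between_bot {c : Ctx f g} (hs : c.Small ε) (hm : Mg c.η c.ys S yL yR ς) {i : I} {δ : ℝ}
    (hδ : δ ≤ c.η / 4) (hδ' : δ ≤ c.f0 / 2) (h : S.yO i ≤ δ) {p : V} (hp : p ∈ S.K ∩ S.L)
    (hmin : ∀ q ∈ S.K ∩ S.L, p.2 ≤ q.2) :
    |S.x i - p.1| ≤ |S.x (S.T i) - S.x i| ∧ |S.x (S.T i) - p.1| ≤ |S.x (S.T i) - S.x i| := by
  have hp' : negP p ∈ S.neg.K ∩ S.neg.L := by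
    rw [Sys.neg_K, Sys.neg_L]
    exact ⟨negP_mem.2 hp.1, negP_mem.2 hp.2⟩
  have := between_top (c := c.neg) (S := S.neg) (i := i) (δ := δ) hs.neg hm.neg hδ hδ'
    (by rw [Sys.neg_yO]; linarith only [h]) hp' (by
      intro q hq
      rw [Sys.neg_K, Sys.neg_L] at hq
      have := hmin (negP q) ⟨mem_negP.1 hq.1, mem_negP.1 hq.2⟩
      rw [negP_snd] at this ⊢
      linarith)
  simp only [Sys.neg_x, Sys.neg_T, negP_fst] at this
  have e : ∀ a b : ℝ, |1 - a - (1 - b)| = |a - b| := by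
    intro a b
    rw [← abs_neg]; congr 1; ring
  rwa [e, e, e] at this

theorem classify_lip {c : Ctx f g} {y y0 a rw : ℝ} (hy0 : c.η ≤ y0 ∧ y0 ≤ 1 - c.η)
    (h4 : |y - y0| ≤ c.η / 4) (ha : |y - y0| ≤ a) (har : a ≤ rw * c.η / 4) :
    |g y - g y0| ≤ rw / 2 := by
  have hη := c.ηpos
  have h5 := abs_le.1 h4
  have h1 := c.hg.lip (s := c.η / 2) (x := y) (x' := y0) (by positivity)
    ⟨by linarith only [hy0, hη, h5, h5.1, hy0.1], by linarith only [hy0, hη, h5, h5.2, hy0.2]⟩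
    ⟨by linarith only [hy0, hη, hy0.1], by linarith only [hy0, hη, hy0.2]⟩
  refine h1.trans ?_
  rw [div_le_iff₀ (by positivity)]
  linarith only [ha, har]

theorem classify_cenL {c : Ctx f g} (hs : c.Small ε) (hm : Mg c.η c.ys S yL yR ς) {σ rw : ℝ}
    (hσ0 : σ ≤ c.σ0) (h1 : σ ≤ rw / 2) (h2 : σ ≤ rw * c.η / 8)
    (hf : ∀ x ∈ Icc (0:ℝ) 1, (x ≤ σ ∨ 1 - σ ≤ x) → f x ≤ rw * c.η / 8) {i : I}
    (hi : S.x i ≤ σ) :
    (S.InB c.σ0 (S.T i) ∧ |S.x (S.T i) - g yL| ≤ rw) ∧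
      (S.InB c.σ0 (S.T.symm i) ∧ |S.x (S.T.symm i) - g yL| ≤ rw) := by
  have hσ := c.σ0pos
  obtain ⟨n1, n2, n3, n4, n5, n6, n7, n8⟩ := nearL hs hm.toMg0 (i := i) (by linarith only [hσ0, hi, hσ])
  have hx := S.x_mem i
  have hfx := hf _ hx (Or.inl hi)
  have a1 := S.hK.heightL hm.memL (S.memP i).1
  have a2 := S.hK.heightL hm.memL (S.memO i).1
  rw [S.xO] at a2
  have a1' : |S.yP i - yL| ≤ f (S.x i) + S.x i := a1
  have a2' : |S.yO i - yL| ≤ f (S.x i) + S.x i := a2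
  have l1 := abs_le.1 (classify_lip (rw := rw) hm.hL n1 a1' (by linarith only [h2, hi, hfx]))
  have l2 := abs_le.1 (classify_lip (rw := rw) hm.hL n2 a2' (by linarith only [h2, hi, hfx]))
  have e1 := n3.x_eq
  have e2 := n4.x_eq
  rw [n5] at e1
  rw [n6, S.T.apply_symm_apply, S.yO_Tsymm] at e2
  refine ⟨⟨⟨by linarith only [hσ, n7.1], by linarith only [hσ, n7.2]⟩, ?_⟩,
    ⟨by linarith only [hσ, n8.1], by linarith only [hσ, n8.2]⟩, ?_⟩ <;> rw [abs_le] <;> constructor <;>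
    linarith only [l1, l2, e1, h1, hi, e2, hx.1, l1.1, l1.2, l2.1, l2.2]

theorem classify_cenR {c : Ctx f g} (hs : c.Small ε) (hm : Mg c.η c.ys S yL yR ς) {σ rw : ℝ}
    (hσ0 : σ ≤ c.σ0) (h1 : σ ≤ rw / 2) (h2 : σ ≤ rw * c.η / 8)
    (hf : ∀ x ∈ Icc (0:ℝ) 1, (x ≤ σ ∨ 1 - σ ≤ x) → f x ≤ rw * c.η / 8) {i : I}
    (hi : 1 - σ ≤ S.x i) :
    (S.InB c.σ0 (S.T i) ∧ |S.x (S.T i) - (1 - g yR)| ≤ rw) ∧
      (S.InB c.σ0 (S.T.symm i) ∧ |S.x (S.T.symm i) - (1 - g yR)| ≤ rw) := by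
  have hσ := c.σ0pos
  obtain ⟨n1, n2, n3, n4, n5, n6, n7, n8⟩ := nearR hs hm.toMg0 (i := i) (by linarith)
  have hx := S.x_mem i
  have hfx := hf _ hx (Or.inr hi)
  have a1 := S.hK.heightR hm.memR (S.memP i).1
  have a2 := S.hK.heightR hm.memR (S.memO i).1
  rw [S.xO] at a2
  have a1' : |S.yP i - yR| ≤ f (S.x i) + (1 - S.x i) := a1
  have a2' : |S.yO i - yR| ≤ f (S.x i) + (1 - S.x i) := a2
  have l1 := abs_le.1 (classify_lip (rw := rw) hm.hR n1 a1' (by linarith only [h2, hi, hfx]))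
  have l2 := abs_le.1 (classify_lip (rw := rw) hm.hR n2 a2' (by linarith only [h2, hi, hfx]))
  have e1 := n3.x_eq
  have e2 := n4.x_eq
  rw [n5] at e1
  rw [n6, S.T.apply_symm_apply, S.yO_Tsymm] at e2
  refine ⟨⟨⟨by linarith only [hσ, n7.1], by linarith only [hσ, n7.2]⟩, ?_⟩,
    ⟨by linarith only [hσ, n8.1], by linarith only [hσ, n8.2]⟩, ?_⟩ <;> rw [abs_le] <;> constructor <;>
    linarith only [h1, hi, l2, e1, l1, e2, hx.2, l1.1, l1.2, l2.1, l2.2]

theorem classify_heights {a b ys r t F f0 ρ : ℝ} (ht : t = 1 ∨ t = -1) (e : a - b = t * F)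
    (h1 : f0 ≤ F) (h2 : F ≤ 1 - 2 * ρ) (r1 : r ≤ f0 / 2) (r2 : r ≤ ρ) (ha : a ∈ Icc (0:ℝ) 1)
    (hb : b ∈ Icc (0:ℝ) 1) (ha' : a < r ∨ 1 - r < a ∨ |a - ys| < r)
    (hb' : b < r ∨ 1 - r < b ∨ |b - ys| < r) :
    ((a ≤ r ∨ 1 - r ≤ a) ∧ |b - ys| ≤ r) ∨ ((b ≤ r ∨ 1 - r ≤ b) ∧ |a - ys| ≤ r) := by
  obtain ⟨a0, a1⟩ := ha
  obtain ⟨b0, b1⟩ := hb
  rcases ha' with h | h | h <;> rcases hb' with h' | h' | h'
  · exfalso; rcases ht with k | k <;> rw [k] at e <;> linarith only [e, h1, r1, a0, b0, h, h']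
  · exfalso; rcases ht with k | k <;> rw [k] at e <;> linarith
  · exact Or.inl ⟨Or.inl h.le, h'.le⟩
  · exfalso; rcases ht with k | k <;> rw [k] at e <;> linarith
  · exfalso; rcases ht with k | k <;> rw [k] at e <;> linarith only [e, h1, r1, a1, h, h', b1]
  · exact Or.inl ⟨Or.inr h.le, h'.le⟩
  · exact Or.inr ⟨Or.inl h'.le, h.le⟩
  · exact Or.inr ⟨Or.inr h'.le, h.le⟩
  · exfalso
    have k1 := abs_lt.1 h
    have k2 := abs_lt.1 h'
    rcases ht with k | k <;> rw [k] at e <;> linarith only [e, h1, r1, k1, k2, k1.1, k1.2, k2.1, k2.2]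

theorem classify_bad {y ys r : ℝ} (h : ¬ (y ∈ Icc r (1 - r) ∧ r ≤ |y - ys|)) :
    y < r ∨ 1 - r < y ∨ |y - ys| < r := by
  by_contra hc
  simp only [not_or, not_lt] at hc
  exact h ⟨⟨hc.1, hc.2.1⟩, hc.2.2⟩

theorem classify (c : Ctx f g) : ∃ Cw > (0:ℝ), ∀ η > (0:ℝ), ∀ rw > (0:ℝ),
    EvAll c fun _ σ ε _ S ξ M => ∃ (cen : Fin 4 → ℝ) (ex : Fin 2 → ℝ), ∀ j, S.InB σ j →
      √ε * |ξ.β j| ≤ M ∨
      (S.InB c.σ0 j ∧ (∃ k, |S.x j - cen k| ≤ rw) ∧ ε * |ξ.β j| ≤ Cw * M) ∨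
      (S.InB c.σ0 j ∧ (∃ k, |S.x j - ex k| ≤ c.f0 / 4 * ε) ∧ ε ^ 2 * |ξ.β j| ≤ η * M) := by
  have hf0 := c.f0pos
  have hσ0 := c.σ0pos
  have hσ8 := c.toCtx0.σ0_le
  have hcη := c.ηpos
  have hρ := c.ρpos
  obtain ⟨Ce, hCe, hE⟩ := elem c
  obtain ⟨Cp, hCp, hP⟩ := plink_bd c
  obtain ⟨s, hs0, hP⟩ := hP 1 le_rfl
  have hQ : 0 < 30 + 4 * Cp / c.f0 := by positivity
  refine ⟨Ce + (30 + 4 * Cp / c.f0), by positivity, fun η hη rw hrw => ?_⟩
  obtain ⟨sg, hsg, hg⟩ := c.hg.small (δ := rw / 2) (by positivity)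
  obtain ⟨sf, hsf, hf⟩ := c.hf.small (δ := rw * c.η / 8) (by positivity)
  obtain ⟨r, hA, hB, ⟨hr, r1⟩, r2, r3, r4, r5, r6⟩ := ((xlemA c hη).and ((xlemB c hη).and
    ((ev_le hs0).and ((ev_le (a := c.η / 4) (by positivity)).and
    ((ev_le (a := c.f0 / 2) (by positivity)).and ((ev_le hρ).and ((ev_le hsg).and
    (ev_le (a := rw / 2) (by positivity))))))))).exists
  replace r2 := r2.2
  replace r3 := r3.2
  replace r4 := r4.2
  replace r5 := r5.2
  replace r6 := r6.2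
  have hG := glink_bd c hr
  filter_upwards [hE, hP, hA, hB, hG, eventually_ge_atTop 1] with Λ hE hP hA hB hG hΛ
  filter_upwards [hE, hP, hA, hB, hG, c.ev_σ, ev_le hsf, ev_le (a := rw / 2) (by positivity),
    ev_le (a := rw * c.η / 8) (by positivity)] with σ hE hP hA hB hG hσ s1 s2 s3
  filter_upwards [hE, hP, hA, hB, hG, c.toCtx0.ev_small]
    with ε hE hP hA hB hG hs I S yL yR ς hm ξ M hb
  replace hE := hE I S yL yR ς hm ξ M hb
  replace hP := hP I S yL yR ς hm ξ M hb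
  replace hA := hA I S yL yR ς hm ξ M hb
  replace hB := hB I S yL yR ς hm ξ M hb
  replace hG := hG I S yL yR ς hm ξ M hb
  have hε := hs.εpos
  have hε1 : ε ≤ 1 := by linarith only [hσ0, hσ8, hs.leσ]
  have hM := hb.nn
  have hf' : ∀ x ∈ Icc (0:ℝ) 1, (x ≤ σ ∨ 1 - σ ≤ x) → f x ≤ rw * c.η / 8 := by
    intro x hx h
    refine hf x hx ?_
    rcases h with h | h
    · exact Or.inl (by linarith only [s1, h, s1.2])
    · exact Or.inr (by linarith [s1.2])
  obtain ⟨xT, hxT⟩ := S.hK.exT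
  obtain ⟨xB, hxB⟩ := S.hK.exB
  have hc : IsCompact (S.K ∩ S.L) := S.hK.body.comp.inter_right S.hL.body.comp.isClosed
  have hne : (S.K ∩ S.L).Nonempty := S.intM.mono interior_subset
  obtain ⟨pT, hpT, hmax⟩ := hc.exists_isMaxOn hne continuous_snd.continuousOn
  obtain ⟨pB, hpB, hmin⟩ := hc.exists_isMinOn hne continuous_snd.continuousOn
  have e1 : Ce * M ≤ (Ce + (30 + 4 * Cp / c.f0)) * M :=
    mul_le_mul_of_nonneg_right (by linarith only [hQ]) hM
  have e2 : ∀ b : ℝ, b ≤ (30 / 1 + Cp / (c.f0 / 4 * ε * Λ)) * M →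
      ε * b ≤ (Ce + (30 + 4 * Cp / c.f0)) * M := by
    intro b hb
    have k1 : ε * (30 / 1 + Cp / (c.f0 / 4 * ε * Λ)) = 30 * ε + 4 * Cp / c.f0 / Λ := by
      field_simp
    have k2 : 4 * Cp / c.f0 / Λ ≤ 4 * Cp / c.f0 := div_le_self (by positivity) hΛ
    calc ε * b ≤ ε * ((30 / 1 + Cp / (c.f0 / 4 * ε * Λ)) * M) :=
          mul_le_mul_of_nonneg_left hb hε.le
      _ = (30 * ε + 4 * Cp / c.f0 / Λ) * M := by rw [← mul_assoc, k1]
      _ ≤ _ := mul_le_mul_of_nonneg_right (by linarith only [hCe, hε1, k2]) hM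
  have hw : ∀ p ∈ S.K, (p.2 ≤ r ∨ 1 - r ≤ p.2) →
      ∃ k, |p.1 - (![g yL, 1 - g yR, xT, xB] : Fin 4 → ℝ) k| ≤ rw := by
    intro p hp h
    have hbx := S.hK.box p hp
    rcases h with h | h
    · have k1 := S.hK.widthB hxB hp
      have k2 := hg p.2 ⟨hbx.2.2.1, hbx.2.2.2⟩ (Or.inl (by linarith only [r5, h]))
      exact ⟨3, by show |p.1 - xB| ≤ rw; linarith only [r6, h, k1, k2]⟩
    · have k1 := S.hK.widthT hxT hp
      have k2 := hg p.2 ⟨hbx.2.2.1, hbx.2.2.2⟩ (Or.inr (by linarith))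
      exact ⟨2, by show |p.1 - xT| ≤ rw; linarith only [r6, h, k1, k2]⟩
  have hbt : ∀ i, (S.yO i ≤ r ∨ 1 - r ≤ S.yO i) →
      ∃ k, |S.x i - (![pT.1, pB.1] : Fin 2 → ℝ) k| ≤ |S.x (S.T i) - S.x i| ∧
        |S.x (S.T i) - (![pT.1, pB.1] : Fin 2 → ℝ) k| ≤ |S.x (S.T i) - S.x i| := by
    intro i h
    rcases h with h | h
    · exact ⟨1, between_bot hs hm r2 r3 h hpB fun q hq => hmin hq⟩
    · exact ⟨0, between_top hs hm r2 r3 h hpT fun q hq => hmax hq⟩
  have hend : ∀ i, ¬ S.InB σ i →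
      ((S.InB c.σ0 (S.T i) ∧
        ∃ k, |S.x (S.T i) - (![g yL, 1 - g yR, xT, xB] : Fin 4 → ℝ) k| ≤ rw) ∧
        ε * |ξ.β (S.T i)| ≤ (Ce + (30 + 4 * Cp / c.f0)) * M) ∧
      ((S.InB c.σ0 (S.T.symm i) ∧
        ∃ k, |S.x (S.T.symm i) - (![g yL, 1 - g yR, xT, xB] : Fin 4 → ℝ) k| ≤ rw) ∧
        ε * |ξ.β (S.T.symm i)| ≤ (Ce + (30 + 4 * Cp / c.f0)) * M) := by
    intro i hi
    have hi' : S.x i ≤ σ ∨ 1 - σ ≤ S.x i := by
      by_contra hcon
      simp only [not_or, not_le] at hcon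
      exact hi ⟨hcon.1.le, hcon.2.le⟩
    have k := hE i (by
      rcases hi' with h | h
      · exact Or.inl (by linarith only [hσ, h, hσ.2])
      · exact Or.inr (by linarith only [hσ, h, hσ.2]))
    rcases hi' with h | h
    · obtain ⟨⟨a1, a2⟩, a3, a4⟩ := classify_cenL hs hm hσ.2 s2.2 s3.2 hf' h
      exact ⟨⟨⟨a1, 0, a2⟩, k.1.trans e1⟩, ⟨a3, 0, a4⟩, k.2.trans e1⟩
    · obtain ⟨⟨a1, a2⟩, a3, a4⟩ := classify_cenR hs hm hσ.2 s2.2 s3.2 hf' h
      exact ⟨⟨⟨a1, 1, a2⟩, k.1.trans e1⟩, ⟨a3, 1, a4⟩, k.2.trans e1⟩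
  refine ⟨![g yL, 1 - g yR, xT, xB], ![pT.1, pB.1], fun j hj => ?_⟩
  have hT : S.T (S.T.symm j) = j := S.T.apply_symm_apply j
  by_cases h1 : S.InB σ (S.T j)
  swap
  · have := (hend _ h1).2
    rw [S.T.symm_apply_apply] at this
    exact Or.inr (Or.inl ⟨this.1.1, this.1.2, this.2⟩)
  by_cases h2 : S.InB σ (S.T.symm j)
  swap
  · have := (hend _ h2).1
    rw [hT] at this
    exact Or.inr (Or.inl ⟨this.1.1, this.1.2, this.2⟩)
  by_cases h3 : S.yO j ∈ Icc r (1 - r) ∧ r ≤ |S.yO j - c.ys|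
  · exact Or.inl (hG j hj h1 h3.1 h3.2).1
  by_cases h4 : S.yP j ∈ Icc r (1 - r) ∧ r ≤ |S.yP j - c.ys|
  · have := (hG (S.T.symm j) h2 (by rwa [hT]) (by rw [S.yO_Tsymm]; exact h4.1)
      (by rw [S.yO_Tsymm]; exact h4.2)).2
    rw [hT] at this
    exact Or.inl this
  replace h3 := classify_bad h3
  replace h4 := classify_bad h4
  have hd := deep_of_height (c := c.toCtx0) hm (S.memP j).1 (by
    rcases h4 with h | h | h
    · exact Or.inl (by show S.yP j < _; linarith only [hr, r2, h])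
    · exact Or.inr (Or.inl (by show _ < S.yP j; linarith only [hr, r2, h]))
    · exact Or.inr (Or.inr (by show |S.yP j - c.ys| < _; linarith only [hr, r2, h])))
  have hd1 : 2 * c.σ0 < S.x j := hd.1
  have hd2 : S.x j < 1 - 2 * c.σ0 := hd.2
  have hin : S.InB c.σ0 j := ⟨by linarith, by linarith only [hσ0, hd2]⟩
  have g1 := (S.g1_of hε (by linarith [hs.leσ]) hin).1
  have hd0 : 0 < c.f0 / 4 * ε := by positivity
  have hrs : ∀ y : ℝ, (y ≤ r ∨ 1 - r ≤ y) → (y ≤ s ∨ 1 - s ≤ y) := by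
    intro y h
    rcases h with h | h
    · exact Or.inl (by linarith only [r1, h])
    · exact Or.inr (by linarith only [r1, h])
  right
  rcases classify_heights g1.1.ht g1.ydiff (c.fge _ ⟨by linarith only [hσ0, hd1], by linarith only [hσ0, hd2]⟩)
    (c.fle _ (S.x_mem j)) r3 r4 (S.yP_mem j) (S.yO_mem j) h4 h3 with ⟨k1, k2⟩ | ⟨k1, k2⟩
  · have k1' : S.yO (S.T.symm j) ≤ r ∨ 1 - r ≤ S.yO (S.T.symm j) := by rwa [S.yO_Tsymm]
    by_cases hl : c.f0 / 4 * ε ≤ |S.x j - S.x (S.T.symm j)|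
    · have := (hP (S.T.symm j) _ (hrs _ k1') hd0 (by rwa [hT])).2
      rw [hT] at this
      exact Or.inl ⟨hin, hw _ (S.memP j).1 k1, e2 _ this⟩
    · have hl := not_le.1 hl
      obtain ⟨k, -, hk⟩ := hbt _ k1'
      rw [hT] at hk
      exact Or.inr ⟨hin, ⟨k, hk.trans hl.le⟩, hA j hl k1 k2⟩
  · by_cases hl : c.f0 / 4 * ε ≤ |S.x (S.T j) - S.x j|
    · have := (hP j _ (hrs _ k1) hd0 hl).1
      have hw' := hw _ (S.memO j).1 k1
      rw [S.xO] at hw'
      exact Or.inl ⟨hin, hw', e2 _ this⟩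
    · have hl := not_le.1 hl
      obtain ⟨k, hk, -⟩ := hbt _ k1
      exact Or.inr ⟨hin, ⟨k, hk.trans hl.le⟩, hB j hl k1 k2⟩

end XR
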