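import Pool.Agent.P.MP_408b1f_gt.Geo2a

/-! The corner lemma: uniform margins.
corner_chain. Let U = R if tau = 1 and U = R.symm if tau = -1; on indices with t1 = tau in the bulk
U moves right by eps times h3 or h (step: xR, xL), keeps t1, is monotone (Rmono, Rmono_symm,
eq_of_x) and commutes with T. For such an index j with x j in [1 - 2 sa, 1 - s2 / 2]: O j is the
point (x j, oy (x j)) (G1.topbot), G2 j holds (height bounds), x (T j) = ell (x j) (G2.x_eq; t2 j = 1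
because O j is the right end), P (T j) is the side tau point over ell, so t1 (T j) = tau (topbot,
f > 0). Take j0 with t1 = tau and x j0 in [1 - sa - eps, 1 - sa] (exists_window at the level
s = min (s2 / 4) (1/4)), p l = x (U^l j0), z m = x (U^m (T j0)), and n >= 1 minimal with
z n >= p 0. Monotonicity of U gives z (n - 1 + l) < p l <= z (n + l) as long as p l <= 1 - s2 / 2.
For x in [1 - sa, 1 - s2] pick l with p l <= x <= p (l + 1); the shifted sequence z (l + m) is the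
chain (monotonicity of ell, ell (p l) = z l). The tau inequalities in Step come from the
monotonicity of tau * sy: for tau = 1, h3 j = top (x (R j)) - bot (x j) >= f (x j); for tau = -1,
going from j' = R.symm j (right) to j (left), h j = top (x j') - bot (x j) <= f (x j').
-/

open Set MeasureTheory Filter Topology

noncomputable section

namespace XR

variable {f g : ℝ → ℝ}

theorem cch_first {I : Type} {X : I → ℝ} {U : I → I} {G : I → Prop} {b δ c : ℝ} (hδ : 0 < δ)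
    (hU : ∀ j, G j → X j ≤ b → G (U j) ∧ X j + δ ≤ X (U j)) (hc : c ≤ b) {j : I} (hj : G j)
    (h0 : X j ≤ c) :
    ∃ l : ℕ, (∀ m ≤ l, G (U^[m] j) ∧ X j ≤ X (U^[m] j) ∧ X (U^[m] j) ≤ c) ∧ c < X (U^[l + 1] j) := by
  by_contra hn
  push Not at hn
  have key : ∀ l : ℕ, ∀ m ≤ l, G (U^[m] j) ∧ X j + m * δ ≤ X (U^[m] j) ∧ X (U^[m] j) ≤ c := by
    intro l
    induction l with
    | zero =>
      intro m hm
      obtain rfl : m = 0 := by omega
      simpa using ⟨hj, h0⟩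
    | succ l ih =>
      intro m hm
      rcases Nat.lt_or_ge l m with h | h
      · obtain rfl : m = l + 1 := by omega
        have h1 := hn l fun m hm => ⟨(ih m hm).1, by
          have : 0 ≤ (m : ℝ) * δ := by positivity
          linarith only [this, hm, (ih m hm).2.1], (ih m hm).2.2⟩
        obtain ⟨k1, k2, k3⟩ := ih l le_rfl
        obtain ⟨k4, k5⟩ := hU _ k1 (k3.trans hc)
        rw [Function.iterate_succ_apply'] at h1 ⊢
        refine ⟨k4, ?_, h1⟩
        push_cast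
        linarith only [k2, k5]
      · exact ih m h
  obtain ⟨l, hl⟩ := exists_nat_gt ((c - X j) / δ)
  rw [div_lt_iff₀ hδ] at hl
  obtain ⟨-, k2, k3⟩ := key l l le_rfl
  linarith

theorem cch_T {ε : ℝ} {I : Type} (S : Sys f g ε I) {τ : ℝ} (hτ : τ = 1 ∨ τ = -1)
    {s φ : ℝ} (hs : Sm f ε s φ) {j : I} (hj : S.InB s j) (ht : S.t1 j = τ)
    (h1 : ∀ x', (x', oy τ S.K (S.x j)) ∈ S.K → x' ≤ S.x j)
    (h2 : s ≤ ell g τ S.K (S.x j)) (h3 : ell g τ S.K (S.x j) ≤ S.x j)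
    (h4 : sy τ S.K (ell g τ S.K (S.x j)) = oy τ S.K (S.x j))
    (h5 : min (1 / 2) (f (S.x j)) ≤ oy τ S.K (S.x j) ∧
      oy τ S.K (S.x j) ≤ 1 - min (1 / 2) (f (S.x j))) :
    S.x (S.T j) = ell g τ S.K (S.x j) ∧ S.t1 (S.T j) = τ := by
  have hε := hs.εpos
  have hεs : ε < s := by linarith only [hε, hs.le16]
  have hne : (-1 : ℝ) ≠ 1 := by norm_num
  have g1 := (S.g1_of hε hεs hj).1
  have hy : S.yO j = oy τ S.K (S.x j) := by
    rcases hτ with h | h
    · rw [oy, if_pos h]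
      exact (g1.topbot.1 (ht.trans h)).2
    · rw [oy, if_neg (h ▸ hne)]
      exact (g1.topbot.2 (ht.trans h)).2
  have hm : 2 * ε < min (1 / 2) (f (S.x j)) := by
    refine lt_min (by linarith only [hε, hs.le16, hs.s4]) ?_
    nlinarith only [hε, hεs, hs.low _ hj, hs.leφ, hs.s4, hs.φpos]
  have g2 : S.G2 j := S.g2_of (by linarith [h5.1]) (by linarith only [h5, hy, hm, h5.2])
  have hx : S.x (S.T j) = ell g τ S.K (S.x j) := by
    have e := g2.x_eq
    rcases g2.1.ht with h | h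
    · rw [e, h, one_mul, hy, ell]
    · exfalso
      have k1 : (S.x (S.T j), oy τ S.K (S.x j)) ∈ S.K := by
        rw [← hy, ← S.yP_T]
        exact (S.memP (S.T j)).1
      have k2 := h1 _ k1
      have k3 : 0 < g (S.yO j) := g2.1.hlen
      rw [e, h] at k2
      linarith
  refine ⟨hx, ?_⟩
  have hT : S.InB s (S.T j) := ⟨hx ▸ h2, by linarith [hj.2]⟩
  have g3 := (S.g1_of hε hεs hT).1
  have k1 : S.yP (S.T j) = sy τ S.K (S.x (S.T j)) := by rw [S.yP_T, hy, hx, h4]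
  have k2 := S.hK.top_eq (S.x_mem (S.T j))
  have k3 : 0 < f (S.x (S.T j)) := hs.φpos.trans_le (hs.low _ hT)
  rcases hτ with h | h <;> rcases g3.1.ht with h' | h'
  · rw [h, h']
  · rw [sy, if_pos h, (g3.topbot.2 h').1] at k1
    linarith only [k1, k2, k3]
  · rw [sy, if_neg (h ▸ hne), (g3.topbot.1 h').1] at k1
    linarith only [k1, k2, k3]
  · rw [h, h']

theorem cch_U {ε : ℝ} {I : Type} (S : Sys f g ε I) {τ : ℝ} (hτ : τ = 1 ∨ τ = -1)
    {s φ : ℝ} (hs : Sm f ε s φ) {a b : ℝ} (hm : MonotoneOn (fun x => τ * sy τ S.K x) (Icc a b)) :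
    ∃ U : I → I, Function.Commute U S.T ∧
      (∀ j, S.InB s j → S.t1 j = τ → S.t1 (U j) = τ ∧ S.x j + ε * φ / 2 ≤ S.x (U j) ∧
        S.x (U j) ≤ S.x j + ε ∧
        (a ≤ S.x j → S.x (U j) ≤ b → Step f τ ε (S.x j) (S.x (U j)))) ∧
      ∀ i j, S.InB s i → S.InB s j → S.t1 i = τ → S.t1 j = τ → S.x i ≤ S.x j →
        S.x (U i) ≤ S.x (U j) := by
  have hε := hs.εpos
  have hs4 : 4 * ε ≤ s := by linarith [hs.le16]
  have hs0 : 0 < s := by linarith
  have hne : (-1 : ℝ) ≠ 1 := by norm_num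
  have hφ : 2 * ε / s ≤ φ / 2 := by
    rw [div_le_iff₀ hs0]
    linarith [hs.leφ]
  have hφ0 := hs.φpos
  have hmono : ∀ U : I → I, (∀ i j, S.InB s i → S.InB s j → S.t1 i = S.t1 j → S.x i < S.x j →
      S.x (U i) < S.x (U j)) → ∀ i j, S.InB s i → S.InB s j → S.t1 i = τ → S.t1 j = τ →
        S.x i ≤ S.x j → S.x (U i) ≤ S.x (U j) := by
    intro U hU i j hi hj ti tj hx
    rcases hx.eq_or_lt with e | e
    · rw [S.eq_of_x (S.step hε hs4 hi).g1 (S.step hε hs4 hj).g1 (ti.trans tj.symm) e]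
    · exact (hU i j hi hj (ti.trans tj.symm) e).le
  rcases hτ with rfl | rfl
  · refine ⟨S.R, S.comm, fun j hj ht => ?_, hmono _ fun i j => S.Rmono hε hs4⟩
    have st := S.step hε hs4 hj
    have e1 := st.xR
    rw [ht, one_mul] at e1
    have e2 : φ / 2 ≤ S.h3 j := by linarith only [hφ, (abs_le.1 st.hR).1, hs.low _ hj]
    have e3 : S.x j + ε * φ / 2 ≤ S.x (S.R j) := by nlinarith only [e1, hε, e2]
    have e4 : S.x (S.R j) ≤ S.x j + ε := by nlinarith only [e1, hε, st.h3le]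
    have e5 : S.x j < S.x (S.R j) := by nlinarith only [e3, hε, hφ0, st.h3pos]
    refine ⟨st.tR.trans ht, e3, e4, fun ha hb => ⟨e5, by linarith, fun _ => ?_,
      fun h => absurd h.symm hne, fun s' k1 k2 k3 => ?_⟩⟩
    · have k1 := hm ⟨ha, by linarith⟩ ⟨by linarith, hb⟩ e5.le
      simp only [sy, if_true, one_mul] at k1
      have k2 := S.x_R j
      rw [(st.g1R.topbot.1 (st.tR.trans ht)).1, (st.g1.topbot.1 ht).2] at k2
      have k3 := S.hK.top_eq (S.x_mem j)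
      nlinarith only [k2, hε, k1, k3]
    · have e6 : (S.x (S.R j) - S.x j) / ε = S.h3 j := by
        rw [e1]
        field_simp
        ring
      rw [e6]
      exact (S.step hε k1 ⟨k2, by linarith⟩).hR
  · refine ⟨S.R.symm, fun j => ?_, fun j hj ht => ?_, hmono _ fun i j => S.Rmono_symm hε hs4⟩
    · rw [Equiv.symm_apply_eq, S.comm, Equiv.apply_symm_apply]
    have st := S.step hε hs4 hj
    have e1 : S.x (S.R.symm j) = S.x j + ε * S.h j := by
      have := st.xL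
      rw [ht] at this
      linarith
    have e2 : φ / 2 ≤ S.h j := by linarith [(abs_le.1 st.hL).1, hs.low _ hj]
    have e3 : S.x j + ε * φ / 2 ≤ S.x (S.R.symm j) := by nlinarith only [e1, hε, e2]
    have e4 : S.x (S.R.symm j) ≤ S.x j + ε := by nlinarith only [e1, hε, st.hle]
    have e5 : S.x j < S.x (S.R.symm j) := by nlinarith only [e3, hε, hφ0, st.hpos]
    refine ⟨st.tL.trans ht, e3, e4, fun ha hb => ⟨e5, by linarith, fun h => absurd h hne,
      fun _ => ?_, fun s' k1 k2 k3 => ?_⟩⟩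
    · have k1 := hm ⟨ha, by linarith⟩ ⟨by linarith, hb⟩ e5.le
      simp only [sy, if_neg hne] at k1
      have k2 := S.x_R (S.R.symm j)
      rw [Equiv.apply_symm_apply, (st.g1L.topbot.2 (st.tL.trans ht)).2,
        (st.g1.topbot.2 ht).1] at k2
      have k3 := S.hK.top_eq (S.x_mem (S.R.symm j))
      nlinarith only [k2, hε, k1, k3]
    · have e6 : (S.x (S.R.symm j) - S.x j) / ε = S.h j := by
        rw [e1]
        field_simp
        ring
      rw [e6]
      exact (S.step hε k1 ⟨k2, by linarith⟩).hL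

theorem corner_chain (hf : Half f) (hg : Half g) {τ : ℝ} (hτ : τ = 1 ∨ τ = -1) {s0 sa s2 : ℝ}
    (hs0 : s0 ≤ 1 / 4) (hsa : 2 * sa ≤ s0) (hs2 : 0 < s2) (hs2a : s2 ≤ sa) :
    ∀ᶠ ε in 𝓝[>] (0:ℝ), ∀ (I : Type) (S : Sys f g ε I),
      MonotoneOn (fun x => τ * sy τ S.K x) (Icc (1 - s0) (1 - s2 / 2)) →
      (∀ x ∈ Ico (1 - s0) (1:ℝ), (∀ x', (x', oy τ S.K x) ∈ S.K → x' ≤ x) ∧ ell g τ S.K x ≤ x ∧
        (1 - s0 ≤ ell g τ S.K x → sy τ S.K (ell g τ S.K x) = oy τ S.K x)) →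
      (∀ x ∈ Icc (1 - s0) (1 - s2 / 2), ∀ x' ∈ Icc (1 - s0) (1 - s2 / 2), x ≤ x' →
        1 - s0 ≤ ell g τ S.K x → 1 - s0 ≤ ell g τ S.K x' → ell g τ S.K x ≤ ell g τ S.K x') →
      (∀ x ∈ Ico (1 - s0) (1:ℝ),
        min (1 / 2) (f x) ≤ oy τ S.K x ∧ oy τ S.K x ≤ 1 - min (1 / 2) (f x)) →
      (∀ x ∈ Icc (1 - 2 * sa) (1:ℝ), 1 - s0 ≤ ell g τ S.K x) →
      ∃ n : ℕ, ∀ x ∈ Icc (1 - sa) (1 - s2), Chain f τ ε n x (ell g τ S.K x) := by
  obtain ⟨φ, hφ⟩ := hf.ev_sm (s := s2 / 4) (by positivity) (by linarith only [hs0, hsa, hs2, hs2a])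
  filter_upwards [hφ] with ε hs I S hm h1 h2 h3 h4
  have hε := hs.εpos
  have h16 := hs.le16
  obtain ⟨U, hc, hU, hmono⟩ := cch_U S hτ hs hm
  have hT : ∀ j, S.t1 j = τ → 1 - 2 * sa ≤ S.x j → S.x j ≤ 1 - s2 / 2 →
      S.x (S.T j) = ell g τ S.K (S.x j) ∧ S.t1 (S.T j) = τ := by
    intro j ht k1 k2
    have k3 : S.x j ∈ Ico (1 - s0) (1:ℝ) := ⟨by linarith only [hsa, k1], by linarith only [hε, h16, k2]⟩
    have k4 := h4 (S.x j) ⟨k1, by linarith only [hε, h16, k2]⟩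
    exact cch_T S hτ hs ⟨by linarith only [hs0, hsa, hs2a, hε, h16, k1], by linarith⟩ ht (h1 _ k3).1 (by linarith only [hs0, hsa, hs2a, hε, h16, k4]) (h1 _ k3).2.1
      ((h1 _ k3).2.2 k4) (h3 _ k3)
  have hG : ∀ j, (S.t1 j = τ ∧ 1 - s0 ≤ S.x j) → S.x j ≤ 1 - s2 / 4 →
      (S.t1 (U j) = τ ∧ 1 - s0 ≤ S.x (U j)) ∧ S.x j + ε * φ / 2 ≤ S.x (U j) := by
    intro j hj k
    obtain ⟨k1, k2, -⟩ := hU j ⟨by linarith [hj.2], k⟩ hj.1
    have : 0 < ε * φ / 2 := by have := hs.φpos; positivity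
    exact ⟨⟨k1, by linarith [hj.2]⟩, k2⟩
  have hδ : 0 < ε * φ / 2 := by have := hs.φpos; positivity
  obtain ⟨j0, t0, x0⟩ := S.exists_window hs hτ (x0 := 1 - sa - ε) (by linarith only [hs0, hsa, hs2a, hε, h16]) (by linarith only [hs2a, hε, h16])
  obtain ⟨x0, x0'⟩ := x0
  obtain ⟨e0, t0'⟩ := hT j0 t0 (by linarith) (by linarith)
  obtain ⟨k, hk1, hk2⟩ := cch_first hδ hG (c := S.x j0) (by linarith) (j := S.T j0)
    ⟨t0', e0 ▸ h4 _ ⟨by linarith, by linarith⟩⟩ (e0 ▸ (h1 _ ⟨by linarith, by linarith⟩).2.1)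
  refine ⟨k + 1, fun x hx => ⟨by omega, ?_⟩⟩
  obtain ⟨hx1, hx2⟩ := hx
  obtain ⟨l, hl1, hl2⟩ := cch_first hδ hG (c := x) (by linarith) (j := j0)
    ⟨t0, by linarith⟩ (by linarith)
  have hB : ∀ j, 1 - s0 ≤ S.x j → S.x j ≤ x + ε → S.InB (s2 / 4) j := fun j a b =>
    ⟨by linarith, by linarith⟩
  have key : ∀ m ≤ l, (S.t1 (U^[m + k] (S.T j0)) = τ ∧ 1 - s0 ≤ S.x (U^[m + k] (S.T j0))) ∧
      S.x (U^[m + k] (S.T j0)) ≤ S.x (U^[m] j0) ∧
      S.x (U^[m] j0) ≤ S.x (U (U^[m + k] (S.T j0))) := by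
    intro m hm
    induction m with
    | zero =>
      rw [Function.iterate_succ_apply'] at hk2
      rw [zero_add]
      exact ⟨(hk1 k le_rfl).1, (hk1 k le_rfl).2.2, hk2.le⟩
    | succ m ih =>
      obtain ⟨a1, a2, a3⟩ := ih (by omega)
      obtain ⟨b1, b2, b3⟩ := hl1 m (by omega)
      have c1 := hB _ a1.2 (by linarith only [hε, a2, b3])
      obtain ⟨c2, c3, c4, -⟩ := hU _ c1 a1.1
      have c5 := hB _ b1.2 (by linarith)
      rw [Nat.succ_add, Function.iterate_succ_apply', Function.iterate_succ_apply']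
      exact ⟨⟨c2, by linarith [a1.2]⟩, hmono _ _ c1 c5 a1.1 b1.1 a2,
        hmono _ _ c5 (hB _ (by linarith [a1.2]) (by linarith only [a2, b3, c4])) b1.1 c2 a3⟩
  have z0 : ∀ m ≤ l + k, (S.t1 (U^[m] (S.T j0)) = τ ∧ 1 - s0 ≤ S.x (U^[m] (S.T j0))) ∧
      S.x (U^[m] (S.T j0)) ≤ x := by
    intro m hm
    rcases le_total m k with h | h
    · exact ⟨(hk1 m h).1, by linarith [(hk1 m h).2.2]⟩
    · obtain ⟨m, rfl⟩ := Nat.exists_eq_add_of_le' h
      exact ⟨(key m (by omega)).1, (key m (by omega)).2.1.trans (hl1 m (by omega)).2.2⟩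
  have z1 : ∀ m ≤ l + k + 1, (S.t1 (U^[m] (S.T j0)) = τ ∧ 1 - s0 ≤ S.x (U^[m] (S.T j0))) ∧
      S.x (U^[m] (S.T j0)) ≤ x + ε := by
    intro m hm
    rcases Nat.lt_or_ge (l + k) m with h | h
    · obtain rfl : m = l + k + 1 := by omega
      obtain ⟨a1, a2⟩ := z0 _ le_rfl
      obtain ⟨c2, c3, c4, -⟩ := hU _ (hB _ a1.2 (by linarith only [hε, a2])) a1.1
      rw [Function.iterate_succ_apply']
      exact ⟨⟨c2, by linarith only [hδ, a1, c3, a1.2]⟩, by linarith only [a2, c4]⟩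
    · exact ⟨(z0 m h).1, by linarith [(z0 m h).2]⟩
  obtain ⟨b1, b2, b3⟩ := hl1 l le_rfl
  have c5 := hB _ b1.2 (by linarith)
  obtain ⟨d1, d2, d3, -⟩ := hU _ c5 b1.1
  rw [Function.iterate_succ_apply'] at hl2
  obtain ⟨a1, a2⟩ := z1 _ le_rfl
  have c6 := hB _ a1.2 a2
  refine ⟨fun m => S.x (U^[l + m] (S.T j0)), fun m hm => ?_, ?_, ?_, ?_, ?_, ?_⟩
  · obtain ⟨a1, a2⟩ := z1 (l + m) (by omega)
    obtain ⟨c2, c3, c4, c5⟩ := hU _ (hB _ a1.2 a2) a1.1
    simp only [← add_assoc, Function.iterate_succ_apply']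
    exact c5 a1.2 (by linarith only [hε, h16, hx2, a2, c4])
  · simp only [add_zero]
    rw [hc.iterate_left l j0, (hT _ b1.1 (by linarith) (by linarith)).1]
    exact h2 _ ⟨b1.2, by linarith only [hε, h16, hx2, b3]⟩ _ ⟨by linarith, by linarith⟩ b3
      (h4 _ ⟨by linarith, by linarith⟩) (h4 _ ⟨by linarith, by linarith⟩)
  · beta_reduce
    rw [hc.iterate_left (l + 1) j0, Function.iterate_succ_apply',
      (hT _ d1 (by linarith) (by linarith)).1]
    exact h2 _ ⟨by linarith, by linarith⟩ _ ⟨by linarith, by linarith only [hε, h16, hx2, b3, d3]⟩ hl2.le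
      (h4 _ ⟨by linarith, by linarith⟩) (h4 _ ⟨by linarith, by linarith⟩)
  · exact (z0 (l + k) le_rfl).2
  · refine hl2.le.trans ?_
    have e := (key l le_rfl).2.2
    rw [← Function.iterate_succ_apply' U] at e
    simp only [← add_assoc]
    rw [Function.iterate_succ_apply']
    exact hmono _ _ c5 c6 b1.1 a1.1 e
  · simp only [← add_assoc]
    rw [Function.iterate_succ_apply']
    linarith [(hU _ c6 a1.1).2.2.1]

end XR
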