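import Pool.Agent.P.MP_408b1f_gt.Defs

/-! Supergradients of concave functions on the unit interval (one variable analysis).
countable_nonreg: a concave function is differentiable off a countable set (left and right
derivatives are monotone and interlaced; ConvexOn.monotoneOn_rightDeriv and friends, a monotone
function has countably many discontinuities, or disjoint intervals between left and right
derivative), plus the points 0, 1 and the unique maximum point. -/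

open Set MeasureTheory Filter Topology

noncomputable section

namespace XR

variable {f : ℝ → ℝ}

theorem sg_abs_le (h0 : ∀ x ∈ Icc (0:ℝ) 1, 0 ≤ f x) (h1 : ∀ x ∈ Icc (0:ℝ) 1, f x ≤ 1)
    {s x m : ℝ} (hs : 0 < s) (hx : x ∈ Icc s (1 - s)) (hm : SG f x m) : |m| ≤ 1 / s := by
  have hx0 : x ∈ Icc (0:ℝ) 1 := ⟨by linarith [hx.1], by linarith [hx.2]⟩
  have a0 := hm 0 ⟨le_rfl, zero_le_one⟩
  have a1 := hm 1 ⟨zero_le_one, le_rfl⟩
  have b0 := h0 0 ⟨le_rfl, zero_le_one⟩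
  have b1 := h0 1 ⟨zero_le_one, le_rfl⟩
  have b2 := h1 x hx0
  rw [le_div_iff₀ hs]
  rcases le_total 0 m with h | h
  · rw [abs_of_nonneg h]; nlinarith [mul_le_mul_of_nonneg_left hx.1 h]
  · rw [abs_of_nonpos h]; nlinarith [mul_le_mul_of_nonpos_left hx.2 h]

theorem sg_exists (hc : ConcaveOn ℝ (Icc 0 1) f) {x : ℝ} (hx : x ∈ Ioo (0:ℝ) 1) :
    ∃ m, SG f x m := by
  have key : ∀ z ∈ Icc (0:ℝ) 1, z < x → ∀ t ∈ (fun y => (f y - f x) / (y - x)) '' Ioc x 1,
      t ≤ (f x - f z) / (x - z) := by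
    rintro z hz hzx _ ⟨y, hy, rfl⟩
    exact hc.slope_anti_adjacent hz ⟨hx.1.le.trans hy.1.le, hy.2⟩ hzx hy.1
  have hne : ((fun y => (f y - f x) / (y - x)) '' Ioc x 1).Nonempty :=
    ⟨_, 1, ⟨hx.2, le_rfl⟩, rfl⟩
  refine ⟨sSup ((fun y => (f y - f x) / (y - x)) '' Ioc x 1), fun y hy => ?_⟩
  rcases lt_trichotomy y x with h | h | h
  · have := csSup_le hne (key y hy h)
    rw [le_div_iff₀ (sub_pos.2 h)] at this
    linarith
  · rw [h]; simp
  · have := le_csSup ⟨_, key 0 ⟨le_rfl, zero_le_one⟩ hx.1⟩ ⟨y, ⟨h, hy.2⟩, rfl⟩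
    rw [div_le_iff₀ (sub_pos.2 h)] at this
    linarith

theorem sg_eq_deriv {x m : ℝ} (hx : x ∈ Ioo (0:ℝ) 1) (hd : DifferentiableAt ℝ f x)
    (hm : SG f x m) : m = deriv f x := by
  have h1 : IsLocalMax (fun y => f y - m * y) x := by
    filter_upwards [Icc_mem_nhds hx.1 hx.2] with y hy
    have := hm y hy
    linarith
  have h2 : HasDerivAt (fun y => f y - m * y) (deriv f x - m * 1) x :=
    hd.hasDerivAt.sub ((hasDerivAt_id x).const_mul m)
  have := h1.hasDerivAt_eq_zero h2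
  linarith

theorem sg_anti {x x' m m' : ℝ} (hx : x ∈ Icc (0:ℝ) 1) (hx' : x' ∈ Icc (0:ℝ) 1) (h : x < x')
    (hm : SG f x m) (hm' : SG f x' m') : m' ≤ m := by
  have a := hm x' hx'
  have b := hm' x hx
  refine le_of_mul_le_mul_right ?_ (sub_pos.2 h)
  linarith

theorem SG.neg {x m : ℝ} (hm : SG f x m) : SG (negF f) (1 - x) (-m) := by
  intro y hy
  have := hm (1 - y) ⟨by linarith [hy.2], by linarith [hy.1]⟩
  simp only [negF, sub_sub_cancel]
  linarith

theorem sga_mem {x : ℝ} (hx : x ∈ Icc (0:ℝ) 1) : 1 - x ∈ Icc (0:ℝ) 1 :=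
  ⟨by linarith [hx.2], by linarith [hx.1]⟩

theorem sga_negneg : negF (negF f) = f := by
  funext x; simp only [negF, sub_sub_cancel]

theorem sga_max {x : ℝ} (h : IsMaxOn (negF f) (Icc 0 1) x) : IsMaxOn f (Icc 0 1) (1 - x) := by
  intro y hy
  have : negF f (1 - y) ≤ negF f x := h (sga_mem hy)
  change f y ≤ f (1 - x)
  simpa only [negF, sub_sub_cancel] using this

theorem Half.neg (h : Half f) : Half (negF f) := by
  refine ⟨⟨convex_Icc 0 1, fun x hx y hy a b ha hb hab => ?_⟩, ?_, fun x hx => ?_, ?_, ?_,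
    fun x hx => h.le1 _ (sga_mem hx), fun x hx x' hx' m m' => ?_, fun l => ?_, fun l => ?_⟩
  · have := h.conc.2 (sga_mem hx) (sga_mem hy) ha hb hab
    simp only [smul_eq_mul, negF] at this ⊢
    rwa [show 1 - (a * x + b * y) = a * (1 - x) + b * (1 - y) by linear_combination -hab]
  · exact h.cont.comp (by fun_prop) fun x hx => sga_mem hx
  · exact h.pos _ ⟨by linarith [hx.2], by linarith [hx.1]⟩
  · simp only [negF, sub_zero, h.zero1]
  · simp only [negF, sub_self, h.zero0]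
  · have := h.uniq _ (sga_mem hx) _ (sga_mem hx') (sga_max m) (sga_max m')
    linarith
  · obtain ⟨s, hs, H⟩ := h.steep1 l
    refine ⟨s, hs, fun x hx hx1 m hm => ?_⟩
    have := H (1 - x) ⟨by linarith [hx.2], by linarith [hx.1]⟩ (by linarith) (-m)
      (by simpa only [sga_negneg] using hm.neg)
    linarith
  · obtain ⟨s, hs, H⟩ := h.steep0 l
    refine ⟨s, hs, fun x hx hx0 m hm => ?_⟩
    have := H (1 - x) ⟨by linarith [hx.2], by linarith [hx.1]⟩ (by linarith) (-m)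
      (by simpa only [sga_negneg] using hm.neg)
    linarith

theorem Half.nonneg (h : Half f) : ∀ x ∈ Icc (0:ℝ) 1, 0 ≤ f x := by
  intro x hx
  rcases hx.1.eq_or_lt with h0 | h0
  · rw [← h0, h.zero0]
  rcases hx.2.eq_or_lt with h1 | h1
  · rw [h1, h.zero1]
  exact (h.pos x ⟨h0, h1⟩).le

theorem Half.lower (h : Half f) {s : ℝ} (hs : 0 < s) :
    ∃ φ > 0, ∀ x ∈ Icc s (1 - s), φ ≤ f x := by
  rcases (Icc s (1 - s)).eq_empty_or_nonempty with he | hne
  · exact ⟨1, one_pos, fun x hx => by rw [he] at hx; exact hx.elim⟩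
  obtain ⟨y, hy, hmin⟩ := isCompact_Icc.exists_isMinOn hne
    (h.cont.mono (Icc_subset_Icc hs.le (by linarith)))
  exact ⟨f y, h.pos y ⟨by linarith [hy.1], by linarith [hy.2]⟩, fun x hx => hmin hx⟩

theorem Half.small (h : Half f) {δ : ℝ} (hδ : 0 < δ) :
    ∃ s > 0, ∀ x ∈ Icc (0:ℝ) 1, (x ≤ s ∨ 1 - s ≤ x) → f x ≤ δ := by
  obtain ⟨a, ha, Ha⟩ := Metric.continuousWithinAt_iff.1 (h.cont 0 ⟨le_rfl, zero_le_one⟩) δ hδ
  obtain ⟨b, hb, Hb⟩ := Metric.continuousWithinAt_iff.1 (h.cont 1 ⟨zero_le_one, le_rfl⟩) δ hδ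
  have hm : 0 < min a b := lt_min ha hb
  have h1 := min_le_left a b
  have h2 := min_le_right a b
  refine ⟨min a b / 2, by linarith, fun x hx hor => ?_⟩
  rcases hor with h3 | h3
  · have := Ha hx (by rw [Real.dist_eq, sub_zero, abs_of_nonneg hx.1]; linarith)
    rw [h.zero0, Real.dist_eq, sub_zero] at this
    exact (le_abs_self _).trans this.le
  · have := Hb hx (by rw [Real.dist_eq, abs_of_nonpos (by linarith [hx.2])]; linarith)
    rw [h.zero1, Real.dist_eq, sub_zero] at this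
    exact (le_abs_self _).trans this.le

theorem Half.lip (h : Half f) {s x x' : ℝ} (hs : 0 < s) (hx : x ∈ Icc s (1 - s))
    (hx' : x' ∈ Icc s (1 - s)) : |f x - f x'| ≤ |x - x'| / s := by
  have key : ∀ x ∈ Icc s (1 - s), ∀ x' ∈ Icc s (1 - s), f x' - f x ≤ |x' - x| / s := by
    intro x hx x' hx'
    obtain ⟨m, hm⟩ := sg_exists h.conc (x := x) ⟨by linarith [hx.1], by linarith [hx.2]⟩
    have h1 := sg_abs_le h.nonneg h.le1 hs hx hm
    have h2 := hm x' ⟨by linarith [hx'.1], by linarith [hx'.2]⟩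
    have h3 : m * (x' - x) ≤ |m| * |x' - x| := by rw [← abs_mul]; exact le_abs_self _
    have h4 := mul_le_mul_of_nonneg_right h1 (abs_nonneg (x' - x))
    rw [one_div_mul_eq_div] at h4
    linarith
  have h1 := key x hx x' hx'
  rw [abs_sub_comm x' x] at h1
  exact abs_le.2 ⟨by linarith, key x' hx' x hx⟩

theorem Half.exists_max (h : Half f) : ∃ y ∈ Ioo (0:ℝ) 1, IsMaxOn f (Icc 0 1) y := by
  obtain ⟨y, hy, hmax⟩ := isCompact_Icc.exists_isMaxOn (nonempty_Icc.2 zero_le_one) h.cont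
  have h1 : f (1 / 2) ≤ f y := hmax (a := 1 / 2) ⟨by norm_num, by norm_num⟩
  have h2 := h.pos (1 / 2) ⟨by norm_num, by norm_num⟩
  refine ⟨y, ⟨lt_of_le_of_ne hy.1 ?_, lt_of_le_of_ne hy.2 ?_⟩, hmax⟩
  · rintro rfl
    linarith [h.zero0]
  · rintro rfl
    linarith [h.zero1]

/-- away from the unique maximum point supergradients are bounded below and have the right sign -/
theorem Half.sg_lower (h : Half f) {ys : ℝ} (hI : ys ∈ Icc (0:ℝ) 1)
    (hmax : IsMaxOn f (Icc 0 1) ys) {δ : ℝ} (hδ : 0 < δ) :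
    ∃ z > 0, ∀ y ∈ Icc (0:ℝ) 1, δ ≤ |y - ys| → ∀ m, SG f y m → z ≤ |m| ∧ 0 < m * (ys - y) := by
  rcases (Icc (0:ℝ) 1 ∩ {y | δ ≤ |y - ys|}).eq_empty_or_nonempty with he | hne
  · refine ⟨1, one_pos, fun y hy hd => ?_⟩
    have : y ∈ Icc (0:ℝ) 1 ∩ {y | δ ≤ |y - ys|} := ⟨hy, hd⟩
    rw [he] at this
    exact this.elim
  have hcl : IsClosed {y : ℝ | δ ≤ |y - ys|} := isClosed_le continuous_const (by fun_prop)
  obtain ⟨y0, hy0, hm0⟩ := (isCompact_Icc.inter_right hcl).exists_isMaxOn hne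
    (h.cont.mono inter_subset_left)
  have hlt : f y0 < f ys := by
    refine lt_of_not_ge fun hge => ?_
    have e := h.uniq y0 hy0.1 ys hI (fun y hy => le_trans (hmax hy) hge) hmax
    have : δ ≤ |y0 - ys| := hy0.2
    rw [e, sub_self, abs_zero] at this
    linarith
  refine ⟨f ys - f y0, by linarith, fun y hy hd m hm => ?_⟩
  have h1 : f y ≤ f y0 := hm0 (a := y) ⟨hy, hd⟩
  have h2 := hm ys hI
  have h3 : m * (ys - y) ≤ |m| * |ys - y| := by rw [← abs_mul]; exact le_abs_self _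
  have h4 : |ys - y| ≤ 1 := abs_le.2 ⟨by linarith [hI.1, hy.2], by linarith [hI.2, hy.1]⟩
  have h5 := mul_le_mul_of_nonneg_left h4 (abs_nonneg m)
  exact ⟨by linarith, by linarith⟩

theorem sga_countable {g : ℝ → ℝ} (hg : ConvexOn ℝ (Icc 0 1) g) :
    {x ∈ Ioo (0:ℝ) 1 | ¬ DifferentiableAt ℝ g x}.Countable := by
  have hi : ∀ x ∈ Ioo (0:ℝ) 1, x ∈ interior (Icc (0:ℝ) 1) := fun x hx => by
    rwa [interior_Icc]
  have key : ∀ x ∈ Ioo (0:ℝ) 1, ∀ y ∈ Ioo (0:ℝ) 1, x < y →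
      Disjoint (Ioo (derivWithin g (Iio x) x) (derivWithin g (Ioi x) x))
        (Ioo (derivWithin g (Iio y) y) (derivWithin g (Ioi y) y)) := by
    intro x hx y hy hxy
    have h1 := hg.rightDeriv_le_slope_of_mem_interior (hi x hx) (Ioo_subset_Icc_self hy) hxy
    have h2 := hg.slope_le_leftDeriv_of_mem_interior (Ioo_subset_Icc_self hx) (hi y hy) hxy
    exact Set.disjoint_left.2 fun t ht ht' => by linarith [ht.2, ht'.1]
  refine Set.PairwiseDisjoint.countable_of_isOpen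
    (s := fun x => Ioo (derivWithin g (Iio x) x) (derivWithin g (Ioi x) x)) ?_
    (fun _ _ => isOpen_Ioo) ?_
  · intro x hx y hy hxy
    rcases lt_or_gt_of_ne hxy with h | h
    · exact key x hx.1 y hy.1 h
    · exact (key y hy.1 x hx.1 h).symm
  · intro x hx
    refine nonempty_Ioo.2 (lt_of_le_of_ne
      (hg.leftDeriv_le_rightDeriv_of_mem_interior (hi x hx.1)) fun e => hx.2 ?_)
    have h1 := (hg.hasDerivWithinAt_leftDeriv_of_mem_interior (hi x hx.1)).Iic_of_Iio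
    have h2 := hg.hasDerivWithinAt_rightDeriv_of_mem_interior (hi x hx.1)
    rw [e] at h1
    have h3 := h1.union h2
    rw [Iic_union_Ioi, hasDerivWithinAt_univ] at h3
    exact h3.differentiableAt

theorem Half.countable_nonreg (h : Half f) : {x ∈ Icc (0:ℝ) 1 | ¬ Reg f x}.Countable := by
  obtain ⟨y, hy, hmax⟩ := h.exists_max
  refine ((sga_countable h.conc.neg).union (Set.toFinite {0, 1, y}).countable).mono ?_
  rintro x ⟨hx, hr⟩
  by_contra hn
  simp only [mem_union, mem_setOf_eq, mem_insert_iff, mem_singleton_iff, not_or, not_and,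
    not_not] at hn
  obtain ⟨h1, h2, h3, h4⟩ := hn
  have hx' : x ∈ Ioo (0:ℝ) 1 := ⟨lt_of_le_of_ne hx.1 (Ne.symm h2), lt_of_le_of_ne hx.2 h3⟩
  refine hr ⟨hx'.1, hx'.2, ?_, fun hm => h4 (h.uniq x hx y (Ioo_subset_Icc_self hy) hm hmax)⟩
  simpa using h1 hx' 

theorem Reg.neg {x : ℝ} (h : Reg f x) : Reg (negF f) (1 - x) := by
  obtain ⟨h0, h1, h2, h3⟩ := h
  refine ⟨by linarith, by linarith, ?_, fun hm => h3 ?_⟩
  · have h4 : DifferentiableAt ℝ f (1 - (1 - x)) := by rwa [sub_sub_cancel]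
    exact h4.comp (1 - x) (f := fun y : ℝ => 1 - y) (by fun_prop)
  · simpa only [sub_sub_cancel] using sga_max hm

theorem sga_gap {c f1 f2 m1 m2 l z : ℝ} (hc : 0 < c) (p1 : 0 < f1) (p2 : 0 < f2) (q1 : f1 ≤ 1)
    (q2 : f2 ≤ 1) (hm : c ≤ m1) (hm' : m2 ≤ m1) (h : 0 < m2 → f1 + m2 * c ≤ f2)
    (hl : |l - 1| ≤ z) (z1 : z ≤ 1 / 2) (z2 : z ≤ c / 4) (z3 : z ≤ c ^ 4 / 8)
    (z4 : z ≤ c ^ 5 / 8) : z ≤ m1 / f1 ^ 2 - l * (m2 / f2 ^ 2) := by
  obtain ⟨l1, l2⟩ := abs_le.1 hl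
  have s1 : 0 < f1 ^ 2 := by positivity
  have s2 : 0 < f2 ^ 2 := by positivity
  have t1 : f1 ^ 2 ≤ 1 := pow_le_one₀ p1.le q1
  have t2 : f2 ^ 2 ≤ 1 := pow_le_one₀ p2.le q2
  obtain ⟨T, hT⟩ : ∃ T, T = m1 / f1 ^ 2 := ⟨_, rfl⟩
  obtain ⟨U, hU⟩ : ∃ U, U = m2 / f2 ^ 2 := ⟨_, rfl⟩
  rw [← hT, ← hU]
  have eT : T * f1 ^ 2 = m1 := by rw [hT, div_mul_cancel₀ _ s1.ne']
  have eU : U * f2 ^ 2 = m2 := by rw [hU, div_mul_cancel₀ _ s2.ne']
  have hT0 : 0 ≤ T := by rw [hT]; exact div_nonneg (by linarith) s1.le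
  have hTc : c ≤ T := by linarith [mul_le_mul_of_nonneg_left t1 hT0]
  rcases le_or_gt m2 0 with h0 | h0
  · have : U ≤ 0 := by rw [hU]; exact div_nonpos_of_nonpos_of_nonneg h0 s2.le
    have := mul_nonpos_of_nonneg_of_nonpos (by linarith : 0 ≤ l) this
    linarith
  have h1 := h h0
  have hU0 : 0 ≤ U := by rw [hU]; exact div_nonneg h0.le s2.le
  have hlU : l * U ≤ (1 + z) * U := mul_le_mul_of_nonneg_right (by linarith) hU0
  have hz : 0 ≤ z := (abs_nonneg _).trans hl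
  rcases le_total m2 (m1 / 2) with h2 | h2
  · have h3 : f1 ^ 2 ≤ f2 ^ 2 := pow_le_pow_left₀ p1.le (by linarith [mul_pos h0 hc]) 2
    have h4 : U ≤ T / 2 := by
      refine le_of_mul_le_mul_right ?_ s1
      linarith [mul_le_mul_of_nonneg_left h3 hU0]
    linarith [mul_le_mul_of_nonneg_right z1 hU0]
  · have h3 : f1 + c ^ 2 / 2 ≤ f2 := by
      linarith [mul_le_mul_of_nonneg_right (by linarith : c / 2 ≤ m2) hc.le]
    have h4 : f1 ^ 2 + c ^ 4 / 4 ≤ f2 ^ 2 := by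
      have := pow_le_pow_left₀ (by positivity) h3 2
      linarith [mul_pos p1 (pow_pos hc 2)]
    have k0 : 0 ≤ c ^ 4 / 4 := by positivity
    have h5 : f1 ^ 2 ≤ (1 - c ^ 4 / 4) * f2 ^ 2 := by
      linarith [mul_le_mul_of_nonneg_left t2 k0]
    have h6 : U ≤ (1 - c ^ 4 / 4) * T := by
      refine le_of_mul_le_mul_right ?_ s2
      linarith [mul_le_mul_of_nonneg_left h5 hT0]
    have h7 : U ≤ T := by linarith [mul_nonneg k0 hT0]
    have h8 : z * U ≤ c ^ 4 / 8 * T := mul_le_mul z3 h7 hU0 (by positivity)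
    linarith [mul_le_mul_of_nonneg_left hTc k0]

/-- gap lemma for the function m / f^2 (used for the exceptional step). If
sign * m1 >= c with x2 on the side given by sign, then m1 / f1^2 and l * m2 / f2^2 differ by a
fixed amount for all l close to one. Case sign = 1: m2 <= m1 (sg_anti). If m2 <= 0 trivial. Else
f2 >= f1 + m2 (x2 - x1) (SG at x2); if m2 <= m1 / 2 use f2 >= f1, otherwise m2 >= c / 2 so
f2 >= f1 + c * c / 2 and f1 <= 1. The case sign = -1 follows with Half.neg, SG.neg. -/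
theorem Half.gap (h : Half f) {c : ℝ} (hc : 0 < c) :
    ∃ z > 0, ∀ (sg x1 x2 m1 m2 l : ℝ), (sg = 1 ∨ sg = -1) → x1 ∈ Ioo (0:ℝ) 1 →
      x2 ∈ Ioo (0:ℝ) 1 → c ≤ sg * (x2 - x1) → c ≤ sg * m1 → SG f x1 m1 → SG f x2 m2 →
      |l - 1| ≤ z → z ≤ |m1 / f x1 ^ 2 - l * (m2 / f x2 ^ 2)| := by
  refine ⟨min (min (1 / 2) (c / 4)) (min (c ^ 4 / 8) (c ^ 5 / 8)), by positivity, ?_⟩
  intro sg x1 x2 m1 m2 l hsg hx1 hx2 hx hm s1 s2 hl
  have z1 := (min_le_left _ (min (c ^ 4 / 8) (c ^ 5 / 8))).trans (min_le_left (1 / 2) (c / 4))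
  have z2 := (min_le_left _ (min (c ^ 4 / 8) (c ^ 5 / 8))).trans (min_le_right (1 / 2) (c / 4))
  have z3 := (min_le_right (min (1 / 2) (c / 4)) _).trans (min_le_left (c ^ 4 / 8) (c ^ 5 / 8))
  have z4 := (min_le_right (min (1 / 2) (c / 4)) _).trans (min_le_right (c ^ 4 / 8) (c ^ 5 / 8))
  have i1 := Ioo_subset_Icc_self hx1
  have i2 := Ioo_subset_Icc_self hx2
  have e := s2 x1 i1
  rcases hsg with rfl | rfl
  · refine le_trans (sga_gap hc (h.pos _ hx1) (h.pos _ hx2) (h.le1 _ i1) (h.le1 _ i2)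
      (by linarith) (sg_anti i1 i2 (by linarith) s1 s2) (fun h0 => ?_) hl z1 z2 z3 z4)
      (le_abs_self _)
    linarith [mul_le_mul_of_nonneg_left hx h0.le]
  · refine le_trans (sga_gap (m1 := -m1) (m2 := -m2) hc (h.pos _ hx1) (h.pos _ hx2) (h.le1 _ i1)
      (h.le1 _ i2) (by linarith) (neg_le_neg (sg_anti i2 i1 (by linarith) s2 s1)) (fun h0 => ?_)
      hl z1 z2 z3 z4) ?_
    · linarith [mul_le_mul_of_nonneg_left hx h0.le]
    · refine le_trans (le_of_eq ?_) (neg_le_abs _)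
      ring

end XR
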