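import Pool.Agent.P.MP_408b1f_gt.FamA
import Pool.Agent.P.MP_408b1f_gt.SGA

/-! Geometry of bodies whose rightmost point is close to a corner. Prove everything for tau = 1
and get tau = -1 from Fam.reflY (top and bot of the reflected body are 1 - bot, 1 - top; Half.neg).
For tau = 1, K with (1, y) ∈ K, y >= 1 - eta: by heightR points with abscissa >= 1 - s have height
>= 1 - eta - (f + s); choose s0 <= 1/4 and eta so that this is >= 1/2 for s = s0. Then the bottom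
point (xB, 0) has xB < 1 - s0 and bot is strictly increasing on [1 - s0, 1] (convex, positive there,
zero at xB). By widthT the top point has xT >= 1 - (g y + eta), and top is nondecreasing on [0, xT].
For x in [1 - s0, 1) the point (x, bot x) is the right end of its horizontal chord, whose left end
(ell x, bot x) is the bottom or top point over ell x; if ell x >= 1 - s0 it is the top point.
corner_shrink: g is small near 1 (Half.small). corner_low: oy x is in [1/2, 1 - f x].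
corner_cross: if top K - top K' has no zero on [a, x1] it has a sign, say positive (swap). With
l = ell K x1, y0 = bot K x1, Omega = {x < x1, y >= y0}: vol (K ∩ {y >= y0}) = vol (K ∩ {x >= x1}) +
vol (K ∩ Omega), while for K' only <= holds; both left sides and both middle terms agree
(SameX.vol_inter with Fam.sameX1, sameX2), so vol (K ∩ Omega) <= vol (K' ∩ Omega). But
K' ∩ Omega is contained in K ∩ Omega (points of K' left of l are below top K' l < y0) and misses a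
nonempty open set near (x1, top K x1). -/

open Set MeasureTheory Filter Topology

noncomputable section

namespace XR

variable {f g : ℝ → ℝ}

namespace CornerGeomAux

variable {K K' : Set V} {s0 s2 : ℝ}

/-- facts about a body close to the corner `(1,1)` -/
structure CG (s0 s2 : ℝ) (K : Set V) : Prop where
  s0le : s0 ≤ 1 / 4
  s2pos : 0 < s2
  high : ∀ p ∈ K, 1 - s0 ≤ p.1 → 1 / 2 ≤ p.2
  top : ∃ xT, 1 - s2 ≤ xT ∧ (xT, (1:ℝ)) ∈ K

theorem bot_mem (hK : Fam f g K) {x : ℝ} (hx : x ∈ Icc (0:ℝ) 1) : (x, F1.bot K x) ∈ K :=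
  (hK.mem_iff hx _).2 ⟨le_rfl, by rw [hK.top_eq hx]; linarith [(hK.vert x hx).1]⟩

theorem top_mem (hK : Fam f g K) {x : ℝ} (hx : x ∈ Icc (0:ℝ) 1) : (x, F1.top K x) ∈ K :=
  (hK.mem_iff hx _).2 ⟨by rw [hK.top_eq hx]; linarith [(hK.vert x hx).1], le_rfl⟩

theorem xmem (hK : Fam f g K) {x y : ℝ} (h : (x, y) ∈ K) : x ∈ Icc (0:ℝ) 1 :=
  ⟨(hK.box _ h).1, (hK.box _ h).2.1⟩

theorem ymem (hK : Fam f g K) {x y : ℝ} (h : (x, y) ∈ K) : y ∈ Icc (0:ℝ) 1 :=
  ⟨(hK.box _ h).2.2.1, (hK.box _ h).2.2.2⟩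

theorem conc_top (hK : Fam f g K) : ConcaveOn ℝ (Icc 0 1) (F1.top K) := by
  have h := F1.concaveOn_top hK.body
  rwa [hK.F1_lo, hK.F1_hi] at h

theorem conv_bot (hK : Fam f g K) : ConvexOn ℝ (Icc 0 1) (F1.bot K) := by
  have h := F1.convexOn_bot hK.body
  rwa [hK.F1_lo, hK.F1_hi] at h

theorem cont_bot (hK : Fam f g K) : ContinuousOn (F1.bot K) (Icc 0 1) := by
  have h := F1.continuousOn_bot hK.body
  rwa [hK.F1_lo, hK.F1_hi] at h

theorem top_mono (hK : Fam f g K) (h : CG s0 s2 K) :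
    MonotoneOn (F1.top K) (Icc 0 (1 - s2)) := by
  obtain ⟨xT, hT, hT'⟩ := h.top
  intro x hx x' hx' hxx
  have hxI : x ∈ Icc (0:ℝ) 1 := ⟨hx.1, by linarith [hx.2, h.s2pos]⟩
  have h1 := (conc_top hK).min_le_of_mem_Icc hxI (xmem hK hT') ⟨hxx, hx'.2.trans hT⟩
  have h2 := ((hK.mem_iff (xmem hK hT') _).1 hT').2
  rwa [min_eq_left ((hK.top_le_one hxI).trans h2)] at h1

theorem exB (hK : Fam f g K) (h : CG s0 s2 K) : ∃ xB, xB < 1 - s0 ∧ (xB, (0:ℝ)) ∈ K := by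
  obtain ⟨xB, hB⟩ := hK.exB
  refine ⟨xB, lt_of_not_ge fun hc => ?_, hB⟩
  have := h.high _ hB hc
  norm_num at this

theorem mem01 (h : CG s0 s2 K) {x : ℝ} (h1 : 1 - s0 ≤ x) (h2 : x ≤ 1) : x ∈ Icc (0:ℝ) 1 :=
  ⟨by linarith [h.s0le], h2⟩

theorem bot_strict (hK : Fam f g K) (h : CG s0 s2 K) :
    StrictMonoOn (F1.bot K) (Icc (1 - s0) 1) := by
  obtain ⟨xB, hB, hB'⟩ := exB hK h
  intro x hx x' hx' hxx
  refine (conv_bot hK).lt_right_of_left_lt (xmem hK hB') (mem01 h hx'.1 hx'.2) ?_ ?_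
  · rw [openSegment_eq_Ioo (by linarith [hx.1])]
    exact ⟨by linarith [hx.1], hxx⟩
  · have h1 := ((hK.mem_iff (xmem hK hB') _).1 hB').1
    have h2 := h.high _ (bot_mem hK (mem01 h hx.1 hx.2)) hx.1
    simp only at h2
    linarith

theorem right_end (hK : Fam f g K) (h : CG s0 s2 K) {x : ℝ} (hx : x ∈ Icc (1 - s0) 1) {x' : ℝ}
    (hx' : (x', F1.bot K x) ∈ K) : x' ≤ x := by
  refine le_of_not_gt fun hc => ?_
  have h1 := bot_strict hK h hx ⟨hx.1.trans hc.le, (xmem hK hx').2⟩ hc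
  linarith [((hK.mem_iff (xmem hK hx') _).1 hx').1]

theorem left_end (hK : Fam f g K) (h : CG s0 s2 K) {x : ℝ} (hx : x ∈ Icc (1 - s0) 1)
    (hl : 1 - s0 ≤ x - g (F1.bot K x)) : F1.top K (x - g (F1.bot K x)) = F1.bot K x := by
  have hb := bot_mem hK (mem01 h hx.1 hx.2)
  obtain ⟨hg0, x0, hx0⟩ := hK.hor _ (ymem hK hb)
  have h1 := ((hx0 x).1 hb).2
  have h2 := right_end hK h hx ((hx0 (x0 + g (F1.bot K x))).2 ⟨by linarith, le_rfl⟩)
  have e : x - g (F1.bot K x) = x0 := by linarith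
  rw [e] at hl ⊢
  have hm : (x0, F1.bot K x) ∈ K := (hx0 x0).2 ⟨le_rfl, by linarith⟩
  refine le_antisymm (le_of_not_gt fun hc => ?_) ((hK.mem_iff (xmem hK hm) _).1 hm).2
  obtain ⟨xB, hB, hB'⟩ := exB hK h
  have hy0 := (ymem hK hb).1
  have hT : 0 < F1.top K x0 := lt_of_le_of_lt hy0 hc
  have ht1 : F1.bot K x / F1.top K x0 < 1 := (div_lt_one hT).2 hc
  have h3 := hK.body.conv.add_smul_sub_mem hB' (top_mem hK (xmem hK hm))
    ⟨div_nonneg hy0 hT.le, ht1.le⟩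
  have e2 : ((xB, (0:ℝ)) : V) + (F1.bot K x / F1.top K x0) • ((x0, F1.top K x0) - (xB, 0)) =
      (xB + F1.bot K x / F1.top K x0 * (x0 - xB), F1.bot K x) := by
    ext
    · simp
    · simp [div_mul_cancel₀ _ hT.ne']
  rw [e2] at h3
  have h4 := ((hx0 _).1 h3).1
  have h5 : 0 < (1 - F1.bot K x / F1.top K x0) * (x0 - xB) :=
    mul_pos (by linarith) (by linarith)
  linarith

theorem cross_aux (hf : Half f) (hg : Half g) (hK : Fam f g K) (h : CG s0 s2 K)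
    (hK' : Fam f g K') (h' : CG s0 s2 K') {a x1 : ℝ} (ha : 1 - s0 ≤ a)
    (hx1 : x1 ∈ Icc (1 - s0) (1 - s2)) (hl : a ≤ x1 - g (F1.bot K x1))
    (hlt : ∀ x ∈ Icc a x1, F1.bot K' x < F1.bot K x) : False := by
  have hs0 := h.s0le
  have hs2 := h.s2pos
  have hx1' : x1 ∈ Icc (1 - s0) 1 := ⟨hx1.1, by linarith [hx1.2]⟩
  have hx1I : x1 ∈ Icc (0:ℝ) 1 := mem01 h hx1'.1 hx1'.2
  have hb := bot_mem hK hx1I
  have hTl := left_end hK h hx1' (ha.trans hl)
  have hf1 : 0 < f x1 := hf.pos x1 ⟨by linarith [hx1.1], by linarith [hx1.2]⟩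
  have hT1 := hK.top_eq hx1I
  have hy1 : F1.bot K x1 < 1 := by linarith [hK.top_le_one hx1I]
  have hy0 : 1 / 2 ≤ F1.bot K x1 := h.high _ hb hx1.1
  have hg0 : 0 < g (F1.bot K x1) := hg.pos _ ⟨by linarith, hy1⟩
  have hlt' : ∀ x ∈ Icc a x1, F1.top K' x < F1.top K x := fun x hx => by
    have hxI : x ∈ Icc (0:ℝ) 1 := ⟨by linarith [hx.1], hx.2.trans hx1I.2⟩
    rw [hK.top_eq hxI, hK'.top_eq hxI]
    linarith [hlt x hx]
  obtain ⟨y0, hy⟩ : ∃ y0, y0 = F1.bot K x1 := ⟨_, rfl⟩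
  rw [← hy] at hl hb hTl hT1 hy1 hy0 hg0
  obtain ⟨l, hl'⟩ : ∃ l, l = x1 - g y0 := ⟨_, rfl⟩
  rw [← hl'] at hl hTl
  have hlx : l < x1 := by linarith
  have hbm : ∀ x, 1 - s0 ≤ x → x ≤ x1 → F1.bot K x ≤ y0 := fun x h1 h2 => by
    rw [hy]
    exact (bot_strict hK h).monotoneOn ⟨h1, h2.trans hx1'.2⟩ hx1' h2
  -- the sets
  let Ω : Set V := {p | p.1 < x1 ∧ y0 ≤ p.2}
  have hΩ : MeasurableSet Ω :=
    (measurableSet_lt measurable_fst measurable_const).inter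
      (measurableSet_le measurable_const measurable_snd)
  have e1 := SameX.vol_inter (F := F1) (hK.sameX1 hK') hK.body hK'.body
    (measurableSet_Ici (a := x1))
  have e2 := SameX.vol_inter (F := F2) (hK.sameX2 hK') hK.body hK'.body
    (measurableSet_Ici (a := y0))
  have hA : volume (K ∩ F2.lev ⁻¹' Ici y0) = volume (K ∩ F1.lev ⁻¹' Ici x1) + volume (K ∩ Ω) := by
    rw [← measure_union _ (hK.body.comp.measurableSet.inter hΩ)]
    · congr 1
      ext p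
      simp only [mem_inter_iff, mem_preimage, F1_lev, F2_lev, mem_Ici, mem_union, Ω,
        mem_ofPred_eq]
      constructor
      · rintro ⟨h1, h2⟩
        rcases le_or_gt x1 p.1 with h3 | h3
        · exact Or.inl ⟨h1, h3⟩
        · exact Or.inr ⟨h1, h3, h2⟩
      · rintro (⟨h1, h2⟩ | ⟨h1, -, h3⟩)
        · refine ⟨h1, ?_⟩
          have hp : (p.1, p.2) ∈ K := h1
          have h4 := ((hK.mem_iff (xmem hK hp) _).1 hp).1
          have h5 := (bot_strict hK h).monotoneOn hx1' ⟨hx1.1.trans h2, (xmem hK hp).2⟩ h2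
          linarith
        · exact ⟨h1, h3⟩
    · rw [disjoint_left]
      rintro p ⟨-, h1⟩ ⟨-, h2, -⟩
      simp only [mem_preimage, F1_lev, mem_Ici] at h1
      linarith
  have hA' : volume (K' ∩ F2.lev ⁻¹' Ici y0) ≤
      volume (K' ∩ F1.lev ⁻¹' Ici x1) + volume (K' ∩ Ω) := by
    refine le_trans (measure_mono ?_) (measure_union_le _ _)
    rintro p ⟨h1, h2⟩
    simp only [mem_preimage, F2_lev, mem_Ici] at h2
    rcases le_or_gt x1 p.1 with h3 | h3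
    · exact Or.inl ⟨h1, by simpa using h3⟩
    · exact Or.inr ⟨h1, h3, h2⟩
  have hfin : ∀ S : Set V, volume (K' ∩ S) ≠ ⊤ := fun S =>
    ((measure_mono inter_subset_left).trans_lt hK'.body.comp.measure_lt_top).ne
  rw [← e2, hA, e1] at hA'
  have hle : volume (K ∩ Ω) ≤ volume (K' ∩ Ω) :=
    (ENNReal.add_le_add_iff_left (hfin _)).1 hA'
  let U : Set V := interior K ∩ K'ᶜ ∩ {p | p.1 < x1} ∩ {p | y0 < p.2}
  have hU : IsOpen U :=
    ((isOpen_interior.inter hK'.body.comp.isClosed.isOpen_compl).inter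
      (isOpen_lt continuous_fst continuous_const)).inter (isOpen_lt continuous_const continuous_snd)
  have hUne : U.Nonempty := by
    have hlI : l ∈ Icc (0:ℝ) 1 := ⟨by linarith, by linarith [hx1I.2]⟩
    have hc := (conc_top hK).2 hlI hx1I (show (0:ℝ) ≤ 1 / 2 by norm_num)
      (show (0:ℝ) ≤ 1 / 2 by norm_num) (by norm_num)
    simp only [smul_eq_mul] at hc
    obtain ⟨x, hx⟩ : ∃ x, x = 1 / 2 * l + 1 / 2 * x1 := ⟨_, rfl⟩
    rw [← hx] at hc
    have hxa : x ∈ Icc a x1 := ⟨by linarith, by linarith⟩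
    have hxI : x ∈ Icc (0:ℝ) 1 := ⟨by linarith [hxa.1], hxa.2.trans hx1I.2⟩
    have h1 : max (F1.top K' x) y0 < F1.top K x := max_lt (hlt' x hxa) (by linarith)
    have h2 := le_max_left (F1.top K' x) y0
    have h3 := le_max_right (F1.top K' x) y0
    have h4 := hbm x (ha.trans hxa.1) hxa.2
    refine ⟨(x, (max (F1.top K' x) y0 + F1.top K x) / 2), ⟨⟨?_, fun hc' => ?_⟩, ?_⟩, ?_⟩
    · rw [F1.mem_interior_iff hK.body, hK.F1_lo, hK.F1_hi]
      simp only [F1_lev, F1_hgt]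
      exact ⟨⟨by linarith [hxa.1], by linarith [hx1I.2]⟩, by linarith, by linarith⟩
    · linarith [((hK'.mem_iff hxI _).1 hc').2]
    · show x < x1
      linarith
    · show y0 < (max (F1.top K' x) y0 + F1.top K x) / 2
      linarith
  have hsub : K' ∩ Ω ∪ U ⊆ K ∩ Ω := by
    rintro p (⟨h1, h2, h3⟩ | ⟨⟨⟨h1, -⟩, h2⟩, h3⟩)
    · refine ⟨?_, h2, h3⟩
      have hp : (p.1, p.2) ∈ K' := h1
      have hpI := xmem hK' hp
      have h4 := ((hK'.mem_iff hpI _).1 hp).2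
      rcases le_or_gt a p.1 with h5 | h5
      · exact (hK.mem_iff hpI p.2).2
          ⟨(hbm _ (ha.trans h5) h2.le).trans h3, h4.trans (hlt' _ ⟨h5, h2.le⟩).le⟩
      · exfalso
        have haI : a ∈ Icc (0:ℝ) (1 - s2) := ⟨by linarith, by linarith [hx1.2]⟩
        have h6 := top_mono hK' h' ⟨hpI.1, by linarith [haI.2]⟩ haI h5.le
        have h7 := hlt' a ⟨le_rfl, by linarith⟩
        have h8 := top_mono hK h haI ⟨by linarith, by linarith [hx1.2]⟩ hl
        linarith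
    · exact ⟨interior_subset h1, h2, le_of_lt h3⟩
  have hdis : Disjoint (K' ∩ Ω) U := by
    rw [disjoint_left]
    rintro p ⟨h1, -⟩ ⟨⟨⟨-, h2⟩, -⟩, -⟩
    exact h2 h1
  have h9 := (measure_mono (μ := volume) hsub).trans hle
  rw [measure_union hdis hU.measurableSet] at h9
  have h10 : volume U ≤ 0 :=
    (ENNReal.add_le_add_iff_left (hfin Ω)).1 (by rwa [add_zero])
  exact (hU.measure_pos volume hUne).not_ge h10

theorem cross (hf : Half f) (hg : Half g) (hK : Fam f g K) (h : CG s0 s2 K)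
    (hK' : Fam f g K') (h' : CG s0 s2 K') {a x1 : ℝ} (ha : 1 - s0 ≤ a)
    (hx1 : x1 ∈ Icc (1 - s0) (1 - s2)) (hl : a ≤ x1 - g (F1.bot K x1))
    (hl' : a ≤ x1 - g (F1.bot K' x1)) : ∃ x ∈ Icc a x1, F1.bot K x = F1.bot K' x := by
  have hs : Icc a x1 ⊆ Icc (0:ℝ) 1 :=
    Icc_subset_Icc (by linarith [h.s0le]) (by linarith [hx1.2, h.s2pos])
  by_cases h1 : ∀ x ∈ Icc a x1, F1.bot K' x < F1.bot K x
  · exact (cross_aux hf hg hK h hK' h' ha hx1 hl h1).elim
  by_cases h2 : ∀ x ∈ Icc a x1, F1.bot K x < F1.bot K' x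
  · exact (cross_aux hf hg hK' h' hK h ha hx1 hl' h2).elim
  push Not at h1 h2
  obtain ⟨x, hx, h1⟩ := h1
  obtain ⟨x', hx', h2⟩ := h2
  exact isPreconnected_Icc.intermediate_value₂ hx hx' ((cont_bot hK).mono hs)
    ((cont_bot hK').mono hs) h1 h2

theorem exists_cg (hf : Half f) (hg : Half g) :
    ∃ s0 > (0:ℝ), s0 ≤ 1 / 4 ∧ ∀ s2 > (0:ℝ), ∃ η > (0:ℝ), ∀ K, Fam f g K →
      (∃ y, ((1:ℝ), y) ∈ K ∧ 1 - η ≤ y) → CG s0 s2 K := by
  obtain ⟨s, hs, hsm⟩ := hf.small (δ := 1 / 8) (by norm_num)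
  have h1 := min_le_left s (1 / 8)
  have h2 := min_le_right s (1 / 8)
  refine ⟨min s (1 / 8), lt_min hs (by norm_num), by linarith, fun s2 hs2 => ?_⟩
  obtain ⟨r, hr, hrm⟩ := hg.small (δ := s2 / 2) (by positivity)
  have h3 := min_le_left r (min (s2 / 2) (1 / 4))
  have h4 := (min_le_right r _).trans (min_le_left (s2 / 2) (1 / 4))
  have h5 := (min_le_right r _).trans (min_le_right (s2 / 2) (1 / 4))
  refine ⟨min r (min (s2 / 2) (1 / 4)), by positivity, fun K hK ⟨y, hy, hy'⟩ =>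
    ⟨by linarith, hs2, fun p hp hp' => ?_, ?_⟩⟩
  · have h6 := abs_le.1 (hK.heightR hy hp)
    have h7 := hsm p.1 ⟨(hK.box p hp).1, (hK.box p hp).2.1⟩ (Or.inr (by linarith))
    linarith [h6.1]
  · obtain ⟨xT, hT⟩ := hK.exT
    refine ⟨xT, ?_, hT⟩
    have h6 := abs_le.1 (hK.widthT hT hy)
    have h7 := hrm y (ymem hK hy) (Or.inr (by linarith))
    simp only at h6
    linarith [h6.2]

theorem geom_one (hg : Half g) (hK : Fam f g K) (h : CG s0 s2 K) :
    MonotoneOn (F1.top K) (Icc (1 - s0) (1 - s2)) ∧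
    (∀ x ∈ Ico (1 - s0) (1:ℝ), (∀ x', (x', F1.bot K x) ∈ K → x' ≤ x) ∧
      x - g (F1.bot K x) ≤ x ∧
      (1 - s0 ≤ x - g (F1.bot K x) → F1.top K (x - g (F1.bot K x)) = F1.bot K x)) ∧
    (∀ x ∈ Icc (1 - s0) (1 - s2), ∀ x' ∈ Icc (1 - s0) (1 - s2), x ≤ x' →
      1 - s0 ≤ x - g (F1.bot K x) → 1 - s0 ≤ x' - g (F1.bot K x') →
        x - g (F1.bot K x) ≤ x' - g (F1.bot K x')) ∧
    (∀ x ∈ Ico (1 - s0) (1:ℝ), min (1 / 2) (f x) ≤ F1.bot K x ∧
      F1.bot K x ≤ 1 - min (1 / 2) (f x)) := by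
  have hs0 := h.s0le
  have hs2 := h.s2pos
  have hg0 : ∀ x, 1 - s0 ≤ x → x ≤ 1 → 0 ≤ g (F1.bot K x) := fun x h1 h2 =>
    hg.nonneg _ (ymem hK (bot_mem hK (mem01 h h1 h2)))
  refine ⟨(top_mono hK h).mono (Icc_subset_Icc (by linarith) le_rfl), fun x hx =>
    ⟨fun x' hx' => right_end hK h (Ico_subset_Icc_self hx) hx', by linarith [hg0 x hx.1 hx.2.le],
      left_end hK h (Ico_subset_Icc_self hx)⟩, fun x hx x' hx' hxx hl hl' => ?_, fun x hx => ?_⟩
  · have hx1 : x ∈ Icc (1 - s0) 1 := ⟨hx.1, by linarith [hx.2]⟩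
    have hx1' : x' ∈ Icc (1 - s0) 1 := ⟨hx'.1, by linarith [hx'.2]⟩
    refine le_of_not_gt fun hc => ?_
    have h1 := left_end hK h hx1 hl
    have h2 := left_end hK h hx1' hl'
    have h3 := (bot_strict hK h).monotoneOn hx1 hx1' hxx
    have h4 := hg0 x hx1.1 hx1.2
    have h5 := top_mono hK h (a := x' - g (F1.bot K x')) ⟨by linarith, by linarith [hx.2]⟩
      (b := x - g (F1.bot K x)) ⟨by linarith, by linarith [hx.2]⟩ hc.le
    have h6 : F1.bot K x = F1.bot K x' := by linarith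
    rw [h6] at hc
    linarith
  · have hxI := mem01 h hx.1 hx.2.le
    have h1 : 1 / 2 ≤ F1.bot K x := h.high _ (bot_mem hK hxI) hx.1
    have h2 := hK.top_le_one hxI
    rw [hK.top_eq hxI] at h2
    exact ⟨(min_le_left _ _).trans h1, by linarith [min_le_right (1 / 2) (f x)]⟩

/-- reflection in the horizontal midline -/
def rf (K : Set V) : Set V := (fun p : V => (p.1, 1 - p.2)) '' K

theorem mem_rf {x y : ℝ} : (x, y) ∈ rf K ↔ (x, 1 - y) ∈ K := by
  constructor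
  · rintro ⟨p, hp, e⟩
    simp only [Prod.mk.injEq] at e
    rw [← e.1, ← e.2, sub_sub_cancel]
    exact hp
  · intro h
    exact ⟨_, h, by simp⟩

theorem bot_rf (hK : Fam f g K) {x : ℝ} (hx : x ∈ Icc (0:ℝ) 1) :
    F1.bot (rf K) x = 1 - F1.top K x := by
  have hR : Fam f (negF g) (rf K) := hK.reflY
  have h1 := ((hK.mem_iff hx _).1 (mem_rf.1 (bot_mem hR hx))).2
  have h2 : (x, 1 - F1.top K x) ∈ rf K := by
    rw [mem_rf, sub_sub_cancel]
    exact top_mem hK hx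
  linarith [((hR.mem_iff hx _).1 h2).1]

theorem top_rf (hK : Fam f g K) {x : ℝ} (hx : x ∈ Icc (0:ℝ) 1) :
    F1.top (rf K) x = 1 - F1.bot K x := by
  have hR : Fam f (negF g) (rf K) := hK.reflY
  rw [hR.top_eq hx, bot_rf hK hx, hK.top_eq hx]
  ring

theorem ell_rf (hK : Fam f g K) {x : ℝ} (hx : x ∈ Icc (0:ℝ) 1) :
    negF g (F1.bot (rf K) x) = g (F1.top K x) := by
  rw [bot_rf hK hx, negF, sub_sub_cancel]

end CornerGeomAux

open CornerGeomAux in
theorem corner_geom (hf : Half f) (hg : Half g) {τ : ℝ} (hτ : τ = 1 ∨ τ = -1) :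
    ∃ s0 > (0:ℝ), s0 ≤ 1 / 4 ∧ ∀ s2 > (0:ℝ), ∃ η > (0:ℝ), ∀ K, Fam f g K → Cornerish τ η K →
      MonotoneOn (fun x => τ * sy τ K x) (Icc (1 - s0) (1 - s2)) ∧
      (∀ x ∈ Ico (1 - s0) (1:ℝ), (∀ x', (x', oy τ K x) ∈ K → x' ≤ x) ∧ ell g τ K x ≤ x ∧
        (1 - s0 ≤ ell g τ K x → sy τ K (ell g τ K x) = oy τ K x)) ∧
      (∀ x ∈ Icc (1 - s0) (1 - s2), ∀ x' ∈ Icc (1 - s0) (1 - s2), x ≤ x' →
        1 - s0 ≤ ell g τ K x → 1 - s0 ≤ ell g τ K x' → ell g τ K x ≤ ell g τ K x') ∧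
      (∀ x ∈ Ico (1 - s0) (1:ℝ), min (1 / 2) (f x) ≤ oy τ K x ∧ oy τ K x ≤ 1 - min (1 / 2) (f x)) ∧
      ∀ K', Fam f g K' → Cornerish τ η K' → ∀ a x1, 1 - s0 ≤ a → x1 ∈ Icc (1 - s0) (1 - s2) →
        a ≤ ell g τ K x1 → a ≤ ell g τ K' x1 → ∃ x ∈ Icc a x1, oy τ K x = oy τ K' x := by
  rcases hτ with rfl | rfl
  · obtain ⟨s0, hs0, hs0', H⟩ := exists_cg hf hg
    refine ⟨s0, hs0, hs0', fun s2 hs2 => ?_⟩
    obtain ⟨η, hη, H⟩ := H s2 hs2
    refine ⟨η, hη, fun K hK hc => ?_⟩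
    simp only [Cornerish, sy, oy, ell, if_true, one_mul] at hc ⊢
    obtain ⟨h1, h2, h3, h4⟩ := geom_one hg hK (H K hK hc)
    exact ⟨h1, h2, h3, h4, fun K' hK' hc' a x1 ha hx1 hl hl' =>
      cross hf hg hK (H K hK hc) hK' (H K' hK' hc') ha hx1 hl hl'⟩
  · obtain ⟨s0, hs0, hs0', H⟩ := exists_cg hf hg.neg
    refine ⟨s0, hs0, hs0', fun s2 hs2 => ?_⟩
    obtain ⟨η, hη, H⟩ := H s2 hs2
    have hne : ¬ (-1:ℝ) = 1 := by norm_num
    have H' : ∀ K, Fam f g K → (∃ y, ((1:ℝ), y) ∈ K ∧ y ≤ η) → CG s0 s2 (rf K) :=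
      fun K hK ⟨y, hy, hy'⟩ => H _ hK.reflY
        ⟨1 - y, mem_rf.2 (by rw [sub_sub_cancel]; exact hy), by linarith⟩
    refine ⟨η, hη, fun K hK hc => ?_⟩
    simp only [Cornerish, sy, oy, ell, if_neg hne] at hc ⊢
    have hR : Fam f (negF g) (rf K) := hK.reflY
    obtain ⟨h1, h2, h3, h4⟩ := geom_one hg.neg hR (H' K hK hc)
    have hI : ∀ x, 1 - s0 ≤ x → x ≤ 1 → x ∈ Icc (0:ℝ) 1 := fun x a b => ⟨by linarith, b⟩
    have hI' : ∀ x ∈ Icc (1 - s0) (1 - s2), x ∈ Icc (0:ℝ) 1 := fun x hx =>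
      hI x hx.1 (by linarith [hx.2])
    refine ⟨fun x hx x' hx' hxx => ?_, fun x hx => ?_, fun x hx x' hx' hxx hl hl' => ?_,
      fun x hx => ?_, fun K' hK' hc' a x1 ha hx1 hl hl' => ?_⟩
    · have := h1 hx hx' hxx
      rw [top_rf hK (hI' x hx), top_rf hK (hI' x' hx')] at this
      show -1 * F1.bot K x ≤ -1 * F1.bot K x'
      linarith
    · have hxI := hI x hx.1 hx.2.le
      obtain ⟨a1, a2, a3⟩ := h2 x hx
      rw [ell_rf hK hxI] at a2 a3
      rw [bot_rf hK hxI] at a1 a3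
      refine ⟨fun x' hx' => a1 x' (by rw [mem_rf, sub_sub_cancel]; exact hx'), a2, fun hl => ?_⟩
      have := a3 hl
      rw [top_rf hK (hI _ hl (a2.trans hxI.2))] at this
      linarith
    · have := h3 x hx x' hx' hxx
      rw [ell_rf hK (hI' x hx), ell_rf hK (hI' x' hx')] at this
      exact this hl hl'
    · have := h4 x hx
      rw [bot_rf hK (hI x hx.1 hx.2.le)] at this
      exact ⟨by linarith [this.2], by linarith [this.1]⟩
    · have hR' : Fam f (negF g) (rf K') := hK'.reflY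
      obtain ⟨x, hx, e⟩ := cross hf hg.neg hR (H' K hK hc) hR' (H' K' hK' hc') ha hx1
        (by rwa [ell_rf hK (hI' x1 hx1)]) (by rwa [ell_rf hK' (hI' x1 hx1)])
      have hxI := hI x (ha.trans hx.1) (hx.2.trans (hI' x1 hx1).2)
      rw [bot_rf hK hxI, bot_rf hK' hxI] at e
      exact ⟨x, hx, by linarith⟩

theorem corner_shrink (hf : Half f) (hg : Half g) {τ : ℝ} (hτ : τ = 1 ∨ τ = -1) {s' : ℝ}
    (hs' : 0 < s') : ∃ s > (0:ℝ), ∃ η > (0:ℝ), ∀ K, Fam f g K → Cornerish τ η K →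
      ∀ x ∈ Icc (1 - s) (1:ℝ), 1 - s' ≤ ell g τ K x := by
  obtain ⟨r, hr, hrm⟩ := hg.small (δ := s' / 2) (by positivity)
  obtain ⟨s1, hs1, hsm⟩ := hf.small (δ := r / 3) (by positivity)
  have h1 := (min_le_left _ (min (s' / 2) 1)).trans (min_le_left s1 (r / 3))
  have h2 := (min_le_left _ (min (s' / 2) 1)).trans (min_le_right s1 (r / 3))
  have h3 := (min_le_right (min s1 (r / 3)) _).trans (min_le_left (s' / 2) 1)
  have h4 := (min_le_right (min s1 (r / 3)) _).trans (min_le_right (s' / 2) 1)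
  refine ⟨min (min s1 (r / 3)) (min (s' / 2) 1), by positivity, r / 3, by positivity,
    fun K hK ⟨y, hy, hy'⟩ x hx => ?_⟩
  have hxI : x ∈ Icc (0:ℝ) 1 := ⟨by linarith [hx.1], hx.2⟩
  have hm : (x, oy τ K x) ∈ K := by
    unfold oy
    split_ifs
    · exact CornerGeomAux.bot_mem hK hxI
    · exact CornerGeomAux.top_mem hK hxI
  have h5 := abs_le.1 (hK.heightR hy hm)
  have h6 := hsm x hxI (Or.inr (by linarith [hx.1]))
  simp only at h5
  have h7 : g (oy τ K x) ≤ s' / 2 := by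
    refine hrm _ (CornerGeomAux.ymem hK hm) ?_
    split_ifs at hy'
    · right
      linarith [h5.1, hx.1]
    · left
      linarith [h5.2, hx.1]
  unfold ell
  linarith [hx.1]

theorem Cornerish.mono {τ η η' : ℝ} {K : Set V} (h : Cornerish τ η K) (hη : η ≤ η') :
    Cornerish τ η' K := by
  obtain ⟨y, hy, hy'⟩ := h
  refine ⟨y, hy, ?_⟩
  split_ifs at hy' ⊢
  · linarith
  · linarith

end XR
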