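import Pool.Agent.P.MP_408b1f_gt.CornerAbs
import Pool.Agent.P.MP_408b1f_gt.CornerGeom
import Pool.Agent.P.MP_408b1f_gt.CornerChain

/-! The corner lemma: uniform margins.
corner: suppose not; then for every eta, frequently in eps, there is a Cornerish system. Choose
s0 (corner_geom), sa with ell >= 1 - s0 on [1 - 2 sa, 1], s1 <= sa with ell >= 1 - sa on
[1 - s1, 1] (corner_shrink), t0 a lower bound of g on the heights allowed at abscissas in
[1 - s0, 1 - s1] (Half.lower twice), sl (corner_abs), sb <= sa with ell >= 1 - min sl s0 on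
[1 - sb, 1], s2 <= min sb s1 with ell >= 1 - sb on [1 - s2, 1], eta below all thresholds (for s2 / 2
in corner_geom), then eps, then eps'. The crossing points xm in [1 - sa, 1 - s1] and xd in
[1 - sb, 1 - s2] of the two bodies S.K, S'.K have the same ell. margins follows with Sys.neg. -/

open Set MeasureTheory Filter Topology

noncomputable section

namespace XR

variable {f g : ℝ → ℝ}

theorem corner (hf : Half f) (hg : Half g) {τ : ℝ} (hτ : τ = 1 ∨ τ = -1) :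
    ∃ η > (0:ℝ), ∀ᶠ ε in 𝓝[>] (0:ℝ), ∀ (I : Type) (S : Sys f g ε I), ¬ Cornerish τ η S.K := by
  by_contra hcon
  have hfr : ∀ η > (0:ℝ), ∃ᶠ ε in 𝓝[>] (0:ℝ), ∃ (I : Type) (S : Sys f g ε I),
      Cornerish τ η S.K := by
    intro η hη
    by_contra h
    apply hcon
    refine ⟨η, hη, ?_⟩
    rw [Filter.not_frequently] at h
    filter_upwards [h] with ε hε I S hS
    exact hε ⟨I, S, hS⟩
  obtain ⟨s0, hs0, hs04, hgeom⟩ := corner_geom hf hg hτ
  obtain ⟨sA, hsA, ηA, hηA, hA⟩ := corner_shrink hf hg hτ hs0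
  set sa := min (sA / 2) (s0 / 2) with hsa_def
  have hsa : 0 < sa := lt_min (by linarith) (by linarith)
  have hsa1 : 2 * sa ≤ sA := by have := min_le_left (sA / 2) (s0 / 2); linarith
  have hsa2 : 2 * sa ≤ s0 := by have := min_le_right (sA / 2) (s0 / 2); linarith
  obtain ⟨sB, hsB, ηB, hηB, hB⟩ := corner_shrink hf hg hτ hsa
  set s1 := min sB sa with hs1_def
  have hs1 : 0 < s1 := lt_min hsB hsa
  have hs1B : s1 ≤ sB := min_le_left _ _
  have hs1a : s1 ≤ sa := min_le_right _ _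
  obtain ⟨φ, hφ, hφl⟩ := hf.lower hs1
  have hφ' : 0 < min (1 / 2) φ := lt_min (by norm_num) hφ
  obtain ⟨t0, ht0, ht0l⟩ := hg.lower hφ'
  obtain ⟨sl, hsl, habs⟩ := corner_abs hf hτ hs1 ht0
  have hsl0 : 0 < min sl s0 := lt_min hsl hs0
  obtain ⟨sC, hsC, ηC, hηC, hC⟩ := corner_shrink hf hg hτ hsl0
  set sb := min sC sa with hsb_def
  have hsb : 0 < sb := lt_min hsC hsa
  have hsbC : sb ≤ sC := min_le_left _ _
  have hsba : sb ≤ sa := min_le_right _ _
  obtain ⟨sD, hsD, ηD, hηD, hD⟩ := corner_shrink hf hg hτ hsb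
  set s2 := min sD (min sb s1) with hs2_def
  have hs2 : 0 < s2 := lt_min hsD (lt_min hsb hs1)
  have hs2D : s2 ≤ sD := min_le_left _ _
  have hs2b : s2 ≤ sb := (min_le_right _ _).trans (min_le_left _ _)
  have hs21 : s2 ≤ s1 := (min_le_right _ _).trans (min_le_right _ _)
  obtain ⟨ηG, hηG, hG⟩ := hgeom (s2 / 2) (by linarith)
  set η := min (min (min ηA ηB) (min ηC ηD)) ηG with hη_def
  have hη : 0 < η := lt_min (lt_min (lt_min hηA hηB) (lt_min hηC hηD)) hηG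
  have eA : η ≤ ηA := (min_le_left _ _).trans ((min_le_left _ _).trans (min_le_left _ _))
  have eB : η ≤ ηB := (min_le_left _ _).trans ((min_le_left _ _).trans (min_le_right _ _))
  have eC : η ≤ ηC := (min_le_left _ _).trans ((min_le_right _ _).trans (min_le_left _ _))
  have eD : η ≤ ηD := (min_le_left _ _).trans ((min_le_right _ _).trans (min_le_right _ _))
  have eG : η ≤ ηG := min_le_right _ _
  have hchain := corner_chain hf hg hτ hs04 hsa2 hs2 (hs21.trans hs1a)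
  have hch : ∀ᶠ ε in 𝓝[>] (0:ℝ), ∀ (I : Type) (S : Sys f g ε I), Cornerish τ η S.K →
      ∃ n : ℕ, ∀ x ∈ Icc (1 - sa) (1 - s2), Chain f τ ε n x (ell g τ S.K x) := by
    filter_upwards [hchain] with ε hε I S hS
    obtain ⟨g1, g2, g3, g4, -⟩ := hG S.K S.hK (hS.mono eG)
    refine hε I S g1 g2 g3 g4 fun x hx => ?_
    exact hA S.K S.hK (hS.mono eA) x ⟨by linarith [hx.1], hx.2⟩
  obtain ⟨ε, ⟨I, S, hS⟩, hε1, hε2⟩ := ((hfr η hη).and_eventually (hch.and (habs s2 hs2))).exists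
  obtain ⟨ε', ⟨I', S', hS'⟩, hε1', hε2'⟩ := ((hfr η hη).and_eventually (hch.and hε2)).exists
  obtain ⟨n, hn⟩ := hε1 I S hS
  obtain ⟨n', hn'⟩ := hε1' I' S' hS'
  obtain ⟨-, g2, -, g4, g5⟩ := hG S.K S.hK (hS.mono eG)
  have g6 := g5 S'.K S'.hK (hS'.mono eG)
  obtain ⟨xm, hxm, hom⟩ := g6 (1 - sa) (1 - s1) (by linarith) ⟨by linarith, by linarith⟩
    (hB S.K S.hK (hS.mono eB) _ ⟨by linarith, by linarith⟩)
    (hB S'.K S'.hK (hS'.mono eB) _ ⟨by linarith, by linarith⟩)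
  obtain ⟨xd, hxd, hod⟩ := g6 (1 - sb) (1 - s2) (by linarith) ⟨by linarith, by linarith⟩
    (hD S.K S.hK (hS.mono eD) _ ⟨by linarith, by linarith⟩)
    (hD S'.K S'.hK (hS'.mono eD) _ ⟨by linarith, by linarith⟩)
  have em : ell g τ S'.K xm = ell g τ S.K xm := by simp only [ell, hom]
  have ed : ell g τ S'.K xd = ell g τ S.K xd := by simp only [ell, hod]
  have hxm' : xm ∈ Icc (1 - sa) (1 - s2) := ⟨hxm.1, by linarith [hxm.2]⟩
  have hxd' : xd ∈ Icc (1 - sa) (1 - s2) := ⟨by linarith [hxd.1], hxd.2⟩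
  have c1 := hn xm hxm'
  have c2 := hn xd hxd'
  have c3 := hn' xm hxm'
  have c4 := hn' xd hxd'
  rw [em] at c3
  rw [ed] at c4
  have lm1 := hA S.K S.hK (hS.mono eA) xm ⟨by linarith [hxm.1], by linarith [hxm.2]⟩
  have ld1 := hC S.K S.hK (hS.mono eC) xd ⟨by linarith [hxd.1], by linarith [hxd.2]⟩
  have ld2 := (g2 xd ⟨by linarith [hxd.1], by linarith [hxd.2]⟩).2.1
  have hm1 := min_le_left sl s0
  have hm2 := min_le_right sl s0
  have hy := g4 xm ⟨by linarith [hxm.1], by linarith [hxm.2]⟩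
  have hfx := hφl xm ⟨by linarith [hxm.1], hxm.2⟩
  have hmm : min (1 / 2) φ ≤ min (1 / 2) (f xm) := min_le_min le_rfl hfx
  have hgy := ht0l (oy τ S.K xm) ⟨by linarith [hy.1], by linarith [hy.2]⟩
  refine hε2' n n' xm (ell g τ S.K xm) xd (ell g τ S.K xd) (by linarith) ?_ hxm.2
    (by linarith) ld2 hxd.2 (by linarith) c1 c2 c3 c4
  simp only [ell]
  linarith

theorem margins (hf : Half f) (hg : Half g) :
    ∃ η > (0:ℝ), ∀ᶠ ε in 𝓝[>] (0:ℝ), ∀ (I : Type) (S : Sys f g ε I),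
      ∃ yL yR, Mg0 η S yL yR := by
  obtain ⟨η1, h1, e1⟩ := corner hf hg (τ := 1) (Or.inl rfl)
  obtain ⟨η2, h2, e2⟩ := corner hf hg (τ := -1) (Or.inr rfl)
  obtain ⟨η3, h3, e3⟩ := corner hf.neg hg.neg (τ := 1) (Or.inl rfl)
  obtain ⟨η4, h4, e4⟩ := corner hf.neg hg.neg (τ := -1) (Or.inr rfl)
  have hne : ¬ ((-1:ℝ) = 1) := by norm_num
  refine ⟨min (min η1 η2) (min η3 η4), lt_min (lt_min h1 h2) (lt_min h3 h4), ?_⟩
  filter_upwards [e1, e2, e3, e4] with ε a1 a2 a3 a4 I S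
  obtain ⟨p0, yL, hL⟩ := S.hK.vert 0 ⟨le_rfl, zero_le_one⟩
  obtain ⟨p1, yR, hR⟩ := S.hK.vert 1 ⟨zero_le_one, le_rfl⟩
  have mL : ((0:ℝ), yL) ∈ S.K := (hL yL).2 ⟨le_rfl, by linarith⟩
  have mR : ((1:ℝ), yR) ∈ S.K := (hR yR).2 ⟨le_rfl, by linarith⟩
  have mL' : ((1:ℝ), 1 - yL) ∈ S.neg.K := by
    rw [Sys.neg_K, mem_negP]
    simpa [negP] using mL
  have b1 : yR < 1 - η1 := by
    by_contra h
    exact a1 I S ⟨yR, mR, by simpa using not_lt.1 h⟩
  have b2 : η2 < yR := by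
    by_contra h
    exact a2 I S ⟨yR, mR, by simpa [hne] using not_lt.1 h⟩
  have b3 : 1 - yL < 1 - η3 := by
    by_contra h
    exact a3 I S.neg ⟨1 - yL, mL', by simpa using not_lt.1 h⟩
  have b4 : η4 < 1 - yL := by
    by_contra h
    exact a4 I S.neg ⟨1 - yL, mL', by simpa [hne] using not_lt.1 h⟩
  have k1 : min (min η1 η2) (min η3 η4) ≤ η1 := (min_le_left _ _).trans (min_le_left _ _)
  have k2 : min (min η1 η2) (min η3 η4) ≤ η2 := (min_le_left _ _).trans (min_le_right _ _)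
  have k3 : min (min η1 η2) (min η3 η4) ≤ η3 := (min_le_right _ _).trans (min_le_left _ _)
  have k4 : min (min η1 η2) (min η3 η4) ≤ η4 := (min_le_right _ _).trans (min_le_right _ _)
  exact ⟨yL, yR, mL, mR, ⟨by linarith, by linarith⟩, ⟨by linarith, by linarith⟩⟩

end XR
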