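import Pool.Agent.P.MP_408b1f_gt.SGA

/-! The analytic core of the corner lemma. Let Lam a b be the integral of 1 / f over [a,b].
Moderate steps (all points in [1/4, 1 - s/2]): with phi a lower bound of f there and Half.lip,
|Lam a b - eps| <= C eps^2 with C = C(s, phi). Deep steps (supergradients <= - l on [1 - sl, 1)):
for tau = 1: f t <= f a - l (t - a) (sg_exists at a), 1 / f t >= (1 / f a)(1 + l (t - a) / f a), so
Lam a b >= eps + l eps^2 / 2 when b - a >= eps f a. For tau = -1: f t >= f b + l (b - t),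
1 / (1 + y) <= 1 - y + y^2, so Lam a b <= eps - l eps^2 / 3 when b - a <= eps f b, l eps <= 1/2.
For a chain: Lam ell x lies between the sum of the steps 1, ..., n - 2 (from z 1 to z (n-1), when
n >= 2; in any case it is >= (n - 2) times the minimal step) and the sum of the steps 0, ..., n.
Let t(x) = Lam ell x; t(xm) >= t0 since f <= 1. From the eps' chains |t(xd) - t(xm)| <= C2 eps'
(n' eps' is bounded), C2 depending on s1, s2. From the eps chains with tau = 1: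
(n - 2) eps (1 + l eps / 2) <= t(xd) <= t(xm) + C2 eps' <= (n + 1) eps (1 + C1 eps) + C2 eps', and
n eps >= t0 / 2; so (t0 / 2)(l / 2 - C1) <= 6 for small eps and eps' <= eps / C2: choose l larger.
tau = -1 is symmetric with l / 3. Only C1 (depending on s1) and t0 enter the choice of l. -/

open Set MeasureTheory Filter Topology

noncomputable section

namespace XR

variable {f Λ : ℝ → ℝ} {τ ε a b : ℝ}

theorem cabs_prim (hf : Half f) : ∃ Λ : ℝ → ℝ, ∀ x ∈ Ioo (0:ℝ) 1, HasDerivAt Λ (f x)⁻¹ x := by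
  have hc : ContinuousOn (fun x => (f x)⁻¹) (Ioo 0 1) :=
    (hf.cont.mono Ioo_subset_Icc_self).inv₀ fun x hx => (hf.pos x hx).ne'
  refine ⟨fun x => ∫ t in (1 / 2 : ℝ)..x, (f t)⁻¹, fun x hx => ?_⟩
  refine intervalIntegral.integral_hasDerivAt_right (ContinuousOn.intervalIntegrable (hc.mono ?_))
    (hc.stronglyMeasurableAtFilter isOpen_Ioo x hx) (hc.continuousAt (isOpen_Ioo.mem_nhds hx))
  exact ordConnected_Ioo.uIcc_subset ⟨by norm_num, by norm_num⟩ hx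

theorem cabs_le {F F' : ℝ → ℝ} (hab : a ≤ b) (h : ∀ x ∈ Icc a b, HasDerivAt F (F' x) x)
    (h0 : ∀ x ∈ Icc a b, 0 ≤ F' x) : F a ≤ F b := by
  rcases hab.eq_or_lt with rfl | hlt
  · exact le_rfl
  obtain ⟨c, hc, e⟩ := exists_hasDerivAt_eq_slope F F' hlt
    (fun x hx => (h x hx).continuousAt.continuousWithinAt) fun x hx => h x (Ioo_subset_Icc_self hx)
  have := h0 c (Ioo_subset_Icc_self hc)
  rw [e, le_div_iff₀ (sub_pos.2 hlt)] at this
  linarith only [this]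

theorem cabs_mvt (hf : Half f) (hΛ : ∀ x ∈ Ioo (0:ℝ) 1, HasDerivAt Λ (f x)⁻¹ x) (ha : 0 < a)
    (hab : a < b) (hb : b < 1) : ∃ t ∈ Ioo a b, (Λ b - Λ a) * f t = b - a := by
  obtain ⟨c, hc, e⟩ := exists_hasDerivAt_eq_slope Λ (fun x => (f x)⁻¹) hab
    (fun x hx => (hΛ x ⟨ha.trans_le hx.1, hx.2.trans_lt hb⟩).continuousAt.continuousWithinAt)
    fun x hx => hΛ x ⟨ha.trans hx.1, hx.2.trans hb⟩
  refine ⟨c, hc, ?_⟩
  have h1 := (hf.pos c ⟨ha.trans hc.1, hc.2.trans hb⟩).ne'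
  have h2 := (sub_pos.2 hab).ne'
  field_simp at e
  linarith only [e]

theorem cabs_mod (hf : Half f) (hΛ : ∀ x ∈ Ioo (0:ℝ) 1, HasDerivAt Λ (f x)⁻¹ x) {s φ : ℝ}
    (hε : 0 < ε) (hs : 4 * ε ≤ s) (hφ : 0 < φ) (hl : ∀ x ∈ Icc s (1 - s), φ ≤ f x) (ha : s ≤ a)
    (hb : b ≤ 1 - s) (h : Step f τ ε a b) : |Λ b - Λ a - ε| ≤ 3 / (s * φ) * ε * ε := by
  obtain ⟨h1, h2, -, -, h3⟩ := h
  have s0 : 0 < s := by linarith only [hε, hs]
  obtain ⟨t, ht, e⟩ := cabs_mvt hf hΛ (s0.trans_le ha) h1 (by linarith)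
  have ht' : t ∈ Icc s (1 - s) := ⟨by linarith [ht.1], by linarith [ht.2]⟩
  have h4 := hf.lip s0 ⟨ha, by linarith⟩ ht'
  have h5 : |a - t| / s ≤ ε / s := div_le_div_of_nonneg_right
    (abs_le.2 ⟨by linarith [ht.2], by linarith [ht.1]⟩) s0.le
  have h6 : |(b - a) / ε - f t| ≤ 3 * ε / s :=
    (abs_sub_le _ (f a) _).trans ((add_le_add (h3 s hs ha hb) (h4.trans h5)).trans_eq (by ring))
  have h7 := hl t ht'
  have h8 : Λ b - Λ a - ε = ((b - a) / ε - f t) * ε / f t := by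
    rw [← e]; have := (hφ.trans_le h7).ne'; field_simp
  rw [h8, abs_div, abs_mul, abs_of_pos hε, abs_of_pos (hφ.trans_le h7)]
  calc _ ≤ 3 * ε / s * ε / φ := by gcongr
    _ = _ := by field_simp

theorem cabs_up (hf : Half f) (hΛ : ∀ x ∈ Ioo (0:ℝ) 1, HasDerivAt Λ (f x)⁻¹ x) {l : ℝ}
    (hε : 0 < ε) (hl : 0 < l) (ha : 0 < a) (hb : b < 1) (hm : ∀ m, SG f a m → m ≤ -l)
    (h : Step f 1 ε a b) : ε + l / 4 * ε * ε ≤ Λ b - Λ a := by
  obtain ⟨h1, -, h2, -⟩ := h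
  have p := hf.pos a ⟨ha, h1.trans hb⟩
  obtain ⟨m, m1⟩ := sg_exists hf.conc (x := a) ⟨ha, h1.trans hb⟩
  have h3 := cabs_le (F := fun t => Λ t - ((t - a) / f a + l / 2 * ((t - a) / f a) ^ 2))
    (F' := fun t => (f t)⁻¹ - (1 / f a + l / 2 * (2 * ((t - a) / f a) * (1 / f a)))) h1.le
    (fun x hx => by
      have d := ((hasDerivAt_id x).sub_const a).div_const (f a)
      exact (hΛ x ⟨ha.trans_le hx.1, hx.2.trans_lt hb⟩).sub
        (d.add (((d.pow 2).const_mul (l / 2)).congr_deriv (by simp))))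
    fun x hx => by
      have p' := hf.pos x ⟨ha.trans_le hx.1, hx.2.trans_lt hb⟩
      have h4 := m1 x ⟨ha.le.trans hx.1, hx.2.trans hb.le⟩
      have h5 := mul_le_mul_of_nonneg_right (hm m m1) (sub_nonneg.2 hx.1)
      have h6 := mul_nonneg hl.le (sub_nonneg.2 hx.1)
      rw [sub_nonneg, le_inv_comm₀ (by have := sub_nonneg.2 hx.1; positivity) p' |>.symm.symm,
        show 1 / f a + l / 2 * (2 * ((x - a) / f a) * (1 / f a)) = (f a + l * (x - a)) / f a ^ 2 by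
          field_simp, inv_div, le_div_iff₀ (by positivity)]
      nlinarith only [h4, h5, p, h6, mul_le_mul_of_nonneg_right (show f x ≤ f a - l * (x - a) by linarith)
        (add_nonneg p.le h6), mul_self_nonneg (l * (x - a))]
  have h4 : ε ≤ (b - a) / f a := (le_div_iff₀ p).2 (h2 rfl)
  simp only [sub_self, zero_div] at h3
  have h5 := mul_le_mul_of_nonneg_left (pow_le_pow_left₀ hε.le h4 2) hl.le
  nlinarith only [h4, h3, h5, hl, hε, mul_pos hl (mul_pos hε hε)]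

theorem cabs_down (hf : Half f) (hΛ : ∀ x ∈ Ioo (0:ℝ) 1, HasDerivAt Λ (f x)⁻¹ x) {l : ℝ}
    (hl : 0 < l) (hlε : l * ε ≤ 1) (ha : 0 < a) (hb : b < 1)
    (hm : ∀ x ∈ Icc a b, ∀ m, SG f x m → m ≤ -l) (h : Step f (-1) ε a b) :
    Λ b - Λ a ≤ ε - l / 4 * ε * ε := by
  obtain ⟨h1, -, -, h2, -⟩ := h
  have p := hf.pos b ⟨ha.trans h1, hb⟩
  have h4 : (b - a) / f b ≤ ε := (div_le_iff₀ p).2 (h2 rfl)
  have h3 := cabs_le (F := fun t => l / 4 * ((b - t) / f b) ^ 2 - (b - t) / f b - Λ t)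
    (F' := fun t => l / 4 * (2 * ((b - t) / f b) * (-1 / f b)) - -1 / f b - (f t)⁻¹) h1.le
    (fun x hx => by
      have d := ((hasDerivAt_id x).const_sub b).div_const (f b)
      exact ((((d.pow 2).const_mul (l / 4)).congr_deriv (by simp)).sub d).sub
        (hΛ x ⟨ha.trans_le hx.1, hx.2.trans_lt hb⟩))
    fun x hx => by
      have hx' : x ∈ Ioo (0:ℝ) 1 := ⟨ha.trans_le hx.1, hx.2.trans_lt hb⟩
      obtain ⟨m, m1⟩ := sg_exists hf.conc hx'
      have h5 := m1 b ⟨(ha.trans h1).le, hb.le⟩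
      have h6 := mul_le_mul_of_nonneg_right (hm x hx m m1) (sub_nonneg.2 hx.2)
      have h7 := mul_nonneg hl.le (sub_nonneg.2 hx.2)
      have h8 : l * (b - x) ≤ f b := by
        calc _ ≤ l * (ε * f b) := mul_le_mul_of_nonneg_left (by linarith [h2 rfl, hx.1]) hl.le
          _ = l * ε * f b := by ring
          _ ≤ f b := mul_le_of_le_one_left p.le hlε
      rw [sub_nonneg, show l / 4 * (2 * ((b - x) / f b) * (-1 / f b)) - -1 / f b =
        (f b - l * (b - x) / 2) / f b ^ 2 by field_simp; ring, inv_eq_one_div,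
        div_le_div_iff₀ (hf.pos x hx') (by positivity)]
      nlinarith only [h5, h6, p, h8, h7, mul_le_mul_of_nonneg_left (show f b + l * (b - x) ≤ f x by linarith)
        (show 0 ≤ f b - l * (b - x) / 2 by linarith only [p, h8]), mul_nonneg h7 (sub_nonneg.2 h8)]
  simp only [sub_self, zero_div] at h3
  have h5 : 0 ≤ (b - a) / f b := div_nonneg (sub_pos.2 h1).le p.le
  generalize (b - a) / f b = u at h3 h4 h5
  have h6 : l * u ≤ 1 := (mul_le_mul_of_nonneg_left h4 hl.le).trans hlε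
  nlinarith only [h3, h4, hlε, ha, hb, h1, h6, mul_nonneg (sub_nonneg.2 h4) (show 0 ≤ 1 - (l * ε + l * u) / 4 by linarith)]

theorem cabs_chain (hf : Half f) (hΛ : ∀ x ∈ Ioo (0:ℝ) 1, HasDerivAt Λ (f x)⁻¹ x) {n : ℕ}
    {x l : ℝ} (hc : Chain f τ ε n x l) (hε : 0 < ε) (h0 : 0 < l - ε) (h1 : x + 2 * ε < 1)
    (hlx : l ≤ x) :
    (∀ lo, 0 ≤ lo → (∀ a b, l - ε ≤ a → b ≤ x + 2 * ε → Step f τ ε a b → lo ≤ Λ b - Λ a) →
      (n - 2) * lo ≤ Λ x - Λ l) ∧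
    ∀ hi, (∀ a b, l - ε ≤ a → b ≤ x + 2 * ε → Step f τ ε a b → Λ b - Λ a ≤ hi) →
      Λ x - Λ l ≤ (n + 1) * hi := by
  obtain ⟨n1, z, hz, z1, z2, z3, z4, z5⟩ := hc
  have mono : ∀ a b, l - ε ≤ a → a ≤ b → b ≤ x + 2 * ε → Λ a ≤ Λ b := fun a b ha hab hb =>
    cabs_le hab (fun t ht => hΛ t ⟨by linarith [ht.1], by linarith [ht.2]⟩) fun t ht =>
      (inv_pos.2 (hf.pos t ⟨by linarith [ht.1], by linarith [ht.2]⟩)).le
  have zm : ∀ j i, i ≤ j → j ≤ n + 1 → z i ≤ z j := by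
    intro j i hij
    induction hij with
    | refl => exact fun _ => le_rfl
    | step _ ih => exact fun h => (ih (by omega)).trans (hz _ (by omega)).1.le
  have z0 : l - ε ≤ z 0 := by linarith [(hz 0 n.zero_le).2.1]
  have lo' : ∀ i, i ≤ n + 1 → l - ε ≤ z i := fun i hi => z0.trans (zm i 0 i.zero_le hi)
  have hi' : ∀ i, i ≤ n + 1 → z i ≤ x + 2 * ε := fun i hi => (zm _ i hi le_rfl).trans z5
  refine ⟨fun lo l0 h => ?_, fun hi h => ?_⟩
  · have key : ∀ k : ℕ, k ≤ n → k * lo ≤ Λ (z (k + 1)) - Λ (z 1) := by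
      intro k
      induction k with
      | zero => intro _; simp
      | succ k ih =>
        intro hk
        have := h _ _ (lo' (k + 1) (by omega)) (hi' (k + 1 + 1) (by omega)) (hz (k + 1) hk)
        push_cast
        linarith only [this, hk, ih (by omega)]
    rcases n1.eq_or_lt with rfl | n2
    · have := mono l x (by linarith) hlx (by linarith)
      push_cast
      linarith
    · obtain ⟨k, rfl⟩ : ∃ k, n = k + 2 := ⟨n - 2, by omega⟩
      have h2 := mono l (z 1) (by linarith only [hε]) z2 (hi' 1 (by omega))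
      have h3 := mono (z (k + 1)) x (lo' _ (by omega)) z3 (by linarith only [hε])
      push_cast
      linarith only [h2, h3, key k (by omega)]
  · have key : ∀ k : ℕ, k ≤ n + 1 → Λ (z k) - Λ (z 0) ≤ k * hi := by
      intro k
      induction k with
      | zero => intro _; simp
      | succ k ih =>
        intro hk
        have := h _ _ (lo' k (by omega)) (hi' (k + 1) hk) (hz k (by omega))
        push_cast
        linarith only [this, hk, ih (by omega)]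
    have h2 := mono (z 0) l z0 z1 (by linarith only [hε, hlx])
    have h3 := mono x (z (n + 1)) (by linarith) z4 z5
    have h4 := key (n + 1) le_rfl
    push_cast at h4
    linarith

theorem cabs_modc (hf : Half f) (hΛ : ∀ x ∈ Ioo (0:ℝ) 1, HasDerivAt Λ (f x)⁻¹ x) {n : ℕ}
    {x l s φ : ℝ} (hc : Chain f τ ε n x l) (hε : 0 < ε) (hs : 4 * ε ≤ s) (hs' : s ≤ 1 / 4)
    (hφ : 0 < φ) (hl : ∀ x ∈ Icc s (1 - s), φ ≤ f x) (hC : 3 / (s * φ) * ε ≤ 1 / 2)
    (h0 : 1 / 2 ≤ l) (h1 : x ≤ 1 - 2 * s) (hlx : l ≤ x) :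
    (n - 2) * (ε - 3 / (s * φ) * ε * ε) ≤ Λ x - Λ l ∧
      Λ x - Λ l ≤ (n + 1) * (ε + 3 / (s * φ) * ε * ε) := by
  obtain ⟨c1, c2⟩ := cabs_chain hf hΛ hc hε (by linarith only [hε, hs, hs', h0]) (by linarith only [hε, hs, h1]) hlx
  have key : ∀ a b, l - ε ≤ a → b ≤ x + 2 * ε → Step f τ ε a b →
      |Λ b - Λ a - ε| ≤ 3 / (s * φ) * ε * ε := fun a b ha hb h =>
    cabs_mod hf hΛ hε hs hφ hl (by linarith only [hε, hs, hs', h0, ha]) (by linarith only [hε, hs, h1, hb]) h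
  exact ⟨c1 _ (by nlinarith only [hε, hs, hs', hC]) fun a b ha hb h => by linarith only [ha, hb, (abs_le.1 (key a b ha hb h)).1],
    c2 _ fun a b ha hb h => by linarith only [ha, hb, (abs_le.1 (key a b ha hb h)).2]⟩

theorem cabs_close {n C T T' T0 ε ε' : ℝ} (hε : 0 < ε') (hC : 0 ≤ C) (hC' : C * ε' ≤ 1 / 2)
    (h1 : (n - 2) * (ε' - C * ε' * ε') ≤ T) (h2 : T' ≤ (n + 1) * (ε' + C * ε' * ε'))
    (h3 : (n - 2) * (ε' - C * ε' * ε') ≤ T0) (h0 : 0 ≤ T0) (h4 : (5 + 4 * C * T0) * ε' ≤ ε) :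
    T' ≤ T + ε := by
  have h5 : (n - 2) * ε' ≤ 2 * T0 := by
    by_cases h : n - 2 ≤ 0
    · nlinarith only [h0, hε, h]
    · nlinarith only [h3, h, hε, hC', mul_nonneg (mul_pos (not_le.1 h) hε).le (sub_nonneg.2 hC')]
  nlinarith only [hε, h1, h2, h4, h5, hC, hC', mul_le_mul_of_nonneg_left h5 (mul_nonneg hC hε.le),
    mul_le_mul_of_nonneg_right hC' hε.le]

theorem corner_abs {f : ℝ → ℝ} (hf : Half f) {τ : ℝ} (hτ : τ = 1 ∨ τ = -1) {s1 t0 : ℝ}
    (hs1 : 0 < s1) (ht0 : 0 < t0) :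
    ∃ sl > (0:ℝ), ∀ s2 > (0:ℝ), ∀ᶠ ε in 𝓝[>] (0:ℝ), ∀ᶠ ε' in 𝓝[>] (0:ℝ),
      ∀ (n n' : ℕ) (xm lm xd ld : ℝ), 1 / 2 ≤ lm → lm + t0 ≤ xm → xm ≤ 1 - s1 →
        1 - sl ≤ ld → ld ≤ xd → xd ≤ 1 - s2 → 1 / 2 ≤ ld →
        Chain f τ ε n xm lm → Chain f τ ε n xd ld →
        Chain f τ ε' n' xm lm → Chain f τ ε' n' xd ld → False := by
  obtain ⟨Λ, hΛ⟩ := cabs_prim hf
  obtain ⟨s, s0, sa, sb⟩ : ∃ s : ℝ, 0 < s ∧ s ≤ 1 / 4 ∧ s ≤ s1 / 2 :=
    ⟨min (1 / 4) (s1 / 2), by positivity, min_le_left _ _, min_le_right _ _⟩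
  obtain ⟨φ, hφ, hl⟩ := hf.lower s0
  obtain ⟨C, hC⟩ : ∃ C, C = 3 / (s * φ) := ⟨_, rfl⟩
  have C0 : 0 < C := by rw [hC]; positivity
  obtain ⟨l, hL⟩ : ∃ l, l = 4 * (C + 12 / t0) := ⟨_, rfl⟩
  have l0 : 0 < l := by rw [hL]; positivity
  obtain ⟨r, r0, hr⟩ := hf.steep1 l
  refine ⟨r / 2, half_pos r0, fun s2 hs2 => ?_⟩
  obtain ⟨s', s0', sa', sb'⟩ : ∃ s' : ℝ, 0 < s' ∧ s' ≤ s ∧ s' ≤ s2 / 2 :=
    ⟨min s (s2 / 2), by positivity, min_le_left _ _, min_le_right _ _⟩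
  obtain ⟨φ', hφ', hl'⟩ := hf.lower s0'
  obtain ⟨C', hC'⟩ : ∃ C', C' = 3 / (s' * φ') := ⟨_, rfl⟩
  have C0' : 0 < C' := by rw [hC']; positivity
  filter_upwards [Ioc_mem_nhdsGT (show 0 < s' / 4 by positivity),
    Ioc_mem_nhdsGT (show 0 < 1 / 2 / C by positivity), Ioc_mem_nhdsGT (show 0 < 1 / l by positivity),
    Ioc_mem_nhdsGT (half_pos r0), Ioc_mem_nhdsGT (show 0 < t0 / 6 by positivity)]
    with ε ⟨ε0, e1⟩ ⟨_, e2⟩ ⟨_, e3⟩ ⟨_, e4⟩ ⟨_, e5⟩
  filter_upwards [Ioc_mem_nhdsGT (show 0 < s' / 4 by positivity),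
    Ioc_mem_nhdsGT (show 0 < 1 / 2 / C' by positivity),
    Ioc_mem_nhdsGT (show 0 < ε / (5 + 4 * C' * (1 / φ)) by positivity)]
    with ε' ⟨ε0', f1⟩ ⟨_, f2⟩ ⟨_, f3⟩ n n' xm lm xd ld a1 a2 a3 a4 a5 a6 a7 c1 c2 c3 c4
  rw [le_div_iff₀' (by positivity)] at e2 e3 f2 f3
  obtain ⟨m1, m2⟩ := cabs_modc hf hΛ c1 ε0 (by linarith only [sa', e1]) sa hφ hl (hC ▸ e2) a1 (by linarith only [sb, a3])
    (by linarith only [ε0, e5, a2])
  obtain ⟨m3, m4⟩ := cabs_modc hf hΛ c3 ε0' (by linarith only [f1]) (sa'.trans sa) hφ' hl' (hC' ▸ f2) a1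
    (by linarith only [sb, sa', a3]) (by linarith only [ε0, e5, a2])
  obtain ⟨m5, m6⟩ := cabs_modc hf hΛ c4 ε0' (by linarith only [f1]) (sa'.trans sa) hφ' hl' (hC' ▸ f2) a7
    (by linarith only [sb', a6]) a5
  rw [← hC] at m1 m2
  rw [← hC'] at m3 m4 m5 m6
  obtain ⟨t, ht, e⟩ := cabs_mvt hf hΛ (a := lm) (b := xm) (by linarith only [sb, sa', ε0, e1, e5, a1, a2, a3]) (by linarith only [ε0, e5, a2]) (by linarith only [sb, sa', ε0, e1, a3])
  have t1 := hl t ⟨by linarith only [sb, sa', ε0, e1, e5, a1, a2, a3, ht.1], by linarith only [sb, sa', ε0, e1, a3, ht.2]⟩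
  have t2 := hf.le1 t ⟨by linarith only [sb, sa', ε0, e1, e5, a1, a2, a3, ht.1], by linarith only [sb, sa', ε0, e1, a3, ht.2]⟩
  have t3 : 0 < Λ xm - Λ lm :=
    (mul_pos_iff_of_pos_right (hφ.trans_le t1)).1 (by rw [e]; linarith only [ε0, e5, a2])
  have t4 : t0 ≤ Λ xm - Λ lm := by linarith only [a2, e, t3, t2, mul_le_of_le_one_right t3.le t2]
  have t5 : Λ xm - Λ lm ≤ 1 / φ := by
    rw [le_div_iff₀ hφ]
    linarith only [sb, sa', ε0, e1, e5, a1, a2, a3, e, t1, t3, mul_le_mul_of_nonneg_left t1 t3.le]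
  have k1 := cabs_close ε0' C0'.le f2 m3 m6 (m3.trans t5) (by positivity) f3
  have k2 := cabs_close ε0' C0'.le f2 m5 m4 (m3.trans t5) (by positivity) f3
  have n0 : (0:ℝ) ≤ n := n.cast_nonneg
  have k3 : t0 / 2 ≤ n * ε := by
    linarith only [e5, m2, t4, e2, ε0, mul_le_mul_of_nonneg_left e2 (show 0 ≤ (n + 1) * ε by positivity)]
  have k4 : 6 ≤ n * ε * (l / 4 - C) := by
    rw [show l / 4 - C = 12 / t0 by rw [hL]; ring]
    calc (6:ℝ) = t0 / 2 * (12 / t0) := by field_simp; norm_num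
      _ ≤ _ := by gcongr
  obtain ⟨d1, d2⟩ := cabs_chain hf hΛ c2 ε0 (by linarith only [sb, sa', ε0, e1, e5, a1, a2, a3, a7]) (by linarith only [sb', ε0, e1, a6]) a5
  rcases hτ with rfl | rfl
  · have h := d1 (ε + l / 4 * ε * ε) (by positivity) fun a b ha hb h =>
      cabs_up hf hΛ ε0 l0 (by linarith only [sb, sa', ε0, e1, e5, a1, a2, a3, a7, ha]) (by linarith only [sb', ε0, e1, a6, hb])
        (hr a ⟨by linarith only [sb', ε0, e1, a4, a5, a6, ha], by linarith only [sb', ε0, e1, a6, hb, h.1]⟩ (by linarith only [sb, sa', ε0, e1, e5, a1, a2, a3, a7, ha])) h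
    linarith only [ε0, m2, k1, h, k4, e2, e3, mul_le_mul_of_nonneg_left k4 ε0.le, mul_le_mul_of_nonneg_left e2 ε0.le,
      mul_le_mul_of_nonneg_left e3 ε0.le]
  · have h := d2 (ε - l / 4 * ε * ε) fun a b ha hb h =>
      cabs_down hf hΛ l0 e3 (by linarith only [sb, sa', ε0, e1, e5, a1, a2, a3, a7, ha]) (by linarith only [sb', ε0, e1, a6, hb])
        (fun x hx => hr x ⟨by linarith only [sb', ε0, e1, a4, a5, a6, ha, hx.1], by linarith only [sb', ε0, e1, a6, hb, hx.2]⟩ (by linarith only [sb, sa', ε0, e1, e5, a1, a2, a3, a7, ha, hx.1])) h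
    linarith only [ε0, m1, k2, h, k4, C0, l0, mul_le_mul_of_nonneg_left k4 ε0.le, mul_pos C0 (mul_pos ε0 ε0),
      mul_pos l0 (mul_pos ε0 ε0)]

end XR
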