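import Pool.Agent.P.MP_408b1f_gt.FamA

/-! Two basic lemmas on pairs with a common oblique X-ray.

common_chord (D). Let k, l be the top functions (F1.top), delta = k - l = difference of the bottom
functions too (Fam.top_eq). Suppose delta has no zero on J = [x1, x1 + eps]; it is continuous, so
WLOG (swap K, L) delta > 0 on J. Omega = {x > x1, w < x1} = {x > x1, y > tau x},
tau x = (x - x1) / eps. Since 0 <= y on K: K ∩ {w < x1} is K ∩ {x <= x1} (up to the null line
x = x1, in fact x < x1 and y >= 0 give w < x1) plus K ∩ Omega, so vol (K ∩ Omega) =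
vol (L ∩ Omega) (SameX.vol_inter in F3 eps and F1). The slice of K ∩ Omega above x in J has length
max 0 (min (f x) (k x - tau x)) (empty for x > x1 + eps since y <= 1), which is >= the one of L,
with strict inequality near a point x* of the open interval where
tau x* = (bot L x* + top K x*) / 2 (intermediate value theorem: at x1 tau = 0 < midpoint, at
x1 + eps tau = 1 > midpoint). Contradiction (continuous nonnegative difference with zero integral).

eq_of_slab (P). Let x2 be maximal such that K, L agree over [x1, x2] (closed condition by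
continuity of top, bot); suppose x2 < 1. P2 = (x2, k x2). By concavity of k, range in [0,1] and
x2 - x1 > eps, the point m = P2 - t0 (eps,1) is interior to K for small t0 > 0 with abscissa in
(x1,x2), hence a small ball around m lies in K ∩ L ∩ slab. For x slightly right of x2 the line
through P = (x, k x) in direction (eps,1) meets this ball in m'. Points of K or L on that line below
m' have abscissa >= x - eps > x1, so the lower ends of the two chords agree; the chords have the
same length (SameX.frame for F3 eps) so the upper ends agree; the upper end for K is P (P is not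
interior). So P ∈ L, P not interior to L (upper end), so P is top or bottom of L over x; bottom is
impossible since delta is small and f x2 > 0. So delta = 0 a bit further: contradiction. The left
side follows from the right side applied to negP images (Fam.neg, SameX.image). -/

open Set MeasureTheory Filter Topology

noncomputable section

namespace XR

variable {f g : ℝ → ℝ} {K L : Set V} {ε : ℝ}

theorem dp_slice (hK : Fam f g K) (hε : 0 < ε) (x1 : ℝ) {x : ℝ} (hx : x ∈ Icc (0:ℝ) 1) :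
    volume (Prod.mk x ⁻¹' (K ∩ (F3 ε).lev ⁻¹' Iio x1)) =
      ENNReal.ofReal (F1.top K x - max (F1.bot K x) ((x - x1) / ε)) := by
  have e : Prod.mk x ⁻¹' (K ∩ (F3 ε).lev ⁻¹' Iio x1)
      = Icc (F1.bot K x) (F1.top K x) ∩ Ioi ((x - x1) / ε) := by
    ext t
    simp only [mem_preimage, mem_inter_iff, hK.mem_iff hx, F3_lev, w, mem_Iio, mem_Icc, mem_Ioi,
      div_lt_iff₀ hε]
    exact and_congr Iff.rfl ⟨fun h => by linarith, fun h => by linarith⟩
  rw [e, measure_congr ((Ioc_ae_eq_Icc (μ := volume)).symm.inter (ae_eq_refl _)), Ioc_inter_Ioi,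
    Real.volume_Ioc]

theorem dp_pos (hK : Fam f g K) (hL : Fam f g L) (hε : 0 < ε) (h : SameX (ε, 1) K L)
    {x1 : ℝ} (h0 : 0 ≤ x1) (h1 : x1 + ε ≤ 1)
    (hδ : ∀ x ∈ Icc x1 (x1 + ε), F1.top L x < F1.top K x) : False := by
  have hm : ∀ {M : Set V}, Body M → MeasurableSet (M ∩ (F3 ε).lev ⁻¹' Iio x1) := fun hM =>
    hM.comp.measurableSet.inter ((F3 ε).continuous_lev.measurable measurableSet_Iio)
  have hv := SameX.vol_inter (F := F3 ε) h hK.body hL.body (S := Iio x1) measurableSet_Iio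
  have hfin : volume (L ∩ (F3 ε).lev ⁻¹' Iio x1) ≠ ⊤ :=
    ((measure_mono inter_subset_left).trans_lt hL.body.comp.measure_lt_top).ne
  rw [Measure.volume_eq_prod, Measure.prod_apply (hm hL.body)] at hfin
  rw [Measure.volume_eq_prod, Measure.prod_apply (hm hK.body), Measure.prod_apply (hm hL.body)]
    at hv
  have hJ : ∀ x ∈ Icc x1 (x1 + ε), x ∈ Icc (0:ℝ) 1 := fun x hx =>
    ⟨h0.trans hx.1, hx.2.trans h1⟩
  have cK : ContinuousOn (F1.top K) (Icc 0 1) := by
    have := F1.continuousOn_top hK.body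
    rwa [hK.F1_lo, hK.F1_hi] at this
  have cL : ContinuousOn (F1.bot L) (Icc 0 1) := by
    have := F1.continuousOn_bot hL.body
    rwa [hL.F1_lo, hL.F1_hi] at this
  have hbl : ∀ x ∈ Icc (0:ℝ) 1, F1.bot L x ≤ F1.top L x := fun x hx => by
    rw [hL.top_eq hx]; linarith [(hL.vert x hx).1]
  refine (lintegral_strict_mono_of_ae_le_of_frequently_ae_lt
    (measurable_measure_prodMk_left (hm hK.body)).aemeasurable hfin
    (Eventually.of_forall fun x => ?_) ?_).ne hv.symm
  · rcases lt_or_ge x x1 with hx | hx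
    · have e : ∀ {M : Set V}, Fam f g M → volume (Prod.mk x ⁻¹' (M ∩ (F3 ε).lev ⁻¹' Iio x1))
          = xray M (0, 1) (x, 0) := by
        intro M hM
        rw [xray]
        refine congrArg volume (Set.ext fun t => ?_)
        simp only [mem_preimage, mem_inter_iff, F3_lev, w, mem_Iio, mem_ofPred_eq, Prod.smul_mk,
          smul_eq_mul, mul_zero, mul_one, Prod.mk_add_mk, add_zero, zero_add]
        refine and_iff_left_of_imp fun ht => ?_
        have := mul_nonneg hε.le (hM.box _ ht).2.2.1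
        linarith
      change volume _ ≤ volume _
      rw [e hK, e hL, hK.sameX1 hL]
    rcases lt_or_ge (x1 + ε) x with hx' | hx'
    · have e : Prod.mk x ⁻¹' (L ∩ (F3 ε).lev ⁻¹' Iio x1) = ∅ := by
        refine eq_empty_of_forall_notMem fun t ht => ?_
        have h2 : x - ε * t < x1 := by simpa [w] using ht.2
        have := mul_le_mul_of_nonneg_left (hL.box _ ht.1).2.2.2 hε.le
        linarith
      change volume _ ≤ volume _
      rw [e, measure_empty]
      exact bot_le
    · have hxI := hJ x ⟨hx, hx'⟩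
      change volume _ ≤ volume _
      rw [dp_slice hK hε x1 hxI, dp_slice hL hε x1 hxI]
      refine ENNReal.ofReal_le_ofReal ?_
      have e1 := hK.top_eq hxI
      have e2 := hL.top_eq hxI
      have e3 := hδ x ⟨hx, hx'⟩
      have := le_max_left (F1.bot L x) ((x - x1) / ε)
      have := le_max_right (F1.bot L x) ((x - x1) / ε)
      rcases max_cases (F1.bot K x) ((x - x1) / ε) with h3 | h3 <;> linarith [h3.1]
  · have hle : x1 ≤ x1 + ε := by linarith
    have cψ : ContinuousOn (fun x => (x - x1) / ε - (F1.bot L x + F1.top K x) / 2)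
        (Icc x1 (x1 + ε)) :=
      (Continuous.continuousOn (by fun_prop)).sub (((cL.add cK).mono hJ).div_const 2)
    obtain ⟨z, hz, hz0⟩ := intermediate_value_Ioo hle cψ (show (0:ℝ) ∈ _ from by
      have a1 := hδ x1 ⟨le_rfl, hle⟩
      have a2 := hδ _ ⟨hle, le_rfl⟩
      have a3 := hbl _ (hJ x1 ⟨le_rfl, hle⟩)
      have a4 := hbl _ (hJ _ ⟨hle, le_rfl⟩)
      have a5 := hL.bot_nonneg (hJ x1 ⟨le_rfl, hle⟩)
      have a6 := hK.top_le_one (hJ _ ⟨hle, le_rfl⟩)
      constructor
      · simp only [sub_self, zero_div]; linarith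
      · simp only [add_sub_cancel_left, div_self hε.ne']; linarith)
    have hzI : Icc (0:ℝ) 1 ∈ 𝓝 z := Icc_mem_nhds (h0.trans_lt hz.1) (hz.2.trans_le h1)
    have b1 := hδ z (Ioo_subset_Icc_self hz)
    have b2 := hbl z (hJ z (Ioo_subset_Icc_self hz))
    have cτ : ContinuousAt (fun x => (x - x1) / ε) z := by fun_prop
    simp only at hz0
    have u1 : ∀ᶠ x in 𝓝 z, F1.bot L x < (x - x1) / ε :=
      (cL.continuousAt hzI).eventually_lt cτ (by linarith)
    have u2 : ∀ᶠ x in 𝓝 z, (x - x1) / ε < F1.top K x :=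
      cτ.eventually_lt (cK.continuousAt hzI) (by linarith)
    have u3 : ∀ᶠ x in 𝓝 z, x ∈ Ioo x1 (x1 + ε) := Ioo_mem_nhds hz.1 hz.2
    refine frequently_ae_iff.2 (Measure.measure_pos_of_mem_nhds volume
      (((u1.and u2).and u3).mono fun x hx => ?_)).ne'
    obtain ⟨⟨c1, c2⟩, c3⟩ := hx
    have hxI := hJ x (Ioo_subset_Icc_self c3)
    have e1 := hK.top_eq hxI
    have e2 := hL.top_eq hxI
    have e3 := hδ x (Ioo_subset_Icc_self c3)
    have e4 := hK.pos x ⟨h0.trans_lt c3.1, c3.2.trans_le h1⟩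
    refine ne_of_lt ?_
    rw [dp_slice hK hε x1 hxI, dp_slice hL hε x1 hxI, max_eq_right c1.le,
      ENNReal.ofReal_lt_ofReal_iff]
    · rcases max_cases (F1.bot K x) ((x - x1) / ε) with h3 | h3 <;> linarith [h3.1]
    · rcases max_cases (F1.bot K x) ((x - x1) / ε) with h3 | h3 <;> linarith [h3.1]

theorem common_chord (hK : Fam f g K) (hL : Fam f g L) (hε : 0 < ε) (h : SameX (ε, 1) K L)
    {x1 : ℝ} (h0 : 0 ≤ x1) (h1 : x1 + ε ≤ 1) :
    ∃ x ∈ Icc x1 (x1 + ε), F1.top K x = F1.top L x := by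
  by_contra hc
  push Not at hc
  have hle : x1 ≤ x1 + ε := by linarith
  have hJ : Icc x1 (x1 + ε) ⊆ Icc (0:ℝ) 1 := Icc_subset_Icc h0 h1
  have c : ∀ {M : Set V}, Fam f g M → ContinuousOn (F1.top M) (Icc x1 (x1 + ε)) := by
    intro M hM
    have := F1.continuousOn_top hM.body
    rw [hM.F1_lo, hM.F1_hi] at this
    exact this.mono hJ
  have key : ∀ a ∈ Icc x1 (x1 + ε), ∀ b ∈ Icc x1 (x1 + ε), F1.top K a ≤ F1.top L a →
      F1.top L b ≤ F1.top K b → False := fun a ha b hb h2 h3 => by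
    obtain ⟨z, hz, e⟩ := isPreconnected_Icc.intermediate_value₂ ha hb (c hK) (c hL) h2 h3
    exact hc z hz e
  rcases le_total (F1.top K x1) (F1.top L x1) with h2 | h2
  · exact dp_pos hL hK hε h.symm h0 h1 fun x hx => not_le.1 (key _ ⟨le_rfl, hle⟩ x hx h2)
  · exact dp_pos hK hL hε h h0 h1 fun x hx => not_le.1 fun h3 => key x hx _ ⟨le_rfl, hle⟩ h3 h2

/-- the two sets agree over the interval -/
def DpAgree (a b : ℝ) (K L : Set V) : Prop := ∀ p : V, p.1 ∈ Icc a b → (p ∈ K ↔ p ∈ L)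

theorem dp_agree (hK : Fam f g K) (hL : Fam f g L) {a b : ℝ} (h0 : 0 ≤ a) (h1 : b ≤ 1)
    (heq : ∀ x ∈ Icc a b, F1.top K x = F1.top L x) : DpAgree a b K L := by
  rintro ⟨x, y⟩ hx
  have hxI : x ∈ Icc (0:ℝ) 1 := ⟨h0.trans hx.1, hx.2.trans h1⟩
  have e1 := hK.top_eq hxI
  have e2 := hL.top_eq hxI
  have e3 := heq x hx
  rw [hK.mem_iff hxI, hL.mem_iff hxI, e3, show F1.bot K x = F1.bot L x by linarith]

theorem DpAgree.top {a b : ℝ} (h : DpAgree a b K L) {x : ℝ} (hx : x ∈ Icc a b) :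
    F1.top K x = F1.top L x := by
  rw [Frame.top, Frame.top]
  exact congrArg sSup (Set.ext fun t => h _ (by simpa using hx))

theorem dp_level (hK : Fam f g K) (hL : Fam f g L) (hε : 0 < ε) (h : SameX (ε, 1) K L)
    {a b : ℝ} (hA : DpAgree a b K L) {q p : V} (hq : q ∈ K) (hqb : q.1 ≤ b) (ha : a ≤ w ε q)
    (hp : w ε p = w ε q) : p ∈ K ↔ p ∈ L := by
  obtain ⟨e1, e2, e3⟩ := SameX.frame (F := F3 ε) h hK.body hL.body
  obtain ⟨hs, q1, -⟩ := ((F3 ε).mem_iff hK.body q).1 hq
  rw [F3_lev] at hs q1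
  rw [F3_hgt] at q1
  have hs' : w ε q ∈ Icc ((F3 ε).lo L) ((F3 ε).hi L) := e1 ▸ e2 ▸ hs
  have hin : ∀ t, 0 ≤ t → t ≤ q.2 → ((F3 ε).pt (w ε q) t ∈ K ↔ (F3 ε).pt (w ε q) t ∈ L) := by
    intro t t0 t1
    refine hA _ ?_
    have := mul_nonneg t0 hε.le
    have := mul_le_mul_of_nonneg_right t1 hε.le
    simp only [F3_pt, mem_Icc]
    constructor
    · linarith
    · simp only [w]; linarith
  have mK := ((F3 ε).pt_mem_iff hK.body hs _).2 ⟨le_rfl, (F3 ε).bot_le_top hK.body hs⟩
  have mL := ((F3 ε).pt_mem_iff hL.body hs' _).2 ⟨le_rfl, (F3 ε).bot_le_top hL.body hs'⟩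
  have nK : 0 ≤ (F3 ε).bot K (w ε q) := by simpa using (hK.box _ mK).2.2.1
  have nL : 0 ≤ (F3 ε).bot L (w ε q) := by simpa using (hL.box _ mL).2.2.1
  have l1 := (((F3 ε).pt_mem_iff hL.body hs' _).1 ((hin _ nK q1).1 mK)).1
  have l2 := (((F3 ε).pt_mem_iff hK.body hs _).1 ((hin _ nL (l1.trans q1)).2 mL)).1
  have e4 := e3 _ hs
  rw [Frame.len, Frame.len] at e4
  rw [(F3 ε).mem_iff hK.body, (F3 ε).mem_iff hL.body, F3_lev, hp, e1, e2, le_antisymm l2 l1,
    show (F3 ε).top K (w ε q) = (F3 ε).top L (w ε q) by linarith]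

theorem dp_step (hK : Fam f g K) (hL : Fam f g L) (hε : 0 < ε) (h : SameX (ε, 1) K L)
    {a b : ℝ} (h0 : 0 ≤ a) (h1 : b < 1) (hlen : ε < b - a) (hA : DpAgree a b K L) :
    ∀ᶠ x in 𝓝 b, F1.top K x = F1.top L x := by
  have hab : a ≤ b := by linarith
  have hb0 : 0 < b := by linarith
  have hJ : Icc a b ⊆ Icc (0:ℝ) 1 := Icc_subset_Icc h0 h1.le
  have hI : Icc (0:ℝ) 1 ∈ 𝓝 b := Icc_mem_nhds hb0 h1
  have hbI : b ∈ Icc (0:ℝ) 1 := ⟨hb0.le, h1.le⟩
  have cK : ContinuousOn (F1.bot K) (Icc 0 1) := by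
    have := F1.continuousOn_bot hK.body
    rwa [hK.F1_lo, hK.F1_hi] at this
  have strip : ∀ p : V, a ≤ w ε p → w ε p ≤ b - ε * F1.bot K b → (p ∈ K ↔ p ∈ L) := by
    intro p p1 p2
    have c : ContinuousOn (fun x => x - ε * F1.bot K x) (Icc a b) :=
      continuousOn_id.sub (continuousOn_const.mul (cK.mono hJ))
    obtain ⟨z, hz, e⟩ := intermediate_value_Icc hab c (show w ε p ∈ _ from ⟨by
      have := mul_nonneg hε.le (hK.bot_nonneg (hJ ⟨le_rfl, hab⟩))
      linarith, p2⟩)
    have hzK : (z, F1.bot K z) ∈ K := (hK.mem_iff (hJ hz) _).2 ⟨le_rfl, by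
      rw [hK.top_eq (hJ hz)]; linarith [(hK.vert z (hJ hz)).1]⟩
    exact dp_level hK hL hε h hA hzK hz.2 (p1.trans e.ge) e.symm
  have near : ∀ {M : Set V}, Fam f g M → F1.top M b = F1.top K b →
      ∀ᶠ x in 𝓝 b, (x, F1.top M x) ∈ M ∧ ((x, F1.top M x) ∈ K ↔ (x, F1.top M x) ∈ L) := by
    intro M hM e
    have cM : ContinuousAt (fun x => x - ε * F1.top M x) b := by
      have := F1.continuousOn_top hM.body
      rw [hM.F1_lo, hM.F1_hi] at this
      exact continuousAt_id.sub (continuousAt_const.mul (this.continuousAt hI))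
    have t1 := mul_le_mul_of_nonneg_left (hK.top_le_one hbI) hε.le
    have t2 := mul_pos hε (hK.pos b ⟨hb0, h1⟩)
    have t3 := hK.top_eq hbI
    have u1 := continuousAt_const.eventually_lt cM (show a < b - ε * F1.top M b by
      rw [e]; linarith)
    have u2 := cM.eventually_lt continuousAt_const
      (show b - ε * F1.top M b < b - ε * F1.bot K b by rw [e, t3]; linarith)
    filter_upwards [u1, u2, hI] with x x1 x2 x3
    exact ⟨(hM.mem_iff x3 _).2 ⟨by rw [hM.top_eq x3]; linarith [(hM.vert x x3).1], le_rfl⟩,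
      strip _ x1.le x2.le⟩
  filter_upwards [near hK rfl, near hL (hA.top ⟨hab, le_rfl⟩).symm, hI] with x x1 x2 x3
  exact le_antisymm ((hL.mem_iff x3 _).1 (x1.2.1 x1.1)).2 ((hK.mem_iff x3 _).1 (x2.2.2 x2.1)).2

theorem dp_right (hK : Fam f g K) (hL : Fam f g L) (hε : 0 < ε) (h : SameX (ε, 1) K L)
    {a b : ℝ} (h0 : 0 ≤ a) (hlen : ε < b - a) (hA : DpAgree a b K L) :
    DpAgree b 1 K L := by
  have hab : a ≤ b := by linarith
  have c : ∀ {M : Set V}, Fam f g M → ContinuousOn (F1.top M) (Icc b 1) := by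
    intro M hM
    have := F1.continuousOn_top hM.body
    rw [hM.F1_lo, hM.F1_hi] at this
    exact this.mono (Icc_subset_Icc (h0.trans hab) le_rfl)
  have hcl : IsClosed ({x | F1.top K x = F1.top L x} ∩ Icc b 1) := by
    rw [inter_comm]
    exact isClosed_Icc.isClosed_eq (c hK) (c hL)
  refine dp_agree hK hL (h0.trans hab) le_rfl fun x hx =>
    hcl.Icc_subset_of_forall_mem_nhdsGT_of_Icc_subset (hA.top ⟨hab, le_rfl⟩) (fun t ht hs => ?_) hx
  refine mem_nhdsWithin_of_mem_nhds (dp_step hK hL hε h h0 ht.2 (by linarith [ht.1])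
    (dp_agree hK hL h0 ht.2.le fun y hy => ?_))
  rcases le_total y b with h2 | h2
  · exact hA.top ⟨hy.1, h2⟩
  · exact hs ⟨h2, hy.2⟩

theorem dp_neg_mem (M : Set V) (p : V) : p ∈ negP '' M ↔ negP p ∈ M := by
  have inv : Function.Involutive negP := fun q => by simp [negP]
  rw [inv.image_eq_preimage_symm, mem_preimage]

theorem eq_of_slab (hK : Fam f g K) (hL : Fam f g L) (hε : 0 < ε) (h : SameX (ε, 1) K L)
    {x1 x2 : ℝ} (h0 : 0 ≤ x1) (h1 : x2 ≤ 1) (hlen : ε < x2 - x1)
    (heq : ∀ x ∈ Icc x1 x2, F1.top K x = F1.top L x) : K = L := by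
  by_contra hne
  have hA := dp_agree hK hL h0 h1 heq
  have hR := dp_right hK hL hε h h0 hlen hA
  have hB := (BadPair.mk hK hL hne h).neg
  have hL' := dp_right hB.hK hB.hL hε hB.same (a := 1 - x2) (b := 1 - x1) (by linarith)
    (by linarith) fun p hp => by
      rw [dp_neg_mem, dp_neg_mem]
      exact hA _ ⟨by simp only [negP]; linarith [hp.2], by simp only [negP]; linarith [hp.1]⟩
  have all : DpAgree 0 1 K L := fun p hp => by
    rcases le_total p.1 x1 with h2 | h2
    · have := hL' (negP p) ⟨by simp only [negP]; linarith, by simp only [negP]; linarith [hp.1]⟩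
      simpa [dp_neg_mem, negP] using this
    rcases le_total p.1 x2 with h3 | h3
    · exact hA p ⟨h2, h3⟩
    · exact hR p ⟨h3, hp.2⟩
  exact hne (Set.ext fun p => ⟨fun hp => (all p ⟨(hK.box p hp).1, (hK.box p hp).2.1⟩).1 hp,
    fun hp => (all p ⟨(hL.box p hp).1, (hL.box p hp).2.1⟩).2 hp⟩)

end XR
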