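import Mathlib

/-! Definitions for the three X-ray theorem (successive determination of planar convex bodies). -/

open Set MeasureTheory Filter Topology

noncomputable section

namespace XR

abbrev V := ℝ × ℝ

def det (p q : V) : ℝ := p.1 * q.2 - p.2 * q.1
def dot (α p : V) : ℝ := α.1 * p.1 + α.2 * p.2
def det3 (P Q R : V) : ℝ := det (Q - P) (R - P)
/-- the level functional of the direction `(ε,1)` -/
def w (ε : ℝ) (p : V) : ℝ := p.1 - ε * p.2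

structure Body (K : Set V) : Prop where
  conv : Convex ℝ K
  comp : IsCompact K
  int : (interior K).Nonempty

def xray (K : Set V) (d p : V) : ENNReal := volume {t : ℝ | p + t • d ∈ K}
def SameX (d : V) (K L : Set V) : Prop := ∀ p, xray K d p = xray L d p

/-- `K` is a body touching the four sides of the unit box, with vertical X-ray `f` and
horizontal X-ray `g`. -/
structure Fam (f g : ℝ → ℝ) (K : Set V) : Prop where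
  body : Body K
  box : ∀ p ∈ K, 0 ≤ p.1 ∧ p.1 ≤ 1 ∧ 0 ≤ p.2 ∧ p.2 ≤ 1
  vert : ∀ x ∈ Icc (0:ℝ) 1, 0 ≤ f x ∧ ∃ y, ∀ y', (x, y') ∈ K ↔ y ≤ y' ∧ y' ≤ y + f x
  hor : ∀ y ∈ Icc (0:ℝ) 1, 0 ≤ g y ∧ ∃ x, ∀ x', (x', y) ∈ K ↔ x ≤ x' ∧ x' ≤ x + g y

structure BadPair (f g : ℝ → ℝ) (ε : ℝ) (K L : Set V) : Prop where
  hK : Fam f g K
  hL : Fam f g L
  ne : K ≠ L
  same : SameX (ε, 1) K L

def AllBad (f g : ℝ → ℝ) : Prop :=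
  ∀ d : V, d ≠ 0 → ∃ K L, Fam f g K ∧ Fam f g L ∧ K ≠ L ∧ SameX d K L

/-- `m` is a supergradient of `f` at `x` on `[a,b]` -/
def SGon (f : ℝ → ℝ) (a b x m : ℝ) : Prop := ∀ x' ∈ Icc a b, f x' ≤ f x + m * (x' - x)
def SG (f : ℝ → ℝ) (x m : ℝ) : Prop := SGon f 0 1 x m

/-- standing properties of an X-ray function -/
structure Half (f : ℝ → ℝ) : Prop where
  conc : ConcaveOn ℝ (Icc 0 1) f
  cont : ContinuousOn f (Icc 0 1)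
  pos : ∀ x ∈ Ioo (0:ℝ) 1, 0 < f x
  zero0 : f 0 = 0
  zero1 : f 1 = 0
  le1 : ∀ x ∈ Icc (0:ℝ) 1, f x ≤ 1
  uniq : ∀ x ∈ Icc (0:ℝ) 1, ∀ x' ∈ Icc (0:ℝ) 1,
    IsMaxOn f (Icc 0 1) x → IsMaxOn f (Icc 0 1) x' → x = x'
  steep0 : ∀ l : ℝ, ∃ s > 0, ∀ x ∈ Ioc (0:ℝ) s, x < 1 → ∀ m, SG f x m → l ≤ m
  steep1 : ∀ l : ℝ, ∃ s > 0, ∀ x ∈ Ico (1 - s) (1:ℝ), 0 < x → ∀ m, SG f x m → m ≤ -l

/-- point reflection in the centre of the unit box -/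
def negP (p : V) : V := (1 - p.1, 1 - p.2)
def negF (f : ℝ → ℝ) : ℝ → ℝ := fun x => f (1 - x)

/-! ### Frames -/

structure Frame where
  e : V
  d : V
  o : ℝ
  ho : o = 1 ∨ o = -1
  hdet : det e d = o

namespace Frame

def lev (F : Frame) (p : V) : ℝ := F.o * det p F.d
def hgt (F : Frame) (p : V) : ℝ := F.o * det F.e p
def pt (F : Frame) (s t : ℝ) : V := s • F.e + t • F.d
def top (F : Frame) (K : Set V) (s : ℝ) : ℝ := sSup {t | F.pt s t ∈ K}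
def bot (F : Frame) (K : Set V) (s : ℝ) : ℝ := sInf {t | F.pt s t ∈ K}
def lo (F : Frame) (K : Set V) : ℝ := sInf (F.lev '' K)
def hi (F : Frame) (K : Set V) : ℝ := sSup (F.lev '' K)
def len (F : Frame) (K : Set V) (s : ℝ) : ℝ := F.top K s - F.bot K s

def neg (F : Frame) : Frame where
  e := -F.e
  d := -F.d
  o := F.o
  ho := F.ho
  hdet := by have := F.hdet; simp only [det, Prod.fst_neg, Prod.snd_neg] at this ⊢; linarith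

def flip (F : Frame) : Frame where
  e := F.e
  d := -F.d
  o := -F.o
  ho := by rcases F.ho with h | h <;> simp [h]
  hdet := by have := F.hdet; simp only [det, Prod.fst_neg, Prod.snd_neg] at this ⊢; linarith

end Frame

def F1 : Frame := ⟨(1, 0), (0, 1), 1, Or.inl rfl, by simp [det]⟩
def F2 : Frame := ⟨(0, 1), (-1, 0), 1, Or.inl rfl, by simp [det]⟩
def F3 (ε : ℝ) : Frame := ⟨(1, 0), (ε, 1), 1, Or.inl rfl, by simp [det]⟩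

/-! ### Tangents -/

/-- `τ` spans the one-sided tangent ray of `K` at `p`; `o = 1` clockwise, `o = -1` anticlockwise -/
structure IsTan (o : ℝ) (K : Set V) (p τ : V) : Prop where
  ne : τ ≠ 0
  supp : ∀ X ∈ K, o * det τ (X - p) ≤ 0
  dual : ∀ α : V, (∀ X ∈ K, dot α (X - p) ≤ 0) → dot α τ ≤ 0

def Smooth (K : Set V) (p : V) : Prop :=
  ∃ τ : V, τ ≠ 0 ∧ ∀ α : V, (∀ X ∈ K, dot α (X - p) ≤ 0) → dot α τ = 0

/-! ### Potential and flags -/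

def Hl (P Q : V) : Set V := {X | 0 < det3 P Q X}
def cap (K : Set V) (P Q : V) : ℝ := (volume (K ∩ Hl P Q)).toReal
def pot (K L : Set V) (P Q : V) : ℝ := cap K P Q - cap L P Q
def Zs (K L : Set V) : Set V := {p | p ∈ K ∧ p ∈ L ∧ p ∉ interior K ∧ p ∉ interior L}

structure Pr (K L : Set V) : Prop where
  bK : Body K
  bL : Body L
  int : (interior (K ∩ L)).Nonempty
  vol : volume K = volume L

def Zmax (K L : Set V) : Set V := {P | P ∈ Zs K L ∧ ∀ Q ∈ Zs K L, 0 ≤ pot K L Q P}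
def Zmin (K L : Set V) : Set V := {P | P ∈ Zs K L ∧ ∀ Q ∈ Zs K L, 0 ≤ pot K L P Q}
def Osc (K L : Set V) : Prop := ∃ P ∈ Zs K L, ∃ Q ∈ Zs K L, pot K L P Q ≠ 0
/-- start flags (`o = 1`) and end flags (`o = -1`) -/
def IsFlag (o : ℝ) (K L : Set V) (p : V) : Prop :=
  p ∈ Zmax K L ∧ ∃ Q ∈ Zmin K L, ∀ X ∈ Zmax K L, o * det3 p Q X ≤ 0

/-- reflection of `p` in the chord of `M` through `p` in direction `d` -/
def sm (M : Set V) (d p : V) : V :=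
  p + (sSup {t : ℝ | p + t • d ∈ M} + sInf {t : ℝ | p + t • d ∈ M}) • d

/-- the level of `z` lies strictly inside the range of `a` on `M` -/
def Inner (M : Set V) (a : V → ℝ) (z : V) : Prop := (∃ p ∈ M, a p < a z) ∧ ∃ p ∈ M, a z < a p

structure Pre (K L : Set V) (ε : ℝ) where
  I : Type
  fin : Finite I
  ne : Nonempty I
  R : Equiv.Perm I
  T : Equiv.Perm I
  comm : ∀ i, R (T i) = T (R i)
  trans : ∀ i j, ∃ m n : ℕ, j = (R ^ m) ((T ^ n) i)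
  P : I → V
  O : I → V
  inj : Function.Injective P
  flag : ∀ i, IsFlag 1 K L (P i)
  e1 : ∀ i, O i = sm (K ∩ L) (0, 1) (P i)
  e2 : ∀ i, P (T i) = sm (K ∩ L) (-1, 0) (O i)
  e3 : ∀ i, P (R i) = sm (K ∩ L) (ε, 1) (O i)

attribute [instance] Pre.fin Pre.ne

/-- genuine edge without the norm equality -/
structure Gen0 (a b : V → ℝ) (d z z' u v u' v' : V) (t len m : ℝ) : Prop where
  ht : t = 1 ∨ t = -1
  hlen : 0 < len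
  hz : z = z' + (t * len) • d
  hu : 0 < t * a u
  hv : 0 < t * a v
  hu' : 0 < t * a u'
  hv' : 0 < t * a v'
  su : b u / a u - b u' / a u' = t * m
  sv : b v / a v - b v' / a v' = t * m

/-- genuine edge between the start flag `z` (tangents `u, v`) and the end flag `z'` -/
structure Gen (a b : V → ℝ) (d z z' u v u' v' : V) (t len m : ℝ) : Prop
    extends Gen0 a b d z z' u v u' v' t len m where
  hn : a u * a v = a u' * a v'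

def Nrm (u v : V) : Prop := u = v ∨ det u v ^ 2 = 1

def negx (p : V) : ℝ := -p.1

/-- the flag system of a bad pair -/
structure Sys (f g : ℝ → ℝ) (ε : ℝ) (I : Type) where
  K : Set V
  L : Set V
  hK : Fam f g K
  hL : Fam f g L
  fin : Finite I
  ne : Nonempty I
  R : Equiv.Perm I
  T : Equiv.Perm I
  comm : ∀ i, R (T i) = T (R i)
  trans : ∀ i j, ∃ m n : ℕ, j = (R ^ m) ((T ^ n) i)
  P : I → V
  O : I → V
  u : I → V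
  v : I → V
  u' : I → V
  v' : I → V
  t1 : I → ℝ
  m1 : I → ℝ
  t2 : I → ℝ
  m2 : I → ℝ
  t3 : I → ℝ
  h3 : I → ℝ
  m3 : I → ℝ
  inj : Function.Injective P
  memP : ∀ i, P i ∈ K ∩ L
  memO : ∀ i, O i ∈ K ∩ L
  tanPK : ∀ i, IsTan 1 K (P i) (u i)
  tanPL : ∀ i, IsTan 1 L (P i) (v i)
  tanOK : ∀ i, IsTan (-1) K (O i) (u' i)
  tanOL : ∀ i, IsTan (-1) L (O i) (v' i)
  nrmP : ∀ i, Nrm (u i) (v i)
  nrmO : ∀ i, Nrm (u' i) (v' i)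
  lev1 : ∀ i, (P i).1 = (O i).1
  lev2 : ∀ i, (P (T i)).2 = (O i).2
  lev3 : ∀ i, w ε (P (R i)) = w ε (O i)
  gen1 : ∀ i, Inner (K ∩ L) Prod.fst (O i) →
    Gen Prod.fst Prod.snd (0, 1) (P i) (O i) (u i) (v i) (u' i) (v' i) (t1 i) (f (O i).1) (m1 i)
      ∧ SG f (O i).1 (m1 i)
  gen2 : ∀ i, Inner (K ∩ L) Prod.snd (O i) →
    Gen Prod.snd negx (-1, 0) (P (T i)) (O i) (u (T i)) (v (T i)) (u' i) (v' i)
      (t2 i) (g (O i).2) (m2 i) ∧ SG g (O i).2 (m2 i)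
  gen3 : ∀ i, Inner (K ∩ L) (w ε) (O i) →
    Gen (w ε) Prod.snd (ε, 1) (P (R i)) (O i) (u (R i)) (v (R i)) (u' i) (v' i)
      (t3 i) (h3 i) (m3 i)
  brk1 : ∀ i, ¬ Inner (K ∩ L) Prod.fst (O i) → P i = O i ∨
    (∀ p ∈ K ∪ L, (O i).1 ≤ p.1) ∨ (∀ p ∈ K ∪ L, p.1 ≤ (O i).1)
  brk2 : ∀ i, ¬ Inner (K ∩ L) Prod.snd (O i) → P (T i) = O i ∨
    (∀ p ∈ K ∪ L, (O i).2 ≤ p.2) ∨ (∀ p ∈ K ∪ L, p.2 ≤ (O i).2)
  brk3 : ∀ i, ¬ Inner (K ∩ L) (w ε) (O i) → P (R i) = O i ∨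
    (∀ p ∈ K ∪ L, w ε (O i) ≤ w ε p) ∨ (∀ p ∈ K ∪ L, w ε p ≤ w ε (O i))
  intM : (interior (K ∩ L)).Nonempty
  hMl : ∃ p ∈ K ∩ L, p.1 ≤ ε
  hMr : ∃ p ∈ K ∩ L, 1 - ε ≤ p.1
  hMb : ∃ p ∈ K ∩ L, p.2 ≤ 2 * ε
  hMt : ∃ p ∈ K ∩ L, 1 - 2 * ε ≤ p.2
  hbulk : ∀ j, ∃ n : ℕ, 1 / 4 ≤ (P ((R ^ n) j)).1 ∧ (P ((R ^ n) j)).1 ≤ 3 / 4

/-- hyperbolic link between two normalised covectors -/
def Link (D S z b z' b' : ℝ) : Prop :=
  ∃ C : ℝ, 1 ≤ C ∧ C ^ 2 = 1 + D * S ^ 2 ∧ z' = C * z + S * b ∧ b' = C * b + D * S * z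

/-- normalised value of the covector `α` (sign `σ`) on `ξ` -/
def zt (σ : ℝ) (α u v ξ : V) : ℝ := dot α ξ / (σ * √(dot α u * dot α v))
/-- normalised transversal component -/
def bt (σ : ℝ) (α u v ξ : V) : ℝ :=
  (dot α u * det v ξ + dot α v * det u ξ) / 2 / (σ * √(dot α u * dot α v))

def mul4 (a b c d : ℝ) (p : V) : V := (a * p.1 + b * p.2, c * p.1 + d * p.2)

/-- transport of a triple `(u, v, ξ)` by the unimodular matrix with rows `(a, b)`, `(c, d)` -/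
def Tr (a b c d : ℝ) (u v ξ u' v' ξ' : V) : Prop :=
  a * d - b * c = 1 ∧ ∃ l : ℝ, 0 < l ∧ mul4 a b c d u = l • u' ∧
    mul4 a b c d v = l⁻¹ • v' ∧ mul4 a b c d ξ = ξ'

namespace Sys

variable {f g : ℝ → ℝ} {ε : ℝ} {I : Type} (S : Sys f g ε I)

def x (j : I) : ℝ := (S.P j).1
def yP (j : I) : ℝ := (S.P j).2
def yO (j : I) : ℝ := (S.O j).2
def G1 (i : I) : Prop :=
  Gen Prod.fst Prod.snd (0, 1) (S.P i) (S.O i) (S.u i) (S.v i) (S.u' i) (S.v' i)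
    (S.t1 i) (f (S.O i).1) (S.m1 i) ∧ SG f (S.O i).1 (S.m1 i)
def G2 (i : I) : Prop :=
  Gen Prod.snd negx (-1, 0) (S.P (S.T i)) (S.O i) (S.u (S.T i)) (S.v (S.T i)) (S.u' i) (S.v' i)
    (S.t2 i) (g (S.O i).2) (S.m2 i) ∧ SG g (S.O i).2 (S.m2 i)
def G3 (i : I) : Prop :=
  Gen (w ε) Prod.snd (ε, 1) (S.P (S.R i)) (S.O i) (S.u (S.R i)) (S.v (S.R i)) (S.u' i) (S.v' i)
    (S.t3 i) (S.h3 i) (S.m3 i)
def InB (σ : ℝ) (j : I) : Prop := σ ≤ S.x j ∧ S.x j ≤ 1 - σ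
def Run (σ : ℝ) (j : I) (n : ℕ) : Prop := ∀ l ≤ n, S.InB σ ((S.R ^ l) j)
def kP (j : I) : ℝ := (S.u j).2 / (S.u j).1
def lP (j : I) : ℝ := (S.v j).2 / (S.v j).1
def kO (j : I) : ℝ := (S.u' j).2 / (S.u' j).1
def lO (j : I) : ℝ := (S.v' j).2 / (S.v' j).1
def W (j : I) : ℝ := √(w ε (S.u j) * w ε (S.v j))
/-- height of the oblique chord ending at `P j` -/
def h (j : I) : ℝ := S.h3 (S.R.symm j)
def κ (j : I) : ℝ := S.W j / S.h j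
def Δ (j : I) : ℝ := det (S.u j) (S.v j) ^ 2 / 4
def γ (j : I) : ℝ := |det (S.u j) (S.v j)| / (2 * S.κ j ^ 2)

/-- extra facts used only when the widest horizontal chord has full length -/
structure HExtra : Prop where
  hleft : ∀ j, ∃ p ∈ S.K ∩ S.L, w ε p < w ε (S.P j)
  hmaxuniq : ∀ i j, (∀ p ∈ S.K ∩ S.L, w ε p ≤ w ε (S.P i)) →
    (∀ p ∈ S.K ∩ S.L, w ε p ≤ w ε (S.P j)) → i = j
  hTT : ∀ y ∈ Icc (0:ℝ) 1, g y = 1 → ∀ j, S.T (S.T j) = j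

end Sys

/-- a point where a displacement may be nonzero -/
def Reg (f : ℝ → ℝ) (x : ℝ) : Prop :=
  0 < x ∧ x < 1 ∧ DifferentiableAt ℝ f x ∧ ¬ IsMaxOn f (Icc 0 1) x

/-- a solution of the linearised constraints of a flag system -/
structure Lin {f g : ℝ → ℝ} {ε : ℝ} {I : Type} (S : Sys f g ε I) where
  p : I → V
  o : I → V
  e : ℝ
  eqx : ∀ i j, (S.P i).1 = (S.O j).1 → (p i).1 = (o j).1
  eqy : ∀ i j, (S.P i).2 = (S.O j).2 → (p i).2 = (o j).2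
  l1 : ∀ j, S.G1 j → (p j).2 - (o j).2 = S.t1 j * S.m1 j * (p j).1
  l2 : ∀ j, S.G2 j → (p (S.T j)).1 = (o j).1 - S.t2 j * S.m2 j * (o j).2
  l3 : ∀ j, w ε (p (S.R j)) - w ε (o j) = e * ((S.P (S.R j)).2 - (S.O j).2)
  rpx : ∀ j, (p j).1 ≠ 0 → Reg f (S.P j).1
  rpy : ∀ j, (p j).2 ≠ 0 → Reg g (S.P j).2
  rox : ∀ j, (o j).1 ≠ 0 → Reg f (S.O j).1
  roy : ∀ j, (o j).2 ≠ 0 → Reg g (S.O j).2

namespace Lin

variable {f g : ℝ → ℝ} {ε : ℝ} {I : Type} {S : Sys f g ε I} (ξ : Lin S)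

def ζ (j : I) : ℝ := zt (S.t1 j) (1, -ε) (S.u j) (S.v j) (ξ.p j)
def b (j : I) : ℝ := bt (S.t1 j) (1, -ε) (S.u j) (S.v j) (ξ.p j)
def β (j : I) : ℝ := ξ.b j / S.κ j
/-- the curvature term -/
def ct (j : I) : ℝ := S.γ j ^ 2 * S.κ j * |ξ.ζ j|

structure Bd (σ Λ M : ℝ) : Prop where
  nn : 0 ≤ M
  be : |ξ.e| ≤ ε * M
  bc : ∀ j, S.InB σ j → Λ * ξ.ct j ≤ M
  bD : ∀ j, S.InB σ j → S.InB σ (S.T j) → S.κ j * |ξ.ζ (S.T j) - ξ.ζ j| ≤ M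
  bDD : ∀ i, ¬ S.InB σ i → S.κ (S.T i) * |ξ.ζ (S.T i) - ξ.ζ (S.T.symm i)| ≤ M

end Lin

/-- rigidity of a flag system: the conclusion fed to the null lemma -/
def Rigid {f g : ℝ → ℝ} {ε : ℝ} {I : Type} (S : Sys f g ε I) : Prop :=
  ∃ j0 : I, ∃ c : Bool, ∀ ξ : Lin S, ξ.e = 0 ∧
    ((if c then (ξ.p j0).1 else (ξ.p j0).2) = 0 → ∀ j, ξ.p j = 0 ∧ ξ.o j = 0)

/-- constants of the main case, first layer -/
structure Ctx0 (f g : ℝ → ℝ) where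
  hf : Half f
  hg : Half g
  ρ : ℝ
  η : ℝ
  σ0 : ℝ
  f0 : ℝ
  ρpos : 0 < ρ
  ηpos : 0 < η
  σ0pos : 0 < σ0
  f0pos : 0 < f0
  gle : ∀ y ∈ Icc (0:ℝ) 1, g y ≤ 1 - 2 * ρ
  σ0ρ : 4 * σ0 ≤ ρ
  nearL : ∀ x ∈ Icc (0:ℝ) (2 * σ0), f x + x ≤ η / 4
  nearR : ∀ x ∈ Icc (1 - 2 * σ0) (1:ℝ), f x + (1 - x) ≤ η / 4
  gge : ∀ y ∈ Icc (η / 2) (1 - η / 2), 4 * σ0 ≤ g y
  fge : ∀ x ∈ Icc (σ0 / 2) (1 - σ0 / 2), f0 ≤ f x

/-- constants of the main case -/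
structure Ctx (f g : ℝ → ℝ) extends Ctx0 f g where
  ys : ℝ
  Cq : ℝ
  sq : ℝ
  ysI : ys ∈ Icc (0:ℝ) 1
  ysmax : IsMaxOn g (Icc 0 1) ys
  fle : ∀ x ∈ Icc (0:ℝ) 1, f x ≤ 1 - 2 * ρ
  sqpos : 0 < sq
  gq : ∀ y ∈ Ioo (0:ℝ) 1, (y ≤ sq ∨ 1 - sq ≤ y) → ∀ m, SG g y m → g y * |m| ≤ Cq

structure Mg0 {f g : ℝ → ℝ} {ε : ℝ} {I : Type} (η : ℝ) (S : Sys f g ε I) (yL yR : ℝ) :
    Prop where
  memL : ((0:ℝ), yL) ∈ S.K
  memR : ((1:ℝ), yR) ∈ S.K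
  hL : η ≤ yL ∧ yL ≤ 1 - η
  hR : η ≤ yR ∧ yR ≤ 1 - η

structure Mg {f g : ℝ → ℝ} {ε : ℝ} {I : Type} (η ys : ℝ) (S : Sys f g ε I) (yL yR ς : ℝ) : Prop
    extends Mg0 η S yL yR where
  hς : ς = 1 ∨ ς = -1
  sL : η ≤ ς * (yL - ys)
  sR : η ≤ ς * (ys - yR)

/-- eventually in `ε`, for all systems with margins -/
def EvG0 {f g : ℝ → ℝ} (c : Ctx0 f g)
    (Q : (ε : ℝ) → (I : Type) → Sys f g ε I → ℝ → ℝ → Prop) : Prop :=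
  ∀ᶠ ε in 𝓝[>] (0:ℝ), ∀ (I : Type) (S : Sys f g ε I) (yL yR : ℝ),
    Mg0 c.η S yL yR → Q ε I S yL yR

/-- the standard quantifier block of the linear analysis -/
def EvAll {f g : ℝ → ℝ} (c : Ctx f g)
    (Q : (Λ σ ε : ℝ) → (I : Type) → (S : Sys f g ε I) → Lin S → ℝ → Prop) : Prop :=
  ∀ᶠ Λ in atTop, ∀ᶠ σ in 𝓝[>] (0:ℝ), ∀ᶠ ε in 𝓝[>] (0:ℝ),
    ∀ (I : Type) (S : Sys f g ε I) (yL yR ς : ℝ), Mg c.η c.ys S yL yR ς →
      ∀ (ξ : Lin S) (M : ℝ), ξ.Bd σ Λ M → Q Λ σ ε I S ξ M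

/-! ### Corner lemma vocabulary -/

/-- height of the boundary point on side `τ` (top for `τ = 1`, bottom for `τ = -1`) -/
def sy (τ : ℝ) (K : Set V) (x : ℝ) : ℝ := if τ = 1 then F1.top K x else F1.bot K x
/-- height of the boundary point on the opposite side -/
def oy (τ : ℝ) (K : Set V) (x : ℝ) : ℝ := if τ = 1 then F1.bot K x else F1.top K x
def ell (g : ℝ → ℝ) (τ : ℝ) (K : Set V) (x : ℝ) : ℝ := x - g (oy τ K x)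
/-- the rightmost point of `K` is within `η` of the corner `(1,1)` (`τ = 1`) or `(1,0)` -/
def Cornerish (τ η : ℝ) (K : Set V) : Prop :=
  ∃ y, ((1:ℝ), y) ∈ K ∧ (if τ = 1 then 1 - η ≤ y else y ≤ η)

def Step (f : ℝ → ℝ) (τ ε a b : ℝ) : Prop :=
  a < b ∧ b - a ≤ ε ∧ (τ = 1 → ε * f a ≤ b - a) ∧ (τ = -1 → b - a ≤ ε * f b) ∧
    ∀ s, 4 * ε ≤ s → s ≤ a → b ≤ 1 - s → |(b - a) / ε - f a| ≤ 2 * ε / s

def Chain (f : ℝ → ℝ) (τ ε : ℝ) (n : ℕ) (x l : ℝ) : Prop :=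
  1 ≤ n ∧ ∃ z : ℕ → ℝ, (∀ m ≤ n, Step f τ ε (z m) (z (m + 1))) ∧
    z 0 ≤ l ∧ l ≤ z 1 ∧ z (n - 1) ≤ x ∧ x ≤ z (n + 1) ∧ z (n + 1) ≤ x + 2 * ε

/-! ### Null lemma vocabulary -/

/-- linearised constraints of a finite point configuration -/
structure LinSol {N : ℕ} (f g : ℝ → ℝ) (Kf Kg : Set ℝ) (ε : ℝ) (p ξ : Fin N → V) (e : ℝ) :
    Prop where
  kx : ∀ i, (p i).1 ∈ Kf → (ξ i).1 = 0
  ky : ∀ i, (p i).2 ∈ Kg → (ξ i).2 = 0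
  ex : ∀ i j, (p i).1 = (p j).1 → (ξ i).1 = (ξ j).1
  ey : ∀ i j, (p i).2 = (p j).2 → (ξ i).2 = (ξ j).2
  cf : ∀ i j, (p i).1 = (p j).1 → (p i).2 - (p j).2 = f (p i).1 →
    (ξ i).2 - (ξ j).2 = deriv f (p i).1 * (ξ i).1
  cg : ∀ i j, (p i).2 = (p j).2 → (p i).1 - (p j).1 = g (p i).2 →
    (ξ i).1 - (ξ j).1 = deriv g (p i).2 * (ξ i).2
  cw : ∀ i j, w ε (p i) = w ε (p j) → w ε (ξ i) - w ε (ξ j) = e * ((p i).2 - (p j).2)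

def RigidCfg (f g : ℝ → ℝ) (Kf Kg : Set ℝ) (ε : ℝ) : Prop :=
  ∃ (N : ℕ) (p : Fin N → V),
    (∀ i, (p i).1 ∉ Kf → DifferentiableAt ℝ f (p i).1) ∧
    (∀ i, (p i).2 ∉ Kg → DifferentiableAt ℝ g (p i).2) ∧
    ∃ (i0 : Fin N) (c : Bool), ∀ (ξ : Fin N → V) (e : ℝ), LinSol f g Kf Kg ε p ξ e →
      e = 0 ∧ ((if c then (ξ i0).1 else (ξ i0).2) = 0 → ξ = 0)

end XR
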