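import Pool.Agent.P.MP_408b1f_gt.SysNeg

/-! Second layer of definitions. -/

open Set MeasureTheory Filter Topology

noncomputable section

namespace XR

variable {f g : ℝ → ℝ} {ε : ℝ} {I : Type}

/-- the facts about one step of R at a bulk index -/
structure Sys.StepF (S : Sys f g ε I) (s : ℝ) (j : I) : Prop where
  g1 : S.G1 j
  g1R : S.G1 (S.R j)
  g1L : S.G1 (S.R.symm j)
  g3 : S.G3 j
  g3L : S.G3 (S.R.symm j)
  t3 : S.t3 j = S.t1 j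
  t3L : S.t3 (S.R.symm j) = S.t1 j
  tR : S.t1 (S.R j) = S.t1 j
  tL : S.t1 (S.R.symm j) = S.t1 j
  xR : S.x (S.R j) = S.x j + S.t1 j * ε * S.h3 j
  xL : S.x j = S.x (S.R.symm j) + S.t1 j * ε * S.h j
  hR : |S.h3 j - f (S.x j)| ≤ 2 * ε / s
  hL : |S.h j - f (S.x j)| ≤ 2 * ε / s
  h3pos : 0 < S.h3 j
  hpos : 0 < S.h j
  h3le : S.h3 j ≤ 1
  hle : S.h j ≤ 1
  wu : 0 < S.t1 j * w ε (S.u j)
  wv : 0 < S.t1 j * w ε (S.v j)
  wu' : 0 < S.t1 j * w ε (S.u' j)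
  wv' : 0 < S.t1 j * w ε (S.v' j)
  sandP : ∃ p, S.yP (S.R j) - S.yP j = p * (S.x (S.R j) - S.x j) ∧
    S.kP (S.R j) ≤ p ∧ p ≤ S.kP j ∧ S.lP (S.R j) ≤ p ∧ p ≤ S.lP j
  sandO : ∃ r, S.yO (S.R j) - S.yO j = r * (S.x (S.R j) - S.x j) ∧
    S.kO j ≤ r ∧ r ≤ S.kO (S.R j) ∧ S.lO j ≤ r ∧ r ≤ S.lO (S.R j)
  sandPL : ∃ p, S.yP j - S.yP (S.R.symm j) = p * (S.x j - S.x (S.R.symm j)) ∧
    S.kP j ≤ p ∧ p ≤ S.kP (S.R.symm j) ∧ S.lP j ≤ p ∧ p ≤ S.lP (S.R.symm j)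
  sandOL : ∃ r, S.yO j - S.yO (S.R.symm j) = r * (S.x j - S.x (S.R.symm j)) ∧
    S.kO (S.R.symm j) ≤ r ∧ r ≤ S.kO j ∧ S.lO (S.R.symm j) ≤ r ∧ r ≤ S.lO j

/-- smallness of eps at the level s, with a lower bound phi of f on [s, 1 - s] -/
structure Sm (f : ℝ → ℝ) (ε s φ : ℝ) : Prop where
  εpos : 0 < ε
  le16 : 16 * ε ≤ s
  s4 : s ≤ 1 / 4
  φpos : 0 < φ
  leφ : 4 * ε ≤ s * φ
  low : ∀ x ∈ Icc s (1 - s), φ ≤ f x

/-- smallness of eps relative to the first layer constants -/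
structure Ctx0.Small (c : Ctx0 f g) (ε : ℝ) : Prop where
  εpos : 0 < ε
  leσ : 64 * ε ≤ c.σ0
  lef : 16 * ε ≤ c.σ0 * c.f0
  leη : 16 * ε ≤ c.η

def pull (a b c d : ℝ) (α : V) : V := (α.1 * a + α.2 * c, α.1 * b + α.2 * d)

namespace Sys

variable (S : Sys f g ε I)

/-- determinant of the covector w at P j and the pulled back covector w at P (T j) -/
def Gd (j : I) : ℝ :=
  -(S.t2 j * S.m2 j) * (1 - ε * (S.t1 j * S.m1 j)) + ε ^ 2 * (S.t1 j * S.m1 j)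
/-- physical link parameter of j to T j -/
def St (j : I) : ℝ :=
  S.t1 j * S.t1 (S.T j) * S.Gd j * S.κ j / (S.κ (S.T j) * S.h j * S.h (S.T j))
/-- physical link parameter of the step from P j to O j -/
def Sθ (j : I) : ℝ := S.t1 j * ε ^ 2 * S.m1 j * S.κ j / (S.κ (S.R j) * S.h j * S.h (S.R j))
/-- norms of the coordinate covectors -/
def aP (j : I) : ℝ := √((S.u j).1 * (S.v j).1)
def nP (j : I) : ℝ := √((S.u j).2 * (S.v j).2)
def nO (j : I) : ℝ := √((S.u' j).2 * (S.v' j).2)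

@[simp] theorem neg_Gd (j : I) : S.neg.Gd j = S.Gd j := by simp [Gd]
@[simp] theorem neg_St (j : I) : S.neg.St j = S.St j := by simp [St]
@[simp] theorem neg_Sθ (j : I) : S.neg.Sθ j = S.Sθ j := by simp [Sθ]
@[simp] theorem neg_aP (j : I) : S.neg.aP j = S.aP j := by simp [aP]
@[simp] theorem neg_nP (j : I) : S.neg.nP j = S.nP j := by simp [nP]
@[simp] theorem neg_nO (j : I) : S.neg.nO j = S.nO j := by simp [nO]

end Sys

theorem Sm.neg {s φ : ℝ} (h : Sm f ε s φ) : Sm (negF f) ε s φ :=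
  ⟨h.εpos, h.le16, h.s4, h.φpos, h.leφ,
    fun x hx => h.low _ ⟨by linarith [hx.2], by linarith [hx.1]⟩⟩

theorem Ctx0.Small.neg {c : Ctx0 f g} (h : c.Small ε) : c.neg.Small ε :=
  ⟨h.εpos, h.leσ, h.lef, h.leη⟩

theorem ev_le {a : ℝ} (ha : 0 < a) : ∀ᶠ ε in 𝓝[>] (0:ℝ), 0 < ε ∧ ε ≤ a := by
  filter_upwards [Ioc_mem_nhdsGT ha] with ε h using h

theorem Half.ev_sm (h : Half f) {s : ℝ} (hs : 0 < s) (hs4 : s ≤ 1 / 4) :
    ∃ φ, ∀ᶠ ε in 𝓝[>] (0:ℝ), Sm f ε s φ := by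
  obtain ⟨φ, hφ, hl⟩ := h.lower hs
  refine ⟨φ, ?_⟩
  filter_upwards [ev_le (a := s / 16) (by positivity), ev_le (a := s * φ / 4) (by positivity)]
    with ε h1 h2
  exact ⟨h1.1, by linarith [h1.2], hs4, hφ, by linarith [h2.2], hl⟩

theorem Ctx0.ev_small (c : Ctx0 f g) : ∀ᶠ ε in 𝓝[>] (0:ℝ), c.Small ε := by
  have h1 := c.σ0pos; have h2 := c.f0pos; have h3 := c.ηpos
  filter_upwards [ev_le (a := c.σ0 / 64) (by positivity),
    ev_le (a := c.σ0 * c.f0 / 16) (by positivity), ev_le (a := c.η / 16) (by positivity)]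
    with ε a b d
  exact ⟨a.1, by linarith [a.2], by linarith [b.2], by linarith [d.2]⟩

theorem Ctx0.σ0_le (c : Ctx0 f g) : c.σ0 ≤ 1 / 8 := by
  have h1 := c.gle 0 ⟨le_rfl, zero_le_one⟩
  have h2 := c.hg.zero0
  have h3 := c.σ0ρ
  linarith

theorem Ctx0.Small.sm {c : Ctx0 f g} (h : c.Small ε) : Sm f ε (c.σ0 / 2) c.f0 :=
  ⟨h.εpos, by linarith [h.leσ, h.εpos], by linarith [c.σ0_le], c.f0pos,
    by linarith [h.lef, h.εpos], c.fge⟩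

end XR
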