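import Pool.Agent.P.MP_408b1f_gt.KeSum

/-! The double link through an index near the left end.
dlink. Put A = T i, B = T.symm i (nearL, nearL_t: G2 i, G2 B, t2 i = -1, t2 B = 1, t1 A = varsigma,
t1 B = - varsigma, both in InB (4 sigma0), so step and kappa_pos apply to them). Use the covector
(1,0) with sign t1 i at P i (norm aP i). link_of_tr for Tr.trans (tr1 B) (tr2 B) from w at B to (1,0)
at i: with a = t1 B m1 B, b = t2 B m2 B the determinant is - b (1 - eps a) + eps. link_of_tr for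
Tr.trans (tr1 i) (tr2 i) from (1,0) at i to w at A: the determinant is - t2 i m2 i - eps. The heights
are at distance >= eta/2 from ys on the side varsigma, so Half.sg_lower gives |m2| >= z and the sign
- varsigma of m2 i and m2 B; hslope gives |m2| <= 2 / eta. Both link parameters have the sign of
- t1 i. All Delta agree (G1.det_eq, G2.det_eq). Link.trans, then Link.scale with k = kappa A
(kap_near with delta = 1/2, h in [f0/2, 1] by h_bounds with Small.sm). aP i <= (2 / eta) nP i by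
hslope at B, and nbound.
nondeep: H1 bounds b B / kappa A by 4 M / |S'| + min (gamma^2 |S'| / 2) gamma * kappa A |zeta B|
(dd_near). Now gamma A ^ 2 kappa A |zeta B| = ct B * (kappa B / kappa A)^3 <= 8 M (same Delta, bc,
Lambda >= 1); in the first case use gamma = gamma^2 / gamma, in the second
|S'| <= A0 / (c1 eps) (1 + 10000 / c1) by gamma_le. H2 for beta A. nd_cmp: H2 for Link.symm. -/

open Set MeasureTheory Filter Topology

noncomputable section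

namespace XR

variable {f g : ℝ → ℝ}

private theorem el1_sqrt {c a1 a2 b1 b2 : ℝ} (hc : 0 ≤ c) (ha : 0 < a1 * a2) (hb : 0 < b1 * b2)
    (h1 : c * |a1| ≤ |b1|) (h2 : c * |a2| ≤ |b2|) : c * √(a1 * a2) ≤ √(b1 * b2) := by
  apply Real.le_sqrt_of_sq_le
  rw [mul_pow, Real.sq_sqrt ha.le]
  calc c ^ 2 * (a1 * a2) = (c * |a1|) * (c * |a2|) := by
        rw [← abs_of_pos ha, abs_mul]; ring
    _ ≤ |b1| * |b2| := mul_le_mul h1 h2 (by positivity) (abs_nonneg _)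
    _ = b1 * b2 := by rw [← abs_mul, abs_of_pos hb]

private theorem el1_sign {ς m d δ : ℝ} (hς : ς = 1 ∨ ς = -1) (hδ : 0 < δ) (h1 : δ ≤ ς * d)
    (h3 : 0 < m * (-d)) : ς * m = -|m| := by
  rcases hς with h | h <;> subst h
  · have : m < 0 := by
      by_contra hm
      have : 0 ≤ m := not_lt.1 hm
      nlinarith only [h3, hδ, hm, h1]
    rw [abs_of_neg this]; ring
  · have : 0 < m := by
      by_contra hm
      have : m ≤ 0 := not_lt.1 hm
      nlinarith only [h3, hδ, hm, h1]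
    rw [abs_of_pos this]; ring

private theorem el1_abs_ge {ς d δ : ℝ} (hς : ς = 1 ∨ ς = -1) (h : δ ≤ ς * d) : δ ≤ |d| := by
  rcases hς with h' | h' <;> subst h'
  · exact h.trans (by simpa using le_abs_self d)
  · exact h.trans (by simpa using neg_le_abs d)

private theorem el1_comb {s1 s2 s γ Q r : ℝ} (hγ : 0 ≤ γ) (hQ : 0 < Q) (hr : 0 < r)
    (h1 : |s1| ≤ Q * r) (h2 : |s2| ≤ Q * r)
    (h : |s| ≤ |s1| * (1 + γ * |s2|) + |s2| * (1 + γ * |s1|)) :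
    |s| ≤ (2 * Q + 2 * Q ^ 2) * r * (1 + γ * r) := by
  have a1 := abs_nonneg s1
  have a2 := abs_nonneg s2
  have b : |s1| * |s2| ≤ (Q * r) * (Q * r) := mul_le_mul h1 h2 a2 (by positivity)
  have b' : γ * (|s1| * |s2|) ≤ γ * ((Q * r) * (Q * r)) := mul_le_mul_of_nonneg_left b hγ
  have c1 : 0 ≤ Q ^ 2 * r := by positivity
  have c2 : 0 ≤ Q * r * (γ * r) := by positivity
  nlinarith only [h1, h2, h, b', c1, c2]

private theorem el1_num {m a ς ε z y : ℝ} (hς : |ς| ≤ 1) (ha : |a| ≤ 1 / 2) (hε : 0 < ε)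
    (hz : ε ≤ z / 4) (hm : z ≤ m) (hy : m ≤ y) :
    z / 4 ≤ m * (1 - a) + ς * ε ∧ m * (1 - a) + ς * ε ≤ 2 * y + 1 := by
  have q1 := abs_le.1 hς
  have q2 := abs_le.1 ha
  have q3 : 0 ≤ m := by linarith only [hε, hz, hm]
  constructor <;> nlinarith only [hz, hm, hε, q1, q2, hy]

theorem dlink (c : Ctx f g) : ∃ a0 > (0:ℝ), ∃ A0 > (0:ℝ), EvG c fun _ _ S => ∀ (ξ : Lin S) (i),
    S.x i ≤ 2 * c.σ0 → S.G1 i → 0 < S.aP i ∧ S.aP i ≤ A0 * S.κ (S.T i) ∧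
      S.Δ (S.T.symm i) = S.Δ (S.T i) ∧ ∃ S' : ℝ,
      Link (S.γ (S.T i) ^ 2) S' (S.κ (S.T i) * ξ.ζ (S.T.symm i)) (ξ.b (S.T.symm i) / S.κ (S.T i))
        (S.κ (S.T i) * ξ.ζ (S.T i)) (ξ.β (S.T i)) ∧
      a0 * (S.κ (S.T i) / S.aP i) ≤ |S'| ∧
      |S'| ≤ A0 * (S.κ (S.T i) / S.aP i) * (1 + S.γ (S.T i) * (S.κ (S.T i) / S.aP i)) := by
  have hη := c.ηpos
  have hσ := c.σ0pos
  have hf0 := c.f0pos
  obtain ⟨z, hz, hzl⟩ := c.hg.sg_lower c.ysI c.ysmax (δ := c.η / 2) (by positivity)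
  obtain ⟨cN, hcN, CN, hCN, hN⟩ := nbound c.toCtx0
  set Q : ℝ := 3 * (4 / c.η + 1) / c.f0 with hQ
  have hQ0 : 0 < Q := by positivity
  refine ⟨z / 4, by positivity, 2 * Q + 2 * Q ^ 2 + 3 * CN / c.η, by positivity, ?_⟩
  have hk := kap_near c.toCtx0 hσ le_rfl (δ := 1 / 2) (by norm_num)
  unfold EvG0 at hk
  unfold EvG
  filter_upwards [hk, c.toCtx0.ev_small, ev_le (a := z / 4) (by positivity)]
    with ε hk hs hεz I S yL yR ς hm ξ i hi h1
  have e0 := hs.εpos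
  have eσ := hs.leσ
  have σ8 := c.toCtx0.σ0_le
  have e1 : ε ≤ 1 := by linarith only [hεz, eσ, σ8]
  obtain ⟨yP, yO, g2, g2B, t2, t2B, inA, inB⟩ := nearL hs hm.toMg0 hi
  obtain ⟨tA, tB, dO, dP⟩ := nearL_t hs hm hi
  obtain ⟨rAB, rBA, -⟩ := hk I S yL yR hm.toMg0 i (Or.inl hi)
  obtain ⟨-, -, -, nP⟩ := hN hs hm.toMg0 i hi
  set A := S.T i with hA
  set B := S.T.symm i with hB
  have TB : S.T B = i := S.T.apply_symm_apply i
  have h4 : 4 * ε ≤ 4 * c.σ0 := by linarith only [hεz, eσ]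
  obtain ⟨stA, -, hhA⟩ := geo3_h hs inA
  obtain ⟨stB, -, hhB⟩ := geo3_h hs inB
  obtain ⟨kA, WA, eWA, eγ, γ0, -⟩ := S.kappa_pos e0 h4 inA
  obtain ⟨kB, WB, eWB, -⟩ := S.kappa_pos e0 h4 inB
  have aP0 : 0 < S.aP i := Sys.G1.geo2_aP_pos h1
  have hL := hm.hL
  have yP' := abs_le.1 yP
  have yO' := abs_le.1 yO
  have yOB : S.yO B = S.yP i := S.yO_Tsymm i
  obtain ⟨-, -, sl1, sl2, mB⟩ := g2B.hslope (a := c.η / 2) (by positivity)
    (by rw [yOB]; linarith only [hη, hL, yP', hL.1]) (by rw [yOB]; linarith only [hη, hL, yP', hL.2])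
  obtain ⟨-, -, -, -, mi⟩ := g2.hslope (a := c.η / 2) (by positivity)
    (by linarith only [hη, hL, yO', hL.1]) (by linarith only [hη, hL, yO', hL.2])
  rw [TB] at sl1 sl2
  have rBA' : S.κ B ≤ 3 / 2 * S.κ A := by
    have := (abs_le.1 rBA).2
    rw [sub_le_iff_le_add, div_le_iff₀ kA] at this
    linarith only [this]
  have rAB' : S.κ A ≤ 3 / 2 * S.κ B := by
    have := (abs_le.1 rAB).2
    rw [sub_le_iff_le_add, div_le_iff₀ kB] at this
    linarith only [this]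
  have ti := h1.1.ht
  have pu := h1.1.hu
  have pv := h1.1.hv
  have haP : S.aP i ≤ 3 * CN / c.η * S.κ A := by
    have q1 := (linkT_pos ti pu pv).2.2.2
    have q2 := (linkT_pos g2B.1.ht g2B.1.hu g2B.1.hv).2.2.2
    rw [TB] at q2
    have q3 := el1_sqrt (by positivity) q1 q2 sl1 sl2
    have q4 : c.η / 2 * S.aP i ≤ CN * (3 / 2 * S.κ A) :=
      q3.trans (nP.trans (mul_le_mul_of_nonneg_left rBA' hCN.le))
    rw [div_mul_eq_mul_div, le_div_iff₀ hη]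
    linarith only [q4]
  have d1 : det (S.u i) (S.v i) = det (S.u B) (S.v B) := by
    have := g2B.det_eq
    rw [TB] at this
    rw [this, stB.g1.det_eq]
  have d2 : det (S.u A) (S.v A) = det (S.u i) (S.v i) := by rw [g2.det_eq, h1.det_eq]
  refine ⟨aP0, haP.trans (mul_le_mul_of_nonneg_right (by linarith only [hQ0, sq_nonneg Q]) kA.le),
    by rw [Sys.Δ, Sys.Δ, d2, d1], ?_⟩
  -- the signs of the slopes
  obtain ⟨zi, si⟩ := hzl (S.yO i) (S.yO_mem i) (el1_abs_ge hm.hς dO) _ g2.2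
  obtain ⟨zB, sB⟩ := hzl (S.yO B) (S.yO_mem B) (by rw [yOB]; exact el1_abs_ge hm.hς dP) _ g2B.2
  have si' : ς * S.m2 i = -|S.m2 i| :=
    el1_sign hm.hς (by positivity) dO (by simpa using si)
  have sB' : ς * S.m2 B = -|S.m2 B| :=
    el1_sign hm.hς (by positivity) dP (by rw [yOB] at sB; simpa using sB)
  have aς := linkT_abs hm.hς
  have m1B : |S.m1 B| ≤ 1 / (4 * c.σ0) := (S.g1_of e0 (by linarith only [hεz, eσ]) inB).2.2.2.2.2
  have b1 : |ε * (S.t1 B * S.m1 B)| ≤ 1 / 2 := by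
    rw [abs_mul, abs_mul, linkT_abs stB.g1.1.ht, one_mul, abs_of_pos e0]
    calc ε * |S.m1 B| ≤ c.σ0 * (1 / (4 * c.σ0)) := by gcongr; linarith only [hεz, eσ]
      _ = 1 / 4 := by field_simp
      _ ≤ 1 / 2 := by norm_num
  have hm2 : (1:ℝ) / (c.η / 2) = 2 / c.η := by field_simp
  rw [hm2] at mB mi
  have η2 : 0 < 2 / c.η := by positivity
  have η4 : 4 / c.η = 2 * (2 / c.η) := by ring
  -- the two numerators
  obtain ⟨N1, hN1⟩ : ∃ N1, N1 = |S.m2 B| * (1 - ε * (S.t1 B * S.m1 B)) + ς * ε := ⟨_, rfl⟩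
  obtain ⟨N2, hN2⟩ : ∃ N2, N2 = |S.m2 i| + ς * ε := ⟨_, rfl⟩
  obtain ⟨N1l, N1u⟩ := el1_num aς.le b1 e0 hεz.2 zB mB
  obtain ⟨N2l, N2u⟩ := el1_num (a := 0) aς.le (by norm_num) e0 hεz.2 zi mi
  rw [← hN1] at N1l N1u
  rw [sub_zero, mul_one, ← hN2] at N2l N2u
  rw [← η4] at N1u N2u
  have N1p : 0 < N1 := by linarith only [hεz, N1l]
  have N2p : 0 < N2 := by linarith only [hεz, N2l]
  -- the two links
  have T1 := (tr1 ξ stB.g1).trans (tr2 ξ g2B)
  rw [TB] at T1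
  have dotx : ∀ p : V, dot (1, 0) p = p.1 := fun p => by simp [dot]
  have L1 := link_of_tr (α := (1, -ε)) (α' := (1, 0)) T1 stB.g1.1.ht ti
    (by rw [linkT_dot]; exact stB.wu) (by rw [linkT_dot]; exact stB.wv)
    (by rw [dotx]; exact pu) (by rw [dotx]; exact pv)
  have L2 := link_of_tr (α := (1, 0)) (α' := (1, -ε)) ((tr1 ξ h1).trans (tr2 ξ g2)) ti
    stA.g1.1.ht (by rw [dotx]; exact pu) (by rw [dotx]; exact pv)
    (by rw [linkT_dot]; exact stA.wu) (by rw [linkT_dot]; exact stA.wv)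
  have E1 : S.t1 B * S.t1 i * det ((1, -ε) : V)
      (pull (1 * 1 + -(S.t2 B * S.m2 B) * -(S.t1 B * S.m1 B)) (1 * 0 + -(S.t2 B * S.m2 B) * 1)
        (0 * 1 + 1 * -(S.t1 B * S.m1 B)) (0 * 0 + 1 * 1) (1, 0)) = -S.t1 i * N1 := by
    have e : |S.m2 B| = -(ς * S.m2 B) := by linarith only [sB']
    rw [hN1, e, t2B]
    simp only [det, pull]
    generalize S.t1 B * S.m1 B = a
    rw [tB]
    ring
  have E2 : S.t1 i * S.t1 A * det ((1, 0) : V)
      (pull (1 * 1 + -(S.t2 i * S.m2 i) * -(S.t1 i * S.m1 i)) (1 * 0 + -(S.t2 i * S.m2 i) * 1)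
        (0 * 1 + 1 * -(S.t1 i * S.m1 i)) (0 * 0 + 1 * 1) (1, -ε)) = -S.t1 i * N2 := by
    have e : |S.m2 i| = -(ς * S.m2 i) := by linarith only [si']
    rw [hN2, e, t2, tA]
    simp only [det, pull]
    ring
  rw [E1, linkT_dot, linkT_dot, dotx, dotx, ← d1, ← d2] at L1
  rw [E2, linkT_dot, linkT_dot, dotx, dotx, ← d2] at L2
  have L1' : Link (S.Δ A) (-S.t1 i * N1 / (S.W B * S.aP i)) (ξ.ζ B) (ξ.b B) _ _ := L1
  have L2' : Link (S.Δ A) (-S.t1 i * N2 / (S.aP i * S.W A)) _ _ (ξ.ζ A) (ξ.b A) := L2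
  have L1s := L1'.scale kA
  have L2s := L2'.scale kA
  rw [eγ] at L1s L2s
  obtain ⟨S', LS, lo, up⟩ := Link.trans (sq_nonneg _) L1s L2s
  rw [Real.sqrt_sq γ0] at up
  have hA0 := stA.hpos
  have hB0 := stB.hpos
  have ati := linkT_abs ti
  set r := S.κ A / S.aP i with hr
  have r0 : 0 < r := div_pos kA aP0
  have s1 : |-S.t1 i * N1 / (S.W B * S.aP i) * S.κ A ^ 2| = N1 * (S.κ A / S.κ B) / S.h B * r := by
    rw [abs_mul, abs_div, abs_mul, abs_neg, ati, abs_of_pos N1p, abs_of_pos (mul_pos WB aP0),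
      abs_of_pos (pow_pos kA 2), eWB, hr]
    field_simp
  have s2 : |-S.t1 i * N2 / (S.aP i * S.W A) * S.κ A ^ 2| = N2 / S.h A * r := by
    rw [abs_mul, abs_div, abs_mul, abs_neg, ati, abs_of_pos N2p, abs_of_pos (mul_pos aP0 WA),
      abs_of_pos (pow_pos kA 2), eWA, hr]
    field_simp
  refine ⟨S', LS, ?_, ?_⟩
  · have hp : 0 ≤ (-S.t1 i * N1 / (S.W B * S.aP i) * S.κ A ^ 2) *
        (-S.t1 i * N2 / (S.aP i * S.W A) * S.κ A ^ 2) := by
      have e : (-S.t1 i * N1 / (S.W B * S.aP i) * S.κ A ^ 2) *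
          (-S.t1 i * N2 / (S.aP i * S.W A) * S.κ A ^ 2) =
          (S.t1 i * S.t1 i) * (N1 / (S.W B * S.aP i) * S.κ A ^ 2) *
            (N2 / (S.aP i * S.W A) * S.κ A ^ 2) := by ring
      rw [e, linkT_sq ti]
      positivity
    have q1 := lo hp
    rw [s2] at q1
    have q2 : z / 4 ≤ N2 / S.h A := by
      rw [le_div_iff₀ hA0]
      exact (mul_le_of_le_one_right (by positivity) stA.hle).trans N2l
    have q3 := mul_le_mul_of_nonneg_right q2 r0.le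
    linarith only [q1, q3, abs_nonneg (-S.t1 i * N1 / (S.W B * S.aP i) * S.κ A ^ 2)]
  · have u1 : N1 * (S.κ A / S.κ B) / S.h B ≤ Q := by
      have q : S.κ A / S.κ B ≤ 3 / 2 := by rw [div_le_iff₀ kB]; exact rAB'
      calc N1 * (S.κ A / S.κ B) / S.h B ≤ (4 / c.η + 1) * (3 / 2) / (c.f0 / 2) := by gcongr
        _ = Q := by rw [hQ]; field_simp
    have u2 : N2 / S.h A ≤ Q := by
      calc N2 / S.h A ≤ (4 / c.η + 1) * (3 / 2) / (c.f0 / 2) := by
            gcongr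
            linarith only [hεz, eσ, σ8, mi, zi, η4, N2u]
        _ = Q := by rw [hQ]; field_simp
    have q := el1_comb γ0 hQ0 r0 (s1 ▸ mul_le_mul_of_nonneg_right u1 r0.le)
      (s2 ▸ mul_le_mul_of_nonneg_right u2 r0.le) up
    refine q.trans ?_
    have : 0 ≤ 3 * CN / c.η := by positivity
    exact mul_le_mul_of_nonneg_right (mul_le_mul_of_nonneg_right (by linarith only [this]) r0.le)
      (by positivity)

/-- the common facts of the two estimates -/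
private theorem el1_base (c : Ctx f g) : ∃ a0 > (0:ℝ), ∃ A0 > (0:ℝ),
    EvAll c fun _ _ ε _ S ξ M => ∀ i, S.x i ≤ 2 * c.σ0 → S.G1 i →
      0 < ε ∧ ε ≤ 1 ∧ 0 ≤ M ∧ 0 < S.κ (S.T i) ∧ 0 < S.aP i ∧ 0 ≤ S.γ (S.T i) ∧
      S.γ (S.T i) ≤ 10000 * ε ∧ ∃ S' zB bB zA : ℝ,
        Link (S.γ (S.T i) ^ 2) S' zB bB zA (ξ.β (S.T i)) ∧ |zA - zB| ≤ 4 * M ∧
        S.γ (S.T i) ^ 2 * |zB| ≤ 4 * M ∧ |ξ.β (S.T.symm i)| ≤ 2 * |bB| ∧ a0 ≤ |S'| ∧
        |S'| ≤ A0 * (S.κ (S.T i) / S.aP i) * (1 + S.γ (S.T i) * (S.κ (S.T i) / S.aP i)) := by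
  obtain ⟨a0, ha0, A0, hA0, hd⟩ := dlink c
  refine ⟨a0 / A0, by positivity, A0, hA0, ?_⟩
  have hσ := c.σ0pos
  have hk := kap_near c.toCtx0 hσ le_rfl (δ := 1 / 2) (by norm_num)
  have hdd := dd_near c
  unfold EvG0 at hk
  unfold EvG at hd
  unfold EvAll at hdd ⊢
  filter_upwards [hdd, eventually_ge_atTop 1] with Λ hdd hΛ
  filter_upwards [hdd, c.ev_σ] with σ hdd hσ'
  filter_upwards [hdd, hk, hd, c.toCtx0.ev_small] with ε hdd hk hd hs I S yL yR ς hm ξ M hM i hi h1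
  have e0 := hs.εpos
  have eσ := hs.leσ
  have σ8 := c.toCtx0.σ0_le
  obtain ⟨-, -, -, -, -, -, inA, inB⟩ := nearL hs hm.toMg0 hi
  obtain ⟨rAB, rBA, -⟩ := hk I S yL yR hm.toMg0 i (Or.inl hi)
  obtain ⟨aP0, haP, eΔ, S', LS, lo, up⟩ := hd I S yL yR ς hm ξ i hi h1
  have dd := hdd I S yL yR ς hm ξ M hM i (Or.inl hi)
  set A := S.T i with hA
  set B := S.T.symm i with hB
  have h4 : 4 * ε ≤ 4 * c.σ0 := by linarith only [e0, eσ]
  obtain ⟨kA, -, -, eγ, γ0, -⟩ := S.kappa_pos e0 h4 inA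
  obtain ⟨kB, -, -, eγB, -⟩ := S.kappa_pos e0 h4 inB
  have rBA' : S.κ B / S.κ A ≤ 3 / 2 := by linarith only [rBA, (abs_le.1 rBA).2]
  have rAB' : S.κ A / S.κ B ≤ 3 / 2 := by linarith only [rAB, (abs_le.1 rAB).2]
  refine ⟨e0, by linarith only [e0, eσ, σ8], hM.nn, kA, aP0, γ0, S.gamma_le hs.sm (inA.mono (by linarith only [e0, eσ])),
    S', _, _, _, LS, ?_, ?_, ?_, ?_, up⟩
  · rwa [← mul_sub, abs_mul, abs_of_pos kA]
  · have q1 := hM.bc B (inB.mono (by linarith only [hσ', e0, eσ, hσ'.2]))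
    have q2 : 0 ≤ ξ.ct B := (linkT_ct ξ kB).2
    have q3 : ξ.ct B ≤ M := by nlinarith only [q1, hΛ, q2]
    have q4 : S.γ A ^ 2 * |S.κ A * ξ.ζ B| = ξ.ct B * (S.κ B / S.κ A) ^ 3 := by
      rw [Lin.ct, ← eγ, ← eγB, eΔ, abs_mul, abs_of_pos kA]
      field_simp
    have q5 : (S.κ B / S.κ A) ^ 3 ≤ (3 / 2) ^ 3 := by gcongr
    rw [q4]
    nlinarith only [q2, q3, e0, eσ, σ8, q5]
  · have q : ξ.β B = ξ.b B / S.κ A * (S.κ A / S.κ B) := by
      rw [Lin.β]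
      field_simp
    rw [q, abs_mul, abs_of_pos (div_pos kA kB)]
    nlinarith only [e0, eσ, σ8, rAB', abs_nonneg (ξ.b B / S.κ A)]
  · refine le_trans ?_ lo
    rw [div_eq_mul_one_div a0]
    refine mul_le_mul_of_nonneg_left ?_ ha0.le
    rw [div_le_div_iff₀ hA0 aP0]
    linarith only [haP]

theorem nondeep (c : Ctx f g) {c1 : ℝ} (hc1 : 0 < c1) :
    ∃ C : ℝ, EvAll c fun _ _ ε _ S ξ M => ∀ i, S.x i ≤ 2 * c.σ0 → S.G1 i →
      (c1 * ε ≤ S.γ (S.T i) ∨ c1 * ε * S.κ (S.T i) ≤ S.aP i) →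
      ε * |ξ.β (S.T i)| ≤ C * M ∧ ε * |ξ.β (S.T.symm i)| ≤ C * M := by
  obtain ⟨a0, ha0, A0, hA0, hb⟩ := el1_base c
  set C1 : ℝ := 4 / a0 + 4 / c1 + 2 * (A0 / c1 * (1 + 10000 / c1)) with hC1
  have C1p : 0 < C1 := by positivity
  refine ⟨2 * C1 + (2 / a0 + 10000) * 4, hb.mono ?_⟩
  intro Λ σ ε I S ξ M h i hi h1 hcase
  obtain ⟨e0, e1, M0, kA, aP0, γ0, γle, S', zB, bB, zA, LS, dd, cz, hβ, lo, up⟩ := h i hi h1
  set γ := S.γ (S.T i) with hγ
  have S0 : 0 < |S'| := ha0.trans_le lo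
  have Sne : S' ≠ 0 := abs_pos.1 S0
  have H1 := LS.H1 (sq_nonneg _) Sne
  have H2 := LS.H2 (sq_nonneg _) Sne
  rw [Real.sqrt_sq γ0] at H1 H2
  have zB0 := abs_nonneg zB
  have q1 : |zA - zB| / |S'| ≤ 4 / a0 * M := by
    calc |zA - zB| / |S'| ≤ 4 * M / a0 := by gcongr
      _ = 4 / a0 * M := by ring
  have q2 : ε * (min (γ ^ 2 * |S'| / 2) γ * |zB|) ≤
      (4 / c1 + 2 * (A0 / c1 * (1 + 10000 / c1))) * M := by
    have p1 : 0 ≤ 4 / c1 * M := by positivity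
    have p2 : 0 ≤ 2 * (A0 / c1 * (1 + 10000 / c1)) * M := by positivity
    rcases hcase with hc | hc
    · have : ε * (min (γ ^ 2 * |S'| / 2) γ * |zB|) ≤ 4 / c1 * M := by
        calc ε * (min (γ ^ 2 * |S'| / 2) γ * |zB|) ≤ (γ / c1) * (γ * |zB|) := by
              gcongr
              · rw [le_div_iff₀ hc1]; linarith only [hc]
              · exact min_le_right _ _
          _ = γ ^ 2 * |zB| / c1 := by ring
          _ ≤ 4 * M / c1 := by gcongr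
          _ = 4 / c1 * M := by ring
      linarith only [p2, this]
    · have r1 : S.κ (S.T i) / S.aP i ≤ 1 / (c1 * ε) := by
        rw [div_le_div_iff₀ aP0 (by positivity)]
        linarith only [hc]
      have r2 : |S'| ≤ A0 * (1 / (c1 * ε)) * (1 + 10000 * ε * (1 / (c1 * ε))) := by
        refine up.trans ?_
        gcongr
      have r3 : ε * |S'| ≤ A0 / c1 * (1 + 10000 / c1) := by
        calc ε * |S'| ≤ ε * (A0 * (1 / (c1 * ε)) * (1 + 10000 * ε * (1 / (c1 * ε)))) := by gcongr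
          _ = A0 / c1 * (1 + 10000 / c1) := by field_simp
      have : ε * (min (γ ^ 2 * |S'| / 2) γ * |zB|) ≤ 2 * (A0 / c1 * (1 + 10000 / c1)) * M := by
        calc ε * (min (γ ^ 2 * |S'| / 2) γ * |zB|) ≤ ε * (γ ^ 2 * |S'| / 2 * |zB|) := by
              gcongr
              exact min_le_left _ _
          _ = ε * |S'| * (γ ^ 2 * |zB|) / 2 := by ring
          _ ≤ A0 / c1 * (1 + 10000 / c1) * (4 * M) / 2 := by gcongr
          _ = 2 * (A0 / c1 * (1 + 10000 / c1)) * M := by ring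
      linarith only [p1, this]
  have q3 : ε * |bB| ≤ C1 * M := by
    have p1 : ε * (|zA - zB| / |S'|) ≤ 4 / a0 * M :=
      (mul_le_of_le_one_left (by positivity) e1).trans q1
    have p2 := mul_le_mul_of_nonneg_left H1 e0.le
    rw [hC1]
    linarith only [q2, p1, p2]
  have q4 : (2 / |S'| + γ) * |zA - zB| ≤ (2 / a0 + 10000) * (4 * M) := by
    gcongr
    linarith only [e1, γle]
  have q5 : 0 ≤ C1 * M := by positivity
  have q6 : 0 ≤ (2 / a0 + 10000) * (4 * M) := by positivity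
  constructor
  · have p1 := mul_le_mul_of_nonneg_left H2 e0.le
    have p2 : ε * ((2 / |S'| + γ) * |zA - zB|) ≤ (2 / a0 + 10000) * (4 * M) :=
      (mul_le_of_le_one_left (by positivity) e1).trans q4
    linarith only [q3, q5, p1, p2]
  · have p1 := mul_le_mul_of_nonneg_left hβ e0.le
    linarith only [q3, q6, p1]

theorem nd_cmp (c : Ctx f g) :
    ∃ C : ℝ, EvAll c fun _ _ _ _ S ξ M => ∀ i, S.x i ≤ 2 * c.σ0 → S.G1 i →
      |ξ.β (S.T.symm i)| ≤ 2 * |ξ.β (S.T i)| + C * M := by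
  obtain ⟨a0, ha0, A0, hA0, hb⟩ := el1_base c
  refine ⟨2 * ((2 / a0 + 10000) * 4), hb.mono ?_⟩
  intro Λ σ ε I S ξ M h i hi h1
  obtain ⟨e0, e1, M0, kA, aP0, γ0, γle, S', zB, bB, zA, LS, dd, cz, hβ, lo, up⟩ := h i hi h1
  have S0 : 0 < |S'| := ha0.trans_le lo
  have H2 := LS.symm.H2 (sq_nonneg _) (neg_ne_zero.2 (abs_pos.1 S0))
  rw [Real.sqrt_sq γ0, abs_neg, abs_sub_comm zB] at H2
  have q4 : (2 / |S'| + S.γ (S.T i)) * |zA - zB| ≤ (2 / a0 + 10000) * (4 * M) := by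
    gcongr
    linarith only [e1, γle]
  linarith only [hβ, H2, q4]

end XR
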