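import Pool.Agent.P.MP_408b1f_gt.ELem1

/-! Passage along a genuine oblique edge near the left end.
Put i' = R i, A = T i, A' = T i' = R A, B' = T.symm i', W' = W i'. theta_geom: by ls,
yO i' < yO i < yP i' (hz of G3), so G1 i' (g1_of_ne) with t1 i' = 1 (G1.ydiff); u.2, v.2 > 0 at i'
(G2 B', t2 B' = 1) and w u, w v > 0 (G3) give u.1 > eps u.2, v.1 > eps v.2, W' <= aP i';
aP <= (2 / eta) nP (hslope at B'), nbound, kap_near, kratio for the run A, R A.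
theta: nondeep at i' (with c1 = cN / 2, nbound, kap_near) bounds beta B'. Two links with the same
Delta (det_eq lemmas): link_of_tr (tr2 i) from w with sign 1 at O i (norm W' by zeta_R) to w at A,
parameter S2 = t1 A * m2 i / (W' W A) (the determinant is exactly - t2 i m2 i); and link_T at B',
parameter S1 = t1 B' * Gd B' / (W B' W'). With zO the value at O i, zeta i' = zO + e h3 i / W'
(zeta_R). H4 for the symm of the first link and H4 for the second give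
|S2| |b A| <= |zeta A - zeta B'| + |S1| |b B'| + |e| h3 i / W' + min (..) |zeta A| + min (..) |zeta B'|.
Multiply by W' W A / (z kappa A) where |m2 i| >= z (sg_lower, nearL_t). kappa A |zeta A - zeta B'|
<= C M + C eps^2 |beta A| by dd_near at i' and incr_bd at A (Small.sm); absorb the last term. For
the min terms use sqrt Delta |S| and ct / gamma when c1 eps <= gamma A, and Delta S^2 / 2 with
kappa A / W' <= 1 / (c1 eps) otherwise (all kappa of A, A', B' are comparable). -/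

open Set MeasureTheory Filter Topology

noncomputable section

namespace XR

variable {f g : ℝ → ℝ}

/-- the error terms of the two links -/
theorem el2_err {D γ κ W S z ct g0 c e M : ℝ} (hκ : 0 < κ) (hγ : 0 ≤ γ) (hD : D / κ ^ 4 = γ ^ 2)
    (hW : 0 < W) (he : 0 < e) (hc : 0 < c) (hg : κ * W * |S| ≤ g0)
    (hct : ct = γ ^ 2 * κ * |z|) (hM : ct ≤ M) (h : c * e ≤ γ ∨ c * e * κ ≤ W) :
    e * W * (min (D * S ^ 2 / 2) (√D * |S|) * |z|) ≤ (g0 + g0 ^ 2) / c * M := by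
  have hD' : D = (γ * κ ^ 2) ^ 2 := by
    have : D = γ ^ 2 * κ ^ 4 := by rw [← hD]; field_simp
    rw [this]; ring
  have hX : 0 ≤ κ * W * |S| := by positivity
  have hg0 : 0 ≤ g0 := hX.trans hg
  have hct0 : 0 ≤ ct := by rw [hct]; positivity
  have hM0 : 0 ≤ M := hct0.trans hM
  have hz := abs_nonneg z
  have heW : 0 ≤ e * W := by positivity
  rw [div_mul_eq_mul_div, le_div_iff₀ hc]
  rcases h with h | h
  · have h1 : e * W * (min (D * S ^ 2 / 2) (√D * |S|) * |z|) ≤ e * W * (√D * |S| * |z|) :=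
      mul_le_mul_of_nonneg_left (mul_le_mul_of_nonneg_right (min_le_right _ _) hz) heW
    have h2 : √D = γ * κ ^ 2 := by rw [hD']; exact Real.sqrt_sq (by positivity)
    have h3 : e * W * (√D * |S| * |z|) * c = (c * e) * (γ * κ * |z|) * (κ * W * |S|) := by
      rw [h2]; ring
    have h4 : (c * e) * (γ * κ * |z|) ≤ M := by
      calc (c * e) * (γ * κ * |z|) ≤ γ * (γ * κ * |z|) :=
            mul_le_mul_of_nonneg_right h (by positivity)
        _ = ct := by rw [hct]; ring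
        _ ≤ M := hM
    have h5 : (c * e) * (γ * κ * |z|) * (κ * W * |S|) ≤ M * g0 :=
      mul_le_mul h4 hg hX hM0
    have h6 := mul_le_mul_of_nonneg_right h1 hc.le
    have h7 : 0 ≤ g0 ^ 2 * M := by positivity
    linarith only [h3, h5, h6, h7]
  · have h1 : e * W * (min (D * S ^ 2 / 2) (√D * |S|) * |z|) ≤ e * W * (D * S ^ 2 / 2 * |z|) :=
      mul_le_mul_of_nonneg_left (mul_le_mul_of_nonneg_right (min_le_left _ _) hz) heW
    have h3 : e * W * (D * S ^ 2 / 2 * |z|) * c =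
        ct * ((c * e * κ) * (W * κ ^ 2 * |S| ^ 2)) / 2 := by
      rw [hD', hct, sq_abs]; ring
    have h4 : (c * e * κ) * (W * κ ^ 2 * |S| ^ 2) ≤ g0 ^ 2 := by
      calc (c * e * κ) * (W * κ ^ 2 * |S| ^ 2) ≤ W * (W * κ ^ 2 * |S| ^ 2) :=
            mul_le_mul_of_nonneg_right h (by positivity)
        _ = (κ * W * |S|) ^ 2 := by ring
        _ ≤ g0 ^ 2 := pow_le_pow_left₀ hX hg 2
    have h5 : ct * ((c * e * κ) * (W * κ ^ 2 * |S| ^ 2)) ≤ M * g0 ^ 2 :=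
      mul_le_mul hM h4 (by positivity) hM0
    have h6 := mul_le_mul_of_nonneg_right h1 hc.le
    have h7 : 0 ≤ g0 ^ 2 * M := by positivity
    have h8 : 0 ≤ g0 * M := by positivity
    linarith only [h3, h5, h6, h7, h8]

/-- the final assembly of the estimate -/
theorem el2_fin {e W hA κA κB m z S1 S2 βA βB zO zI zA zB zA' E1 E2 x h3 K1 K2 g0 C0 C1 q M : ℝ}
    (he : 0 < e) (he1 : e ≤ 1) (hW : 0 < W) (hA1 : hA ≤ 1) (hκA : 0 < κA)
    (hκB : 0 < κB) (hz : 0 < z) (hm : z ≤ m) (hS2 : |S2| * (W * (κA * hA)) = m)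
    (l1 : |zO - zA - -S2 * (βA * κA)| ≤ E1) (l2 : |zI - zB - S1 * (βB * κB)| ≤ E2)
    (l3 : zI = zO + x * h3 / W) (h30 : 0 < h3) (h31 : h3 ≤ 1) (hM : 0 ≤ M) (hx : |x| ≤ M)
    (k1 : e * W * E1 ≤ K1 * M) (k2 : e * W * E2 ≤ K2 * M) (hg : κB * W * |S1| ≤ g0)
    (hB : e * |βB| ≤ C1 * M) (hC0 : W ≤ C0 * κA) (hq : C0 * q ≤ z / 2)
    (d1 : κA * |zA' - zB| ≤ 8 * M) (d2 : κA * |zA' - zA| ≤ 3 * M + q * |βA|) :
    e * |βA| ≤ 2 / z * (K1 + K2 + g0 * C1 + 11 * C0 + 1) * M := by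
  have hC : 0 < C0 := by
    by_contra hn
    have : C0 * κA ≤ 0 := mul_nonpos_of_nonpos_of_nonneg (not_lt.1 hn) hκA.le
    linarith only [hW, hC0, this]
  have hE1 : 0 ≤ E1 := (abs_nonneg _).trans l1
  have hE2 : 0 ≤ E2 := (abs_nonneg _).trans l2
  have hX : 0 ≤ κB * W * |S1| := by positivity
  have hg0 : 0 ≤ g0 := hX.trans hg
  have a1 : |S2 * (βA * κA)| ≤ E1 + E2 + |zA' - zB| + |zA' - zA| + |S1 * (βB * κB)| +
      |x * h3 / W| := by
    have e1 : S2 * (βA * κA) = (zO - zA - -S2 * (βA * κA)) - (zI - zB - S1 * (βB * κB)) +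
        (zA' - zB) - (zA' - zA) - S1 * (βB * κB) + x * h3 / W := by rw [l3]; ring
    rw [abs_le]
    have b1 := abs_le.1 l1
    have b2 := abs_le.1 l2
    have b3 := neg_abs_le (zA' - zB)
    have b3' := le_abs_self (zA' - zB)
    have b4 := neg_abs_le (zA' - zA)
    have b4' := le_abs_self (zA' - zA)
    have b5 := neg_abs_le (S1 * (βB * κB))
    have b5' := le_abs_self (S1 * (βB * κB))
    have b6 := neg_abs_le (x * h3 / W)
    have b6' := le_abs_self (x * h3 / W)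
    constructor <;> linarith only [l3, b1, b2, b3, b4', b5', b6, b3', b4, b5, b6', b1.1, b1.2, b2.1, b2.2]
  have a2 : e * W * hA * |S2 * (βA * κA)| = m * (e * |βA|) := by
    rw [abs_mul, abs_mul, abs_of_pos hκA, ← hS2]; ring
  have a3 : e * W * |S1 * (βB * κB)| ≤ g0 * C1 * M := by
    have : e * W * |S1 * (βB * κB)| = (κB * W * |S1|) * (e * |βB|) := by
      rw [abs_mul, abs_mul, abs_of_pos hκB]; ring
    rw [this, mul_assoc g0]
    exact mul_le_mul hg hB (by positivity) hg0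
  have a4 : e * W * |x * h3 / W| ≤ M := by
    have : e * W * |x * h3 / W| = e * h3 * |x| := by
      rw [abs_div, abs_mul, abs_of_pos hW, abs_of_pos h30]; field_simp
    rw [this]
    have h1 : e * h3 ≤ 1 := mul_le_one₀ he1 h30.le h31
    exact (mul_le_of_le_one_left (abs_nonneg x) h1).trans hx
  have a5 : e * W * (|zA' - zB| + |zA' - zA|) ≤ 11 * C0 * M + z / 2 * (e * |βA|) := by
    have h0 : 0 ≤ |zA' - zB| + |zA' - zA| := by positivity
    have h1 : W * (|zA' - zB| + |zA' - zA|) ≤ C0 * κA * (|zA' - zB| + |zA' - zA|) :=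
      mul_le_mul_of_nonneg_right hC0 h0
    have h2 : C0 * (κA * |zA' - zB| + κA * |zA' - zA|) ≤ C0 * (11 * M + q * |βA|) :=
      mul_le_mul_of_nonneg_left (by linarith only [d1, d2]) hC.le
    have h4 : C0 * q * |βA| ≤ z / 2 * |βA| := mul_le_mul_of_nonneg_right hq (abs_nonneg _)
    have h5 : W * (|zA' - zB| + |zA' - zA|) ≤ 11 * C0 * M + z / 2 * |βA| := by linarith only [h1, h2, h4]
    have h6 := mul_le_mul_of_nonneg_left h5 he.le
    have h7 : e * (11 * C0 * M) ≤ 11 * C0 * M := mul_le_of_le_one_left (by positivity) he1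
    linarith only [h6, h7]
  have a6 : e * W * |S2 * (βA * κA)| ≤
      (K1 + K2 + g0 * C1 + 11 * C0 + 1) * M + z / 2 * (e * |βA|) := by
    have := mul_le_mul_of_nonneg_left a1 (show 0 ≤ e * W by positivity)
    linarith only [k1, k2, a3, a4, a5, this]
  have a7 : e * W * hA * |S2 * (βA * κA)| ≤ e * W * |S2 * (βA * κA)| := by
    have h0 : 0 ≤ e * W * |S2 * (βA * κA)| := by positivity
    have := mul_le_of_le_one_left h0 hA1
    linarith only [this]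
  have a8 : z * (e * |βA|) ≤ m * (e * |βA|) := mul_le_mul_of_nonneg_right hm (by positivity)
  have a9 : z / 2 * (e * |βA|) ≤ (K1 + K2 + g0 * C1 + 11 * C0 + 1) * M := by linarith only [a2, a6, a7, a8]
  have : 2 / z * (K1 + K2 + g0 * C1 + 11 * C0 + 1) * M =
      (K1 + K2 + g0 * C1 + 11 * C0 + 1) * M / (z / 2) := by field_simp
  rw [this, le_div_iff₀ (by positivity)]
  linarith only [a2, a6, a7, a8]

theorem el2_ratio {a b : ℝ} (hb : 0 < b) (h : |a / b - 1| ≤ 1 / 2) : a ≤ 3 / 2 * b ∧ b ≤ 2 * a := by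
  have h1 := abs_le.1 h
  have h2 : a / b ≤ 3 / 2 := by linarith only [h1, h1.2]
  have h3 : 1 / 2 ≤ a / b := by linarith only [h1, h1.1]
  rw [div_le_iff₀ hb] at h2
  rw [le_div_iff₀ hb] at h3
  constructor <;> linarith only [h2, h3]

theorem el2_sqrt {a b a' b' k : ℝ} (hk : 0 ≤ k) (ha : 0 ≤ a) (hb : 0 ≤ b) (h1 : k * a ≤ a')
    (h2 : k * b ≤ b') : k * √(a * b) ≤ √(a' * b') := by
  have h0 : 0 ≤ k * a := by positivity
  have h0' : 0 ≤ k * b := by positivity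
  apply Real.le_sqrt_of_sq_le
  rw [mul_pow, Real.sq_sqrt (mul_nonneg ha hb)]
  have := mul_le_mul h1 h2 h0' (h0.trans h1)
  linarith

/-- the geometric facts along the edge -/
theorem el2_geom {ε : ℝ} {I : Type} {S : Sys f g ε I} {yL yR : ℝ} {c : Ctx0 f g}
    (hs : c.Small ε) (hm : Mg0 c.η S yL yR) {i : I} (hi : S.x i ≤ c.σ0) (h3 : S.G3 i)
    (ht : S.t3 i = 1) :
    S.G1 (S.R i) ∧ S.t1 (S.R i) = 1 ∧ ε * S.nP (S.R i) ≤ S.aP (S.R i) ∧
      S.W (S.R i) ≤ S.aP (S.R i) ∧ c.η / 2 * S.aP (S.R i) ≤ S.nP (S.R i) ∧ S.h3 i ≤ 1 ∧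
      S.x (S.R i) ≤ 2 * c.σ0 ∧ |S.m2 (S.T.symm (S.R i))| ≤ 1 / (c.η / 2) := by
  have hε := hs.εpos
  have hσ := c.σ0pos
  have hη := c.ηpos
  have hx : S.x (S.R i) ≤ 2 * c.σ0 := by
    have := (abs_le.1 (S.xstep hε.le i)).2
    linarith only [hi, hσ, this, hs.leσ]
  have hi2 : S.x i ≤ 2 * c.σ0 := by linarith
  have hl := (ls hs hm hi2 hx).2.2.1
  have hp : 0 < c.η * c.f0 / 4 * ε := by have := c.f0pos; positivity
  have hy : S.yP (S.R i) - S.yO i = S.h3 i := by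
    have := h3.hz
    simp only [Sys.yP, Sys.yO]
    rw [this, ht]
    simp
  have hh := h3.hlen
  have hlt : S.yO (S.R i) < S.yP (S.R i) := by linarith only [hl, hp, hy, hh]
  have hG : S.G1 (S.R i) := by
    apply S.g1_of_ne c.hf.zero0 c.hf.zero1
    intro e
    simp only [Sys.yP, Sys.yO] at hlt
    rw [e] at hlt
    exact lt_irrefl _ hlt
  have ht1 : S.t1 (S.R i) = 1 := by
    rcases hG.1.ht with e | e
    · exact e
    · have h1 := hG.ydiff
      have h2 := c.hf.nonneg _ (S.x_mem (S.R i))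
      rw [e] at h1
      linarith only [hl, hp, hy, hh, h1, h2]
  obtain ⟨n1, -, -, gB, -, tB, -, -⟩ := nearL hs hm hx
  have u2 := gB.1.hu
  have v2 := gB.1.hv
  rw [tB, Equiv.apply_symm_apply, one_mul] at u2 v2
  have wu := h3.hu
  have wv := h3.hv
  rw [ht, one_mul] at wu wv
  have wu' : ε * (S.u (S.R i)).2 < (S.u (S.R i)).1 := by simp only [w] at wu; linarith only [wu]
  have wv' : ε * (S.v (S.R i)).2 < (S.v (S.R i)).1 := by simp only [w] at wv; linarith only [wv]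
  have pu : 0 < ε * (S.u (S.R i)).2 := by positivity
  have pv : 0 < ε * (S.v (S.R i)).2 := by positivity
  have hyB : S.yO (S.T.symm (S.R i)) = S.yP (S.R i) := S.yO_Tsymm _
  have n2 := abs_le.1 n1
  obtain ⟨-, -, s1, s2, s3⟩ := gB.hslope (a := c.η / 2) (by positivity)
    (by rw [hyB]; linarith only [hη, n2, hm.hL.1, n2.1]) (by rw [hyB]; linarith only [hη, n2, hm.hL.2, n2.2])
  rw [Equiv.apply_symm_apply] at s1 s2
  rw [abs_of_pos u2, abs_of_pos (pu.trans wu')] at s1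
  rw [abs_of_pos v2, abs_of_pos (pv.trans wv')] at s2
  refine ⟨hG, ht1, el2_sqrt hε.le u2.le v2.le wu'.le wv'.le, ?_,
    el2_sqrt (by positivity) (pu.trans wu').le (pv.trans wv').le s1 s2, ?_, hx, s3⟩
  · have := el2_sqrt (k := 1) zero_le_one wu.le wv.le (a' := (S.u (S.R i)).1)
      (b' := (S.v (S.R i)).1) (by simp only [w]; linarith only [pu]) (by simp only [w]; linarith only [pv])
    rw [one_mul] at this
    exact this
  · linarith only [hy, (S.yP_mem (S.R i)).2, (S.yO_mem i).1]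

/-- comparison of the kappa at `T i` and at `T (R i)` -/
theorem el2_kap {ε : ℝ} {I : Type} {S : Sys f g ε I} {yL yR : ℝ} {c : Ctx0 f g}
    (hs : c.Small ε) (hm : Mg0 c.η S yL yR) {i : I} (hi : S.x i ≤ 2 * c.σ0)
    (hx : S.x (S.R i) ≤ 2 * c.σ0) :
    S.κ (S.T i) ≤ 2 * S.κ (S.T (S.R i)) ∧ S.κ (S.T (S.R i)) ≤ 2 * S.κ (S.T i) := by
  have hσ := c.σ0pos
  have hA := (nearL hs hm hi).2.2.2.2.2.2.1
  have hA' := (nearL hs hm hx).2.2.2.2.2.2.1
  have hr : S.Run (4 * c.σ0) (S.T i) 1 := by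
    intro l hl
    rcases Nat.le_one_iff_eq_zero_or_eq_one.1 hl with rfl | rfl
    · simpa using hA
    · rw [pow_one, S.comm]; exact hA'
  have h1 := (S.kappa_run hs.εpos (by linarith [hs.leσ, hs.εpos]) hr).1
  rw [pow_one, S.comm] at h1
  have h2 : 4 * ε / (4 * c.σ0) ≤ 1 / 2 := by
    rw [div_le_iff₀ (by positivity)]; linarith only [hσ, hs.leσ, hs.εpos]
  have hk := (S.kappa_pos hs.εpos (by linarith [hs.leσ, hs.εpos]) hA).1
  obtain ⟨b1, b2⟩ := el2_ratio hk (h1.trans h2)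
  exact ⟨b2, by linarith only [hk, b1]⟩

theorem theta_geom (c : Ctx f g) : ∃ C : ℝ, EvG c fun ε _ S => ∀ i, S.x i ≤ c.σ0 → S.G3 i →
    S.t3 i = 1 → S.G1 (S.R i) ∧ S.t1 (S.R i) = 1 ∧ ε * S.nP (S.R i) ≤ S.aP (S.R i) ∧
      S.W (S.R i) ≤ C * S.κ (S.T i) ∧ S.h3 i ≤ 1 ∧ S.x (S.R i) ≤ 2 * c.σ0 := by
  obtain ⟨cN, -, CN, hCN, hN⟩ := nbound c.toCtx0
  refine ⟨3 * CN / (c.η / 2), ?_⟩
  have hσ := c.σ0pos
  have hη := c.ηpos
  filter_upwards [c.toCtx0.ev_small, kap_near c.toCtx0 hσ le_rfl (δ := 1 / 2) (by norm_num)]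
    with ε hs hk I S yL yR ς hm i hi h3 ht
  obtain ⟨a1, a2, a3, a4, a5, a6, a7, -⟩ := el2_geom hs hm.toMg0 hi h3 ht
  refine ⟨a1, a2, a3, ?_, a6, a7⟩
  have hi2 : S.x i ≤ 2 * c.σ0 := by linarith only [hσ, hi]
  have b1 := (hN hs hm.toMg0 _ a7).2.2.2
  have hA' := (nearL hs hm.toMg0 a7).2.2.2.2.2.2.1
  have k0 := (S.kappa_pos hs.εpos (by linarith only [hσ, hs.leσ, hs.εpos]) hA').1
  have b2 := (el2_ratio k0 (hk I S yL yR hm.toMg0 _ (Or.inl a7)).2.1).1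
  have b3 := (el2_kap hs hm.toMg0 hi2 a7).2
  have b4 : CN * S.κ (S.T.symm (S.R i)) ≤ CN * (3 * S.κ (S.T i)) :=
    mul_le_mul_of_nonneg_left (by linarith) hCN.le
  rw [div_mul_eq_mul_div, le_div_iff₀ (by positivity)]
  have b5 : S.W (S.R i) * (c.η / 2) ≤ S.aP (S.R i) * (c.η / 2) :=
    mul_le_mul_of_nonneg_right a4 (by positivity)
  linarith only [a5, b1, b4, b5]

theorem el2_Gd {t2 m2 t1 m1 e a s : ℝ} (h2 : t2 = 1 ∨ t2 = -1) (h1 : t1 = 1 ∨ t1 = -1)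
    (he : 0 < e) (he1 : e ≤ 1) (hs : e ≤ s) (hm2 : |m2| ≤ a) (hm1 : |m1| ≤ 1 / s) :
    |-(t2 * m2) * (1 - e * (t1 * m1)) + e ^ 2 * (t1 * m1)| ≤ 2 * a + 1 := by
  have hs0 : 0 < s := he.trans_le hs
  have b1 : |e * (t1 * m1)| ≤ 1 := by
    rw [abs_mul, abs_mul, linkT_abs h1, one_mul, abs_of_pos he]
    calc e * |m1| ≤ s * (1 / s) := mul_le_mul hs hm1 (abs_nonneg _) hs0.le
      _ = 1 := by field_simp
  have b2 : |1 - e * (t1 * m1)| ≤ 2 := by
    have := abs_le.1 b1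
    rw [abs_le]; constructor <;> linarith only [this, this.1, this.2]
  have b3 : |-(t2 * m2) * (1 - e * (t1 * m1))| ≤ a * 2 := by
    rw [abs_mul, abs_neg, abs_mul, linkT_abs h2, one_mul]
    exact mul_le_mul hm2 b2 (abs_nonneg _) ((abs_nonneg _).trans hm2)
  have b4 : |e ^ 2 * (t1 * m1)| ≤ 1 := by
    have : e ^ 2 * (t1 * m1) = e * (e * (t1 * m1)) := by ring
    rw [this, abs_mul, abs_of_pos he]
    exact mul_le_one₀ he1 (abs_nonneg _) b1
  linarith [abs_add_le (-(t2 * m2) * (1 - e * (t1 * m1))) (e ^ 2 * (t1 * m1))]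

theorem el2_gam {D a b x y : ℝ} (ha : 0 < a) (hb : 0 < b) (hx : 0 ≤ x) (hy : 0 ≤ y)
    (h1 : D / a ^ 4 = x ^ 2) (h2 : D / b ^ 4 = y ^ 2) (h : b ≤ 3 * a) : x ≤ 9 * y := by
  have e1 : D = (x * a ^ 2) ^ 2 := by
    have : D = x ^ 2 * a ^ 4 := by rw [← h1]; field_simp
    rw [this]; ring
  have e2 : D = (y * b ^ 2) ^ 2 := by
    have : D = y ^ 2 * b ^ 4 := by rw [← h2]; field_simp
    rw [this]; ring
  have e3 : x * a ^ 2 = y * b ^ 2 :=
    (pow_left_inj₀ (by positivity) (by positivity) two_ne_zero).1 (e1.symm.trans e2)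
  have e4 : b ^ 2 ≤ (3 * a) ^ 2 := pow_le_pow_left₀ hb.le h 2
  have e5 : y * b ^ 2 ≤ y * (3 * a) ^ 2 := mul_le_mul_of_nonneg_left e4 hy
  have e6 : x * a ^ 2 ≤ 9 * y * a ^ 2 := by linarith only [e3, e5]
  exact le_of_mul_le_mul_right e6 (by positivity)

theorem theta (c : Ctx f g) {c1 : ℝ} (hc1 : 0 < c1) :
    ∃ C : ℝ, EvAll c fun _ _ ε _ S ξ M => ∀ i, S.x i ≤ c.σ0 → S.G3 i → S.t3 i = 1 →
      (c1 * ε ≤ S.γ (S.T i) ∨ c1 * ε * S.κ (S.T i) ≤ S.W (S.R i)) →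
      ε * |ξ.β (S.T i)| ≤ C * M := by
  obtain ⟨cN, hcN, CN, -, hN⟩ := nbound c.toCtx0
  obtain ⟨C0, h0⟩ := theta_geom c
  obtain ⟨C1, h1⟩ := nondeep c (c1 := cN / 2) (by positivity)
  have hσ := c.σ0pos
  have hη := c.ηpos
  have hf0 := c.f0pos
  obtain ⟨z, hz, hZ⟩ := c.hg.sg_lower c.ysI c.ysmax (δ := c.η / 2) (by positivity)
  obtain ⟨gA, hgA⟩ : ∃ x : ℝ, x = 1 / (c.η / 2) / (c.f0 / 2) := ⟨_, rfl⟩
  obtain ⟨gB, hgB⟩ : ∃ x : ℝ, x = (2 * (1 / (c.η / 2)) + 1) / (c.f0 / 2) := ⟨_, rfl⟩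
  obtain ⟨Q, hQ⟩ : ∃ x : ℝ, x = c.σ0 / 2 * c.f0 ^ 2 := ⟨_, rfl⟩
  have hQ0 : 0 < Q := by rw [hQ]; positivity
  refine ⟨2 / z * ((gA + gA ^ 2) / c1 + (gB + gB ^ 2) / (c1 / 9) + gB * C1 + 11 * C0 + 1), ?_⟩
  filter_upwards [h1, dd_near c, eventually_ge_atTop 1] with Λ h1 h2 hΛ
  filter_upwards [h1, h2, c.ev_σ] with σ h1 h2 hσσ
  filter_upwards [h0, h1, h2, c.toCtx0.ev_small,
    kap_near c.toCtx0 hσ le_rfl (δ := 1 / 2) (by norm_num), ev_le (a := Q / 8) (by positivity),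
    ev_le (a := z * Q / (16 * (|C0| + 1))) (by positivity)]
    with ε h0 h1 h2 hs hk e1 e2 I S yL yR ς hm ξ M hb i hi h3 ht hor
  have hε := hs.εpos
  have hσ8 := c.toCtx0.σ0_le
  have hεσ := hs.leσ
  have he1 : ε ≤ 1 := by linarith only [e1, hσ8, hεσ]
  have hi2 : S.x i ≤ 2 * c.σ0 := by linarith only [e1, hi, hεσ]
  obtain ⟨gI, tI, a3, a4, a6, hx⟩ := h0 I S yL yR ς hm i hi h3 ht
  have mB := (el2_geom hs hm.toMg0 hi h3 ht).2.2.2.2.2.2.2
  obtain ⟨-, n2, g2, -, t2, -, hA, -⟩ := nearL hs hm.toMg0 hi2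
  obtain ⟨-, -, -, g2B, -, t2B, hA', hB⟩ := nearL hs hm.toMg0 hx
  have h4 : 4 * ε ≤ 4 * c.σ0 := by linarith only [e1, hεσ]
  obtain ⟨kA, WA, eA, dA, γA, -⟩ := S.kappa_pos hε h4 hA
  obtain ⟨kA', -⟩ := S.kappa_pos hε h4 hA'
  obtain ⟨kB, WB, eB, dB, γB, -⟩ := S.kappa_pos hε h4 hB
  obtain ⟨sA, -, hhA⟩ := geo3_h hs hA
  obtain ⟨sB, -, hhB⟩ := geo3_h hs hB
  obtain ⟨r1, r2⟩ := el2_ratio kA' (hk I S yL yR hm.toMg0 _ (Or.inl hx)).2.1
  obtain ⟨r3, r4⟩ := el2_kap hs hm.toMg0 hi2 hx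
  -- the bound at B
  have hβB : ε * |ξ.β (S.T.symm (S.R i))| ≤ C1 * M := by
    refine (h1 I S yL yR ς hm ξ M hb _ hx gI (Or.inr ?_)).2
    have b1 := (hN hs hm.toMg0 _ hx).2.2.1
    have b2 : ε * (cN * S.κ (S.T.symm (S.R i))) ≤ ε * S.nP (S.R i) :=
      mul_le_mul_of_nonneg_left b1 hε.le
    have b3 : cN / 2 * ε * S.κ (S.T (S.R i)) ≤ cN / 2 * ε * (2 * S.κ (S.T.symm (S.R i))) :=
      mul_le_mul_of_nonneg_left r2 (by positivity)
    linarith only [a3, b2, b3]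
  -- the determinants
  have DA : det (S.u' i) (S.v' i) ^ 2 / 4 = S.Δ (S.T i) := by rw [Sys.Δ, g2.det_eq]
  have DB : S.Δ (S.T.symm (S.R i)) = S.Δ (S.T i) := by
    have q1 := g2B.det_eq
    rw [Equiv.apply_symm_apply] at q1
    rw [Sys.Δ, Sys.Δ, sB.g1.det_eq, ← q1, h3.det_eq, g2.det_eq]
  have D0 := (S.Δ_le (S.T i)).1
  obtain ⟨z1, z2, W0⟩ := zeta_R ξ h3 (tI.trans ht.symm)
  rw [ht] at z1
  have wu := h3.hu
  have wv := h3.hv
  have wu' := h3.hu'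
  have wv' := h3.hv'
  rw [ht] at wu wv wu' wv'
  -- the first link
  have L1 := link_of_tr (α := (1, -ε)) (α' := (1, -ε)) (tr2 ξ g2) (Or.inl rfl) sA.g1.1.ht
    (by rwa [linkT_dot]) (by rwa [linkT_dot]) (by rw [linkT_dot]; exact sA.wu)
    (by rw [linkT_dot]; exact sA.wv)
  have ed : det ((1, -ε) : V) (pull 1 (-(S.t2 i * S.m2 i)) 0 1 (1, -ε)) = S.m2 i := by
    simp only [det, pull, t2]
    ring
  rw [ed, linkT_dot, linkT_dot, linkT_dot, linkT_dot, ← z2, DA] at L1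
  have H1 := L1.symm.H4 D0
  obtain ⟨S2, hS2⟩ : ∃ x : ℝ, x = 1 * S.t1 (S.T i) * S.m2 i /
    (S.W (S.R i) * √(w ε (S.u (S.T i)) * w ε (S.v (S.T i)))) := ⟨_, rfl⟩
  rw [← hS2] at H1
  have hhA0 := sA.hpos
  have hhB0 := sB.hpos
  have aS2 : |S2| * (S.W (S.R i) * (S.κ (S.T i) * S.h (S.T i))) = |S.m2 i| := by
    have : √(w ε (S.u (S.T i)) * w ε (S.v (S.T i))) = S.κ (S.T i) * S.h (S.T i) := eA
    rw [hS2, this, abs_div, abs_mul, abs_mul, abs_one, linkT_abs sA.g1.1.ht,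
      abs_of_pos (show 0 < S.W (S.R i) * (S.κ (S.T i) * S.h (S.T i)) by positivity)]
    field_simp
  -- the second link
  have L2 := link_T ξ sB.g1 g2B (by rw [Equiv.apply_symm_apply]; exact Or.inl tI) sB.wu sB.wv
    (by rw [Equiv.apply_symm_apply, tI]; exact wu) (by rw [Equiv.apply_symm_apply, tI]; exact wv)
  rw [Equiv.apply_symm_apply, tI, DB] at L2
  have H2 := L2.H4 D0
  obtain ⟨S1, hS1⟩ : ∃ x : ℝ, x = S.t1 (S.T.symm (S.R i)) * 1 * S.Gd (S.T.symm (S.R i)) /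
    (S.W (S.T.symm (S.R i)) * S.W (S.R i)) := ⟨_, rfl⟩
  rw [← hS1] at H2
  have hGd : |S.Gd (S.T.symm (S.R i))| ≤ 2 * (1 / (c.η / 2)) + 1 :=
    el2_Gd g2B.1.ht sB.g1.1.ht hε he1 (s := 4 * c.σ0) (by linarith only [e1, hεσ]) mB
      (S.g1_of hε (by linarith only [e1, hεσ]) hB).2.2.2.2.2
  have aS1 : S.κ (S.T.symm (S.R i)) * S.W (S.R i) * |S1| ≤ gB := by
    have : S.κ (S.T.symm (S.R i)) * S.W (S.R i) * |S1| =
        |S.Gd (S.T.symm (S.R i))| / S.h (S.T.symm (S.R i)) := by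
      rw [hS1, eB, abs_div, abs_mul, abs_mul, abs_one, linkT_abs sB.g1.1.ht,
        abs_of_pos (show 0 < S.κ (S.T.symm (S.R i)) * S.h (S.T.symm (S.R i)) * S.W (S.R i) by
          positivity)]
      field_simp
    rw [this, hgB]
    exact div_le_div₀ (by positivity) hGd (by positivity) hhB
  have n3 := abs_le.1 n2
  have mA : |S.m2 i| ≤ 1 / (c.η / 2) :=
    (g2.hslope (a := c.η / 2) (by positivity) (by linarith only [hη, n3, hm.hL.1, n3.1])
      (by linarith only [hη, n3, hm.hL.2, n3.2])).2.2.2.2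
  have aS2' : S.κ (S.T i) * S.W (S.R i) * |-S2| ≤ gA := by
    have : S.κ (S.T i) * S.W (S.R i) * |-S2| = |S.m2 i| / S.h (S.T i) := by
      rw [abs_neg, ← aS2]
      field_simp
    rw [this, hgA]
    exact div_le_div₀ (by positivity) mA (by positivity) hhA
  have hzm : z ≤ |S.m2 i| := by
    refine (hZ _ (S.yO_mem i) ?_ _ g2.2).1
    have q := (nearL_t hs hm hi2).2.2.1
    have q' : ς * (S.yO i - c.ys) ≤ |ς * (S.yO i - c.ys)| := le_abs_self _
    rw [abs_mul, linkT_abs hm.hς, one_mul] at q'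
    exact q.trans q'
  have hct : ∀ j, S.InB (4 * c.σ0) j → 0 < S.κ j → ξ.ct j ≤ M := by
    intro j hj hk
    have q1 := hb.bc j (hj.mono (by linarith only [hσσ, e1, hεσ, hσσ.2]))
    exact (le_mul_of_one_le_left (linkT_ct ξ hk).2 hΛ).trans q1
  have hM := hb.nn
  have hx' : |ξ.e| ≤ M := hb.be.trans (mul_le_of_le_one_left hM he1)
  have K1 := el2_err kA γA dA W0 hε hc1 aS2' rfl (hct _ hA kA) hor
  have dB' := dB
  rw [DB] at dB'
  have K2 := el2_err (c := c1 / 9) kB γB dB' W0 hε (by positivity) aS1 rfl (hct _ hB kB) (by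
    rcases hor with h | h
    · left
      have := el2_gam kA kB γA γB dA dB' (by linarith only [r1, r4])
      linarith only [h, this]
    · right
      have : c1 / 9 * ε * S.κ (S.T.symm (S.R i)) ≤ c1 / 9 * ε * (9 * S.κ (S.T i)) :=
        mul_le_mul_of_nonneg_left (by linarith only [kA, r1, r4]) (by positivity)
      linarith only [h, this])
  -- the increments
  have d1 : S.κ (S.T i) * |ξ.ζ (S.T (S.R i)) - ξ.ζ (S.T.symm (S.R i))| ≤ 8 * M := by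
    have q1 := h2 I S yL yR ς hm ξ M hb _ (Or.inl hx)
    have q2 := mul_le_mul_of_nonneg_right r3
      (abs_nonneg (ξ.ζ (S.T (S.R i)) - ξ.ζ (S.T.symm (S.R i))))
    linarith only [q1, q2]
  obtain ⟨i1, i2⟩ := incr_bd ξ hs.sm (j := S.T i) (hA.mono (by linarith only [e1, hεσ]))
  rw [← hQ] at i1 i2
  rw [S.comm] at i2
  obtain ⟨q, hq⟩ : ∃ x : ℝ, x = 8 * ε ^ 2 / Q := ⟨_, rfl⟩
  rw [← hq] at i1 i2
  have q0 : 0 ≤ q := (abs_nonneg _).trans i1
  have q8 : q ≤ 8 * ε / Q := by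
    rw [hq]
    have : ε * ε ≤ ε := mul_le_of_le_one_left hε.le he1
    exact div_le_div_of_nonneg_right (by linarith only [this]) hQ0.le
  have q1 : q ≤ 1 := by
    refine q8.trans ?_
    rw [div_le_one hQ0]
    linarith only [e1, e1.2]
  have qz : C0 * q ≤ z / 2 := by
    have b1 : C0 * q ≤ (|C0| + 1) * (8 * ε / Q) :=
      mul_le_mul (by linarith only [e1, hσ8, hεσ, le_abs_self C0]) q8 q0 (by positivity)
    have b2 := e2.2
    rw [le_div_iff₀ (by positivity)] at b2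
    have b3 : (|C0| + 1) * (8 * ε / Q) ≤ z / 2 := by
      rw [← mul_div_assoc, div_le_iff₀ hQ0]
      linarith only [b2]
    linarith only [b1, b3]
  have d2 : S.κ (S.T i) * |ξ.ζ (S.T (S.R i)) - ξ.ζ (S.T i)| ≤ 3 * M + q * |ξ.β (S.T i)| := by
    have b1 : |ξ.e * (S.κ (S.T i) / S.κ (S.T (S.R i)))| ≤ M * 2 := by
      rw [abs_mul, abs_of_pos (div_pos kA kA')]
      exact mul_le_mul hx' ((div_le_iff₀ kA').2 r3) (div_pos kA kA').le hM
    have b2 : |S.Sθ (S.T i) * ξ.β (S.T i)| ≤ q * |ξ.β (S.T i)| := by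
      rw [abs_mul]
      exact mul_le_mul_of_nonneg_right i1 (abs_nonneg _)
    have b3 : q ^ 2 * ξ.ct (S.T i) ≤ 1 * M :=
      mul_le_mul (pow_le_one₀ q0 q1) (hct _ hA kA) (linkT_ct ξ kA).2 zero_le_one
    have b7 : S.κ (S.T i) * |ξ.ζ (S.T (S.R i)) - ξ.ζ (S.T i)| =
        |S.κ (S.T i) * (ξ.ζ (S.T (S.R i)) - ξ.ζ (S.T i))| := by rw [abs_mul, abs_of_pos kA]
    rw [b7, abs_le]
    have b4 := abs_le.1 i2
    have b5 := abs_le.1 b1
    have b6 := abs_le.1 b2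
    constructor <;> linarith only [b3, b4, b5, b6, b4.1, b4.2, b5.1, b5.2, b6.1, b6.2]
  have bA : ξ.b (S.T i) = ξ.β (S.T i) * S.κ (S.T i) := by
    rw [Lin.β]; field_simp
  have bB : ξ.b (S.T.symm (S.R i)) = ξ.β (S.T.symm (S.R i)) * S.κ (S.T.symm (S.R i)) := by
    rw [Lin.β]; field_simp
  rw [bB] at H2
  have H1' : |zt 1 (1, -ε) (S.u' i) (S.v' i) (ξ.o i) - ξ.ζ (S.T i) - -S2 * ξ.b (S.T i)| ≤
      min (S.Δ (S.T i) * (-S2) ^ 2 / 2) (√(S.Δ (S.T i)) * |-S2|) * |ξ.ζ (S.T i)| := H1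
  rw [bA] at H1'
  exact el2_fin hε he1 W0 sA.hle kA kB hz hzm aS2 H1' H2 z1 h3.hlen a6 hM hx' K1 K2 aS1 hβB a4
    qz d1 d2

end XR
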