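import Pool.Agent.P.MP_408b1f_gt.ELem2

/-! The end lemma when the vertical edge is genuine.
w_lower: q12_sq gives q^2 = a N^2 + det^2 / 4 with a = u.1 v.1, N^2 = u.2 v.2, so
a >= - eps^2 N^2 / 64 and q^2 <= eps^2 N^4 / 32; w u * w v = a - 2 eps q + eps^2 N^2. If both factors
were negative then a > eps^2 N^2.
smoothP, smoothO: rpx, rpy, rox, roy, smooth_x, smooth_y, IsTan.not_interior.
elem_g1: let cN be the constant of nbound, A = T i. If cN^2 / 8 * eps <= gamma A or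
cN / 8 * eps * kappa A <= aP i use nondeep (with the min of the two constants). Otherwise w_lower
applies to u' i, v' i (u'.1 v'.1 = aP^2 by hn of G1, nO i >= cN kappa A, |det| / 2 = gamma A kappa A^2
by G2.det_eq, u'.2, v'.2 < 0 as t2 i = -1). If o i = 0 then p A = 0 and p (T.symm i) = 0 (tr1, tr2,
Tr.zero), so both beta vanish (bt_of_par; C M >= 0, take C >= 0). Otherwise smoothO and
inner_of_smooth (w_eq_dot) give G3 i with t3 i = 1, and W (R i) >= eps nO i / 2 (zeta_R or hn of G3);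
theta with c1 = cN / 2, then nd_cmp. -/

open Set MeasureTheory Filter Topology

noncomputable section

namespace XR

variable {f g : ℝ → ℝ} {ε : ℝ} {I : Type} {S : Sys f g ε I}

theorem w_lower {u v : V} (hε : 0 < ε) (hu : u.2 < 0) (hv : v.2 < 0)
    (h1 : u.1 * v.1 ≤ ε ^ 2 * (u.2 * v.2) / 64) (h2 : |det u v| / 2 ≤ ε * (u.2 * v.2) / 8) :
    ε ^ 2 * (u.2 * v.2) / 2 ≤ w ε u * w ε v ∧ 0 < w ε u ∧ 0 < w ε v := by
  have hN : 0 < u.2 * v.2 := mul_pos_of_neg_of_neg hu hv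
  have hq := q12_sq u v
  have e : w ε u * w ε v =
      u.1 * v.1 - 2 * ε * ((u.1 * v.2 + u.2 * v.1) / 2) + ε ^ 2 * (u.2 * v.2) := by
    simp only [w]; ring
  have hneg : ¬ (w ε u < 0 ∧ w ε v < 0) := by
    rintro ⟨p1, p2⟩
    simp only [w] at p1 p2
    have q1 : 0 < -(ε * u.2) := by nlinarith
    have q2 : 0 < -(ε * v.2) := by nlinarith
    have q3 : -(ε * u.2) * -(ε * v.2) ≤ -u.1 * -v.1 :=
      mul_le_mul (by linarith) (by linarith) q2.le (by linarith)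
    have q4 : 0 < ε ^ 2 * (u.2 * v.2) := by positivity
    nlinarith
  have hd : det u v ^ 2 / 4 ≤ (ε * (u.2 * v.2) / 8) ^ 2 := by
    have h0 : 0 ≤ |det u v| / 2 := by positivity
    have := pow_le_pow_left₀ h0 h2 2
    rw [div_pow, sq_abs] at this
    linarith
  generalize u.2 * v.2 = N at *
  generalize u.1 * v.1 = a at *
  generalize (u.1 * v.2 + u.2 * v.1) / 2 = q at *
  generalize det u v ^ 2 / 4 = d at *
  have ha : -(ε ^ 2 * N / 64) ≤ a := by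
    by_contra hc
    have h3 : a * N < -(ε ^ 2 * N / 64) * N := mul_lt_mul_of_pos_right (not_le.mp hc) hN
    nlinarith [sq_nonneg q]
  have hq2 : q ^ 2 ≤ (ε * N / 5) ^ 2 := by
    have h3 : a * N ≤ ε ^ 2 * N / 64 * N := mul_le_mul_of_nonneg_right h1 hN.le
    have h4 : 0 ≤ (ε * N) ^ 2 := sq_nonneg _
    nlinarith
  have hq3 : q ≤ ε * N / 5 := (abs_le_of_sq_le_sq' hq2 (by positivity)).2
  have hq4 : ε * q ≤ ε * (ε * N / 5) := mul_le_mul_of_nonneg_left hq3 hε.le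
  have q4 : 0 < ε ^ 2 * N := by positivity
  have main : ε ^ 2 * N / 2 ≤ w ε u * w ε v := by rw [e]; nlinarith
  refine ⟨main, ?_⟩
  have hp : 0 < w ε u * w ε v := by linarith
  rcases mul_pos_iff.mp hp with h | h
  · exact h
  · exact absurd h hneg

theorem e3_ne {p : V} (h : p ≠ 0) : p.1 ≠ 0 ∨ p.2 ≠ 0 := by
  by_contra hc
  rw [not_or, not_not, not_not] at hc
  exact h (Prod.ext hc.1 hc.2)

theorem smoothP (ξ : Lin S) {j : I} (h : ξ.p j ≠ 0) : Smooth S.K (S.P j) ∧ Smooth S.L (S.P j) :=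
  by
  have n1 := (S.tanPK j).not_interior (Or.inl rfl)
  have n2 := (S.tanPL j).not_interior (Or.inl rfl)
  rcases e3_ne h with h | h
  · obtain ⟨a, b, d, -⟩ := ξ.rpx j h
    exact ⟨smooth_x S.hK (S.memP j).1 n1 ⟨a, b⟩ d, smooth_x S.hL (S.memP j).2 n2 ⟨a, b⟩ d⟩
  · obtain ⟨a, b, d, -⟩ := ξ.rpy j h
    exact ⟨smooth_y S.hK (S.memP j).1 n1 ⟨a, b⟩ d, smooth_y S.hL (S.memP j).2 n2 ⟨a, b⟩ d⟩

theorem smoothO (ξ : Lin S) {j : I} (h : ξ.o j ≠ 0) : Smooth S.K (S.O j) ∧ Smooth S.L (S.O j) :=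
  by
  have n1 := (S.tanOK j).not_interior (Or.inr rfl)
  have n2 := (S.tanOL j).not_interior (Or.inr rfl)
  rcases e3_ne h with h | h
  · obtain ⟨a, b, d, -⟩ := ξ.rox j h
    exact ⟨smooth_x S.hK (S.memO j).1 n1 ⟨a, b⟩ d, smooth_x S.hL (S.memO j).2 n2 ⟨a, b⟩ d⟩
  · obtain ⟨a, b, d, -⟩ := ξ.roy j h
    exact ⟨smooth_y S.hK (S.memO j).1 n1 ⟨a, b⟩ d, smooth_y S.hL (S.memO j).2 n2 ⟨a, b⟩ d⟩

theorem e3_beta (ξ : Lin S) {j : I} (h : ξ.p j = 0) : ξ.β j = 0 := by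
  have : ξ.b j = 0 := by
    unfold Lin.b
    rw [h]
    exact bt_of_par (by simp [det]) (by simp [det])
  unfold Lin.β
  rw [this, zero_div]

theorem e3_deep {cN : ℝ} (hc : 0 < cN) (hε : 0 < ε) {i : I} (h1 : S.G1 i) (h2 : S.G2 i)
    (ht : S.t2 i = -1) (hk : 0 < S.κ (S.T i)) (hn : cN * S.κ (S.T i) ≤ S.nO i)
    (hg : S.γ (S.T i) ≤ cN ^ 2 / 8 * ε) (ha : S.aP i ≤ cN / 8 * ε * S.κ (S.T i)) :
    (cN / 2 * ε * S.κ (S.T i)) ^ 2 ≤ w ε (S.u' i) * w ε (S.v' i) ∧ 0 < w ε (S.u' i) ∧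
      0 < w ε (S.v' i) := by
  have hu : (S.u' i).2 < 0 := by
    have := h2.1.hu'
    rw [ht] at this
    linarith
  have hv : (S.v' i).2 < 0 := by
    have := h2.1.hv'
    rw [ht] at this
    linarith
  have hN : 0 < (S.u' i).2 * (S.v' i).2 := mul_pos_of_neg_of_neg hu hv
  have hnO : S.nO i ^ 2 = (S.u' i).2 * (S.v' i).2 := Real.sq_sqrt hN.le
  have hck : 0 ≤ cN * S.κ (S.T i) := by positivity
  have hsq : (cN * S.κ (S.T i)) ^ 2 ≤ (S.u' i).2 * (S.v' i).2 := by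
    rw [← hnO]; exact pow_le_pow_left₀ hck hn 2
  have hle : (S.u' i).1 * (S.v' i).1 ≤ S.aP i ^ 2 := by
    have e := h1.1.hn
    rw [← e]
    unfold Sys.aP
    rcases le_total 0 ((S.u i).1 * (S.v i).1) with h | h
    · rw [Real.sq_sqrt h]
    · exact h.trans (sq_nonneg _)
  have ha0 : 0 ≤ S.aP i := Real.sqrt_nonneg _
  have ha2 := pow_le_pow_left₀ ha0 ha 2
  have hε2 : 0 < ε ^ 2 := by positivity
  have m1 := mul_le_mul_of_nonneg_left hsq hε2.le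
  have m2 := mul_le_mul_of_nonneg_left hsq hε.le
  have hdet : |det (S.u' i) (S.v' i)| / 2 = S.γ (S.T i) * S.κ (S.T i) ^ 2 := by
    rw [← h2.det_eq]
    unfold Sys.γ
    field_simp
  have m3 := mul_le_mul_of_nonneg_right hg (sq_nonneg (S.κ (S.T i)))
  obtain ⟨r1, r2, r3⟩ := w_lower hε hu hv (by nlinarith) (by rw [hdet]; nlinarith)
  exact ⟨by nlinarith, r2, r3⟩

theorem elem_g1 (c : Ctx f g) :
    ∃ C : ℝ, EvAll c fun _ _ ε _ S ξ M => ∀ i, S.x i ≤ c.σ0 → S.G1 i →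
      ε * |ξ.β (S.T i)| ≤ C * M ∧ ε * |ξ.β (S.T.symm i)| ≤ C * M := by
  obtain ⟨cN, hcN, CN, -, hnb⟩ := nbound c.toCtx0
  obtain ⟨C1, k1⟩ := nondeep c (c1 := min (cN ^ 2 / 8) (cN / 8)) (by positivity)
  obtain ⟨C2, k2⟩ := theta c (c1 := cN / 2) (by positivity)
  obtain ⟨C3, k3⟩ := nd_cmp c
  refine ⟨|C1| + 2 * |C2| + |C3|, ?_⟩
  filter_upwards [k1, k2, k3] with Λ k1 k2 k3
  filter_upwards [k1, k2, k3] with σ k1 k2 k3
  filter_upwards [k1, k2, k3, c.toCtx0.ev_small] with ε k1 k2 k3 hs I S yL yR ς hm ξ M hb i hi hg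
  have hσ := c.σ0pos
  have hε := hs.εpos
  have hM := hb.nn
  have hi2 : S.x i ≤ 2 * c.σ0 := by linarith
  have a1 : C1 * M ≤ |C1| * M := mul_le_mul_of_nonneg_right (le_abs_self _) hM
  have a2 : C2 * M ≤ |C2| * M := mul_le_mul_of_nonneg_right (le_abs_self _) hM
  have a3 : C3 * M ≤ |C3| * M := mul_le_mul_of_nonneg_right (le_abs_self _) hM
  have b1 : 0 ≤ |C1| * M := by positivity
  have b2 : 0 ≤ |C2| * M := by positivity
  have b3 : 0 ≤ |C3| * M := by positivity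
  by_cases hnd : min (cN ^ 2 / 8) (cN / 8) * ε ≤ S.γ (S.T i) ∨
      min (cN ^ 2 / 8) (cN / 8) * ε * S.κ (S.T i) ≤ S.aP i
  · obtain ⟨p, q⟩ := k1 I S yL yR ς hm ξ M hb i hi2 hg hnd
    constructor <;> linarith
  rw [not_or, not_le, not_le] at hnd
  obtain ⟨-, -, g2, g2B, t2, -, inA, inB⟩ := nearL hs hm.toMg0 hi2
  have h4 : 4 * ε ≤ 4 * c.σ0 := by linarith [hs.leσ]
  have hk := (S.kappa_pos hε h4 inA).1
  have hn := (hnb hs hm.toMg0 i hi2).1
  have m1 : min (cN ^ 2 / 8) (cN / 8) * ε ≤ cN ^ 2 / 8 * ε :=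
    mul_le_mul_of_nonneg_right (min_le_left _ _) hε.le
  have m2 : min (cN ^ 2 / 8) (cN / 8) * ε * S.κ (S.T i) ≤ cN / 8 * ε * S.κ (S.T i) :=
    mul_le_mul_of_nonneg_right (mul_le_mul_of_nonneg_right (min_le_right _ _) hε.le) hk.le
  obtain ⟨w1, w2, w3⟩ := e3_deep hcN hε hg g2 t2 hk hn (by linarith [hnd.1]) (by linarith [hnd.2])
  by_cases ho : ξ.o i = 0
  · have pA : ξ.p (S.T i) = 0 := (tr2 ξ g2).zero.mp ho
    have pi : ξ.p i = 0 := (tr1 ξ hg).zero.mpr ho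
    have oB : ξ.o (S.T.symm i) = 0 := (tr2 ξ g2B).zero.mpr (by rw [Equiv.apply_symm_apply, pi])
    have pB : ξ.p (S.T.symm i) = 0 := (tr1 ξ (S.step hε h4 inB).g1).zero.mpr oB
    rw [e3_beta ξ pA, e3_beta ξ pB, abs_zero, mul_zero]
    constructor <;> linarith
  · obtain ⟨sK, sL⟩ := smoothO ξ ho
    have g3 : S.G3 i := S.gen3 i (inner_of_smooth S.hK.body S.hL.body (Or.inr rfl) (S.memO i).1
      (S.memO i).2 sK sL (S.tanOK i) (S.tanOL i) (w_eq_dot ε) (mul_pos w2 w3))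
    have t3 : S.t3 i = 1 := by
      rcases g3.ht with h | h
      · exact h
      · have := g3.hu'
        rw [h] at this
        linarith
    have hW : cN / 2 * ε * S.κ (S.T i) ≤ S.W (S.R i) := by
      unfold Sys.W
      rw [g3.hn]
      exact Real.le_sqrt_of_sq_le w1
    have p := k2 I S yL yR ς hm ξ M hb i hi g3 t3 (Or.inr hW)
    have q := k3 I S yL yR ς hm ξ M hb i hi2 hg
    have hε1 : ε ≤ 1 := by linarith [hs.leσ, c.toCtx0.σ0_le]
    have q1 := mul_le_mul_of_nonneg_left q hε.le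
    have q2 : ε * (C3 * M) ≤ |C3| * M := by
      have := mul_le_mul_of_nonneg_left a3 hε.le
      have := mul_le_mul_of_nonneg_right hε1 b3
      linarith
    constructor <;> linarith

end XR
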