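import Pool.Agent.P.MP_408b1f_gt.ELem3

/-! The end lemma when the vertical edge is broken. A = T i, B = T.symm i (nearL, nearL_t).
P i = O i (g1_of_ne), so p i = o i (eqx, eqy). If it vanishes, p A = 0 and p B = 0 (tr2 i, tr2 B,
tr1 B, Tr.zero) and both beta vanish. Otherwise K, L are smooth at P i (smoothP), u' = - l u,
v' = - l' v (Smooth.opp), and u.1 v.1 <= 0 (else inner_of_smooth and gen1 give G1 i).
Tangential case u i = v i (nrmP): u.1 = 0, u.2 > 0 (G2 B, t2 B = 1), the support inequality and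
Fam.exL give x i = 0, so (p i).1 = 0 (rpx); then det u p = det v p = 0 and the same for u', v';
Tr.par and bt_of_par give b A = b B = 0.
Transversal case det^2 = 1: G3 i holds (otherwise brk3: P (R i) = O i = P i contradicts ls, and an
extreme level gives w u' = w v' = 0 by Smooth.kill, so det u' v' = 0); t3 i = 1 by ls and hz. If
gamma A < cN^2 / 8 * eps then w_lower gives W (R i) >= eps nO i / 2 >= cN / 2 * eps * kappa A; so theta
applies with c1 = min (cN^2 / 8) (cN / 2). For B: P A = O B (G2.x_eq twice, same height), so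
p A = o B, nonzero (Tr.zero), K and L are smooth there, u' B = - l u A, v' B = - l⁻¹ v A (both
determinants have square 1), t1 B = - t1 A; zt_bt_flip turns the link of incr (or link_R) at B into
a link from (zeta B, b B) to (- zeta A, - b A) with parameter S theta B = O (eps^2) (incr_bd); H3
gives |beta B| <= C |beta A| + C M. -/

open Set MeasureTheory Filter Topology

noncomputable section

namespace XR

variable {f g : ℝ → ℝ}

section aux

variable {ε : ℝ} {I : Type} {S : Sys f g ε I}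

theorem e4_det_opp (l l' : ℝ) (u v : V) : det (-(l • u)) (-(l' • v)) = l * l' * det u v := by
  simp only [det, Prod.fst_neg, Prod.snd_neg, Prod.smul_fst, Prod.smul_snd, smul_eq_mul]
  ring

theorem e4_beta_par (ξ : Lin S) {j : I}
    (h : det (S.u j) (ξ.p j) = 0 ∧ det (S.v j) (ξ.p j) = 0) : ξ.β j = 0 := by
  unfold Lin.β Lin.b
  rw [bt_of_par h.1 h.2, zero_div]

theorem e4_po (ξ : Lin S) {i j : I} (h : S.P i = S.O j) : ξ.p i = ξ.o j :=
  Prod.ext (ξ.eqx i j (by rw [h])) (ξ.eqy i j (by rw [h]))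

theorem e4_opp (ξ : Lin S) {i j : I} (h : S.P i = S.O j) (hp : ξ.p i ≠ 0) :
    ∃ l l' : ℝ, 0 < l ∧ 0 < l' ∧ S.u' j = -(l • S.u i) ∧ S.v' j = -(l' • S.v i) := by
  obtain ⟨sK, sL⟩ := smoothP ξ hp
  have a := S.tanOK j
  have b := S.tanOL j
  rw [← h] at a b
  obtain ⟨l, hl, e⟩ := Smooth.opp S.hK.body sK (S.tanPK i) a
  obtain ⟨l', hl', e'⟩ := Smooth.opp S.hL.body sL (S.tanPL i) b
  exact ⟨l, l', hl, hl', e, e'⟩

/-- if both pairs of determinants vanish at i then both beta vanish -/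
theorem e4_both (ξ : Lin S) {i : I} (h2 : S.G2 i) (h2B : S.G2 (S.T.symm i))
    (h1B : S.G1 (S.T.symm i)) (hP : det (S.u i) (ξ.p i) = 0 ∧ det (S.v i) (ξ.p i) = 0)
    (hO : det (S.u' i) (ξ.o i) = 0 ∧ det (S.v' i) (ξ.o i) = 0) :
    ξ.β (S.T i) = 0 ∧ ξ.β (S.T.symm i) = 0 := by
  refine ⟨e4_beta_par ξ ((tr2 ξ h2).par.1 hO), e4_beta_par ξ ((tr1 ξ h1B).par.2 ?_)⟩
  apply (tr2 ξ h2B).par.2
  rw [Equiv.apply_symm_apply]
  exact hP

theorem e4_sign (ξ : Lin S) {i : I} (h : S.P i = S.O i) (hp : ξ.p i ≠ 0) (hg : ¬ S.G1 i) :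
    (S.u' i).1 * (S.v' i).1 ≤ 0 := by
  by_contra hc
  push Not at hc
  obtain ⟨sK, sL⟩ := smoothP ξ hp
  rw [h] at sK sL
  exact hg (S.gen1 i (inner_of_smooth (α := (1, 0)) S.hK.body S.hL.body (Or.inr rfl)
    (S.memO i).1 (S.memO i).2 sK sL (S.tanOK i) (S.tanOL i) (fun p => by simp [dot]) hc))

theorem e4_tang (ξ : Lin S) {i : I} (h2B : S.G2 (S.T.symm i)) (ht : S.t2 (S.T.symm i) = 1)
    (h1 : (S.u i).1 = 0) : (ξ.p i).1 = 0 := by
  by_contra hc
  have hr := (ξ.rpx i hc).1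
  have hu := h2B.1.hu
  rw [Equiv.apply_symm_apply, ht, one_mul] at hu
  obtain ⟨y, hy⟩ := S.hK.exL
  have hs := (S.tanPK i).supp _ hy
  simp only [det, Prod.fst_sub, Prod.snd_sub, h1] at hs
  nlinarith only [hs, hu, hr, mul_pos hu hr]

theorem e4_det_w {u v : V} (hu : w ε u = 0) (hv : w ε v = 0) : det u v = 0 := by
  simp only [w, det] at *
  have a : u.1 = ε * u.2 := by linarith
  have b : v.1 = ε * v.2 := by linarith
  rw [a, b]; ring

theorem e4_g3 (ξ : Lin S) {i : I} (h : S.P i = S.O i) (hp : ξ.p i ≠ 0)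
    (hd : det (S.u' i) (S.v' i) ≠ 0) (hy : S.yP i < S.yP (S.R i)) : S.G3 i ∧ S.t3 i = 1 := by
  obtain ⟨sK, sL⟩ := smoothP ξ hp
  rw [h] at sK sL
  have h3 : S.G3 i := by
    by_contra hc
    have hi : ¬ Inner (S.K ∩ S.L) (w ε) (S.O i) := fun hi => hc (S.gen3 i hi)
    rcases S.brk3 i hi with e | e | e
    · simp only [Sys.yP] at hy
      rw [e, h] at hy
      exact lt_irrefl _ hy
    · have k : ∀ X ∈ S.K ∪ S.L, dot (-1, ε) (X - S.O i) ≤ 0 := fun X hX => by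
        have := e X hX
        simp only [w, dot, Prod.fst_sub, Prod.snd_sub] at this ⊢
        linarith
      have a := sK.kill (Or.inr rfl) (S.tanOK i) fun X hX => k X (Or.inl hX)
      have b := sL.kill (Or.inr rfl) (S.tanOL i) fun X hX => k X (Or.inr hX)
      refine hd (e4_det_w (ε := ε) ?_ ?_)
      · simp only [w, dot] at a ⊢; linarith
      · simp only [w, dot] at b ⊢; linarith
    · have k : ∀ X ∈ S.K ∪ S.L, dot (1, -ε) (X - S.O i) ≤ 0 := fun X hX => by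
        have := e X hX
        simp only [w, dot, Prod.fst_sub, Prod.snd_sub] at this ⊢
        linarith
      have a := sK.kill (Or.inr rfl) (S.tanOK i) fun X hX => k X (Or.inl hX)
      have b := sL.kill (Or.inr rfl) (S.tanOL i) fun X hX => k X (Or.inr hX)
      refine hd (e4_det_w (ε := ε) ?_ ?_)
      · simp only [w, dot] at a ⊢; linarith
      · simp only [w, dot] at b ⊢; linarith
  refine ⟨h3, ?_⟩
  have hz := congrArg Prod.snd h3.hz
  have hl := h3.hlen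
  simp only [Prod.snd_add, Prod.smul_snd, smul_eq_mul, mul_one] at hz
  simp only [Sys.yP] at hy
  rw [h] at hy
  rcases h3.ht with t | t
  · exact t
  · rw [t] at hz
    linarith

theorem e4_theta_hyp {i : I} {cN : ℝ} (hε : 0 < ε) (hc : 0 < cN) (h2 : S.G2 i) (ht : S.t2 i = -1)
    (h3 : S.G3 i) (hk : 0 < S.κ (S.T i)) (hN : cN * S.κ (S.T i) ≤ S.nO i)
    (hs : (S.u' i).1 * (S.v' i).1 ≤ 0) :
    min (cN ^ 2 / 8) (cN / 2) * ε ≤ S.γ (S.T i) ∨
      min (cN ^ 2 / 8) (cN / 2) * ε * S.κ (S.T i) ≤ S.W (S.R i) := by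
  by_cases hγ : cN ^ 2 / 8 * ε ≤ S.γ (S.T i)
  · exact Or.inl ((mul_le_mul_of_nonneg_right (min_le_left _ _) hε.le).trans hγ)
  right
  push Not at hγ
  have hu := h2.1.hu'
  have hv := h2.1.hv'
  rw [ht] at hu hv
  have hu' : (S.u' i).2 < 0 := by linarith only [hu]
  have hv' : (S.v' i).2 < 0 := by linarith
  have hN0 : 0 < (S.u' i).2 * (S.v' i).2 := mul_pos_of_neg_of_neg hu' hv'
  have hsq : S.nO i ^ 2 = (S.u' i).2 * (S.v' i).2 := Real.sq_sqrt hN0.le
  have hck : 0 < cN * S.κ (S.T i) := mul_pos hc hk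
  have hsq' : (cN * S.κ (S.T i)) ^ 2 ≤ (S.u' i).2 * (S.v' i).2 := by
    rw [← hsq]; exact pow_le_pow_left₀ hck.le hN 2
  have hdet : |det (S.u' i) (S.v' i)| / 2 = S.γ (S.T i) * S.κ (S.T i) ^ 2 := by
    rw [← h2.det_eq, Sys.γ]
    field_simp
  have hk2 : 0 < S.κ (S.T i) ^ 2 := by positivity
  have hw := (w_lower (u := S.u' i) (v := S.v' i) hε hu' hv'
    (hs.trans (by positivity)) (by
      rw [hdet]
      have a := mul_le_mul_of_nonneg_right hγ.le hk2.le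
      have b := mul_le_mul_of_nonneg_left hsq' hε.le
      nlinarith only [a, b])).1
  have hW : S.W (S.R i) = √(w ε (S.u' i) * w ε (S.v' i)) := by
    rw [Sys.W, h3.hn]
  rw [hW]
  apply Real.le_sqrt_of_sq_le
  have m0 : 0 ≤ min (cN ^ 2 / 8) (cN / 2) := le_min (by positivity) (by positivity)
  have m1 : min (cN ^ 2 / 8) (cN / 2) * ε * S.κ (S.T i) ≤ cN / 2 * ε * S.κ (S.T i) :=
    mul_le_mul_of_nonneg_right (mul_le_mul_of_nonneg_right (min_le_right _ _) hε.le) hk.le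
  have m2 := pow_le_pow_left₀ (by positivity) m1 2
  have m3 := mul_le_mul_of_nonneg_left hsq' (sq_nonneg ε)
  have m4 : 0 ≤ ε ^ 2 * ((S.u' i).2 * (S.v' i).2) := by positivity
  nlinarith only [hw, m2, m3]

theorem e4_PA {i : I} (h : S.P i = S.O i) (h2 : S.G2 i) (h2B : S.G2 (S.T.symm i))
    (ht : S.t2 i = -1) (htB : S.t2 (S.T.symm i) = 1) : S.P (S.T i) = S.O (S.T.symm i) := by
  have a := h2.x_eq
  have b := h2B.x_eq
  have y1 : S.yO (S.T.symm i) = S.yO i := by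
    rw [S.yO_Tsymm, Sys.yP, Sys.yO, h]
  rw [Equiv.apply_symm_apply, htB, y1] at b
  rw [ht] at a
  refine Prod.ext ?_ ?_
  · rw [S.xO]
    change S.x (S.T i) = _
    linarith
  · change S.yP (S.T i) = S.yO (S.T.symm i)
    rw [S.yP_T, y1]

theorem e4_link {D s z b z' b' : ℝ} (hD : 0 ≤ D) (hD1 : D ≤ 1) (hs : |s| ≤ 1)
    (h : Link D s z b z' b') : |b| ≤ 2 * |b'| + 2 * (D * |z|) := by
  have h3 := Link.H3 hD h
  have a : s ^ 2 ≤ 1 := by rw [← sq_abs]; exact pow_le_one₀ (abs_nonneg _) hs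
  have a1 : D * s ^ 2 ≤ 1 := mul_le_one₀ hD1 (sq_nonneg _) a
  have a2 : D * s ^ 2 / 2 * |b| ≤ 1 / 2 * |b| :=
    mul_le_mul_of_nonneg_right (by linarith only [a1]) (abs_nonneg _)
  have a3 : D * |s| * |z| ≤ D * |z| :=
    mul_le_mul_of_nonneg_right (mul_le_of_le_one_right hD hs) (abs_nonneg _)
  have a4 : |b| ≤ |b'| + |b' - b| := by
    have := abs_sub_le b b' 0
    rw [sub_zero, sub_zero, abs_sub_comm] at this
    linarith only [this]
  linarith

theorem e4_cmp (ξ : Lin S) {A B : I} {s φ : ℝ} (hs : Sm f ε s φ) (hB : S.InB s B)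
    (h : S.P A = S.O B) (hp : ξ.p A ≠ 0) (hdA : det (S.u A) (S.v A) ^ 2 = 1)
    (hdB : det (S.u' B) (S.v' B) ^ 2 = 1) (ht : S.t1 B = -S.t1 A) (kA : 0 < S.κ A)
    (hκ : |S.κ A / S.κ B - 1| ≤ 1 / 2) (e1 : ε ≤ 1 / 10000) (e2 : ε ≤ s * φ ^ 2 / 8) :
    |ξ.β B| ≤ 3 * |ξ.β A| + 2 * ξ.ct B := by
  have hε := hs.εpos
  have hspos : 0 < s := by linarith only [hε, hs.le16]
  have hφ := hs.φpos
  obtain ⟨kB, -, -, -, γ0, -⟩ := S.kappa_pos hε (by linarith [hs.le16]) hB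
  obtain ⟨l, l', hl, hl', eu, ev⟩ := e4_opp ξ h hp
  have hll : l' = l⁻¹ := by
    rw [eu, ev, e4_det_opp, mul_pow, hdA, mul_one] at hdB
    have : l * l' = 1 := by
      have := mul_pos hl hl'
      nlinarith only [hdB, this]
    exact (eq_inv_of_mul_eq_one_right this)
  obtain ⟨z', b', hL, -, -, hb'⟩ := incr ξ hε (by linarith [hs.le16]) hB
  rw [ht, eu, ev, hll, ← e4_po ξ h, (zt_bt_flip hl).2] at hb'
  have hγ := S.gamma_le hs hB
  have hS := (incr_bd ξ hs hB).1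
  have hS1 : |S.Sθ B| ≤ 1 := by
    refine hS.trans ?_
    rw [div_le_one (by positivity)]
    nlinarith only [e2, hε, e1]
  have k := e4_link (sq_nonneg _) (pow_le_one₀ γ0 (by linarith only [e1, hγ])) hS1 hL
  rw [(linkT_ct ξ kB).1] at k
  have e : b' = -(ξ.β A * (S.κ A / S.κ B)) := by
    rw [hb', Lin.β, Lin.b]
    field_simp
  have r0 : 0 < S.κ A / S.κ B := div_pos kA kB
  have r1 : S.κ A / S.κ B ≤ 3 / 2 := by linarith only [hκ, (abs_le.1 hκ).2]
  rw [e, abs_neg, abs_mul, abs_of_pos r0] at k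
  have := mul_le_mul_of_nonneg_left r1 (abs_nonneg (ξ.β A))
  linarith only [k, this]

end aux

theorem elem_brk (c : Ctx f g) :
    ∃ C : ℝ, EvAll c fun _ _ ε _ S ξ M => ∀ i, S.x i ≤ c.σ0 → ¬ S.G1 i →
      ε * |ξ.β (S.T i)| ≤ C * M ∧ ε * |ξ.β (S.T.symm i)| ≤ C * M := by
  obtain ⟨cN, hcN, CN, -, hnb⟩ := nbound c.toCtx0
  obtain ⟨C1, h1⟩ := theta c (c1 := min (cN ^ 2 / 8) (cN / 2)) (lt_min (by positivity) (by positivity))
  have hσ0 := c.σ0pos
  have hf0 := c.f0pos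
  refine ⟨3 * |C1| + 2, ?_⟩
  filter_upwards [h1, eventually_ge_atTop (1:ℝ)] with Λ h1 hΛ
  filter_upwards [h1, c.ev_σ] with σ h1 hσ
  filter_upwards [h1, c.toCtx0.ev_small,
    kap_near c.toCtx0 (δ := 1 / 2) hσ0 le_rfl (by norm_num),
    ev_le (a := 1 / 10000) (by norm_num),
    ev_le (a := c.σ0 / 2 * c.f0 ^ 2 / 8) (by positivity)]
    with ε h1 hs hkn e1 e2 I S yL yR ς hm ξ M hb i hi hg
  have hε := hs.εpos
  have hM := hb.nn
  have hC0 : 0 ≤ (3 * |C1| + 2) * M := by positivity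
  have hi2 : S.x i ≤ 2 * c.σ0 := by linarith only [hσ0, hi]
  obtain ⟨-, -, h2, h2B, t2, t2B, hA, hB⟩ := nearL hs hm.toMg0 hi2
  obtain ⟨t1A, t1B, -, -⟩ := nearL_t hs hm hi2
  have hle := hs.leσ
  have h1B : S.G1 (S.T.symm i) := (S.g1_of hε (by linarith) hB).1
  have hPO : S.P i = S.O i := by
    by_contra hne
    exact hg (S.g1_of_ne c.hf.zero0 c.hf.zero1 hne)
  have hpo := e4_po ξ hPO
  have fin0 : ξ.β (S.T i) = 0 ∧ ξ.β (S.T.symm i) = 0 →
      ε * |ξ.β (S.T i)| ≤ (3 * |C1| + 2) * M ∧ ε * |ξ.β (S.T.symm i)| ≤ (3 * |C1| + 2) * M := by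
    rintro ⟨a, b⟩
    rw [a, b, abs_zero, mul_zero]
    exact ⟨hC0, hC0⟩
  by_cases hp : ξ.p i = 0
  · apply fin0
    apply e4_both ξ h2 h2B h1B
    · rw [hp]; simp [det]
    · rw [← hpo, hp]; simp [det]
  obtain ⟨l, l', hl, hl', eu, ev⟩ := e4_opp ξ hPO hp
  have hsg := e4_sign ξ hPO hp hg
  rcases S.nrmP i with huv | hdet
  · have hu1 : (S.u i).1 = 0 := by
      rw [eu, ev, ← huv] at hsg
      simp only [Prod.fst_neg, Prod.smul_fst, smul_eq_mul] at hsg
      have a : l * l' * (S.u i).1 ^ 2 ≤ 0 := by nlinarith only [hsg]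
      have b : (S.u i).1 ^ 2 ≤ 0 := by
        by_contra hc
        push Not at hc
        linarith [mul_pos (mul_pos hl hl') hc]
      exact pow_eq_zero_iff (two_ne_zero) |>.1 (le_antisymm b (sq_nonneg _))
    have hp1 := e4_tang ξ h2B t2B hu1
    apply fin0
    apply e4_both ξ h2 h2B h1B
    · rw [← huv]; simp [det, hu1, hp1]
    · rw [← hpo, eu, ev, ← huv]; simp [det, hu1, hp1]
  have hd0 : det (S.u i) (S.v i) ≠ 0 := fun h0 => by rw [h0] at hdet; norm_num at hdet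
  have hd' : det (S.u' i) (S.v' i) ≠ 0 := by
    rw [eu, ev, e4_det_opp]
    exact mul_ne_zero (mul_pos hl hl').ne' hd0
  have hxR : S.x (S.R i) ≤ 2 * c.σ0 := by
    have := (abs_le.1 (S.xstep hε.le i)).2
    linarith only [e1, hi, hle, this]
  have hls := (ls hs hm.toMg0 hi2 hxR).1
  have hη := c.ηpos
  have hpos : 0 < c.η * c.f0 / 4 * ε := by positivity
  obtain ⟨h3, t3⟩ := e4_g3 ξ hPO hp hd' (by linarith)
  have kA : 0 < S.κ (S.T i) := (S.kappa_pos hε (by linarith only [e1, hle]) hA).1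
  have hθ := h1 I S yL yR ς hm ξ M hb i hi h3 t3
    (e4_theta_hyp hε hcN h2 t2 h3 kA (hnb hs hm.toMg0 i hi2).1 hsg)
  have hθ' : ε * |ξ.β (S.T i)| ≤ |C1| * M :=
    hθ.trans (mul_le_mul_of_nonneg_right (le_abs_self _) hM)
  have hCM : 0 ≤ |C1| * M := by positivity
  refine ⟨by linarith only [hM, hC0, hθ'], ?_⟩
  have hpA : ξ.p (S.T i) ≠ 0 := fun h0 => hp (hpo.trans ((tr2 ξ h2).zero.2 h0))
  have hdA : det (S.u (S.T i)) (S.v (S.T i)) ^ 2 = 1 := by
    rw [h2.det_eq]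
    rcases S.nrmO i with h0 | h0
    · exact absurd (by rw [h0]; simp only [det]; ring) hd'
    · exact h0
  have hdB : det (S.u' (S.T.symm i)) (S.v' (S.T.symm i)) ^ 2 = 1 := by
    rw [← h2B.det_eq, Equiv.apply_symm_apply]
    exact hdet
  have hcmp := e4_cmp ξ hs.sm (hB.mono (by linarith only [e1, hle])) (e4_PA hPO h2 h2B t2 t2B) hpA hdA hdB
    (by rw [t1A, t1B]) kA (hkn I S yL yR hm.toMg0 i (Or.inl hi2)).1 e1.2 e2.2
  have kB : 0 < S.κ (S.T.symm i) := (S.kappa_pos hε (by linarith only [e1, hle]) hB).1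
  have hct0 := (linkT_ct ξ kB).2
  have hct := hb.bc _ (hB.mono (s' := σ) (by linarith only [hσ, e1, hle, hσ.2]))
  have hct1 : ξ.ct (S.T.symm i) ≤ M := by nlinarith only [hct, hΛ, hct0]
  have q1 := mul_le_mul_of_nonneg_left hcmp hε.le
  have q2 : ε * ξ.ct (S.T.symm i) ≤ M := by nlinarith only [hM, hΛ, e1, hct, e1.2]
  linarith only [hθ', q1, q2]

end XR
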