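import Pool.Agent.P.MP_408b1f_gt.Pot1

/-! The chord reflections sm of the body M = K ∩ L.
sm_frame: in a frame with direction d the chord is an interval [bot, top].
sm_rev: take a frame with direction d (any nonzero d is F.d for a frame with o = 1, for example
e = (d.2, -d.1) / (d.1^2 + d.2^2)); sort the three points by level (det3_cyc, det3_swap'); with
three distinct levels the middle point is top or bottom (top_or_bot) and concavity or convexity
gives the weak sign of det3, sm exchanges top and bottom; with two equal levels sm reverses the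
order of the heights.
sm_gen: the level is inner for K and L; z is top or bottom of each; the chord of K ∩ L has
positive length, so z is on the same side for both; equal lengths (SameX.frame) finish.
sm_brk: if the level is extreme on M and sm z differs from z, the chord of M is a nondegenerate
segment; were the level inner for K (hence for L, equal ranges) its midpoint would be interior to
both. face_ext is the same argument. sm_Zs: genuine case: the two caps are K ∩ {lev < s} or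
K ∩ {lev > s} (SameX.vol_inter); broken case pot_zero_of_side. -/

open Set MeasureTheory Filter Topology

noncomputable section

namespace XR

variable {K L M : Set V}

theorem exists_frame {d : V} (hd : d ≠ 0) : ∃ F : Frame, F.o = 1 ∧ F.d = d := by
  have hn : d.1 ^ 2 + d.2 ^ 2 ≠ 0 := by
    intro h0
    apply hd
    have h1 : d.1 = 0 := by nlinarith [sq_nonneg d.1, sq_nonneg d.2]
    have h2 : d.2 = 0 := by nlinarith [sq_nonneg d.1, sq_nonneg d.2]
    exact Prod.ext h1 h2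
  refine ⟨⟨(d.2 / (d.1 ^ 2 + d.2 ^ 2), -d.1 / (d.1 ^ 2 + d.2 ^ 2)), d, 1, Or.inl rfl, ?_⟩, rfl, rfl⟩
  simp only [det]
  field_simp
  ring

theorem sm_add_smul (F : Frame) (p : V) (t : ℝ) :
    p + t • F.d = F.pt (F.lev p) (F.hgt p + t) := by
  rw [← F.pt_add_smul_d, F.pt_lev_hgt]

theorem sm_frame (F : Frame) (hM : Body M) {p : V} (hp : p ∈ M) :
    sm M F.d p = F.pt (F.lev p) (F.top M (F.lev p) + F.bot M (F.lev p) - F.hgt p) := by
  have hs := F.lev_mem hM hp
  have hle := F.bot_le_top hM hs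
  have hS : {t : ℝ | p + t • F.d ∈ M} =
      Icc (F.bot M (F.lev p) - F.hgt p) (F.top M (F.lev p) - F.hgt p) := by
    ext t
    rw [mem_ofPred_eq, sm_add_smul, F.pt_mem_iff hM hs, mem_Icc]
    constructor <;> rintro ⟨h1, h2⟩ <;> constructor <;> linarith
  have hle' : F.bot M (F.lev p) - F.hgt p ≤ F.top M (F.lev p) - F.hgt p := by linarith
  rw [sm, hS, csSup_Icc hle', csInf_Icc hle', sm_add_smul]
  congr 1
  ring

theorem sm_neg (M : Set V) (d p : V) : sm M (-d) p = sm M d p := by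
  have hS : {t : ℝ | p + t • (-d) ∈ M} = -{t : ℝ | p + t • d ∈ M} := by
    ext t
    simp
  rw [sm, sm, hS, Real.sSup_neg, Real.sInf_neg, smul_neg, ← neg_smul]
  congr 2
  ring

theorem sm_spec (hM : Body M) {d p : V} (hd : d ≠ 0) (hp : p ∈ M) :
    sm M d p ∈ M ∧ (∃ τ : ℝ, sm M d p = p + τ • d) ∧
      ∀ s : ℝ, p + s • d ∈ M ↔ sm M d p - s • d ∈ M := by
  obtain ⟨F, -, rfl⟩ := exists_frame hd
  have hs := F.lev_mem hM hp
  have key : ∀ s : ℝ, p + s • F.d ∈ M ↔ sm M F.d p - s • F.d ∈ M := by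
    intro s
    rw [sub_eq_add_neg, ← neg_smul, sm_frame F hM hp, F.pt_add_smul_d, sm_add_smul,
      F.pt_mem_iff hM hs, F.pt_mem_iff hM hs]
    constructor <;> rintro ⟨h1, h2⟩ <;> constructor <;> linarith
  refine ⟨?_, ⟨_, rfl⟩, key⟩
  simpa using (key 0).1 (by simpa using hp)

theorem sm_sm (hM : Body M) {d p : V} (hd : d ≠ 0) (hp : p ∈ M) : sm M d (sm M d p) = p := by
  have h1 := (sm_spec hM hd hp).1
  obtain ⟨F, -, rfl⟩ := exists_frame hd
  rw [sm_frame F hM h1, sm_frame F hM hp, F.lev_pt, F.hgt_pt, sub_sub_cancel, F.pt_lev_hgt]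

theorem sm_lev (F : Frame) (M : Set V) (p : V) : F.lev (sm M F.d p) = F.lev p := by
  rw [sm, F.lev_add, F.lev_smul, F.lev_d, mul_zero, add_zero]

theorem sm_hgt (F : Frame) (hM : Body M) {p : V} (hp : p ∈ M) :
    F.hgt (sm M F.d p) = F.top M (F.lev p) + F.bot M (F.lev p) - F.hgt p := by
  rw [sm_frame F hM hp, F.hgt_pt]

theorem sm_not_interior (hM : Body M) {d p : V} (hd : d ≠ 0) (hp : p ∈ M)
    (hp' : p ∉ interior M) : sm M d p ∉ interior M := by
  obtain ⟨F, -, rfl⟩ := exists_frame hd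
  intro h
  rw [F.mem_interior_iff hM, sm_lev, sm_hgt F hM hp] at h
  exact hp' ((F.mem_interior_iff hM p).2 ⟨h.1, by linarith [h.2.2], by linarith [h.2.1]⟩)

theorem sm_det3 (F : Frame) (A B C : V) :
    det3 A B C = F.o * ((F.lev C - F.lev B) * F.hgt A + (F.lev B - F.lev A) * F.hgt C -
      (F.lev C - F.lev A) * F.hgt B) := by
  rw [det3, F.det_eq, F.lev_sub, F.lev_sub, F.hgt_sub, F.hgt_sub]
  ring

theorem sm_mid (F : Frame) (hM : Body M) {A C : V} (hA : A ∈ M) (hC : C ∈ M) {s : ℝ}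
    (h1 : F.lev A < s) (h2 : s < F.lev C) :
    (F.lev C - F.lev A) * F.bot M s ≤ (F.lev C - s) * F.hgt A + (s - F.lev A) * F.hgt C ∧
      (F.lev C - s) * F.hgt A + (s - F.lev A) * F.hgt C ≤ (F.lev C - F.lev A) * F.top M s := by
  have hpos : 0 < F.lev C - F.lev A := by linarith
  have hne := hpos.ne'
  have hX := hM.conv hA hC (a := (F.lev C - s) / (F.lev C - F.lev A))
    (b := (s - F.lev A) / (F.lev C - F.lev A)) (div_nonneg (by linarith) hpos.le)
    (div_nonneg (by linarith) hpos.le) (by field_simp; ring)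
  have hm := (F.mem_iff hM _).1 hX
  have e1 : F.lev (((F.lev C - s) / (F.lev C - F.lev A)) • A +
      ((s - F.lev A) / (F.lev C - F.lev A)) • C) = s := by
    rw [F.lev_add, F.lev_smul, F.lev_smul]
    field_simp
    ring
  have e2 : F.hgt (((F.lev C - s) / (F.lev C - F.lev A)) • A +
      ((s - F.lev A) / (F.lev C - F.lev A)) • C) =
      ((F.lev C - s) * F.hgt A + (s - F.lev A) * F.hgt C) / (F.lev C - F.lev A) := by
    rw [F.hgt_add, F.hgt_smul, F.hgt_smul]
    field_simp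
  rw [e1, e2, le_div_iff₀ hpos, div_le_iff₀ hpos] at hm
  exact ⟨by linarith [hm.2.1], by linarith [hm.2.2]⟩

theorem sm_rev_sorted (F : Frame) (hM : Body M) {A B C : V} (hA : A ∈ M) (hB : B ∈ M)
    (hC : C ∈ M) (hB' : B ∉ interior M) (h1 : F.lev A ≤ F.lev B) (h2 : F.lev B ≤ F.lev C) :
    det3 A B C * det3 (sm M F.d A) (sm M F.d B) (sm M F.d C) ≤ 0 := by
  have ho := F.o_sq
  have key : ∀ x y : ℝ, x * y ≤ 0 → F.o * x * (F.o * y) ≤ 0 := by
    intro x y h
    have : F.o * x * (F.o * y) = x * y := by linear_combination (x * y) * ho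
    rwa [this]
  rw [sm_det3 F, sm_det3 F, sm_lev, sm_lev, sm_lev]
  refine key _ _ ?_
  rcases h1.eq_or_lt with e | l1
  · rw [sm_hgt F hM hA, sm_hgt F hM hB, ← e]
    nlinarith [sq_nonneg ((F.lev C - F.lev A) * (F.hgt A - F.hgt B))]
  rcases h2.eq_or_lt with e | l2
  · rw [sm_hgt F hM hB, sm_hgt F hM hC, ← e]
    nlinarith [sq_nonneg ((F.lev B - F.lev A) * (F.hgt C - F.hgt B))]
  have hs : F.lev B ∈ Ioo (F.lo M) (F.hi M) :=
    ⟨(F.lev_mem hM hA).1.trans_lt l1, l2.trans_le (F.lev_mem hM hC).2⟩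
  have m1 := sm_mid F hM hA hC l1 l2
  have m2 := sm_mid F hM (sm_spec hM F.d_ne hA).1 (sm_spec hM F.d_ne hC).1 (s := F.lev B)
    (by rwa [sm_lev]) (by rwa [sm_lev])
  rw [sm_lev, sm_lev] at m2
  rw [sm_hgt F hM hB]
  rcases F.top_or_bot hM hB hB' hs with e | e
  · rw [e, add_sub_cancel_left]
    exact mul_nonpos_of_nonpos_of_nonneg (by linarith [m1.2]) (by linarith [m2.1])
  · rw [e, add_sub_cancel_right]
    exact mul_nonpos_of_nonneg_of_nonpos (by linarith [m1.1]) (by linarith [m2.2])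

theorem sm_rev_mul (F : Frame) (hM : Body M) {A B C : V} (hA : A ∈ M) (hB : B ∈ M) (hC : C ∈ M)
    (hA' : A ∉ interior M) (hB' : B ∉ interior M) (hC' : C ∉ interior M) :
    det3 A B C * det3 (sm M F.d A) (sm M F.d B) (sm M F.d C) ≤ 0 := by
  have sw : ∀ X Y Z X' Y' Z' : V,
      det3 X Y Z * det3 X' Y' Z' = det3 X Z Y * det3 X' Z' Y' := by
    intro X Y Z X' Y' Z'
    rw [det3_swap X Y Z, det3_swap X' Y' Z']
    ring
  have cy : ∀ X Y Z X' Y' Z' : V,
      det3 X Y Z * det3 X' Y' Z' = det3 Y Z X * det3 Y' Z' X' := by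
    intro X Y Z X' Y' Z'
    rw [det3_cyc X Y Z, det3_cyc X' Y' Z']
  rcases le_total (F.lev A) (F.lev B) with h1 | h1 <;>
    rcases le_total (F.lev B) (F.lev C) with h2 | h2
  · exact sm_rev_sorted F hM hA hB hC hB' h1 h2
  · rcases le_total (F.lev A) (F.lev C) with h3 | h3
    · rw [sw]
      exact sm_rev_sorted F hM hA hC hB hC' h3 h2
    · rw [cy, cy]
      exact sm_rev_sorted F hM hC hA hB hA' h3 h1
  · rcases le_total (F.lev A) (F.lev C) with h3 | h3
    · rw [cy, sw]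
      exact sm_rev_sorted F hM hB hA hC hA' h1 h3
    · rw [cy]
      exact sm_rev_sorted F hM hB hC hA hC' h2 h3
  · rw [cy, cy, sw]
    exact sm_rev_sorted F hM hC hB hA hB' h2 h1

theorem sm_rev (hM : Body M) {d A B C : V} (hd : d ≠ 0) (hA : A ∈ M) (hB : B ∈ M) (hC : C ∈ M)
    (hA' : A ∉ interior M) (hB' : B ∉ interior M) (hC' : C ∉ interior M)
    (h1 : det3 A B C < 0) (h2 : det3 (sm M d A) (sm M d B) (sm M d C) ≠ 0) :
    0 < det3 (sm M d A) (sm M d B) (sm M d C) := by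
  obtain ⟨F, -, rfl⟩ := exists_frame hd
  have h := sm_rev_mul F hM hA hB hC hA' hB' hC'
  refine lt_of_le_of_ne (not_lt.1 fun h3 => ?_) h2.symm
  exact absurd (mul_pos_of_neg_of_neg h1 h3) (not_lt.2 h)

theorem sm_inner_Ioo (F : Frame) {N : Set V} (hN : Body N) (hMN : M ⊆ N) {z : V}
    (hi : Inner M F.lev z) : F.lev z ∈ Ioo (F.lo N) (F.hi N) := by
  obtain ⟨⟨p, hp, h1⟩, q, hq, h2⟩ := hi
  exact ⟨(F.lev_mem hN (hMN hp)).1.trans_lt h1, h2.trans_le (F.lev_mem hN (hMN hq)).2⟩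

theorem sm_gen (F : Frame) (h : Pr K L) (hX : SameX F.d K L) {z : V} (hz : z ∈ Zs K L)
    (hi : Inner (K ∩ L) F.lev z) :
    F.lev z ∈ Ioo (F.lo K) (F.hi K) ∧ F.top K (F.lev z) = F.top L (F.lev z) ∧
      F.bot K (F.lev z) = F.bot L (F.lev z) ∧
      ((z = F.pt (F.lev z) (F.top K (F.lev z)) ∧
          sm (K ∩ L) F.d z = F.pt (F.lev z) (F.bot K (F.lev z))) ∨
        (z = F.pt (F.lev z) (F.bot K (F.lev z)) ∧
          sm (K ∩ L) F.d z = F.pt (F.lev z) (F.top K (F.lev z)))) := by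
  have hM := h.body
  have sK := sm_inner_Ioo F h.bK inter_subset_left hi
  have sL := sm_inner_Ioo F h.bL inter_subset_right hi
  have sM := sm_inner_Ioo F hM subset_rfl hi
  have cK := Ioo_subset_Icc_self sK
  have cL := Ioo_subset_Icc_self sL
  have cM := Ioo_subset_Icc_self sM
  have hlt := F.bot_lt_top hM sM
  have hltK := F.bot_lt_top h.bK sK
  have hT := (F.pt_mem_iff hM cM _).2 ⟨hlt.le, le_rfl⟩
  have hB := (F.pt_mem_iff hM cM _).2 ⟨le_rfl, hlt.le⟩
  have t1 := ((F.pt_mem_iff h.bK cK _).1 hT.1).2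
  have t2 := ((F.pt_mem_iff h.bL cL _).1 hT.2).2
  have b1 := ((F.pt_mem_iff h.bK cK _).1 hB.1).1
  have b2 := ((F.pt_mem_iff h.bL cL _).1 hB.2).1
  have hlen := (hX.frame h.bK h.bL).2.2 _ cK
  simp only [Frame.len] at hlen
  have hK := F.top_or_bot h.bK hz.1 hz.2.2.1 sK
  have hL := F.top_or_bot h.bL hz.2.1 hz.2.2.2 sL
  have htop : F.top K (F.lev z) = F.top L (F.lev z) := by
    rcases hK with e | e <;> rcases hL with e' | e' <;> linarith
  have hbot : F.bot K (F.lev z) = F.bot L (F.lev z) := by linarith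
  have mT : F.pt (F.lev z) (F.top K (F.lev z)) ∈ K ∩ L :=
    ⟨(F.pt_mem_iff h.bK cK _).2 ⟨hltK.le, le_rfl⟩,
      (F.pt_mem_iff h.bL cL _).2 ⟨by linarith, by linarith⟩⟩
  have mB : F.pt (F.lev z) (F.bot K (F.lev z)) ∈ K ∩ L :=
    ⟨(F.pt_mem_iff h.bK cK _).2 ⟨le_rfl, hltK.le⟩,
      (F.pt_mem_iff h.bL cL _).2 ⟨by linarith, by linarith⟩⟩
  have eT : F.top (K ∩ L) (F.lev z) = F.top K (F.lev z) :=
    le_antisymm t1 ((F.pt_mem_iff hM cM _).1 mT).2
  have eB : F.bot (K ∩ L) (F.lev z) = F.bot K (F.lev z) :=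
    le_antisymm ((F.pt_mem_iff hM cM _).1 mB).1 b1
  have hsm := sm_frame F hM (p := z) ⟨hz.1, hz.2.1⟩
  rw [eT, eB] at hsm
  refine ⟨sK, htop, hbot, ?_⟩
  rcases hK with e | e
  · refine Or.inl ⟨by rw [← e, F.pt_lev_hgt], ?_⟩
    rw [hsm, e, add_sub_cancel_left]
  · refine Or.inr ⟨by rw [← e, F.pt_lev_hgt], ?_⟩
    rw [hsm, e, add_sub_cancel_right]

theorem sm_face (F : Frame) (h : Pr K L) (hX : SameX F.d K L) {z z' : V} (hz : z ∈ K ∩ L)
    (hz' : z' ∈ K ∩ L) (hne : z ≠ z') (he : F.lev z' = F.lev z)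
    (h1 : ∀ p ∈ K ∩ L, F.lev p ≤ F.lev z) : ∀ p ∈ K ∪ L, F.lev p ≤ F.lev z := by
  have hM := h.body
  obtain ⟨hlo, hhi, -⟩ := hX.frame h.bK h.bL
  by_contra hc
  push Not at hc
  obtain ⟨p, hp, hlt⟩ := hc
  have u1 : F.lev z < F.hi K := by
    rcases hp with hp | hp
    · exact hlt.trans_le (F.lev_mem h.bK hp).2
    · exact hhi ▸ hlt.trans_le (F.lev_mem h.bL hp).2
  obtain ⟨q, hq, eq⟩ := F.exists_lev_eq_lo hM
  obtain ⟨r, hr, er⟩ := F.exists_lev_eq_hi hM
  have hhiM : F.hi (K ∩ L) ≤ F.lev z := er ▸ h1 r hr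
  have u2 : F.lo K < F.lev z := by
    have := (F.lev_mem h.bK hq.1).1
    have := F.lo_lt_hi hM
    linarith
  have hh : F.hgt z ≠ F.hgt z' := by
    intro e
    apply hne
    rw [← F.pt_lev_hgt z, ← F.pt_lev_hgt z', he, e]
  have mid : ∀ {N : Set V}, Body N → z ∈ N → z' ∈ N → F.lev z ∈ Ioo (F.lo N) (F.hi N) →
      F.pt (F.lev z) ((F.hgt z + F.hgt z') / 2) ∈ interior N := by
    intro N hN a a' hs
    have b := ((F.mem_iff hN z).1 a).2
    have b' := ((F.mem_iff hN z').1 a').2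
    rw [he] at b'
    rw [F.mem_interior_iff hN, F.lev_pt, F.hgt_pt]
    refine ⟨hs, ?_, ?_⟩ <;> rcases lt_or_gt_of_ne hh with c | c <;>
      linarith [b.1, b.2, b'.1, b'.2]
  have hm : F.pt (F.lev z) ((F.hgt z + F.hgt z') / 2) ∈ interior (K ∩ L) := by
    rw [interior_inter]
    exact ⟨mid h.bK hz.1 hz'.1 ⟨u2, u1⟩, mid h.bL hz.2 hz'.2 ⟨hlo ▸ u2, hhi ▸ u1⟩⟩
  have := ((F.mem_interior_iff hM _).1 hm).1.2
  rw [F.lev_pt] at this
  linarith

theorem sm_brk (F : Frame) (h : Pr K L) (hX : SameX F.d K L) {z : V} (hz : z ∈ K ∩ L)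
    (hi : ¬ Inner (K ∩ L) F.lev z) :
    sm (K ∩ L) F.d z = z ∨ (∀ p ∈ K ∪ L, F.lev z ≤ F.lev p) ∨
      (∀ p ∈ K ∪ L, F.lev p ≤ F.lev z) := by
  by_cases he : sm (K ∩ L) F.d z = z
  · exact Or.inl he
  have hz' := (sm_spec h.body F.d_ne hz).1
  have hl := sm_lev F (K ∩ L) z
  refine Or.inr ?_
  rw [Inner, not_and_or] at hi
  rcases hi with hi | hi
  · push Not at hi
    refine Or.inl fun p hp => ?_
    have := sm_face F.neg h hX.neg hz hz' (Ne.symm he) (by rw [F.neg_lev, F.neg_lev, hl])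
      (fun q hq => by rw [F.neg_lev, F.neg_lev]; exact neg_le_neg (hi q hq)) p hp
    rw [F.neg_lev, F.neg_lev] at this
    linarith
  · push Not at hi
    exact Or.inr (sm_face F h hX hz hz' (Ne.symm he) hl hi)

theorem face_ext (F : Frame) (h : Pr K L) (hX : SameX F.d K L) {z z' : V} (hz : z ∈ K ∩ L)
    (hz' : z' ∈ K ∩ L) (hne : z ≠ z') (h1 : ∀ p ∈ K ∩ L, F.lev p ≤ F.lev z)
    (h2 : ∀ p ∈ K ∩ L, F.lev p ≤ F.lev z') : ∀ p ∈ K ∪ L, F.lev p ≤ F.lev z :=
  sm_face F h hX hz hz' hne (le_antisymm (h1 z' hz') (h2 z hz)) h1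

theorem sm_pot_level (F : Frame) (h : Pr K L) (hX : SameX F.d K L) {z z' : V}
    (he : F.lev z' = F.lev z) : pot K L z z' = 0 := by
  have hS : Hl z z' = F.lev ⁻¹' {t | 0 < F.o * ((t - F.lev z) * (F.hgt z - F.hgt z'))} := by
    ext X
    rw [Hl, mem_ofPred_eq, mem_preimage, mem_ofPred_eq, sm_det3 F, he]
    have : (F.lev X - F.lev z) * F.hgt z + (F.lev z - F.lev z) * F.hgt X -
        (F.lev X - F.lev z) * F.hgt z' = (F.lev X - F.lev z) * (F.hgt z - F.hgt z') := by ring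
    rw [this]
  have hm : MeasurableSet {t : ℝ | 0 < F.o * ((t - F.lev z) * (F.hgt z - F.hgt z'))} :=
    (isOpen_lt continuous_const (by fun_prop)).measurableSet
  rw [pot, cap, cap, hS, hX.vol_inter h.bK h.bL hm, sub_self]

theorem sm_Zs (h : Pr K L) {d : V} (hd : d ≠ 0) (hX : SameX d K L) {z : V} (hz : z ∈ Zs K L) :
    sm (K ∩ L) d z ∈ Zs K L ∧ pot K L z (sm (K ∩ L) d z) = 0 := by
  obtain ⟨F, -, rfl⟩ := exists_frame hd
  have hzM : z ∈ K ∩ L := ⟨hz.1, hz.2.1⟩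
  have hm := (sm_spec h.body F.d_ne hzM).1
  have hl := sm_lev F (K ∩ L) z
  refine ⟨?_, sm_pot_level F h hX hl⟩
  by_cases hi : Inner (K ∩ L) F.lev z
  · obtain ⟨-, ht, hb, hc⟩ := sm_gen F h hX hz hi
    refine ⟨hm.1, hm.2, fun hc' => ?_, fun hc' => ?_⟩
    · have := ((F.mem_interior_iff h.bK _).1 hc').2
      rw [hl] at this
      rcases hc with ⟨-, e⟩ | ⟨-, e⟩ <;> rw [e, F.hgt_pt] at this <;> linarith [this.1, this.2]
    · have := ((F.mem_interior_iff h.bL _).1 hc').2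
      rw [hl] at this
      rcases hc with ⟨-, e⟩ | ⟨-, e⟩ <;> rw [e, F.hgt_pt] at this <;> linarith [this.1, this.2]
  · have ext : ∀ {N : Set V}, Body N → N ⊆ K ∪ L → ((∀ p ∈ K ∪ L, F.lev z ≤ F.lev p) ∨
        (∀ p ∈ K ∪ L, F.lev p ≤ F.lev z)) → sm (K ∩ L) F.d z ∉ interior N := by
      intro N hN hs hc hc'
      have := ((F.mem_interior_iff hN _).1 hc').1
      rw [hl] at this
      rcases hc with hc | hc
      · obtain ⟨q, hq, e⟩ := F.exists_lev_eq_lo hN
        linarith [hc q (hs hq), this.1]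
      · obtain ⟨q, hq, e⟩ := F.exists_lev_eq_hi hN
        linarith [hc q (hs hq), this.2]
    rcases sm_brk F h hX hzM hi with e | e
    · rwa [e]
    · exact ⟨hm.1, hm.2, ext h.bK subset_union_left e, ext h.bL subset_union_right e⟩

end XR
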