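import Pool.Agent.P.MP_408b1f_gt.Tan
import Pool.Agent.P.MP_408b1f_gt.Sm

/-! Tangents along a genuine edge. By sm_gen, z is top or bottom in F. In the top case (t = 1):
tan_top for F at z (K and L) and for F.flip at sm z (orientation -1, flip_top); tan_unique gives
u, v, u', v' as positive multiples of e + k d; the slope differences are the right derivative of
len K = len L (equal near s, SameX.frame), a supergradient since top has supergradient k and
- bot has supergradient - k'. Bottom case: apply the top case to F.neg (neg_lev, neg_hgt, neg_len,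
sm_neg) and take t = -1, m to - m. -/

open Set MeasureTheory Filter Topology

noncomputable section

namespace XR

variable {K L : Set V}

private theorem lev_comb (F : Frame) (l k : ℝ) : F.lev (l • (F.e + k • F.d)) = l := by
  rw [F.lev_smul, F.lev_add, F.lev_smul]; simp

private theorem hgt_comb (F : Frame) (l k : ℝ) : F.hgt (l • (F.e + k • F.d)) = l * k := by
  rw [F.hgt_smul, F.hgt_add, F.hgt_smul]; simp

/-- slopes of the two tangents of one body along a chord -/
private theorem one_body (F : Frame) (hF : F.o = 1) (hK : Body K) {s : ℝ}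
    (hs : s ∈ Ioo (F.lo K) (F.hi K)) {u u' : V}
    (hu : IsTan 1 K (F.pt s (F.top K s)) u) (hu' : IsTan (-1) K (F.pt s (F.bot K s)) u') :
    ∃ m, HasDerivWithinAt (F.len K) m (Ioi s) s ∧ SGon (F.len K) (F.lo K) (F.hi K) s m ∧
      0 < F.lev u ∧ 0 < F.lev u' ∧ F.hgt u / F.lev u - F.hgt u' / F.lev u' = m := by
  obtain ⟨k, hk1, hk2, hk3⟩ := tan_top F hK hs
  have hs' : s ∈ Ioo (F.flip.lo K) (F.flip.hi K) := by rwa [F.flip_lo, F.flip_hi]
  obtain ⟨k', hl1, hl2, hl3⟩ := tan_top F.flip hK hs'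
  rw [hF] at hk3
  rw [F.flip_o, hF, F.flip_pt, F.flip_top, neg_neg] at hl3
  obtain ⟨l, hl, rfl⟩ := tan_unique hK (Or.inl rfl) hk3 hu
  obtain ⟨l', hl', rfl⟩ := tan_unique hK (Or.inr rfl) hl3 hu'
  have hlen : F.len K = fun x => F.top K x + F.flip.top K x := by
    funext x; rw [F.flip_top, Frame.len]; ring
  have e1 : F.lev (l' • (F.flip.e + k' • F.flip.d)) = l' := by
    rw [← F.flip_lev]; exact lev_comb F.flip l' k'
  have e2 : F.hgt (l' • (F.flip.e + k' • F.flip.d)) = -(l' * k') := by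
    rw [← hgt_comb F.flip l' k', F.flip_hgt, neg_neg]
  refine ⟨k + k', ?_, ?_, ?_, ?_, ?_⟩
  · rw [hlen]; exact hk1.add hl1
  · intro x hx
    have a1 := hk2 x hx
    have a2 := hl2 x (by rwa [F.flip_lo, F.flip_hi])
    rw [hlen]
    simp only
    linarith
  · rwa [lev_comb]
  · rwa [e1]
  · rw [lev_comb, hgt_comb, e1, e2]
    field_simp
    ring

private theorem top_case (F : Frame) (hF : F.o = 1) (hK : Body K) (hL : Body L)
    (hX : SameX F.d K L) {s : ℝ} (hs : s ∈ Ioo (F.lo K) (F.hi K))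
    (ht : F.top K s = F.top L s) (hb : F.bot K s = F.bot L s) {u v u' v' : V}
    (hu : IsTan 1 K (F.pt s (F.top K s)) u) (hv : IsTan 1 L (F.pt s (F.top K s)) v)
    (hu' : IsTan (-1) K (F.pt s (F.bot K s)) u') (hv' : IsTan (-1) L (F.pt s (F.bot K s)) v') :
    ∃ m, Gen0 F.lev F.hgt F.d (F.pt s (F.top K s)) (F.pt s (F.bot K s)) u v u' v' 1
      (F.len K s) m ∧ SGon (F.len K) (F.lo K) (F.hi K) s m := by
  obtain ⟨hlo, hhi, hlen⟩ := hX.frame hK hL
  have hsL : s ∈ Ioo (F.lo L) (F.hi L) := by rwa [← hlo, ← hhi]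
  obtain ⟨m, d1, g1, p1, p1', q1⟩ := one_body F hF hK hs hu hu'
  rw [ht] at hv
  rw [hb] at hv'
  obtain ⟨m', d2, -, p2, p2', q2⟩ := one_body F hF hL hsL hv hv'
  have hev : F.len K =ᶠ[𝓝[Ioi s] s] F.len L := by
    have : Icc (F.lo K) (F.hi K) ∈ 𝓝 s := Icc_mem_nhds hs.1 hs.2
    filter_upwards [mem_nhdsWithin_of_mem_nhds this] with x hx using hlen x hx
  have d3 : HasDerivWithinAt (F.len K) m' (Ioi s) s :=
    d2.congr_of_eventuallyEq hev (hlen s (Ioo_subset_Icc_self hs))
  have hmm : m = m' := (uniqueDiffWithinAt_Ioi s).eq_deriv _ d1 d3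
  refine ⟨m, ⟨Or.inl rfl, ?_, ?_, ?_, ?_, ?_, ?_, ?_, ?_⟩, g1⟩
  · have := F.bot_lt_top hK hs
    rw [Frame.len]; linarith
  · rw [F.pt_add_smul_d, Frame.len]; congr 1; ring
  · simpa using p1
  · simpa using p2
  · simpa using p1'
  · simpa using p2'
  · rw [q1, one_mul]
  · rw [q2, one_mul, hmm]

theorem edge_tan (F : Frame) (hF : F.o = 1) (h : Pr K L) (hX : SameX F.d K L) {z u v u' v' : V}
    (hz : z ∈ Zs K L) (hi : Inner (K ∩ L) F.lev z)
    (hu : IsTan 1 K z u) (hv : IsTan 1 L z v)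
    (hu' : IsTan (-1) K (sm (K ∩ L) F.d z) u') (hv' : IsTan (-1) L (sm (K ∩ L) F.d z) v') :
    ∃ t m, Gen0 F.lev F.hgt F.d z (sm (K ∩ L) F.d z) u v u' v' t (F.len K (F.lev z)) m ∧
      SGon (F.len K) (F.lo K) (F.hi K) (F.lev z) m ∧
      (t = 1 → F.hgt z = F.top K (F.lev z)) ∧ (t = -1 → F.hgt z = F.bot K (F.lev z)) := by
  obtain ⟨hs, ht, hb, hc⟩ := sm_gen F h hX hz hi
  set s := F.lev z with hsdef
  rcases hc with ⟨h1, h2⟩ | ⟨h1, h2⟩
  · rw [h2] at hu' hv' ⊢
    have hu1 : IsTan 1 K (F.pt s (F.top K s)) u := by rw [← h1]; exact hu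
    have hv1 : IsTan 1 L (F.pt s (F.top K s)) v := by rw [← h1]; exact hv
    obtain ⟨m, g, sg⟩ := top_case F hF h.bK h.bL hX hs ht hb hu1 hv1 hu' hv'
    rw [← h1] at g
    refine ⟨1, m, g, sg, fun _ => ?_, fun h' => ?_⟩
    · have := congrArg F.hgt h1
      rwa [F.hgt_pt] at this
    · norm_num at h'
  · rw [h2] at hu' hv' ⊢
    have hs' : -s ∈ Ioo (F.neg.lo K) (F.neg.hi K) := by
      rw [F.neg_lo, F.neg_hi]; exact ⟨neg_lt_neg hs.2, neg_lt_neg hs.1⟩
    have e1 : F.neg.pt (-s) (F.neg.top K (-s)) = z := by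
      rw [F.neg_pt, F.neg_top, neg_neg, neg_neg]; exact h1.symm
    have e2 : F.neg.pt (-s) (F.neg.bot K (-s)) = F.pt s (F.top K s) := by
      rw [F.neg_pt, F.neg_bot, neg_neg, neg_neg]
    have ht' : F.neg.top K (-s) = F.neg.top L (-s) := by
      rw [F.neg_top, F.neg_top, neg_neg, hb]
    have hb' : F.neg.bot K (-s) = F.neg.bot L (-s) := by
      rw [F.neg_bot, F.neg_bot, neg_neg, ht]
    obtain ⟨m, g, sg⟩ := top_case F.neg hF h.bK h.bL hX.neg hs' ht' hb'
      (e1 ▸ hu) (e1 ▸ hv) (e2 ▸ hu') (e2 ▸ hv')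
    rw [e1, e2, F.neg_len, neg_neg] at g
    refine ⟨-1, -m, ⟨Or.inr rfl, g.hlen, ?_, ?_, ?_, ?_, ?_, ?_, ?_⟩, ?_, fun h' => ?_,
      fun _ => ?_⟩
    · have := g.hz
      rw [this, F.neg_d]; simp
    · simpa using g.hu
    · simpa using g.hv
    · simpa using g.hu'
    · simpa using g.hv'
    · simpa [neg_div_neg_eq] using g.su
    · simpa [neg_div_neg_eq] using g.sv
    · intro x hx
      have hx' : -x ∈ Icc (F.neg.lo K) (F.neg.hi K) := by
        rw [F.neg_lo, F.neg_hi]; exact ⟨neg_le_neg hx.2, neg_le_neg hx.1⟩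
      have := sg (-x) hx'
      rw [F.neg_len, F.neg_len, neg_neg, neg_neg] at this
      linarith
    · norm_num at h'
    · have := congrArg F.hgt h1
      rwa [F.hgt_pt] at this

theorem Gen0.det_eq {a b : V → ℝ} (hd : ∀ p q, det p q = a p * b q - b p * a q)
    {d z z' u v u' v' : V} {t len m : ℝ} (h : Gen0 a b d z z' u v u' v' t len m) :
    det u v / (a u * a v) = det u' v' / (a u' * a v') := by
  have h1 : a u ≠ 0 := fun e => by have := h.hu; rw [e] at this; simp at this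
  have h2 : a v ≠ 0 := fun e => by have := h.hv; rw [e] at this; simp at this
  have h3 : a u' ≠ 0 := fun e => by have := h.hu'; rw [e] at this; simp at this
  have h4 : a v' ≠ 0 := fun e => by have := h.hv'; rw [e] at this; simp at this
  have e1 : det u v / (a u * a v) = b v / a v - b u / a u := by
    rw [hd]; field_simp
  have e2 : det u' v' / (a u' * a v') = b v' / a v' - b u' / a u' := by
    rw [hd]; field_simp
  rw [e1, e2]
  linarith [h.su, h.sv]

theorem Gen.det_eq {a b : V → ℝ} (hd : ∀ p q, det p q = a p * b q - b p * a q)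
    {d z z' u v u' v' : V} {t len m : ℝ} (h : Gen a b d z z' u v u' v' t len m) :
    det u v = det u' v' := by
  have h1 : a u ≠ 0 := fun e => by have := h.hu; rw [e] at this; simp at this
  have h2 : a v ≠ 0 := fun e => by have := h.hv; rw [e] at this; simp at this
  have := h.toGen0.det_eq hd
  rw [← h.hn] at this
  exact (div_left_inj' (mul_ne_zero h1 h2)).1 this

end XR
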