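import Pool.Agent.P.MP_408b1f_gt.NT
import Pool.Agent.P.MP_408b1f_gt.SGA

/-! Consequences of the existence of bad pairs for all small eps.
ends_zero: if g 1 > 0 the top face of K is [xK, xK + g 1]; common chords (common_chord) over the
first and last eps of it show top K = top L = 1 on an interval of length >= g 1 - 2 eps > eps
(convexity of L), eq_of_slab. For g 0 use BadPair.neg.
uniq_max: if f is maximal at x < x' it is constant on [x,x'] (concave), so top K = bot K + f is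
concave and convex there, hence affine, same for L; two common chords near the ends give equality
on a long interval, eq_of_slab.
steep: suppose for some l, for every s > 0 some x in (0,s] has a supergradient m < l. Then
f x' <= max l 0 * x' on [0,1] (let x tend to 0, continuity, f 0 = 0). For eps < 1 / (max l 0 + 1)
heightL shows that w eps is minimal on K exactly at the point (0, yL K), so - eps * yL K is
(F3 eps).lo K; SameX.frame gives yL K = yL L, and nofix gives a contradiction. Right end by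
BadPair.neg, SG.neg. -/

open Set MeasureTheory Filter Topology

noncomputable section

namespace XR

variable {f g : ℝ → ℝ}

theorem ends_neg (hb : ∀ ε > (0:ℝ), ∃ K L, BadPair f g ε K L) :
    ∀ ε > (0:ℝ), ∃ K L, BadPair (negF f) (negF g) ε K L := fun ε hε => by
  obtain ⟨K, L, h⟩ := hb ε hε
  exact ⟨_, _, h.neg⟩

theorem ends_top_iff {K : Set V} (hK : Fam f g K) {x : ℝ} (hx : x ∈ Icc (0:ℝ) 1) :
    (x, (1:ℝ)) ∈ K ↔ F1.top K x = 1 := by
  have h1 := hK.top_le_one hx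
  have h2 := hK.top_eq hx
  have h3 := (hK.vert x hx).1
  rw [hK.mem_iff hx]
  exact ⟨fun h => le_antisymm h1 h.2, fun h => ⟨by linarith, h.ge⟩⟩

theorem ends_top (hb : ∀ ε > (0:ℝ), ∃ K L, BadPair f g ε K L) : g 1 = 0 := by
  have h1 : (1:ℝ) ∈ Icc (0:ℝ) 1 := ⟨zero_le_one, le_rfl⟩
  obtain ⟨K0, -, h0, -, -, -⟩ := hb 1 one_pos
  refine ((h0.hor 1 h1).1.eq_or_lt.resolve_right fun hg => ?_).symm
  have hε : 0 < g 1 / 4 := by linarith
  obtain ⟨K, L, hK, hL, hne, hs⟩ := hb _ hε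
  obtain ⟨xK, hx⟩ := (hK.hor 1 h1).2
  obtain ⟨xL, hy⟩ := (hL.hor 1 h1).2
  have b0 : 0 ≤ xK := (hK.box _ ((hx xK).2 ⟨le_rfl, by linarith⟩)).1
  have b1 : xK + g 1 ≤ 1 := (hK.box _ ((hx (xK + g 1)).2 ⟨by linarith, le_rfl⟩)).2.1
  have hI : ∀ x, xK ≤ x → x ≤ xK + g 1 → x ∈ Icc (0:ℝ) 1 ∧ F1.top K x = 1 := fun x c0 c1 =>
    ⟨⟨by linarith, by linarith⟩, (ends_top_iff hK ⟨by linarith, by linarith⟩).1 ((hx x).2 ⟨c0, c1⟩)⟩
  obtain ⟨a, ⟨a0, a1⟩, a2⟩ := common_chord hK hL hε hs b0 (by linarith)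
  obtain ⟨b, ⟨c0, c1⟩, c2⟩ := common_chord hK hL hε hs (x1 := xK + 3 * (g 1 / 4)) (by linarith)
    (by linarith)
  obtain ⟨a3, a4⟩ := hI a a0 (by linarith)
  obtain ⟨c3, c4⟩ := hI b (by linarith) (by linarith)
  have a5 := ((hy a).1 ((ends_top_iff hL a3).2 (a2.symm.trans a4))).1
  have c5 := ((hy b).1 ((ends_top_iff hL c3).2 (c2.symm.trans c4))).2
  refine hne (eq_of_slab hK hL hε hs a3.1 c3.2 (by linarith) fun x ⟨x0, x1⟩ => ?_)
  obtain ⟨x2, x3⟩ := hI x (by linarith) (by linarith)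
  rw [x3, (ends_top_iff hL x2).1 ((hy x).2 ⟨by linarith, by linarith⟩)]

theorem ends_zero (hb : ∀ ε > (0:ℝ), ∃ K L, BadPair f g ε K L) : g 0 = 0 ∧ g 1 = 0 :=
  ⟨by simpa [negF] using ends_top (ends_neg hb), ends_top hb⟩

theorem ends_aff {K : Set V} (hK : Fam f g K) {a b M s t : ℝ} (ha : a ∈ Icc (0:ℝ) 1)
    (hb : b ∈ Icc (0:ℝ) 1) (hM : ∀ z ∈ Icc (0:ℝ) 1, f z ≤ M) (fa : f a = M) (fb : f b = M)
    (hs : 0 ≤ s) (ht : 0 ≤ t) (hst : s + t = 1) :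
    F1.top K (s * a + t * b) = s * F1.top K a + t * F1.top K b := by
  have h1 := F1.concaveOn_top hK.body
  have h2 := F1.convexOn_bot hK.body
  rw [hK.F1_lo, hK.F1_hi] at h1 h2
  have h3 := h1.2 ha hb hs ht hst
  have h4 := h2.2 ha hb hs ht hst
  have h5 : s * a + t * b ∈ Icc (0:ℝ) 1 := h1.1 ha hb hs ht hst
  have h6 := hM _ h5
  simp only [smul_eq_mul] at h3 h4
  refine le_antisymm ?_ h3
  rw [hK.top_eq h5, hK.top_eq ha, hK.top_eq hb, fa, fb]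
  linear_combination h4 + h6 - M * hst

theorem ends_uniq (hb : ∀ ε > (0:ℝ), ∃ K L, BadPair f g ε K L) {x x' : ℝ}
    (hx : x ∈ Icc (0:ℝ) 1) (hx' : x' ∈ Icc (0:ℝ) 1) (hm : IsMaxOn f (Icc 0 1) x)
    (hm' : IsMaxOn f (Icc 0 1) x') : ¬ x < x' := fun hlt => by
  have hε : 0 < (x' - x) / 4 := by linarith
  obtain ⟨K, L, hK, hL, hne, hs⟩ := hb _ hε
  have hM : ∀ z ∈ Icc (0:ℝ) 1, f z ≤ f x := fun z hz => hm hz
  have h1 : f x' = f x := le_antisymm (hm hx') (hm' hx)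
  have h2 : ∀ z, x ≤ z → z ≤ x' → z ∈ Icc (0:ℝ) 1 ∧ f z = f x := fun z z0 z1 => by
    have z2 : z ∈ Icc (0:ℝ) 1 := ⟨hx.1.trans z0, z1.trans hx'.2⟩
    have z3 := hK.concave.min_le_of_mem_Icc hx hx' ⟨z0, z1⟩
    rw [h1, min_self] at z3
    exact ⟨z2, le_antisymm (hM z z2) z3⟩
  obtain ⟨a, ⟨a0, a1⟩, a2⟩ := common_chord hK hL hε hs hx.1 (by linarith [hx'.2])
  obtain ⟨b, ⟨c0, c1⟩, c2⟩ := common_chord hK hL hε hs (x1 := x + 3 * ((x' - x) / 4))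
    (by linarith [hx.1]) (by linarith [hx'.2])
  obtain ⟨a3, a4⟩ := h2 a a0 (by linarith)
  obtain ⟨c3, c4⟩ := h2 b (by linarith) (by linarith)
  refine hne (eq_of_slab hK hL hε hs a3.1 c3.2 (by linarith) fun z hz => ?_)
  obtain ⟨s, t, hs, ht, hst, rfl⟩ := (Convex.mem_Icc (by linarith : a ≤ b)).1 hz
  rw [ends_aff hK a3 c3 hM a4 c4 hs ht hst, ends_aff hL a3 c3 hM a4 c4 hs ht hst, a2, c2]

theorem uniq_max (hb : ∀ ε > (0:ℝ), ∃ K L, BadPair f g ε K L) :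
    ∀ x ∈ Icc (0:ℝ) 1, ∀ x' ∈ Icc (0:ℝ) 1,
      IsMaxOn f (Icc 0 1) x → IsMaxOn f (Icc 0 1) x' → x = x' := fun _ hx _ hx' hm hm' =>
  le_antisymm (not_lt.1 (ends_uniq hb hx' hx hm' hm)) (not_lt.1 (ends_uniq hb hx hx' hm hm'))

theorem ends_min {K : Set V} (hK : Fam f g K) {c ε y : ℝ} (hε : 0 < ε) (hc : ε * (c + 1) ≤ 1)
    (hf : ∀ x ∈ Icc (0:ℝ) 1, f x ≤ c * x) (hy : ((0:ℝ), y) ∈ K) :
    (∀ p ∈ K, w ε (0, y) ≤ w ε p) ∧ (F3 ε).lo K = -(ε * y) := by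
  have h1 : ∀ p ∈ K, w ε (0, y) ≤ w ε p := fun p hp => by
    obtain ⟨b0, b1, -, -⟩ := hK.box p hp
    have h2 := (le_abs_self _).trans (hK.heightL hy hp)
    have h3 := hf p.1 ⟨b0, b1⟩
    have h4 := mul_le_mul_of_nonneg_left (h2.trans (add_le_add_left h3 _)) hε.le
    have h5 := mul_le_mul_of_nonneg_right hc b0
    simp only [w]
    linarith
  refine ⟨h1, IsLeast.csInf_eq ⟨⟨_, hy, by simp [w]⟩, ?_⟩⟩
  rintro _ ⟨p, hp, rfl⟩
  simpa [w] using h1 p hp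

theorem steep_left (hb : ∀ ε > (0:ℝ), ∃ K L, BadPair f g ε K L) (h0 : f 0 = 0) (l : ℝ) :
    ∃ s > 0, ∀ x ∈ Ioc (0:ℝ) s, x < 1 → ∀ m, SG f x m → l ≤ m := by
  by_contra hc
  push Not at hc
  have c0 : 0 ≤ max l 0 := le_max_right _ _
  have hε : 0 < 1 / (max l 0 + 10) := by positivity
  have hε' : 1 / (max l 0 + 10) ≤ 1 / 10 := one_div_le_one_div_of_le (by norm_num) (by linarith)
  have hε'' : 1 / (max l 0 + 10) * (max l 0 + 1) ≤ 1 := by
    rw [div_mul_eq_mul_div, div_le_one (by positivity)]; linarith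
  obtain ⟨K, L, h⟩ := hb _ hε
  have hf : ∀ x ∈ Icc (0:ℝ) 1, f x ≤ max l 0 * x := fun x hx => by
    rcases hx.1.eq_or_lt with rfl | x0
    · rw [h0, mul_zero]
    refine le_of_forall_pos_le_add fun δ hδ => ?_
    obtain ⟨s, s0, s1⟩ := Metric.continuousWithinAt_iff.1
      (h.hK.cont 0 ⟨le_rfl, zero_le_one⟩) δ hδ
    obtain ⟨z, ⟨z0, z1⟩, z2, m, m0, m1⟩ := hc (min (s / 2) x) (lt_min (by linarith) x0)
    have z3 := z1.trans (min_le_left _ _)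
    have z4 := z1.trans (min_le_right _ _)
    have z5 := s1 (x := z) ⟨z0.le, z2.le⟩ (by rw [Real.dist_eq, sub_zero, abs_of_pos z0]; linarith)
    rw [Real.dist_eq, h0, sub_zero] at z5
    have z6 := le_abs_self (f z)
    have z7 := m0 x hx
    have z8 := mul_le_mul_of_nonneg_right (m1.le.trans (le_max_left l 0)) (sub_nonneg.2 z4)
    have z9 := mul_nonneg c0 z0.le
    linarith
  obtain ⟨y, hy⟩ := h.hK.exL
  obtain ⟨y', hy'⟩ := h.hL.exL
  obtain ⟨a1, a2⟩ := ends_min h.hK hε hε'' hf hy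
  obtain ⟨-, a3⟩ := ends_min h.hL hε hε'' hf hy'
  have a4 := (SameX.frame (F := F3 _) h.same h.hK.body h.hL.body).1
  rw [a2, a3, neg_inj] at a4
  obtain rfl := mul_left_cancel₀ hε.ne' a4
  exact h.nofix hε hε' h0 ⟨hy, hy'⟩ fun p hp => ⟨(h.hK.box p hp.1).1, a1 p hp.1⟩

theorem steep_right (hb : ∀ ε > (0:ℝ), ∃ K L, BadPair f g ε K L) (h1 : f 1 = 0) (l : ℝ) :
    ∃ s > 0, ∀ x ∈ Ico (1 - s) (1:ℝ), 0 < x → ∀ m, SG f x m → m ≤ -l := by
  obtain ⟨s, s0, hs⟩ := steep_left (ends_neg hb) (by simpa [negF] using h1) l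
  refine ⟨s, s0, fun x ⟨x0, x1⟩ x2 m hm => ?_⟩
  have := hs (1 - x) ⟨by linarith, by linarith⟩ (by linarith) _ hm.neg
  linarith

theorem AllBad.half (h : AllBad f g) : Half f := by
  have hb : ∀ ε > (0:ℝ), ∃ K L, BadPair f g ε K L := fun ε _ => h.bad ε
  have hb' : ∀ ε > (0:ℝ), ∃ K L, BadPair g f ε K L := fun ε _ => h.swap.bad ε
  obtain ⟨K, L, hKL⟩ := h.bad 1
  obtain ⟨h0, h1⟩ := ends_zero hb'
  exact ⟨hKL.hK.concave, hKL.hK.cont, hKL.hK.pos, h0, h1, hKL.hK.le_one, uniq_max hb,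
    steep_left hb h0, steep_right hb h1⟩

end XR
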