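import Pool.Agent.P.MP_408b1f_gt.Norm
import Pool.Agent.P.MP_408b1f_gt.Bulk

/-! Existence of the flag system. sys_of_pre: exists_norm with the frames F1, F2, F3 eps and
the maps id, T, R; choose t, m by choice (arbitrary when not Inner); convert lev, hgt, len with the
simp lemmas F1_lev etc (funext), Fam.F1_len, Fam.F2_len; brk fields from sm_brk; lev fields from
sm_lev. exists_sys: Pre for (K,L) and (L,K) (BadPair.symm), Pre.hleft picks one. For hTT: if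
g y = 1 then (0,y), (1,y) lie in both bodies (Fam.hor and the box), are not interior, and the
chords of K ∩ L through them are as required (f 0 = f 1 = 0; use sm_spec or the definition). -/

open Set MeasureTheory Filter Topology

noncomputable section

namespace XR

variable {f g : ℝ → ℝ} {K L : Set V} {ε : ℝ}

theorem exs_full (hK : Fam f g K) {y : ℝ} (hy : y ∈ Icc (0:ℝ) 1) (hg : g y = 1) (x : ℝ) :
    (x, y) ∈ K ↔ 0 ≤ x ∧ x ≤ 1 := by
  obtain ⟨-, x0, hx0⟩ := hK.hor y hy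
  rw [hg] at hx0
  have a := (hK.box _ ((hx0 x0).2 ⟨le_rfl, by linarith⟩)).1
  have b := (hK.box _ ((hx0 (x0 + 1)).2 ⟨by linarith, le_rfl⟩)).2.1
  have e : x0 = 0 := by
    simp only at a b
    linarith
  rw [hx0, e, zero_add]

theorem exs_not_int (hK : Fam f g K) {x y : ℝ} (hx : x = 0 ∨ x = 1) : (x, y) ∉ interior K := by
  intro hi
  have hc : Continuous fun x' : ℝ => ((x', y) : V) := by fun_prop
  have h1 : x ∈ interior (Icc (0:ℝ) 1) := by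
    refine interior_maximal (t := (fun x' : ℝ => ((x', y) : V)) ⁻¹' interior K) (fun x' hx' => ?_)
      (isOpen_interior.preimage hc) hi
    have := hK.box _ (interior_subset hx')
    exact ⟨this.1, this.2.1⟩
  rw [interior_Icc] at h1
  rcases hx with rfl | rfl
  · exact lt_irrefl _ h1.1
  · exact lt_irrefl _ h1.2

theorem exs_fix (hK : Fam f g K) (hM : Body (K ∩ L)) {x y : ℝ} (hx : x ∈ Icc (0:ℝ) 1)
    (hf : f x = 0) (hp : (x, y) ∈ K ∩ L) : sm (K ∩ L) (0, 1) (x, y) = (x, y) := by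
  obtain ⟨h1, ⟨τ, hτ⟩, -⟩ := sm_spec hM flag2_d1 hp
  obtain ⟨-, y0, hy0⟩ := hK.vert x hx
  rw [hτ] at h1 ⊢
  have e : ((x, y) : V) + τ • ((0:ℝ), (1:ℝ)) = (x, y + τ) := by simp
  rw [e] at h1 ⊢
  have a := (hy0 _).1 h1.1
  have b := (hy0 _).1 hp.1
  rw [hf] at a b
  have : τ = 0 := by linarith [a.1, a.2, b.1, b.2]
  rw [this, add_zero]

theorem exs_swap (hK : Fam f g K) (hM : Body (K ∩ L)) {y : ℝ} (hp : ((0:ℝ), y) ∈ K ∩ L)
    (hq : ((1:ℝ), y) ∈ K ∩ L) : sm (K ∩ L) (-1, 0) (0, y) = (1, y) := by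
  obtain ⟨h1, ⟨τ, hτ⟩, h2⟩ := sm_spec hM flag2_d2 hp
  have h3 := (h2 (-1)).1 (by simpa using hq)
  rw [hτ] at h1 h3 ⊢
  have a := (hK.box _ h1.1).2.1
  have b := (hK.box _ h3.1).1
  simp at a b
  have : τ = -1 := by linarith
  rw [this]
  simp

theorem exs_TT (h : BadPair f g ε K L) (hε : 0 < ε) (hε' : ε ≤ 1 / 10) (h0 : f 0 = 0)
    (h1 : f 1 = 0) (S0 : Pre K L ε) {y : ℝ} (hy : y ∈ Icc (0:ℝ) 1) (hg : g y = 1) (j : S0.I) :
    S0.T (S0.T j) = j := by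
  have pr := h.pr hε hε'
  have m0 : ((0:ℝ), y) ∈ K ∩ L := ⟨(exs_full h.hK hy hg 0).2 ⟨le_rfl, zero_le_one⟩,
    (exs_full h.hL hy hg 0).2 ⟨le_rfl, zero_le_one⟩⟩
  have m1 : ((1:ℝ), y) ∈ K ∩ L := ⟨(exs_full h.hK hy hg 1).2 ⟨zero_le_one, le_rfl⟩,
    (exs_full h.hL hy hg 1).2 ⟨zero_le_one, le_rfl⟩⟩
  exact S0.hTT pr (h.osc hε hε') (h.hK.sameX1 h.hL) (h.hK.sameX2 h.hL)
    ⟨m0.1, m0.2, exs_not_int h.hK (Or.inl rfl), exs_not_int h.hL (Or.inl rfl)⟩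
    ⟨m1.1, m1.2, exs_not_int h.hK (Or.inr rfl), exs_not_int h.hL (Or.inr rfl)⟩
    (exs_fix h.hK pr.body ⟨le_rfl, zero_le_one⟩ h0 m0)
    (exs_fix h.hK pr.body ⟨zero_le_one, le_rfl⟩ h1 m1) (exs_swap h.hK pr.body m0 m1) j

theorem exs_l1 : F1.lev = Prod.fst := funext F1_lev
theorem exs_h1 : F1.hgt = Prod.snd := funext F1_hgt
theorem exs_l2 : F2.lev = Prod.snd := funext F2_lev
theorem exs_h2 : F2.hgt = negx := funext F2_hgt
theorem exs_l3 : (F3 ε).lev = w ε := funext (F3_lev ε)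
theorem exs_h3 : (F3 ε).hgt = Prod.snd := funext (F3_hgt ε)

theorem exs_choose {I : Type} {A : I → Prop} {B : I → ℝ → ℝ → Prop}
    (h : ∀ i, A i → ∃ t m, B i t m) : ∃ t m : I → ℝ, ∀ i, A i → B i (t i) (m i) := by
  have h' : ∀ i, ∃ t m, A i → B i t m := fun i => by
    by_cases hi : A i
    · obtain ⟨t, m, hb⟩ := h i hi
      exact ⟨t, m, fun _ => hb⟩
    · exact ⟨0, 0, fun h => absurd h hi⟩
  choose t m hb using h'
  exact ⟨t, m, hb⟩

theorem sys_of_pre (h : BadPair f g ε K L) (hε : 0 < ε) (hε' : ε ≤ 1 / 10) (h0 : f 0 = 0)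
    (h1 : f 1 = 0) (S0 : Pre K L ε) (hl : ∀ j, ∃ p ∈ K ∩ L, w ε p < w ε (S0.P j)) :
    ∃ (I : Type) (S : Sys f g ε I), S.HExtra := by
  have pr := h.pr hε hε'
  have ho := h.osc hε hε'
  have x1 := h.hK.sameX1 h.hL
  have x2 := h.hK.sameX2 h.hL
  have x3 := h.same
  have hOZ : ∀ i, S0.O i ∈ Zs K L := fun i => flag2_Zs (S0.flagO pr ho x1 i)
  have hOM : ∀ i, S0.O i ∈ K ∩ L := fun i => (Zs.mem_inter (hOZ i)).1
  have hPM : ∀ i, S0.P i ∈ K ∩ L := fun i => (Zs.mem_inter (flag2_Zs (S0.flag i))).1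
  have e1 := S0.e1' pr
  obtain ⟨u, v, u', v', htan, hgen⟩ := exists_norm pr ho S0.P S0.O ![F1, F2, F3 ε]
    (fun k => by fin_cases k <;> rfl)
    (fun k => by
      fin_cases k
      · exact x1
      · exact x2
      · exact x3)
    ![id, S0.T, S0.R] S0.flag hOZ
    (fun k => by
      fin_cases k
      · exact e1
      · exact S0.e2
      · exact S0.e3)
  have g1 : ∀ i, Inner (K ∩ L) F1.lev (S0.O i) → ∃ t m,
      Gen F1.lev F1.hgt F1.d (S0.P i) (S0.O i) (u i) (v i) (u' i) (v' i)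
        t (F1.len K (F1.lev (S0.O i))) m ∧
      SGon (F1.len K) (F1.lo K) (F1.hi K) (F1.lev (S0.O i)) m := hgen 0
  have g2 : ∀ i, Inner (K ∩ L) F2.lev (S0.O i) → ∃ t m,
      Gen F2.lev F2.hgt F2.d (S0.P (S0.T i)) (S0.O i) (u (S0.T i)) (v (S0.T i)) (u' i) (v' i)
        t (F2.len K (F2.lev (S0.O i))) m ∧
      SGon (F2.len K) (F2.lo K) (F2.hi K) (F2.lev (S0.O i)) m := hgen 1
  have g3 : ∀ i, Inner (K ∩ L) (F3 ε).lev (S0.O i) → ∃ t m,
      Gen (F3 ε).lev (F3 ε).hgt (F3 ε).d (S0.P (S0.R i)) (S0.O i) (u (S0.R i)) (v (S0.R i))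
        (u' i) (v' i) t ((F3 ε).len K ((F3 ε).lev (S0.O i))) m ∧
      SGon ((F3 ε).len K) ((F3 ε).lo K) ((F3 ε).hi K) ((F3 ε).lev (S0.O i)) m := hgen 2
  obtain ⟨t1, m1, g1⟩ := exs_choose g1
  obtain ⟨t2, m2, g2⟩ := exs_choose g2
  obtain ⟨t3, m3, g3⟩ := exs_choose g3
  have b1 : ∀ i, (S0.O i).1 ∈ Icc (0:ℝ) 1 := fun i =>
    ⟨(h.hK.box _ (hOM i).1).1, (h.hK.box _ (hOM i).1).2.1⟩
  have b2 : ∀ i, (S0.O i).2 ∈ Icc (0:ℝ) 1 := fun i => (h.hK.box _ (hOM i).1).2.2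
  have k1 := fun i => sm_brk F1 pr x1 (hOM i)
  have k2 := fun i => sm_brk F2 pr x2 (hOM i)
  have k3 := fun i => sm_brk (F3 ε) pr x3 (hOM i)
  have l1 := fun i => sm_lev F1 (K ∩ L) (S0.O i)
  have l2 := fun i => sm_lev F2 (K ∩ L) (S0.O i)
  have l3 := fun i => sm_lev (F3 ε) (K ∩ L) (S0.O i)
  simp only [exs_l1, exs_h1, F1_d, h.hK.F1_lo, h.hK.F1_hi, ← e1] at g1 k1 l1
  simp only [exs_l2, exs_h2, F2_d, h.hK.F2_lo, h.hK.F2_hi, ← S0.e2] at g2 k2 l2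
  simp only [exs_l3, exs_h3, F3_d, ← S0.e3] at g3 k3 l3
  refine ⟨S0.I,
    { K := K, L := L, hK := h.hK, hL := h.hL, fin := S0.fin, ne := S0.ne, R := S0.R, T := S0.T,
      comm := S0.comm, trans := S0.trans, P := S0.P, O := S0.O, u := u, v := v, u' := u',
      v' := v', t1 := t1, m1 := m1, t2 := t2, m2 := m2, t3 := t3,
      h3 := fun i => (F3 ε).len K (w ε (S0.O i)), m3 := m3, inj := S0.inj, memP := hPM,
      memO := hOM, tanPK := fun i => (htan i).1, tanPL := fun i => (htan i).2.1,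
      tanOK := fun i => (htan i).2.2.1, tanOL := fun i => (htan i).2.2.2.1,
      nrmP := fun i => (htan i).2.2.2.2.1, nrmO := fun i => (htan i).2.2.2.2.2,
      lev1 := l1, lev2 := l2, lev3 := l3, gen1 := fun i hi => ?_, gen2 := fun i hi => ?_,
      gen3 := fun i hi => (g3 i hi).1, brk1 := k1, brk2 := k2, brk3 := k3, intM := pr.int,
      hMl := h.hMl hε hε', hMr := h.hMr hε hε', hMb := h.hMb hε hε', hMt := h.hMt hε hε',
      hbulk := S0.hbulk h hε hε' h0 h1 },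
    ⟨hl, S0.hmaxuniq pr ho x3, fun y hy hg j => exs_TT h hε hε' h0 h1 S0 hy hg j⟩⟩
  · obtain ⟨a, b⟩ := g1 i hi
    rw [h.hK.F1_len (b1 i)] at a
    refine ⟨a, fun x' hx' => ?_⟩
    have := b x' hx'
    rwa [h.hK.F1_len (b1 i), h.hK.F1_len hx'] at this
  · obtain ⟨a, b⟩ := g2 i hi
    rw [h.hK.F2_len (b2 i)] at a
    refine ⟨a, fun x' hx' => ?_⟩
    have := b x' hx'
    rwa [h.hK.F2_len (b2 i), h.hK.F2_len hx'] at this

theorem exists_sys (h : BadPair f g ε K L) (hε : 0 < ε) (hε' : ε ≤ 1 / 10) (h0 : f 0 = 0)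
    (h1 : f 1 = 0) : ∃ (I : Type) (S : Sys f g ε I), S.HExtra := by
  have pr := h.pr hε hε'
  have ho := h.osc hε hε'
  obtain ⟨S⟩ := exists_pre pr ho (h.hK.sameX1 h.hL) (h.hK.sameX2 h.hL) h.same
  obtain ⟨S'⟩ := exists_pre (h.symm.pr hε hε') (h.symm.osc hε hε') (h.hL.sameX1 h.hK)
    (h.hL.sameX2 h.hK) h.symm.same
  rcases S.hleft S' pr ho h.same with hl | hl
  · exact sys_of_pre h hε hε' h0 h1 S hl
  · exact sys_of_pre h.symm hε hε' h0 h1 S' hl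

end XR
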