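import Pool.Agent.P.MP_408b1f_gt.FrB

/-! Bodies of a family: bridge to the frames F1, F2, symmetries, height and width lemmas.
Height lemma: if (0,y0), (1,y1) are in K, the point of the segment between them above x is within
x of y0 and lies on the vertical chord of length f x that contains p. -/

open Set MeasureTheory Filter Topology

noncomputable section

namespace XR

variable {f g : ℝ → ℝ} {K L : Set V}

theorem Fam.exL (hK : Fam f g K) : ∃ y, ((0:ℝ), y) ∈ K := by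
  obtain ⟨h0, y, hy⟩ := hK.vert 0 ⟨le_rfl, zero_le_one⟩
  exact ⟨y, (hy y).2 ⟨le_rfl, by linarith only [h0]⟩⟩
theorem Fam.exR (hK : Fam f g K) : ∃ y, ((1:ℝ), y) ∈ K := by
  obtain ⟨h0, y, hy⟩ := hK.vert 1 ⟨zero_le_one, le_rfl⟩
  exact ⟨y, (hy y).2 ⟨le_rfl, by linarith⟩⟩
theorem Fam.exB (hK : Fam f g K) : ∃ x, (x, (0:ℝ)) ∈ K := by
  obtain ⟨h0, y, hy⟩ := hK.hor 0 ⟨le_rfl, zero_le_one⟩
  exact ⟨y, (hy y).2 ⟨le_rfl, by linarith⟩⟩
theorem Fam.exT (hK : Fam f g K) : ∃ x, (x, (1:ℝ)) ∈ K := by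
  obtain ⟨h0, y, hy⟩ := hK.hor 1 ⟨zero_le_one, le_rfl⟩
  exact ⟨y, (hy y).2 ⟨le_rfl, by linarith⟩⟩

theorem Fam.F1_lo (hK : Fam f g K) : F1.lo K = 0 := by
  obtain ⟨y, hy⟩ := hK.exL
  refine IsLeast.csInf_eq ⟨⟨_, hy, by simp⟩, ?_⟩
  rintro _ ⟨p, hp, rfl⟩
  simpa using (hK.box p hp).1
theorem Fam.F1_hi (hK : Fam f g K) : F1.hi K = 1 := by
  obtain ⟨y, hy⟩ := hK.exR
  refine IsGreatest.csSup_eq ⟨⟨_, hy, by simp⟩, ?_⟩
  rintro _ ⟨p, hp, rfl⟩
  simpa using (hK.box p hp).2.1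
theorem Fam.F2_lo (hK : Fam f g K) : F2.lo K = 0 := by
  obtain ⟨y, hy⟩ := hK.exB
  refine IsLeast.csInf_eq ⟨⟨_, hy, by simp⟩, ?_⟩
  rintro _ ⟨p, hp, rfl⟩
  simpa using (hK.box p hp).2.2.1
theorem Fam.F2_hi (hK : Fam f g K) : F2.hi K = 1 := by
  obtain ⟨y, hy⟩ := hK.exT
  refine IsGreatest.csSup_eq ⟨⟨_, hy, by simp⟩, ?_⟩
  rintro _ ⟨p, hp, rfl⟩
  simpa using (hK.box p hp).2.2.2

private theorem Fam.vert' (hK : Fam f g K) {x : ℝ} (hx : x ∈ Icc (0:ℝ) 1) :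
    F1.top K x = F1.bot K x + f x ∧
      ∀ y, (x, y) ∈ K ↔ F1.bot K x ≤ y ∧ y ≤ F1.bot K x + f x := by
  obtain ⟨h0, y, hy⟩ := hK.vert x hx
  have e : {t | F1.pt x t ∈ K} = Icc y (y + f x) := by
    ext t
    simp only [F1_pt, mem_ofPred_eq, mem_Icc]
    exact hy t
  have e1 : F1.bot K x = y := by rw [Frame.bot, e, csInf_Icc (by linarith)]
  have e2 : F1.top K x = y + f x := by rw [Frame.top, e, csSup_Icc (by linarith)]
  rw [e1, e2]
  exact ⟨rfl, hy⟩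

theorem Fam.F1_len (hK : Fam f g K) {x : ℝ} (hx : x ∈ Icc (0:ℝ) 1) : F1.len K x = f x := by
  rw [Frame.len, (hK.vert' hx).1]; ring
theorem Fam.F2_len (hK : Fam f g K) {y : ℝ} (hy : y ∈ Icc (0:ℝ) 1) : F2.len K y = g y := by
  obtain ⟨h0, x, hx⟩ := hK.hor y hy
  have e : {t | F2.pt y t ∈ K} = Icc (-(x + g y)) (-x) := by
    ext t
    simp only [F2_pt, mem_ofPred_eq, mem_Icc]
    rw [hx]
    constructor <;> rintro ⟨h1, h2⟩ <;> constructor <;> linarith only [h2, h1]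
  rw [Frame.len, Frame.top, Frame.bot, e, csInf_Icc (by linarith), csSup_Icc (by linarith)]
  ring
theorem Fam.mem_iff (hK : Fam f g K) {x : ℝ} (hx : x ∈ Icc (0:ℝ) 1) (y : ℝ) :
    (x, y) ∈ K ↔ F1.bot K x ≤ y ∧ y ≤ F1.top K x := by
  rw [(hK.vert' hx).1]
  exact (hK.vert' hx).2 y
theorem Fam.top_eq (hK : Fam f g K) {x : ℝ} (hx : x ∈ Icc (0:ℝ) 1) :
    F1.top K x = F1.bot K x + f x := (hK.vert' hx).1
theorem Fam.bot_nonneg (hK : Fam f g K) {x : ℝ} (hx : x ∈ Icc (0:ℝ) 1) : 0 ≤ F1.bot K x := by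
  have h0 := (hK.vert x hx).1
  exact (hK.box _ (((hK.vert' hx).2 (F1.bot K x)).2 ⟨le_rfl, by linarith⟩)).2.2.1
theorem Fam.top_le_one (hK : Fam f g K) {x : ℝ} (hx : x ∈ Icc (0:ℝ) 1) : F1.top K x ≤ 1 := by
  have h0 := (hK.vert x hx).1
  rw [hK.top_eq hx]
  exact (hK.box _ (((hK.vert' hx).2 (F1.bot K x + f x)).2 ⟨by linarith, le_rfl⟩)).2.2.2
theorem Fam.sameX1 (hK : Fam f g K) (hL : Fam f g L) : SameX (0, 1) K L :=
  sameX_of_len (F := F1) hK.body hL.body (by rw [hK.F1_lo, hL.F1_lo]) (by rw [hK.F1_hi, hL.F1_hi])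
    fun s hs => by
      rw [hK.F1_lo, hK.F1_hi] at hs
      rw [hK.F1_len hs, hL.F1_len hs]
theorem Fam.sameX2 (hK : Fam f g K) (hL : Fam f g L) : SameX (-1, 0) K L :=
  sameX_of_len (F := F2) hK.body hL.body (by rw [hK.F2_lo, hL.F2_lo]) (by rw [hK.F2_hi, hL.F2_hi])
    fun s hs => by
      rw [hK.F2_lo, hK.F2_hi] at hs
      rw [hK.F2_len hs, hL.F2_len hs]

theorem Fam.concave (hK : Fam f g K) : ConcaveOn ℝ (Icc 0 1) f := by
  have h1 := F1.concaveOn_top hK.body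
  have h2 := F1.convexOn_bot hK.body
  rw [hK.F1_lo, hK.F1_hi] at h1 h2
  exact (h1.sub h2).congr fun x hx => hK.F1_len hx
theorem Fam.cont (hK : Fam f g K) : ContinuousOn f (Icc 0 1) := by
  have h1 := F1.continuousOn_top hK.body
  have h2 := F1.continuousOn_bot hK.body
  rw [hK.F1_lo, hK.F1_hi] at h1 h2
  exact (h1.sub h2).congr fun x hx => (hK.F1_len hx).symm
theorem Fam.pos (hK : Fam f g K) : ∀ x ∈ Ioo (0:ℝ) 1, 0 < f x := fun x hx => by
  have h1 := F1.bot_lt_top hK.body (s := x) (by rw [hK.F1_lo, hK.F1_hi]; exact hx)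
  rw [hK.top_eq (Ioo_subset_Icc_self hx)] at h1
  linarith
theorem Fam.le_one (hK : Fam f g K) : ∀ x ∈ Icc (0:ℝ) 1, f x ≤ 1 := fun x hx => by
  have h1 := hK.top_le_one hx
  have h2 := hK.bot_nonneg hx
  rw [hK.top_eq hx] at h1
  linarith

private theorem famA_mem {φ : V → V} (h : Function.Involutive φ) (p : V) : p ∈ φ '' K ↔ φ p ∈ K :=
  ⟨fun ⟨q, hq, e⟩ => by rw [← e, h]; exact hq, fun hp => ⟨_, hp, h p⟩⟩

private theorem famA_same {φ : V → V} (h : Function.Involutive φ) {d d' : V}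
    (hd : ∀ (p : V) (t : ℝ), φ (p + t • d) = φ p + t • d') (hs : SameX d' K L) :
    SameX d (φ '' K) (φ '' L) := fun p => by
  have := hs (φ p)
  simpa only [xray, famA_mem h, hd] using this

private theorem famA_swap : Function.Involutive (Prod.swap : V → V) := fun _ => rfl

private theorem famA_neg : Function.Involutive negP := fun p => by simp [negP]

private theorem famA_refl : Function.Involutive fun p : V => ((p.1, 1 - p.2) : V) := fun p => by
  simp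

theorem Fam.swap (hK : Fam f g K) : Fam g f (Prod.swap '' K) where
  body := by
    have := hK.body.image (LinearEquiv.prodComm ℝ ℝ ℝ) 0
    simpa using this
  box p hp := by
    have := hK.box _ ((famA_mem famA_swap p).1 hp)
    exact ⟨this.2.2.1, this.2.2.2, this.1, this.2.1⟩
  vert x hx := by simpa only [famA_mem famA_swap, Prod.swap_prod_mk] using hK.hor x hx
  hor x hx := by simpa only [famA_mem famA_swap, Prod.swap_prod_mk] using hK.vert x hx
theorem AllBad.swap (h : AllBad f g) : AllBad g f := fun d hd => by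
  obtain ⟨K, L, hK, hL, hne, hs⟩ := h d.swap fun e => hd (by rw [← d.swap_swap, e]; rfl)
  exact ⟨_, _, hK.swap, hL.swap, fun e => hne (famA_swap.injective.image_injective e),
    famA_same famA_swap (fun _ _ => rfl) hs⟩
theorem AllBad.bad (h : AllBad f g) (ε : ℝ) : ∃ K L, BadPair f g ε K L := by
  obtain ⟨K, L, hK, hL, hne, hs⟩ := h (ε, 1) (by simp)
  exact ⟨K, L, hK, hL, hne, hs⟩
theorem Fam.neg (hK : Fam f g K) : Fam (negF f) (negF g) (negP '' K) where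
  body := by
    have := hK.body.image (LinearEquiv.neg ℝ) (1, 1)
    convert this using 2
    ext <;> simp [negP] <;> ring
  box p hp := by
    have := hK.box _ ((famA_mem famA_neg p).1 hp)
    simp only [negP] at this
    refine ⟨?_, ?_, ?_, ?_⟩ <;> linarith [this.1, this.2.1, this.2.2.1, this.2.2.2]
  vert x hx := by
    obtain ⟨h0, y, hy⟩ := hK.vert (1 - x) ⟨by linarith [hx.2], by linarith [hx.1]⟩
    refine ⟨h0, 1 - y - f (1 - x), fun y' => ?_⟩
    rw [famA_mem famA_neg]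
    simp only [negP, negF, hy]
    constructor <;> rintro ⟨h1, h2⟩ <;> constructor <;> linarith
  hor x hx := by
    obtain ⟨h0, y, hy⟩ := hK.hor (1 - x) ⟨by linarith [hx.2], by linarith [hx.1]⟩
    refine ⟨h0, 1 - y - g (1 - x), fun y' => ?_⟩
    rw [famA_mem famA_neg]
    simp only [negP, negF, hy]
    constructor <;> rintro ⟨h1, h2⟩ <;> constructor <;> linarith
theorem BadPair.neg {ε : ℝ} (h : BadPair f g ε K L) :
    BadPair (negF f) (negF g) ε (negP '' K) (negP '' L) :=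
  ⟨h.hK.neg, h.hL.neg, fun e => h.ne (famA_neg.injective.image_injective e),
    famA_same famA_neg (fun p t => by ext <;> simp [negP] <;> ring) h.same.neg⟩
theorem BadPair.symm {ε : ℝ} (h : BadPair f g ε K L) : BadPair f g ε L K :=
  ⟨h.hL, h.hK, h.ne.symm, h.same.symm⟩
/-- reflection in the horizontal midline -/
theorem Fam.reflY (hK : Fam f g K) : Fam f (negF g) ((fun p : V => (p.1, 1 - p.2)) '' K) where
  body := by
    have := hK.body.image ((LinearEquiv.refl ℝ ℝ).prodCongr (LinearEquiv.neg ℝ)) (0, 1)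
    convert this using 2
    ext
    · simp
    · simp; ring
  box p hp := by
    have := hK.box _ ((famA_mem famA_refl p).1 hp)
    refine ⟨this.1, this.2.1, ?_, ?_⟩ <;> linarith [this.2.2.1, this.2.2.2]
  vert x hx := by
    obtain ⟨h0, y, hy⟩ := hK.vert x hx
    refine ⟨h0, 1 - y - f x, fun y' => ?_⟩
    rw [famA_mem famA_refl]
    simp only [hy]
    constructor <;> rintro ⟨h1, h2⟩ <;> constructor <;> linarith
  hor x hx := by
    obtain ⟨h0, y, hy⟩ := hK.hor (1 - x) ⟨by linarith [hx.2], by linarith [hx.1]⟩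
    refine ⟨h0, y, fun y' => ?_⟩
    rw [famA_mem famA_refl]
    exact hy y'

theorem Fam.vdist (hK : Fam f g K) {p q : V} (hp : p ∈ K) (hq : q ∈ K) (h : p.1 = q.1) :
    |p.2 - q.2| ≤ f p.1 := by
  obtain ⟨-, y, hy⟩ := hK.vert p.1 ⟨(hK.box p hp).1, (hK.box p hp).2.1⟩
  have h1 := (hy p.2).1 hp
  have h2 := (hy q.2).1 (by rw [h]; exact hq)
  rw [abs_le]
  constructor <;> linarith only [h1, h2, h1.1, h1.2, h2.1, h2.2]
theorem Fam.hdist (hK : Fam f g K) {p q : V} (hp : p ∈ K) (hq : q ∈ K) (h : p.2 = q.2) :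
    |p.1 - q.1| ≤ g p.2 :=
  hK.swap.vdist (mem_image_of_mem _ hp) (mem_image_of_mem _ hq) h

private theorem Fam.seg (hK : Fam f g K) {p q : V} (hp : p ∈ K) (hq : q ∈ K) {t : ℝ} (h0 : 0 ≤ t)
    (h1 : t ≤ 1) : ((p.1 + t * (q.1 - p.1), p.2 + t * (q.2 - p.2)) : V) ∈ K :=
  hK.body.conv.add_smul_sub_mem hp hq ⟨h0, h1⟩

theorem Fam.heightL (hK : Fam f g K) {y0 : ℝ} (h0 : ((0:ℝ), y0) ∈ K) {p : V} (hp : p ∈ K) :
    |p.2 - y0| ≤ f p.1 + p.1 := by
  obtain ⟨y1, h1⟩ := hK.exR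
  have b := hK.box p hp
  have b0 := hK.box _ h0
  have b1 := hK.box _ h1
  have h2 := abs_le.1 (hK.vdist hp (hK.seg h0 h1 b.1 b.2.1) (by simp))
  simp only at h2 b0 b1
  rw [abs_le]
  constructor <;> nlinarith only [h2, b, b0, b1, h2.1, h2.2, b.1, b0.2.2.1, b0.2.2.2, b1.2.2.1, b1.2.2.2]
theorem Fam.heightR (hK : Fam f g K) {y0 : ℝ} (h0 : ((1:ℝ), y0) ∈ K) {p : V} (hp : p ∈ K) :
    |p.2 - y0| ≤ f p.1 + (1 - p.1) := by
  obtain ⟨y1, h1⟩ := hK.exL
  have b := hK.box p hp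
  have b0 := hK.box _ h0
  have b1 := hK.box _ h1
  have h2 := abs_le.1 (hK.vdist hp (hK.seg h0 h1 (t := 1 - p.1) (by linarith [b.2.1])
    (by linarith [b.1])) (by simp))
  simp only at h2 b0 b1
  rw [abs_le]
  constructor <;> nlinarith only [h2, b, b0, b1, h2.1, h2.2, b.2.1, b0.2.2.1, b0.2.2.2, b1.2.2.1, b1.2.2.2]
theorem Fam.widthB (hK : Fam f g K) {x0 : ℝ} (h0 : (x0, (0:ℝ)) ∈ K) {p : V} (hp : p ∈ K) :
    |p.1 - x0| ≤ g p.2 + p.2 :=
  hK.swap.heightL (mem_image_of_mem _ h0) (mem_image_of_mem _ hp)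
theorem Fam.widthT (hK : Fam f g K) {x0 : ℝ} (h0 : (x0, (1:ℝ)) ∈ K) {p : V} (hp : p ∈ K) :
    |p.1 - x0| ≤ g p.2 + (1 - p.2) :=
  hK.swap.heightR (mem_image_of_mem _ h0) (mem_image_of_mem _ hp)

private theorem Fam.left_min (hK : Fam f g K) {p : V} (hp : p ∈ K)
    (hp' : (p.1 + g p.2, p.2) ∈ K) {x : ℝ} (hx : (x, p.2) ∈ K) : p.1 ≤ x := by
  have := abs_le.1 (hK.hdist hp' hx rfl)
  have _ := hp
  simp only at this
  linarith [this.2]

private theorem Fam.left_lip' (hK : Fam f g K) {p q : V} (hp : p ∈ K) (hq : q ∈ K)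
    (hp' : (p.1 + g p.2, p.2) ∈ K) (hq' : (q.1 + g q.2, q.2) ∈ K) {a : ℝ} (ha : 0 < a)
    (hpa : p.2 ∈ Icc a (1 - a)) (hqa : q.2 ∈ Icc a (1 - a)) (hpq : p.2 ≤ q.2) :
    a * |p.1 - q.1| ≤ q.2 - p.2 := by
  obtain ⟨xB, hB⟩ := hK.exB
  obtain ⟨xT, hT⟩ := hK.exT
  have bp := hK.box p hp
  have bq := hK.box q hq
  have bB := hK.box _ hB
  have bT := hK.box _ hT
  simp only at bB bT
  have e1 : 0 < 1 - p.2 := by linarith [hpa.2]
  have e2 : 0 < q.2 := by linarith [hqa.1]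
  set s := (q.2 - p.2) / (1 - p.2) with hs
  set t := (q.2 - p.2) / q.2 with ht
  have hs0 : 0 ≤ s := div_nonneg (by linarith) e1.le
  have ht0 : 0 ≤ t := div_nonneg (by linarith) e2.le
  have hs1 : s * (1 - p.2) = q.2 - p.2 := div_mul_cancel₀ _ e1.ne'
  have ht1 : t * q.2 = q.2 - p.2 := div_mul_cancel₀ _ e2.ne'
  have m1 := hK.seg hp hT hs0 ((div_le_one e1).2 (by linarith [bq.2.2.2]))
  have m2 := hK.seg hq hB ht0 ((div_le_one e2).2 (by linarith [bp.2.2.1]))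
  simp only at m1 m2
  rw [show p.2 + s * (1 - p.2) = q.2 by linarith only [hs1]] at m1
  rw [show q.2 + t * (0 - q.2) = p.2 by linarith only [ht1]] at m2
  have l1 := hK.left_min hq hq' m1
  have l2 := hK.left_min hp hp' m2
  have u1 : s * (xT - p.1) ≤ s := by nlinarith only [bp, hs0, bT, bT.2.1, bp.1]
  have u2 : t * (xB - q.1) ≤ t := by nlinarith only [bq, ht0, bB, bB.2.1, bq.1]
  have w1 : a * s ≤ q.2 - p.2 := by nlinarith only [ha, hs1, hpq, e1, hpa.2]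
  have w2 : a * t ≤ q.2 - p.2 := by nlinarith only [ha, ht1, hpq, e2, hqa.1]
  rcases abs_cases (p.1 - q.1) with h | h <;> rw [h.1] <;> nlinarith only [w2, ha, l2, u2, w1, l1, u1]

/-- the left ends of horizontal chords are Lipschitz in the height (convexity with the top and
bottom points of K) -/
theorem Fam.left_lip (hK : Fam f g K) {p q : V} (hp : p ∈ K) (hq : q ∈ K)
    (hp' : (p.1 + g p.2, p.2) ∈ K) (hq' : (q.1 + g q.2, q.2) ∈ K) {a : ℝ} (ha : 0 < a)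
    (hpa : p.2 ∈ Icc a (1 - a)) (hqa : q.2 ∈ Icc a (1 - a)) :
    a * |p.1 - q.1| ≤ |p.2 - q.2| := by
  rcases le_total p.2 q.2 with h | h
  · rw [abs_sub_comm p.2]
    exact (hK.left_lip' hp hq hp' hq' ha hpa hqa h).trans (le_abs_self _)
  · rw [abs_sub_comm p.1]
    exact (hK.left_lip' hq hp hq' hp' ha hqa hpa h).trans (le_abs_self _)
theorem Fam.right_lip (hK : Fam f g K) {p q : V} (hp : p ∈ K) (hq : q ∈ K)
    (hp' : (p.1 - g p.2, p.2) ∈ K) (hq' : (q.1 - g q.2, q.2) ∈ K) {a : ℝ} (ha : 0 < a)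
    (hpa : p.2 ∈ Icc a (1 - a)) (hqa : q.2 ∈ Icc a (1 - a)) :
    a * |p.1 - q.1| ≤ |p.2 - q.2| := by
  have h := hK.neg.left_lip (mem_image_of_mem _ hp) (mem_image_of_mem _ hq)
    ⟨_, hp', by ext <;> simp [negP, negF]; ring⟩ ⟨_, hq', by ext <;> simp [negP, negF]; ring⟩ ha
    ⟨by simp only [negP]; linarith [hpa.2], by simp only [negP]; linarith [hpa.1]⟩
    ⟨by simp only [negP]; linarith [hqa.2], by simp only [negP]; linarith [hqa.1]⟩
  simp only [negP, sub_sub_sub_cancel_left] at h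
  rwa [abs_sub_comm p.1, abs_sub_comm p.2]

end XR
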