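import Pool.Agent.P.MP_408b1f_gt.Pot2
import Pool.Agent.P.MP_408b1f_gt.Sm

/-! Flags.
osc_neg: Zmax and Zmin are the maximum and minimum sets of A = pot P0 on the compact set Zs.
exists_flag: take Q in Zmin and P in the compact set Zmax minimising cap K P Q (continuous since
P differs from Q); if X in Zmax had det3 P Q X > 0 then P, X, Q is clockwise and cap_tri gives
cap K X Q < cap K P Q.
flag_not_side: suppose A, B distinct flags and all of K ∪ L on one side of the line A B. Rename so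
that o * det3 A B X <= 0 for X in K ∪ L. With Q the partner of A: o * det3 A Q B <= 0 and
o * det3 A B Q <= 0 force det3 A B Q = 0, so Q is on the line, K ∪ L is on one side of A Q and
pot A Q = 0, against osc_neg. flag_det_ne follows with collinear_side.
flag_finite: for distinct start flags A, B with partner Q of A one has cap L A B >= cap L A Q >= osc
(B differs from Q, det3 A Q B < 0 by the flag property and non collinearity, cap_tri for L), where
osc = - pot A Q does not depend on the choice. Fix a flag P0: the function cap L P0 is osc separated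
on the other flags (cap_tri, either orientation) and bounded by the volume of L.
sm_flag: sm preserves Zs and the potential (sm_Zs, pot_cocycle) hence Zmax, Zmin; it is an
involution; for X different from p the triples (p, Q, X) and their images are not collinear
(collinear_side, pot_zero_of_side, osc_neg), so sm_rev applies.
flag_pos: if top K = top L on (s, s + h), points X = pt s' (top K s') lie in Zmax (pot_top); choose
s' < lev Q when lev Q > s; concavity gives det3 z Q X >= 0, so it is 0, collinear, pot z Q = 0. -/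

open Set MeasureTheory Filter Topology

noncomputable section

namespace XR

variable {K L : Set V}

theorem osc_neg (h : Pr K L) (ho : Osc K L) {P Q : V} (hP : P ∈ Zmax K L) (hQ : Q ∈ Zmin K L) :
    pot K L P Q < 0 := by
  have key : ∀ X ∈ Zs K L, ∀ Y ∈ Zs K L, pot K L P Q ≤ pot K L X Y := by
    intro X hX Y hY
    have e1 := pot_cocycle h hP.1 hX hQ.1
    have e2 := pot_cocycle h hX hY hQ.1
    have e3 := pot_antisymm h X P
    have e4 := pot_antisymm h Q Y
    have := hP.2 X hX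
    have := hQ.2 Y hY
    linarith
  obtain ⟨X, hX, Y, hY, hne⟩ := ho
  have e := pot_antisymm h X Y
  have := key X hX Y hY
  have := key Y hY X hX
  rcases hne.lt_or_gt with h1 | h1 <;> linarith

theorem flag1_ne (h : Pr K L) (ho : Osc K L) {P Q : V} (hP : P ∈ Zmax K L) (hQ : Q ∈ Zmin K L) :
    P ≠ Q := by
  rintro rfl
  exact (osc_neg h ho hP hQ).ne (pot_self K L P)

theorem flag1_nc (h : Pr K L) (ho : Osc K L) {A B Q : V} (hA : A ∈ Zmax K L) (hQ : Q ∈ Zmin K L)
    (hB : B ∈ Zmax K L) (hAB : A ≠ B) : det3 A Q B ≠ 0 := fun h0 =>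
  (osc_neg h ho hA hQ).ne (pot_zero_of_side h (collinear_side h hA.1 hQ.1 hB.1
    (flag1_ne h ho hA hQ) (flag1_ne h ho hB hQ).symm hAB h0))

theorem flag1_max (h : Pr K L) {P X : V} (hP : P ∈ Zmax K L) (hX : X ∈ Zs K L)
    (h0 : pot K L P X = 0) : X ∈ Zmax K L :=
  ⟨hX, fun Y hY => by
    have := pot_cocycle h hY hP.1 hX
    have := hP.2 Y hY
    linarith⟩

theorem flag1_min (h : Pr K L) {P X : V} (hP : P ∈ Zmin K L) (hX : X ∈ Zs K L)
    (h0 : pot K L P X = 0) : X ∈ Zmin K L :=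
  ⟨hX, fun Y hY => by
    have := pot_cocycle h hP.1 hX hY
    have := hP.2 Y hY
    linarith⟩

theorem exists_flag (h : Pr K L) (ho : Osc K L) : ∃ p, IsFlag 1 K L p := by
  have ho' := ho
  obtain ⟨P0, h0, -⟩ := ho'
  have hc := pot_continuousOn h h0
  obtain ⟨Pm, hPm, hmax⟩ := (isCompact_Zs h).exists_isMaxOn ⟨P0, h0⟩ hc
  obtain ⟨Q, hQ, hmin⟩ := (isCompact_Zs h).exists_isMinOn ⟨P0, h0⟩ hc
  have hQ' : Q ∈ Zmin K L := ⟨hQ, fun Y hY => by
    have := pot_cocycle h h0 hQ hY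
    have : pot K L P0 Q ≤ pot K L P0 Y := hmin hY
    linarith⟩
  have hP' : Pm ∈ Zmax K L := ⟨hPm, fun Y hY => by
    have := pot_cocycle h h0 hY hPm
    have : pot K L P0 Y ≤ pot K L P0 Pm := hmax hY
    linarith⟩
  have hZ : Zmax K L = Zs K L ∩ pot K L P0 ⁻¹' {pot K L P0 Pm} := by
    ext X
    constructor
    · intro hX
      refine ⟨hX.1, ?_⟩
      have := pot_cocycle h h0 hPm hX.1
      have := hX.2 Pm hPm
      have : pot K L P0 X ≤ pot K L P0 Pm := hmax hX.1
      change pot K L P0 X = pot K L P0 Pm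
      linarith
    · rintro ⟨hX, he⟩
      have he : pot K L P0 X = pot K L P0 Pm := he
      have := pot_cocycle h h0 hPm hX
      exact flag1_max h hP' hX (by linarith)
  have hcomp : IsCompact (Zmax K L) := (isCompact_Zs h).of_isClosed_subset
    (hZ ▸ hc.preimage_isClosed_of_isClosed (isCompact_Zs h).isClosed isClosed_singleton)
    fun X hX => hX.1
  have hcc : ContinuousOn (fun P => cap K P Q) (Zmax K L) := fun P hP =>
    (ContinuousAt.comp (f := fun P : V => (P, Q)) (cap_continuousAt h.bK (flag1_ne h ho hP hQ'))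
      (by fun_prop)).continuousWithinAt
  obtain ⟨P, hP, hm⟩ := hcomp.exists_isMinOn ⟨Pm, hP'⟩ hcc
  refine ⟨P, hP, Q, hQ', fun X hX => ?_⟩
  by_contra hc
  have hd : det3 P X Q < 0 := by rw [det3_swap]; linarith
  have e := cap_tri h.bK hP.1.1 hX.1.1 hQ.1 hP.1.2.2.1 hX.1.2.2.1 hQ.2.2.1 hd
  have := triA_pos hd
  have := cap_nonneg K P X
  have : cap K P Q ≤ cap K X Q := hm hX
  linarith

theorem flag1_side (h : Pr K L) (ho : Osc K L) {o : ℝ} (hoo : o = 1 ∨ o = -1) {A B : V}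
    (hA : IsFlag o K L A) (hB : B ∈ Zmax K L) (hAB : A ≠ B)
    (hs : ∀ X ∈ K ∪ L, o * det3 A B X ≤ 0) : False := by
  obtain ⟨hA, Q, hQ, hf⟩ := hA
  have h1 := hf B hB
  have h2 := hs Q (Or.inl hQ.1.1)
  rw [det3_swap] at h2
  refine flag1_nc h ho hA hQ hB hAB ?_
  rcases hoo with rfl | rfl <;> linarith

theorem flag_not_side (h : Pr K L) (ho : Osc K L) {o : ℝ} (hoo : o = 1 ∨ o = -1) {A B : V}
    (hA : IsFlag o K L A) (hB : IsFlag o K L B) (hAB : A ≠ B) :
    ¬ ((∀ X ∈ K ∪ L, det3 A B X ≤ 0) ∨ (∀ X ∈ K ∪ L, 0 ≤ det3 A B X)) := by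
  have h1 := flag1_side h ho hoo hA hB.1 hAB
  have h2 := flag1_side h ho hoo hB hA.1 hAB.symm
  rintro (hs | hs) <;> rcases hoo with rfl | rfl
  · exact h1 fun X hX => by linarith [hs X hX]
  · exact h2 fun X hX => by rw [det3_swap']; linarith [hs X hX]
  · exact h2 fun X hX => by rw [det3_swap']; linarith [hs X hX]
  · exact h1 fun X hX => by linarith [hs X hX]

theorem flag_det_ne (h : Pr K L) (ho : Osc K L) {o : ℝ} (hoo : o = 1 ∨ o = -1) {A B X : V}
    (hA : IsFlag o K L A) (hB : IsFlag o K L B) (hX : X ∈ Zs K L) (hAB : A ≠ B) (hAX : A ≠ X)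
    (hBX : B ≠ X) : det3 A B X ≠ 0 := fun h0 =>
  flag_not_side h ho hoo hA hB hAB (collinear_side h hA.1.1 hB.1.1 hX hAB hBX hAX h0)

theorem flag_finite (h : Pr K L) (ho : Osc K L) : {p | IsFlag 1 K L p}.Finite := by
  obtain ⟨P0, hP0⟩ := exists_flag h ho
  obtain ⟨Q0, hQ0, -⟩ := hP0.2
  have hc : 0 < -pot K L P0 Q0 := by linarith [osc_neg h ho hP0.1 hQ0]
  set c := -pot K L P0 Q0 with hcd
  have h1 : ∀ A B, IsFlag 1 K L A → IsFlag 1 K L B → A ≠ B → c ≤ cap L A B := by
    rintro A B ⟨hA, Q, hQ, hf⟩ hB hAB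
    have hd : det3 A Q B < 0 :=
      lt_of_le_of_ne (by linarith [hf B hB.1]) (flag1_nc h ho hA hQ hB.1 hAB)
    have e := cap_tri h.bL hA.1.2.1 hQ.1.2.1 hB.1.1.2.1 hA.1.2.2.2 hQ.1.2.2.2 hB.1.1.2.2.2 hd
    have := triA_pos hd
    have := cap_nonneg L Q B
    have := cap_nonneg K A Q
    have := pot_cocycle h hP0.1.1 hA.1 hQ0.1
    have := pot_cocycle h hA.1 hQ.1 hQ0.1
    have := hA.2 P0 hP0.1.1
    have := hQ.2 Q0 hQ0.1
    have := hP0.1.2 A hA.1
    have := hQ0.2 Q hQ.1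
    have := pot_antisymm h A P0
    have := pot_antisymm h Q0 Q
    have : pot K L A Q = cap K A Q - cap L A Q := rfl
    linarith
  have h2 : ∀ A B, IsFlag 1 K L A → IsFlag 1 K L B → A ≠ B → det3 P0 A B < 0 →
      ⌊cap L P0 A / c⌋₊ ≠ ⌊cap L P0 B / c⌋₊ := by
    intro A B hA hB hAB hd
    have e := cap_tri h.bL hP0.1.1.2.1 hA.1.1.2.1 hB.1.1.2.1 hP0.1.1.2.2.2 hA.1.1.2.2.2
      hB.1.1.2.2.2 hd
    have := triA_pos hd
    have := h1 A B hA hB hAB
    have h3 : cap L P0 A / c + 1 ≤ cap L P0 B / c := by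
      rw [div_add_one hc.ne']
      exact div_le_div_of_nonneg_right (by linarith) hc.le
    have := Nat.floor_mono h3
    rw [Nat.floor_add_one (div_nonneg (cap_nonneg _ _ _) hc.le)] at this
    omega
  refine ((Set.Finite.of_injOn (f := fun A => ⌊cap L P0 A / c⌋₊)
    (s := {p | IsFlag 1 K L p} \ {P0}) (t := Iic ⌊(volume L).toReal / c⌋₊) ?_ ?_
    (finite_Iic _)).insert P0).subset fun p hp => ?_
  · rintro A ⟨-, hA⟩
    have := cap_add_cap h.bL (Ne.symm hA)
    have := cap_nonneg L A P0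
    exact Nat.floor_mono (div_le_div_of_nonneg_right (by linarith) hc.le)
  · rintro A ⟨hA, hA0⟩ B ⟨hB, hB0⟩ he
    by_contra hAB
    rcases (flag_det_ne h ho (Or.inl rfl) hP0 hA hB.1.1 (Ne.symm hA0) (Ne.symm hB0)
      hAB).lt_or_gt with hd | hd
    · exact h2 A B hA hB hAB hd he
    · exact h2 B A hB hA (Ne.symm hAB) (by rw [det3_swap]; linarith) he.symm
  · by_cases e : p = P0
    · exact Or.inl e
    · exact Or.inr ⟨hp, e⟩

theorem sm_flag (h : Pr K L) (ho : Osc K L) {d : V} (hd : d ≠ 0) (hX : SameX d K L) {o : ℝ}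
    (hoo : o = 1 ∨ o = -1) {p : V} (hp : IsFlag o K L p) :
    IsFlag (-o) K L (sm (K ∩ L) d p) := by
  obtain ⟨hp, Q, hQ, hf⟩ := hp
  have m1 : ∀ z ∈ Zmax K L, sm (K ∩ L) d z ∈ Zmax K L := fun z hz =>
    flag1_max h hz (sm_Zs h hd hX hz.1).1 (sm_Zs h hd hX hz.1).2
  have hQ' := flag1_min h hQ (sm_Zs h hd hX hQ.1).1 (sm_Zs h hd hX hQ.1).2
  refine ⟨m1 p hp, _, hQ', fun X hX' => ?_⟩
  have hY := m1 X hX'
  have e := sm_sm h.body hd (Zs.mem_inter hX'.1).1
  by_cases hpX : sm (K ∩ L) d p = X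
  · rw [hpX]; simp [det3, det]
  have hpY : p ≠ sm (K ∩ L) d X := fun e' => hpX (by rw [e', e])
  have n1 := flag1_nc h ho hp hQ hY hpY
  have n2 := flag1_nc h ho (m1 p hp) hQ' hX' hpX
  have h1 := hf _ hY
  have ip := Zs.mem_inter hp.1
  have iq := Zs.mem_inter hQ.1
  have iy := Zs.mem_inter hY.1
  rcases hoo with rfl | rfl
  · have := sm_rev h.body hd ip.1 iq.1 iy.1 ip.2 iq.2 iy.2 (lt_of_le_of_ne (by linarith) n1)
      (by rwa [e])
    rw [e] at this
    linarith
  · have := sm_rev h.body hd ip.1 iy.1 iq.1 ip.2 iy.2 iq.2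
      (by rw [det3_swap]; exact neg_neg_of_pos (lt_of_le_of_ne (by linarith) n1.symm))
      (by rw [e, det3_swap]; exact neg_ne_zero.2 n2)
    rw [e, det3_swap] at this
    linarith

theorem flag_pos (F : Frame) (hF : F.o = 1) (h : Pr K L) (ho : Osc K L) {s : ℝ}
    (hK : s ∈ Ioo (F.lo K) (F.hi K)) (hL : s ∈ Ioo (F.lo L) (F.hi L))
    (he : F.top K s = F.top L s) (hz : IsFlag 1 K L (F.pt s (F.top K s))) {r : ℝ} (hr : 0 < r) :
    ∃ s' ∈ Ioo s (s + r), F.top K s' ≠ F.top L s' := by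
  by_contra hc
  push Not at hc
  obtain ⟨hz, Q, hQ, hf⟩ := hz
  obtain ⟨s', h1, h2, h3, h4, h5⟩ : ∃ s', s < s' ∧ s' < s + r ∧ s' < F.hi K ∧ s' < F.hi L ∧
      (s < F.lev Q → s' < F.lev Q) := by
    by_cases hq : s < F.lev Q
    · obtain ⟨s', a, b⟩ := exists_between
        (lt_min (lt_min (lt_add_of_pos_right s hr) hK.2) (lt_min hL.2 hq))
      simp only [lt_min_iff] at b
      exact ⟨s', a, b.1.1, b.1.2, b.2.1, fun _ => b.2.2⟩
    · obtain ⟨s', a, b⟩ := exists_between (lt_min (lt_min (lt_add_of_pos_right s hr) hK.2) hL.2)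
      simp only [lt_min_iff] at b
      exact ⟨s', a, b.1.1, b.1.2, b.2, fun e => (hq e).elim⟩
  have sK := Ioo_subset_Icc_self hK
  have sL := Ioo_subset_Icc_self hL
  have tK : s' ∈ Icc (F.lo K) (F.hi K) := ⟨by linarith [hK.1], h3.le⟩
  have tL : s' ∈ Icc (F.lo L) (F.hi L) := ⟨by linarith [hL.1], h4.le⟩
  have e' := hc s' ⟨h1, h2⟩
  have hX : F.pt s' (F.top K s') ∈ Zs K L := by
    refine ⟨(F.pt_mem_iff h.bK tK _).2 ⟨F.bot_le_top h.bK tK, le_rfl⟩,
      (F.pt_mem_iff h.bL tL _).2 ⟨(F.bot_le_top h.bL tL).trans e'.ge, e'.le⟩, fun hi => ?_, fun hi => ?_⟩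
    · simpa using ((F.mem_interior_iff h.bK _).1 hi).2.2
    · simpa [e'] using ((F.mem_interior_iff h.bL _).1 hi).2.2
  have hp : pot K L (F.pt s (F.top K s)) (F.pt s' (F.top K s')) = 0 := by
    rw [pot_top F hF h.bK h.bL h1 sK tK sL tL he e',
      intervalIntegral.integral_congr (g := fun _ => 0), intervalIntegral.integral_zero]
    intro t ht
    rw [uIcc_of_le h1.le] at ht
    rcases ht.1.eq_or_lt with rfl | ht'
    · exact sub_eq_zero.2 he
    · exact sub_eq_zero.2 (hc t ⟨ht', by linarith [ht.2]⟩)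
  have hXm := flag1_max h hz hX hp
  have hn := flag1_nc h ho hz hQ hXm fun e => h1.ne (by simpa using congrArg F.lev e)
  have hle := hf _ hXm
  refine hn (le_antisymm (by linarith) ?_)
  obtain ⟨q1, -, q2⟩ := (F.mem_iff h.bK Q).1 hQ.1.1
  have hcv := (F.concaveOn_top h.bK).neg
  rw [det3, F.det_eq, hF]
  simp only [F.lev_sub, F.hgt_sub, F.lev_pt, F.hgt_pt]
  have q3 := mul_le_mul_of_nonneg_right q2 (sub_pos.2 h1).le
  rcases lt_trichotomy s (F.lev Q) with hq | hq | hq
  · have := hcv.secant_mono_aux1 sK q1 h1 (h5 hq)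
    simp only [Pi.neg_apply] at this
    linarith
  · rw [← hq] at q3 ⊢
    linarith
  · have := hcv.secant_mono_aux1 q1 tK hq h1
    simp only [Pi.neg_apply] at this
    linarith

end XR
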