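import Pool.Agent.P.MP_408b1f_gt.Geo3

/-! Consequences of the lockstep lemma.
exists_ctx0: choose sigma0 with Half.small, Half.lower.
fq: for x <= s (s <= sigma0 and supergradients >= 0 there by steep0) take eps small and a system
with margins; exists_window gives i with t1 = 1 and x i in [x - 3 eps, x - 2 eps]; then
x (R i) <= x, f (x (R i)) - f (x i) <= 2 eps / sigma0 (ls, G1.ydiff), x (R i) - x i = eps h3 with
h3 >= f (x i) / 2, and by concavity m <= the chord slope <= 4 / (sigma0 f (x i)), with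
f (x i) >= f x / 2. Right end by neg.
n5: first |yL - yR| >= 2 rho eta (the chord at height yL starts at 0 and has length <= 1 - 2 rho;
use the segment from (1, yR) to the top or bottom point). Let varsigma be the sign of yL - yR and
c0 = eta f0 / 4. Choose s1 <= sigma0 with f x + x <= min (rho eta) (c0 rho / 4) on [0, 2 s1]. Take i
with t1 = varsigma, x i in [s1, s1 + eps]. Using ls and sandO (varsigma = 1) or sandOL and ls at
R.symm i (varsigma = -1): - varsigma kO i >= c0 / h >= 2 / rho, as the oblique height is at most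
twice the height range. G2.m2_eq with t2 = -1: m2 = u.1 / u.2 (T i) - 1 / kO i, and the support
inequality at P (T i) for (1, yR) gives varsigma u.1 / u.2 <= - rho. So varsigma m2 < 0, hence
varsigma (yO i - ys) >= 0 (SG and maximality), while the support inequality at O i for (0, yL) gives
varsigma (yL - yO i) >= |kO| x i >= s1. The right inequality by neg (same varsigma). -/

open Set MeasureTheory Filter Topology

noncomputable section

namespace XR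

variable {f g : ℝ → ℝ}

theorem exists_ctx0 (hf : Half f) (hg : Half g) {ρ η : ℝ} (hρ : 0 < ρ) (hη : 0 < η)
    (hle : ∀ y ∈ Icc (0:ℝ) 1, g y ≤ 1 - 2 * ρ) : ∃ c : Ctx0 f g, c.ρ = ρ ∧ c.η = η := by
  obtain ⟨s, hs, Hs⟩ := hf.small (δ := η / 8) (by positivity)
  obtain ⟨φ, hφ, Hφ⟩ := hg.lower (s := η / 2) (by positivity)
  have hρ' : ρ ≤ 1 / 2 := by
    have := hle 0 ⟨le_rfl, zero_le_one⟩
    rw [hg.zero0] at this
    linarith
  obtain ⟨σ, hσ, h1, h2, h3, h4⟩ : ∃ σ > (0:ℝ), σ ≤ ρ / 4 ∧ σ ≤ s / 2 ∧ σ ≤ η / 16 ∧ σ ≤ φ / 4 :=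
    ⟨min (min (ρ / 4) (s / 2)) (min (η / 16) (φ / 4)), by positivity,
      (min_le_left _ _).trans (min_le_left _ _), (min_le_left _ _).trans (min_le_right _ _),
      (min_le_right _ _).trans (min_le_left _ _), (min_le_right _ _).trans (min_le_right _ _)⟩
  obtain ⟨f0, hf0, Hf0⟩ := hf.lower (s := σ / 2) (by positivity)
  refine ⟨⟨hf, hg, ρ, η, σ, f0, hρ, hη, hσ, hf0, hle, by linarith, fun x hx => ?_, fun x hx => ?_,
    fun y hy => by linarith [Hφ y hy], Hf0⟩, rfl, rfl⟩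
  · have := Hs x ⟨hx.1, by linarith [hx.2]⟩ (Or.inl (by linarith [hx.2]))
    linarith [hx.2]
  · have := Hs x ⟨by linarith [hx.1], hx.2⟩ (Or.inr (by linarith [hx.1]))
    linarith [hx.1]

theorem fqn5_div {ε s φ : ℝ} (h : Sm f ε s φ) : 0 < s ∧ 2 * ε / s ≤ φ / 2 := by
  have h0 : 0 < s := by linarith [h.εpos, h.le16]
  refine ⟨h0, ?_⟩
  rw [div_le_iff₀ h0]
  linarith [h.leφ]

theorem fqn5_left (c : Ctx0 f g)
    (hex : ∀ᶠ ε in 𝓝[>] (0:ℝ), ∃ (I : Type) (S : Sys f g ε I) (yL yR : ℝ), Mg0 c.η S yL yR) :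
    ∃ s > (0:ℝ), ∀ x ∈ Ioo (0:ℝ) 1, x ≤ s → ∀ m, SG f x m → f x * |m| ≤ 8 / c.σ0 := by
  obtain ⟨s, hs, Hs⟩ := c.hf.steep0 0
  have hσ := c.σ0pos
  have hσ' := c.σ0_le
  refine ⟨min s c.σ0, lt_min hs hσ, fun x hx hxs m hm => ?_⟩
  have hx1 : x ≤ c.σ0 := hxs.trans (min_le_right _ _)
  have hm0 : 0 ≤ m := Hs x ⟨hx.1, hxs.trans (min_le_left _ _)⟩ hx.2 m hm
  obtain ⟨φ, hφ⟩ := c.hf.ev_sm (s := x / 2) (by linarith [hx.1]) (by linarith)
  obtain ⟨ε, ⟨I, S, yL, yR, hmg⟩, hsm, hsc⟩ := (hex.and (hφ.and c.ev_small)).exists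
  have hε := hsm.εpos
  have h16 := hsm.le16
  obtain ⟨i, ht, hi⟩ := S.exists_window hsm (Or.inl rfl) (x0 := x - 3 * ε) (by linarith)
    (by linarith)
  have hB : S.InB (x / 2) i := ⟨by linarith [hi.1], by linarith [hi.2]⟩
  have st := S.step hε (by linarith) hB
  have hxR := st.xR
  rw [ht, one_mul] at hxR
  have h3 : ε * S.h3 i ≤ ε := mul_le_of_le_one_right hε.le st.h3le
  have h3' : 0 < ε * S.h3 i := mul_pos hε st.h3pos
  obtain ⟨-, l1, -, l2⟩ := ls hsc hmg (i := i) (by linarith [hi.2]) (by linarith [hi.2])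
  have d1 := st.g1.ydiff
  have d2 := st.g1R.ydiff
  rw [st.tR] at d2
  rw [ht, one_mul] at d1 d2
  have hb : S.x (S.R i) ∈ Ioo (0:ℝ) 1 := ⟨by linarith [hi.1], by linarith [hi.2]⟩
  have ha : S.x i ∈ Ioo (0:ℝ) 1 := ⟨by linarith [hi.1], by linarith [hi.2]⟩
  obtain ⟨m', hm'⟩ := sg_exists c.hf.conc hb
  obtain ⟨m'', hm''⟩ := sg_exists c.hf.conc ha
  have k1 : m ≤ m' := sg_anti (Ioo_subset_Icc_self hb) (Ioo_subset_Icc_self hx)
    (by linarith [hi.2]) hm' hm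
  have k2 := hm' _ (Ioo_subset_Icc_self ha)
  have k3 : ε * (m * S.h3 i) ≤ ε * (2 / c.σ0) := by
    have e1 : ε * (2 / c.σ0) = 2 * (ε / c.σ0) := by ring
    have e2 : S.x i - S.x (S.R i) = -(ε * S.h3 i) := by linarith
    rw [e2] at k2
    have e3 := mul_le_mul_of_nonneg_right k1 h3'.le
    nlinarith
  have k4 : m * S.h3 i ≤ 2 / c.σ0 := le_of_mul_le_mul_left k3 hε
  have k5 : f (S.x i) ≤ 2 * S.h3 i := by
    have := (abs_le.1 st.hR).1
    linarith [(fqn5_div hsm).2, hsm.low _ hB]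
  have k6 : f x ≤ 2 * f (S.x i) := by
    have a1 := hm'' x (Ioo_subset_Icc_self hx)
    have a2 := hm'' 0 ⟨le_rfl, zero_le_one⟩
    rw [c.hf.zero0] at a2
    have a3 := c.hf.pos _ ha
    rcases le_total 0 m'' with h | h
    · have := mul_le_mul_of_nonneg_left (show x - S.x i ≤ S.x i by linarith [hB.1]) h
      linarith
    · have := mul_nonpos_of_nonpos_of_nonneg h (show 0 ≤ x - S.x i by linarith [hi.2])
      linarith
  rw [abs_of_nonneg hm0]
  have k7 := mul_le_mul_of_nonneg_right (show f x ≤ 4 * S.h3 i by linarith) hm0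
  have e : 8 / c.σ0 = 4 * (2 / c.σ0) := by ring
  linarith

theorem fq (c : Ctx0 f g)
    (hex : ∀ᶠ ε in 𝓝[>] (0:ℝ), ∃ (I : Type) (S : Sys f g ε I) (yL yR : ℝ), Mg0 c.η S yL yR) :
    ∃ C : ℝ, ∃ s > (0:ℝ), ∀ x ∈ Ioo (0:ℝ) 1, (x ≤ s ∨ 1 - s ≤ x) → ∀ m, SG f x m →
      f x * |m| ≤ C := by
  obtain ⟨s, hs, Hs⟩ := fqn5_left c hex
  obtain ⟨s', hs', Hs'⟩ := fqn5_left c.neg
    (hex.mono fun ε ⟨I, S, yL, yR, h⟩ => ⟨I, S.neg, _, _, h.neg⟩)
  refine ⟨8 / c.σ0, min s s', lt_min hs hs', fun x hx h m hm => ?_⟩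
  rcases h with h | h
  · exact Hs x hx (h.trans (min_le_left _ _)) m hm
  · have := Hs' (1 - x) ⟨by linarith [hx.2], by linarith [hx.1]⟩
      (by linarith [min_le_right s s']) _ hm.neg
    rwa [negF, sub_sub_cancel, abs_neg] at this

theorem fqn5_chord {K : Set V} (hK : Fam f g K) {ρ yL yR t : ℝ}
    (hle : ∀ y ∈ Icc (0:ℝ) 1, g y ≤ 1 - 2 * ρ) (hL : ((0:ℝ), yL) ∈ K) (hR : ((1:ℝ), yR) ∈ K)
    {z : V} (hz : z ∈ K) (h0 : 0 ≤ t) (h1 : t ≤ 1) (he : (1 - t) * yR + t * z.2 = yL) :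
    2 * ρ ≤ t := by
  have hm := hK.body.conv hR hz (sub_nonneg.2 h1) h0 (sub_add_cancel 1 t)
  have hd := hK.hdist hm hL he
  have hb := hK.box _ hm
  have hz0 := mul_nonneg h0 (hK.box z hz).1
  have := (abs_le.1 (hd.trans (hle _ hb.2.2))).2
  simp only [Prod.fst_add, Prod.smul_fst, smul_eq_mul] at this
  linarith

theorem fqn5_sep (c : Ctx0 f g) {ε : ℝ} {I : Type} {S : Sys f g ε I} {yL yR : ℝ}
    (hm : Mg0 c.η S yL yR) : ∃ ς : ℝ, (ς = 1 ∨ ς = -1) ∧ 2 * c.ρ * c.η ≤ ς * (yL - yR) := by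
  have hη := c.ηpos
  have hρ := c.ρpos
  obtain ⟨a1, a2⟩ := hm.hL
  obtain ⟨b1, b2⟩ := hm.hR
  rcases le_total yR yL with h | h
  · obtain ⟨x, hx⟩ := S.hK.exT
    have hp : 0 < 1 - yR := by linarith
    have := fqn5_chord S.hK c.gle hm.memL hm.memR hx (t := (yL - yR) / (1 - yR))
      (div_nonneg (by linarith) hp.le) ((div_le_one hp).2 (by linarith)) (by field_simp; ring)
    rw [le_div_iff₀ hp] at this
    refine ⟨1, Or.inl rfl, ?_⟩
    nlinarith
  · obtain ⟨x, hx⟩ := S.hK.exB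
    have hp : 0 < yR := by linarith
    have := fqn5_chord S.hK c.gle hm.memL hm.memR hx (t := (yR - yL) / yR)
      (div_nonneg (by linarith) hp.le) ((div_le_one hp).2 (by linarith)) (by field_simp; ring)
    rw [le_div_iff₀ hp] at this
    refine ⟨-1, Or.inr rfl, ?_⟩
    nlinarith

theorem fqn5_k {k h c0 ρ : ℝ} (hc : 0 < c0) (hh : 0 < h) (h1 : c0 ≤ k * h)
    (h2 : h ≤ c0 * ρ / 2) : 0 < k ∧ 2 ≤ k * ρ := by
  have hk : 0 < k := (pos_iff_pos_of_mul_pos (hc.trans_le h1)).2 hh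
  refine ⟨hk, le_of_mul_le_mul_left ?_ hc⟩
  nlinarith [mul_le_mul_of_nonneg_left h2 hk.le]

theorem fqn5_slope {c : Ctx0 f g} {ε : ℝ} {I : Type} {S : Sys f g ε I} {yL yR s φ : ℝ}
    (hsc : c.Small ε) (hsm : Sm f ε s φ) (hm : Mg0 c.η S yL yR) {i : I} (hB : S.InB s i)
    (hi : S.x i + ε ≤ 2 * c.σ0) (hf : f (S.x i) ≤ c.η * c.f0 / 4 * c.ρ / 4) :
    0 < -S.t1 i * S.kO i ∧ 2 ≤ -S.t1 i * S.kO i * c.ρ := by
  have hε := hsm.εpos
  have st := S.step hε (by linarith [hsm.le16]) hB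
  have hc : 0 < c.η * c.f0 / 4 := by have := c.ηpos; have := c.f0pos; positivity
  have hd := (fqn5_div hsm).2
  have hφ := hsm.low _ hB
  have hφ0 := hsm.φpos
  rcases st.g1.1.ht with ht | ht
  · obtain ⟨r, e, hr, -⟩ := st.sandO
    have hx := st.xR
    rw [ht, one_mul] at hx
    have h3 : ε * S.h3 i ≤ ε := mul_le_of_le_one_right hε.le st.h3le
    obtain ⟨-, -, l, -⟩ := ls hsc hm (i := i) (by linarith) (by linarith)
    have e' : S.x (S.R i) - S.x i = ε * S.h3 i := by linarith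
    rw [e'] at e
    refine fqn5_k hc st.h3pos (le_of_mul_le_mul_left ?_ hε) (by linarith [(abs_le.1 st.hR).2])
    have := mul_le_mul_of_nonneg_right hr (mul_pos hε st.h3pos).le
    rw [ht]
    linarith
  · obtain ⟨r, e, -, hr, -⟩ := st.sandOL
    have hx := st.xL
    rw [ht] at hx
    have h3 : ε * S.h i ≤ ε := mul_le_of_le_one_right hε.le st.hle
    obtain ⟨-, -, l, -⟩ := ls hsc hm (i := S.R.symm i) (by linarith)
      (by rw [Equiv.apply_symm_apply]; linarith)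
    rw [Equiv.apply_symm_apply] at l
    have e' : S.x i - S.x (S.R.symm i) = -(ε * S.h i) := by linarith
    rw [e'] at e
    refine fqn5_k hc st.hpos (le_of_mul_le_mul_left ?_ hε) (by linarith [(abs_le.1 st.hL).2])
    have := mul_le_mul_of_nonneg_right hr (mul_pos hε st.hpos).le
    rw [ht]
    linarith

theorem fqn5_sign {ς ρ k q m D E : ℝ} (hς : ς = 1 ∨ ς = -1) (hρ : 0 < ρ) (hk : 0 < -ς * k)
    (hk' : 2 ≤ -ς * k * ρ) (hm : k⁻¹ - q = -1 * m) (hq : ρ ≤ q * D) (hD : ς * D < 0)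
    (hD' : -1 ≤ ς * D) (hE : 0 ≤ m * E) : ς * E ≤ 0 := by
  have key : ∀ k q D : ℝ, 0 < k → 2 ≤ k * ρ → ρ ≤ q * D → 0 < D → D ≤ 1 → k⁻¹ < q :=
    fun k q D a1 a2 a3 a4 a5 => by
      have b1 : 0 < q := (pos_iff_pos_of_mul_pos (hρ.trans_le a3)).2 a4
      have b2 : ρ ≤ q := a3.trans (mul_le_of_le_one_right b1.le a5)
      rw [inv_lt_iff_one_lt_mul₀' a1]
      nlinarith [mul_le_mul_of_nonneg_left b2 a1.le]
  rcases hς with rfl | rfl
  · have := key (-k) (-q) (-D) (by linarith) (by linarith) (by linarith) (by linarith)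
      (by linarith)
    rw [inv_neg] at this
    have hm0 : m < 0 := by linarith
    have := nonpos_of_mul_nonneg_right hE hm0
    linarith
  · have := key k q D (by linarith) (by linarith) hq (by linarith) (by linarith)
    have hm0 : 0 < m := by linarith
    have := nonneg_of_mul_nonneg_right hE hm0
    linarith

theorem fqn5_n5L (c : Ctx0 f g) {ys : ℝ} (hI : ys ∈ Icc (0:ℝ) 1)
    (hmax : IsMaxOn g (Icc 0 1) ys) : ∃ s > (0:ℝ), EvG0 c fun _ _ _ yL yR =>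
      ∀ ς : ℝ, (ς = 1 ∨ ς = -1) → 2 * c.ρ * c.η ≤ ς * (yL - yR) → s ≤ ς * (yL - ys) := by
  have hη := c.ηpos
  have hρ := c.ρpos
  have hf0 := c.f0pos
  have hσ := c.σ0pos
  have hσ' := c.σ0_le
  have hσρ := c.σ0ρ
  have hρ' : c.ρ ≤ 1 / 2 := by
    have := c.gle 0 ⟨le_rfl, zero_le_one⟩
    rw [c.hg.zero0] at this
    linarith
  obtain ⟨δ, hδ, d1, d2⟩ : ∃ δ > (0:ℝ), δ ≤ c.ρ * c.η / 2 ∧ δ ≤ c.η * c.f0 / 4 * c.ρ / 4 :=
    ⟨min _ _, by positivity, min_le_left _ _, min_le_right _ _⟩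
  obtain ⟨s', hs', Hs⟩ := c.hf.small hδ
  obtain ⟨s, hs, s1, s2, s3⟩ : ∃ s > (0:ℝ), s ≤ c.σ0 ∧ s ≤ s' / 2 ∧ s ≤ δ / 2 :=
    ⟨min c.σ0 (min (s' / 2) (δ / 2)), by positivity, min_le_left _ _,
      (min_le_right _ _).trans (min_le_left _ _), (min_le_right _ _).trans (min_le_right _ _)⟩
  obtain ⟨φ, hφ⟩ := c.hf.ev_sm hs (by linarith)
  refine ⟨s, hs, ?_⟩
  filter_upwards [hφ, c.ev_small] with ε hsm hsc I S yL yR hm ς hς hsep
  have hε := hsm.εpos
  have h16 := hsm.le16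
  obtain ⟨i, ht, hi1, hi2⟩ := S.exists_window hsm hς le_rfl (by linarith)
  have hB : S.InB s i := ⟨hi1, by linarith⟩
  have hfx : f (S.x i) ≤ δ := Hs _ (S.x_mem i) (Or.inl (by linarith))
  obtain ⟨k1, k2⟩ := fqn5_slope hsc hsm hm hB (by linarith) (hfx.trans d2)
  have g1 := (S.step hε (by linarith) hB).g1
  obtain ⟨-, -, g2, -, ht2, -⟩ := nearL hsc hm (i := i) (by linarith)
  rw [ht] at k1 k2
  have hO : |S.yO i - yL| ≤ f (S.x i) + S.x i := by
    have := S.hK.heightL hm.memL (S.memO i).1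
    rwa [S.xO] at this
  obtain ⟨o1, o2⟩ := abs_le.1 hO
  have hρη := mul_pos hρ hη
  have hu2 : (S.u (S.T i)).2 < 0 := by
    have := g2.1.hu
    rw [ht2] at this
    linarith
  have hq : c.ρ ≤ (S.u (S.T i)).1 / (S.u (S.T i)).2 * (yR - S.yO i) := by
    have a1 := (S.tanPK (S.T i)).supp _ hm.memR
    have a2 := g2.x_eq
    have a3 := c.gle _ (S.yO_mem i)
    have a4 : (S.P (S.T i)).2 = S.yO i := S.yP_T i
    have a5 : (S.P (S.T i)).1 = S.x (S.T i) := rfl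
    rw [ht2] at a2
    simp only [det, Prod.fst_sub, Prod.snd_sub, a4, a5] at a1
    rw [div_mul_eq_mul_div, le_div_iff_of_neg hu2]
    have a6 := mul_le_mul_of_nonpos_left (show c.ρ ≤ 1 - S.x (S.T i) by linarith) hu2.le
    linarith
  have hm2 : (S.kO i)⁻¹ - (S.u (S.T i)).1 / (S.u (S.T i)).2 = -1 * S.m2 i := by
    rw [Sys.kO, inv_div, g2.m2_eq, ht2]
  have hE : 0 ≤ S.m2 i * (ys - S.yO i) := by
    have a1 : g ys ≤ g (S.yO i) + S.m2 i * (ys - S.yO i) := g2.2 ys hI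
    have a2 : g (S.yO i) ≤ g ys := hmax (S.yO_mem i)
    linarith
  obtain ⟨y0, y1⟩ := S.yO_mem i
  obtain ⟨r0, r1⟩ := hm.hR
  have z1 := fqn5_sign hς hρ k1 k2 hm2 hq (by rcases hς with rfl | rfl <;> linarith)
    (by rcases hς with rfl | rfl <;> linarith) hE
  have hu1 : 0 < ς * (S.u' i).1 := ht ▸ g1.1.hu'
  have hne : (S.u' i).1 ≠ 0 := fun h => by simp [h] at hu1
  have z2 : 0 ≤ ς * (S.u' i).1 * (ς * (yL - S.yO i + S.kO i * S.x i)) := by
    have a1 := (S.tanOK i).supp _ hm.memL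
    have a2 : (S.O i).2 = S.yO i := rfl
    simp only [det, Prod.fst_sub, Prod.snd_sub, S.xO, a2] at a1
    have a3 : (S.u' i).1 * S.kO i = (S.u' i).2 := mul_div_cancel₀ _ hne
    rw [← a3] at a1
    rcases hς with rfl | rfl <;> linarith
  have z3 := nonneg_of_mul_nonneg_right z2 hu1
  have z4 : 1 ≤ -ς * S.kO i := by nlinarith [mul_le_mul_of_nonneg_left hρ' k1.le]
  have z5 := mul_le_mul_of_nonneg_right z4 (hs.le.trans hi1)
  linarith

theorem n5 (c : Ctx0 f g) {ys : ℝ} (hI : ys ∈ Icc (0:ℝ) 1) (hmax : IsMaxOn g (Icc 0 1) ys) :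
    ∃ η1 > (0:ℝ), η1 ≤ c.η ∧ EvG0 c fun _ _ S yL yR => ∃ ς, Mg η1 ys S yL yR ς := by
  obtain ⟨s, hs, Hs⟩ := fqn5_n5L c hI hmax
  obtain ⟨s', hs', Hs'⟩ := fqn5_n5L c.neg (ys := 1 - ys) (sga_mem hI) fun y hy => by
    have := hmax (sga_mem hy)
    simpa only [negF, sub_sub_cancel, mem_ofPred_eq] using this
  have h1 := min_le_left c.η (min s s')
  have h2 := (min_le_right c.η (min s s')).trans (min_le_left _ _)
  have h3 := (min_le_right c.η (min s s')).trans (min_le_right _ _)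
  refine ⟨min c.η (min s s'), lt_min c.ηpos (lt_min hs hs'), h1, ?_⟩
  filter_upwards [Hs, Hs'.of_neg] with ε a b I S yL yR hm
  obtain ⟨ς, hς, hsep⟩ := fqn5_sep c hm
  have a' := a I S yL yR hm ς hς hsep
  have b' := b I S yL yR hm ς hς (by
    show 2 * c.ρ * c.η ≤ _
    linarith)
  exact ⟨ς, ⟨hm.memL, hm.memR, ⟨by linarith [hm.hL.1], by linarith [hm.hL.2]⟩,
    ⟨by linarith [hm.hR.1], by linarith [hm.hR.2]⟩⟩, hς, by linarith, by linarith⟩

end XR
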