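import Pool.Agent.P.MP_408b1f_gt.FrAlg

/-! Boundary functions of a body in a frame. Standard convex analysis: the chord
set {t | pt s t ∈ K} is compact convex; top is concave, bot convex (use F.flip or F.neg to halve
the work: flip_top, flip_bot, flip_lo, flip_hi); top is upper semicontinuous by compactness and
lower semicontinuous at every point of Icc lo hi by concavity (segments to points of K on both
sides). Interior points: a point strictly between bot and top at an inner level is a positive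
combination of points of K around it (or use an interior point and Convex.combo_interior lemmas). -/

open Set MeasureTheory Filter Topology

noncomputable section

namespace XR

theorem frA_lower {f : ℝ → ℝ} {a b x : ℝ} (hf : ConcaveOn ℝ (Icc a b) f) (hx : x ∈ Icc a b) :
    ∃ C : ℝ, ∀ y ∈ Icc a b, f x - C * |y - x| ≤ f y := by
  have hab : a ≤ b := hx.1.trans hx.2
  have h1 : 0 ≤ |f x - f b| / (b - x) := div_nonneg (abs_nonneg _) (sub_nonneg.2 hx.2)
  have h2 : 0 ≤ |f x - f a| / (x - a) := div_nonneg (abs_nonneg _) (sub_nonneg.2 hx.1)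
  refine ⟨|f x - f b| / (b - x) + |f x - f a| / (x - a), fun y hy => ?_⟩
  rcases lt_trichotomy x y with h | rfl | h
  · have hb : 0 < b - x := by linarith [hy.2]
    have hc : 0 ≤ (y - x) / (b - x) := div_nonneg (by linarith) hb.le
    have := hf.2 hx (right_mem_Icc.2 hab)
      (show 0 ≤ 1 - (y - x) / (b - x) by rw [sub_nonneg, div_le_one hb]; linarith [hy.2]) hc (by ring)
    simp only [smul_eq_mul] at this
    rw [show (1 - (y - x) / (b - x)) * x + (y - x) / (b - x) * b = y by field_simp; ring] at this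
    have h3 := mul_le_mul_of_nonneg_left (le_abs_self (f x - f b)) hc
    have h4 : (y - x) / (b - x) * |f x - f b| = |f x - f b| / (b - x) * (y - x) := by ring
    have h5 := mul_nonneg h2 (sub_nonneg.2 h.le)
    rw [abs_of_pos (sub_pos.2 h)]
    nlinarith
  · simp
  · have hb : 0 < x - a := by linarith [hy.1]
    have hc : 0 ≤ (x - y) / (x - a) := div_nonneg (by linarith) hb.le
    have := hf.2 hx (left_mem_Icc.2 hab)
      (show 0 ≤ 1 - (x - y) / (x - a) by rw [sub_nonneg, div_le_one hb]; linarith [hy.1]) hc (by ring)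
    simp only [smul_eq_mul] at this
    rw [show (1 - (x - y) / (x - a)) * x + (x - y) / (x - a) * a = y by field_simp; ring] at this
    have h3 := mul_le_mul_of_nonneg_left (le_abs_self (f x - f a)) hc
    have h4 : (x - y) / (x - a) * |f x - f a| = |f x - f a| / (x - a) * (x - y) := by ring
    have h5 := mul_nonneg h1 (sub_nonneg.2 h.le)
    rw [abs_of_neg (sub_neg.2 h)]
    nlinarith

theorem frA_move {K : Set V} {p : V} (hp : p ∈ interior K) (v : V) :
    ∃ c : ℝ, 0 < c ∧ p + c • v ∈ K := by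
  have h : Tendsto (fun c : ℝ => p + c • v) (𝓝[>] 0) (𝓝 p) := by
    have : Continuous fun c : ℝ => p + c • v := by fun_prop
    simpa using (this.tendsto 0).mono_left nhdsWithin_le_nhds
  obtain ⟨c, h1, h2⟩ := ((h.eventually (mem_interior_iff_mem_nhds.1 hp)).and
    self_mem_nhdsWithin).exists
  exact ⟨c, h2, h1⟩

namespace Frame

variable (F : Frame) {K : Set V}

theorem frA_image (hK : Body K) : F.lev '' K = Icc (F.lo K) (F.hi K) :=
  eq_Icc_of_connected_compact
    ((hK.conv.isConnected (hK.int.mono interior_subset)).image _ F.continuous_lev.continuousOn)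
    (hK.comp.image F.continuous_lev)

theorem frA_combo (a b s t s' t' : ℝ) :
    a • F.pt s t + b • F.pt s' t' = F.pt (a * s + b * s') (a * t + b * t') := by
  simp only [pt, smul_add, add_smul, mul_smul]
  abel

theorem frA_chord (hK : Body K) {s : ℝ} (hs : s ∈ Icc (F.lo K) (F.hi K)) :
    {t | F.pt s t ∈ K} = Icc (F.bot K s) (F.top K s) := by
  rw [← F.frA_image hK] at hs
  obtain ⟨p, hp, rfl⟩ := hs
  refine eq_Icc_of_connected_compact (Convex.isConnected ?_ ⟨F.hgt p, ?_⟩) ?_
  · intro t ht t' ht' a b ha hb hab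
    have := hK.conv ht ht' ha hb hab
    rwa [F.frA_combo, ← add_mul, hab, one_mul] at this
  · change F.pt _ _ ∈ K
    rwa [pt_lev_hgt]
  · refine (hK.comp.image F.continuous_hgt).of_isClosed_subset ?_ fun t ht => ⟨_, ht, by simp⟩
    exact hK.comp.isClosed.preimage (f := fun t => F.pt (F.lev p) t) (by unfold pt; fun_prop)

theorem frA_strict (hK : Body K) {p : V} (hp : p ∈ interior K) :
    F.lev p ∈ Ioo (F.lo K) (F.hi K) ∧ F.bot K (F.lev p) < F.hgt p ∧
      F.hgt p < F.top K (F.lev p) := by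
  have h : ∀ q ∈ K, F.lev q ∈ Icc (F.lo K) (F.hi K) := fun q hq =>
    F.frA_image hK ▸ mem_image_of_mem _ hq
  have h' : ∀ c : ℝ, p + c • F.d ∈ K → F.hgt p + c ∈ Icc (F.bot K (F.lev p)) (F.top K (F.lev p)) := by
    intro c hc
    rw [← F.frA_chord hK (h p (interior_subset hp))]
    change F.pt _ _ ∈ K
    rwa [← pt_add_smul_d, pt_lev_hgt]
  obtain ⟨c1, p1, h1⟩ := frA_move hp F.e
  obtain ⟨c2, p2, h2⟩ := frA_move hp (-F.e)
  obtain ⟨c3, p3, h3⟩ := frA_move hp F.d
  obtain ⟨c4, p4, h4⟩ := frA_move hp (-F.d)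
  rw [smul_neg, ← neg_smul] at h2 h4
  have e1 := (h _ h1).2
  have e2 := (h _ h2).1
  rw [lev_add, lev_smul, lev_e] at e1 e2
  exact ⟨⟨by linarith, by linarith⟩, by linarith [(h' _ h4).1], by linarith [(h' _ h3).2]⟩

theorem lo_lt_hi (hK : Body K) : F.lo K < F.hi K := by
  obtain ⟨p, hp⟩ := hK.int
  exact (F.frA_strict hK hp).1.1.trans (F.frA_strict hK hp).1.2

theorem lev_mem (hK : Body K) {p : V} (hp : p ∈ K) : F.lev p ∈ Icc (F.lo K) (F.hi K) :=
  F.frA_image hK ▸ mem_image_of_mem _ hp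

theorem pt_mem_iff (hK : Body K) {s : ℝ} (hs : s ∈ Icc (F.lo K) (F.hi K)) (t : ℝ) :
    F.pt s t ∈ K ↔ F.bot K s ≤ t ∧ t ≤ F.top K s :=
  Set.ext_iff.1 (F.frA_chord hK hs) t

theorem bot_le_top (hK : Body K) {s : ℝ} (hs : s ∈ Icc (F.lo K) (F.hi K)) :
    F.bot K s ≤ F.top K s := by
  have hs' := hs
  rw [← F.frA_image hK] at hs'
  obtain ⟨p, hp, rfl⟩ := hs'
  have := (F.pt_mem_iff hK hs (F.hgt p)).1 (by rwa [pt_lev_hgt])
  exact this.1.trans this.2

theorem mem_iff (hK : Body K) (p : V) :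
    p ∈ K ↔ F.lev p ∈ Icc (F.lo K) (F.hi K) ∧ F.bot K (F.lev p) ≤ F.hgt p ∧
      F.hgt p ≤ F.top K (F.lev p) := by
  refine ⟨fun hp => ⟨F.lev_mem hK hp, (F.pt_mem_iff hK (F.lev_mem hK hp) _).1 ?_⟩, fun h => ?_⟩
  · rwa [pt_lev_hgt]
  · have := (F.pt_mem_iff hK h.1 _).2 h.2
    rwa [pt_lev_hgt] at this

theorem concaveOn_top (hK : Body K) : ConcaveOn ℝ (Icc (F.lo K) (F.hi K)) (F.top K) := by
  refine ⟨convex_Icc _ _, fun s hs s' hs' a b ha hb hab => ?_⟩
  have := hK.conv ((F.pt_mem_iff hK hs _).2 ⟨F.bot_le_top hK hs, le_rfl⟩)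
    ((F.pt_mem_iff hK hs' _).2 ⟨F.bot_le_top hK hs', le_rfl⟩) ha hb hab
  rw [F.frA_combo] at this
  exact ((F.pt_mem_iff hK (convex_Icc _ _ hs hs' ha hb hab) _).1 this).2

theorem convexOn_bot (hK : Body K) : ConvexOn ℝ (Icc (F.lo K) (F.hi K)) (F.bot K) := by
  refine ⟨convex_Icc _ _, fun s hs s' hs' a b ha hb hab => ?_⟩
  have := hK.conv ((F.pt_mem_iff hK hs _).2 ⟨le_rfl, F.bot_le_top hK hs⟩)
    ((F.pt_mem_iff hK hs' _).2 ⟨le_rfl, F.bot_le_top hK hs'⟩) ha hb hab
  rw [F.frA_combo] at this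
  exact ((F.pt_mem_iff hK (convex_Icc _ _ hs hs' ha hb hab) _).1 this).1

theorem continuousOn_top (hK : Body K) : ContinuousOn (F.top K) (Icc (F.lo K) (F.hi K)) := by
  intro s hs
  refine tendsto_order.2 ⟨fun y hy => ?_, fun y hy => ?_⟩
  · obtain ⟨C, hC⟩ := frA_lower (F.concaveOn_top hK) hs
    have h : Continuous fun u => F.top K s - C * |u - s| := by fun_prop
    have h1 : ∀ᶠ u in 𝓝 s, y < F.top K s - C * |u - s| :=
      (h.tendsto s).eventually (lt_mem_nhds (by simpa using hy))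
    filter_upwards [mem_nhdsWithin_of_mem_nhds h1, self_mem_nhdsWithin] with u h1 h2
    exact h1.trans_le (hC u h2)
  · have hc : IsClosed (F.lev '' (K ∩ {p | y ≤ F.hgt p})) :=
      ((hK.comp.inter_right (isClosed_le continuous_const F.continuous_hgt)).image
        F.continuous_lev).isClosed
    have h1 : s ∉ F.lev '' (K ∩ {p | y ≤ F.hgt p}) := by
      rintro ⟨p, ⟨hp, hp'⟩, rfl⟩
      exact absurd (hp'.trans ((F.mem_iff hK p).1 hp).2.2) (not_le.2 hy)
    filter_upwards [mem_nhdsWithin_of_mem_nhds (hc.isOpen_compl.mem_nhds h1),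
      self_mem_nhdsWithin] with u h1 h2
    by_contra h3
    refine h1 ⟨F.pt u (F.top K u), ⟨(F.pt_mem_iff hK h2 _).2 ⟨F.bot_le_top hK h2, le_rfl⟩, ?_⟩,
      by simp⟩
    simpa using h3

theorem continuousOn_bot (hK : Body K) : ContinuousOn (F.bot K) (Icc (F.lo K) (F.hi K)) := by
  have := (F.flip.continuousOn_top hK).neg
  rw [flip_lo, flip_hi] at this
  exact this.congr fun s _ => by simp [flip_top]

theorem bot_lt_top (hK : Body K) {s : ℝ} (hs : s ∈ Ioo (F.lo K) (F.hi K)) :
    F.bot K s < F.top K s := by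
  obtain ⟨q, hq⟩ := hK.int
  have key : ∀ u ∈ Icc (F.lo K) (F.hi K), ∀ a : ℝ, 0 < a → a ≤ 1 →
      a * F.lev q + (1 - a) * u = s → F.bot K s < F.top K s := by
    intro u hu a ha ha' e
    rw [← F.frA_image hK] at hu
    obtain ⟨p, hp, rfl⟩ := hu
    have := F.frA_strict hK
      (hK.conv.combo_interior_self_mem_interior hq hp ha (sub_nonneg.2 ha') (by ring))
    rw [lev_add, lev_smul, lev_smul, e] at this
    exact this.2.1.trans this.2.2
  have h := (F.frA_strict hK hq).1
  have hle := (F.lo_lt_hi hK).le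
  rcases le_total s (F.lev q) with h1 | h1
  · have h2 : 0 < F.lev q - F.lo K := sub_pos.2 h.1
    refine key _ (left_mem_Icc.2 hle) ((s - F.lo K) / (F.lev q - F.lo K))
      (div_pos (sub_pos.2 hs.1) h2) ((div_le_one h2).2 (by linarith)) ?_
    field_simp
    ring
  · have h2 : 0 < F.hi K - F.lev q := sub_pos.2 h.2
    refine key _ (right_mem_Icc.2 hle) ((F.hi K - s) / (F.hi K - F.lev q))
      (div_pos (sub_pos.2 hs.2) h2) ((div_le_one h2).2 (by linarith)) ?_
    field_simp
    ring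

theorem mem_interior_iff (hK : Body K) (p : V) :
    p ∈ interior K ↔ F.lev p ∈ Ioo (F.lo K) (F.hi K) ∧ F.bot K (F.lev p) < F.hgt p ∧
      F.hgt p < F.top K (F.lev p) := by
  refine ⟨F.frA_strict hK, fun ⟨h1, h2, h3⟩ => mem_interior_iff_mem_nhds.2 ?_⟩
  have hn : Icc (F.lo K) (F.hi K) ∈ 𝓝 (F.lev p) := Icc_mem_nhds h1.1 h1.2
  have c1 : ContinuousAt (fun q => F.top K (F.lev q)) p :=
    ((F.continuousOn_top hK).continuousAt hn).comp F.continuous_lev.continuousAt
  have c2 : ContinuousAt (fun q => F.bot K (F.lev q)) p :=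
    ((F.continuousOn_bot hK).continuousAt hn).comp F.continuous_lev.continuousAt
  filter_upwards [F.continuous_lev.continuousAt.eventually hn,
    c2.eventually_lt F.continuous_hgt.continuousAt h2,
    F.continuous_hgt.continuousAt.eventually_lt c1 h3] with q q1 q2 q3
  exact (F.mem_iff hK q).2 ⟨q1, q2.le, q3.le⟩

/-- a boundary point at an inner level is the top or the bottom point of its chord -/
theorem top_or_bot (hK : Body K) {p : V} (hp : p ∈ K) (hp' : p ∉ interior K)
    (hs : F.lev p ∈ Ioo (F.lo K) (F.hi K)) :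
    F.hgt p = F.top K (F.lev p) ∨ F.hgt p = F.bot K (F.lev p) := by
  obtain ⟨-, h1, h2⟩ := (F.mem_iff hK p).1 hp
  by_contra h
  rw [not_or] at h
  exact hp' ((F.mem_interior_iff hK p).2
    ⟨hs, lt_of_le_of_ne h1 (Ne.symm h.2), lt_of_le_of_ne h2 h.1⟩)

theorem exists_lev_eq_lo (hK : Body K) : ∃ p ∈ K, F.lev p = F.lo K := by
  have := left_mem_Icc.2 (F.lo_lt_hi hK).le
  rwa [← F.frA_image hK] at this

theorem exists_lev_eq_hi (hK : Body K) : ∃ p ∈ K, F.lev p = F.hi K := by
  have := right_mem_Icc.2 (F.lo_lt_hi hK).le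
  rwa [← F.frA_image hK] at this

end Frame

end XR
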