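import Pool.Agent.P.MP_408b1f_gt.Defs

/-! Algebra of frames. -/

open Set MeasureTheory Filter Topology

noncomputable section

namespace XR

namespace Frame

variable (F : Frame)

theorem o_sq : F.o * F.o = 1 := by rcases F.ho with h | h <;> simp [h]

@[simp] theorem lev_pt (s t : ℝ) : F.lev (F.pt s t) = s := by
  have h := F.hdet; have h2 := F.o_sq
  simp only [lev, pt, det, Prod.fst_add, Prod.snd_add, Prod.smul_fst, Prod.smul_snd,
    smul_eq_mul] at h ⊢
  linear_combination (F.o * s) * h + s * h2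

@[simp] theorem hgt_pt (s t : ℝ) : F.hgt (F.pt s t) = t := by
  have h := F.hdet; have h2 := F.o_sq
  simp only [hgt, pt, det, Prod.fst_add, Prod.snd_add, Prod.smul_fst, Prod.smul_snd,
    smul_eq_mul] at h ⊢
  linear_combination (F.o * t) * h + t * h2

theorem pt_lev_hgt (p : V) : F.pt (F.lev p) (F.hgt p) = p := by
  have h := F.hdet; have h2 := F.o_sq
  simp only [lev, hgt, pt, det] at h ⊢
  ext
  · simp only [Prod.fst_add, Prod.smul_fst, smul_eq_mul]
    linear_combination (F.o * p.1) * h + p.1 * h2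
  · simp only [Prod.snd_add, Prod.smul_snd, smul_eq_mul]
    linear_combination (F.o * p.2) * h + p.2 * h2

theorem lev_add (p q : V) : F.lev (p + q) = F.lev p + F.lev q := by simp [lev, det]; ring
theorem lev_sub (p q : V) : F.lev (p - q) = F.lev p - F.lev q := by simp [lev, det]; ring
theorem lev_smul (c : ℝ) (p : V) : F.lev (c • p) = c * F.lev p := by simp [lev, det]; ring
theorem hgt_add (p q : V) : F.hgt (p + q) = F.hgt p + F.hgt q := by simp [hgt, det]; ring
theorem hgt_sub (p q : V) : F.hgt (p - q) = F.hgt p - F.hgt q := by simp [hgt, det]; ring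
theorem hgt_smul (c : ℝ) (p : V) : F.hgt (c • p) = c * F.hgt p := by simp [hgt, det]; ring

@[simp] theorem lev_d : F.lev F.d = 0 := by simp [lev, det]; ring_nf; simp
@[simp] theorem hgt_e : F.hgt F.e = 0 := by simp [hgt, det]; ring_nf; simp
@[simp] theorem lev_e : F.lev F.e = 1 := by rw [lev, F.hdet, F.o_sq]
@[simp] theorem hgt_d : F.hgt F.d = 1 := by rw [hgt, F.hdet, F.o_sq]

theorem d_ne : F.d ≠ 0 := by
  intro h; have := F.hgt_d; rw [h] at this; simp [hgt, det] at this

theorem det_eq (p q : V) : det p q = F.o * (F.lev p * F.hgt q - F.hgt p * F.lev q) := by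
  have h := F.hdet; have h2 := F.o_sq
  simp only [lev, hgt, det] at h ⊢
  have h3 : F.o * (F.e.1 * F.d.2 - F.e.2 * F.d.1) = 1 := by rw [h, h2]
  linear_combination (-(p.1 * q.2 - p.2 * q.1)) * h3 -
    (F.o * (p.1 * q.2 - p.2 * q.1) * (F.e.1 * F.d.2 - F.e.2 * F.d.1)) * h2

theorem pt_add_smul_d (s t c : ℝ) : F.pt s t + c • F.d = F.pt s (t + c) := by
  simp only [pt, add_smul]; abel

theorem continuous_lev : Continuous F.lev := by unfold lev det; fun_prop
theorem continuous_hgt : Continuous F.hgt := by unfold hgt det; fun_prop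
theorem continuous_pt : Continuous fun q : ℝ × ℝ => F.pt q.1 q.2 := by unfold pt; fun_prop

theorem lev_eq_dot : ∃ α : V, ∀ p, F.lev p = dot α p :=
  ⟨(F.o * F.d.2, -(F.o * F.d.1)), fun p => by simp [lev, det, dot]; ring⟩

@[simp] theorem neg_o : F.neg.o = F.o := rfl
@[simp] theorem neg_d : F.neg.d = -F.d := rfl
@[simp] theorem neg_e : F.neg.e = -F.e := rfl
@[simp] theorem flip_o : F.flip.o = -F.o := rfl
@[simp] theorem flip_d : F.flip.d = -F.d := rfl
@[simp] theorem flip_e : F.flip.e = F.e := rfl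
@[simp] theorem neg_lev (p : V) : F.neg.lev p = -F.lev p := by simp [lev, det]; ring
@[simp] theorem neg_hgt (p : V) : F.neg.hgt p = -F.hgt p := by simp [hgt, det]; ring
@[simp] theorem flip_lev (p : V) : F.flip.lev p = F.lev p := by simp [lev, det]; ring
@[simp] theorem flip_hgt (p : V) : F.flip.hgt p = -F.hgt p := by simp [hgt, det]
theorem neg_pt (s t : ℝ) : F.neg.pt s t = F.pt (-s) (-t) := by simp [pt]
theorem flip_pt (s t : ℝ) : F.flip.pt s t = F.pt s (-t) := by simp [pt]

theorem neg_top (K : Set V) (s : ℝ) : F.neg.top K s = -F.bot K (-s) := by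
  rw [top, bot, ← Real.sSup_neg]; congr 1; ext t; simp [neg_pt]
theorem neg_bot (K : Set V) (s : ℝ) : F.neg.bot K s = -F.top K (-s) := by
  rw [top, bot, ← Real.sInf_neg]; congr 1; ext t; simp [neg_pt]
theorem flip_top (K : Set V) (s : ℝ) : F.flip.top K s = -F.bot K s := by
  rw [top, bot, ← Real.sSup_neg]; congr 1; ext t; simp [flip_pt]
theorem flip_bot (K : Set V) (s : ℝ) : F.flip.bot K s = -F.top K s := by
  rw [top, bot, ← Real.sInf_neg]; congr 1; ext t; simp [flip_pt]
theorem neg_lo (K : Set V) : F.neg.lo K = -F.hi K := by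
  rw [lo, hi, ← Real.sInf_neg]; congr 1; ext t
  simp only [mem_image, neg_lev, Set.mem_neg]
  constructor <;> rintro ⟨p, hp, h⟩ <;> exact ⟨p, hp, by linarith⟩
theorem neg_hi (K : Set V) : F.neg.hi K = -F.lo K := by
  rw [lo, hi, ← Real.sSup_neg]; congr 1; ext t
  simp only [mem_image, neg_lev, Set.mem_neg]
  constructor <;> rintro ⟨p, hp, h⟩ <;> exact ⟨p, hp, by linarith⟩
theorem flip_lo (K : Set V) : F.flip.lo K = F.lo K := by
  rw [lo, lo]; congr 1; ext t; simp
theorem flip_hi (K : Set V) : F.flip.hi K = F.hi K := by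
  rw [hi, hi]; congr 1; ext t; simp
theorem neg_len (K : Set V) (s : ℝ) : F.neg.len K s = F.len K (-s) := by
  simp only [len, neg_top, neg_bot]; ring
theorem flip_len (K : Set V) (s : ℝ) : F.flip.len K s = F.len K s := by
  simp only [len, flip_top, flip_bot]; ring

end Frame

@[simp] theorem F1_lev (p : V) : F1.lev p = p.1 := by simp [F1, Frame.lev, det]
@[simp] theorem F1_hgt (p : V) : F1.hgt p = p.2 := by simp [F1, Frame.hgt, det]
@[simp] theorem F1_pt (s t : ℝ) : F1.pt s t = (s, t) := by simp [F1, Frame.pt]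
@[simp] theorem F1_d : F1.d = (0, 1) := rfl
@[simp] theorem F1_e : F1.e = (1, 0) := rfl
@[simp] theorem F1_o : F1.o = 1 := rfl
@[simp] theorem F2_lev (p : V) : F2.lev p = p.2 := by simp [F2, Frame.lev, det]
@[simp] theorem F2_hgt (p : V) : F2.hgt p = -p.1 := by simp [F2, Frame.hgt, det]
@[simp] theorem F2_pt (s t : ℝ) : F2.pt s t = (-t, s) := by simp [F2, Frame.pt]
@[simp] theorem F2_d : F2.d = (-1, 0) := rfl
@[simp] theorem F2_e : F2.e = (0, 1) := rfl
@[simp] theorem F2_o : F2.o = 1 := rfl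
@[simp] theorem F3_lev (ε : ℝ) (p : V) : (F3 ε).lev p = w ε p := by
  simp [F3, Frame.lev, det, w]; ring
@[simp] theorem F3_hgt (ε : ℝ) (p : V) : (F3 ε).hgt p = p.2 := by simp [F3, Frame.hgt, det]
@[simp] theorem F3_pt (ε s t : ℝ) : (F3 ε).pt s t = (s + t * ε, t) := by simp [F3, Frame.pt]
@[simp] theorem F3_d (ε : ℝ) : (F3 ε).d = (ε, 1) := rfl
@[simp] theorem F3_e (ε : ℝ) : (F3 ε).e = (1, 0) := rfl
@[simp] theorem F3_o (ε : ℝ) : (F3 ε).o = 1 := rfl

theorem w_eq_dot (ε : ℝ) (p : V) : w ε p = dot (1, -ε) p := by simp [w, dot]; ring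

end XR
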