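import Pool.Agent.P.MP_408b1f_gt.FrA

/-! Measure theory in a frame. volume_eq_lintegral: the linear map (s,t) to pt s t has
determinant of absolute value one (Real.map_linearMap_volume_pi_eq_smul_volume_pi or
Measure.addHaar_preimage_linearMap / addHaar_image_linearMap on the product, with
Measure.volume_eq_prod and Measure.prod_apply). The rest follows from FrA. -/

open Set MeasureTheory Filter Topology

noncomputable section

namespace XR

/-- the linear map of a frame -/
def Frame.frbLin (F : Frame) : V →ₗ[ℝ] V :=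
  (LinearMap.fst ℝ ℝ ℝ).smulRight F.e + (LinearMap.snd ℝ ℝ ℝ).smulRight F.d

theorem Frame.frbLin_apply (F : Frame) (q : V) : F.frbLin q = F.pt q.1 q.2 := rfl

theorem Frame.frbLin_det (F : Frame) : LinearMap.det F.frbLin = F.o := by
  rw [← LinearMap.det_toMatrix (Module.Basis.finTwoProd ℝ), Matrix.det_fin_two, ← F.hdet]
  simp [LinearMap.toMatrix_apply, Frame.frbLin, det]
  ring

theorem Frame.volume_eq_lintegral (F : Frame) {A : Set V} (hA : MeasurableSet A) :
    volume A = ∫⁻ s, volume {t : ℝ | F.pt s t ∈ A} := by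
  have h0 : LinearMap.det F.frbLin ≠ 0 := by
    rw [F.frbLin_det]
    rcases F.ho with h | h <;> simp [h]
  have h1 := Measure.addHaar_preimage_linearMap (volume : Measure V) h0 A
  have h2 : ENNReal.ofReal |(LinearMap.det F.frbLin)⁻¹| = 1 := by
    rw [F.frbLin_det]
    rcases F.ho with h | h <;> simp [h]
  rw [h2, one_mul] at h1
  have h3 : MeasurableSet (F.frbLin ⁻¹' A) := F.continuous_pt.measurable hA
  rw [← h1, Measure.volume_eq_prod, Measure.prod_apply h3]
  rfl

theorem Frame.xray_eq (F : Frame) {K : Set V} (hK : Body K) (s t : ℝ) :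
    xray K F.d (F.pt s t) =
      if s ∈ Icc (F.lo K) (F.hi K) then ENNReal.ofReal (F.len K s) else 0 := by
  unfold xray
  simp only [F.pt_add_smul_d]
  split_ifs with hs
  · have h1 : {c : ℝ | F.pt s (t + c) ∈ K} = Icc (F.bot K s - t) (F.top K s - t) := by
      ext c
      rw [mem_ofPred_eq, F.pt_mem_iff hK hs, mem_Icc]
      constructor <;> rintro ⟨h1, h2⟩ <;> constructor <;> linarith
    rw [h1, Real.volume_Icc, Frame.len]
    refine congrArg ENNReal.ofReal ?_
    ring
  · have h1 : {c : ℝ | F.pt s (t + c) ∈ K} = ∅ := by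
      refine eq_empty_of_forall_notMem fun c hc => hs ?_
      have h2 := F.lev_mem hK hc
      rwa [F.lev_pt] at h2
    rw [h1, measure_empty]

theorem SameX.symm {d : V} {K L : Set V} (h : SameX d K L) : SameX d L K := fun p => (h p).symm

theorem frb_xray_neg (K : Set V) (d p : V) : xray K (-d) p = xray K d p := by
  unfold xray
  rw [← Measure.measure_preimage_neg volume {t : ℝ | p + t • d ∈ K}]
  refine congrArg volume ?_
  ext t
  simp

theorem SameX.neg {d : V} {K L : Set V} (h : SameX d K L) : SameX (-d) K L := fun p => by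
  rw [frb_xray_neg, frb_xray_neg, h p]

theorem frb_sub {F : Frame} {K L : Set V} (h : SameX F.d K L) (hK : Body K) (hL : Body L) :
    F.lo L ≤ F.lo K ∧ F.hi K ≤ F.hi L := by
  have h1 : Ioo (F.lo K) (F.hi K) ⊆ Icc (F.lo L) (F.hi L) := by
    intro s hs
    by_contra hn
    have h2 := h (F.pt s 0)
    rw [F.xray_eq hK, F.xray_eq hL, if_pos (Ioo_subset_Icc_self hs), if_neg hn,
      ENNReal.ofReal_eq_zero] at h2
    have h3 := F.bot_lt_top hK hs
    unfold Frame.len at h2
    linarith
  have h4 := closure_minimal h1 isClosed_Icc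
  rw [closure_Ioo (F.lo_lt_hi hK).ne] at h4
  exact (Icc_subset_Icc_iff (F.lo_lt_hi hK).le).1 h4

theorem SameX.frame {F : Frame} {K L : Set V} (h : SameX F.d K L) (hK : Body K) (hL : Body L) :
    F.lo K = F.lo L ∧ F.hi K = F.hi L ∧
      ∀ s ∈ Icc (F.lo K) (F.hi K), F.len K s = F.len L s := by
  obtain ⟨h1, h2⟩ := frb_sub h hK hL
  obtain ⟨h3, h4⟩ := frb_sub h.symm hL hK
  have hlo := le_antisymm h3 h1
  have hhi := le_antisymm h2 h4
  refine ⟨hlo, hhi, fun s hs => ?_⟩
  have hs' : s ∈ Icc (F.lo L) (F.hi L) := by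
    rw [← hlo, ← hhi]
    exact hs
  have h5 := h (F.pt s 0)
  rw [F.xray_eq hK, F.xray_eq hL, if_pos hs, if_pos hs'] at h5
  exact (ENNReal.ofReal_eq_ofReal_iff (sub_nonneg.2 (F.bot_le_top hK hs))
    (sub_nonneg.2 (F.bot_le_top hL hs'))).1 h5

theorem sameX_of_len {F : Frame} {K L : Set V} (hK : Body K) (hL : Body L)
    (hlo : F.lo K = F.lo L) (hhi : F.hi K = F.hi L)
    (hlen : ∀ s ∈ Icc (F.lo K) (F.hi K), F.len K s = F.len L s) : SameX F.d K L := by
  intro p
  rw [← F.pt_lev_hgt p, F.xray_eq hK, F.xray_eq hL, ← hlo, ← hhi]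
  split_ifs with hs
  · rw [hlen _ hs]
  · rfl

theorem SameX.vol_inter {F : Frame} {K L : Set V} (h : SameX F.d K L) (hK : Body K)
    (hL : Body L) {S : Set ℝ} (hS : MeasurableSet S) :
    volume (K ∩ F.lev ⁻¹' S) = volume (L ∩ F.lev ⁻¹' S) := by
  have hm := F.continuous_lev.measurable hS
  rw [F.volume_eq_lintegral (hK.comp.measurableSet.inter hm),
    F.volume_eq_lintegral (hL.comp.measurableSet.inter hm)]
  refine lintegral_congr fun s => ?_
  simp only [mem_inter_iff, mem_preimage, F.lev_pt]
  by_cases hs : s ∈ S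
  · have h1 := h (F.pt s 0)
    unfold xray at h1
    simp only [F.pt_add_smul_d, zero_add] at h1
    simp only [hs, and_true]
    exact h1
  · simp only [hs, and_false]

theorem SameX.vol_eq {F : Frame} {K L : Set V} (h : SameX F.d K L) (hK : Body K)
    (hL : Body L) : volume K = volume L := by
  have h1 := h.vol_inter hK hL MeasurableSet.univ
  rwa [preimage_univ, inter_univ, inter_univ] at h1

theorem volume_line {P Q : V} (h : P ≠ Q) : volume {X : V | det3 P Q X = 0} = 0 := by
  have hn : (Q - P).1 ^ 2 + (Q - P).2 ^ 2 ≠ 0 := by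
    intro h0
    apply h
    have h1 : (Q - P).1 = 0 := by nlinarith [sq_nonneg (Q - P).1, sq_nonneg (Q - P).2]
    have h2 : (Q - P).2 = 0 := by nlinarith [sq_nonneg (Q - P).1, sq_nonneg (Q - P).2]
    exact (sub_eq_zero.1 (Prod.ext h1 h2 : Q - P = 0)).symm
  let F : Frame := ⟨((Q - P).2 / ((Q - P).1 ^ 2 + (Q - P).2 ^ 2),
    -(Q - P).1 / ((Q - P).1 ^ 2 + (Q - P).2 ^ 2)), Q - P, 1, Or.inl rfl, by
      simp only [det]
      field_simp
      ring⟩
  have h1 : {X : V | det3 P Q X = 0} = F.lev ⁻¹' {F.lev P} := by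
    ext X
    simp only [mem_ofPred_eq, mem_preimage, mem_singleton_iff, Frame.lev, F, det3, det,
      Prod.fst_sub, Prod.snd_sub]
    constructor <;> intro h2 <;> linarith
  rw [h1, F.volume_eq_lintegral (F.continuous_lev.measurable (measurableSet_singleton _))]
  refine (lintegral_congr_ae ?_).trans lintegral_zero
  filter_upwards [(countable_singleton (F.lev P)).ae_notMem volume] with s hs
  simp only [mem_preimage, F.lev_pt, hs, ofPred_false, measure_empty]

/-- area strictly between two continuous graphs -/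
theorem Frame.volume_between (F : Frame) {a b : ℝ} (hab : a ≤ b) {k l : ℝ → ℝ}
    (hk : ContinuousOn k (Icc a b)) (hl : ContinuousOn l (Icc a b)) :
    volume {p : V | F.lev p ∈ Ioo a b ∧ min (k (F.lev p)) (l (F.lev p)) < F.hgt p ∧
      F.hgt p < max (k (F.lev p)) (l (F.lev p))} =
      ENNReal.ofReal (∫ s in a..b, |k s - l s|) := by
  have hO : IsOpen (F.lev ⁻¹' Ioo a b) := isOpen_Ioo.preimage F.continuous_lev
  have hk' : ContinuousOn (fun p => k (F.lev p)) (F.lev ⁻¹' Ioo a b) :=
    hk.comp F.continuous_lev.continuousOn fun p hp => Ioo_subset_Icc_self hp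
  have hl' : ContinuousOn (fun p => l (F.lev p)) (F.lev ⁻¹' Ioo a b) :=
    hl.comp F.continuous_lev.continuousOn fun p hp => Ioo_subset_Icc_self hp
  have hmin : ContinuousOn (fun p => min (k (F.lev p)) (l (F.lev p))) (F.lev ⁻¹' Ioo a b) :=
    continuous_min.comp_continuousOn (hk'.prodMk hl')
  have hmax : ContinuousOn (fun p => max (k (F.lev p)) (l (F.lev p))) (F.lev ⁻¹' Ioo a b) :=
    continuous_max.comp_continuousOn (hk'.prodMk hl')
  have h1 := (F.continuous_hgt.continuousOn.sub hmin).isOpen_inter_preimage hO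
    (isOpen_Ioi (a := (0 : ℝ)))
  have h2 := (hmax.sub F.continuous_hgt.continuousOn).isOpen_inter_preimage hO
    (isOpen_Ioi (a := (0 : ℝ)))
  have hm : MeasurableSet {p : V | F.lev p ∈ Ioo a b ∧ min (k (F.lev p)) (l (F.lev p)) < F.hgt p ∧
      F.hgt p < max (k (F.lev p)) (l (F.lev p))} := by
    refine (congrArg MeasurableSet ?_).mp (h1.inter h2).measurableSet
    ext p
    simp only [mem_inter_iff, mem_preimage, mem_Ioi, Pi.sub_apply, sub_pos, mem_ofPred_eq]
    tauto
  have hint : IntegrableOn (fun s => |k s - l s|) (Ioo a b) :=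
    ((hk.sub hl).abs.integrableOn_Icc).mono_set Ioo_subset_Icc_self
  rw [F.volume_eq_lintegral hm, intervalIntegral.integral_of_le hab, integral_Ioc_eq_integral_Ioo,
    ofReal_integral_eq_lintegral_ofReal hint (ae_of_all _ fun s => abs_nonneg _),
    ← lintegral_indicator measurableSet_Ioo]
  refine lintegral_congr fun s => ?_
  simp only [mem_ofPred_eq, F.lev_pt, F.hgt_pt]
  by_cases hs : s ∈ Ioo a b
  · rw [indicator_of_mem hs]
    simp only [hs, true_and]
    rw [← max_sub_min_eq_abs', ← Real.volume_Ioo]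
    rfl
  · rw [indicator_of_notMem hs]
    simp only [hs, false_and, ofPred_false, measure_empty]

theorem frb_xray_image (K : Set V) (d p : V) (A : V ≃ₗ[ℝ] V) (c : V) :
    xray ((fun p => A p + c) '' K) (A d) p = xray K d (A.symm (p - c)) := by
  unfold xray
  refine congrArg volume ?_
  ext t
  constructor
  · rintro ⟨x, hx, he⟩
    have h1 : x = A.symm (p - c) + t • d := by
      apply A.injective
      rw [map_add, map_smul, A.apply_symm_apply]
      have h2 : A x + c = p + t • A d := he
      rw [eq_sub_of_add_eq h2]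
      abel
    rw [h1] at hx
    exact hx
  · intro ht
    refine ⟨_, ht, ?_⟩
    change A (A.symm (p - c) + t • d) + c = p + t • A d
    rw [map_add, map_smul, A.apply_symm_apply]
    abel

/-- X-rays are transported by invertible affine maps -/
theorem SameX.image {d : V} {K L : Set V} (h : SameX d K L) (A : V ≃ₗ[ℝ] V) (c : V) :
    SameX (A d) ((fun p => A p + c) '' K) ((fun p => A p + c) '' L) := fun p => by
  rw [frb_xray_image, frb_xray_image, h]

theorem Body.image {K : Set V} (hK : Body K) (A : V ≃ₗ[ℝ] V) (c : V) :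
    Body ((fun p => A p + c) '' K) := by
  let H : V ≃ₜ V := A.toContinuousLinearEquiv.toHomeomorph.trans (Homeomorph.addRight c)
  have hH : (fun p => A p + c) = H := rfl
  refine ⟨?_, ?_, ?_⟩
  · rintro _ ⟨x, hx, rfl⟩ _ ⟨y, hy, rfl⟩ s t hs ht hst
    refine ⟨s • x + t • y, hK.conv hx hy hs ht hst, ?_⟩
    change A (s • x + t • y) + c = s • (A x + c) + t • (A y + c)
    rw [map_add, map_smul, map_smul, smul_add, smul_add, add_add_add_comm, ← add_smul, hst,
      one_smul]
  · rw [hH]
    exact hK.comp.image H.continuous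
  · rw [hH, ← H.image_interior]
    exact hK.int.image _

end XR
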