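import Pool.Agent.P.MP_408b1f_gt.Geo1a

/-! One step of R in the bulk. Everything follows from Geo1a and the fields of Sys: the support
inequalities of the tangents (tanPK.supp etc: det (u j) (X - P j) <= 0 for X in K,
det (u' j) (X - O j) >= 0) tested on other flag points (which all lie in K ∩ L), the fields hMl,
hMr for genuineness (Inner), and the Gen data. For t1 j = -1 argue directly (divide by the negative
first coordinate).
step: P j and O j have w in [x - eps, x], K ∩ L has points with w <= eps and w >= 1 - 2 eps, so both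
oblique edges are genuine; w u = u.1 (1 - eps kP) has the sign of t1; neighbours lie in
InB (s - eps) where slopes are at most 1/(s - eps) <= 4/(3 s); h3 j - f (x j) = p eps h3 j with p the
chord slope of P; h j - f (x j) = r eps h j with r the chord slope of O.
Rmono: w is strictly monotone in x along flag points on the same side (slopes at most 1/(s - eps),
support inequalities at both points); w (P (R i)) = w (O i). -/

open Set MeasureTheory Filter Topology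

noncomputable section

namespace XR

variable {f g : ℝ → ℝ} {ε : ℝ} {I : Type}

theorem geo1_supp {u X : V} {t : ℝ} (ht : t = 1 ∨ t = -1) (hu : 0 < t * u.1) (h : det u X ≤ 0) :
    t * (X.2 - u.2 / u.1 * X.1) ≤ 0 := by
  have h0 : u.1 ≠ 0 := by
    rintro e
    rw [e, mul_zero] at hu
    exact lt_irrefl _ hu
  have e : t * (X.2 - u.2 / u.1 * X.1) * (t * u.1) = det u X := by
    rcases ht with rfl | rfl <;> simp only [det] <;> field_simp
  by_contra hc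
  have := mul_pos (not_le.1 hc) hu
  linarith

theorem geo1_supp' {u X : V} {t : ℝ} (ht : t = 1 ∨ t = -1) (hu : 0 < t * u.1)
    (h : -1 * det u X ≤ 0) : 0 ≤ t * (X.2 - u.2 / u.1 * X.1) := by
  have := geo1_supp (X := -X) ht hu (by simp only [det, Prod.fst_neg, Prod.snd_neg] at h ⊢; linarith)
  simp only [Prod.fst_neg, Prod.snd_neg] at this
  linarith

theorem geo1_eps {s k : ℝ} (hε : 0 < ε) (hs : 3 * ε ≤ s) (hk : |k| ≤ 1 / s) : ε * k ≤ 1 / 3 := by
  have h0 : 0 < s := by linarith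
  have h1 : ε * k ≤ ε * (1 / s) := mul_le_mul_of_nonneg_left (abs_le.1 hk).2 hε.le
  have h2 : ε * (1 / s) ≤ 1 / 3 := by
    rw [mul_one_div, div_le_iff₀ h0]
    linarith
  linarith

theorem geo1_w {u : V} {t s : ℝ} (hε : 0 < ε) (hs : 3 * ε ≤ s) (hu : 0 < t * u.1)
    (hk : |u.2 / u.1| ≤ 1 / s) : 0 < t * w ε u := by
  have h0 : u.1 ≠ 0 := by
    rintro e
    rw [e, mul_zero] at hu
    exact lt_irrefl _ hu
  have e : t * w ε u = t * u.1 * (1 - ε * (u.2 / u.1)) := by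
    simp only [w]
    field_simp
  rw [e]
  exact mul_pos hu (by linarith [geo1_eps hε hs hk])

theorem geo1_sign {t t' a : ℝ} (ht : t = 1 ∨ t = -1) (ht' : t' = 1 ∨ t' = -1) (h : 0 < t * a)
    (h' : 0 < t' * a) : t = t' := by
  rcases ht with rfl | rfl <;> rcases ht' with rfl | rfl <;> linarith

theorem geo1_le {t d y p k : ℝ} (hd : 0 < t * d) (hy : y = p * d) (h : t * (y - k * d) ≤ 0) :
    p ≤ k := by
  by_contra hc
  have := mul_pos hd (sub_pos.2 (not_le.1 hc))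
  rw [hy] at h
  linarith

theorem geo1_ge {t d y p k : ℝ} (hd : 0 < t * d) (hy : y = p * d) (h : 0 ≤ t * (y - k * d)) :
    k ≤ p := by
  by_contra hc
  have := mul_pos hd (sub_pos.2 (not_le.1 hc))
  rw [hy] at h
  linarith

theorem geo1_abs {s s' p a b h F : ℝ} (hε : 0 < ε) (hs : 4 * ε ≤ s) (hs' : s' = s - ε)
    (ha : |a| ≤ 1 / s') (hb : |b| ≤ 1 / s') (h1 : a ≤ p) (h2 : p ≤ b) (h0 : 0 < h) (h3 : h ≤ 1)
    (e : h - F = p * ε * h) : |h - F| ≤ 2 * ε / s := by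
  have hp : |p| ≤ 1 / s' := abs_le.2 ⟨(abs_le.1 ha).1.trans h1, h2.trans (abs_le.1 hb).2⟩
  have h4 : 1 / s' ≤ 2 / s := by
    rw [div_le_div_iff₀ (by linarith) (by linarith)]
    linarith
  rw [e, abs_mul, abs_mul, abs_of_pos hε, abs_of_pos h0]
  have h5 : |p| * ε * h ≤ |p| * ε := mul_le_of_le_one_right (by positivity) h3
  have h6 := mul_le_mul_of_nonneg_right (hp.trans h4) hε.le
  have h7 : 2 / s * ε = 2 * ε / s := by ring
  linarith

namespace Sys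

variable (S : Sys f g ε I)

theorem geo1_g3 {s : ℝ} (hε : 0 < ε) (hs : 3 * ε ≤ s) {j : I} (hj : S.InB s j) : S.G3 j := by
  have h1 := S.xO j
  have h2 : 0 ≤ ε * (S.O j).2 := mul_nonneg hε.le (S.yO_mem j).1
  have h3 : ε * (S.O j).2 ≤ ε := mul_le_of_le_one_right hε.le (S.yO_mem j).2
  obtain ⟨p, hp, hp'⟩ := S.hMl
  obtain ⟨q, hq, hq'⟩ := S.hMr
  have h4 : 0 ≤ ε * p.2 := mul_nonneg hε.le (S.hK.box p hp.1).2.2.1
  have h5 : ε * q.2 ≤ ε := mul_le_of_le_one_right hε.le (S.hK.box q hq.1).2.2.2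
  refine S.gen3 j ⟨⟨p, hp, ?_⟩, ⟨q, hq, ?_⟩⟩ <;> simp only [w] <;> linarith [hj.1, hj.2]

variable {S} in
theorem G1.geo1_P {i : I} (h : S.G1 i) (j : I) :
    S.t1 i * (S.yP j - S.yP i - S.kP i * (S.x j - S.x i)) ≤ 0 ∧
      S.t1 i * (S.yP j - S.yP i - S.lP i * (S.x j - S.x i)) ≤ 0 :=
  ⟨geo1_supp (X := S.P j - S.P i) h.1.ht h.1.hu
      (by simpa only [one_mul] using (S.tanPK i).supp _ (S.memP j).1),
    geo1_supp (X := S.P j - S.P i) h.1.ht h.1.hv
      (by simpa only [one_mul] using (S.tanPL i).supp _ (S.memP j).2)⟩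

variable {S} in
theorem G1.geo1_O {i : I} (h : S.G1 i) (j : I) :
    0 ≤ S.t1 i * (S.yO j - S.yO i - S.kO i * (S.x j - S.x i)) ∧
      0 ≤ S.t1 i * (S.yO j - S.yO i - S.lO i * (S.x j - S.x i)) := by
  rw [← S.xO, ← S.xO]
  exact ⟨geo1_supp' (X := S.O j - S.O i) h.1.ht h.1.hu' ((S.tanOK i).supp _ (S.memO j).1),
    geo1_supp' (X := S.O j - S.O i) h.1.ht h.1.hv' ((S.tanOL i).supp _ (S.memO j).2)⟩

theorem geo1_nb {s : ℝ} (hε : 0 < ε) {j : I} (hj : S.InB s j) :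
    S.InB (s - ε) j ∧ S.InB (s - ε) (S.R j) ∧ S.InB (s - ε) (S.R.symm j) := by
  have h1 := abs_le.1 (S.xstep hε.le j)
  have h2 := abs_le.1 (S.xstep hε.le (S.R.symm j))
  rw [Equiv.apply_symm_apply] at h2
  refine ⟨⟨?_, ?_⟩, ⟨?_, ?_⟩, ⟨?_, ?_⟩⟩ <;> linarith [hj.1, hj.2, h1.1, h1.2, h2.1, h2.2]

theorem geo1_edge {s : ℝ} (hε : 0 < ε) (hs : 4 * ε ≤ s) {i j : I} (hij : S.R i = j)
    (hi : S.InB (s - ε) i) (hj : S.InB (s - ε) j) :
    S.t3 i = S.t1 i ∧ S.t1 j = S.t1 i ∧ S.x j = S.x i + S.t1 i * ε * S.h3 i ∧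
      |S.h3 i - f (S.x i)| ≤ 2 * ε / s ∧ |S.h3 i - f (S.x j)| ≤ 2 * ε / s ∧ 0 < S.h3 i ∧
      S.h3 i ≤ 1 ∧ (∃ p, S.yP j - S.yP i = p * (S.x j - S.x i) ∧
        S.kP j ≤ p ∧ p ≤ S.kP i ∧ S.lP j ≤ p ∧ p ≤ S.lP i) ∧
      ∃ r, S.yO j - S.yO i = r * (S.x j - S.x i) ∧
        S.kO i ≤ r ∧ r ≤ S.kO j ∧ S.lO i ≤ r ∧ r ≤ S.lO j := by
  subst hij
  have h3 : 3 * ε ≤ s - ε := by linarith
  have hG := S.geo1_g3 hε h3 hi
  obtain ⟨a0, a1, -, a3, -, -⟩ := S.g1_of hε (by linarith) hi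
  obtain ⟨b0, b1, -, b3, -, -⟩ := S.g1_of hε (by linarith) hj
  have e1 : S.t3 i = S.t1 i := geo1_sign hG.ht a0.1.ht hG.hu' (geo1_w hε h3 a0.1.hu' a3)
  have e2 : S.t1 (S.R i) = S.t1 i :=
    (geo1_sign b0.1.ht hG.ht (geo1_w hε h3 b0.1.hu b1) hG.hu).trans e1
  have hx : S.x (S.R i) = S.x i + S.t1 i * ε * S.h3 i := by
    have := congrArg Prod.fst hG.hz
    simp only [Prod.fst_add, Prod.smul_fst, smul_eq_mul, e1, S.xO] at this
    exact this.trans (by ring)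
  have hy : S.yP (S.R i) = S.yO i + S.t1 i * S.h3 i := by
    have := congrArg Prod.snd hG.hz
    simp only [Prod.snd_add, Prod.smul_snd, smul_eq_mul, e1, mul_one] at this
    exact this
  have hl := hG.hlen
  have ht := a0.1.ht
  have hd : 0 < S.t1 i * (S.x (S.R i) - S.x i) := by
    have := mul_pos hε hl
    rw [hx]
    rcases ht with c | c <;> rw [c] <;> linarith
  have hd0 : S.x (S.R i) - S.x i ≠ 0 := by
    intro e
    rw [e, mul_zero] at hd
    exact lt_irrefl _ hd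
  have hle : S.h3 i ≤ 1 := by
    have c1 := S.yP_mem (S.R i)
    have c2 := S.yO_mem i
    rcases ht with c | c <;> rw [c] at hy <;> linarith [c1.1, c1.2, c2.1, c2.2]
  obtain ⟨p, hp⟩ : ∃ p, S.yP (S.R i) - S.yP i = p * (S.x (S.R i) - S.x i) :=
    ⟨_, (div_mul_cancel₀ _ hd0).symm⟩
  obtain ⟨r, hr⟩ : ∃ r, S.yO (S.R i) - S.yO i = r * (S.x (S.R i) - S.x i) :=
    ⟨_, (div_mul_cancel₀ _ hd0).symm⟩
  have c1 := a0.geo1_P (S.R i)
  have c2 := b0.geo1_P i
  have c3 := a0.geo1_O (S.R i)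
  have c4 := b0.geo1_O i
  rw [e2] at c2 c4
  have p1 : S.kP (S.R i) ≤ p := geo1_ge hd hp (by linarith [c2.1])
  have p2 : p ≤ S.kP i := geo1_le hd hp c1.1
  have r1 : S.kO i ≤ r := geo1_ge hd hr c3.1
  have r2 : r ≤ S.kO (S.R i) := geo1_le hd hr (by linarith [c4.1])
  have d1 := a0.ydiff
  have d2 := b0.ydiff
  rw [e2] at d2
  refine ⟨e1, e2, hx, geo1_abs hε hs rfl b1 a1 p1 p2 hl hle ?_,
    geo1_abs hε hs rfl a3 b3 r1 r2 hl hle ?_, hl, hle,
    ⟨p, hp, p1, p2, geo1_ge hd hp (by linarith [c2.2]), geo1_le hd hp c1.2⟩,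
    r, hr, r1, r2, geo1_ge hd hr c3.2, geo1_le hd hr (by linarith [c4.2])⟩
  · rw [hx] at hp
    rcases ht with c | c <;> rw [c] at hp hy d1 <;> linarith
  · generalize f (S.x (S.R i)) = F at d2 ⊢
    rw [hx] at hr
    rcases ht with c | c <;> rw [c] at hr hy d2 <;> linarith

theorem geo1_wP {s : ℝ} (hε : 0 < ε) (hs : 3 * ε ≤ s) {i j : I} (hi : S.InB s i) (hj : S.InB s j)
    (ht : S.t1 i = S.t1 j) (hx : S.x i ≤ S.x j) :
    2 / 3 * (S.x j - S.x i) ≤ w ε (S.P j) - w ε (S.P i) := by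
  obtain ⟨a0, a1, -⟩ := S.g1_of hε (by linarith) hi
  obtain ⟨b0, b1, -⟩ := S.g1_of hε (by linarith) hj
  have c1 := mul_nonpos_of_nonneg_of_nonpos hε.le (a0.geo1_P j).1
  have c2 := mul_nonpos_of_nonneg_of_nonpos hε.le (b0.geo1_P i).1
  have c3 := mul_le_mul_of_nonneg_right (geo1_eps hε hs a1) (sub_nonneg.2 hx)
  have c4 := mul_le_mul_of_nonneg_right (geo1_eps hε hs b1) (sub_nonneg.2 hx)
  rw [← ht] at c2
  change _ ≤ S.x j - ε * S.yP j - (S.x i - ε * S.yP i)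
  rcases a0.1.ht with c | c <;> rw [c] at c1 c2 <;> linarith

theorem geo1_wO {s : ℝ} (hε : 0 < ε) (hs : 3 * ε ≤ s) {i j : I} (hi : S.InB s i) (hj : S.InB s j)
    (ht : S.t1 i = S.t1 j) (hx : S.x i ≤ S.x j) :
    2 / 3 * (S.x j - S.x i) ≤ w ε (S.O j) - w ε (S.O i) := by
  obtain ⟨a0, -, -, a1, -⟩ := S.g1_of hε (by linarith) hi
  obtain ⟨b0, -, -, b1, -⟩ := S.g1_of hε (by linarith) hj
  have c1 := mul_nonneg hε.le (a0.geo1_O j).1
  have c2 := mul_nonneg hε.le (b0.geo1_O i).1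
  have c3 := mul_le_mul_of_nonneg_right (geo1_eps hε hs a1) (sub_nonneg.2 hx)
  have c4 := mul_le_mul_of_nonneg_right (geo1_eps hε hs b1) (sub_nonneg.2 hx)
  rw [← ht] at c2
  change _ ≤ (S.O j).1 - ε * S.yO j - ((S.O i).1 - ε * S.yO i)
  rw [S.xO, S.xO]
  rcases a0.1.ht with c | c <;> rw [c] at c1 c2 <;> linarith

theorem step {s : ℝ} (hε : 0 < ε) (hs : 4 * ε ≤ s) {j : I} (hj : S.InB s j) : S.StepF s j := by
  obtain ⟨n0, n1, n2⟩ := S.geo1_nb hε hj
  have h3 : 3 * ε ≤ s - ε := by linarith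
  obtain ⟨a0, a1, a2, a3, a4, -⟩ := S.g1_of hε (by linarith) n0
  obtain ⟨b1, b2, b3, b4, -, b6, b7, b8, b9⟩ := S.geo1_edge hε hs rfl n0 n1
  obtain ⟨c1, c2, c3, -, c5, c6, c7, c8, c9⟩ :=
    S.geo1_edge hε hs (S.R.apply_symm_apply j) n2 n0
  exact
    { g1 := a0
      g1R := (S.g1_of hε (by linarith) n1).1
      g1L := (S.g1_of hε (by linarith) n2).1
      g3 := S.geo1_g3 hε h3 n0
      g3L := S.geo1_g3 hε h3 n2
      t3 := b1
      t3L := c1.trans c2.symm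
      tR := b2
      tL := c2.symm
      xR := b3
      xL := by rw [c2]; exact c3
      hR := b4
      hL := c5
      h3pos := b6
      hpos := c6
      h3le := b7
      hle := c7
      wu := geo1_w hε h3 a0.1.hu a1
      wv := geo1_w hε h3 a0.1.hv a2
      wu' := geo1_w hε h3 a0.1.hu' a3
      wv' := geo1_w hε h3 a0.1.hv' a4
      sandP := b8
      sandO := b9
      sandPL := c8
      sandOL := c9 }

theorem Rmono {s : ℝ} (hε : 0 < ε) (hs : 4 * ε ≤ s) {i j : I} (hi : S.InB s i) (hj : S.InB s j)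
    (ht : S.t1 i = S.t1 j) (hx : S.x i < S.x j) : S.x (S.R i) < S.x (S.R j) := by
  by_contra hc
  have h1 := S.geo1_wO hε (by linarith) hi hj ht hx.le
  have h2 := S.geo1_wP hε (by linarith) (S.geo1_nb hε hj).2.1 (S.geo1_nb hε hi).2.1
    (((S.step hε hs hj).tR.trans ht.symm).trans (S.step hε hs hi).tR.symm) (not_lt.1 hc)
  rw [S.lev3, S.lev3] at h2
  linarith [not_lt.1 hc]

theorem Rmono_symm {s : ℝ} (hε : 0 < ε) (hs : 4 * ε ≤ s) {i j : I} (hi : S.InB s i)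
    (hj : S.InB s j) (ht : S.t1 i = S.t1 j) (hx : S.x i < S.x j) :
    S.x (S.R.symm i) < S.x (S.R.symm j) := by
  by_contra hc
  have h1 := S.geo1_wP hε (by linarith) hi hj ht hx.le
  have h2 := S.geo1_wO hε (by linarith) (S.geo1_nb hε hj).2.2 (S.geo1_nb hε hi).2.2
    (((S.step hε hs hj).tL.trans ht.symm).trans (S.step hε hs hi).tL.symm) (not_lt.1 hc)
  rw [← S.lev3, ← S.lev3, Equiv.apply_symm_apply, Equiv.apply_symm_apply] at h2
  linarith [not_lt.1 hc]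

end Sys

end XR
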