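import Pool.Agent.P.MP_408b1f_gt.FamA

/-! One-sided tangents.
tan_top: concavity gives the right derivative (ConvexOn.hasDerivWithinAt_rightDeriv_of_mem_interior
applied to - top) and the support inequality top s' <= top s + m (s' - s); o * det (e + m d) (X - p)
= hgt difference - m * lev difference (Frame.det_eq). The dual property: e + m d is the limit of
difference quotients of points of K.
exists_tan: take an interior point c and a frame with d = p - c and orientation o; p is the top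
point at an inner level.
tan_unique: use the covector X to o * det tau X (a dot product) in the dual property of the other
vector, both ways, so det = 0; opposite directions would put K in a line.
smooth_x: p is top or bottom over x; top K = bot K + f with top concave, bot convex and f
differentiable at x forces both differentiable at x (one sided derivatives); a supporting covector
has a local maximum along the graph so it kills (1, derivative). smooth_y by Fam.swap or directly.
inner_of_smooth: first the entering lemma: if K is smooth at z with tangent u and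
o * det u eta < 0 then z + t eta ∈ K for small t > 0 (otherwise the ray misses interior K; separate
it from interior K by geometric_hahn_banach_open; the separating covector supports K at z, kills u,
hence is a positive multiple of o * det u, and is >= 0 on eta: contradiction). Take d with
dot alpha d = 0, d = (alpha.2, -alpha.1) or its negative, so that det u d = plus or minus dot alpha u;
since dot alpha u and dot alpha v have the same sign one of d, -d is inner for both; perturb it by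
small multiples of alpha in both directions. -/

open Set MeasureTheory Filter Topology

noncomputable section

namespace XR

variable {K L : Set V}

/-- the covector `X ↦ o * det τ X` -/
def tanPerp (o : ℝ) (τ : V) : V := (-(o * τ.2), o * τ.1)

theorem tan_dot_perp (o : ℝ) (τ X : V) : dot (tanPerp o τ) X = o * det τ X := by
  simp only [dot, tanPerp, det]; ring

theorem tan_sq_pos {τ : V} (h : τ ≠ 0) : 0 < τ.1 ^ 2 + τ.2 ^ 2 := by
  by_contra hc
  apply h
  have h1 : τ.1 = 0 := by nlinarith [sq_nonneg τ.1, sq_nonneg τ.2]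
  have h2 : τ.2 = 0 := by nlinarith [sq_nonneg τ.1, sq_nonneg τ.2]
  exact Prod.ext h1 h2

theorem tan_perp_ne {o : ℝ} (ho : o = 1 ∨ o = -1) {τ : V} (h : τ ≠ 0) : tanPerp o τ ≠ 0 := by
  intro h0
  have h1 := congrArg Prod.fst h0
  have h2 := congrArg Prod.snd h0
  simp only [tanPerp, Prod.fst_zero, Prod.snd_zero] at h1 h2
  apply h
  rcases ho with rfl | rfl
  · exact Prod.ext (by simpa using h2) (by simpa using h1)
  · exact Prod.ext (by simpa using h2) (by simpa using h1)

theorem tan_par {u v : V} (hu : u ≠ 0) (h : det u v = 0) : ∃ l : ℝ, v = l • u := by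
  have hp := tan_sq_pos hu
  simp only [det] at h
  refine ⟨(u.1 * v.1 + u.2 * v.2) / (u.1 ^ 2 + u.2 ^ 2), Prod.ext ?_ ?_⟩
  · simp only [Prod.smul_fst, smul_eq_mul]
    field_simp
    linear_combination (-u.2) * h
  · simp only [Prod.smul_snd, smul_eq_mul]
    field_simp
    linear_combination u.1 * h

theorem tan_strict {p c α : V} (hc : c ∈ interior K) (hα : α ≠ 0)
    (h : ∀ X ∈ K, dot α (X - p) ≤ 0) : dot α (c - p) < 0 := by
  have hcont : Continuous fun t : ℝ => c + t • α := by fun_prop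
  have h1 : ∀ᶠ t in 𝓝 (0:ℝ), c + t • α ∈ interior K := by
    apply hcont.continuousAt.eventually_mem
    apply isOpen_interior.mem_nhds
    simpa using hc
  have h2 : ∀ᶠ t in 𝓝[>] (0:ℝ), c + t • α ∈ interior K := h1.filter_mono nhdsWithin_le_nhds
  obtain ⟨t, ht, ht0⟩ := (h2.and self_mem_nhdsWithin).exists
  have ht1 : 0 < t := ht0
  have h3 := h _ (interior_subset ht)
  have h4 := mul_pos ht1 (tan_sq_pos hα)
  simp only [dot, Prod.fst_sub, Prod.snd_sub, Prod.fst_add, Prod.snd_add, Prod.smul_fst,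
    Prod.smul_snd, smul_eq_mul] at h3 ⊢
  nlinarith

theorem tan_strict' {p c τ : V} {o : ℝ} (ho : o = 1 ∨ o = -1) (hc : c ∈ interior K)
    (h : IsTan o K p τ) : o * det τ (c - p) < 0 := by
  rw [← tan_dot_perp]
  refine tan_strict hc (tan_perp_ne ho h.ne) ?_
  intro X hX
  rw [tan_dot_perp]
  exact h.supp X hX

theorem tan_dot_pt (F : Frame) (α : V) (s t s' t' : ℝ) :
    dot α (F.pt s' t' - F.pt s t) = (s' - s) * dot α F.e + (t' - t) * dot α F.d := by
  simp only [dot, Frame.pt, Prod.fst_sub, Prod.snd_sub, Prod.fst_add, Prod.snd_add, Prod.smul_fst,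
    Prod.smul_snd, smul_eq_mul]
  ring

theorem tan_dot_ed (F : Frame) (α : V) (m : ℝ) :
    dot α (F.e + m • F.d) = dot α F.e + m * dot α F.d := by
  simp only [dot, Prod.fst_add, Prod.snd_add, Prod.smul_fst, Prod.smul_snd, smul_eq_mul]
  ring

theorem tan_ed_ne (F : Frame) (m : ℝ) : F.e + m • F.d ≠ 0 := by
  intro h
  have h1 : F.lev (F.e + m • F.d) = 1 := by
    rw [F.lev_add, F.lev_smul, F.lev_e, F.lev_d]; ring
  rw [h] at h1
  simp [Frame.lev, det] at h1

theorem tan_top (F : Frame) (hK : Body K) {s : ℝ} (hs : s ∈ Ioo (F.lo K) (F.hi K)) :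
    ∃ m, HasDerivWithinAt (F.top K) m (Ioi s) s ∧ SGon (F.top K) (F.lo K) (F.hi K) s m ∧
      IsTan F.o K (F.pt s (F.top K s)) (F.e + m • F.d) := by
  have hc : ConvexOn ℝ (Icc (F.lo K) (F.hi K)) (-F.top K) := (F.concaveOn_top hK).neg
  have hsi : s ∈ interior (Icc (F.lo K) (F.hi K)) := by rwa [interior_Icc]
  have hd := hc.hasDerivWithinAt_rightDeriv_of_mem_interior hsi
  have hlr := hc.leftDeriv_le_rightDeriv_of_mem_interior hsi
  have hR := fun (y : ℝ) (hy : y ∈ Icc (F.lo K) (F.hi K)) (hxy : s < y) =>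
    hc.rightDeriv_le_slope_of_mem_interior hsi hy hxy
  have hL := fun (y : ℝ) (hy : y ∈ Icc (F.lo K) (F.hi K)) (hxy : y < s) =>
    (hc.slope_le_leftDeriv_of_mem_interior hy hsi hxy).trans hlr
  generalize derivWithin (-F.top K) (Ioi s) s = r at hd hR hL
  have hd' : HasDerivWithinAt (F.top K) (-r) (Ioi s) s := by
    have := hd.neg
    rwa [neg_neg] at this
  have hsg : SGon (F.top K) (F.lo K) (F.hi K) s (-r) := by
    intro y hy
    rcases lt_trichotomy y s with h | h | h
    · have h1 := hL y hy h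
      rw [slope_def_field, div_le_iff₀ (sub_pos.2 h)] at h1
      simp only [Pi.neg_apply] at h1
      linarith
    · rw [h]; simp
    · have h1 := hR y hy h
      rw [slope_def_field, le_div_iff₀ (sub_pos.2 h)] at h1
      simp only [Pi.neg_apply] at h1
      linarith
  refine ⟨-r, hd', hsg, tan_ed_ne F _, ?_, ?_⟩
  · intro X hX
    obtain ⟨h1, -, h3⟩ := (F.mem_iff hK X).1 hX
    have h4 := hsg _ h1
    rw [F.det_eq, ← mul_assoc, F.o_sq, one_mul, F.lev_add, F.hgt_add, F.lev_smul, F.hgt_smul,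
      F.lev_sub, F.hgt_sub, F.lev_e, F.hgt_e, F.lev_d, F.hgt_d, F.lev_pt, F.hgt_pt]
    linarith
  · intro α hα
    rw [tan_dot_ed]
    have ht := (hasDerivWithinAt_iff_tendsto_slope' (show s ∉ Ioi s by simp)).1 hd'
    have ht2 : Tendsto (fun y => dot α F.e + slope (F.top K) s y * dot α F.d) (𝓝[Ioi s] s)
        (𝓝 (dot α F.e + -r * dot α F.d)) := (ht.mul_const _).const_add _
    refine le_of_tendsto ht2 ?_
    filter_upwards [Ioo_mem_nhdsGT hs.2] with y hy
    have hyI : y ∈ Icc (F.lo K) (F.hi K) := ⟨(hs.1.trans hy.1).le, hy.2.le⟩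
    have hm : F.pt y (F.top K y) ∈ K := (F.pt_mem_iff hK hyI _).2 ⟨F.bot_le_top hK hyI, le_rfl⟩
    have h1 := hα _ hm
    rw [tan_dot_pt] at h1
    have hpos : 0 < y - s := sub_pos.2 hy.1
    rw [slope_def_field]
    have e : dot α F.e + (F.top K y - F.top K s) / (y - s) * dot α F.d
        = ((y - s) * dot α F.e + (F.top K y - F.top K s) * dot α F.d) / (y - s) := by
      field_simp
    rw [e]
    exact div_nonpos_of_nonpos_of_nonneg h1 hpos.le

theorem exists_tan (hK : Body K) {p : V} (hp : p ∈ K) (hp' : p ∉ interior K) {o : ℝ}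
    (ho : o = 1 ∨ o = -1) : ∃ τ, IsTan o K p τ := by
  obtain ⟨c, hc⟩ := hK.int
  have hd : p - c ≠ 0 := by
    intro h
    rw [sub_eq_zero] at h
    exact hp' (h ▸ hc)
  have hpos := tan_sq_pos hd
  let F : Frame := ⟨(o * (p - c).2 / ((p - c).1 ^ 2 + (p - c).2 ^ 2),
    -(o * (p - c).1 / ((p - c).1 ^ 2 + (p - c).2 ^ 2))), p - c, o, ho, by
      simp only [det]
      field_simp
      ring⟩
  have hFd : F.d = p - c := rfl
  have hFo : F.o = o := rfl
  have h1 : F.lev p = F.lev c := by
    have := F.lev_d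
    rw [hFd, F.lev_sub] at this
    linarith
  have h2 : F.hgt p = F.hgt c + 1 := by
    have := F.hgt_d
    rw [hFd, F.hgt_sub] at this
    linarith
  obtain ⟨c1, c2, -⟩ := (F.mem_interior_iff hK c).1 hc
  rw [← h1] at c1 c2
  have h3 : F.hgt p = F.top K (F.lev p) := by
    rcases F.top_or_bot hK hp hp' c1 with h | h
    · exact h
    · linarith
  obtain ⟨m, -, -, h4⟩ := tan_top F hK c1
  rw [← h3, F.pt_lev_hgt, hFo] at h4
  exact ⟨_, h4⟩

theorem tan_parallel_aux (hM : (interior (K ∩ L)).Nonempty) {p u v : V} {o : ℝ}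
    (ho : o = 1 ∨ o = -1) (hu : IsTan o K p u) (hv : IsTan o L p v) (h : det u v = 0) :
    ∃ l : ℝ, 0 < l ∧ v = l • u := by
  obtain ⟨c, hc⟩ := hM
  rw [interior_inter] at hc
  obtain ⟨l, hl⟩ := tan_par hu.ne h
  have h1 := tan_strict' ho hc.1 hu
  have h2 := tan_strict' ho hc.2 hv
  have h3 : o * det v (c - p) = l * (o * det u (c - p)) := by
    rw [hl]
    simp only [det, Prod.smul_fst, Prod.smul_snd, smul_eq_mul]
    ring
  refine ⟨l, ?_, hl⟩
  rw [h3] at h2
  by_contra hc'
  have := mul_nonneg_of_nonpos_of_nonpos (not_lt.1 hc') h1.le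
  linarith

theorem tan_unique (hK : Body K) {p τ τ' : V} {o : ℝ} (ho : o = 1 ∨ o = -1)
    (h : IsTan o K p τ) (h' : IsTan o K p τ') : ∃ l : ℝ, 0 < l ∧ τ' = l • τ := by
  have h1 := h'.dual (tanPerp o τ) (fun X hX => by rw [tan_dot_perp]; exact h.supp X hX)
  have h2 := h.dual (tanPerp o τ') (fun X hX => by rw [tan_dot_perp]; exact h'.supp X hX)
  rw [tan_dot_perp] at h1 h2
  have h3 : det τ' τ = -det τ τ' := by simp only [det]; ring
  rw [h3] at h2
  have h4 : det τ τ' = 0 := by
    rcases ho with rfl | rfl <;> linarith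
  exact tan_parallel_aux (L := K) (by rw [inter_self]; exact hK.int) ho h h' h4

theorem IsTan.smul {p τ : V} {o l : ℝ} (h : IsTan o K p τ) (hl : 0 < l) :
    IsTan o K p (l • τ) := by
  refine ⟨smul_ne_zero hl.ne' h.ne, ?_, ?_⟩
  · intro X hX
    have h1 : o * det (l • τ) (X - p) = l * (o * det τ (X - p)) := by
      simp only [det, Prod.smul_fst, Prod.smul_snd, smul_eq_mul]
      ring
    rw [h1]
    exact mul_nonpos_of_nonneg_of_nonpos hl.le (h.supp X hX)
  · intro α hα
    have h1 : dot α (l • τ) = l * dot α τ := by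
      simp only [dot, Prod.smul_fst, Prod.smul_snd, smul_eq_mul]
      ring
    rw [h1]
    exact mul_nonpos_of_nonneg_of_nonpos hl.le (h.dual α hα)

/-- parallel tangents of two bodies with a common interior point have the same direction -/
theorem tan_parallel (hM : (interior (K ∩ L)).Nonempty) {p u v : V} {o : ℝ}
    (ho : o = 1 ∨ o = -1) (hu : IsTan o K p u) (hv : IsTan o L p v) (h : det u v = 0) :
    ∃ l : ℝ, 0 < l ∧ v = l • u := tan_parallel_aux hM ho hu hv h

theorem IsTan.not_interior {p τ : V} {o : ℝ} (ho : o = 1 ∨ o = -1) (h : IsTan o K p τ) :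
    p ∉ interior K := by
  intro hp
  have := tan_strict' ho hp h
  simp [det] at this

theorem tan_smooth_top (F : Frame) (hK : Body K) {s : ℝ} (hs : s ∈ Ioo (F.lo K) (F.hi K))
    {φ : ℝ → ℝ} (hd : DifferentiableAt ℝ φ s)
    (hφ : ∀ y ∈ Icc (F.lo K) (F.hi K), F.len K y = φ y) : Smooth K (F.pt s (F.top K s)) := by
  have hs' : s ∈ Ioo (F.flip.lo K) (F.flip.hi K) := by rwa [F.flip_lo, F.flip_hi]
  obtain ⟨n, -, hn, -⟩ := tan_top F.flip hK hs'
  rw [F.flip_lo, F.flip_hi] at hn
  have hsI : s ∈ Icc (F.lo K) (F.hi K) := Ioo_subset_Icc_self hs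
  refine ⟨F.e + (deriv φ s - n) • F.d, tan_ed_ne F _, ?_⟩
  intro α hα
  rw [tan_dot_ed]
  have hA : 0 ≤ dot α F.d := by
    have hm : F.pt s (F.bot K s) ∈ K := (F.pt_mem_iff hK hsI _).2 ⟨le_rfl, F.bot_le_top hK hsI⟩
    have h1 := hα _ hm
    rw [tan_dot_pt] at h1
    have h2 := F.bot_lt_top hK hs
    by_contra hc
    have := mul_pos_of_neg_of_neg (sub_neg.2 h2) (not_le.1 hc)
    linarith
  have hG : HasDerivAt (fun y => (y - s) * dot α F.e + (φ y - φ s - n * (y - s)) * dot α F.d)
      (1 * dot α F.e + (deriv φ s - n * 1) * dot α F.d) s :=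
    (((hasDerivAt_id s).sub_const s).mul_const _).add
      (((hd.hasDerivAt.sub_const _).sub (((hasDerivAt_id s).sub_const s).const_mul n)).mul_const _)
  have hmax : IsLocalMax
      (fun y => (y - s) * dot α F.e + (φ y - φ s - n * (y - s)) * dot α F.d) s := by
    filter_upwards [Icc_mem_nhds hs.1 hs.2] with y hy
    have hm : F.pt y (F.top K y) ∈ K := (F.pt_mem_iff hK hy _).2 ⟨F.bot_le_top hK hy, le_rfl⟩
    have h1 := hα _ hm
    rw [tan_dot_pt] at h1
    have h2 := hn y hy
    rw [F.flip_top, F.flip_top] at h2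
    have h3 := hφ y hy
    have h4 := hφ s hsI
    simp only [Frame.len] at h3 h4
    have h5 : φ y - φ s - n * (y - s) ≤ F.top K y - F.top K s := by linarith
    have h6 := mul_le_mul_of_nonneg_right h5 hA
    simp only [sub_self, zero_mul, mul_zero, add_zero]
    linarith
  have := hmax.hasDerivAt_eq_zero hG
  linarith

theorem tan_smooth_frame (F : Frame) (hK : Body K) {p : V} (hp : p ∈ K) (hp' : p ∉ interior K)
    (hs : F.lev p ∈ Ioo (F.lo K) (F.hi K)) {φ : ℝ → ℝ} (hd : DifferentiableAt ℝ φ (F.lev p))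
    (hφ : ∀ y ∈ Icc (F.lo K) (F.hi K), F.len K y = φ y) : Smooth K p := by
  rcases F.top_or_bot hK hp hp' hs with h | h
  · have := tan_smooth_top F hK hs hd hφ
    rwa [← h, F.pt_lev_hgt] at this
  · have hs' : F.lev p ∈ Ioo (F.flip.lo K) (F.flip.hi K) := by rwa [F.flip_lo, F.flip_hi]
    have := tan_smooth_top F.flip hK hs' hd (by
      intro y hy
      rw [F.flip_lo, F.flip_hi] at hy
      rw [F.flip_len]
      exact hφ y hy)
    rwa [F.flip_top, F.flip_pt, neg_neg, ← h, F.pt_lev_hgt] at this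

theorem smooth_x {f g : ℝ → ℝ} (hK : Fam f g K) {p : V} (hp : p ∈ K) (hp' : p ∉ interior K)
    (hx : p.1 ∈ Ioo (0:ℝ) 1) (hd : DifferentiableAt ℝ f p.1) : Smooth K p := by
  refine tan_smooth_frame F1 hK.body hp hp' ?_ (φ := f) ?_ ?_
  · rwa [hK.F1_lo, hK.F1_hi, F1_lev]
  · rwa [F1_lev]
  · intro y hy
    rw [hK.F1_lo, hK.F1_hi] at hy
    exact hK.F1_len hy

theorem smooth_y {f g : ℝ → ℝ} (hK : Fam f g K) {p : V} (hp : p ∈ K) (hp' : p ∉ interior K)
    (hy : p.2 ∈ Ioo (0:ℝ) 1) (hd : DifferentiableAt ℝ g p.2) : Smooth K p := by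
  refine tan_smooth_frame F2 hK.body hp hp' ?_ (φ := g) ?_ ?_
  · rwa [hK.F2_lo, hK.F2_hi, F2_lev]
  · rwa [F2_lev]
  · intro y hy
    rw [hK.F2_lo, hK.F2_hi] at hy
    exact hK.F2_len hy

theorem tan_kill_aux {p u : V} (hs : Smooth K p) {β : V} (hβ0 : β ≠ 0)
    (hβ : ∀ X ∈ K, dot β (X - p) ≤ 0) (hu : dot β u = 0)
    {α : V} (hα : ∀ X ∈ K, dot α (X - p) ≤ 0) : dot α u = 0 := by
  obtain ⟨τ, hτ, h⟩ := hs
  have h1 := h β hβ
  have h2 := h α hα
  have h3 : det τ u = 0 := by
    have hp := tan_sq_pos hβ0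
    simp only [dot, det] at h1 hu ⊢
    have : (β.1 ^ 2 + β.2 ^ 2) * (τ.1 * u.2 - τ.2 * u.1) = 0 := by
      linear_combination (β.1 * u.2 - β.2 * u.1) * h1 - (β.1 * τ.2 - β.2 * τ.1) * hu
    exact (mul_eq_zero.1 this).resolve_left hp.ne'
  obtain ⟨l, hl⟩ := tan_par hτ h3
  rw [hl]
  simp only [dot, Prod.smul_fst, Prod.smul_snd, smul_eq_mul] at h2 ⊢
  linear_combination l * h2

theorem Smooth.kill {p u : V} {o : ℝ} (hs : Smooth K p) (ho : o = 1 ∨ o = -1)
    (hu : IsTan o K p u) {α : V} (hα : ∀ X ∈ K, dot α (X - p) ≤ 0) : dot α u = 0 := by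
  refine tan_kill_aux hs (tan_perp_ne ho hu.ne)
    (fun X hX => by rw [tan_dot_perp]; exact hu.supp X hX) ?_ hα
  rw [tan_dot_perp]
  simp only [det]
  ring

theorem Smooth.opp (hK : Body K) {p u u' : V} (hs : Smooth K p) (hu : IsTan 1 K p u)
    (hu' : IsTan (-1) K p u') : ∃ l : ℝ, 0 < l ∧ u' = -(l • u) := by
  have h1 := hs.kill (Or.inr rfl) hu' (α := tanPerp 1 u)
    (fun X hX => by rw [tan_dot_perp]; exact hu.supp X hX)
  rw [tan_dot_perp, one_mul] at h1
  obtain ⟨l, hl⟩ := tan_par hu.ne h1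
  obtain ⟨c, hc⟩ := hK.int
  have h2 := tan_strict' (Or.inl rfl) hc hu
  have h3 := tan_strict' (Or.inr rfl) hc hu'
  have h4 : -1 * det u' (c - p) = (-l) * (1 * det u (c - p)) := by
    rw [hl]
    simp only [det, Prod.smul_fst, Prod.smul_snd, smul_eq_mul]
    ring
  refine ⟨-l, ?_, by rw [hl, neg_smul, neg_neg]⟩
  rw [h4] at h3
  by_contra hc'
  have := mul_nonneg_of_nonpos_of_nonpos (not_lt.1 hc') h2.le
  linarith

theorem tan_enter (hK : Body K) {z u η : V} {o : ℝ} (ho : o = 1 ∨ o = -1) (hz : z ∈ K)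
    (hs : Smooth K z) (hu : IsTan o K z u) (hη : o * det u η < 0) :
    ∀ᶠ t in 𝓝[>] (0:ℝ), z + t • η ∈ K := by
  have key : ∃ t : ℝ, 0 ≤ t ∧ z + t • η ∈ interior K := by
    by_contra hc
    push Not at hc
    have hR : Convex ℝ {X : V | ∃ t : ℝ, 0 ≤ t ∧ X = z + t • η} := by
      rintro _ ⟨s, hs0, rfl⟩ _ ⟨t, ht0, rfl⟩ a b ha hb hab
      refine ⟨a * s + b * t, by positivity, ?_⟩
      have : z = (a + b) • z := by rw [hab, one_smul]
      conv_rhs => rw [this]
      simp only [smul_add, add_smul, smul_smul]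
      abel
    have hdis : Disjoint (interior K) {X : V | ∃ t : ℝ, 0 ≤ t ∧ X = z + t • η} := by
      rw [Set.disjoint_left]
      rintro _ hX ⟨t, ht, rfl⟩
      exact hc t ht hX
    obtain ⟨φ, c0, h1, h2⟩ := geometric_hahn_banach_open hK.conv.interior isOpen_interior hR hdis
    have hφ : ∀ X : V, φ X = dot (φ (1, 0), φ (0, 1)) X := by
      intro X
      have : X = X.1 • ((1, 0) : V) + X.2 • ((0, 1) : V) := by ext <;> simp
      conv_lhs => rw [this]
      rw [map_add, map_smul, map_smul]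
      simp only [dot, smul_eq_mul]
      ring
    generalize (φ (1, 0), φ (0, 1)) = α at hφ
    have hz0 : c0 ≤ φ z := h2 z ⟨0, le_rfl, by simp⟩
    have hη0 : 0 ≤ φ η := by
      by_contra hn
      have hn' : 0 < -φ η := by linarith [not_le.1 hn]
      have h3 := h2 _ ⟨(φ z - c0 + 1) / (-φ η), div_nonneg (by linarith) hn'.le, rfl⟩
      rw [map_add, map_smul, smul_eq_mul] at h3
      have h4 : (φ z - c0 + 1) / (-φ η) * φ η = -(φ z - c0 + 1) := by
        have h5 := div_mul_cancel₀ (φ z - c0 + 1) hn'.ne'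
        linarith
      linarith
    have hcl : ∀ X ∈ K, φ X ≤ c0 := by
      intro X hX
      have h3 : X ∈ closure (interior K) := by
        rw [hK.conv.closure_interior_eq_closure_of_nonempty_interior hK.int]
        exact subset_closure hX
      exact closure_minimal (t := {Y | φ Y ≤ c0}) (fun Y hY => (h1 Y hY).le)
        (isClosed_le φ.continuous continuous_const) h3
    have hsupp : ∀ X ∈ K, dot α (X - z) ≤ 0 := by
      intro X hX
      rw [← hφ, map_sub]
      linarith [hcl X hX]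
    have hk := hs.kill ho hu hsupp
    have hdet : det (tanPerp o u) α = 0 := by
      simp only [det, dot, tanPerp] at hk ⊢
      linear_combination (-o) * hk
    obtain ⟨μ, hμ⟩ := tan_par (tan_perp_ne ho hu.ne) hdet
    have hdot : ∀ X : V, φ X = μ * (o * det u X) := by
      intro X
      rw [hφ, hμ, ← tan_dot_perp]
      simp only [dot, Prod.smul_fst, Prod.smul_snd, smul_eq_mul]
      ring
    obtain ⟨c, hc'⟩ := hK.int
    have h5 := tan_strict' ho hc' hu
    have h6 : φ (c - z) < 0 := by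
      rw [map_sub]
      linarith [h1 c hc']
    rw [hdot] at h6 hη0
    have hμ0 : 0 < μ := by
      by_contra hn
      have := mul_nonneg_of_nonpos_of_nonpos (not_lt.1 hn) h5.le
      linarith
    have := mul_neg_of_pos_of_neg hμ0 hη
    linarith
  obtain ⟨t, ht, hm⟩ := key
  have ht0 : 0 < t := by
    rcases ht.lt_or_eq with h | h
    · exact h
    · exfalso
      rw [← h, zero_smul, add_zero] at hm
      exact hu.not_interior ho hm
  filter_upwards [Ioo_mem_nhdsGT ht0] with r hr
  have := hK.conv.add_smul_mem hz (interior_subset hm)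
    (t := r / t) ⟨div_nonneg hr.1.le ht, (div_le_one ht0).2 hr.2.le⟩
  rwa [smul_smul, div_mul_cancel₀ _ ht0.ne'] at this

theorem inner_of_smooth (hK : Body K) (hL : Body L) {z u v α : V} {o : ℝ}
    (ho : o = 1 ∨ o = -1) (hzK : z ∈ K) (hzL : z ∈ L) (hsK : Smooth K z) (hsL : Smooth L z)
    (hu : IsTan o K z u) (hv : IsTan o L z v) {a : V → ℝ} (ha : ∀ p, a p = dot α p)
    (hpos : 0 < a u * a v) : Inner (K ∩ L) a z := by
  rw [ha, ha] at hpos
  have hoo : o * o = 1 := by rcases ho with rfl | rfl <;> norm_num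
  have hα : α ≠ 0 := by
    rintro rfl
    simp [dot] at hpos
  have hsq := tan_sq_pos hα
  obtain ⟨σ, hσu, hσv⟩ : ∃ σ : ℝ, 0 < σ * dot α u ∧ 0 < σ * dot α v := by
    rcases pos_and_pos_or_neg_and_neg_of_mul_pos hpos with h | h
    · exact ⟨1, by linarith [h.1], by linarith [h.2]⟩
    · exact ⟨-1, by linarith [h.1], by linarith [h.2]⟩
  have hev : ∀ y : V, 0 < σ * dot α y → ∀ᶠ δ in 𝓝 (0:ℝ),
      o * det y ((o * σ) • ((α.2, -α.1) : V) + δ • α) < 0 := by
    intro y hy
    have hcont : Continuous fun δ : ℝ => o * det y ((o * σ) • ((α.2, -α.1) : V) + δ • α) := by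
      unfold det
      fun_prop
    apply hcont.continuousAt.eventually_lt continuousAt_const
    simp only [det, dot, zero_smul, add_zero, Prod.smul_fst, Prod.smul_snd, smul_eq_mul] at hy ⊢
    have : o * (y.1 * (o * σ * -α.1) - y.2 * (o * σ * α.2))
        = -((o * o) * (σ * (α.1 * y.1 + α.2 * y.2))) := by ring
    rw [this, hoo]
    linarith
  have main : ∀ δ : ℝ, o * det u ((o * σ) • ((α.2, -α.1) : V) + δ • α) < 0 →
      o * det v ((o * σ) • ((α.2, -α.1) : V) + δ • α) < 0 →
      ∃ t : ℝ, 0 < t ∧ ∃ p ∈ K ∩ L, a p = a z + t * δ * (α.1 ^ 2 + α.2 ^ 2) := by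
    intro δ h1 h2
    have e1 := tan_enter hK ho hzK hsK hu h1
    have e2 := tan_enter hL ho hzL hsL hv h2
    obtain ⟨t, ⟨m1, m2⟩, ht⟩ := ((e1.and e2).and self_mem_nhdsWithin).exists
    refine ⟨t, ht, _, ⟨m1, m2⟩, ?_⟩
    rw [ha, ha]
    simp only [dot, Prod.fst_add, Prod.snd_add, Prod.smul_fst, Prod.smul_snd, smul_eq_mul]
    ring
  have hb := (hev u hσu).and (hev v hσv)
  constructor
  · obtain ⟨δ, ⟨h1, h2⟩, hδ⟩ :=
      ((hb.filter_mono (nhdsWithin_le_nhds (s := Iio 0))).and self_mem_nhdsWithin).exists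
    obtain ⟨t, ht, p, hp, e⟩ := main δ h1 h2
    have hδ' : δ < 0 := hδ
    have := mul_neg_of_neg_of_pos (mul_neg_of_pos_of_neg ht hδ') hsq
    exact ⟨p, hp, by linarith⟩
  · obtain ⟨δ, ⟨h1, h2⟩, hδ⟩ :=
      ((hb.filter_mono (nhdsWithin_le_nhds (s := Ioi 0))).and self_mem_nhdsWithin).exists
    obtain ⟨t, ht, p, hp, e⟩ := main δ h1 h2
    have hδ' : 0 < δ := hδ
    have := mul_pos (mul_pos ht hδ') hsq
    exact ⟨p, hp, by linarith⟩

end XR
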