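import Pool.Agent.P.MP_408b1f_gt.Defs2
import Pool.Agent.P.MP_408b1f_gt.Tan
import Pool.Agent.P.MP_408b1f_gt.EdgeTan

/-! Local geometry of a flag system (explicit constants). Everything follows from the fields of
Sys: the support inequalities of the tangents (tanPK.supp etc: det (u j) (X - P j) <= 0 for X in K,
det (u' j) (X - O j) >= 0) tested on suitable points of K or L (Fam.exL, exR, exT, exB, other
flag points, which all lie in K ∩ L), the fields hMl, hMr, hMb, hMt for genuineness (Inner), and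
the Gen data. For t1 j = -1 either argue directly (divide by the negative first coordinate) or use
S.neg (SysNeg simp lemmas).
uniq_top: two different points at the maximal height y of K ∩ L: if y = 1 use hdist and g 1 = 0;
y > 0 since K ∩ L has interior; if 0 < y < 1 their midpoint is interior to K and L
(F2.mem_interior_iff), so higher points exist. -/

open Set MeasureTheory Filter Topology

noncomputable section

namespace XR

variable {f g : ℝ → ℝ} {ε : ℝ} {I : Type}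

theorem geo1a_alg {o A B c c' x a : ℝ} (ho : o = 1 ∨ o = -1) (hc : |c| ≤ 1) (hc' : |c'| ≤ 1)
    (hx : a ≤ x ∧ x ≤ 1 - a) (h : o * (A * c + B * x) ≤ 0) (h' : o * (A * c' - B * (1 - x)) ≤ 0) :
    a * |B| ≤ |A| := by
  have h1 := abs_le.1 ((abs_mul A c).trans_le (mul_le_of_le_one_right (abs_nonneg A) hc))
  have h2 := abs_le.1 ((abs_mul A c').trans_le (mul_le_of_le_one_right (abs_nonneg A) hc'))
  rcases ho with rfl | rfl <;> rcases abs_cases B with h3 | h3 <;> rw [h3.1] <;>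
    nlinarith [h1.1, h1.2, h2.1, h2.2, hx.1, hx.2, h3.2]

theorem geo1a_x {K : Set V} (hK : Fam f g K) {o a : ℝ} (ho : o = 1 ∨ o = -1) {p τ : V}
    (hp : p ∈ K) (h : IsTan o K p τ) (hx : a ≤ p.1 ∧ p.1 ≤ 1 - a) : a * |τ.2| ≤ |τ.1| := by
  obtain ⟨c, hc⟩ := hK.exL
  obtain ⟨c', hc'⟩ := hK.exR
  have h1 := h.supp _ hc
  have h2 := h.supp _ hc'
  obtain ⟨-, -, h3, h4⟩ := hK.box _ hc
  obtain ⟨-, -, h5, h6⟩ := hK.box _ hc'
  obtain ⟨-, -, h7, h8⟩ := hK.box _ hp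
  simp only [det, Prod.fst_sub, Prod.snd_sub] at h1 h2 h3 h4 h5 h6
  exact geo1a_alg (c := c - p.2) (c' := c' - p.2) ho (abs_le.2 ⟨by linarith, by linarith⟩)
    (abs_le.2 ⟨by linarith, by linarith⟩) hx (by linarith) h2

theorem geo1a_y {K : Set V} (hK : Fam f g K) {o a : ℝ} (ho : o = 1 ∨ o = -1) {p τ : V}
    (hp : p ∈ K) (h : IsTan o K p τ) (hx : a ≤ p.2 ∧ p.2 ≤ 1 - a) : a * |τ.1| ≤ |τ.2| := by
  obtain ⟨c, hc⟩ := hK.exB
  obtain ⟨c', hc'⟩ := hK.exT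
  have h1 := h.supp _ hc
  have h2 := h.supp _ hc'
  obtain ⟨h3, h4, -⟩ := hK.box _ hc
  obtain ⟨h5, h6, -⟩ := hK.box _ hc'
  obtain ⟨h7, h8, -⟩ := hK.box _ hp
  simp only [det, Prod.fst_sub, Prod.snd_sub] at h1 h2 h3 h4 h5 h6
  exact geo1a_alg (o := -o) (c := c - p.1) (c' := c' - p.1) (by rcases ho with rfl | rfl <;> simp)
    (abs_le.2 ⟨by linarith, by linarith⟩) (abs_le.2 ⟨by linarith, by linarith⟩) hx (by linarith)
    (by linarith)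

theorem geo1a_div {a A B : ℝ} (ha : 0 < a) (h : a * |B| ≤ |A|) : |B / A| ≤ 1 / a := by
  rw [abs_div]
  refine div_le_of_le_mul₀ (abs_nonneg A) (by positivity) ?_
  rwa [one_div, le_inv_mul_iff₀ ha]

theorem geo1a_sg {K : Set V} (hK : Fam f g K) {x m a : ℝ} (h : SG f x m) (ha : 0 < a)
    (hx : a ≤ x ∧ x ≤ 1 - a) : |m| ≤ 1 / a := by
  have h1 := h 0 ⟨le_rfl, zero_le_one⟩
  have h2 := h 1 ⟨zero_le_one, le_rfl⟩
  have h3 := (hK.vert 0 ⟨le_rfl, zero_le_one⟩).1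
  have h4 := (hK.vert 1 ⟨zero_le_one, le_rfl⟩).1
  have h5 := hK.le_one x ⟨by linarith [hx.1], by linarith [hx.2]⟩
  rw [le_div_iff₀ ha]
  rcases abs_cases m with h6 | h6 <;> rw [h6.1] <;> nlinarith [hx.1, hx.2, h6.2]

theorem geo1a_raise {K L : Set V} (hK : Fam f g K) (hL : Fam f g L) {a b c : ℝ} (ha : (a, c) ∈ K)
    (hb : (b, c) ∈ L) {p q : V} (hp : p ∈ K ∩ L) (hq : q ∈ K ∩ L) (he : p.2 = q.2)
    (h : p.1 < q.1) : ∃ τ, 0 < τ ∧ ∃ z ∈ K ∩ L, z.2 = p.2 + τ * (c - p.2) := by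
  have h0 : 0 < q.1 - p.1 := sub_pos.2 h
  have h1 : 0 < 1 + (q.1 - p.1) := by linarith
  have hτ : (q.1 - p.1) / (1 + (q.1 - p.1)) ∈ Icc (0:ℝ) 1 :=
    ⟨by positivity, (div_le_one h1).2 (by linarith)⟩
  have h2 := hK.body.conv.add_smul_sub_mem (hK.body.conv.add_smul_sub_mem hp.1 hq.1
    (t := b) ⟨(hL.box _ hb).1, (hL.box _ hb).2.1⟩) ha hτ
  have h3 := hL.body.conv.add_smul_sub_mem (hL.body.conv.add_smul_sub_mem hp.2 hq.2
    (t := a) ⟨(hK.box _ ha).1, (hK.box _ ha).2.1⟩) hb hτ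
  refine ⟨_, div_pos h0 h1, _, ⟨h2, mem_of_eq_of_mem (Prod.ext ?_ ?_) h3⟩, by simp [he]⟩
  · simp only [Prod.fst_add, Prod.smul_fst, Prod.fst_sub, smul_eq_mul]
    field_simp
    ring
  · simp [he]

theorem geo1a_uniq {K L : Set V} (hK : Fam f g K) (hL : Fam f g L) {c : ℝ} (ha : ∃ a, (a, c) ∈ K)
    (hb : ∃ b, (b, c) ∈ L) (hc : g c = 0) {p q : V} (hp : p ∈ K ∩ L) (hq : q ∈ K ∩ L)
    (he : p.2 = q.2) (h : ∀ τ, 0 < τ → ∀ z ∈ K ∩ L, z.2 = p.2 + τ * (c - p.2) → p.2 = c) :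
    p = q := by
  obtain ⟨a, ha⟩ := ha
  obtain ⟨b, hb⟩ := hb
  refine Prod.ext (by_contra fun hn => hn ?_) he
  have h1 : p.2 = c := by
    rcases lt_or_gt_of_ne hn with h2 | h2
    · obtain ⟨τ, hτ, z, hz, h3⟩ := geo1a_raise hK hL ha hb hp hq he h2
      exact h τ hτ z hz h3
    · obtain ⟨τ, hτ, z, hz, h3⟩ := geo1a_raise hK hL ha hb hq hp he.symm h2
      exact h τ hτ z hz (he ▸ h3)
  have h2 := hK.hdist hp.1 hq.1 he
  rwa [h1, hc, abs_nonpos_iff, sub_eq_zero] at h2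

namespace Sys

variable (S : Sys f g ε I)

theorem xO (j : I) : (S.O j).1 = S.x j := (S.lev1 j).symm
theorem yP_T (j : I) : S.yP (S.T j) = S.yO j := S.lev2 j
theorem yO_Tsymm (j : I) : S.yO (S.T.symm j) = S.yP j := by
  rw [← S.yP_T, Equiv.apply_symm_apply]
theorem x_mem (j : I) : S.x j ∈ Icc (0:ℝ) 1 :=
  ⟨(S.hK.box _ (S.memP j).1).1, (S.hK.box _ (S.memP j).1).2.1⟩
theorem yP_mem (j : I) : S.yP j ∈ Icc (0:ℝ) 1 := (S.hK.box _ (S.memP j).1).2.2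
theorem yO_mem (j : I) : S.yO j ∈ Icc (0:ℝ) 1 := (S.hK.box _ (S.memO j).1).2.2
theorem comm_symm (j : I) : S.R (S.T.symm j) = S.T.symm (S.R j) := by
  rw [Equiv.eq_symm_apply, ← S.comm, Equiv.apply_symm_apply]
theorem comm_pow (n : ℕ) (j : I) : (S.R ^ n) (S.T j) = S.T ((S.R ^ n) j) := by
  induction n with
  | zero => simp
  | succ n ih => rw [pow_succ', Equiv.Perm.mul_apply, ih, S.comm]; rfl
theorem comm_pow_symm (n : ℕ) (j : I) : (S.R ^ n) (S.T.symm j) = S.T.symm ((S.R ^ n) j) := by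
  rw [Equiv.eq_symm_apply, ← S.comm_pow, Equiv.apply_symm_apply]

theorem x_R (j : I) : S.x (S.R j) = S.x j + ε * (S.yP (S.R j) - S.yO j) := by
  have h := S.lev3 j
  have h' := S.xO j
  simp only [w, x, yP, yO] at h h' ⊢
  linarith

theorem xstep (hε : 0 ≤ ε) (j : I) : |S.x (S.R j) - S.x j| ≤ ε := by
  have h1 := S.yP_mem (S.R j)
  have h2 := S.yO_mem j
  rw [S.x_R, add_sub_cancel_left, abs_mul, abs_of_nonneg hε]
  exact mul_le_of_le_one_right hε (abs_le.2 ⟨by linarith [h1.1, h2.2], by linarith [h1.2, h2.1]⟩)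

theorem xstep_pow (hε : 0 ≤ ε) (j : I) (n : ℕ) : |S.x ((S.R ^ n) j) - S.x j| ≤ n * ε := by
  induction n with
  | zero => simp
  | succ n ih =>
    rw [pow_succ', Equiv.Perm.mul_apply]
    refine (abs_sub_le _ (S.x ((S.R ^ n) j)) _).trans ?_
    rw [Nat.cast_succ]
    linarith [S.xstep hε ((S.R ^ n) j)]

theorem g1_of {s : ℝ} (hε : 0 < ε) (hs : ε < s) {j : I} (hj : S.InB s j) :
    S.G1 j ∧ |S.kP j| ≤ 1 / s ∧ |S.lP j| ≤ 1 / s ∧ |S.kO j| ≤ 1 / s ∧ |S.lO j| ≤ 1 / s ∧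
      |S.m1 j| ≤ 1 / s := by
  have h0 := hε.trans hs
  obtain ⟨p, hp, h1⟩ := S.hMl
  obtain ⟨q, hq, h2⟩ := S.hMr
  have hO : s ≤ (S.O j).1 ∧ (S.O j).1 ≤ 1 - s := S.xO j ▸ hj
  have h := S.gen1 j ⟨⟨p, hp, by linarith [hO.1]⟩, q, hq, by linarith [hO.2]⟩
  refine ⟨h, geo1a_div h0 (geo1a_x S.hK (.inl rfl) (S.memP j).1 (S.tanPK j) hj),
    geo1a_div h0 (geo1a_x S.hL (.inl rfl) (S.memP j).2 (S.tanPL j) hj),
    geo1a_div h0 (geo1a_x S.hK (.inr rfl) (S.memO j).1 (S.tanOK j) hO),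
    geo1a_div h0 (geo1a_x S.hL (.inr rfl) (S.memO j).2 (S.tanOL j) hO),
    geo1a_sg S.hK h.2 h0 hO⟩

variable {S} in
theorem G1.ydiff {j : I} (h : S.G1 j) : S.yP j - S.yO j = S.t1 j * f (S.x j) := by
  have h1 := congrArg Prod.snd h.1.hz
  rw [S.xO] at h1
  simp only [Prod.snd_add, Prod.smul_snd, smul_eq_mul, mul_one] at h1
  exact sub_eq_iff_eq_add'.2 h1

variable {S} in
theorem G1.m1_eq {j : I} (h : S.G1 j) :
    S.kP j - S.kO j = S.t1 j * S.m1 j ∧ S.lP j - S.lO j = S.t1 j * S.m1 j := ⟨h.1.su, h.1.sv⟩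

variable {S} in
theorem G1.topbot {j : I} (h : S.G1 j) :
    (S.t1 j = 1 → S.yP j = F1.top S.K (S.x j) ∧ S.yO j = F1.bot S.K (S.x j)) ∧
      (S.t1 j = -1 → S.yP j = F1.bot S.K (S.x j) ∧ S.yO j = F1.top S.K (S.x j)) := by
  have h1 := (S.hK.mem_iff (S.x_mem j) (S.yP j)).1 (S.memP j).1
  have h2 := (S.hK.mem_iff (S.x_mem j) (S.yO j)).1 (S.xO j ▸ (S.memO j).1)
  have h3 := S.hK.top_eq (S.x_mem j)
  have h4 := h.ydiff
  refine ⟨fun ht => ?_, fun ht => ?_⟩ <;> rw [ht] at h4 <;> constructor <;>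
    linarith [h1.1, h1.2, h2.1, h2.2]

theorem eq_of_x {i j : I} (hi : S.G1 i) (hj : S.G1 j) (ht : S.t1 i = S.t1 j)
    (hx : S.x i = S.x j) : i = j := by
  refine S.inj (Prod.ext hx ?_)
  rcases hj.1.ht with h | h
  · exact (hi.topbot.1 (ht.trans h)).1.trans (hx ▸ (hj.topbot.1 h).1.symm)
  · exact (hi.topbot.2 (ht.trans h)).1.trans (hx ▸ (hj.topbot.2 h).1.symm)

theorem g2_of {j : I} (h0 : 2 * ε < S.yO j) (h1 : S.yO j < 1 - 2 * ε) : S.G2 j := by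
  obtain ⟨p, hp, h2⟩ := S.hMb
  obtain ⟨q, hq, h3⟩ := S.hMt
  exact S.gen2 j ⟨⟨p, hp, h2.trans_lt h0⟩, q, hq, h1.trans_le h3⟩

theorem g2_of_ne (g0 : g 0 = 0) (g1 : g 1 = 0) {j : I} (h : S.x (S.T j) ≠ S.x j) : S.G2 j := by
  refine S.gen2 j (by_contra fun hn => h ?_)
  have h1 := S.hK.hdist (S.memO j).1 (S.memP (S.T j)).1 (S.lev2 j).symm
  have h2 : g (S.O j).2 = 0 → S.x (S.T j) = S.x j := fun h0 => by
    rw [h0, abs_nonpos_iff, sub_eq_zero, S.xO] at h1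
    exact h1.symm
  obtain ⟨a, ha⟩ := S.hK.exB
  obtain ⟨b, hb⟩ := S.hK.exT
  rcases S.brk2 j hn with h3 | h3 | h3
  · exact (congrArg Prod.fst h3).trans (S.xO j)
  · exact h2 (by rwa [le_antisymm (h3 _ (.inl ha)) (S.yO_mem j).1])
  · exact h2 (by rwa [le_antisymm (S.hK.box _ (S.memO j).1).2.2.2 (h3 _ (.inl hb))])

theorem g1_of_ne (f0 : f 0 = 0) (f1 : f 1 = 0) {j : I} (h : S.P j ≠ S.O j) : S.G1 j := by
  refine S.gen1 j (by_contra fun hn => h ?_)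
  have h1 := S.hK.vdist (S.memO j).1 (S.memP j).1 (S.lev1 j).symm
  have h2 : f (S.O j).1 = 0 → S.P j = S.O j := fun h0 => by
    rw [h0, abs_nonpos_iff, sub_eq_zero] at h1
    exact Prod.ext (S.lev1 j) h1.symm
  obtain ⟨a, ha⟩ := S.hK.exL
  obtain ⟨b, hb⟩ := S.hK.exR
  have h4 := S.hK.box _ (S.memO j).1
  rcases S.brk1 j hn with h3 | h3 | h3
  · exact h3
  · exact h2 (by rwa [le_antisymm (h3 _ (.inl ha)) h4.1])
  · exact h2 (by rwa [le_antisymm h4.2.1 (h3 _ (.inl hb))])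

variable {S} in
theorem G2.x_eq {j : I} (h : S.G2 j) : S.x (S.T j) = S.x j - S.t2 j * g (S.yO j) := by
  have h1 := congrArg Prod.fst h.1.hz
  simp only [Prod.fst_add, Prod.smul_fst, smul_eq_mul, mul_neg, mul_one, S.xO] at h1
  exact h1.trans (sub_eq_add_neg _ _).symm

variable {S} in
theorem G2.m2_eq {j : I} (h : S.G2 j) :
    (S.u' j).1 / (S.u' j).2 - (S.u (S.T j)).1 / (S.u (S.T j)).2 = S.t2 j * S.m2 j := by
  have h1 := h.1.su
  simp only [negx, neg_div] at h1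
  linarith

variable {S} in
theorem G2.hslope {j : I} (h : S.G2 j) {a : ℝ} (ha : 0 < a) (h0 : a ≤ S.yO j)
    (h1 : S.yO j ≤ 1 - a) :
    a * |(S.u' j).1| ≤ |(S.u' j).2| ∧ a * |(S.v' j).1| ≤ |(S.v' j).2| ∧
      a * |(S.u (S.T j)).1| ≤ |(S.u (S.T j)).2| ∧ a * |(S.v (S.T j)).1| ≤ |(S.v (S.T j)).2| ∧
      |S.m2 j| ≤ 1 / a := by
  have hO : a ≤ (S.O j).2 ∧ (S.O j).2 ≤ 1 - a := ⟨h0, h1⟩
  have hP : a ≤ (S.P (S.T j)).2 ∧ (S.P (S.T j)).2 ≤ 1 - a := S.lev2 j ▸ hO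
  exact ⟨geo1a_y S.hK (.inr rfl) (S.memO j).1 (S.tanOK j) hO,
    geo1a_y S.hL (.inr rfl) (S.memO j).2 (S.tanOL j) hO,
    geo1a_y S.hK (.inl rfl) (S.memP _).1 (S.tanPK _) hP,
    geo1a_y S.hL (.inl rfl) (S.memP _).2 (S.tanPL _) hP, geo1a_sg S.hK.swap h.2 ha hO⟩

variable {S} in
/-- the side (left or right end of the chord) and the height determine top or bottom -/
theorem G2.side {j : I} (h : S.G2 j) {yL yR : ℝ} (hL : ((0:ℝ), yL) ∈ S.K)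
    (hR : ((1:ℝ), yR) ∈ S.K) :
    (S.t2 j = -1 → S.x (S.T j) < 1 → 0 < (S.u (S.T j)).1 * (S.yO j - yR)) ∧
    (S.t2 j = -1 → 0 < S.x j → (S.u' j).1 * (S.yO j - yL) < 0) ∧
    (S.t2 j = 1 → 0 < S.x (S.T j) → 0 < (S.u (S.T j)).1 * (S.yO j - yL)) ∧
    (S.t2 j = 1 → S.x j < 1 → (S.u' j).1 * (S.yO j - yR) < 0) := by
  have h1 := (S.tanPK (S.T j)).supp _ hL
  have h2 := (S.tanPK (S.T j)).supp _ hR
  have h3 := (S.tanOK j).supp _ hL
  have h4 := (S.tanOK j).supp _ hR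
  have h5 := h.1.hu
  have h6 := h.1.hu'
  simp only [det, Prod.fst_sub, Prod.snd_sub, S.lev2, S.xO] at h1 h2 h3 h4
  simp only [x, yO] at h3 h4 ⊢
  refine ⟨fun ht hx => ?_, fun ht hx => ?_, fun ht hx => ?_, fun ht hx => ?_⟩ <;>
    rw [ht] at h5 h6
  · linarith [mul_pos h5 (sub_pos.2 hx)]
  · linarith [mul_pos h6 hx]
  · linarith [mul_pos h5 hx]
  · linarith [mul_pos h6 (sub_pos.2 hx)]

variable {S} in
theorem G1.det_eq {j : I} (h : S.G1 j) : det (S.u j) (S.v j) = det (S.u' j) (S.v' j) :=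
  h.1.det_eq fun _ _ => rfl
variable {S} in
theorem G2.det_eq {j : I} (h : S.G2 j) :
    det (S.u (S.T j)) (S.v (S.T j)) = det (S.u' j) (S.v' j) :=
  h.1.det_eq fun p q => by simp only [det, negx]; ring
variable {S} in
theorem G3.det_eq {j : I} (h : S.G3 j) :
    det (S.u (S.R j)) (S.v (S.R j)) = det (S.u' j) (S.v' j) :=
  Gen.det_eq (fun p q => by simp only [det, w]; ring) h

/-- a top point is above, a bottom point below, the segment from (0,yL) to (1,yR) -/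
theorem mid_range {j : I} (h : S.G1 j) (h' : S.G1 (S.T j)) (ht : S.t1 j = S.t1 (S.T j))
    {yL yR : ℝ} (hL : ((0:ℝ), yL) ∈ S.K) (hR : ((1:ℝ), yR) ∈ S.K) :
    min yL yR ≤ S.yO j ∧ S.yO j ≤ max yL yR ∧
      0 ≤ S.t1 j * (yL - yR) * (S.x (S.T j) - S.x j) := by
  have key : ∀ i, F1.bot S.K (S.x i) ≤ yL + S.x i * (yR - yL) ∧
      yL + S.x i * (yR - yL) ≤ F1.top S.K (S.x i) := fun i => by
    have h1 := S.hK.body.conv.add_smul_sub_mem hL hR (S.x_mem i)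
    refine (S.hK.mem_iff (S.x_mem i) _).1 ?_
    simpa using h1
  have bd : ∀ i, min yL yR ≤ yL + S.x i * (yR - yL) ∧ yL + S.x i * (yR - yL) ≤ max yL yR :=
    fun i => by
      have h1 := S.x_mem i
      constructor <;> nlinarith [h1.1, h1.2, min_le_left yL yR, min_le_right yL yR,
        le_max_left yL yR, le_max_right yL yR]
  have h1 := S.yP_T j
  rcases h.1.ht with h2 | h2
  · have h3 := (h.topbot.1 h2).2
    have h4 := (h'.topbot.1 (ht.symm.trans h2)).1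
    rw [h2]
    refine ⟨?_, ?_, ?_⟩ <;> linarith [(key j).1, (key (S.T j)).2, (bd j).2, (bd (S.T j)).1]
  · have h3 := (h.topbot.2 h2).2
    have h4 := (h'.topbot.2 (ht.symm.trans h2)).1
    rw [h2]
    refine ⟨?_, ?_, ?_⟩ <;> linarith [(key j).2, (key (S.T j)).1, (bd j).1, (bd (S.T j)).2]

theorem uniq_top (g1 : g 1 = 0) {p q : V} (hp : p ∈ S.K ∩ S.L) (hq : q ∈ S.K ∩ S.L)
    (h1 : ∀ z ∈ S.K ∩ S.L, z.2 ≤ p.2) (h2 : ∀ z ∈ S.K ∩ S.L, z.2 ≤ q.2) : p = q := by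
  have he : p.2 = q.2 := le_antisymm (h2 p hp) (h1 q hq)
  refine geo1a_uniq S.hK S.hL S.hK.exT S.hL.exT g1 hp hq he fun τ hτ z hz h => ?_
  exact le_antisymm (S.hK.box p hp.1).2.2.2 (by nlinarith [h1 z hz])

theorem uniq_bot (g0 : g 0 = 0) {p q : V} (hp : p ∈ S.K ∩ S.L) (hq : q ∈ S.K ∩ S.L)
    (h1 : ∀ z ∈ S.K ∩ S.L, p.2 ≤ z.2) (h2 : ∀ z ∈ S.K ∩ S.L, q.2 ≤ z.2) : p = q := by
  have he : p.2 = q.2 := le_antisymm (h1 q hq) (h2 p hp)
  refine geo1a_uniq S.hK S.hL S.hK.exB S.hL.exB g0 hp hq he fun τ hτ z hz h => ?_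
  exact le_antisymm (by nlinarith [h1 z hz]) (S.hK.box p hp.1).2.2.1

theorem Δ_le (j : I) : 0 ≤ S.Δ j ∧ S.Δ j ≤ 1 / 4 := by
  rcases S.nrmP j with h | h
  · simp [Δ, h, det, mul_comm]
  · rw [Δ, h]
    norm_num

end Sys

end XR
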