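import Pool.Agent.P.MP_408b1f_gt.Geo2a

/-! The quantity kappa along runs.
kappa_run. Let a = aP j, rP j = sqrt ((1 - eps kP j)(1 - eps lP j)), rO j likewise with kO, lO.
Then W j = a rP j, W (R j) = a rO j (norm equalities hn of G1 j and G3 j), and with the chord slopes
p (sandP at j), r (sandOL at j): h (R j) (1 - eps p) = h j (1 - eps r) (note h (R j) = h3 j). So
kappa (R j) / kappa j = (rO j / rP j) (1 - eps p) / (1 - eps r). From the sandwiches
rP j <= 1 - eps p <= rP (R j) and rO j <= 1 - eps r <= rO (R.symm j). Hence kappa / rP is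
nonincreasing along the run and kappa (j) / rO (R.symm j) is nondecreasing. All r values are in
[1 - eps / s, 1 + eps / s] on the run, and rO (R.symm j) <= 1 + eps / (s - eps).
gamma_le: move to the window [1/2, 1/2 + eps], then n = floor (1/(8 eps)) steps stay in InB (1/4).
There |kP - lP| = |det| / aP^2 >= (9/32) gamma and |kP j - lP j| <= (kP j - kP (R j)) +
(lP j - lP (R j)) by sandP; the telescoping sum is at most 16. -/

open Set MeasureTheory Filter Topology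

noncomputable section

namespace XR

variable {f g : ℝ → ℝ} {ε : ℝ} {I : Type}

namespace Sys

variable (S : Sys f g ε I)

/-- geometric mean of the two factors at the start flag -/
def geo2rP (j : I) : ℝ := √((1 - ε * S.kP j) * (1 - ε * S.lP j))
/-- geometric mean of the two factors at the end flag -/
def geo2rO (j : I) : ℝ := √((1 - ε * S.kO j) * (1 - ε * S.lO j))

theorem geo2_sqrt_le {a b c : ℝ} (hb : 0 ≤ b) (hc : 0 ≤ c) (h1 : a ≤ c) (h2 : b ≤ c) :
    √(a * b) ≤ c := by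
  rw [Real.sqrt_le_iff]
  refine ⟨hc, ?_⟩
  calc a * b ≤ c * b := mul_le_mul_of_nonneg_right h1 hb
    _ ≤ c * c := mul_le_mul_of_nonneg_left h2 hc
    _ = c ^ 2 := by ring

theorem geo2_le_sqrt {a b c : ℝ} (hc : 0 ≤ c) (h1 : c ≤ a) (h2 : c ≤ b) :
    c ≤ √(a * b) := by
  apply Real.le_sqrt_of_sq_le
  calc c ^ 2 = c * c := by ring
    _ ≤ a * b := mul_le_mul h1 h2 hc (hc.trans h1)

theorem geo2_fac {e s k : ℝ} (he : 0 < e) (hk : |k| ≤ 1 / s) :
    1 - e / s ≤ 1 - e * k ∧ 1 - e * k ≤ 1 + e / s := by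
  have h1 := abs_le.mp hk
  have h2 : e / s = e * (1 / s) := by ring
  rw [h2]
  constructor
  · have := mul_le_mul_of_nonneg_left h1.2 he.le
    linarith only [this]
  · have := mul_le_mul_of_nonneg_left h1.1 he.le
    linarith only [this]

theorem geo2_mul_pos {t a b : ℝ} (ht : t = 1 ∨ t = -1) (ha : 0 < t * a) (hb : 0 < t * b) :
    0 < a * b ∧ a ≠ 0 ∧ b ≠ 0 := by
  rcases ht with rfl | rfl
  · have h1 : 0 < a := by linarith
    have h2 : 0 < b := by linarith
    exact ⟨mul_pos h1 h2, h1.ne', h2.ne'⟩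
  · have h1 : a < 0 := by linarith
    have h2 : b < 0 := by linarith
    exact ⟨mul_pos_of_neg_of_neg h1 h2, h1.ne, h2.ne⟩

theorem geo2_w_mul {e : ℝ} {p q : V} (hp : p.1 ≠ 0) (hq : q.1 ≠ 0) :
    w e p * w e q = (p.1 * q.1) * ((1 - e * (p.2 / p.1)) * (1 - e * (q.2 / q.1))) := by
  simp only [w]
  field_simp

variable {S} in
theorem G1.geo2_W_eq {j : I} (h : S.G1 j) : S.W j = S.aP j * S.geo2rP j := by
  obtain ⟨h1, h2, h3⟩ := geo2_mul_pos h.1.ht h.1.hu h.1.hv
  simp only [W, aP, geo2rP, kP, lP]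
  rw [geo2_w_mul h2 h3, Real.sqrt_mul h1.le]

variable {S} in
theorem G1.geo2_W_R {j : I} (h : S.G1 j) (h3 : S.G3 j) : S.W (S.R j) = S.aP j * S.geo2rO j := by
  obtain ⟨h1, h2, h4⟩ := geo2_mul_pos h.1.ht h.1.hu' h.1.hv'
  have e1 : (S.u j).1 * (S.v j).1 = (S.u' j).1 * (S.v' j).1 := h.1.hn
  have e2 : w ε (S.u (S.R j)) * w ε (S.v (S.R j)) = w ε (S.u' j) * w ε (S.v' j) := h3.hn
  simp only [W, aP, geo2rO, kO, lO]
  rw [e2, e1, geo2_w_mul h2 h4, Real.sqrt_mul h1.le]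

variable {S} in
theorem G1.geo2_aP_pos {j : I} (h : S.G1 j) : 0 < S.aP j :=
  Real.sqrt_pos.mpr (geo2_mul_pos h.1.ht h.1.hu h.1.hv).1

variable {S} in
theorem G1.geo2_abs_det {j : I} (h : S.G1 j) :
    |det (S.u j) (S.v j)| = S.aP j ^ 2 * |S.kP j - S.lP j| := by
  obtain ⟨h1, h2, h3⟩ := geo2_mul_pos h.1.ht h.1.hu h.1.hv
  have e1 : S.aP j ^ 2 = (S.u j).1 * (S.v j).1 := Real.sq_sqrt h1.le
  have e2 : det (S.u j) (S.v j) = -(((S.u j).1 * (S.v j).1) * (S.kP j - S.lP j)) := by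
    simp only [det, kP, lP]
    field_simp
    ring
  rw [e1, e2, abs_neg, abs_mul, abs_of_pos h1]

theorem geo2_r_bounds {s : ℝ} (hε : 0 < ε) (hs : ε < s) {j : I} (hj : S.InB s j) :
    1 - ε / s ≤ S.geo2rP j ∧ S.geo2rP j ≤ 1 + ε / s ∧ 1 - ε / s ≤ S.geo2rO j ∧ S.geo2rO j ≤ 1 + ε / s := by
  obtain ⟨-, h1, h2, h3, h4, -⟩ := S.g1_of hε hs hj
  have hs0 : 0 < s := hε.trans hs
  have ha : ε / s < 1 := (div_lt_one hs0).mpr hs
  have ha0 : 0 < ε / s := div_pos hε hs0
  have a1 := geo2_fac hε h1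
  have a2 := geo2_fac hε h2
  have a3 := geo2_fac hε h3
  have a4 := geo2_fac hε h4
  refine ⟨geo2_le_sqrt (by linarith only [ha]) a1.1 a2.1, ?_, geo2_le_sqrt (by linarith only [ha]) a3.1 a4.1, ?_⟩
  · exact geo2_sqrt_le (by linarith only [ha, a2, a2.1]) (by linarith only [ha, ha0]) a1.2 a2.2
  · exact geo2_sqrt_le (by linarith only [ha, a4, a4.1]) (by linarith only [ha, ha0]) a3.2 a4.2

theorem InB.geo2_symm_mono {S : Sys f g ε I} {s : ℝ} (hε : 0 < ε) {j : I} (hj : S.InB s j) :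
    S.InB (s - ε) (S.R.symm j) := by
  have h := abs_le.mp (S.xstep hε.le (S.R.symm j))
  rw [Equiv.apply_symm_apply] at h
  exact ⟨by linarith [hj.1, h.2], by linarith [hj.2, h.1]⟩

/-- the two cross inequalities of one step -/
theorem geo2_step_cross {s : ℝ} (hε : 0 < ε) (hs : 4 * ε ≤ s) {j : I} (hj : S.InB s j) :
    S.geo2rO j * S.h j ≤ S.h3 j * S.geo2rP (S.R j) ∧ S.h3 j * S.geo2rP j ≤ S.h j * S.geo2rO (S.R.symm j) := by
  have F := S.step hε hs hj
  have hεs : ε < s := by linarith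
  obtain ⟨-, b1, b2, b3, b4, -⟩ := S.g1_of hε hεs hj
  have hs0 : 0 < s := hε.trans hεs
  have ha : ε / s < 1 := (div_lt_one hs0).mpr hεs
  have a1 := (geo2_fac hε b1).1
  have a2 := (geo2_fac hε b2).1
  have a3 := (geo2_fac hε b3).1
  have a4 := (geo2_fac hε b4).1
  obtain ⟨p, p0, p1, p2, p3, p4⟩ := F.sandP
  obtain ⟨r, r0, r1, r2, r3, r4⟩ := F.sandOL
  have yd := F.g1.ydiff
  have z1 : S.yP (S.R j) = S.yO j + S.t1 j * S.h3 j := by
    have := congrArg Prod.snd F.g3.hz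
    rw [F.t3] at this
    simpa [yP, yO] using this
  have z2 : S.yP j = S.yO (S.R.symm j) + S.t1 j * S.h j := by
    have := congrArg Prod.snd F.g3L.hz
    rw [F.t3L, Equiv.apply_symm_apply] at this
    simpa [yP, yO, h] using this
  have xR := F.xR
  have xL := F.xL
  have ht := F.g1.1.ht
  have ht0 : S.t1 j ≠ 0 := by rcases ht with h | h <;> rw [h] <;> norm_num
  have e1 : S.h3 j * (1 - ε * p) = f (S.x j) := by
    apply mul_left_cancel₀ ht0
    have : S.x (S.R j) - S.x j = S.t1 j * ε * S.h3 j := by linarith only [xR]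
    rw [this] at p0
    linear_combination (-1 : ℝ) * z1 + p0 + yd
  have e2 : S.h j * (1 - ε * r) = f (S.x j) := by
    apply mul_left_cancel₀ ht0
    have : S.x j - S.x (S.R.symm j) = S.t1 j * ε * S.h j := by linarith only [xL]
    rw [this] at r0
    linear_combination (-1 : ℝ) * z2 + r0 + yd
  have m1 := mul_le_mul_of_nonneg_left p1 hε.le
  have m2 := mul_le_mul_of_nonneg_left p2 hε.le
  have m3 := mul_le_mul_of_nonneg_left p3 hε.le
  have m4 := mul_le_mul_of_nonneg_left p4 hε.le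
  have n1 := mul_le_mul_of_nonneg_left r1 hε.le
  have n2 := mul_le_mul_of_nonneg_left r2 hε.le
  have n3 := mul_le_mul_of_nonneg_left r3 hε.le
  have n4 := mul_le_mul_of_nonneg_left r4 hε.le
  have c1 : S.geo2rP j ≤ 1 - ε * p :=
    geo2_sqrt_le (by linarith only [ha, a2]) (by linarith only [ha, a1, m2]) (by linarith only [m2]) (by linarith only [m4])
  have c2 : 1 - ε * p ≤ S.geo2rP (S.R j) := geo2_le_sqrt (by linarith only [ha, a1, m2]) (by linarith only [m1]) (by linarith only [m3])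
  have c3 : S.geo2rO j ≤ 1 - ε * r :=
    geo2_sqrt_le (by linarith only [ha, a4]) (by linarith only [ha, a3, n2]) (by linarith only [n2]) (by linarith only [n4])
  have c4 : 1 - ε * r ≤ S.geo2rO (S.R.symm j) :=
    geo2_le_sqrt (by linarith only [ha, a3, n2]) (by linarith only [n1]) (by linarith only [n3])
  have d1 := mul_le_mul_of_nonneg_left c1 F.h3pos.le
  have d2 := mul_le_mul_of_nonneg_left c2 F.h3pos.le
  have d3 := mul_le_mul_of_nonneg_left c3 F.hpos.le
  have d4 := mul_le_mul_of_nonneg_left c4 F.hpos.le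
  constructor
  · rw [mul_comm]; linarith only [e1, e2, d2, d3]
  · linarith only [e1, e2, d1, d4]

theorem geo2_kappa_step {s : ℝ} (hε : 0 < ε) (hs : 4 * ε ≤ s) {j : I} (hj : S.InB s j)
    (hj' : S.InB s (S.R j)) :
    S.κ (S.R j) / S.geo2rP (S.R j) ≤ S.κ j / S.geo2rP j ∧
      S.κ j / S.geo2rO (S.R.symm j) ≤ S.κ (S.R j) / S.geo2rO (S.R.symm (S.R j)) := by
  have F := S.step hε hs hj
  obtain ⟨c1, c2⟩ := S.geo2_step_cross hε hs hj
  have hεs : ε < s := by linarith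
  have hs0 : 0 < s := hε.trans hεs
  have ha : ε / s < 1 := (div_lt_one hs0).mpr hεs
  have hb : ε / (s - ε) < 1 := (div_lt_one (by linarith)).mpr (by linarith)
  have b1 := S.geo2_r_bounds hε hεs hj
  have b2 := S.geo2_r_bounds hε hεs hj'
  have b3 := S.geo2_r_bounds hε (by linarith : ε < s - ε) (hj.geo2_symm_mono hε)
  have q1 : 0 < S.geo2rP j := by linarith only [ha, b1, b1.1]
  have q2 : 0 < S.geo2rO j := by linarith only [ha, b1, b1.2.2.1]
  have q3 : 0 < S.geo2rP (S.R j) := by linarith only [ha, b2, b2.1]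
  have q4 : 0 < S.geo2rO (S.R.symm j) := by linarith only [hb, b3, b3.2.2.1]
  have ha0 := F.g1.geo2_aP_pos
  have h1 := F.hpos
  have h3 := F.h3pos
  have k1 : S.κ j = S.aP j * S.geo2rP j / S.h j := by rw [κ, F.g1.geo2_W_eq]
  have k2 : S.κ (S.R j) = S.aP j * S.geo2rO j / S.h3 j := by rw [κ, F.g1.geo2_W_R F.g3, S.h_R]
  rw [Equiv.symm_apply_apply, k1, k2]
  constructor
  · rw [div_div, div_div, div_le_div_iff₀ (by positivity) (by positivity)]
    have := mul_le_mul_of_nonneg_left c1 (mul_pos ha0 q1).le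
    linarith only [this]
  · rw [div_div, div_div, div_le_div_iff₀ (by positivity) (by positivity)]
    have := mul_le_mul_of_nonneg_left c2 (mul_pos ha0 q2).le
    linarith only [this]

theorem geo2_kappa_mono {s : ℝ} (hε : 0 < ε) (hs : 4 * ε ≤ s) {j : I} {n : ℕ} (h : S.Run s j n) :
    S.κ ((S.R ^ n) j) / S.geo2rP ((S.R ^ n) j) ≤ S.κ j / S.geo2rP j ∧
      S.κ j / S.geo2rO (S.R.symm j) ≤ S.κ ((S.R ^ n) j) / S.geo2rO (S.R.symm ((S.R ^ n) j)) ∧
      det (S.u ((S.R ^ n) j)) (S.v ((S.R ^ n) j)) = det (S.u j) (S.v j) := by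
  induction n with
  | zero => simp
  | succ n ih =>
    obtain ⟨i1, i2, i3⟩ := ih (h.mono (Nat.le_succ n))
    have e : (S.R ^ (n + 1)) j = S.R ((S.R ^ n) j) := by
      rw [pow_succ', Equiv.Perm.mul_apply]
    have hn := h n (Nat.le_succ n)
    have hn' := h (n + 1) le_rfl
    rw [e] at hn' ⊢
    obtain ⟨k1, k2⟩ := S.geo2_kappa_step hε hs hn hn'
    have F := S.step hε hs hn
    exact ⟨k1.trans i1, i2.trans k2, by rw [F.g3.det_eq, ← F.g1.det_eq, i3]⟩

theorem kappa_pos {s : ℝ} (hε : 0 < ε) (hs : 4 * ε ≤ s) {j : I} (hj : S.InB s j) :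
    0 < S.κ j ∧ 0 < S.W j ∧ S.W j = S.κ j * S.h j ∧ S.Δ j / S.κ j ^ 4 = S.γ j ^ 2 ∧
      0 ≤ S.γ j ∧ 0 < S.aP j ∧ S.W j ≤ 2 * S.aP j ∧ S.aP j ≤ 2 * S.W j := by
  have F := S.step hε hs hj
  have hεs : ε < s := by linarith
  have hs0 : 0 < s := hε.trans hεs
  have ha : ε / s ≤ 1 / 4 := by rw [div_le_iff₀ hs0]; linarith
  have b := S.geo2_r_bounds hε hεs hj
  have hW := F.g1.geo2_W_eq
  have ha0 := F.g1.geo2_aP_pos
  have hh := F.hpos
  have q1 : 3 / 4 ≤ S.geo2rP j := by linarith only [ha, b, b.1]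
  have q2 : S.geo2rP j ≤ 5 / 4 := by linarith only [ha, b, b.2.1]
  have m1 := mul_le_mul_of_nonneg_left q1 ha0.le
  have m2 := mul_le_mul_of_nonneg_left q2 ha0.le
  have hW0 : 0 < S.W j := by linarith only [hW, ha0, m1]
  have hκ : 0 < S.κ j := div_pos hW0 hh
  refine ⟨hκ, hW0, ?_, ?_, ?_, ha0, by linarith only [hW, ha0, m2], by linarith only [hW, m1, hW0]⟩
  · rw [κ, div_mul_cancel₀ _ hh.ne']
  · rw [Δ, γ, div_pow, sq_abs]
    field_simp
    ring
  · exact div_nonneg (abs_nonneg _) (by positivity)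

theorem kappa_run {s : ℝ} (hε : 0 < ε) (hs : 8 * ε ≤ s) {j : I} {n : ℕ} (h : S.Run s j n) :
    |S.κ ((S.R ^ n) j) / S.κ j - 1| ≤ 4 * ε / s ∧
      det (S.u ((S.R ^ n) j)) (S.v ((S.R ^ n) j)) = det (S.u j) (S.v j) := by
  have hs4 : 4 * ε ≤ s := by linarith
  obtain ⟨k1, k2, k3⟩ := S.geo2_kappa_mono hε hs4 h
  refine ⟨?_, k3⟩
  have h0 : S.InB s j := by simpa using h 0 (Nat.zero_le n)
  have hn := h n le_rfl
  have hεs : ε < s := by linarith
  have hs0 : 0 < s := hε.trans hεs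
  have hs1 : 0 < s - ε := by linarith
  have b1 := S.geo2_r_bounds hε hεs h0
  have b2 := S.geo2_r_bounds hε hεs hn
  have b3 := S.geo2_r_bounds hε (by linarith only [hε, hs] : ε < s - ε) (h0.geo2_symm_mono hε)
  have b4 := S.geo2_r_bounds hε (by linarith only [hε, hs] : ε < s - ε) (hn.geo2_symm_mono hε)
  have ha : ε / s ≤ 1 / 8 := by rw [div_le_iff₀ hs0]; linarith only [hs]
  have ha0 : 0 < ε / s := div_pos hε hs0
  have hb0 : 0 < ε / (s - ε) := div_pos hε hs1
  have hb : ε / (s - ε) ≤ 2 * (ε / s) := by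
    rw [← mul_div_assoc, div_le_div_iff₀ hs1 hs0]
    nlinarith only [hε, hs]
  have p0 := (S.kappa_pos hε hs4 h0).1
  have pn := (S.kappa_pos hε hs4 hn).1
  have e4 : 4 * ε / s = 4 * (ε / s) := by ring
  rw [e4]
  generalize ε / s = a at *
  generalize ε / (s - ε) = b at *
  generalize S.κ ((S.R ^ n) j) = K at *
  generalize S.κ j = k at *
  generalize S.geo2rP ((S.R ^ n) j) = A at *
  generalize S.geo2rP j = B at *
  generalize S.geo2rO (S.R.symm ((S.R ^ n) j)) = C at *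
  generalize S.geo2rO (S.R.symm j) = D at *
  have qA : 0 < A := by linarith only [ha, ha0, b2, b2.1]
  have qB : 0 < B := by linarith only [ha, ha0, b1, b1.1]
  have qC : 0 < C := by linarith only [ha, ha0, hb, b4, b4.2.2.1]
  have qD : 0 < D := by linarith only [ha, ha0, hb, b3, b3.2.2.1]
  rw [div_le_div_iff₀ qA qB] at k1
  rw [div_le_div_iff₀ qD qC] at k2
  have u1 : K * (1 - a) ≤ k * (1 + a) :=
    (mul_le_mul_of_nonneg_left b1.1 pn.le).trans
      (k1.trans (mul_le_mul_of_nonneg_left b2.2.1 p0.le))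
  have u2 : k * (1 - b) ≤ K * (1 + b) :=
    (mul_le_mul_of_nonneg_left b4.2.2.1 p0.le).trans
      (k2.trans (mul_le_mul_of_nonneg_left b3.2.2.2 pn.le))
  rw [abs_le]
  constructor
  · have v : k * (1 - 4 * a) ≤ K := by
      have v1 : k * (1 - 2 * b) * (1 + b) ≤ K * (1 + b) := by
        have : k * (1 - 2 * b) * (1 + b) = k * (1 - b) - 2 * (k * b ^ 2) := by ring
        have h2 : 0 ≤ k * b ^ 2 := by positivity
        linarith only [u2, h2]
      have v2 := le_of_mul_le_mul_right v1 (by linarith only [ha, ha0, hb0] : 0 < 1 + b)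
      have v3 : k * (1 - 4 * a) ≤ k * (1 - 2 * b) :=
        mul_le_mul_of_nonneg_left (by linarith) p0.le
      linarith
    have : 1 - 4 * a ≤ K / k := by rw [le_div_iff₀ p0]; linarith only [v]
    linarith only [this]
  · have v : K ≤ k * (1 + 4 * a) := by
      have v1 : K * (1 - a) ≤ k * (1 + 4 * a) * (1 - a) := by
        have : k * (1 + 4 * a) * (1 - a) = k * (1 + a) + 2 * (k * (a * (1 - 2 * a))) := by ring
        have h2 : 0 ≤ k * (a * (1 - 2 * a)) :=
          mul_nonneg p0.le (mul_nonneg ha0.le (by linarith only [ha, ha0]))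
        linarith only [u1, h2]
      exact le_of_mul_le_mul_right v1 (by linarith : 0 < 1 - a)
    have : K / k ≤ 1 + 4 * a := by rw [div_le_iff₀ p0]; linarith only [v]
    linarith

theorem geo2_gamma_cmp {i j : I} (hi : 0 < S.κ i) (hj : 0 < S.κ j) (h : 3 * S.κ i ≤ 4 * S.κ j)
    (hd : det (S.u j) (S.v j) = det (S.u i) (S.v i)) : S.γ j ≤ 2 * S.γ i := by
  rw [γ, γ, hd, ← mul_div_assoc, div_le_div_iff₀ (by positivity) (by positivity)]
  have h1 : S.κ i ^ 2 ≤ 2 * S.κ j ^ 2 := by nlinarith only [hi, h, hj]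
  have h2 := mul_le_mul_of_nonneg_left h1 (abs_nonneg (det (S.u i) (S.v i)))
  linarith

theorem geo2_gamma_sum (hε : 0 < ε) (hε' : 64 * ε ≤ 1) {j : I} {n : ℕ} (h : S.Run (1 / 4) j n) :
    n * S.γ j ≤ 4 * ((S.kP j - S.kP ((S.R ^ n) j)) + (S.lP j - S.lP ((S.R ^ n) j))) := by
  induction n with
  | zero => simp
  | succ n ih =>
    have i1 := ih (h.mono (Nat.le_succ n))
    have e : (S.R ^ (n + 1)) j = S.R ((S.R ^ n) j) := by
      rw [pow_succ', Equiv.Perm.mul_apply]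
    have hn := h n (Nat.le_succ n)
    have h0 : S.InB (1 / 4) j := by simpa using h 0 (Nat.zero_le _)
    have hs4 : 4 * ε ≤ 1 / 4 := by linarith
    obtain ⟨k1, k2⟩ := S.kappa_run hε (by linarith : 8 * ε ≤ 1 / 4) (h.mono (Nat.le_succ n))
    have F := S.step hε hs4 hn
    obtain ⟨p, -, p1, p2, p3, p4⟩ := F.sandP
    have p0 := (S.kappa_pos hε hs4 h0).1
    obtain ⟨q1, q2, q3, -, -, q6, -, q8⟩ := S.kappa_pos hε hs4 hn
    have hd := F.g1.geo2_abs_det
    rw [k2] at hd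
    have hk : S.κ ((S.R ^ n) j) ≤ 5 / 4 * S.κ j := by
      have h1 := (abs_le.mp k1).2
      have h2 : S.κ ((S.R ^ n) j) / S.κ j ≤ 5 / 4 := by
        have : 4 * ε / (1 / 4) = 16 * ε := by ring
        linarith only [hε', h1]
      rwa [div_le_iff₀ p0] at h2
    have hW : S.W ((S.R ^ n) j) ≤ S.κ ((S.R ^ n) j) := by
      rw [q3]; exact mul_le_of_le_one_right q1.le F.hle
    have ha : S.aP ((S.R ^ n) j) ≤ 5 / 2 * S.κ j := by linarith only [q8, hk, hW]
    have ha2 : S.aP ((S.R ^ n) j) ^ 2 ≤ 8 * S.κ j ^ 2 := by nlinarith only [hε, hε', p0, hk, q1, hW, q2, q8, q6]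
    have hg : S.γ j ≤ 4 * |S.kP ((S.R ^ n) j) - S.lP ((S.R ^ n) j)| := by
      rw [γ, hd, div_le_iff₀ (by positivity)]
      have := mul_le_mul_of_nonneg_right ha2
        (abs_nonneg (S.kP ((S.R ^ n) j) - S.lP ((S.R ^ n) j)))
      linarith only [this]
    have hab : |S.kP ((S.R ^ n) j) - S.lP ((S.R ^ n) j)| ≤
        (S.kP ((S.R ^ n) j) - S.kP (S.R ((S.R ^ n) j))) +
          (S.lP ((S.R ^ n) j) - S.lP (S.R ((S.R ^ n) j))) := by
      rw [abs_le]; constructor <;> linarith only [p1, p2, p3, p4]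
    rw [e, Nat.cast_succ]
    linarith only [i1, hg, hab]

theorem geo2_gamma_window (hε : 0 < ε) (hε' : 64 * ε ≤ 1) {j : I}
    (hj : S.x j ∈ Icc (1 / 2 : ℝ) (1 / 2 + ε)) : S.γ j ≤ 1024 * ε := by
  obtain ⟨n, hn1, hn2⟩ : ∃ n : ℕ, (n : ℝ) * ε ≤ 1 / 8 ∧ 1 / 16 ≤ (n : ℝ) * ε := by
    refine ⟨⌊1 / (8 * ε)⌋₊, ?_, ?_⟩
    · have h1 := Nat.floor_le (by positivity : (0:ℝ) ≤ 1 / (8 * ε))
      rw [le_div_iff₀ (by positivity)] at h1
      linarith only [h1]
    · have h1 := Nat.lt_floor_add_one (1 / (8 * ε))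
      rw [div_lt_iff₀ (by positivity)] at h1
      linarith only [hε, hε', h1]
  have hrun : S.Run (1 / 4) j n := by
    intro l hl
    have h1 := abs_le.mp (S.xstep_pow hε.le j l)
    have h2 : (l : ℝ) * ε ≤ n * ε :=
      mul_le_mul_of_nonneg_right (by exact_mod_cast hl) hε.le
    exact ⟨by linarith only [hε, hε', hn1, h1, h2, hj.1, h1.1], by linarith only [hε, hε', hn1, h1, h2, hj.2, h1.2]⟩
  have h0 : S.InB (1 / 4) j := by simpa using hrun 0 (Nat.zero_le _)
  have hsum := S.geo2_gamma_sum hε hε' hrun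
  obtain ⟨-, a1, a2, -⟩ := S.g1_of hε (by linarith only [hε, hε'] : ε < 1 / 4) h0
  obtain ⟨-, a3, a4, -⟩ := S.g1_of hε (by linarith only [hε, hε'] : ε < 1 / 4) (hrun n le_rfl)
  have e4 : (1:ℝ) / (1 / 4) = 4 := by norm_num
  rw [e4, abs_le] at a1 a2 a3 a4
  have hb : n * S.γ j ≤ 64 := by linarith only [hsum, a1, a2, a3, a4, a1.2, a2.2, a3.1, a4.1]
  have hg := (S.kappa_pos hε (by linarith only [hε, hε'] : 4 * ε ≤ 1 / 4) h0).2.2.2.2.1
  have m1 := mul_le_mul_of_nonneg_right hn2 hg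
  have m2 := mul_le_mul_of_nonneg_right hb hε.le
  have e5 : (n : ℝ) * ε * S.γ j = n * S.γ j * ε := by ring
  linarith only [m1, m2]

theorem gamma_le {s φ : ℝ} (hs : Sm f ε s φ) {j : I} (hj : S.InB s j) :
    S.γ j ≤ 10000 * ε := by
  have hε := hs.εpos
  have h16 := hs.le16
  have h4 := hs.s4
  have hε' : 64 * ε ≤ 1 := by linarith
  have hs0 : 0 < s := by linarith
  have hs4 : 4 * ε ≤ s := by linarith
  have hq : 4 * ε / s ≤ 1 / 4 := by rw [div_le_iff₀ hs0]; linarith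
  have pj := (S.kappa_pos hε hs4 hj).1
  rcases S.to_window hs hj (x0 := 1 / 2) (by linarith only [hε, h16, h4]) (by linarith only [hε, h16, h4]) with
    ⟨n, hr, hx⟩ | ⟨n, j', rfl, hr, hx⟩
  · obtain ⟨k1, k2⟩ := S.kappa_run hε (by linarith only [hε, h16]) hr
    have pn := (S.kappa_pos hε hs4 (hr n le_rfl)).1
    have h2 : S.κ ((S.R ^ n) j) / S.κ j ≤ 5 / 4 := by linarith only [hq, k1, (abs_le.mp k1).2]
    rw [div_le_iff₀ pj] at h2
    have h3 := S.geo2_gamma_cmp pn pj (by linarith only [pj, h2]) k2.symm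
    have h5 := S.geo2_gamma_window hε hε' hx
    linarith only [hε, h3, h5]
  · obtain ⟨k1, k2⟩ := S.kappa_run hε (by linarith) hr
    have h0 : S.InB s j' := by simpa using hr 0 (Nat.zero_le _)
    have pn := (S.kappa_pos hε hs4 h0).1
    have h2 : 3 / 4 ≤ S.κ ((S.R ^ n) j') / S.κ j' := by linarith only [hq, k1, (abs_le.mp k1).1]
    rw [le_div_iff₀ pn] at h2
    have h3 := S.geo2_gamma_cmp pn pj (by linarith only [h2]) k2
    have h5 := S.geo2_gamma_window hε hε' hx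
    linarith only [hε, h3, h5]

end Sys

end XR
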