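import Pool.Agent.P.MP_408b1f_gt.Geo1

/-! Runs of R in the bulk.
exit lemmas: t1 j * x increases by at least eps phi / 2 per step and is bounded.
reenter: hbulk and periodicity of R on the finite type I (S.fin; orderOf R).
exists_window: from a bulk index (hbulk) use to_window; for the other side exit forward and
reenter: the first index back in InB s comes from outside, so by xL of step its sign is opposite.
-/

open Set MeasureTheory Filter Topology

noncomputable section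

namespace XR

variable {f g : ℝ → ℝ} {ε : ℝ} {I : Type}

theorem g2a_ivt_up {a : ℕ → ℝ} {e x0 : ℝ} (ha : ∀ k, |a (k + 1) - a k| ≤ e) (h0 : a 0 ≤ x0 + e) :
    ∀ n, x0 ≤ a n → ∃ m ≤ n, a m ∈ Icc x0 (x0 + e) := by
  intro n
  induction n with
  | zero => exact fun h => ⟨0, le_rfl, h, h0⟩
  | succ n ih =>
    intro h
    by_cases hc : x0 ≤ a n
    · obtain ⟨m, hm, hx⟩ := ih hc
      exact ⟨m, by omega, hx⟩
    · refine ⟨n + 1, le_rfl, h, ?_⟩
      have := (abs_le.mp (ha n)).2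
      have := not_le.mp hc
      linarith

theorem g2a_ivt_down {a : ℕ → ℝ} {e x0 : ℝ} (ha : ∀ k, |a (k + 1) - a k| ≤ e) (h0 : x0 ≤ a 0) :
    ∀ n, a n ≤ x0 + e → ∃ m ≤ n, a m ∈ Icc x0 (x0 + e) := by
  intro n
  induction n with
  | zero => exact fun h => ⟨0, le_rfl, h0, h⟩
  | succ n ih =>
    intro h
    by_cases hc : a n ≤ x0 + e
    · obtain ⟨m, hm, hx⟩ := ih hc
      exact ⟨m, by omega, hx⟩
    · refine ⟨n + 1, le_rfl, ?_, h⟩
      have := (abs_le.mp (ha n)).1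
      have := not_le.mp hc
      linarith

theorem g2a_zone {a : ℕ → ℝ} {e s : ℝ} (he : 0 < e) (hs : 2 * s + 3 * e < 1)
    (ha : ∀ k, |a (k + 1) - a k| ≤ e) {l : ℕ} (hx : ∃ l0 ≤ l, a l0 ≤ s + e)
    (hz : ∀ l', 0 < l' → l' < l → a l' < s ∨ 1 - s < a l') : ∀ l' ≤ l, a l' ≤ s + 2 * e := by
  obtain ⟨l0, hl0, hx⟩ := hx
  have F : ∀ k, l0 + k ≤ l → a (l0 + k) ≤ s + 2 * e ∧ (l0 + k < l → a (l0 + k) ≤ s + e) := by
    intro k
    induction k with
    | zero => exact fun _ => ⟨by simp only [add_zero]; linarith, fun _ => by simpa using hx⟩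
    | succ k ih =>
      intro hk
      have h1 := (ih (by omega)).2 (by omega)
      have h2 := (abs_le.mp (ha (l0 + k))).2
      have h3 : a (l0 + (k + 1)) ≤ s + 2 * e := by
        rw [← add_assoc]; linarith
      refine ⟨h3, fun hlt => ?_⟩
      rcases hz (l0 + (k + 1)) (by omega) hlt with h | h
      · linarith
      · linarith
  have B : ∀ k, k ≤ l0 → a (l0 - k) ≤ s + 2 * e ∧ (0 < l0 - k → a (l0 - k) ≤ s + e) := by
    intro k
    induction k with
    | zero => exact fun _ => ⟨by simp only [Nat.sub_zero]; linarith, fun _ => by simpa using hx⟩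
    | succ k ih =>
      intro hk
      have h1 := (ih (by omega)).2 (by omega)
      have h2 := (abs_le.mp (ha (l0 - (k + 1)))).1
      have e1 : l0 - (k + 1) + 1 = l0 - k := by omega
      rw [e1] at h2
      have h3 : a (l0 - (k + 1)) ≤ s + 2 * e := by linarith
      refine ⟨h3, fun hlt => ?_⟩
      rcases hz (l0 - (k + 1)) hlt (by omega) with h | h
      · linarith
      · linarith
  intro l' hl'
  by_cases hc : l0 ≤ l'
  · obtain ⟨k, rfl⟩ := Nat.exists_eq_add_of_le hc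
    exact (F k hl').1
  · have e1 : l' = l0 - (l0 - l') := by omega
    rw [e1]
    exact (B _ (by omega)).1

namespace Sys

variable (S : Sys f g ε I)

theorem g2a_pow_succ (n : ℕ) (j : I) : (S.R ^ (n + 1)) j = S.R ((S.R ^ n) j) := by
  rw [pow_succ', Equiv.Perm.mul_apply]

theorem g2a_xs (hε : 0 ≤ ε) (j : I) (k : ℕ) :
    |S.x ((S.R ^ (k + 1)) j) - S.x ((S.R ^ k) j)| ≤ ε := by
  rw [S.g2a_pow_succ]; exact S.xstep hε _

theorem g2a_step {s φ : ℝ} (hs : Sm f ε s φ) {j : I} (hj : S.InB s j) : S.StepF s j :=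
  S.step hs.εpos (by linarith [hs.le16, hs.εpos]) hj

theorem g2a_t {s φ : ℝ} (hs : Sm f ε s φ) {j : I} (hj : S.InB s j) :
    S.t1 j = 1 ∨ S.t1 j = -1 := (S.g2a_step hs hj).g1.1.ht

theorem g2a_inc {s φ : ℝ} (hs : Sm f ε s φ) {j : I} (hj : S.InB s j) :
    ε * φ / 2 ≤ S.t1 j * (S.x (S.R j) - S.x j) := by
  have st := S.g2a_step hs hj
  have hsp : 0 < s := by linarith [hs.le16, hs.εpos]
  have h1 : 2 * ε / s ≤ φ / 2 := by
    rw [div_le_iff₀ hsp]; linarith [hs.leφ]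
  have h2 := hs.low (S.x j) ⟨hj.1, hj.2⟩
  have h3 := (abs_le.mp st.hR).1
  have h4 : φ / 2 ≤ S.h3 j := by linarith
  have h5 := mul_le_mul_of_nonneg_left h4 hs.εpos.le
  rw [st.xR]
  rcases S.g2a_t hs hj with h | h <;> rw [h] <;> linarith

theorem g2a_notInB {s : ℝ} {j : I} (h : ¬ S.InB s j) : S.x j < s ∨ 1 - s < S.x j := by
  by_contra hc
  rw [not_or, not_lt, not_lt] at hc
  exact h hc

theorem g2a_inB {s : ℝ} (hs : s ≤ 1 / 4) (i : I) : ∃ n : ℕ, S.InB s ((S.R ^ n) i) := by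
  obtain ⟨n, h1, h2⟩ := S.hbulk i
  refine ⟨n, ?_, ?_⟩
  · show s ≤ (S.P ((S.R ^ n) i)).1
    linarith
  · show (S.P ((S.R ^ n) i)).1 ≤ 1 - s
    linarith

theorem h_R (j : I) : S.h (S.R j) = S.h3 j := by simp [h]

theorem Run.mono {S : Sys f g ε I} {s : ℝ} {j : I} {n m : ℕ} (h : S.Run s j n) (hm : m ≤ n) :
    S.Run s j m := fun l hl => h l (hl.trans hm)

theorem Run.shift {S : Sys f g ε I} {s : ℝ} {j : I} {n m : ℕ} (h : S.Run s j (m + n)) :
    S.Run s ((S.R ^ m) j) n := fun l hl => by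
  have := h (l + m) (by omega)
  rwa [pow_add, Equiv.Perm.mul_apply] at this

theorem InB.mono {S : Sys f g ε I} {s s' : ℝ} {j : I} (h : S.InB s j) (hs : s' ≤ s) :
    S.InB s' j := ⟨hs.trans h.1, h.2.trans (by linarith)⟩

theorem run_mono {s φ : ℝ} (hs : Sm f ε s φ) {j : I} {n : ℕ} (h : S.Run s j n) {l l' : ℕ}
    (hl : l ≤ l') (hl' : l' ≤ n + 1) :
    S.t1 ((S.R ^ l') j) = S.t1 j ∧
      ((l' : ℝ) - l) * (ε * φ / 2) ≤ S.t1 j * (S.x ((S.R ^ l') j) - S.x ((S.R ^ l) j)) := by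
  have ht : ∀ k, k ≤ n + 1 → S.t1 ((S.R ^ k) j) = S.t1 j := by
    intro k
    induction k with
    | zero => intro _; simp
    | succ k ih =>
      intro hk
      rw [S.g2a_pow_succ, (S.g2a_step hs (h k (by omega))).tR]
      exact ih (by omega)
  refine ⟨ht l' hl', ?_⟩
  obtain ⟨k, rfl⟩ := Nat.exists_eq_add_of_le hl
  clear hl
  induction k with
  | zero => simp
  | succ k ih =>
    have h1 := ih (by omega)
    have h2 := S.g2a_inc hs (h (l + k) (by omega))
    rw [ht (l + k) (by omega), ← S.g2a_pow_succ] at h2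
    rw [← add_assoc]
    simp only [Nat.cast_add, Nat.cast_one] at h1 ⊢
    linarith

theorem run_len {s φ : ℝ} (hs : Sm f ε s φ) {j : I} {n : ℕ} (h : S.Run s j n) :
    n * ε ≤ 2 / φ := by
  have h1 := (S.run_mono hs h (l := 0) (l' := n) (Nat.zero_le _) (by omega)).2
  have h2 := S.x_mem ((S.R ^ n) j)
  have h3 := S.x_mem ((S.R ^ 0) j)
  have h4 := S.g2a_t hs (h 0 (Nat.zero_le _))
  simp only [pow_zero, Equiv.Perm.coe_one, id_eq] at h4
  rw [le_div_iff₀ hs.φpos]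
  simp only [Nat.cast_zero, sub_zero] at h1
  rcases h4 with h4 | h4 <;> rw [h4] at h1 <;> linarith [h2.1, h2.2, h3.1, h3.2]

theorem g2a_not_all {s φ : ℝ} (hs : Sm f ε s φ) (h : ∀ n : ℕ, ∃ j, S.Run s j n) : False := by
  obtain ⟨n, hn⟩ := exists_nat_gt (2 / φ / ε)
  obtain ⟨j, hj⟩ := h n
  have := S.run_len hs hj
  rw [div_lt_iff₀ hs.εpos] at hn
  linarith

theorem exit_fwd {s φ : ℝ} (hs : Sm f ε s φ) {j : I} (hj : S.InB s j) :
    ∃ n, S.Run s j n ∧ ¬ S.InB s ((S.R ^ (n + 1)) j) ∧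
      (S.t1 j = 1 → 1 - s - ε < S.x ((S.R ^ n) j)) ∧ (S.t1 j = -1 → S.x ((S.R ^ n) j) < s + ε) :=
  by
  classical
  have hex : ∃ n, ¬ S.InB s ((S.R ^ (n + 1)) j) := by
    by_contra hc
    rw [not_exists] at hc
    refine S.g2a_not_all hs fun n => ⟨j, fun l _ => ?_⟩
    cases l with
    | zero => simpa using hj
    | succ l => exact not_not.mp (hc l)
  have hrun : S.Run s j (Nat.find hex) := by
    intro l hl
    cases l with
    | zero => simpa using hj
    | succ l => exact not_not.mp (Nat.find_min hex (by omega))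
  have hout := Nat.find_spec hex
  refine ⟨Nat.find hex, hrun, hout, ?_⟩
  generalize Nat.find hex = n at hrun hout
  have h1 := (S.run_mono hs hrun (l := n) (l' := n + 1) (by omega) le_rfl).2
  have h2 := abs_le.mp (S.g2a_xs hs.εpos.le j n)
  have h3 := hrun n le_rfl
  have h4 : 0 < ε * φ / 2 := by have := hs.εpos; have := hs.φpos; positivity
  simp only [Nat.cast_add, Nat.cast_one] at h1
  have h5 := S.g2a_notInB hout
  constructor
  · intro ht
    rw [ht] at h1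
    rcases h5 with h5 | h5 <;> linarith [h3.1, h3.2, h2.1, h2.2]
  · intro ht
    rw [ht] at h1
    rcases h5 with h5 | h5 <;> linarith [h3.1, h3.2, h2.1, h2.2]

theorem g2a_pow_inv (k l : ℕ) (hl : l ≤ k) (j : I) :
    (S.R ^ l) ((S.R⁻¹ ^ k) j) = (S.R⁻¹ ^ (k - l)) j := by
  obtain ⟨m, rfl⟩ := Nat.exists_eq_add_of_le hl
  rw [Nat.add_sub_cancel_left, pow_add, Equiv.Perm.mul_apply, inv_pow S.R l]
  simp

theorem exit_bwd {s φ : ℝ} (hs : Sm f ε s φ) {j : I} (hj : S.InB s j) :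
    ∃ n j', (S.R ^ n) j' = j ∧ S.Run s j' n ∧
      (S.t1 j = 1 → S.x j' < s + ε) ∧ (S.t1 j = -1 → 1 - s - ε < S.x j') := by
  classical
  have hex : ∃ n, ¬ S.InB s ((S.R⁻¹ ^ (n + 1)) j) := by
    by_contra hc
    rw [not_exists] at hc
    refine S.g2a_not_all hs fun n => ⟨(S.R⁻¹ ^ n) j, fun l hl => ?_⟩
    rw [S.g2a_pow_inv n l hl]
    generalize n - l = m
    cases m with
    | zero => simpa using hj
    | succ m => exact not_not.mp (hc m)
  have hrun : S.Run s ((S.R⁻¹ ^ (Nat.find hex)) j) (Nat.find hex) := by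
    intro l hl
    rw [S.g2a_pow_inv _ l hl]
    have hm : Nat.find hex - l ≤ Nat.find hex := Nat.sub_le _ _
    generalize Nat.find hex - l = m at hm
    cases m with
    | zero => simpa using hj
    | succ m => exact not_not.mp (Nat.find_min hex (by omega))
  have hout := Nat.find_spec hex
  generalize Nat.find hex = n at hrun hout
  have hback : (S.R ^ n) ((S.R⁻¹ ^ n) j) = j := by
    rw [S.g2a_pow_inv n n le_rfl]; simp
  have e1 : (S.R⁻¹ ^ (n + 1)) j = S.R.symm ((S.R⁻¹ ^ n) j) := by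
    rw [pow_succ', Equiv.Perm.mul_apply]; rfl
  rw [e1] at hout
  refine ⟨n, (S.R⁻¹ ^ n) j, hback, hrun, ?_⟩
  generalize (S.R⁻¹ ^ n) j = i at hrun hout hback
  have ht := (S.run_mono hs hrun (l := 0) (l' := n) (by omega) (by omega)).1
  rw [hback] at ht
  have hi : S.InB s i := by simpa using hrun 0 (Nat.zero_le _)
  have st := S.g2a_step hs hi
  have h1 := st.xL
  have h2 : 0 < ε * S.h i := mul_pos hs.εpos st.hpos
  have h3 : ε * S.h i ≤ ε := by
    have := mul_le_mul_of_nonneg_left st.hle hs.εpos.le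
    linarith
  have h5 := S.g2a_notInB hout
  rw [← ht] at h1
  constructor
  · intro h
    rw [h] at h1
    rcases h5 with h5 | h5 <;> linarith [hi.1, hi.2]
  · intro h
    rw [h] at h1
    rcases h5 with h5 | h5 <;> linarith [hi.1, hi.2]

theorem to_window {s φ : ℝ} (hs : Sm f ε s φ) {j : I} (hj : S.InB s j) {x0 : ℝ} (h0 : s ≤ x0)
    (h1 : x0 + ε ≤ 1 - s) :
    (∃ n, S.Run s j n ∧ S.x ((S.R ^ n) j) ∈ Icc x0 (x0 + ε)) ∨
      (∃ n j', (S.R ^ n) j' = j ∧ S.Run s j' n ∧ S.x j' ∈ Icc x0 (x0 + ε)) := by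
  have hb : ∀ n j', (S.R ^ n) j' = j → S.Run s j' n →
      (∃ m ≤ n, S.x ((S.R ^ m) j') ∈ Icc x0 (x0 + ε)) →
      ∃ n j', (S.R ^ n) j' = j ∧ S.Run s j' n ∧ S.x j' ∈ Icc x0 (x0 + ε) := by
    rintro n j' e hr ⟨m, hm, hx⟩
    obtain ⟨k, rfl⟩ := Nat.exists_eq_add_of_le hm
    refine ⟨k, (S.R ^ m) j', ?_, hr.shift, hx⟩
    rw [← e, add_comm, pow_add, Equiv.Perm.mul_apply]
  obtain ⟨n, hr, -, hp, hm⟩ := S.exit_fwd hs hj
  obtain ⟨n', j', e', hr', hp', hm'⟩ := S.exit_bwd hs hj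
  rcases S.g2a_t hs hj with ht | ht
  · by_cases hc : S.x j ≤ x0 + ε
    · obtain ⟨m, hmn, hx⟩ := g2a_ivt_up (a := fun k => S.x ((S.R ^ k) j)) (x0 := x0)
        (S.g2a_xs hs.εpos.le j) (by simpa using hc) n (by linarith [hp ht])
      exact Or.inl ⟨m, hr.mono hmn, hx⟩
    · refine Or.inr (hb n' j' e' hr' ?_)
      refine g2a_ivt_up (a := fun k => S.x ((S.R ^ k) j')) (x0 := x0)
        (S.g2a_xs hs.εpos.le j') ?_ n' ?_
      · simp only [pow_zero, Equiv.Perm.coe_one, id_eq]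
        linarith [hp' ht]
      · show x0 ≤ S.x ((S.R ^ n') j')
        rw [e']
        linarith [not_le.mp hc, hs.εpos]
  · by_cases hc : x0 ≤ S.x j
    · obtain ⟨m, hmn, hx⟩ := g2a_ivt_down (a := fun k => S.x ((S.R ^ k) j)) (x0 := x0)
        (S.g2a_xs hs.εpos.le j) (by simpa using hc) n (by linarith [hm ht])
      exact Or.inl ⟨m, hr.mono hmn, hx⟩
    · refine Or.inr (hb n' j' e' hr' ?_)
      refine g2a_ivt_down (a := fun k => S.x ((S.R ^ k) j')) (x0 := x0)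
        (S.g2a_xs hs.εpos.le j') ?_ n' ?_
      · simp only [pow_zero, Equiv.Perm.coe_one, id_eq]
        linarith [hm' ht]
      · show S.x ((S.R ^ n') j') ≤ x0 + ε
        rw [e']
        linarith [not_le.mp hc, hs.εpos]

theorem reenter_fwd {s : ℝ} (hs : s ≤ 1 / 4) (i : I) :
    ∃ l, 1 ≤ l ∧ S.InB s ((S.R ^ l) i) ∧ ∀ l', 0 < l' → l' < l → ¬ S.InB s ((S.R ^ l') i) := by
  classical
  have hex : ∃ l, 1 ≤ l ∧ S.InB s ((S.R ^ l) i) := by
    obtain ⟨n, hn⟩ := S.g2a_inB hs (S.R i)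
    refine ⟨n + 1, by omega, ?_⟩
    rwa [pow_succ, Equiv.Perm.mul_apply]
  refine ⟨Nat.find hex, (Nat.find_spec hex).1, (Nat.find_spec hex).2, fun l' h0 h1 hc => ?_⟩
  exact Nat.find_min hex h1 ⟨h0, hc⟩

theorem reenter_bwd {s : ℝ} (hs : s ≤ 1 / 4) (i : I) :
    ∃ l j, 1 ≤ l ∧ (S.R ^ l) j = i ∧ S.InB s j ∧
      ∀ l', 0 < l' → l' < l → ¬ S.InB s ((S.R ^ l') j) := by
  classical
  have hex : ∃ l, ∃ j, 1 ≤ l ∧ (S.R ^ l) j = i ∧ S.InB s j := by
    obtain ⟨n, hn⟩ := S.g2a_inB hs i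
    have := S.fin
    have hN : 0 < orderOf S.R := (isOfFinOrder_of_finite S.R).orderOf_pos
    have hle : n + 1 ≤ orderOf S.R * (n + 1) := Nat.le_mul_of_pos_left _ hN
    refine ⟨orderOf S.R * (n + 1) - n, (S.R ^ n) i, by omega, ?_, hn⟩
    rw [← Equiv.Perm.mul_apply, ← pow_add, Nat.sub_add_cancel (by omega), pow_mul,
      pow_orderOf_eq_one]
    simp
  obtain ⟨j, h1, h2, h3⟩ := Nat.find_spec hex
  refine ⟨Nat.find hex, j, h1, h2, h3, fun l' h0 hl hc => ?_⟩
  refine Nat.find_min hex (m := Nat.find hex - l') (by omega) ⟨(S.R ^ l') j, by omega, ?_, hc⟩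
  rw [← Equiv.Perm.mul_apply, ← pow_add, Nat.sub_add_cancel hl.le, h2]

/-- a passage through a zone stays on one side -/
theorem zone_left {s : ℝ} (hε : 0 < ε) (hs : 2 * s + 3 * ε < 1) {i : I} {l : ℕ}
    (hx : ∃ l0 ≤ l, S.x ((S.R ^ l0) i) ≤ s + ε)
    (hz : ∀ l', 0 < l' → l' < l → ¬ S.InB s ((S.R ^ l') i)) :
    ∀ l' ≤ l, S.x ((S.R ^ l') i) ≤ s + 2 * ε := 
  g2a_zone (a := fun k => S.x ((S.R ^ k) i)) hε hs (S.g2a_xs hε.le i) hx
    fun l' h0 h1 => S.g2a_notInB (hz l' h0 h1)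

theorem zone_right {s : ℝ} (hε : 0 < ε) (hs : 2 * s + 3 * ε < 1) {i : I} {l : ℕ}
    (hx : ∃ l0 ≤ l, 1 - s - ε ≤ S.x ((S.R ^ l0) i))
    (hz : ∀ l', 0 < l' → l' < l → ¬ S.InB s ((S.R ^ l') i)) :
    ∀ l' ≤ l, 1 - s - 2 * ε ≤ S.x ((S.R ^ l') i) := by
  have := g2a_zone (a := fun k => 1 - S.x ((S.R ^ k) i)) (l := l) hε hs ?_ ?_ ?_
  · intro l' hl'
    have h := this l' hl'
    linarith
  · intro k
    have h := abs_le.mp (S.g2a_xs hε.le i k)
    rw [abs_le]
    constructor <;> linarith [h.1, h.2]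
  · obtain ⟨l0, h0, h1⟩ := hx
    exact ⟨l0, h0, by linarith⟩
  · intro l' h0 h1
    rcases S.g2a_notInB (hz l' h0 h1) with h | h
    · right; linarith
    · left; linarith

theorem exists_window {s φ : ℝ} (hs : Sm f ε s φ) {τ : ℝ} (hτ : τ = 1 ∨ τ = -1) {x0 : ℝ}
    (h0 : s ≤ x0) (h1 : x0 + ε ≤ 1 - s) : ∃ j, S.t1 j = τ ∧ S.x j ∈ Icc x0 (x0 + ε) := by
  have key : ∃ j, S.InB s j ∧ S.t1 j = τ := by
    obtain ⟨i0⟩ := S.ne
    obtain ⟨n0, hj⟩ := S.g2a_inB hs.s4 i0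
    generalize (S.R ^ n0) i0 = j at hj
    by_cases hc : S.t1 j = τ
    · exact ⟨j, hj, hc⟩
    obtain ⟨n, hr, hout, hp, hm⟩ := S.exit_fwd hs hj
    rw [S.g2a_pow_succ] at hout
    generalize (S.R ^ n) j = i at hout hp hm
    obtain ⟨l, hl, hin, hz⟩ := S.reenter_fwd hs.s4 i
    obtain ⟨k, rfl⟩ : ∃ k, l = k + 1 := ⟨l - 1, by omega⟩
    have hk : 0 < k := by
      rcases Nat.eq_zero_or_pos k with h | h
      · subst h
        exact absurd (by simpa using hin) hout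
      · exact h
    have hnot := S.g2a_notInB (hz k hk (by omega))
    have hsm : 2 * s + 3 * ε < 1 := by linarith [hs.le16, hs.s4, hs.εpos]
    have st := S.g2a_step hs hin
    have h1 := st.xL
    have e1 : S.R.symm ((S.R ^ (k + 1)) i) = (S.R ^ k) i := by
      rw [S.g2a_pow_succ, Equiv.symm_apply_apply]
    rw [e1] at h1
    have h2 : 0 < ε * S.h ((S.R ^ (k + 1)) i) := mul_pos hs.εpos st.hpos
    refine ⟨_, hin, ?_⟩
    rcases S.g2a_t hs hj with ht | ht
    · have hz' := S.zone_right hs.εpos hsm (i := i) (l := k + 1)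
        ⟨0, by omega, by simpa using (hp ht).le⟩ hz k (by omega)
      have hτ' : τ = -1 := by
        rcases hτ with h | h
        · exact absurd (ht.trans h.symm) hc
        · exact h
      rw [hτ']
      rcases S.g2a_t hs hin with h | h
      · rw [h] at h1
        exfalso
        rcases hnot with h5 | h5 <;> linarith [hin.1, hin.2, hs.εpos]
      · exact h
    · have hz' := S.zone_left hs.εpos hsm (i := i) (l := k + 1)
        ⟨0, by omega, by simpa using (hm ht).le⟩ hz k (by omega)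
      have hτ' : τ = 1 := by
        rcases hτ with h | h
        · exact h
        · exact absurd (ht.trans h.symm) hc
      rw [hτ']
      rcases S.g2a_t hs hin with h | h
      · exact h
      · rw [h] at h1
        exfalso
        rcases hnot with h5 | h5 <;> linarith [hin.1, hin.2, hs.εpos]
  obtain ⟨j, hj, ht⟩ := key
  rcases S.to_window hs hj h0 h1 with ⟨n, hr, hx⟩ | ⟨n, j', e, hr, hx⟩
  · exact ⟨_, ((S.run_mono hs hr (l := 0) (l' := n) (by omega) (by omega)).1).trans ht, hx⟩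
  · have := (S.run_mono hs hr (l := 0) (l' := n) (by omega) (by omega)).1
    rw [e] at this
    exact ⟨j', this.symm.trans ht, hx⟩

end Sys

end XR
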