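import Pool.Agent.P.MP_408b1f_gt.Geo2

/-! Geometry near the left and right ends, with margins.
nearL: heightL and c.nearL give the heights; they lie in [3 eta/4, 1 - 3 eta/4] so both horizontal
edges are genuine (g2_of); x (T i) = x i - t2 g (y) with g y >= 4 sigma0 > x i forces t2 i = -1,
and g y <= 1 - 2 rho <= 1 - 8 sigma0. Same for T.symm i (yO_Tsymm).
nearL_t: G2.side with sign (y - yR) = sign of varsigma; u.1 has the sign of t1 (G1).
ls: with A = T i, R A = T (R i): yO (R i) - yO i = yP (R A) - yP A = p (x (R A) - x A), p is between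
kP (R A) and kP A, both of absolute value in [eta/2, 1/sigma0] (hslope, g1_of) and of the sign of
- t1 A (u.2 < 0 since t2 = -1, and t1 (R A) = t1 A); h3 A in [f0/2, 1]. Similarly yP with
B = T.symm i and sandO. Right versions by S.neg, c.neg (Mg0.neg, Small.neg).
mid_iff, mid_t2: G2.side. -/

open Set MeasureTheory Filter Topology

noncomputable section

namespace XR

variable {f g : ℝ → ℝ} {ε : ℝ} {I : Type} {S : Sys f g ε I} {yL yR ς ys : ℝ}

theorem geo3_slope {s t a b c M : ℝ} (hs : s = 1 ∨ s = -1) (ht : t = 1 ∨ t = -1)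
    (ha : 0 < t * a) (hb : 0 < s * b) (h1 : c * |a| ≤ |b|) (h2 : |b / a| ≤ M) :
    c ≤ s * t * (b / a) ∧ s * t * (b / a) ≤ M := by
  have ha0 : a ≠ 0 := by rintro rfl; simp at ha
  have e : s * t * (b / a) = |b / a| := by
    rw [abs_div]
    rcases hs with rfl | rfl <;> rcases ht with rfl | rfl
    · rw [abs_of_pos (by linarith only [hb] : 0 < b), abs_of_pos (by linarith : 0 < a)]; ring
    · rw [abs_of_pos (by linarith : 0 < b), abs_of_neg (by linarith : a < 0)]; field_simp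
    · rw [abs_of_neg (by linarith : b < 0), abs_of_pos (by linarith : 0 < a)]; ring
    · rw [abs_of_neg (by linarith : b < 0), abs_of_neg (by linarith : a < 0)]; field_simp
  rw [e]
  refine ⟨?_, h2⟩
  rw [abs_div, le_div_iff₀ (abs_pos.2 ha0)]
  exact h1

theorem geo3_sqrt {s t a1 a2 b1 b2 c M : ℝ} (hs : s = 1 ∨ s = -1) (ht : t = 1 ∨ t = -1)
    (hc : 0 ≤ c) (ha1 : 0 < t * a1) (ha2 : 0 < t * a2) (hb1 : 0 < s * b1) (hb2 : 0 < s * b2)
    (h1 : c * |a1| ≤ |b1|) (h2 : c * |a2| ≤ |b2|) (h3 : |b1 / a1| ≤ M) (h4 : |b2 / a2| ≤ M) :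
    c * √(a1 * a2) ≤ √(b1 * b2) ∧ √(b1 * b2) ≤ M * √(a1 * a2) := by
  have n1 : a1 ≠ 0 := by rintro rfl; simp at ha1
  have n2 : a2 ≠ 0 := by rintro rfl; simp at ha2
  have hM : 0 ≤ M := (abs_nonneg _).trans h3
  have ea : a1 * a2 = |a1| * |a2| := by
    rw [← abs_mul, abs_of_pos]
    rcases ht with rfl | rfl <;> nlinarith only [ha1, ha2]
  have eb : b1 * b2 = |b1| * |b2| := by
    rw [← abs_mul, abs_of_pos]
    rcases hs with rfl | rfl <;> nlinarith only [hb1, hb2]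
  rw [abs_div, div_le_iff₀ (abs_pos.2 n1)] at h3
  rw [abs_div, div_le_iff₀ (abs_pos.2 n2)] at h4
  have p1 := abs_nonneg a1
  have p2 := abs_nonneg a2
  have p3 := abs_nonneg b1
  have p4 := abs_nonneg b2
  constructor
  · rw [← Real.sqrt_sq hc, ← Real.sqrt_mul (sq_nonneg c)]
    apply Real.sqrt_le_sqrt
    rw [ea, eb]
    calc c ^ 2 * (|a1| * |a2|) = (c * |a1|) * (c * |a2|) := by ring
      _ ≤ |b1| * |b2| := mul_le_mul h1 h2 (by positivity) p3
  · rw [← Real.sqrt_sq hM, ← Real.sqrt_mul (sq_nonneg M)]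
    apply Real.sqrt_le_sqrt
    rw [ea, eb]
    calc |b1| * |b2| ≤ (M * |a1|) * (M * |a2|) := mul_le_mul h3 h4 p4 (by positivity)
      _ = M ^ 2 * (|a1| * |a2|) := by ring

theorem geo3_sgn {t s a d : ℝ} (ht : t = 1 ∨ t = -1) (hs : s = 1 ∨ s = -1) (h1 : 0 < t * a)
    (h2 : 0 < a * d) (h3 : 0 < s * d) : t = s := by
  rcases ht with rfl | rfl <;> rcases hs with rfl | rfl
  · rfl
  · nlinarith only [h2, h1, h3]
  · nlinarith only [h2, h1, h3]
  · rfl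

theorem geo3_h {c : Ctx0 f g} (hs : c.Small ε) {j : I} (hj : S.InB (4 * c.σ0) j) :
    S.StepF (4 * c.σ0) j ∧ c.f0 / 2 ≤ S.h3 j ∧ c.f0 / 2 ≤ S.h j := by
  have h0 := c.σ0pos
  have h1 := hs.εpos
  have h2 := hs.leσ
  have h3 := hs.lef
  have h4 := c.f0pos
  have st : S.StepF (4 * c.σ0) j := S.step h1 (by linarith only [h1, h2]) hj
  have hf : c.f0 ≤ f (S.x j) := c.fge _ ⟨by linarith only [h1, h2, hj.1], by linarith only [h1, h2, hj.2]⟩
  have hb : 2 * ε / (4 * c.σ0) ≤ c.f0 / 2 := by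
    rw [div_le_iff₀ (by positivity)]
    nlinarith only [h1, h3]
  have a1 := abs_le.1 st.hR
  have a2 := abs_le.1 st.hL
  exact ⟨st, by linarith only [hf, hb, a1, a1.1], by linarith only [hf, hb, a2, a2.1]⟩

theorem geo3_prod {q e h η f0 σ : ℝ} (he : 0 < e) (hη : 0 < η) (hf : 0 < f0) (hσ : 0 < σ)
    (h1 : η / 2 ≤ q) (h2 : q ≤ 1 / (4 * σ)) (h3 : f0 / 2 ≤ h) (h4 : h ≤ 1) :
    η * f0 / 4 * e ≤ q * e * h ∧ q * e * h ≤ e / σ := by
  have hq : 0 ≤ q := by linarith only [hη, h1]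
  have h5 : q ≤ 1 / σ := h2.trans (one_div_le_one_div_of_le hσ (by linarith only [hσ]))
  constructor
  · have : η / 2 * (f0 / 2) ≤ q * h := mul_le_mul h1 h3 (by positivity) hq
    nlinarith only [he, this]
  · have : q * h ≤ 1 / σ := by nlinarith only [h5, hη, h4, h1]
    calc q * e * h = (q * h) * e := by ring
      _ ≤ 1 / σ * e := mul_le_mul_of_nonneg_right this he.le
      _ = e / σ := by ring

theorem nearL {c : Ctx0 f g} (hs : c.Small ε) (hm : Mg0 c.η S yL yR) {i : I}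
    (hi : S.x i ≤ 2 * c.σ0) :
    |S.yP i - yL| ≤ c.η / 4 ∧ |S.yO i - yL| ≤ c.η / 4 ∧ S.G2 i ∧ S.G2 (S.T.symm i) ∧
      S.t2 i = -1 ∧ S.t2 (S.T.symm i) = 1 ∧ S.InB (4 * c.σ0) (S.T i) ∧
      S.InB (4 * c.σ0) (S.T.symm i) := by
  have h0 := c.σ0pos
  have h1 := hs.εpos
  have h2 := hs.leη
  have h3 := c.σ0ρ
  have h4 := c.ηpos
  have hx := S.x_mem i
  have hn := c.nearL (S.x i) ⟨hx.1, hi⟩
  have a1 : |S.yP i - yL| ≤ c.η / 4 := (S.hK.heightL hm.memL (S.memP i).1).trans hn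
  have a2 : |S.yO i - yL| ≤ c.η / 4 := by
    have := S.hK.heightL hm.memL (S.memO i).1
    rw [S.xO] at this
    exact this.trans hn
  have b1 := abs_le.1 a1
  have b2 := abs_le.1 a2
  have l1 := hm.hL.1
  have l2 := hm.hL.2
  have e := S.yO_Tsymm i
  have g1 : S.G2 i := S.g2_of (by linarith only [h1, h2, b2, l1, b2.1]) (by linarith only [h1, h2, b2, l2, b2.2])
  have g2 : S.G2 (S.T.symm i) :=
    S.g2_of (by rw [e]; linarith only [h1, h2, b1, l1, b1.1]) (by rw [e]; linarith only [h1, h2, b1, l2, b1.2])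
  have x1 := g1.x_eq
  have x2 := g2.x_eq
  rw [e, Equiv.apply_symm_apply] at x2
  have c1 := c.gge (S.yO i) ⟨by linarith only [h1, h2, b2, l1, b2.1], by linarith only [h1, h2, b2, l2, b2.2]⟩
  have c2 := c.gge (S.yP i) ⟨by linarith only [h1, h2, b1, l1, b1.1], by linarith only [h1, h2, b1, l2, b1.2]⟩
  have d1 := c.gle _ (S.yO_mem i)
  have d2 := c.gle _ (S.yP_mem i)
  have m1 := S.x_mem (S.T i)
  have m2 := S.x_mem (S.T.symm i)
  have t1 : S.t2 i = -1 := by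
    rcases g1.1.ht with h | h
    · rw [h] at x1; linarith only [h1, h2, l1, l2, h, hi, h0, x1, c1, m1.1]
    · exact h
  have t2 : S.t2 (S.T.symm i) = 1 := by
    rcases g2.1.ht with h | h
    · exact h
    · rw [h] at x2; linarith only [hi, h0, x2, c2, h1, h2, l1, l2, h, m2.1]
  rw [t1] at x1
  rw [t2] at x2
  exact ⟨a1, a2, g1, g2, t1, t2, ⟨by linarith only [x1, c1, hx.1], by linarith only [hi, h0, h3, x1, d1]⟩,
    ⟨by linarith only [x2, c2, hx.1], by linarith only [hi, h0, h3, x2, d2]⟩⟩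

theorem nearR {c : Ctx0 f g} (hs : c.Small ε) (hm : Mg0 c.η S yL yR) {i : I}
    (hi : 1 - 2 * c.σ0 ≤ S.x i) :
    |S.yP i - yR| ≤ c.η / 4 ∧ |S.yO i - yR| ≤ c.η / 4 ∧ S.G2 i ∧ S.G2 (S.T.symm i) ∧
      S.t2 i = 1 ∧ S.t2 (S.T.symm i) = -1 ∧ S.InB (4 * c.σ0) (S.T i) ∧
      S.InB (4 * c.σ0) (S.T.symm i) := by
  have h := nearL (c := c.neg) (S := S.neg) hs.neg hm.neg (i := i)
    (by rw [Sys.neg_x]; show 1 - S.x i ≤ 2 * c.σ0; linarith)
  obtain ⟨a1, a2, a3, a4, a5, a6, a7, a8⟩ := h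
  simp only [Sys.neg_yP, Sys.neg_yO, Sys.neg_G2, Sys.neg_T, Sys.neg_t2, Sys.neg_InB]
    at a1 a2 a3 a4 a5 a6 a7 a8
  refine ⟨?_, ?_, a3, a4, by linarith only [a5], by linarith only [a6], a7, a8⟩
  · rw [abs_sub_comm, show yR - S.yP i = 1 - S.yP i - (1 - yR) by ring]; exact a1
  · rw [abs_sub_comm, show yR - S.yO i = 1 - S.yO i - (1 - yR) by ring]; exact a2

theorem nearL_t {c : Ctx0 f g} (hs : c.Small ε) (hm : Mg c.η ys S yL yR ς) {i : I}
    (hi : S.x i ≤ 2 * c.σ0) :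
    S.t1 (S.T i) = ς ∧ S.t1 (S.T.symm i) = -ς ∧ c.η / 2 ≤ ς * (S.yO i - ys) ∧
      c.η / 2 ≤ ς * (S.yP i - ys) := by
  obtain ⟨a1, a2, a3, a4, a5, a6, a7, a8⟩ := nearL hs hm.toMg0 hi
  have h0 := c.σ0pos
  have h1 := hs.εpos
  have h2 := hs.leσ
  have h4 := c.ηpos
  have b1 := abs_le.1 a1
  have b2 := abs_le.1 a2
  have sL := hm.sL
  have sR := hm.sR
  have g1 := (S.g1_of h1 (by linarith only [h1, h2]) a7).1
  have g2 := (S.g1_of h1 (by linarith only [h1, h2]) a8).1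
  have s1 := (a3.side hm.memL hm.memR).1 a5 (by linarith only [h1, h2, a7.2])
  have s2 := (a4.side hm.memL hm.memR).2.2.2 a6 (by linarith only [h1, h2, a8.2])
  rw [S.yO_Tsymm] at s2
  have e1 : -(c.η / 4) ≤ ς * (S.yO i - yL) := by
    rcases hm.hς with rfl | rfl <;> linarith only [b2, b2.1, b2.2]
  have e2 : -(c.η / 4) ≤ ς * (S.yP i - yL) := by
    rcases hm.hς with rfl | rfl <;> linarith only [b1, b1.1, b1.2]
  refine ⟨geo3_sgn g1.1.ht hm.hς g1.1.hu s1 (by nlinarith only [h4, sL, sR, e1]), ?_, by nlinarith only [h4, sL, e1], by nlinarith only [h4, sL, e2]⟩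
  refine geo3_sgn (a := (S.u' (S.T.symm i)).1) (d := -(S.yP i - yR)) g2.1.ht ?_ g2.1.hu'
    (by linarith only [s2]) (by nlinarith only [h4, sL, sR, e2])
  rcases hm.hς with rfl | rfl <;> simp

theorem nearR_t {c : Ctx0 f g} (hs : c.Small ε) (hm : Mg c.η ys S yL yR ς) {i : I}
    (hi : 1 - 2 * c.σ0 ≤ S.x i) :
    S.t1 (S.T i) = -ς ∧ S.t1 (S.T.symm i) = ς ∧ c.η / 2 ≤ ς * (ys - S.yO i) ∧
      c.η / 2 ≤ ς * (ys - S.yP i) := by
  have h := nearL_t (c := c.neg) (S := S.neg) hs.neg hm.neg (i := i)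
    (by rw [Sys.neg_x]; show 1 - S.x i ≤ 2 * c.σ0; linarith)
  obtain ⟨a1, a2, a3, a4⟩ := h
  simp only [Sys.neg_yP, Sys.neg_yO, Sys.neg_T, Sys.neg_t1] at a1 a2 a3 a4
  refine ⟨by linarith only [a1], by linarith only [a2], ?_, ?_⟩
  · rw [show ys - S.yO i = 1 - S.yO i - (1 - ys) by ring]; exact a3
  · rw [show ys - S.yP i = 1 - S.yP i - (1 - ys) by ring]; exact a4

theorem deep_of {c : Ctx0 f g} (hm : Mg0 c.η S yL yR) {p : V} (hp : p ∈ S.K)
    (hL : c.η / 4 < |p.2 - yL|) (hR : c.η / 4 < |p.2 - yR|) :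
    2 * c.σ0 < p.1 ∧ p.1 < 1 - 2 * c.σ0 := by
  have b := S.hK.box p hp
  constructor
  · by_contra h
    push Not at h
    have := (S.hK.heightL hm.memL hp).trans (c.nearL p.1 ⟨b.1, h⟩)
    linarith only [hL, this]
  · by_contra h
    push Not at h
    have := (S.hK.heightR hm.memR hp).trans (c.nearR p.1 ⟨h, b.2.1⟩)
    linarith only [hR, this]

/-- points whose height is near 0, 1 or ys are deep -/
theorem deep_of_height {c : Ctx0 f g} (hm : Mg c.η ys S yL yR ς) {p : V} (hp : p ∈ S.K)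
    (h : p.2 < c.η / 2 ∨ 1 - c.η / 2 < p.2 ∨ |p.2 - ys| < c.η / 2) :
    2 * c.σ0 < p.1 ∧ p.1 < 1 - 2 * c.σ0 := by
  have h4 := c.ηpos
  have l := hm.hL
  have r := hm.hR
  have sL := hm.sL
  have sR := hm.sR
  apply deep_of hm.toMg0 hp
  · rw [lt_abs]
    rcases h with h | h | h
    · right; linarith only [h4, l, h, l.1]
    · left; linarith only [h4, l, h, l.2]
    · have := abs_lt.1 h
      rcases hm.hς with rfl | rfl
      · right; linarith only [h4, this, sL, this.2]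
      · left; linarith only [h4, this, sL, this.1]
  · rw [lt_abs]
    rcases h with h | h | h
    · right; linarith only [h4, r, h, r.1]
    · left; linarith only [h4, r, h, r.2]
    · have := abs_lt.1 h
      rcases hm.hς with rfl | rfl
      · left; linarith only [h4, this, sR, this.1]
      · right; linarith only [h4, this, sR, this.2]

theorem ls {c : Ctx0 f g} (hs : c.Small ε) (hm : Mg0 c.η S yL yR) {i : I}
    (hi : S.x i ≤ 2 * c.σ0) (hi' : S.x (S.R i) ≤ 2 * c.σ0) :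
    c.η * c.f0 / 4 * ε ≤ S.yP (S.R i) - S.yP i ∧ S.yP (S.R i) - S.yP i ≤ ε / c.σ0 ∧
      c.η * c.f0 / 4 * ε ≤ S.yO i - S.yO (S.R i) ∧ S.yO i - S.yO (S.R i) ≤ ε / c.σ0 := by
  obtain ⟨a1, a2, a3, a4, a5, a6, a7, a8⟩ := nearL hs hm hi
  obtain ⟨b1, b2, b3, b4, b5, b6, b7, b8⟩ := nearL hs hm hi'
  have h0 := c.σ0pos
  have h1 := hs.εpos
  have h2 := hs.leσ
  have h4 := c.ηpos
  have h5 := c.f0pos
  have l := hm.hL
  have a1' := abs_le.1 a1
  have a2' := abs_le.1 a2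
  have b1' := abs_le.1 b1
  have b2' := abs_le.1 b2
  have hη : 0 < c.η / 2 := by positivity
  have hlt : ε < 4 * c.σ0 := by linarith only [h1, h2]
  obtain ⟨sA, hA, -⟩ := geo3_h hs a7
  obtain ⟨sB, hB, -⟩ := geo3_h hs a8
  have eA : S.R (S.T i) = S.T (S.R i) := S.comm i
  have eB : S.R (S.T.symm i) = S.T.symm (S.R i) := S.comm_symm i
  have gA := S.g1_of h1 hlt a7
  have gA' := S.g1_of h1 hlt b7
  have gB := S.g1_of h1 hlt a8
  have gB' := S.g1_of h1 hlt b8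
  have tA : S.t1 (S.T (S.R i)) = S.t1 (S.T i) := by rw [← eA]; exact sA.tR
  have tB : S.t1 (S.T.symm (S.R i)) = S.t1 (S.T.symm i) := by rw [← eB]; exact sB.tR
  have uA := a3.hslope hη (by linarith only [h4, l, a2', a2'.1, l.1]) (by linarith only [h4, l, a2', a2'.2, l.2])
  have uA' := b3.hslope hη (by linarith only [h4, l, b2', b2'.1, l.1]) (by linarith only [h4, l, b2', b2'.2, l.2])
  have uB := a4.hslope hη (by rw [S.yO_Tsymm]; linarith only [h4, l, a1', a1'.1, l.1])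
    (by rw [S.yO_Tsymm]; linarith only [h4, l, a1', a1'.2, l.2])
  have uB' := b4.hslope hη (by rw [S.yO_Tsymm]; linarith only [h4, l, b1', b1'.1, l.1])
    (by rw [S.yO_Tsymm]; linarith only [h4, l, b1', b1'.2, l.2])
  have kA := geo3_slope a3.1.ht gA.1.1.ht gA.1.1.hu a3.1.hu uA.2.2.1 gA.2.1
  have kA' := geo3_slope b3.1.ht gA'.1.1.ht gA'.1.1.hu b3.1.hu uA'.2.2.1 gA'.2.1
  have kB := geo3_slope a4.1.ht gB.1.1.ht gB.1.1.hu' a4.1.hu' uB.1 gB.2.2.2.1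
  have kB' := geo3_slope b4.1.ht gB'.1.1.ht gB'.1.1.hu' b4.1.hu' uB'.1 gB'.2.2.2.1
  rw [a5] at kA
  rw [b5, tA] at kA'
  rw [a6] at kB
  rw [b6, tB] at kB'
  obtain ⟨p, p1, p2, p3, -⟩ := sA.sandP
  obtain ⟨r, r1, r2, r3, -⟩ := sB.sandO
  have xA := sA.xR
  have xB := sB.xR
  rw [xA, eA, S.yP_T, S.yP_T] at p1
  rw [xB, eB, S.yO_Tsymm, S.yO_Tsymm] at r1
  rw [eA] at p2
  rw [eB] at r3
  simp only [Sys.kP] at p2 p3
  simp only [Sys.kO] at r2 r3
  have q1 : c.η / 2 ≤ -(S.t1 (S.T i) * p) ∧ -(S.t1 (S.T i) * p) ≤ 1 / (4 * c.σ0) := by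
    rcases gA.1.1.ht with h | h <;> rw [h] at kA kA' ⊢ <;>
      constructor <;> linarith only [kA, p3, kA', p2, kA.1, kA.2, kA'.1, kA'.2]
  have q2 : c.η / 2 ≤ S.t1 (S.T.symm i) * r ∧ S.t1 (S.T.symm i) * r ≤ 1 / (4 * c.σ0) := by
    rcases gB.1.1.ht with h | h <;> rw [h] at kB kB' ⊢ <;>
      constructor <;> linarith only [kB, r2, kB', r3, kB.1, kB.2, kB'.1, kB'.2]
  have w1 := geo3_prod h1 h4 h5 h0 q1.1 q1.2 hA sA.h3le
  have w2 := geo3_prod h1 h4 h5 h0 q2.1 q2.2 hB sB.h3le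
  have z1 : S.yO i - S.yO (S.R i) = -(S.t1 (S.T i) * p) * ε * S.h3 (S.T i) := by
    linear_combination -p1
  have z2 : S.yP (S.R i) - S.yP i = S.t1 (S.T.symm i) * r * ε * S.h3 (S.T.symm i) := by
    linear_combination r1
  rw [z1, z2]
  exact ⟨w2.1, w2.2, w1.1, w1.2⟩

theorem lsR {c : Ctx0 f g} (hs : c.Small ε) (hm : Mg0 c.η S yL yR) {i : I}
    (hi : 1 - 2 * c.σ0 ≤ S.x i) (hi' : 1 - 2 * c.σ0 ≤ S.x (S.R i)) :
    c.η * c.f0 / 4 * ε ≤ S.yP i - S.yP (S.R i) ∧ S.yP i - S.yP (S.R i) ≤ ε / c.σ0 ∧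
      c.η * c.f0 / 4 * ε ≤ S.yO (S.R i) - S.yO i ∧ S.yO (S.R i) - S.yO i ≤ ε / c.σ0 := by
  have h := ls (c := c.neg) (S := S.neg) hs.neg hm.neg (i := i)
    (by rw [Sys.neg_x]; show 1 - S.x i ≤ 2 * c.σ0; linarith)
    (by rw [Sys.neg_x]; show 1 - S.x (S.R i) ≤ 2 * c.σ0; linarith)
  obtain ⟨a1, a2, a3, a4⟩ := h
  simp only [Sys.neg_yP, Sys.neg_yO, Sys.neg_R] at a1 a2 a3 a4
  have e1 : c.neg.η = c.η := rfl
  have e2 : c.neg.f0 = c.f0 := rfl
  have e3 : c.neg.σ0 = c.σ0 := rfl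
  rw [e1, e2] at a1 a3
  rw [e3] at a2 a4
  exact ⟨by linarith only [a1], by linarith only [a2], by linarith only [a3], by linarith only [a4]⟩

theorem mid_iff {η : ℝ} (hm : Mg0 η S yL yR) {j : I} (h2 : S.G2 j) (h1 : S.G1 j)
    (h1' : S.G1 (S.T j)) (hx : S.x j ∈ Ioo (0:ℝ) 1) (hx' : S.x (S.T j) ∈ Ioo (0:ℝ) 1) :
    S.t1 j = S.t1 (S.T j) ↔ (S.yO j - yL) * (S.yO j - yR) < 0 := by
  obtain ⟨s1, s2, s3, s4⟩ := h2.side hm.memL hm.memR
  have u1 := h1.1.hu'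
  have u2 := h1'.1.hu
  have key : ∀ {t t' a b d e : ℝ}, (t = 1 ∨ t = -1) → (t' = 1 ∨ t' = -1) → 0 < t * a →
      0 < t' * b → 0 < b * d → a * e < 0 → (t = t' ↔ d * e < 0) := by
    intro t t' a b d e ht ht' ha hb hd he
    rcases ht with rfl | rfl <;> rcases ht' with rfl | rfl
    · have : 0 < d := by nlinarith
      have : e < 0 := by nlinarith only [he, ha]
      exact ⟨fun _ => by nlinarith, fun _ => rfl⟩
    · have : d < 0 := by nlinarith
      have : e < 0 := by nlinarith only [he, ha]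
      exact ⟨fun h => by norm_num at h, fun h => by nlinarith⟩
    · have : 0 < d := by nlinarith only [hd, hb]
      have : 0 < e := by nlinarith only [he, ha]
      exact ⟨fun h => by norm_num at h, fun h => by nlinarith⟩
    · have : d < 0 := by nlinarith only [hd, hb]
      have : 0 < e := by nlinarith only [he, ha]
      exact ⟨fun _ => by nlinarith, fun _ => rfl⟩
  rcases h2.1.ht with h | h
  · exact key h1.1.ht h1'.1.ht u1 u2 (s3 h hx'.1) (s4 h hx.2)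
  · rw [mul_comm]
    exact key h1.1.ht h1'.1.ht u1 u2 (s1 h hx'.2) (s2 h hx.1)

theorem mid_t2 {η : ℝ} (hη : 0 < η) (hm : Mg η ys S yL yR ς) {j : I} (h2 : S.G2 j) (h1 : S.G1 j)
    (h1' : S.G1 (S.T j)) (ht : S.t1 j = S.t1 (S.T j)) : S.t1 j * S.t2 j = -ς := by
  have r := (S.mid_range h1 h1' ht hm.memL hm.memR).2.2
  have x := h2.x_eq
  have gp : 0 < g (S.yO j) := h2.1.hlen
  have sL := hm.sL
  have sR := hm.sR
  rw [x] at r
  rcases h1.1.ht with a | a <;> rcases h2.1.ht with b | b <;> rcases hm.hς with rfl | rfl <;>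
    rw [a, b] at r ⊢ <;> first | (norm_num; done) | (exfalso; nlinarith only [r, hη, gp, sL, sR])

/-- the norms of dy near the left end are comparable with kappa at the deep neighbours -/
theorem nbound (c : Ctx0 f g) : ∃ cN > 0, ∃ CN > 0, ∀ {ε : ℝ} {I : Type} {S : Sys f g ε I}
    {yL yR : ℝ}, c.Small ε → Mg0 c.η S yL yR → ∀ i, S.x i ≤ 2 * c.σ0 →
      cN * S.κ (S.T i) ≤ S.nO i ∧ S.nO i ≤ CN * S.κ (S.T i) ∧
      cN * S.κ (S.T.symm i) ≤ S.nP i ∧ S.nP i ≤ CN * S.κ (S.T.symm i) := by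
  have h0 := c.σ0pos
  have h4 := c.ηpos
  have h5 := c.f0pos
  refine ⟨c.η * c.f0 / 8, by positivity, 1 / (2 * c.σ0), by positivity, ?_⟩
  intro ε I S yL yR hs hm i hi
  obtain ⟨a1, a2, a3, a4, a5, a6, a7, a8⟩ := nearL hs hm hi
  have h1 := hs.εpos
  have h2 := hs.leσ
  have l := hm.hL
  have a1' := abs_le.1 a1
  have a2' := abs_le.1 a2
  have hη : 0 < c.η / 2 := by positivity
  have hlt : ε < 4 * c.σ0 := by linarith only [h1, h2]
  have gA := S.g1_of h1 hlt a7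
  have gB := S.g1_of h1 hlt a8
  have uA := a3.hslope hη (by linarith only [h4, l, a2', a2'.1, l.1]) (by linarith only [h4, l, a2', a2'.2, l.2])
  have uB := a4.hslope hη (by rw [S.yO_Tsymm]; linarith only [h4, l, a1', a1'.1, l.1])
    (by rw [S.yO_Tsymm]; linarith only [h4, l, a1', a1'.2, l.2])
  have kA := geo3_sqrt a3.1.ht gA.1.1.ht hη.le gA.1.1.hu gA.1.1.hv a3.1.hu a3.1.hv uA.2.2.1
    uA.2.2.2.1 gA.2.1 gA.2.2.1
  have kB := geo3_sqrt a4.1.ht gB.1.1.ht hη.le gB.1.1.hu' gB.1.1.hv' a4.1.hu' a4.1.hv' uB.1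
    uB.2.1 gB.2.2.2.1 gB.2.2.2.2.1
  have nA : S.nO i = √((S.u (S.T i)).2 * (S.v (S.T i)).2) := by
    rw [Sys.nO, a3.1.hn]
  have nB : S.nP i = √((S.u' (S.T.symm i)).2 * (S.v' (S.T.symm i)).2) := by
    have := a4.1.hn
    rw [Equiv.apply_symm_apply] at this
    rw [Sys.nP, this]
  rw [← gB.1.1.hn] at kB
  have fin : ∀ j n, S.InB (4 * c.σ0) j → c.η / 2 * S.aP j ≤ n → n ≤ 1 / (4 * c.σ0) * S.aP j →
      c.η * c.f0 / 8 * S.κ j ≤ n ∧ n ≤ 1 / (2 * c.σ0) * S.κ j := by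
    intro j n hj n1 n2
    obtain ⟨st, -, hh⟩ := geo3_h hs hj
    obtain ⟨k1, k2, k3, -, -, k4, k5, k6⟩ := S.kappa_pos h1 (by linarith only [h1, h2]) hj
    have m1 : S.κ j * (c.f0 / 2) ≤ S.W j := by
      rw [k3]; exact mul_le_mul_of_nonneg_left hh k1.le
    have m2 : S.W j ≤ S.κ j := by
      rw [k3]; exact mul_le_of_le_one_right k1.le st.hle
    constructor
    · have : S.κ j * (c.f0 / 4) ≤ S.aP j := by linarith only [k5, m1]
      calc c.η * c.f0 / 8 * S.κ j = c.η / 2 * (S.κ j * (c.f0 / 4)) := by ring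
        _ ≤ c.η / 2 * S.aP j := mul_le_mul_of_nonneg_left this hη.le
        _ ≤ n := n1
    · have : S.aP j ≤ 2 * S.κ j := by linarith only [k6, m2]
      calc n ≤ 1 / (4 * c.σ0) * S.aP j := n2
        _ ≤ 1 / (4 * c.σ0) * (2 * S.κ j) := mul_le_mul_of_nonneg_left this (by positivity)
        _ = 1 / (2 * c.σ0) * S.κ j := by field_simp; ring
  have fA := fin (S.T i) (S.nO i) a7 (by rw [nA]; exact kA.1) (by rw [nA]; exact kA.2)
  have fB := fin (S.T.symm i) (S.nP i) a8 (by rw [nB]; exact kB.1) (by rw [nB]; exact kB.2)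
  exact ⟨fA.1, fA.2, fB.1, fB.2⟩

end XR
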