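import Pool.Agent.P.MP_408b1f_gt.Geo3

/-! kappa is asymptotically equal at both ends of a link.
kap_window. Write j l = R^l j, j' l = T (j l). The heights yO (j l) = yP (j' l) agree, all G2
(g2_of). With r the slope of sandO at j l and p the slope of sandP at j' l: |r| h3 (j l) =
|p| h3 (j' l). nO (j l) = nP (j' l) (hn of G2), nO^2 = kO lO aP^2, nP^2 = kP lP aP'^2, and
kappa (j (l+1)) = aP (j l) rO / h3 (j l) with rO = sqrt ((1 - eps kO)(1 - eps lO)) (see Geo2). So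
kappa (j (l+1)) / kappa (j' (l+1)) = [sqrt (kP' lP') / |p|] [|r| / sqrt (kO lO)] (rO / rO').
The four slope sequences kO, lO (increasing), kP', lP' (decreasing) are bounded by 1/s, so for some
l < n the sum of the four increments is at most 8 / (s n); all slopes have absolute value >= a
(hslope), so the brackets are within 1 plus or minus about 8 / (n a s).
kap_near: for i in InB sigma near the left end use to_window with x0 = sigma0 at level sigma
(run_mono: the intermediate abscissas are between, so all intermediate indices are near the end and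
the T and T.symm images form runs in InB (4 sigma0)), then kap_window with s = sigma0/2,
n = floor (sigma0 / (2 eps)), a = eta / 2 for the link from i and for the link from T.symm i, and
kappa_run on all runs. For i outside InB sigma0 use reenter_bwd, zone_left. Right end by neg.
kap_link: run forward until one of j, T j leaves InB sigma (exit_fwd for both, take the smaller
time); at the last time one of them is near an end. -/

open Set MeasureTheory Filter Topology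

noncomputable section

namespace XR

variable {f g : ℝ → ℝ}

namespace G4

theorem pigeon (F : ℕ → ℝ) {n : ℕ} (hn : 0 < n) {B : ℝ} (h : F n - F 0 ≤ B) :
    ∃ l < n, F (l + 1) - F l ≤ B / n := by
  by_contra hc
  push Not at hc
  have hn' : (0:ℝ) < n := by exact_mod_cast hn
  have h1 : ∑ _l ∈ Finset.range n, B / n < ∑ l ∈ Finset.range n, (F (l + 1) - F l) :=
    Finset.sum_lt_sum_of_nonempty (by simpa using hn.ne')
      fun l hl => hc l (Finset.mem_range.1 hl)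
  rw [Finset.sum_range_sub, Finset.sum_const, Finset.card_range, nsmul_eq_mul,
    mul_div_cancel₀ _ hn'.ne'] at h1
  linarith only [h, h1]

theorem prod_bd {e x y : ℝ} (he : e ≤ 1 / 10) (hx : |x - 1| ≤ e) (hy : |y - 1| ≤ e) :
    (1 - e) ^ 2 ≤ x * y ∧ x * y ≤ (1 + e) ^ 2 := by
  obtain ⟨a1, a2⟩ := abs_le.1 hx
  obtain ⟨b1, b2⟩ := abs_le.1 hy
  constructor
  · rw [sq]; exact mul_le_mul (by linarith only [a1]) (by linarith only [b1]) (by linarith) (by linarith only [he, a1])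
  · rw [sq]; exact mul_le_mul (by linarith) (by linarith) (by linarith only [he, b1]) (by linarith)

theorem quot4 {e x1 x2 x3 x4 : ℝ} (he : e ≤ 1 / 10) (h1 : |x1 - 1| ≤ e) (h2 : |x2 - 1| ≤ e)
    (h3 : |x3 - 1| ≤ e) (h4 : |x4 - 1| ≤ e) : |x3 * x4 / (x1 * x2) - 1| ≤ 5 * e := by
  have he0 : 0 ≤ e := (abs_nonneg _).trans h1
  obtain ⟨a1, a2⟩ := prod_bd he h1 h2
  obtain ⟨b1, b2⟩ := prod_bd he h3 h4
  have hp : 0 < x1 * x2 := lt_of_lt_of_le (by nlinarith only [he]) a1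
  have h5 : 0 ≤ 1 - 5 * e := by linarith only [he]
  rw [abs_le]
  constructor
  · have : 1 - 5 * e ≤ x3 * x4 / (x1 * x2) := by
      rw [le_div_iff₀ hp]
      have h6 := mul_le_mul_of_nonneg_left a2 h5
      have h7 : (1 - 5 * e) * (1 + e) ^ 2 ≤ (1 - e) ^ 2 := by
        nlinarith only [he0, sq_nonneg e, mul_nonneg he0 (sq_nonneg e)]
      linarith only [b1, h6, h7]
    linarith only [this]
  · have : x3 * x4 / (x1 * x2) ≤ 1 + 5 * e := by
      rw [div_le_iff₀ hp]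
      have h6 := mul_le_mul_of_nonneg_left a1 (show 0 ≤ 1 + 5 * e by linarith only [he0])
      have h7 : (1 + e) ^ 2 ≤ (1 + 5 * e) * (1 - e) ^ 2 := by
        nlinarith only [he0, he, mul_nonneg he0 (show 0 ≤ 1 / 10 - e by linarith only [he]), mul_nonneg he0 (sq_nonneg e)]
      linarith
    linarith only [this]

theorem near_one {a e k r : ℝ} (ha : 0 < a) (hk : a ≤ |k|) (hr : |r - k| ≤ e * a) :
    k ≠ 0 ∧ |r / k - 1| ≤ e := by
  have hk0 : 0 < |k| := ha.trans_le hk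
  have hk1 : k ≠ 0 := abs_pos.1 hk0
  have he : 0 ≤ e := by
    by_contra h
    have := mul_neg_of_neg_of_pos (not_le.1 h) ha
    linarith only [hr, this, abs_nonneg (r - k)]
  refine ⟨hk1, ?_⟩
  rw [show r / k - 1 = (r - k) / k by field_simp, abs_div, div_le_iff₀ hk0]
  exact hr.trans (mul_le_mul_of_nonneg_left hk he)

theorem core {A A' h h' k l k' l' r p a e e' y1 y2 y3 y4 : ℝ} (hA : 0 < A) (hA' : 0 < A')
    (hh : 0 < h) (hh' : 0 < h') (hn : A' * (k' * l') = A * (k * l))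
    (hrp : r ^ 2 * h ^ 2 = p ^ 2 * h' ^ 2) (ha : 0 < a) (he : e ≤ 1 / 10) (he' : e' ≤ 1 / 10)
    (hk : a ≤ |k|) (hl : a ≤ |l|) (hk' : a ≤ |k'|) (hl' : a ≤ |l'|)
    (rk : |r - k| ≤ e * a) (rl : |r - l| ≤ e * a) (pk : |p - k'| ≤ e * a) (pl : |p - l'| ≤ e * a)
    (hy1 : |y1 - 1| ≤ e') (hy2 : |y2 - 1| ≤ e') (hy3 : |y3 - 1| ≤ e') (hy4 : |y4 - 1| ≤ e') :
    |√(A' * (y3 * y4)) / h' / (√(A * (y1 * y2)) / h) - 1| ≤ 5 * e + 8 * e' := by
  obtain ⟨k0, x1⟩ := near_one ha hk rk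
  obtain ⟨l0, x2⟩ := near_one ha hl rl
  obtain ⟨k0', x3⟩ := near_one ha hk' pk
  obtain ⟨l0', x4⟩ := near_one ha hl' pl
  have he0 : 0 ≤ e := (abs_nonneg _).trans x1
  have he0' : 0 ≤ e' := (abs_nonneg _).trans hy1
  have hX := quot4 he x1 x2 x3 x4
  have hY := quot4 he' hy1 hy2 hy3 hy4
  have p12 : 0 < y1 * y2 := lt_of_lt_of_le (by nlinarith only [he']) (prod_bd he' hy1 hy2).1
  have p34 : 0 < y3 * y4 := lt_of_lt_of_le (by nlinarith only [he']) (prod_bd he' hy3 hy4).1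
  have r0 : r ≠ 0 := by
    rintro rfl
    rw [zero_div, zero_sub, abs_neg, abs_one] at x1
    linarith
  set Q := √(A' * (y3 * y4)) / h' / (√(A * (y1 * y2)) / h) with hQ
  have hQ0 : 0 ≤ Q := by positivity
  have hQ2 : Q ^ 2 = p / k' * (p / l') / (r / k * (r / l)) * (y3 * y4 / (y1 * y2)) := by
    rw [hQ, div_pow, div_pow, div_pow, Real.sq_sqrt (by positivity), Real.sq_sqrt (by positivity)]
    have e1 : A' = A * (k * l) / (k' * l') := by field_simp; linarith only [hn]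
    have e2 : h ^ 2 = p ^ 2 * h' ^ 2 / r ^ 2 := by field_simp; linarith only [hrp]
    have hp0 : p ≠ 0 := by
      rintro rfl
      rw [zero_div, zero_sub, abs_neg, abs_one] at x3
      linarith only [he, x3]
    have y12 : y1 * y2 ≠ 0 := p12.ne'
    have y1' : y1 ≠ 0 := left_ne_zero_of_mul y12
    have y2' : y2 ≠ 0 := right_ne_zero_of_mul y12
    rw [e2, e1]
    field_simp
  have h1 : |Q - 1| ≤ |Q ^ 2 - 1| := by
    rw [show Q ^ 2 - 1 = (Q - 1) * (Q + 1) by ring, abs_mul]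
    have : 1 ≤ |Q + 1| := by rw [abs_of_nonneg (by linarith only [hQ0])]; linarith only [hQ0]
    nlinarith only [this, abs_nonneg (Q - 1)]
  refine h1.trans ?_
  rw [hQ2]
  set X := p / k' * (p / l') / (r / k * (r / l))
  set Y := y3 * y4 / (y1 * y2)
  have hX' : |X| ≤ 3 / 2 := by
    obtain ⟨b1, b2⟩ := abs_le.1 hX
    rw [abs_le]; constructor <;> linarith only [he, b1, b2]
  calc |X * Y - 1| = |(X - 1) + X * (Y - 1)| := by ring_nf
    _ ≤ |X - 1| + |X| * |Y - 1| := by rw [← abs_mul]; exact abs_add_le _ _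
    _ ≤ 5 * e + 3 / 2 * (5 * e') :=
        add_le_add hX (mul_le_mul hX' hY (abs_nonneg _) (by norm_num))
    _ ≤ 5 * e + 8 * e' := by linarith only [he0']

theorem slope_ge {a : ℝ} {p : V} (hp : p.1 ≠ 0) (h : a * |p.1| ≤ |p.2|) : a ≤ |p.2 / p.1| := by
  rw [abs_div, le_div_iff₀ (abs_pos.2 hp)]; exact h

theorem ne_of_pos {t x : ℝ} (h : 0 < t * x) : x ≠ 0 := by
  rintro rfl; simp at h

theorem mul_pos_of {t x y : ℝ} (hx : 0 < t * x) (hy : 0 < t * y) : 0 < x * y := by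
  have ht : t ≠ 0 := by rintro rfl; simp at hx
  have h1 := mul_pos hx hy
  have h2 : 0 < t ^ 2 := by positivity
  have : t * x * (t * y) = t ^ 2 * (x * y) := by ring
  rw [this] at h1
  exact (mul_pos_iff_of_pos_left h2).1 h1

theorem one_sub_near {ε s k : ℝ} (hε : 0 < ε) (hk : |k| ≤ 1 / s) : |1 - ε * k - 1| ≤ ε / s := by
  rw [show 1 - ε * k - 1 = -(ε * k) by ring, abs_neg, abs_mul, abs_of_pos hε, div_eq_mul_one_div]
  exact mul_le_mul_of_nonneg_left hk hε.le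

variable {ε : ℝ} {I : Type}

/-- the value of kappa at R i in terms of the data at i -/
theorem kappa_R (S : Sys f g ε I) {i : I} (h1 : S.G1 i) (h3 : S.G3 i) :
    S.κ (S.R i) = √((S.u' i).1 * (S.v' i).1 * ((1 - ε * S.kO i) * (1 - ε * S.lO i))) / S.h3 i := by
  have hu := ne_of_pos h1.1.hu'
  have hv := ne_of_pos h1.1.hv'
  have hn : w ε (S.u (S.R i)) * w ε (S.v (S.R i)) = w ε (S.u' i) * w ε (S.v' i) := h3.hn
  rw [Sys.κ, S.h_R, Sys.W, hn]
  congr 2
  simp only [w, Sys.kO, Sys.lO]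
  field_simp

/-- one step with small increments of the four slopes -/
theorem one_step (S : Sys f g ε I) {s a e : ℝ} {i : I} (hε : 0 < ε) (hs : 16 * ε ≤ s)
    (ha : 2 * ε < a) (he : e ≤ 1 / 10) (hi : S.InB s i) (hi' : S.InB s (S.T i))
    (hy : S.yO i ∈ Icc a (1 - a))
    (hinc : S.kO (S.R i) + S.lO (S.R i) - S.kP (S.R (S.T i)) - S.lP (S.R (S.T i)) -
      (S.kO i + S.lO i - S.kP (S.T i) - S.lP (S.T i)) ≤ e * a) :
    |S.κ (S.T (S.R i)) / S.κ (S.R i) - 1| ≤ 5 * e + 8 * (ε / s) := by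
  have ha0 : 0 < a := by linarith only [hε, ha]
  have hs0 : 0 < s := by linarith only [hε, hs]
  have F := S.step hε (by linarith) hi
  have F' := S.step hε (by linarith) hi'
  have G : S.G2 i := S.g2_of (by linarith [hy.1]) (by linarith [hy.2])
  obtain ⟨s1, s2, s3, s4, -⟩ := G.hslope ha0 hy.1 hy.2
  obtain ⟨-, -, -, b1, b2, -⟩ := S.g1_of hε (by linarith) hi
  obtain ⟨-, -, -, b3, b4, -⟩ := S.g1_of hε (by linarith only [hε, hs]) hi'
  obtain ⟨r, hr, r1, r2, r3, r4⟩ := F.sandO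
  obtain ⟨p, hp, p1, p2, p3, p4⟩ := F'.sandP
  have u0 := ne_of_pos F.g1.1.hu'
  have v0 := ne_of_pos F.g1.1.hv'
  have u1 := ne_of_pos F'.g1.1.hu
  have v1 := ne_of_pos F'.g1.1.hv
  have hn1 : (S.u (S.T i)).1 * (S.v (S.T i)).1 = (S.u' (S.T i)).1 * (S.v' (S.T i)).1 :=
    F'.g1.1.hn
  have hn2 : (S.u (S.T i)).2 * (S.v (S.T i)).2 = (S.u' i).2 * (S.v' i).2 := G.1.hn
  rw [← S.comm, kappa_R S F.g1 F.g3, kappa_R S F'.g1 F'.g3, ← hn1]
  have hrp : r ^ 2 * S.h3 i ^ 2 = p ^ 2 * S.h3 (S.T i) ^ 2 := by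
    rw [S.comm, S.yP_T, S.yP_T, hr, ← S.comm, F.xR, F'.xR] at hp
    have e1 : r * S.t1 i * S.h3 i = p * S.t1 (S.T i) * S.h3 (S.T i) := by
      apply mul_left_cancel₀ hε.ne'
      linarith only [hp]
    have t1 : S.t1 i ^ 2 = 1 := by rcases F.g1.1.ht with h | h <;> rw [h] <;> norm_num
    have t2 : S.t1 (S.T i) ^ 2 = 1 := by rcases F'.g1.1.ht with h | h <;> rw [h] <;> norm_num
    have e2 := congrArg (· ^ 2) e1
    simp only [mul_pow, t1, t2, mul_one] at e2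
    exact e2
  refine core (k := S.kO i) (l := S.lO i) (k' := S.kP (S.T i)) (l' := S.lP (S.T i)) (r := r)
    (p := p) (a := a) (mul_pos_of F.g1.1.hu' F.g1.1.hv') (mul_pos_of F'.g1.1.hu F'.g1.1.hv)
    F.h3pos F'.h3pos ?_ hrp ha0 he ?_ (slope_ge u0 s1) (slope_ge v0 s2) (slope_ge u1 s3)
    (slope_ge v1 s4) ?_ ?_ ?_ ?_ (one_sub_near hε b1) (one_sub_near hε b2) (one_sub_near hε b3)
    (one_sub_near hε b4)
  · simp only [Sys.kP, Sys.lP, Sys.kO, Sys.lO]
    field_simp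
    linarith only [hn2]
  · rw [div_le_iff₀ hs0]; linarith only [hε, hs]
  · rw [abs_le]; constructor <;> linarith only [hinc, r1, r2, r3, r4, p1, p2, p3, p4]
  · rw [abs_le]; constructor <;> linarith only [hinc, r1, r2, r3, r4, p1, p2, p3, p4]
  · rw [abs_le]; constructor <;> linarith only [hinc, r1, r2, r3, r4, p1, p3, p4, p2]
  · rw [abs_le]; constructor <;> linarith only [hinc, r1, r2, r3, r4, p1, p2, p3, p4]

end G4

theorem kap_window {ε : ℝ} {I : Type} (S : Sys f g ε I) {s a : ℝ} {n : ℕ} {j : I} (hε : 0 < ε)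
    (hs : 16 * ε ≤ s) (ha : 2 * ε < a) (hn : 100 ≤ n * a * s) (h1 : S.Run s j n)
    (h2 : S.Run s (S.T j) n) (hy : ∀ l ≤ n, S.yO ((S.R ^ l) j) ∈ Icc a (1 - a)) :
    ∃ l ≤ n, |S.κ (S.T ((S.R ^ l) j)) / S.κ ((S.R ^ l) j) - 1| ≤ 100 / (n * a * s) + 100 * ε / s := by
  have ha0 : 0 < a := by linarith
  have hs0 : 0 < s := by linarith
  have hn0 : 0 < n := by
    rcases Nat.eq_zero_or_pos n with h | h
    · rw [h] at hn; norm_num at hn
    · exact h
  have hn1 : (0:ℝ) < n := by exact_mod_cast hn0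
  have hN : 0 < n * a * s := by positivity
  obtain ⟨l, hl, hinc⟩ := G4.pigeon (fun l => S.kO ((S.R ^ l) j) + S.lO ((S.R ^ l) j) -
    S.kP ((S.R ^ l) (S.T j)) - S.lP ((S.R ^ l) (S.T j))) hn0 (B := 8 * (1 / s)) (by
      obtain ⟨-, -, -, b1, b2, -⟩ := S.g1_of hε (by linarith only [hε, hs]) (h1 n le_rfl)
      obtain ⟨-, -, -, b3, b4, -⟩ := S.g1_of hε (by linarith only [hε, hs]) (h1 0 n.zero_le)
      obtain ⟨-, b5, b6, -⟩ := S.g1_of hε (by linarith only [hε, hs]) (h2 n le_rfl)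
      obtain ⟨-, b7, b8, -⟩ := S.g1_of hε (by linarith only [hε, hs]) (h2 0 n.zero_le)
      linarith only [b1, b2, b3, b4, b5, b6, b7, b8, abs_le.1 b1, abs_le.1 b2, abs_le.1 b3, abs_le.1 b4, abs_le.1 b5, abs_le.1 b6,
        abs_le.1 b7, abs_le.1 b8])
  refine ⟨l + 1, hl, ?_⟩
  have hi' : S.InB s (S.T ((S.R ^ l) j)) := by rw [← S.comm_pow]; exact h2 l hl.le
  have he : 8 / (n * a * s) ≤ 1 / 10 := by rw [div_le_iff₀ hN]; linarith only [hn]
  have key := G4.one_step S (e := 8 / (n * a * s)) hε hs ha he (h1 l hl.le) hi' (hy l hl.le) (by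
    have e1 : 8 / (n * a * s) * a = 8 * (1 / s) / n := by field_simp
    simp only [pow_succ', Equiv.Perm.mul_apply, S.comm_pow] at hinc
    rw [e1]; exact hinc)
  rw [pow_succ', Equiv.Perm.mul_apply]
  refine key.trans ?_
  have e2 : 0 < 1 / (n * a * s) := by positivity
  have e3 : 0 < ε / s := by positivity
  have e4 : 8 / (n * a * s) = 8 * (1 / (n * a * s)) := by ring
  have e5 : 100 / (n * a * s) = 100 * (1 / (n * a * s)) := by ring
  have e6 : 100 * ε / s = 100 * (ε / s) := by ring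
  rw [e4, e5, e6]; linarith only [e2, e3]

namespace G4

variable {ε : ℝ} {I : Type}

/-- logarithmic distance of the values of kappa -/
def D (S : Sys f g ε I) (i j : I) : ℝ := |Real.log (S.κ i) - Real.log (S.κ j)|

theorem D_comm (S : Sys f g ε I) (i j : I) : D S i j = D S j i := abs_sub_comm _ _

theorem D_tri (S : Sys f g ε I) (i j k : I) : D S i k ≤ D S i j + D S j k := abs_sub_le _ _ _

theorem D_neg (S : Sys f g ε I) (i j : I) : D S.neg i j = D S i j := by simp [D]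

theorem log_of_ratio {a b e : ℝ} (ha : 0 < a) (hb : 0 < b) (he : e ≤ 1 / 2)
    (h : |a / b - 1| ≤ e) : |Real.log a - Real.log b| ≤ 2 * e := by
  have hq : 0 < a / b := div_pos ha hb
  obtain ⟨h1, h2⟩ := abs_le.1 h
  have he0 : 0 ≤ e := (abs_nonneg _).trans h
  rw [← Real.log_div ha.ne' hb.ne', abs_le]
  set x := a / b
  constructor
  · have h3 := Real.one_sub_inv_le_log_of_pos hq
    have h4 : x⁻¹ ≤ 1 + 2 * e := by
      rw [inv_le_iff_one_le_mul₀ hq]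
      nlinarith only [h1, he, h2, he0, mul_nonneg he0 (show 0 ≤ 1 / 2 - e by linarith only [he])]
    linarith only [h3, h4]
  · linarith [Real.log_le_sub_one_of_pos hq]

theorem ratio_of_log {a b e : ℝ} (ha : 0 < a) (hb : 0 < b) (he : e ≤ 1)
    (h : |Real.log a - Real.log b| ≤ e) : |a / b - 1| ≤ 2 * e := by
  have h1 := Real.abs_exp_sub_one_le (h.trans he)
  rw [Real.exp_sub, Real.exp_log ha, Real.exp_log hb] at h1
  linarith only [h, h1]

/-- smallness of eps -/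
structure Tiny (c : Ctx0 f g) (σ φ θ ε : ℝ) : Prop where
  small : c.Small ε
  sm : Sm f ε σ φ
  σle : σ ≤ c.σ0
  θpos : 0 < θ
  θle : θ ≤ 1 / 100
  e1 : 400 * ε ≤ θ * σ
  e2 : 3200 * ε ≤ θ * (c.σ0 ^ 2 * c.η)

theorem Tiny.neg {c : Ctx0 f g} {σ φ θ : ℝ} (h : Tiny c σ φ θ ε) : Tiny c.neg σ φ θ ε :=
  ⟨h.small.neg, h.sm.neg, h.σle, h.θpos, h.θle, h.e1, h.e2⟩

theorem ev_tiny (c : Ctx0 f g) {σ θ : ℝ} (hσ : 0 < σ) (hσ' : σ ≤ c.σ0) (hθ : 0 < θ)
    (hθ' : θ ≤ 1 / 100) : ∃ φ, ∀ᶠ ε in 𝓝[>] (0:ℝ), Tiny c σ φ θ ε := by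
  obtain ⟨φ, hφ⟩ := c.hf.ev_sm hσ (by linarith only [hσ', hθ, hθ', c.σ0_le])
  have h1 := c.σ0pos
  have h2 := c.ηpos
  refine ⟨φ, ?_⟩
  filter_upwards [hφ, c.ev_small, ev_le (a := θ * σ / 400) (by positivity),
    ev_le (a := θ * (c.σ0 ^ 2 * c.η) / 3200) (by positivity)] with ε a1 a2 a3 a4
  exact ⟨a2, a1, hσ', hθ, hθ', by linarith only [a3, a3.2], by linarith only [a4, a4.2]⟩

variable {c : Ctx0 f g} {σ φ θ : ℝ} {S : Sys f g ε I} {yL yR : ℝ}

theorem Tiny.σpos (h : Tiny c σ φ θ ε) : 0 < σ := by linarith [h.sm.le16, h.sm.εpos]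

theorem Tiny.pos (h : Tiny c σ φ θ ε) {s : ℝ} (hs : σ / 2 ≤ s) {j : I} (hj : S.InB s j) :
    0 < S.κ j :=
  (S.kappa_pos h.sm.εpos (by linarith only [hs, h.sm.le16, h.sm.εpos]) hj).1

theorem Tiny.run (h : Tiny c σ φ θ ε) {s : ℝ} (hs : σ / 2 ≤ s) {j : I} {n : ℕ}
    (hr : S.Run s j n) : D S ((S.R ^ n) j) j ≤ 2 * θ := by
  have hσ := h.σpos
  have hs0 : 0 < s := by linarith
  have h1 := (S.kappa_run h.sm.εpos (by linarith [h.sm.le16]) hr).1
  have h2 : 4 * ε / s ≤ θ := by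
    rw [div_le_iff₀ hs0]
    have := mul_le_mul_of_nonneg_left hs h.θpos.le
    linarith only [this, h.e1, h.sm.εpos]
  exact log_of_ratio (h.pos hs (hr n le_rfl)) (h.pos hs (hr 0 n.zero_le))
    (by linarith only [h.θle]) (h1.trans h2)

/-- the images under T and T.symm of indices near the left end form deep runs -/
theorem runs_of (h : Tiny c σ φ θ ε) (hm : Mg0 c.η S yL yR) {b : I} {m : ℕ}
    (hx : ∀ l ≤ m, S.x ((S.R ^ l) b) ≤ 2 * c.σ0) :
    S.Run (4 * c.σ0) (S.T b) m ∧ S.Run (4 * c.σ0) (S.T.symm b) m := by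
  constructor
  · intro l hl
    rw [S.comm_pow]; exact (nearL h.small hm (hx l hl)).2.2.2.2.2.2.1
  · intro l hl
    rw [S.comm_pow_symm]; exact (nearL h.small hm (hx l hl)).2.2.2.2.2.2.2

theorem runs_D (h : Tiny c σ φ θ ε) (hm : Mg0 c.η S yL yR) {b : I} {m : ℕ}
    (hx : ∀ l ≤ m, S.x ((S.R ^ l) b) ≤ 2 * c.σ0) :
    D S (S.T ((S.R ^ m) b)) (S.T b) ≤ 2 * θ ∧
      D S (S.T.symm ((S.R ^ m) b)) (S.T.symm b) ≤ 2 * θ := by
  obtain ⟨r1, r2⟩ := runs_of h hm hx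
  have hs : σ / 2 ≤ 4 * c.σ0 := by linarith only [h.σle, h.σpos]
  rw [← S.comm_pow, ← S.comm_pow_symm]
  exact ⟨h.run hs r1, h.run hs r2⟩

/-- a link along a long double run -/
theorem link_D (h : Tiny c σ φ θ ε) {j : I} {n : ℕ} (hn : c.σ0 ≤ 4 * ε * n)
    (h1 : S.Run (c.σ0 / 2) j n) (h2 : S.Run (c.σ0 / 2) (S.T j) n)
    (hy : ∀ l ≤ n, S.yO ((S.R ^ l) j) ∈ Icc (c.η / 2) (1 - c.η / 2)) :
    D S (S.T j) j ≤ 6 * θ := by
  have hε := h.sm.εpos
  have h0 := c.σ0pos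
  have hη := c.ηpos
  have hθ := h.θpos
  have hs : σ / 2 ≤ c.σ0 / 2 := by linarith only [h.σle]
  have hN : 200 ≤ θ * (n * (c.η / 2) * (c.σ0 / 2)) := by
    have a1 : θ * (c.σ0 ^ 2 * c.η) ≤ θ * (c.σ0 * c.η) * (4 * ε * n) := by
      have := mul_le_mul_of_nonneg_left hn (show 0 ≤ θ * (c.σ0 * c.η) by positivity)
      nlinarith only [this]
    have a2 : ε * 200 ≤ ε * (θ * (n * (c.η / 2) * (c.σ0 / 2))) := by nlinarith only [a1, h.e2]
    exact le_of_mul_le_mul_left a2 hε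
  have hN0 : 0 ≤ n * (c.η / 2) * (c.σ0 / 2) := by positivity
  have hN1 : 100 ≤ n * (c.η / 2) * (c.σ0 / 2) := by
    have := mul_le_mul_of_nonneg_right h.θle hN0
    linarith only [hN, this]
  obtain ⟨l, hl, hk⟩ := kap_window S hε (by linarith only [hε, h.small.leσ]) (by linarith only [hε, h.small.leη])
    hN1 h1 h2 hy
  have b1 : 100 / (n * (c.η / 2) * (c.σ0 / 2)) ≤ θ / 2 := by
    rw [div_le_iff₀ (by linarith only [hN1])]; linarith only [hN]
  have b2 : 100 * ε / (c.σ0 / 2) ≤ θ / 2 := by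
    rw [div_le_iff₀ (by linarith only [h0])]
    have := mul_le_mul_of_nonneg_left h.σle hθ.le
    linarith only [this, h.e1]
  have p1 : 0 < S.κ (S.T ((S.R ^ l) j)) := by rw [← S.comm_pow]; exact h.pos hs (h2 l hl)
  have d1 : D S (S.T ((S.R ^ l) j)) ((S.R ^ l) j) ≤ 2 * θ :=
    log_of_ratio p1 (h.pos hs (h1 l hl)) (by linarith only [hθ, h.θle]) (by linarith only [hk, b1, b2])
  have d2 := h.run hs (h1.mono hl)
  have d3 := h.run hs (h2.mono hl)
  rw [S.comm_pow, D_comm] at d3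
  have t1 := D_tri S (S.T j) (S.T ((S.R ^ l) j)) j
  have t2 := D_tri S (S.T ((S.R ^ l) j)) ((S.R ^ l) j) j
  linarith only [d1, d2, d3, t1, t2]

theorem win (h : Tiny c σ φ θ ε) (hm : Mg0 c.η S yL yR) {j : I}
    (hj : S.x j ∈ Icc c.σ0 (c.σ0 + ε)) :
    D S (S.T j) j ≤ 6 * θ ∧ D S (S.T.symm j) j ≤ 6 * θ := by
  have hε := h.sm.εpos
  have h0 := c.σ0pos
  have h8 := c.σ0_le
  have hσ := h.small.leσ
  have hη := c.ηpos
  set n := ⌊c.σ0 / (2 * ε)⌋₊ with hndef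
  have n1 : (n : ℝ) * ε ≤ c.σ0 / 2 := by
    have : (n : ℝ) ≤ c.σ0 / (2 * ε) := Nat.floor_le (by positivity)
    rw [le_div_iff₀ (by positivity)] at this
    linarith only [this]
  have n2 : c.σ0 ≤ 4 * ε * n := by
    have : c.σ0 / (2 * ε) < n + 1 := Nat.lt_floor_add_one _
    rw [div_lt_iff₀ (by positivity)] at this
    linarith only [hε, hσ, this]
  have hx : ∀ l ≤ n, c.σ0 / 2 ≤ S.x ((S.R ^ l) j) ∧ S.x ((S.R ^ l) j) ≤ 2 * c.σ0 := by
    intro l hl
    have a1 := abs_le.1 (S.xstep_pow hε.le j l)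
    have a2 : (l : ℝ) * ε ≤ n * ε := mul_le_mul_of_nonneg_right (by exact_mod_cast hl) hε.le
    constructor <;> linarith only [n1, a1, a2, hε, hσ, hj.1, hj.2, a1.1, a1.2]
  have r0 : S.Run (c.σ0 / 2) j n := fun l hl => ⟨(hx l hl).1, by linarith only [hε, h8, hσ, hl, (hx l hl).2]⟩
  obtain ⟨r1, r2⟩ := runs_of h hm fun l hl => (hx l hl).2
  have r1' : S.Run (c.σ0 / 2) (S.T j) n := fun l hl => (r1 l hl).mono (by linarith only [hε, hσ])
  have r2' : S.Run (c.σ0 / 2) (S.T.symm j) n := fun l hl => (r2 l hl).mono (by linarith only [hε, hσ])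
  constructor
  · refine link_D h n2 r0 r1' fun l hl => ?_
    have a1 := abs_le.1 (nearL h.small hm (hx l hl).2).2.1
    constructor <;> linarith only [hη, a1, hm.hL.1, hm.hL.2, a1.1, a1.2]
  · have := link_D h (j := S.T.symm j) n2 r2' (by rwa [Equiv.apply_symm_apply]) fun l hl => by
      have a1 := abs_le.1 (nearL h.small hm (hx l hl).2).1
      rw [S.comm_pow_symm, S.yO_Tsymm]
      constructor <;> linarith only [hη, a1, hm.hL.1, hm.hL.2, a1.1, a1.2]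
    rwa [Equiv.apply_symm_apply, D_comm] at this

/-- the abscissas along a run lie between those of the ends -/
theorem run_le (h : Tiny c σ φ θ ε) {b : I} {m : ℕ} (hr : S.Run σ b m) {X : ℝ}
    (h0 : S.x b ≤ X) (h1 : S.x ((S.R ^ m) b) ≤ X) : ∀ l ≤ m, S.x ((S.R ^ l) b) ≤ X := by
  intro l hl
  have hε := h.sm.εpos
  have hφ := h.sm.φpos
  have a1 := (S.run_mono h.sm hr (Nat.zero_le l) (by omega)).2
  have a2 := (S.run_mono h.sm hr hl (by omega)).2
  have c1 : 0 ≤ ((l : ℝ) - (0 : ℕ)) * (ε * φ / 2) := by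
    rw [Nat.cast_zero, sub_zero]; positivity
  have c2 : 0 ≤ ((m : ℝ) - l) * (ε * φ / 2) :=
    mul_nonneg (sub_nonneg.2 (by exact_mod_cast hl)) (by positivity)
  have hb : S.InB σ b := hr 0 m.zero_le
  rw [pow_zero, Equiv.Perm.one_apply] at a1
  rcases (S.g1_of hε (by linarith only [hε, h.sm.le16]) hb).1.1.ht with t | t
  · rw [t] at a2; linarith only [h1, a2, c2]
  · rw [t] at a1; linarith only [h0, a1, c1]

theorem left_in (h : Tiny c σ φ θ ε) (hm : Mg0 c.η S yL yR) {i : I} (hi : S.x i ≤ 2 * c.σ0)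
    (hb : S.InB σ i) : D S (S.T i) i ≤ 10 * θ ∧ D S (S.T.symm i) i ≤ 10 * θ := by
  have hε := h.sm.εpos
  have h0 := c.σ0pos
  have h8 := c.σ0_le
  have hσ := h.small.leσ
  have hs : σ / 2 ≤ σ := by linarith [h.σpos]
  rcases S.to_window h.sm hb (x0 := c.σ0) h.σle (by linarith only [hε, h8, hσ, h.σle]) with
    ⟨m, hr, hw⟩ | ⟨m, b, rfl, hr, hw⟩
  · obtain ⟨w1, w2⟩ := win h hm hw
    obtain ⟨d1, d2⟩ := runs_D h hm (run_le h hr hi (by linarith [hw.2]))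
    have d0 := h.run hs hr
    rw [D_comm] at d1 d2
    have t1 := D_tri S (S.T i) (S.T ((S.R ^ m) i)) i
    have t2 := D_tri S (S.T ((S.R ^ m) i)) ((S.R ^ m) i) i
    have t3 := D_tri S (S.T.symm i) (S.T.symm ((S.R ^ m) i)) i
    have t4 := D_tri S (S.T.symm ((S.R ^ m) i)) ((S.R ^ m) i) i
    constructor <;> linarith only [w1, d1, d0, t1, t2, w2, d2, t3, t4]
  · obtain ⟨w1, w2⟩ := win h hm hw
    obtain ⟨d1, d2⟩ := runs_D h hm (run_le h hr (by linarith [hw.2]) hi)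
    have d0 := h.run hs hr
    rw [D_comm] at d0
    have t1 := D_tri S (S.T ((S.R ^ m) b)) (S.T b) ((S.R ^ m) b)
    have t2 := D_tri S (S.T b) b ((S.R ^ m) b)
    have t3 := D_tri S (S.T.symm ((S.R ^ m) b)) (S.T.symm b) ((S.R ^ m) b)
    have t4 := D_tri S (S.T.symm b) b ((S.R ^ m) b)
    constructor <;> linarith only [w1, d1, d0, t1, t2, w2, d2, t3, t4]

theorem left_all (h : Tiny c σ φ θ ε) (hm : Mg0 c.η S yL yR) {i : I} (hi : S.x i ≤ 2 * c.σ0) :
    D S (S.T i) (S.T.symm i) ≤ 24 * θ := by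
  have hε := h.sm.εpos
  have h0 := c.σ0pos
  have h8 := c.σ0_le
  have hσ := h.small.leσ
  have hθ := h.θpos
  by_cases hb : S.InB c.σ0 i
  · obtain ⟨d1, d2⟩ := left_in h hm hi (hb.mono h.σle)
    rw [D_comm] at d2
    linarith only [hθ, d1, d2, D_tri S (S.T i) i (S.T.symm i)]
  · have hx : S.x i < c.σ0 := by
      by_contra hc
      exact hb ⟨not_lt.1 hc, by linarith only [hi, hε, h8, hσ]⟩
    obtain ⟨l, j, -, rfl, hj, hz⟩ := S.reenter_bwd (s := c.σ0) (by linarith only [hε, h8, hσ]) i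
    have hz' := S.zone_left hε (by linarith) ⟨l, le_rfl, by linarith⟩ hz
    have hz2 : ∀ l' ≤ l, S.x ((S.R ^ l') j) ≤ 2 * c.σ0 := fun l' hl' => by linarith only [hε, hσ, hl', hz' l' hl']
    obtain ⟨d1, d2⟩ := left_in h hm (hz2 0 l.zero_le) (hj.mono h.σle)
    obtain ⟨d3, d4⟩ := runs_D h hm hz2
    rw [pow_zero, Equiv.Perm.one_apply] at d1 d2
    rw [D_comm] at d2 d4
    have t1 := D_tri S (S.T ((S.R ^ l) j)) (S.T j) (S.T.symm ((S.R ^ l) j))
    have t2 := D_tri S (S.T j) j (S.T.symm ((S.R ^ l) j))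
    have t3 := D_tri S j (S.T.symm j) (S.T.symm ((S.R ^ l) j))
    linarith only [d1, d2, d3, d4, t1, t2, t3]

theorem near_in (h : Tiny c σ φ θ ε) (hm : Mg0 c.η S yL yR) {i : I}
    (hi : S.x i ≤ 2 * c.σ0 ∨ 1 - 2 * c.σ0 ≤ S.x i) (hb : S.InB σ i) :
    D S (S.T i) i ≤ 10 * θ ∧ D S (S.T.symm i) i ≤ 10 * θ := by
  rcases hi with hi | hi
  · exact left_in h hm hi hb
  · have := left_in h.neg hm.neg (i := i) (show 1 - S.x i ≤ 2 * c.σ0 by linarith)
      ((S.neg_InB σ i).2 hb)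
    simpa only [D_neg, Sys.neg_T] using this

theorem near_all (h : Tiny c σ φ θ ε) (hm : Mg0 c.η S yL yR) {i : I}
    (hi : S.x i ≤ 2 * c.σ0 ∨ 1 - 2 * c.σ0 ≤ S.x i) :
    D S (S.T i) (S.T.symm i) ≤ 24 * θ ∧ 0 < S.κ (S.T i) ∧ 0 < S.κ (S.T.symm i) := by
  have hs : σ / 2 ≤ 4 * c.σ0 := by linarith [h.σle, h.σpos]
  rcases hi with hi | hi
  · obtain ⟨-, -, -, -, -, -, b1, b2⟩ := nearL h.small hm hi
    exact ⟨left_all h hm hi, h.pos hs b1, h.pos hs b2⟩
  · obtain ⟨-, -, -, -, -, -, b1, b2⟩ := nearR h.small hm hi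
    have := left_all h.neg hm.neg (i := i) (show 1 - S.x i ≤ 2 * c.σ0 by linarith)
    exact ⟨by simpa only [D_neg, Sys.neg_T] using this, h.pos hs b1, h.pos hs b2⟩

theorem exit_near (h : Tiny c σ φ θ ε) {j : I} (hj : S.InB σ j) :
    ∃ n, S.Run σ j n ∧ (S.x ((S.R ^ n) j) ≤ 2 * c.σ0 ∨ 1 - 2 * c.σ0 ≤ S.x ((S.R ^ n) j)) := by
  obtain ⟨n, hr, -, a1, a2⟩ := S.exit_fwd h.sm hj
  have hε := h.sm.εpos
  have hσ := h.small.leσ
  refine ⟨n, hr, ?_⟩
  rcases (S.g1_of hε (by linarith [h.sm.le16]) hj).1.1.ht with t | t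
  · exact Or.inr (by linarith [a1 t, h.σle])
  · exact Or.inl (by linarith [a2 t, h.σle])

theorem link_all (h : Tiny c σ φ θ ε) (hm : Mg0 c.η S yL yR) {j : I} (hj : S.InB σ j)
    (hj' : S.InB σ (S.T j)) : D S (S.T j) j ≤ 14 * θ := by
  have hs : σ / 2 ≤ σ := by linarith [h.σpos]
  obtain ⟨n1, r1, e1⟩ := exit_near h hj
  obtain ⟨n2, r2, e2⟩ := exit_near h hj'
  have fin : ∀ m, m ≤ n1 → m ≤ n2 → D S (S.T ((S.R ^ m) j)) ((S.R ^ m) j) ≤ 10 * θ →
      D S (S.T j) j ≤ 14 * θ := by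
    intro m m1 m2 d
    have d1 := h.run hs (r1.mono m1)
    have d2 := h.run hs (r2.mono m2)
    rw [S.comm_pow, D_comm] at d2
    have t1 := D_tri S (S.T j) (S.T ((S.R ^ m) j)) j
    have t2 := D_tri S (S.T ((S.R ^ m) j)) ((S.R ^ m) j) j
    linarith only [d, d1, d2, t1, t2]
  rcases le_total n1 n2 with hle | hle
  · exact fin n1 le_rfl hle (near_in h hm e1 (r1 n1 le_rfl)).1
  · have := (near_in h hm e2 (r2 n2 le_rfl)).2
    rw [S.comm_pow, Equiv.symm_apply_apply, D_comm] at this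
    exact fin n2 hle le_rfl this

theorem ratio_le (S : Sys f g ε I) {i j : I} {δ d : ℝ} (hi : 0 < S.κ i) (hj : 0 < S.κ j)
    (hd : D S i j ≤ d) (h1 : d ≤ 1) (h2 : 2 * d ≤ δ) :
    |S.κ i / S.κ j - 1| ≤ δ ∧ |S.κ j / S.κ i - 1| ≤ δ :=
  ⟨(ratio_of_log hi hj h1 hd).trans h2,
    (ratio_of_log hj hi h1 (by rw [abs_sub_comm]; exact hd)).trans h2⟩

end G4

theorem kap_near (c : Ctx0 f g) {σ δ : ℝ} (hσ : 0 < σ) (hσ' : σ ≤ c.σ0) (hδ : 0 < δ) :
    EvG0 c fun _ _ S _ _ => ∀ i, (S.x i ≤ 2 * c.σ0 ∨ 1 - 2 * c.σ0 ≤ S.x i) →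
      |S.κ (S.T i) / S.κ (S.T.symm i) - 1| ≤ δ ∧ |S.κ (S.T.symm i) / S.κ (S.T i) - 1| ≤ δ ∧
      (S.InB σ i → |S.κ (S.T i) / S.κ i - 1| ≤ δ ∧ |S.κ (S.T.symm i) / S.κ i - 1| ≤ δ) := by
  have hθ : 0 < min δ 1 / 100 := by positivity
  have hθ1 : min δ 1 / 100 ≤ 1 / 100 := by linarith only [min_le_right δ 1]
  have hθ2 : min δ 1 / 100 ≤ δ / 100 := by linarith only [min_le_left δ 1]
  obtain ⟨φ, hφ⟩ := G4.ev_tiny c hσ hσ' hθ hθ1
  filter_upwards [hφ] with ε h I S yL yR hm i hi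
  obtain ⟨d, p1, p2⟩ := G4.near_all h hm hi
  obtain ⟨q1, q2⟩ := G4.ratio_le S (δ := δ) p1 p2 d (by linarith only [hθ1]) (by linarith only [hδ, hθ2])
  refine ⟨q1, q2, fun hb => ?_⟩
  obtain ⟨d1, d2⟩ := G4.near_in h hm hi hb
  have p0 := h.pos (by linarith only [hσ]) hb
  exact ⟨(G4.ratio_le S p1 p0 d1 (by linarith only [hθ1]) (by linarith only [hδ, hθ2])).1,
    (G4.ratio_le S p2 p0 d2 (by linarith only [hθ1]) (by linarith only [hδ, hθ2])).1⟩

theorem kap_link (c : Ctx0 f g) {σ δ : ℝ} (hσ : 0 < σ) (hσ' : σ ≤ c.σ0) (hδ : 0 < δ) :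
    EvG0 c fun _ _ S _ _ => ∀ j, S.InB σ j → S.InB σ (S.T j) →
      |S.κ (S.T j) / S.κ j - 1| ≤ δ ∧ |S.κ j / S.κ (S.T j) - 1| ≤ δ := by
  have hθ : 0 < min δ 1 / 100 := by positivity
  have hθ1 : min δ 1 / 100 ≤ 1 / 100 := by linarith only [min_le_right δ 1]
  have hθ2 : min δ 1 / 100 ≤ δ / 100 := by linarith only [min_le_left δ 1]
  obtain ⟨φ, hφ⟩ := G4.ev_tiny c hσ hσ' hθ hθ1
  filter_upwards [hφ] with ε h I S yL yR hm j hj hj'
  exact G4.ratio_le S (h.pos (by linarith only [hσ]) hj') (h.pos (by linarith only [hσ]) hj)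
    (G4.link_all h hm hj hj') (by linarith only [hθ1]) (by linarith only [hδ, hθ2])

end XR
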