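import Pool.Agent.P.MP_408b1f_gt.HDeg

/-! The case of a horizontal chord of full length: rigidity. -/

open Set MeasureTheory Filter Topology

noncomputable section

namespace XR

variable {f g : ℝ → ℝ} {ys : ℝ}

theorem hc_w_smul (ε s : ℝ) (p : V) : w ε (s • p) = s * w ε p := by simp [w]; ring

theorem hc_nrm {u v : V} (h : Nrm u v) (h0 : det u v = 0) : u = v := by
  rcases h with h | h
  · exact h
  · rw [h0] at h; norm_num at h

theorem hc_edge {ε : ℝ} {I : Type} {S : Sys f g ε I} (ξ : Lin S) {j : I} (h3 : S.G3 j) {s s' : ℝ}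
    (ho : ξ.o j = s • S.u' j) (hp : ξ.p (S.R j) = s' • S.u (S.R j))
    (hs : s ≠ 0 → det (S.u' j) (S.v' j) = 0) : ∃ H > (0:ℝ), s' = s + ξ.e * H := by
  have hz : (S.P (S.R j)).2 - (S.O j).2 = S.t3 j * S.h3 j := by
    have := congrArg Prod.snd h3.hz
    simp only [Prod.snd_add, Prod.smul_snd, smul_eq_mul, mul_one] at this
    linarith
  have hl := ξ.l3 j
  rw [hp, ho, hc_w_smul, hc_w_smul, hz] at hl
  have hu := h3.hu
  have hu' := h3.hu'
  have ht : S.t3 j * S.t3 j = 1 := by rcases h3.ht with h | h <;> simp [h]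
  have hsw : s * w ε (S.u' j) = s * w ε (S.u (S.R j)) := by
    by_cases h0 : s = 0
    · simp [h0]
    · have e1 := hc_nrm (S.nrmO j) (hs h0)
      have e2 := hc_nrm (S.nrmP (S.R j)) (h3.det_eq.trans (hs h0))
      have hn := h3.hn
      rw [← e1, ← e2] at hn
      congr 1
      have : (S.t3 j * w ε (S.u' j) - S.t3 j * w ε (S.u (S.R j))) *
          (S.t3 j * w ε (S.u' j) + S.t3 j * w ε (S.u (S.R j))) = 0 := by
        linear_combination (-(S.t3 j * S.t3 j)) * hn
      rcases mul_eq_zero.1 this with h | h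
      · linear_combination S.t3 j * h - (w ε (S.u' j) - w ε (S.u (S.R j))) * ht
      · linarith
  refine ⟨S.h3 j / (S.t3 j * w ε (S.u (S.R j))), div_pos h3.hlen hu, ?_⟩
  have : (s' - s) * (S.t3 j * w ε (S.u (S.R j))) = ξ.e * S.h3 j := by
    linear_combination S.t3 j * hl + S.t3 j * hsw + ξ.e * S.h3 j * ht
  rw [← mul_div_assoc, ← this, mul_div_assoc, div_self hu.ne', mul_one]; ring

theorem hcase (hf : Half f) (hg : Half g) (hI : ys ∈ Icc (0:ℝ) 1) (h1 : g ys = 1) :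
    ∀ᶠ ε in 𝓝[>] (0:ℝ), ∀ (I : Type) (S : Sys f g ε I), S.HExtra → Rigid S := by
  have y0 : 0 < ys := lt_of_le_of_ne hI.1 fun h => by
    rw [← h, hg.zero0] at h1; norm_num at h1
  have y1 : ys < 1 := lt_of_le_of_ne hI.2 fun h => by
    rw [h, hg.zero1] at h1; norm_num at h1
  filter_upwards [h_deg hf hg hI h1, ev_le (a := ys / 4) (by linarith),
    ev_le (a := (1 - ys) / 4) (by linarith)] with ε hdeg e1 e2 I S hS
  have hT := hS.hTT ys hI h1
  have a0 : 2 * ε < ys := by linarith [e1.1, e1.2]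
  have a1 : ys < 1 - 2 * ε := by linarith [e2.1, e2.2]
  have hcases : ∀ j, (S.x j = 0 ∨ S.x j = 1) ∨ S.x j ∈ Ioo (0:ℝ) 1 := fun j => by
    rcases (S.x_mem j).1.eq_or_lt with h | h
    · exact Or.inl (Or.inl h.symm)
    rcases (S.x_mem j).2.eq_or_lt with h' | h'
    · exact Or.inl (Or.inr h')
    exact Or.inr ⟨h, h'⟩
  obtain ⟨i⟩ := S.ne
  obtain ⟨n, b1, b2⟩ := S.hbulk i
  refine ⟨(S.R ^ n) i, true, fun ξ => ?_⟩
  have hval : ∀ j, ∃ s : ℝ, ξ.p j = s • S.u j ∧ ξ.o j = s • S.u' j ∧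
      ξ.p (S.T j) = s • S.u (S.T j) ∧ (s ≠ 0 → det (S.u' j) (S.v' j) = 0) := fun j => by
    rcases hcases j with h | h
    · obtain ⟨-, -, p0, o0, hx⟩ := h_end hf hg hI h1 a0 a1 ξ h
      obtain ⟨-, -, p1, -, -⟩ := h_end hf hg hI h1 a0 a1 ξ (j := S.T j)
        (by rcases h with h | h <;> simp [hx, h])
      exact ⟨0, by simp [p0], by simp [o0], by simp [p1], fun h => absurd rfl h⟩
    by_cases hx : S.x (S.T j) = S.x j
    · obtain ⟨p0, o0, p1⟩ := hdeg I S hT ξ j h hx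
      exact ⟨0, by simp [p0], by simp [o0], by simp [p1], fun h => absurd rfl h⟩
    · obtain ⟨s, p0, o0, p1, hs⟩ := h_rect hf hg hI h1 hT ξ h hx
      exact ⟨s, p0, o0, p1, fun h' => (h_mid hg hI h1 h).1.det_eq.symm.trans (hs h')⟩
  choose val vp vo vT vd using hval
  have valT : ∀ j, val (S.T j) = val j := fun j =>
    smul_left_injective ℝ (S.tanPK (S.T j)).ne ((vp (S.T j)).symm.trans (vT j))
  have hmax : ∀ j, ¬ Inner (S.K ∩ S.L) (w ε) (S.O j) →
      ∀ p ∈ S.K ∩ S.L, w ε p ≤ w ε (S.P (S.R j)) := fun j hj p hp => by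
    by_contra hlt
    obtain ⟨q, hq, hq'⟩ := hS.hleft (S.R j)
    rw [S.lev3] at hlt hq'
    exact hj ⟨⟨q, hq, hq'⟩, ⟨p, hp, not_le.1 hlt⟩⟩
  have hstep : ∀ j, ∃ H > (0:ℝ), val (S.R j) = val j + ξ.e * H := fun j => by
    by_cases hj : Inner (S.K ∩ S.L) (w ε) (S.O j)
    · exact hc_edge ξ (S.gen3 j hj) (vo j) (vp _) (vd j)
    have hne : S.T j ≠ j := fun hTj => by
      have hy : S.yP j = S.yO j := by rw [← S.yP_T, hTj]
      rcases hcases j with h | h
      · have := (h_end hf hg hI h1 a0 a1 ξ h).2.2.2.2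
        rw [hTj] at this
        rcases h with h | h <;> rw [h] at this <;> norm_num at this
      · obtain ⟨-, q1, q2⟩ := h_mid (S := S) hg hI h1 h
        rw [hy] at q1; linarith
    have hj' : Inner (S.K ∩ S.L) (w ε) (S.O (S.T j)) := by
      by_contra hj'
      exact hne (S.R.injective (hS.hmaxuniq _ _ (hmax _ hj') (hmax _ hj)))
    obtain ⟨H, hH, e⟩ := hc_edge ξ (S.gen3 _ hj') (vo _) (vp _) (vd _)
    rw [S.comm, valT, valT] at e
    exact ⟨H, hH, e⟩
  choose H Hpos Heq using hstep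
  have he : ξ.e = 0 := by
    have := S.fin
    have := Fintype.ofFinite I
    have s1 : ∑ j, val (S.R j) = ∑ j, val j := Equiv.sum_comp S.R val
    simp only [Heq, Finset.sum_add_distrib, ← Finset.mul_sum] at s1
    have s2 : 0 < ∑ j, H j := Finset.sum_pos (fun j _ => Hpos j) ⟨i, Finset.mem_univ _⟩
    have : ξ.e * ∑ j, H j = 0 := by linarith
    exact (mul_eq_zero.1 this).resolve_right s2.ne'
  have valR : ∀ j, val (S.R j) = val j := fun j => by rw [Heq, he]; ring
  have valRn : ∀ (m : ℕ) j, val ((S.R ^ m) j) = val j := fun m j => by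
    induction m with
    | zero => simp
    | succ m ih => rw [pow_succ', Equiv.Perm.mul_apply, valR, ih]
  have valTn : ∀ (m : ℕ) j, val ((S.T ^ m) j) = val j := fun m j => by
    induction m with
    | zero => simp
    | succ m ih => rw [pow_succ', Equiv.Perm.mul_apply, valT, ih]
  refine ⟨he, fun h0 j => ?_⟩
  have hx : S.x ((S.R ^ n) i) ∈ Ioo (0:ℝ) 1 :=
    ⟨by unfold Sys.x; linarith, by unfold Sys.x; linarith⟩
  have hu := (h_mid hg hI h1 hx).1.1.hu
  have v0 : val ((S.R ^ n) i) = 0 := by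
    simp only [if_true, vp, Prod.smul_fst, smul_eq_mul] at h0
    rcases mul_eq_zero.1 h0 with h | h
    · exact h
    · rw [h, mul_zero] at hu; exact absurd hu (lt_irrefl _)
  obtain ⟨a, b, rfl⟩ := S.trans ((S.R ^ n) i) j
  rw [vp, vo, valRn, valTn, v0]
  simp

end XR
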