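import Pool.Agent.P.MP_408b1f_gt.HRect

/-! The case of a horizontal chord of full length: the degenerate rectangle.
Let j have x j in (0,1) and x (T j) = x j, k = T j (so x (T k) = x k too). Neither G2 j nor G2 k holds
(G2.x_eq, hlen), so by g2_of and h_mid one of yP j = yO k, yO j is >= 1 - 2 eps and the other
<= 2 eps; hence f (x j) >= 1 - 4 eps and j is in InB s for a fixed s (Half.small with delta = 1/4).
By gen2, hMb, hMt the point of height near 1 is a highest point of K ∩ L and the other a lowest one;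
so by uniq_top, uniq_bot and inj an index j' of the same kind with t1 j' = t1 j equals j. Hence
R j, R (R j), R.symm j (same t1, different abscissa, step) are nondegenerate and h_rect applies.
P j = O k and O j = P k. Suppose p j differs from 0. Then o j differs from 0 (tr1), o k = p j
(eqx, eqy), smoothness holds at both points. If det (u j) (v j) = 0 then u = v, u' = v'; for O j:
inner_of_smooth (a = Prod.snd) and not G2 j give (u' j).2 = 0, the support inequality and exB, exT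
put yO j in {0, 1}; for P j = O k: again inner_of_smooth with u j, v j gives (u j).2 = 0 and yP j in
{0, 1}. So both Y displacements vanish (rpy, roy), f (x j) = 1 is the maximum (le1), so X = 0 (rpx):
contradiction. So det differs from 0, also at R j, R (R j), R.symm j (G1.det_eq, G3.det_eq), where
therefore p = o = 0. l3 at R j gives e = 0 (hz of G3, h3 > 0), l3 at j and at R.symm j give
w (o j) = 0 = w (p j), so l1 gives m1 X = 0. If X differs from 0, Reg f (x j) contradicts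
SG f (x j) 0. So X = 0 and then Y = 0. -/

open Set MeasureTheory Filter Topology

noncomputable section

namespace XR

variable {f g : ℝ → ℝ} {ys : ℝ}

theorem hdeg_flat {K : Set V} (hK : Fam f g K) {o : ℝ} (ho : o = 1 ∨ o = -1) {p τ : V}
    (hp : p ∈ K) (h : IsTan o K p τ) (h2 : τ.2 = 0) : p.2 = 0 ∨ p.2 = 1 := by
  obtain ⟨xB, hB⟩ := hK.exB
  obtain ⟨xT, hT⟩ := hK.exT
  have a := h.supp _ hB
  have b := h.supp _ hT
  obtain ⟨-, -, c, d⟩ := hK.box p hp
  have n : τ.1 ≠ 0 := fun h1 => h.ne (Prod.ext h1 h2)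
  simp only [det, h2, Prod.snd_sub, zero_mul, sub_zero] at a b
  have n' : o * τ.1 ≠ 0 := mul_ne_zero (by rcases ho with t | t <;> rw [t] <;> norm_num) n
  rcases lt_or_gt_of_ne n' with e | e
  · left; nlinarith
  · right; nlinarith

section

variable {ε : ℝ} {I : Type} {S : Sys f g ε I}

theorem hdeg_ext (hg : Half g) (hI : ys ∈ Icc (0:ℝ) 1) (h1 : g ys = 1)
    (hT : ∀ j, S.T (S.T j) = j) {j : I} (hx : S.x j ∈ Ioo (0:ℝ) 1) (hd : S.x (S.T j) = S.x j) :
    ¬ S.G2 j ∧ ¬ S.G2 (S.T j) ∧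
      (S.t1 j = 1 → (∀ z ∈ S.K ∩ S.L, z.2 ≤ S.yP j) ∧ ∀ z ∈ S.K ∩ S.L, S.yO j ≤ z.2) ∧
      (S.t1 j = -1 → (∀ z ∈ S.K ∩ S.L, S.yP j ≤ z.2) ∧ ∀ z ∈ S.K ∩ S.L, z.2 ≤ S.yO j) := by
  have k : ∀ i, S.x (S.T i) = S.x i → ¬ S.G2 i := by
    intro i hi h
    have e := h.x_eq
    have p : 0 < g (S.yO i) := h.1.hlen
    rcases h.1.ht with t | t <;> rw [t] at e <;> linarith
  have n1 := k j hd
  have n2 := k (S.T j) (by rw [hT, hd])
  have m : ((0:ℝ), ys) ∈ S.K ∩ S.L := ⟨(h_mem hI h1 S.hK).1, (h_mem hI h1 S.hL).1⟩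
  have lo : ∀ i, ¬ S.G2 i → S.yO i < ys → ∀ z ∈ S.K ∩ S.L, S.yO i ≤ z.2 := by
    intro i hi h z hz
    by_contra h'
    exact hi (S.gen2 i ⟨⟨z, hz, not_le.1 h'⟩, ⟨_, m, h⟩⟩)
  have hi : ∀ i, ¬ S.G2 i → ys < S.yO i → ∀ z ∈ S.K ∩ S.L, z.2 ≤ S.yO i := by
    intro i hi h z hz
    by_contra h'
    exact hi (S.gen2 i ⟨⟨_, m, h⟩, ⟨z, hz, not_le.1 h'⟩⟩)
  have yk : S.yO (S.T j) = S.yP j := by rw [← S.yP_T, hT]
  obtain ⟨-, a1, a2⟩ := h_mid hg hI h1 hx
  refine ⟨n1, n2, fun t => ?_, fun t => ?_⟩ <;> rw [t] at a1 a2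
  · exact ⟨yk ▸ hi _ n2 (by linarith), lo _ n1 (by linarith)⟩
  · exact ⟨yk ▸ lo _ n2 (by linarith), hi _ n1 (by linarith)⟩

theorem hdeg_uniq (hg : Half g) (hI : ys ∈ Icc (0:ℝ) 1) (h1 : g ys = 1)
    (hT : ∀ j, S.T (S.T j) = j) {i j : I} (hx : S.x i ∈ Ioo (0:ℝ) 1) (hd : S.x (S.T i) = S.x i)
    (hx' : S.x j ∈ Ioo (0:ℝ) 1) (hd' : S.x (S.T j) = S.x j) (ht : S.t1 i = S.t1 j) : i = j := by
  obtain ⟨-, -, a1, a2⟩ := hdeg_ext hg hI h1 hT hx hd
  obtain ⟨-, -, b1, b2⟩ := hdeg_ext hg hI h1 hT hx' hd'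
  refine S.inj ?_
  rcases (h_mid hg hI h1 hx').1.1.ht with t | t
  · exact S.uniq_top hg.zero1 (S.memP i) (S.memP j) (a1 (ht.trans t)).1 (b1 t).1
  · exact S.uniq_bot hg.zero0 (S.memP i) (S.memP j) (a2 (ht.trans t)).1 (b2 t).1

end

theorem h_deg (hf : Half f) (hg : Half g) (hI : ys ∈ Icc (0:ℝ) 1) (h1 : g ys = 1) :
    ∀ᶠ ε in 𝓝[>] (0:ℝ), ∀ (I : Type) (S : Sys f g ε I), (∀ j, S.T (S.T j) = j) →
      ∀ (ξ : Lin S) (j : I), S.x j ∈ Ioo (0:ℝ) 1 → S.x (S.T j) = S.x j →
        ξ.p j = 0 ∧ ξ.o j = 0 ∧ ξ.p (S.T j) = 0 := by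
  obtain ⟨s, hs, hsm⟩ := hf.small (δ := 1 / 4) (by norm_num)
  filter_upwards [ev_le (a := s / 16) (by positivity), ev_le (a := 1 / 16) (by positivity)]
    with ε e1 e2 I S hT ξ j hx hd
  have hε := e1.1
  obtain ⟨g1, -, -⟩ := h_mid hg hI h1 hx
  obtain ⟨n2, n2', hext⟩ := hdeg_ext hg hI h1 hT hx hd
  have yd := g1.ydiff
  -- j lies in the bulk
  have hB : S.InB s j := by
    obtain ⟨pb, hpb, b1⟩ := S.hMb
    obtain ⟨pt, hpt, b2⟩ := S.hMt
    have : 1 - 4 * ε ≤ f (S.x j) := by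
      rcases g1.1.ht with t | t
      · obtain ⟨c1, c2⟩ := hext.1 t
        have := c1 _ hpt; have := c2 _ hpb
        rw [t] at yd; linarith
      · obtain ⟨c1, c2⟩ := hext.2 t
        have := c1 _ hpb; have := c2 _ hpt
        rw [t] at yd; linarith
    by_contra h
    have := hsm _ (S.x_mem j) ((S.g2a_notInB h).imp le_of_lt le_of_lt)
    linarith [e2.2]
  have st := S.step hε (by linarith [e1.2]) hB
  obtain ⟨-, hR, hL⟩ := S.geo1_nb hε hB
  have st' := S.step hε (by linarith [e1.2]) hR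
  obtain ⟨-, hRR, -⟩ := S.geo1_nb hε hR
  have io : ∀ {i : I} {s' : ℝ}, 0 < s' → S.InB s' i → S.x i ∈ Ioo (0:ℝ) 1 := fun h0 h =>
    ⟨by linarith [h.1], by linarith [h.2]⟩
  have t0 : S.t1 j ≠ 0 := by rcases g1.1.ht with t | t <;> rw [t] <;> norm_num
  have nd : ∀ i, S.x i ∈ Ioo (0:ℝ) 1 → S.t1 i = S.t1 j → S.x i ≠ S.x j →
      det (S.u i) (S.v i) ≠ 0 → ξ.p i = 0 ∧ ξ.o i = 0 := by
    intro i hi ht hne hdet
    have : S.x (S.T i) ≠ S.x i := fun h =>
      hne (by rw [hdeg_uniq hg hI h1 hT hi h hx hd ht])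
    obtain ⟨r, a1, a2, -, a4⟩ := h_rect hf hg hI h1 hT ξ hi this
    have r0 : r = 0 := by by_contra h; exact hdet (a4 h)
    rw [r0, zero_smul] at a1 a2
    exact ⟨a1, a2⟩
  have T1 := tr1 ξ g1
  have hp : ξ.p j = 0 := by
    by_contra hp
    have ho : ξ.o j ≠ 0 := fun h => hp (T1.zero.2 h)
    by_cases hdet : det (S.u j) (S.v j) = 0
    · have n : ∀ a b : V, Nrm a b → det a b = 0 → a = b := fun a b h h0 =>
        h.resolve_right (by rw [h0]; norm_num)
      have q1 := n _ _ (S.nrmP j) hdet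
      have q2 := n _ _ (S.nrmO j) (T1.det_eq.trans hdet)
      have dd : ∀ p : V, p.2 = dot (0, 1) p := fun p => by simp [dot]
      have PO : S.P j = S.O (S.T j) :=
        Prod.ext (by rw [S.xO, hd]; rfl) (by have := S.yP_T (S.T j); rw [hT] at this; exact this)
      have c1 : (S.u' j).2 = 0 := by
        by_contra h
        refine n2 (S.gen2 j (inner_of_smooth S.hK.body S.hL.body (Or.inr rfl) (S.memO j).1
          (S.memO j).2 (smoothO ξ ho).1 (smoothO ξ ho).2 (S.tanOK j) (S.tanOL j) dd ?_))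
        rw [← q2]; exact mul_self_pos.2 h
      have c2 : (S.u j).2 = 0 := by
        by_contra h
        refine n2' (S.gen2 _ (PO ▸ inner_of_smooth S.hK.body S.hL.body (Or.inl rfl) (S.memP j).1
          (S.memP j).2 (smoothP ξ hp).1 (smoothP ξ hp).2 (S.tanPK j) (S.tanPL j) dd ?_))
        rw [← q1]; exact mul_self_pos.2 h
      have d1 : S.yO j = 0 ∨ S.yO j = 1 :=
        hdeg_flat S.hK (Or.inr rfl) (S.memO j).1 (S.tanOK j) c1
      have d2 : S.yP j = 0 ∨ S.yP j = 1 :=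
        hdeg_flat S.hK (Or.inl rfl) (S.memP j).1 (S.tanPK j) c2
      have fp := hf.pos _ hx
      have f1 : f (S.x j) = 1 := by
        rcases g1.1.ht with t | t <;> rcases d1 with d1 | d1 <;> rcases d2 with d2 | d2 <;>
          rw [t, d1, d2] at yd <;> linarith
      refine hp (Prod.ext ?_ ?_)
      · by_contra h
        exact (ξ.rpx j h).2.2.2 (hrect_max hf f1)
      · by_contra h
        obtain ⟨a, b, -⟩ := ξ.rpy j h
        have a' : 0 < S.yP j := a
        have b' : S.yP j < 1 := b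
        rcases d2 with d2 | d2 <;> linarith
    · have dR : det (S.u (S.R j)) (S.v (S.R j)) = det (S.u j) (S.v j) :=
        st.g3.det_eq.trans g1.det_eq.symm
      have dRR : det (S.u (S.R (S.R j))) (S.v (S.R (S.R j))) = det (S.u j) (S.v j) :=
        (st'.g3.det_eq.trans st'.g1.det_eq.symm).trans dR
      have dL : det (S.u (S.R.symm j)) (S.v (S.R.symm j)) = det (S.u j) (S.v j) := by
        have := st.g3L.det_eq
        rw [S.R.apply_symm_apply] at this
        exact st.g1L.det_eq.trans this.symm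
      have xR := st.xR
      have xRR := st'.xR
      have xL := st.xL
      rw [st.tR] at xRR
      have p1 := mul_pos hε st.h3pos
      have p2 := mul_pos hε st'.h3pos
      have p3 := mul_pos hε st.hpos
      obtain ⟨zR, zR'⟩ := nd (S.R j) (io (by linarith [e1.2]) hR) st.tR (by
        rcases g1.1.ht with t | t <;> rw [t] at xR <;> intro h <;> linarith) (dR ▸ hdet)
      obtain ⟨zRR, -⟩ := nd (S.R (S.R j)) (io (by linarith [e1.2]) hRR) (st'.tR.trans st.tR) (by
        rcases g1.1.ht with t | t <;> rw [t] at xR xRR <;> intro h <;> linarith) (dRR ▸ hdet)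
      obtain ⟨-, zL⟩ := nd (S.R.symm j) (io (by linarith [e1.2]) hL) st.tL (by
        rcases g1.1.ht with t | t <;> rw [t] at xL <;> intro h <;> linarith) (dL ▸ hdet)
      have e0 : ξ.e = 0 := by
        have a := ξ.l3 (S.R j)
        have b := congrArg Prod.snd st'.g3.hz
        simp only [Prod.snd_add, Prod.smul_snd, smul_eq_mul, mul_one] at b
        rw [zRR, zR', sub_self, b, add_sub_cancel_left, st'.t3, st.tR] at a
        exact (mul_eq_zero.1 a.symm).resolve_right (mul_ne_zero t0 st'.h3pos.ne')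
      have w1 := ξ.l3 j
      have w2 := ξ.l3 (S.R.symm j)
      rw [S.R.apply_symm_apply, zL, e0] at w2
      rw [zR, e0] at w1
      have ex := ξ.eqx j j (S.lev1 j)
      have l1 := ξ.l1 j g1
      simp only [w, Prod.fst_zero, Prod.snd_zero, mul_zero, sub_zero, zero_mul, zero_sub,
        neg_eq_zero] at w1 w2
      have y0 : (ξ.p j).2 - (ξ.o j).2 = 0 := by
        have : ε * ((ξ.p j).2 - (ξ.o j).2) = 0 := by linarith
        exact (mul_eq_zero.1 this).resolve_left hε.ne'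
      have x0 : (ξ.p j).1 = 0 := by
        by_contra h
        rw [y0] at l1
        have m0 : S.m1 j = 0 :=
          (mul_eq_zero.1 ((mul_eq_zero.1 l1.symm).resolve_right h)).resolve_left t0
        refine (ξ.rpx j h).2.2.2 fun y hy => ?_
        have := g1.2 y hy
        rw [m0, zero_mul, add_zero, ← S.lev1 j] at this
        exact this
      refine hp (Prod.ext x0 ?_)
      have : ε * (ξ.p j).2 = 0 := by linarith
      exact (mul_eq_zero.1 this).resolve_left hε.ne'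
  have ho := T1.zero.1 hp
  refine ⟨hp, ho, Prod.ext ?_ ?_⟩
  · rw [ξ.eqx (S.T j) j (hd.trans (S.xO j).symm), ho]
  · rw [ξ.eqy (S.T j) j (S.lev2 j), ho]

end XR
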