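import Pool.Agent.P.MP_408b1f_gt.ELem3

/-! The case of a horizontal chord of full length: local structure.
If g ys = 1 then (0, ys), (1, ys) lie in K and L (Fam.hor and the box), 0 < ys < 1 (g 0 = g 1 = 0),
ys is the maximum point of g. h_end: P j = O j = the end point (vdist, f 0 = f 1 = 0); Reg fails in
both coordinates; G2 j holds by gen2 (the height ys is Inner by hMb, hMt, g2_of), and G2.x_eq.
h_mid: the end points show Inner, so G1; if the top over x were at height <= ys, concavity of top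
(top 0 = top 1 = ys) would force top <= ys everywhere, against Fam.exT; same for the bottom.
h_rect: k = T j, T k = j. G2 j, G2 k by g2_of_ne; x k is in (0,1) (otherwise yP k = ys by h_end,
against h_mid); t1 k = - t1 j, t2 k = - t2 j (G2.x_eq twice); m2 j and m2 k are nonzero with opposite
signs (Half.sg_lower with delta = the distance to ys). link_of_tr for Tr.trans (tr1 j) (tr2 j) with
the covector (1,0) at both ends has determinant - t2 j m2 j; the same from k to j. Link.loop gives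
bt = 0, and zt = 0 if det u v differs from 0. Transversal: eq_zero_of_zt_bt, take s = 0. Tangential
(u = v by nrmP; u' = v', u k = v k by det_eq and Nrm): par_of_bt and Tr.tangential. -/

open Set MeasureTheory Filter Topology

noncomputable section

namespace XR

variable {f g : ℝ → ℝ} {ε : ℝ} {I : Type} {S : Sys f g ε I} {ys : ℝ}

theorem h_mem (hI : ys ∈ Icc (0:ℝ) 1) (h1 : g ys = 1) {K : Set V} (hK : Fam f g K) :
    ((0:ℝ), ys) ∈ K ∧ ((1:ℝ), ys) ∈ K := by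
  obtain ⟨-, x, hx⟩ := hK.hor ys hI
  rw [h1] at hx
  have a := hK.box _ ((hx x).2 ⟨le_rfl, by linarith⟩)
  have b := hK.box _ ((hx (x + 1)).2 ⟨by linarith, le_rfl⟩)
  have a1 : 0 ≤ x := a.1
  have b1 : x + 1 ≤ 1 := b.2.1
  exact ⟨(hx 0).2 ⟨by linarith, by linarith⟩, (hx 1).2 ⟨by linarith, by linarith⟩⟩

theorem hrect_max (hg : Half g) (h1 : g ys = 1) : IsMaxOn g (Icc 0 1) ys :=
  fun y hy => by
    have := hg.le1 y hy
    simp only [mem_ofPred_eq, h1]
    exact this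

theorem hrect_end (hf : Half f) (hI : ys ∈ Icc (0:ℝ) 1) (h1 : g ys = 1) {j : I}
    (hx : S.x j = 0 ∨ S.x j = 1) : S.yP j = ys ∧ S.yO j = ys := by
  obtain ⟨a, b⟩ := h_mem hI h1 S.hK
  have hm : (S.x j, ys) ∈ S.K := by rcases hx with h | h <;> rw [h] <;> assumption
  have f0 : f (S.x j) = 0 := by
    rcases hx with h | h <;> rw [h]
    exacts [hf.zero0, hf.zero1]
  have c := S.hK.vdist hm (S.memP j).1 rfl
  have d := S.hK.vdist hm (S.memO j).1 (S.xO j).symm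
  simp only [f0, abs_nonpos_iff, sub_eq_zero] at c d
  exact ⟨c.symm, d.symm⟩

theorem h_end (hf : Half f) (hg : Half g) (hI : ys ∈ Icc (0:ℝ) 1) (h1 : g ys = 1)
    (h0 : 2 * ε < ys) (h2 : ys < 1 - 2 * ε) (ξ : Lin S) {j : I} (hx : S.x j = 0 ∨ S.x j = 1) :
    S.yP j = ys ∧ S.yO j = ys ∧ ξ.p j = 0 ∧ ξ.o j = 0 ∧ S.x (S.T j) = 1 - S.x j := by
  obtain ⟨e1, e2⟩ := hrect_end hf hI h1 hx
  have hmax : IsMaxOn g (Icc 0 1) ys := hrect_max hg h1
  have nf : ¬ Reg f (S.x j) := by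
    rintro ⟨a, b, -⟩
    rcases hx with h | h <;> linarith
  have ng : ¬ Reg g ys := fun h => h.2.2.2 hmax
  refine ⟨e1, e2, ?_, ?_, ?_⟩
  · refine Prod.ext ?_ ?_
    · by_contra h; exact nf (ξ.rpx j h)
    · by_contra h; exact ng (e1 ▸ ξ.rpy j h)
  · refine Prod.ext ?_ ?_
    · by_contra h; exact nf (S.xO j ▸ ξ.rox j h)
    · by_contra h; exact ng (e2 ▸ ξ.roy j h)
  · have g2 : S.G2 j := S.g2_of (by rw [e2]; exact h0) (by rw [e2]; exact h2)
    have e := g2.x_eq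
    rw [e2, h1, mul_one] at e
    have m := S.x_mem (S.T j)
    rcases g2.1.ht with t | t <;> rcases hx with h | h <;> rw [t, h] at e <;> rw [h] <;>
      linarith [m.1, m.2]

theorem hrect_seg {K : Set V} (hK : Fam f g K) (h0 : ((0:ℝ), ys) ∈ K) (h1 : ((1:ℝ), ys) ∈ K)
    {a c x : ℝ} (h : (a, c) ∈ K) (hx : x ∈ Ioo (0:ℝ) 1) :
    ∃ τ, 0 < τ ∧ (x, ys + τ * (c - ys)) ∈ K := by
  rcases le_or_gt x a with hxa | hxa
  · have ha : 0 < a := lt_of_lt_of_le hx.1 hxa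
    have h2 : x / a ≤ 1 := (div_le_one ha).2 hxa
    refine ⟨x / a, div_pos hx.1 ha, ?_⟩
    have := hK.body.conv h0 h (sub_nonneg.2 h2) (div_pos hx.1 ha).le (by ring)
    have e : (1 - x / a) • ((0:ℝ), ys) + (x / a) • (a, c) = (x, ys + x / a * (c - ys)) := by
      refine Prod.ext ?_ ?_
      · simp only [Prod.fst_add, Prod.smul_fst, smul_eq_mul]; field_simp; ring
      · simp only [Prod.snd_add, Prod.smul_snd, smul_eq_mul]; ring
    rwa [e] at this
  · have ha : 0 < 1 - a := by linarith [hx.2]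
    have hx1 : 0 < 1 - x := by linarith [hx.2]
    have h2 : (1 - x) / (1 - a) ≤ 1 := (div_le_one ha).2 (by linarith)
    refine ⟨(1 - x) / (1 - a), div_pos hx1 ha, ?_⟩
    have := hK.body.conv h1 h (sub_nonneg.2 h2) (div_pos hx1 ha).le (by ring)
    have e : (1 - (1 - x) / (1 - a)) • ((1:ℝ), ys) + ((1 - x) / (1 - a)) • (a, c)
        = (x, ys + (1 - x) / (1 - a) * (c - ys)) := by
      refine Prod.ext ?_ ?_
      · simp only [Prod.fst_add, Prod.smul_fst, smul_eq_mul]; field_simp; ring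
      · simp only [Prod.snd_add, Prod.smul_snd, smul_eq_mul]; ring
    rwa [e] at this

theorem h_mid (hg : Half g) (hI : ys ∈ Icc (0:ℝ) 1) (h1 : g ys = 1) {j : I}
    (hx : S.x j ∈ Ioo (0:ℝ) 1) :
    S.G1 j ∧ 0 < S.t1 j * (S.yP j - ys) ∧ 0 < S.t1 j * (ys - S.yO j) := by
  obtain ⟨a, b⟩ := h_mem hI h1 S.hK
  obtain ⟨a', b'⟩ := h_mem hI h1 S.hL
  have g1 : S.G1 j := S.gen1 j
    ⟨⟨_, ⟨a, a'⟩, by rw [S.xO]; exact hx.1⟩, ⟨_, ⟨b, b'⟩, by rw [S.xO]; exact hx.2⟩⟩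
  have y0 : 0 < ys := lt_of_le_of_ne hI.1 fun h => by
    rw [← h, hg.zero0] at h1; exact zero_ne_one h1
  have y1 : ys < 1 := lt_of_le_of_ne hI.2 fun h => by
    rw [h, hg.zero1] at h1; exact zero_ne_one h1
  obtain ⟨xT, hT⟩ := S.hK.exT
  obtain ⟨xB, hB⟩ := S.hK.exB
  obtain ⟨τ, hτ, mT⟩ := hrect_seg S.hK a b hT hx
  obtain ⟨τ', hτ', mB⟩ := hrect_seg S.hK a b hB hx
  have c1 := ((S.hK.mem_iff (S.x_mem j) _).1 mT).2
  have c2 := ((S.hK.mem_iff (S.x_mem j) _).1 mB).1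
  have c3 : 0 < τ * (1 - ys) := mul_pos hτ (by linarith)
  have c4 : 0 < τ' * ys := mul_pos hτ' y0
  refine ⟨g1, ?_⟩
  rcases g1.1.ht with t | t
  · obtain ⟨e1, e2⟩ := g1.topbot.1 t
    rw [t, e1, e2]; constructor <;> linarith
  · obtain ⟨e1, e2⟩ := g1.topbot.2 t
    rw [t, e1, e2]; constructor <;> linarith

theorem h_rect (hf : Half f) (hg : Half g) (hI : ys ∈ Icc (0:ℝ) 1) (h1 : g ys = 1)
    (hT : ∀ j, S.T (S.T j) = j) (ξ : Lin S) {j : I} (hx : S.x j ∈ Ioo (0:ℝ) 1)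
    (hne : S.x (S.T j) ≠ S.x j) :
    ∃ s : ℝ, ξ.p j = s • S.u j ∧ ξ.o j = s • S.u' j ∧ ξ.p (S.T j) = s • S.u (S.T j) ∧
      (s ≠ 0 → det (S.u j) (S.v j) = 0) := by
  have g2 : S.G2 j := S.g2_of_ne hg.zero0 hg.zero1 hne
  have g2' : S.G2 (S.T j) := S.g2_of_ne hg.zero0 hg.zero1 (by rw [hT]; exact hne.symm)
  obtain ⟨g1, a1, a2⟩ := h_mid hg hI h1 hx
  have hk : S.x (S.T j) ∈ Ioo (0:ℝ) 1 := by
    have m := S.x_mem (S.T j)
    have : ¬ (S.x (S.T j) = 0 ∨ S.x (S.T j) = 1) := fun h => by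
      have e := (hrect_end hf hI h1 h).1
      rw [S.yP_T] at e
      rw [e, sub_self, mul_zero] at a2
      exact lt_irrefl _ a2
    exact ⟨lt_of_le_of_ne m.1 fun h => this (Or.inl h.symm),
      lt_of_le_of_ne m.2 fun h => this (Or.inr h)⟩
  obtain ⟨g1', -, -⟩ := h_mid hg hI h1 hk
  have yk : S.yO (S.T j) = S.yP j := by rw [← S.yP_T, hT]
  -- signs
  have ht2 : S.t2 j * S.t2 (S.T j) = -1 := by
    have e1 := g2.x_eq
    have e2 := g2'.x_eq
    rw [hT] at e2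
    have p1 : 0 < g (S.yO j) := g2.1.hlen
    have p2 : 0 < g (S.yO (S.T j)) := g2'.1.hlen
    rcases g2.1.ht with t | t <;> rcases g2'.1.ht with t' | t' <;> rw [t] at e1 <;>
      rw [t'] at e2 <;> rw [t, t'] <;> linarith
  have hm : ∀ y ∈ Icc (0:ℝ) 1, y ≠ ys → ∀ m, SG g y m → 0 < m * (ys - y) := by
    intro y hy hne m hm
    obtain ⟨z, -, hz⟩ := hg.sg_lower hI (hrect_max hg h1) (abs_pos.2 (sub_ne_zero.2 hne))
    exact (hz y hy le_rfl m hm).2
  have m1 : 0 < S.m2 j * (ys - S.yO j) := hm _ (S.yO_mem j) (fun h => by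
    rw [h, sub_self, mul_zero] at a2; exact lt_irrefl _ a2) _ g2.2
  have m2 : 0 < S.m2 (S.T j) * (ys - S.yO (S.T j)) := hm _ (S.yO_mem _) (fun h => by
    rw [← yk, h, sub_self, mul_zero] at a1; exact lt_irrefl _ a1) _ g2'.2
  rw [yk] at m2
  have hmm : S.m2 j * S.m2 (S.T j) < 0 := by
    rcases g1.1.ht with t | t <;> rw [t] at a1 a2
    · have b1 : 0 < S.m2 j := by by_contra h; push Not at h; nlinarith
      have b2 : S.m2 (S.T j) < 0 := by by_contra h; push Not at h; nlinarith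
      exact mul_neg_of_pos_of_neg b1 b2
    · have b1 : S.m2 j < 0 := by by_contra h; push Not at h; nlinarith
      have b2 : 0 < S.m2 (S.T j) := by by_contra h; push Not at h; nlinarith
      exact mul_neg_of_neg_of_pos b1 b2
  have T1 := tr1 ξ g1
  have T2 := tr2 ξ g2
  have T12 := T1.trans T2
  have T34 := (tr1 ξ g1').trans (tr2 ξ g2')
  rw [hT] at T34
  have d : ∀ p : V, dot (1, 0) p = p.1 := fun p => by simp [dot]
  have u1 : 0 < S.t1 j * dot (1, 0) (S.u j) := by rw [d]; exact g1.1.hu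
  have v1 : 0 < S.t1 j * dot (1, 0) (S.v j) := by rw [d]; exact g1.1.hv
  have u2 : 0 < S.t1 (S.T j) * dot (1, 0) (S.u (S.T j)) := by rw [d]; exact g1'.1.hu
  have v2 : 0 < S.t1 (S.T j) * dot (1, 0) (S.v (S.T j)) := by rw [d]; exact g1'.1.hv
  have L1 := link_of_tr T12 g1.1.ht g1'.1.ht u1 v1 u2 v2
  have L2 := link_of_tr T34 g1'.1.ht g1.1.ht u2 v2 u1 v1
  rw [T12.det_eq] at L2
  have q1 : 0 < √(dot (1, 0) (S.u j) * dot (1, 0) (S.v j)) :=
    Real.sqrt_pos.2 (linkT_pos g1.1.ht u1 v1).2.2.2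
  have q2 : 0 < √(dot (1, 0) (S.u (S.T j)) * dot (1, 0) (S.v (S.T j))) :=
    Real.sqrt_pos.2 (linkT_pos g1'.1.ht u2 v2).2.2.2
  obtain ⟨hb, hz⟩ := Link.loop (by positivity) L1 L2 (by
    rw [div_mul_div_comm]
    refine div_pos ?_ (by positivity)
    have s1 := linkT_sq g1.1.ht
    have s2 := linkT_sq g1'.1.ht
    simp only [det, pull]
    have : (S.t1 j * S.t1 j) * (S.t1 (S.T j) * S.t1 (S.T j)) * (S.t2 j * S.t2 (S.T j)) *
      (S.m2 j * S.m2 (S.T j)) > 0 := by rw [s1, s2, ht2]; linarith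
    linarith)
  by_cases hd : det (S.u j) (S.v j) = 0
  · have n : ∀ a b : V, Nrm a b → det a b = 0 → a = b := fun a b h h0 =>
      h.resolve_right (by rw [h0]; norm_num)
    have e1 := n _ _ (S.nrmP j) hd
    have e2 := n _ _ (S.nrmO j) (T1.det_eq.trans hd)
    have e3 := n _ _ (S.nrmP (S.T j)) (T12.det_eq.trans hd)
    rw [← e1] at hb
    obtain ⟨s, hs⟩ := par_of_bt g1.1.ht u1 hb
    rw [← e1, ← e2] at T1
    rw [← e2, ← e3] at T2
    have o1 := T1.tangential (S.tanOK j).ne hs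
    exact ⟨s, hs, o1, T2.tangential (S.tanPK _).ne o1, fun _ => hd⟩
  · have z0 := eq_zero_of_zt_bt g1.1.ht u1 v1 (hz (by positivity)) hb
    have z1 := T1.zero.1 z0
    have z2 := T2.zero.1 z1
    exact ⟨0, by rw [z0, zero_smul], by rw [z1, zero_smul], by rw [z2, zero_smul],
      fun h => absurd rfl h⟩

end XR
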