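import Pool.Agent.P.MP_408b1f_gt.Classify

/-! The key estimate along runs and the drift of the link differences.
ke: ke_sum at the level sigma, n eps <= 2 / phi (run_len), kratio. Bound each term
|S theta| |beta| by the sum of three nonnegative quantities: 8 eps^2 / (sigma phi^2) * M / sqrt eps
(incr_bd at the level sigma), and for indices in InB sigma0 (incr_bd with Small.sm gives
|S theta| <= 16 eps^2 / (sigma0 f0^2)) the indicator terms of the four windows (count_window with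
r = rw) and of the two exceptional windows (count_window with r = f0 eps / 4 gives at most 2).
Choose rw and the eta of classify from eta, Cw, sigma0, f0 only; everything else is small when eps is
small. dv: ke for j and T j (comm_pow), kap_link with delta small compared with phi, be. -/

open Set MeasureTheory Filter Topology

noncomputable section

namespace XR

variable {f g : ℝ → ℝ}

private theorem ke_card {n : ℕ} (P : ℕ → Prop) [DecidablePred P] (a : ℝ) :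
    ∑ l ∈ Finset.range n, (if P l then a else 0) = (((Finset.range n).filter P).card : ℝ) * a := by
  rw [← Finset.sum_filter, Finset.sum_const, nsmul_eq_mul]

private theorem ke_small (a b d e : ℝ) {η : ℝ} (hη : 0 < η) :
    ∀ᶠ ε in 𝓝[>] (0:ℝ), a * ε + b * ε ^ 3 + d * √ε + e * ε ≤ η := by
  have hc : Continuous fun ε : ℝ => a * ε + b * ε ^ 3 + d * √ε + e * ε := by fun_prop
  have ht := hc.tendsto' 0 0 (by simp)
  exact (ht.mono_left nhdsWithin_le_nhds).eventually (eventually_le_nhds hη)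

open Classical in
private theorem ke_term {ε : ℝ} {I : Type} {S : Sys f g ε I} (ξ : Lin S) {σ φ σ0 f0 Cw η' rw M : ℝ}
    (hs : Sm f ε σ φ) (hs' : Sm f ε (σ0 / 2) f0) (hCw : 0 ≤ Cw) (hη' : 0 ≤ η') (hM : 0 ≤ M)
    {cen : Fin 4 → ℝ} {ex : Fin 2 → ℝ} {i : I} (hi : S.InB σ i)
    (h : √ε * |ξ.β i| ≤ M ∨
      (S.InB σ0 i ∧ (∃ k, |S.x i - cen k| ≤ rw) ∧ ε * |ξ.β i| ≤ Cw * M) ∨
      (S.InB σ0 i ∧ (∃ k, |S.x i - ex k| ≤ f0 / 4 * ε) ∧ ε ^ 2 * |ξ.β i| ≤ η' * M)) :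
    |S.Sθ i| * |ξ.β i| ≤ 8 / (σ * φ ^ 2) * (ε * √ε * M) +
      ∑ k, (if S.InB (σ0 / 2) i ∧ |S.x i - cen k| ≤ rw then
        16 / (σ0 * f0 ^ 2) * (ε * (Cw * M)) else 0) +
      ∑ k, (if S.InB (σ0 / 2) i ∧ |S.x i - ex k| ≤ f0 / 4 * ε then
        16 / (σ0 * f0 ^ 2) * (η' * M) else 0) := by
  have hε := hs.εpos
  have hφ := hs.φpos
  have hf0 := hs'.φpos
  have hσ : 0 < σ := by linarith [hs.le16]
  have hσ0 : 0 < σ0 := by linarith [hs'.le16]
  have n1 : 0 ≤ 8 / (σ * φ ^ 2) * (ε * √ε * M) := by positivity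
  have p2 : ∀ k ∈ (Finset.univ : Finset (Fin 4)),
      0 ≤ (if S.InB (σ0 / 2) i ∧ |S.x i - cen k| ≤ rw then
        16 / (σ0 * f0 ^ 2) * (ε * (Cw * M)) else 0) := by
    intro k _
    split_ifs
    · positivity
    · exact le_rfl
  have p3 : ∀ k ∈ (Finset.univ : Finset (Fin 2)),
      0 ≤ (if S.InB (σ0 / 2) i ∧ |S.x i - ex k| ≤ f0 / 4 * ε then
        16 / (σ0 * f0 ^ 2) * (η' * M) else 0) := by
    intro k _
    split_ifs
    · positivity
    · exact le_rfl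
  have n2 := Finset.sum_nonneg p2
  have n3 := Finset.sum_nonneg p3
  have hb : 0 ≤ |ξ.β i| := abs_nonneg _
  have deep : S.InB σ0 i → S.InB (σ0 / 2) i ∧
      |S.Sθ i| * |ξ.β i| ≤ 16 / (σ0 * f0 ^ 2) * (ε ^ 2 * |ξ.β i|) := by
    intro h0
    have h1 : S.InB (σ0 / 2) i := ⟨by linarith only [hσ0, h0.1], by linarith [h0.2]⟩
    refine ⟨h1, ?_⟩
    have h2 := (incr_bd ξ hs' h1).1
    have e : 16 / (σ0 * f0 ^ 2) * (ε ^ 2 * |ξ.β i|) =
        8 * ε ^ 2 / (σ0 / 2 * f0 ^ 2) * |ξ.β i| := by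
      field_simp
      ring
    rw [e]
    exact mul_le_mul_of_nonneg_right h2 hb
  have hA : 0 ≤ 16 / (σ0 * f0 ^ 2) := by positivity
  rcases h with h | ⟨h0, ⟨k, hk⟩, h⟩ | ⟨h0, ⟨k, hk⟩, h⟩
  · have h2 := (incr_bd ξ hs hi).1
    have hq : √ε * √ε = ε := Real.mul_self_sqrt hε.le
    have h3 : ε ^ 2 * |ξ.β i| ≤ ε * √ε * M := by
      have : ε ^ 2 * |ξ.β i| = ε * √ε * (√ε * |ξ.β i|) := by
        calc ε ^ 2 * |ξ.β i| = ε * (√ε * √ε) * |ξ.β i| := by rw [hq]; ring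
          _ = _ := by ring
      rw [this]
      exact mul_le_mul_of_nonneg_left h (by positivity)
    have h4 : |S.Sθ i| * |ξ.β i| ≤ 8 / (σ * φ ^ 2) * (ε * √ε * M) := by
      calc |S.Sθ i| * |ξ.β i| ≤ 8 * ε ^ 2 / (σ * φ ^ 2) * |ξ.β i| :=
            mul_le_mul_of_nonneg_right h2 hb
        _ = 8 / (σ * φ ^ 2) * (ε ^ 2 * |ξ.β i|) := by ring
        _ ≤ _ := mul_le_mul_of_nonneg_left h3 (by positivity)
    linarith only [n2, n3, h4]
  · obtain ⟨h1, h2⟩ := deep h0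
    have h3 := Finset.single_le_sum p2 (Finset.mem_univ k)
    rw [if_pos ⟨h1, hk⟩] at h3
    have h4 : ε ^ 2 * |ξ.β i| ≤ ε * (Cw * M) := by
      calc ε ^ 2 * |ξ.β i| = ε * (ε * |ξ.β i|) := by ring
        _ ≤ _ := mul_le_mul_of_nonneg_left h hε.le
    have h5 := mul_le_mul_of_nonneg_left h4 hA
    linarith only [n1, n3, h2, h3, h5]
  · obtain ⟨h1, h2⟩ := deep h0
    have h3 := Finset.single_le_sum p3 (Finset.mem_univ k)
    rw [if_pos ⟨h1, hk⟩] at h3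
    have h5 := mul_le_mul_of_nonneg_left h hA
    linarith only [n1, n2, h2, h3, h5]

private theorem ke_main {ε : ℝ} {I : Type} {S : Sys f g ε I} (ξ : Lin S)
    {σ φ σ0 f0 Cw η' rw M : ℝ}
    (hs : Sm f ε σ φ) (hs' : Sm f ε (σ0 / 2) f0) (hCw : 0 ≤ Cw) (hη' : 0 ≤ η') (hrw : 0 ≤ rw)
    (hM : 0 ≤ M) {cen : Fin 4 → ℝ} {ex : Fin 2 → ℝ}
    (h : ∀ i, S.InB σ i → √ε * |ξ.β i| ≤ M ∨
      (S.InB σ0 i ∧ (∃ k, |S.x i - cen k| ≤ rw) ∧ ε * |ξ.β i| ≤ Cw * M) ∨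
      (S.InB σ0 i ∧ (∃ k, |S.x i - ex k| ≤ f0 / 4 * ε) ∧ ε ^ 2 * |ξ.β i| ≤ η' * M))
    {j : I} {n : ℕ} (hr : S.Run σ j n) :
    ∑ l ∈ Finset.range n, |S.Sθ ((S.R ^ l) j)| * |ξ.β ((S.R ^ l) j)| ≤
      (16 / (σ * φ ^ 3) * √ε + 16 / (σ0 * f0 ^ 2) * (16 * rw / f0 * Cw + 4 * Cw * ε + 4 * η')) *
        M := by
  classical
  have hε := hs.εpos
  have hφ := hs.φpos
  have hf0 := hs'.φpos
  have hσ : 0 < σ := by linarith [hs.le16]
  have hσ0 : 0 < σ0 := by linarith [hs'.le16]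
  have hn := S.run_len hs hr
  have h1 := Finset.sum_le_sum (s := Finset.range n) fun l hl =>
    ke_term ξ hs hs' hCw hη' hM (hr l (Finset.mem_range.1 hl).le)
      (h _ (hr l (Finset.mem_range.1 hl).le))
  rw [Finset.sum_add_distrib, Finset.sum_add_distrib, Finset.sum_const, Finset.card_range,
    nsmul_eq_mul, Finset.sum_comm, Finset.sum_comm (t := (Finset.univ : Finset (Fin 2)))] at h1
  have a1 : (n : ℝ) * (8 / (σ * φ ^ 2) * (ε * √ε * M)) ≤ 16 / (σ * φ ^ 3) * √ε * M := by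
    calc (n : ℝ) * (8 / (σ * φ ^ 2) * (ε * √ε * M))
        = (n * ε) * (8 / (σ * φ ^ 2) * (√ε * M)) := by ring
      _ ≤ (2 / φ) * (8 / (σ * φ ^ 2) * (√ε * M)) :=
        mul_le_mul_of_nonneg_right hn (by positivity)
      _ = _ := by field_simp; ring
  have a2 : ∑ k, ∑ l ∈ Finset.range n,
      (if S.InB (σ0 / 2) ((S.R ^ l) j) ∧ |S.x ((S.R ^ l) j) - cen k| ≤ rw then
        16 / (σ0 * f0 ^ 2) * (ε * (Cw * M)) else 0) ≤
      ∑ _k : Fin 4, (4 * rw / (ε * f0) + 1) * (16 / (σ0 * f0 ^ 2) * (ε * (Cw * M))) := by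
    refine Finset.sum_le_sum fun k _ => ?_
    rw [ke_card]
    refine mul_le_mul_of_nonneg_right ?_ (by positivity)
    have := count_window hs hs' hr (cen k) hrw
    exact le_of_eq_of_le (by congr) this
  have a3 : ∑ k, ∑ l ∈ Finset.range n,
      (if S.InB (σ0 / 2) ((S.R ^ l) j) ∧ |S.x ((S.R ^ l) j) - ex k| ≤ f0 / 4 * ε then
        16 / (σ0 * f0 ^ 2) * (η' * M) else 0) ≤
      ∑ _k : Fin 2, (4 * (f0 / 4 * ε) / (ε * f0) + 1) * (16 / (σ0 * f0 ^ 2) * (η' * M)) := by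
    refine Finset.sum_le_sum fun k _ => ?_
    rw [ke_card]
    refine mul_le_mul_of_nonneg_right ?_ (by positivity)
    have := count_window hs hs' hr (ex k) (r := f0 / 4 * ε) (by positivity)
    exact le_of_eq_of_le (by congr) this
  rw [Finset.sum_const, Finset.card_univ, Fintype.card_fin, nsmul_eq_mul] at a2 a3
  have e2 : ((4 : ℕ) : ℝ) * ((4 * rw / (ε * f0) + 1) * (16 / (σ0 * f0 ^ 2) * (ε * (Cw * M)))) =
      16 / (σ0 * f0 ^ 2) * (16 * rw / f0 * Cw + 4 * Cw * ε) * M := by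
    push_cast
    field_simp
    ring
  have e3 : ((2 : ℕ) : ℝ) * ((4 * (f0 / 4 * ε) / (ε * f0) + 1) * (16 / (σ0 * f0 ^ 2) * (η' * M))) =
      16 / (σ0 * f0 ^ 2) * (4 * η') * M := by
    push_cast
    field_simp
    ring
  rw [e2] at a2
  rw [e3] at a3
  calc _ ≤ _ := h1
    _ ≤ 16 / (σ * φ ^ 3) * √ε * M + 16 / (σ0 * f0 ^ 2) * (16 * rw / f0 * Cw + 4 * Cw * ε) * M +
        16 / (σ0 * f0 ^ 2) * (4 * η') * M := add_le_add (add_le_add a1 a2) a3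
    _ = _ := by ring

theorem ke (c : Ctx f g) {η : ℝ} (hη : 0 < η) : EvAll c fun _ σ _ _ S ξ M => ∀ (j) (n : ℕ),
    S.Run σ j n → |S.κ j * (ξ.ζ ((S.R ^ n) j) - ξ.ζ j) - n * ξ.e| ≤ η * M := by
  obtain ⟨Cw, hCw, hcl⟩ := classify c
  have hσ0 := c.σ0pos
  have hf0 := c.f0pos
  obtain ⟨A, hA⟩ : ∃ A, A = 16 / (c.σ0 * c.f0 ^ 2) := ⟨_, rfl⟩
  have hA0 : 0 < A := by rw [hA]; positivity
  have h := hcl (η / (24 * A)) (by positivity) (η * c.f0 / (96 * A * Cw)) (by positivity)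
  filter_upwards [h, eventually_ge_atTop (1:ℝ)] with Λ h hΛ
  filter_upwards [h, c.ev_σ] with σ h hσ
  obtain ⟨φ, hφ⟩ := c.ev_sm hσ.1 hσ.2
  filter_upwards [h, hφ, c.toCtx0.ev_small,
    ke_small (16 / (σ * φ)) (256 / (σ ^ 2 * φ ^ 5)) (32 / (σ * φ ^ 3)) (8 * A * Cw)
      (η := η / 3) (by positivity)] with ε h hs hsm ht I S yL yR ς hm ξ M hb j n hr
  obtain ⟨cen, ex, hc⟩ := h I S yL yR ς hm ξ M hb
  have hM := hb.nn
  have hε := hs.εpos
  have hφ0 := hs.φpos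
  have hσ1 := hσ.1
  have hn := S.run_len hs hr
  have m1 := ke_main ξ hs hsm.sm hCw.le (by positivity) (by positivity) hM hc hr
  rw [← hA] at m1
  have m2 := ke_sum ξ hs hr
  have m3 : |∑ l ∈ Finset.range n,
      S.κ j / S.κ ((S.R ^ l) j) * (S.Sθ ((S.R ^ l) j) * ξ.β ((S.R ^ l) j))| ≤
      2 * ∑ l ∈ Finset.range n, |S.Sθ ((S.R ^ l) j)| * |ξ.β ((S.R ^ l) j)| := by
    rw [Finset.mul_sum]
    refine (Finset.abs_sum_le_sum_abs _ _).trans (Finset.sum_le_sum fun l hl => ?_)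
    have hl' := (Finset.mem_range.1 hl).le
    have k0 := (S.kappa_pos hε (by linarith only [hε, hs.le16]) (hr 0 (Nat.zero_le _))).1
    have k1 := (S.kappa_pos hε (by linarith only [hε, hs.le16]) (hr l hl')).1
    have k2 := (kratio hs hr hl').1
    simp only [pow_zero, Equiv.Perm.coe_one, id_eq] at k0
    rw [abs_mul, abs_mul, abs_of_pos (div_pos k0 k1)]
    exact mul_le_mul_of_nonneg_right ((div_le_iff₀ k1).2 k2) (by positivity)
  have m4 : ∑ l ∈ Finset.range n, ξ.ct ((S.R ^ l) j) ≤ n * M := by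
    have := Finset.sum_le_card_nsmul (Finset.range n) (fun l => ξ.ct ((S.R ^ l) j)) M (by
      intro l hl
      have hl' := (Finset.mem_range.1 hl).le
      have k1 := (S.kappa_pos hε (by linarith only [hε, hs.le16]) (hr l hl')).1
      have k3 : 0 ≤ ξ.ct ((S.R ^ l) j) := by unfold Lin.ct; positivity
      have k4 := hb.bc _ (hr l hl')
      nlinarith only [k4, hΛ, k3])
    rwa [Finset.card_range, nsmul_eq_mul] at this
  have m5 : n * (8 * ε / σ) * |ξ.e| ≤ 16 / (σ * φ) * ε * M := by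
    calc n * (8 * ε / σ) * |ξ.e| ≤ n * (8 * ε / σ) * (ε * M) :=
          mul_le_mul_of_nonneg_left hb.be (by positivity)
      _ = (n * ε) * (8 * ε / σ * M) := by ring
      _ ≤ (2 / φ) * (8 * ε / σ * M) := mul_le_mul_of_nonneg_right hn (by positivity)
      _ = _ := by field_simp; ring
  have m6 : 2 * (8 * ε ^ 2 / (σ * φ ^ 2)) ^ 2 * ∑ l ∈ Finset.range n, ξ.ct ((S.R ^ l) j) ≤
      256 / (σ ^ 2 * φ ^ 5) * ε ^ 3 * M := by
    calc _ ≤ 2 * (8 * ε ^ 2 / (σ * φ ^ 2)) ^ 2 * (n * M) :=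
          mul_le_mul_of_nonneg_left m4 (by positivity)
      _ = (n * ε) * (128 * ε ^ 3 / (σ ^ 2 * φ ^ 4) * M) := by field_simp; ring
      _ ≤ (2 / φ) * (128 * ε ^ 3 / (σ ^ 2 * φ ^ 4) * M) :=
          mul_le_mul_of_nonneg_right hn (by positivity)
      _ = _ := by field_simp; ring
  have e1 : 2 * ((16 / (σ * φ ^ 3) * √ε + A * (16 * (η * c.f0 / (96 * A * Cw)) / c.f0 * Cw +
      4 * Cw * ε + 4 * (η / (24 * A)))) * M) =
      (32 / (σ * φ ^ 3) * √ε + 8 * A * Cw * ε) * M + 2 / 3 * η * M := by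
    field_simp
    ring
  have m7 := mul_le_mul_of_nonneg_right ht hM
  have m8 := abs_sub_abs_le_abs_sub (S.κ j * (ξ.ζ ((S.R ^ n) j) - ξ.ζ j) - n * ξ.e)
    (∑ l ∈ Finset.range n,
      S.κ j / S.κ ((S.R ^ l) j) * (S.Sθ ((S.R ^ l) j) * ξ.β ((S.R ^ l) j)))
  linarith only [m1, m2, m3, m5, m6, e1, m7, m8]

theorem dv (c : Ctx f g) {η : ℝ} (hη : 0 < η) : EvAll c fun _ σ _ _ S ξ M => ∀ (j) (n : ℕ),
    S.Run σ j n → S.Run σ (S.T j) n →
      S.κ j * |(ξ.ζ (S.T ((S.R ^ n) j)) - ξ.ζ ((S.R ^ n) j)) - (ξ.ζ (S.T j) - ξ.ζ j)| ≤ η * M := by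
  filter_upwards [ke c (η := η / 4) (by positivity)] with Λ h
  filter_upwards [h, c.ev_σ] with σ h hσ
  obtain ⟨φ, hφ⟩ := c.ev_sm hσ.1 hσ.2
  obtain ⟨ε0, hε0⟩ := hφ.exists
  have hφ0 := hε0.φpos
  filter_upwards [h, hφ, kap_link c.toCtx0 hσ.1 hσ.2 (δ := min 1 (η * φ / 8)) (by positivity)]
    with ε h hs hk I S yL yR ς hm ξ M hb j n hr hr'
  have hM := hb.nn
  have hε := hs.εpos
  have hn := S.run_len hs hr
  have h1 := h I S yL yR ς hm ξ M hb j n hr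
  have h2 := h I S yL yR ς hm ξ M hb (S.T j) n hr'
  rw [S.comm_pow] at h2
  have b1 := hr 0 (Nat.zero_le _)
  have b2 := hr' 0 (Nat.zero_le _)
  simp only [pow_zero, Equiv.Perm.coe_one, id_eq] at b1 b2
  have k1 := (S.kappa_pos hε (by linarith only [hε, hs.le16]) b1).1
  have k2 := (S.kappa_pos hε (by linarith [hs.le16]) b2).1
  have h3 := (hk I S yL yR hm.toMg0 j b1 b2).2
  have h4 : |S.κ j / S.κ (S.T j) - 1| ≤ 1 := h3.trans (min_le_left _ _)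
  have h5 : |S.κ j / S.κ (S.T j) - 1| ≤ η * φ / 8 := h3.trans (min_le_right _ _)
  have h6 : |n * ξ.e| ≤ 2 / φ * M := by
    rw [abs_mul, Nat.abs_cast]
    calc n * |ξ.e| ≤ n * (ε * M) := mul_le_mul_of_nonneg_left hb.be (by positivity)
      _ = (n * ε) * M := by ring
      _ ≤ _ := mul_le_mul_of_nonneg_right hn hM
  have e : S.κ j * ((ξ.ζ (S.T ((S.R ^ n) j)) - ξ.ζ ((S.R ^ n) j)) - (ξ.ζ (S.T j) - ξ.ζ j)) =
      (S.κ j / S.κ (S.T j) - 1) * (n * ξ.e) +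
        (S.κ j / S.κ (S.T j) - 1) *
          (S.κ (S.T j) * (ξ.ζ (S.T ((S.R ^ n) j)) - ξ.ζ (S.T j)) - n * ξ.e) +
        (S.κ (S.T j) * (ξ.ζ (S.T ((S.R ^ n) j)) - ξ.ζ (S.T j)) - n * ξ.e) -
        (S.κ j * (ξ.ζ ((S.R ^ n) j) - ξ.ζ j) - n * ξ.e) := by
    field_simp
    ring
  have h7 : |(S.κ j / S.κ (S.T j) - 1) * (n * ξ.e)| ≤ η / 4 * M := by
    rw [abs_mul]
    calc _ ≤ η * φ / 8 * (2 / φ * M) := mul_le_mul h5 h6 (abs_nonneg _) (by positivity)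
      _ = _ := by field_simp; ring
  have h8 : |(S.κ j / S.κ (S.T j) - 1) *
      (S.κ (S.T j) * (ξ.ζ (S.T ((S.R ^ n) j)) - ξ.ζ (S.T j)) - n * ξ.e)| ≤ η / 4 * M := by
    rw [abs_mul]
    calc _ ≤ 1 * (η / 4 * M) := mul_le_mul h4 h2 (abs_nonneg _) zero_le_one
      _ = _ := one_mul _
  rw [← abs_of_pos k1, ← abs_mul, e]
  rw [abs_le] at h1 h2 h7 h8 ⊢
  constructor <;> linarith only [h1, h2, h7, h8, h1.1, h1.2, h2.1, h2.2, h7.1, h7.2, h8.1, h8.2]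

/-- transfer of smallness along a joint run, in both directions (dv, kratio) -/
theorem dv_transfer (c : Ctx f g) {η : ℝ} (hη : 0 < η) :
    EvAll c fun _ σ _ _ S ξ M => ∀ (j) (n : ℕ), S.Run σ j n → S.Run σ (S.T j) n →
      S.κ j * |ξ.ζ (S.T j) - ξ.ζ j| ≤
        2 * (S.κ ((S.R ^ n) j) * |ξ.ζ (S.T ((S.R ^ n) j)) - ξ.ζ ((S.R ^ n) j)|) + η * M ∧
      S.κ ((S.R ^ n) j) * |ξ.ζ (S.T ((S.R ^ n) j)) - ξ.ζ ((S.R ^ n) j)| ≤
        2 * (S.κ j * |ξ.ζ (S.T j) - ξ.ζ j|) + η * M := by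
  filter_upwards [dv c (η := η / 2) (by positivity)] with Λ h
  filter_upwards [h, c.ev_σ] with σ h hσ
  obtain ⟨φ, hφ⟩ := c.ev_sm hσ.1 hσ.2
  filter_upwards [h, hφ] with ε h hs I S yL yR ς hm ξ M hb j n hr hr'
  have hM := hb.nn
  have hε := hs.εpos
  have h1 := h I S yL yR ς hm ξ M hb j n hr hr'
  have b1 := hr 0 (Nat.zero_le _)
  simp only [pow_zero, Equiv.Perm.coe_one, id_eq] at b1
  have k1 := (S.kappa_pos hε (by linarith only [hε, hs.le16]) b1).1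
  obtain ⟨r1, r2, -⟩ := kratio hs hr le_rfl
  generalize ξ.ζ (S.T ((S.R ^ n) j)) - ξ.ζ ((S.R ^ n) j) = D' at h1 ⊢
  generalize ξ.ζ (S.T j) - ξ.ζ j = D at h1 ⊢
  have a1 : |D| ≤ |D'| + |D' - D| := by
    have := abs_sub_abs_le_abs_sub D D'
    rw [abs_sub_comm D D'] at this
    linarith only [this]
  have a2 : |D'| ≤ |D| + |D' - D| := by linarith [abs_sub_abs_le_abs_sub D' D]
  have a3 := mul_le_mul_of_nonneg_left a1 k1.le
  have a4 := mul_le_mul_of_nonneg_left a2 k1.le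
  have a5 := mul_le_mul_of_nonneg_right r1 (abs_nonneg D')
  have a6 := mul_le_mul_of_nonneg_right r2 (abs_nonneg D')
  have a7 := mul_nonneg hη.le hM
  constructor <;> nlinarith only [h1, a3, a4, a5, a6]

end XR
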