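import Pool.Agent.P.MP_408b1f_gt.LinkT
import Pool.Agent.P.MP_408b1f_gt.Defs3

/-! Summation of the increments along a run.
kratio: kappa_run (4 eps / s <= 1/4) for the initial piece of the run; gamma = |det| / (2 kappa^2).
ke_sum: induction on n. With k l = kappa (R^l j): k 0 (zeta (l+1) - zeta l) =
(k 0 / k l) [e k l / k (l+1) + S theta beta + err] by incr_bd, |k 0 / k (l+1) - 1| <= 8 eps / s.
count_window: let l0, l1 be the least and the largest element; t1 j * x is monotone along the run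
(run_mono), so R^l0 j starts a run of length l1 - l0 at the level s', and run_mono at that level
gives (l1 - l0) eps phi' / 2 <= 2 r.
dd_near: bDD if i is outside InB sigma, otherwise bD twice (nearL, nearR, kap_near with delta 1/2).
two_links: plink at T.symm i rescaled by Link.scale with k = kappa i / kappa (T.symm i), and plink
at i. -/

open Set MeasureTheory Filter Topology

noncomputable section

namespace XR

variable {f g : ℝ → ℝ} {ε : ℝ} {I : Type} {S : Sys f g ε I}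

theorem keS_ratio {s φ : ℝ} (hs : Sm f ε s φ) {j : I} {n : ℕ} (h : S.Run s j n) {l : ℕ}
    (hl : l ≤ n) :
    0 < S.κ j ∧ 0 < S.κ ((S.R ^ l) j) ∧ 3 * S.κ j ≤ 4 * S.κ ((S.R ^ l) j) ∧
      4 * S.κ ((S.R ^ l) j) ≤ 5 * S.κ j ∧ |S.κ j / S.κ ((S.R ^ l) j) - 1| ≤ 8 * ε / s ∧
      det (S.u ((S.R ^ l) j)) (S.v ((S.R ^ l) j)) = det (S.u j) (S.v j) := by
  have hε := hs.εpos
  have h16 := hs.le16
  have hs0 : 0 < s := by linarith
  have h0 : S.InB s j := by simpa using h 0 (Nat.zero_le n)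
  have k0 := (S.kappa_pos hε (by linarith) h0).1
  have k1 := (S.kappa_pos hε (by linarith) (h l hl)).1
  obtain ⟨a, b⟩ := S.kappa_run hε (by linarith) (h.mono hl)
  have h4 : 4 * ε / s ≤ 1 / 4 := by rw [div_le_iff₀ hs0]; linarith
  have a' := abs_le.1 (a.trans h4)
  have c1 : 3 / 4 ≤ S.κ ((S.R ^ l) j) / S.κ j := by linarith [a'.1]
  have c2 : S.κ ((S.R ^ l) j) / S.κ j ≤ 5 / 4 := by linarith [a'.2]
  rw [le_div_iff₀ k0] at c1
  rw [div_le_iff₀ k0] at c2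
  refine ⟨k0, k1, by linarith, by linarith, ?_, b⟩
  have e : S.κ j / S.κ ((S.R ^ l) j) - 1 =
      -(S.κ j / S.κ ((S.R ^ l) j)) * (S.κ ((S.R ^ l) j) / S.κ j - 1) := by
    field_simp
    ring
  have d : S.κ j / S.κ ((S.R ^ l) j) ≤ 2 := by rw [div_le_iff₀ k1]; linarith
  have d0 : 0 ≤ S.κ j / S.κ ((S.R ^ l) j) := by positivity
  rw [e, abs_mul, abs_neg, abs_of_nonneg d0]
  calc _ ≤ 2 * (4 * ε / s) := mul_le_mul d a (abs_nonneg _) (by norm_num)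
    _ = 8 * ε / s := by ring

theorem kratio {s φ : ℝ} (hs : Sm f ε s φ) {j : I} {n : ℕ} (h : S.Run s j n) {l : ℕ}
    (hl : l ≤ n) :
    S.κ j ≤ 2 * S.κ ((S.R ^ l) j) ∧ S.κ ((S.R ^ l) j) ≤ 2 * S.κ j ∧
      S.γ j ≤ 2 * S.γ ((S.R ^ l) j) ∧ S.γ ((S.R ^ l) j) ≤ 2 * S.γ j := by
  obtain ⟨k0, k1, c1, c2, -, b⟩ := keS_ratio hs h hl
  have d0 := abs_nonneg (det (S.u j) (S.v j))
  refine ⟨by linarith, by linarith, ?_, ?_⟩
  · rw [Sys.γ, Sys.γ, b, ← mul_div_assoc, div_le_div_iff₀ (by positivity) (by positivity)]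
    have : S.κ ((S.R ^ l) j) ^ 2 ≤ 2 * S.κ j ^ 2 := by nlinarith
    nlinarith [mul_le_mul_of_nonneg_left this d0]
  · rw [Sys.γ, Sys.γ, b, ← mul_div_assoc, div_le_div_iff₀ (by positivity) (by positivity)]
    have : S.κ j ^ 2 ≤ 2 * S.κ ((S.R ^ l) j) ^ 2 := by nlinarith
    nlinarith [mul_le_mul_of_nonneg_left this d0]

theorem keS_step (ξ : Lin S) {s φ : ℝ} (hs : Sm f ε s φ) {j : I} {n : ℕ}
    (h : S.Run s j (n + 1)) :
    |S.κ j * (ξ.ζ ((S.R ^ (n + 1)) j) - ξ.ζ ((S.R ^ n) j)) - ξ.e -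
        S.κ j / S.κ ((S.R ^ n) j) * (S.Sθ ((S.R ^ n) j) * ξ.β ((S.R ^ n) j))| ≤
      8 * ε / s * |ξ.e| + 2 * (8 * ε ^ 2 / (s * φ ^ 2)) ^ 2 * ξ.ct ((S.R ^ n) j) := by
  obtain ⟨k0, k1, c1, -, -, -⟩ := keS_ratio hs h (Nat.le_succ n)
  obtain ⟨-, k2, -, -, c3, -⟩ := keS_ratio hs h (le_refl (n + 1))
  have hb := (incr_bd ξ hs (h n (Nat.le_succ n))).2
  have hR : S.R ((S.R ^ n) j) = (S.R ^ (n + 1)) j := by
    rw [pow_succ', Equiv.Perm.mul_apply]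
  rw [hR] at hb
  have d : S.κ j / S.κ ((S.R ^ n) j) ≤ 2 := by rw [div_le_iff₀ k1]; linarith
  have d0 : 0 ≤ S.κ j / S.κ ((S.R ^ n) j) := by positivity
  have e : S.κ j * (ξ.ζ ((S.R ^ (n + 1)) j) - ξ.ζ ((S.R ^ n) j)) - ξ.e -
        S.κ j / S.κ ((S.R ^ n) j) * (S.Sθ ((S.R ^ n) j) * ξ.β ((S.R ^ n) j)) =
      (S.κ j / S.κ ((S.R ^ (n + 1)) j) - 1) * ξ.e + S.κ j / S.κ ((S.R ^ n) j) *
        (S.κ ((S.R ^ n) j) * (ξ.ζ ((S.R ^ (n + 1)) j) - ξ.ζ ((S.R ^ n) j)) -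
          ξ.e * (S.κ ((S.R ^ n) j) / S.κ ((S.R ^ (n + 1)) j)) -
            S.Sθ ((S.R ^ n) j) * ξ.β ((S.R ^ n) j)) := by
    field_simp
    ring
  rw [e]
  refine (abs_add_le _ _).trans (add_le_add ?_ ?_)
  · rw [abs_mul]
    exact mul_le_mul_of_nonneg_right c3 (abs_nonneg _)
  · rw [abs_mul, abs_of_nonneg d0, mul_assoc]
    exact mul_le_mul d hb (abs_nonneg _) (by norm_num)

theorem ke_sum (ξ : Lin S) {s φ : ℝ} (hs : Sm f ε s φ) {j : I} {n : ℕ} (h : S.Run s j n) :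
    |S.κ j * (ξ.ζ ((S.R ^ n) j) - ξ.ζ j) - n * ξ.e -
        ∑ l ∈ Finset.range n, S.κ j / S.κ ((S.R ^ l) j) * (S.Sθ ((S.R ^ l) j) * ξ.β ((S.R ^ l) j))| ≤
      n * (8 * ε / s) * |ξ.e| +
        2 * (8 * ε ^ 2 / (s * φ ^ 2)) ^ 2 * ∑ l ∈ Finset.range n, ξ.ct ((S.R ^ l) j) := by
  induction n with
  | zero => simp
  | succ n ih =>
    have a := ih (h.mono (Nat.le_succ n))
    have b := keS_step ξ hs h
    rw [Finset.sum_range_succ, Finset.sum_range_succ, Nat.cast_succ]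
    have c := (abs_add_le _ _).trans (add_le_add a b)
    refine le_trans (le_of_eq ?_) (c.trans (le_of_eq ?_))
    · congr 1
      ring
    · ring

open Classical in
theorem count_window {s φ s' φ' : ℝ} (hs : Sm f ε s φ) (hs' : Sm f ε s' φ') {j : I} {n : ℕ}
    (h : S.Run s j n) (a : ℝ) {r : ℝ} (hr : 0 ≤ r) :
    (((Finset.range n).filter fun l =>
      S.InB s' ((S.R ^ l) j) ∧ |S.x ((S.R ^ l) j) - a| ≤ r).card : ℝ) ≤ 4 * r / (ε * φ') + 1 := by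
  have hε := hs.εpos
  have hφ := hs.φpos
  have hφ' := hs'.φpos
  set F := (Finset.range n).filter fun l =>
      S.InB s' ((S.R ^ l) j) ∧ |S.x ((S.R ^ l) j) - a| ≤ r with hF
  have q0 : 0 ≤ 4 * r / (ε * φ') := by positivity
  rcases F.eq_empty_or_nonempty with he | hne
  · rw [he, Finset.card_empty, Nat.cast_zero]
    linarith
  have m0 := F.min'_mem hne
  have m1 := F.max'_mem hne
  have hle : F.min' hne ≤ F.max' hne := F.min'_le _ m1
  have hsub : F ⊆ Finset.Icc (F.min' hne) (F.max' hne) := fun l hl =>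
    Finset.mem_Icc.2 ⟨F.min'_le _ hl, F.le_max' _ hl⟩
  generalize F.min' hne = l0 at m0 hle hsub
  generalize F.max' hne = l1 at m1 hle hsub
  rw [hF, Finset.mem_filter, Finset.mem_range] at m0 m1
  obtain ⟨k, rfl⟩ := Nat.exists_eq_add_of_le hle
  have h0 : S.InB s j := by simpa using h 0 (Nat.zero_le n)
  have ht : S.t1 j = 1 ∨ S.t1 j = -1 :=
    (S.g1_of hε (by linarith [hs.le16]) h0).1.1.ht
  have mono : ∀ l l' : ℕ, l ≤ l' → l' ≤ n →
      0 ≤ S.t1 j * (S.x ((S.R ^ l') j) - S.x ((S.R ^ l) j)) := fun l l' hl hl' => by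
    refine le_trans ?_ (S.run_mono hs h hl (by omega)).2
    have : (l : ℝ) ≤ l' := by exact_mod_cast hl
    have : 0 ≤ (l' : ℝ) - l := by linarith
    positivity
  have hp : ∀ m : ℕ, (S.R ^ m) ((S.R ^ l0) j) = (S.R ^ (l0 + m)) j := fun m => by
    rw [add_comm, pow_add, Equiv.Perm.mul_apply]
  have hrun : S.Run s' ((S.R ^ l0) j) k := fun m hm => by
    rw [hp]
    have b1 := mono l0 (l0 + m) (by omega) (by omega)
    have b2 := mono (l0 + m) (l0 + k) (by omega) (by omega)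
    obtain ⟨p1, p2⟩ := m0.2.1
    obtain ⟨p3, p4⟩ := m1.2.1
    rcases ht with e | e <;> rw [e] at b1 b2 <;> constructor <;> linarith
  have b := (S.run_mono hs' hrun (Nat.zero_le k) (Nat.le_succ k)).2
  rw [hp, hp, add_zero, (S.run_mono hs h (Nat.zero_le l0) (by omega)).1, Nat.cast_zero,
    sub_zero] at b
  have p1 := abs_le.1 m0.2.2
  have p2 := abs_le.1 m1.2.2
  have c : (k : ℝ) * (ε * φ') ≤ 4 * r := by
    rcases ht with e | e <;> rw [e] at b <;> linarith [p1.1, p1.2, p2.1, p2.2]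
  have d : (k : ℝ) ≤ 4 * r / (ε * φ') := by rwa [le_div_iff₀ (by positivity)]
  have e1 : F.card ≤ k + 1 := by
    have := Finset.card_le_card hsub
    rw [Nat.card_Icc] at this
    omega
  have e2 : (F.card : ℝ) ≤ k + 1 := by exact_mod_cast e1
  linarith

theorem two_links (ξ : Lin S) {s : ℝ} (hε : 0 < ε) (hs : 4 * ε ≤ s) {i : I} (hi : S.InB s i)
    (hB : S.InB s (S.T.symm i)) (hA : S.InB s (S.T i)) (h2B : S.G2 (S.T.symm i)) (h2 : S.G2 i) :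
    ∃ bB bA : ℝ,
      Link (S.γ i ^ 2) (S.St (S.T.symm i) * (S.κ i / S.κ (S.T.symm i)) ^ 2)
        (S.κ i * ξ.ζ (S.T.symm i)) bB (S.κ i * ξ.ζ i) (ξ.β i) ∧
      Link (S.γ i ^ 2) (S.St i) (S.κ i * ξ.ζ i) (ξ.β i) (S.κ i * ξ.ζ (S.T i)) bA := by
  obtain ⟨k0, -, -, g0, -⟩ := S.kappa_pos hε hs hi
  obtain ⟨k1, -, -, g1, -⟩ := S.kappa_pos hε hs hB
  obtain ⟨a, b⟩ := plink ξ hε hs hB (by rwa [Equiv.apply_symm_apply]) h2B
  rw [Equiv.apply_symm_apply] at a b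
  have c := a.scale (k := S.κ i / S.κ (S.T.symm i)) (by positivity)
  have e1 : S.γ (S.T.symm i) ^ 2 / (S.κ i / S.κ (S.T.symm i)) ^ 4 = S.γ i ^ 2 := by
    rw [← g0, ← g1, b]
    field_simp
  have e2 : ∀ z, S.κ i / S.κ (S.T.symm i) * (S.κ (S.T.symm i) * z) = S.κ i * z := fun z => by
    field_simp
  have e3 : ξ.b i / S.κ (S.T.symm i) / (S.κ i / S.κ (S.T.symm i)) = ξ.β i := by
    rw [Lin.β]
    field_simp
  rw [e1, e2, e2, e3] at c
  exact ⟨_, _, c, (plink ξ hε hs hi hA h2).1⟩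

theorem dd_near (c : Ctx f g) : EvAll c fun _ _ _ _ S ξ M => ∀ i,
    (S.x i ≤ 2 * c.σ0 ∨ 1 - 2 * c.σ0 ≤ S.x i) →
      S.κ (S.T i) * |ξ.ζ (S.T i) - ξ.ζ (S.T.symm i)| ≤ 4 * M := by
  refine Eventually.of_forall fun Λ => ?_
  filter_upwards [c.ev_σ] with σ hσ
  filter_upwards [kap_near c.toCtx0 hσ.1 hσ.2 (δ := 1 / 2) (by norm_num), c.toCtx0.ev_small,
    ev_le (a := σ / 4) (by linarith [hσ.1])] with ε hk hsm hε I S yL yR ς hm ξ M hb i hi
  have hM := hb.nn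
  by_cases hin : S.InB σ i
  swap
  · linarith [hb.bDD i hin]
  have h4 : σ ≤ 4 * c.σ0 := by linarith [hσ.1, hσ.2]
  have hAB : S.InB σ (S.T i) ∧ S.InB σ (S.T.symm i) := by
    rcases hi with hi | hi
    · obtain ⟨-, -, -, -, -, -, a, b⟩ := nearL hsm hm.toMg0 hi
      exact ⟨a.mono h4, b.mono h4⟩
    · obtain ⟨-, -, -, -, -, -, a, b⟩ := nearR hsm hm.toMg0 hi
      exact ⟨a.mono h4, b.mono h4⟩
  have hs : 4 * ε ≤ σ := by linarith [hε.2]
  have k0 := (S.kappa_pos hε.1 hs hin).1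
  have k1 := (S.kappa_pos hε.1 hs hAB.2).1
  have k2 := (S.kappa_pos hε.1 hs hAB.1).1
  obtain ⟨r1, -, r2⟩ := hk I S yL yR hm.toMg0 i hi
  have r3 : S.κ (S.T i) / S.κ (S.T.symm i) ≤ 2 := by linarith [(abs_le.1 r1).2]
  have r4 : S.κ (S.T i) / S.κ i ≤ 2 := by linarith [(abs_le.1 (r2 hin).1).2]
  rw [div_le_iff₀ k1] at r3
  rw [div_le_iff₀ k0] at r4
  have d1 := hb.bD i hin hAB.1
  have d2 := hb.bD (S.T.symm i) hAB.2 (by rwa [Equiv.apply_symm_apply])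
  rw [Equiv.apply_symm_apply] at d2
  have t := abs_sub_le (ξ.ζ (S.T i)) (ξ.ζ i) (ξ.ζ (S.T.symm i))
  have u1 := mul_le_mul_of_nonneg_right r4 (abs_nonneg (ξ.ζ (S.T i) - ξ.ζ i))
  have u2 := mul_le_mul_of_nonneg_right r3 (abs_nonneg (ξ.ζ i - ξ.ζ (S.T.symm i)))
  have u3 := mul_le_mul_of_nonneg_left t k2.le
  nlinarith

end XR
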