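import Pool.Agent.P.MP_408b1f_gt.Calc
import Pool.Agent.P.MP_408b1f_gt.Geo4

/-! Links of a flag system.
tr1, tr2 from Gen (slope relations, norm equality) and the fields eqx, eqy, l1, l2 of Lin.
link_T: Tr.trans of tr1 and tr2, link_of_tr with alpha = alpha' = (1, - eps); the determinant is
Gd. link_R: tr1 and link_of_tr; the norm at O j is W (R j) by hn of G3; zeta_R from l3, hz of G3.
plink, incr: Link.scale with k = kappa j, kappa_pos (W = kappa h).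
St_est: |eps t1 m1| <= eps / sigma (g1_of), kap_link with delta = 1/2, h bounds from step.
incr_bd: H4 for incr; at level s one has |m1| <= 1/s, h >= phi / 2, kappa ratio <= 2 (kappa_run
with n = 1 at level s/2 gives kappa (R j) / kappa j >= 1/2), so |S theta| <= 8 eps^2 / (s phi^2); gamma^2 |kappa zeta| = ct. -/

open Set MeasureTheory Filter Topology

noncomputable section

namespace XR

variable {f g : ℝ → ℝ} {ε : ℝ} {I : Type} {S : Sys f g ε I}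

theorem linkT_pos {t a b : ℝ} (ht : t = 1 ∨ t = -1) (ha : 0 < t * a) (hb : 0 < t * b) :
    a ≠ 0 ∧ b ≠ 0 ∧ 0 < a / b ∧ 0 < a * b := by
  rcases ht with rfl | rfl
  · rw [one_mul] at ha hb
    exact ⟨ha.ne', hb.ne', div_pos ha hb, mul_pos ha hb⟩
  · have h1 : a < 0 := by linarith
    have h2 : b < 0 := by linarith
    exact ⟨h1.ne, h2.ne, div_pos_of_neg_of_neg h1 h2, mul_pos_of_neg_of_neg h1 h2⟩

theorem linkT_alg {a a' c c' b b' d d' k : ℝ} (ha : a ≠ 0) (ha' : a' ≠ 0) (hc : c ≠ 0)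
    (hc' : c' ≠ 0) (su : b / a - b' / a' = k) (sv : d / c - d' / c' = k) (hn : a * c = a' * c') :
    a = a / a' * a' ∧ b - k * a = a / a' * b' ∧ c = (a / a')⁻¹ * c' ∧
      d - k * c = (a / a')⁻¹ * d' := by
  have h3 : c = (a / a')⁻¹ * c' := by
    field_simp
    linarith
  refine ⟨by field_simp, ?_, h3, ?_⟩
  · rw [← su]
    field_simp
    ring
  · have h4 : (a / a')⁻¹ = c / c' := by
      rw [eq_div_iff hc']
      exact h3.symm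
    rw [h4, ← sv]
    field_simp
    ring

theorem linkT_dot (ε : ℝ) (p : V) : dot (1, -ε) p = w ε p := by
  simp only [dot, w]
  ring

theorem linkT_abs {t : ℝ} (ht : t = 1 ∨ t = -1) : |t| = 1 := by
  rcases ht with rfl | rfl <;> simp

theorem linkT_sq {t : ℝ} (ht : t = 1 ∨ t = -1) : t * t = 1 := by
  rcases ht with rfl | rfl <;> simp

theorem tr1 (ξ : Lin S) {j : I} (h : S.G1 j) :
    Tr 1 0 (-(S.t1 j * S.m1 j)) 1 (S.u j) (S.v j) (ξ.p j) (S.u' j) (S.v' j) (ξ.o j) := by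
  have G := h.1
  obtain ⟨ha, ha', hl, -⟩ := linkT_pos G.ht G.hu G.hu'
  obtain ⟨hc, hc', -, -⟩ := linkT_pos G.ht G.hv G.hv'
  obtain ⟨e1, e2, e3, e4⟩ := linkT_alg ha ha' hc hc' G.su G.sv G.hn
  have e5 := ξ.eqx j j (S.lev1 j)
  have e6 := ξ.l1 j h
  refine ⟨by ring, (S.u j).1 / (S.u' j).1, hl, Prod.ext ?_ ?_, Prod.ext ?_ ?_, Prod.ext ?_ ?_⟩ <;>
    simp only [mul4, Prod.smul_fst, Prod.smul_snd, smul_eq_mul] <;> linarith

theorem tr2 (ξ : Lin S) {j : I} (h : S.G2 j) :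
    Tr 1 (-(S.t2 j * S.m2 j)) 0 1 (S.u' j) (S.v' j) (ξ.o j)
      (S.u (S.T j)) (S.v (S.T j)) (ξ.p (S.T j)) := by
  have G := h.1
  obtain ⟨ha, ha', hl, -⟩ := linkT_pos G.ht G.hu' G.hu
  obtain ⟨hc, hc', -, -⟩ := linkT_pos G.ht G.hv' G.hv
  have su := G.su
  have sv := G.sv
  simp only [negx, neg_div] at su sv
  obtain ⟨e1, e2, e3, e4⟩ := linkT_alg (b := (S.u' j).1) (b' := (S.u (S.T j)).1)
    (d := (S.v' j).1) (d' := (S.v (S.T j)).1) (k := S.t2 j * S.m2 j) ha ha' hc hc'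
    (by linarith) (by linarith) G.hn.symm
  have e5 := ξ.eqy (S.T j) j (S.lev2 j)
  have e6 := ξ.l2 j h
  refine ⟨by ring, (S.u' j).2 / (S.u (S.T j)).2, hl, Prod.ext ?_ ?_, Prod.ext ?_ ?_,
    Prod.ext ?_ ?_⟩ <;>
    simp only [mul4, Prod.smul_fst, Prod.smul_snd, smul_eq_mul] <;> linarith

theorem link_T (ξ : Lin S) {j : I} (h1 : S.G1 j) (h2 : S.G2 j)
    (ht : S.t1 (S.T j) = 1 ∨ S.t1 (S.T j) = -1)
    (wu : 0 < S.t1 j * w ε (S.u j)) (wv : 0 < S.t1 j * w ε (S.v j))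
    (wu' : 0 < S.t1 (S.T j) * w ε (S.u (S.T j))) (wv' : 0 < S.t1 (S.T j) * w ε (S.v (S.T j))) :
    Link (S.Δ j) (S.t1 j * S.t1 (S.T j) * S.Gd j / (S.W j * S.W (S.T j)))
      (ξ.ζ j) (ξ.b j) (ξ.ζ (S.T j)) (ξ.b (S.T j)) := by
  have h := link_of_tr (α := (1, -ε)) (α' := (1, -ε)) ((tr1 ξ h1).trans (tr2 ξ h2)) h1.1.ht ht
    (by rwa [linkT_dot]) (by rwa [linkT_dot]) (by rwa [linkT_dot]) (by rwa [linkT_dot])
  have e : det ((1, -ε) : V) (pull (1 * 1 + -(S.t2 j * S.m2 j) * -(S.t1 j * S.m1 j))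
      (1 * 0 + -(S.t2 j * S.m2 j) * 1) (0 * 1 + 1 * -(S.t1 j * S.m1 j)) (0 * 0 + 1 * 1) (1, -ε)) =
      S.Gd j := by
    simp only [det, pull, Sys.Gd]
    ring
  rw [e, linkT_dot, linkT_dot, linkT_dot, linkT_dot] at h
  exact h

theorem link_R (ξ : Lin S) {s : ℝ} {j : I} (h : S.StepF s j) :
    Link (S.Δ j) (S.t1 j * ε ^ 2 * S.m1 j / (S.W j * S.W (S.R j))) (ξ.ζ j) (ξ.b j)
      (zt (S.t1 j) (1, -ε) (S.u' j) (S.v' j) (ξ.o j))
      (bt (S.t1 j) (1, -ε) (S.u' j) (S.v' j) (ξ.o j)) := by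
  have ht := h.g1.1.ht
  have hl := link_of_tr (α := (1, -ε)) (α' := (1, -ε)) (tr1 ξ h.g1) ht ht
    (by rw [linkT_dot]; exact h.wu) (by rw [linkT_dot]; exact h.wv)
    (by rw [linkT_dot]; exact h.wu') (by rw [linkT_dot]; exact h.wv')
  have e : S.t1 j * S.t1 j * det ((1, -ε) : V) (pull 1 0 (-(S.t1 j * S.m1 j)) 1 (1, -ε)) =
      S.t1 j * ε ^ 2 * S.m1 j := by
    rw [linkT_sq ht]
    simp only [det, pull]
    ring
  rw [e, linkT_dot, linkT_dot, linkT_dot, linkT_dot, ← h.g3.hn] at hl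
  exact hl

theorem zeta_R (ξ : Lin S) {j : I} (h : S.G3 j) (ht : S.t1 (S.R j) = S.t3 j) :
    ξ.ζ (S.R j) = zt (S.t3 j) (1, -ε) (S.u' j) (S.v' j) (ξ.o j) + ξ.e * S.h3 j / S.W (S.R j) ∧
      S.W (S.R j) = √(w ε (S.u' j) * w ε (S.v' j)) ∧ 0 < S.W (S.R j) := by
  have hW : S.W (S.R j) = √(w ε (S.u' j) * w ε (S.v' j)) := by rw [Sys.W, h.hn]
  have hpos : 0 < S.W (S.R j) := Real.sqrt_pos.2 (linkT_pos h.ht h.hu h.hv).2.2.2
  refine ⟨?_, hW, hpos⟩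
  have e1 := ξ.l3 j
  have e2 : (S.P (S.R j)).2 - (S.O j).2 = S.t3 j * S.h3 j := by
    rw [h.hz]
    simp
  have ht0 : S.t3 j ≠ 0 := by rcases h.ht with e | e <;> rw [e] <;> norm_num
  have e3 : w ε (ξ.p (S.R j)) = w ε (ξ.o j) + ξ.e * (S.t3 j * S.h3 j) := by
    rw [← e2]
    linarith
  have e4 : ξ.ζ (S.R j) = w ε (ξ.p (S.R j)) / (S.t3 j * S.W (S.R j)) := by
    rw [Lin.ζ, zt, ht, linkT_dot, linkT_dot, linkT_dot, Sys.W]
  rw [e4, e3, zt, linkT_dot, linkT_dot, linkT_dot, ← hW]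
  field_simp

theorem plink (ξ : Lin S) {s : ℝ} (hε : 0 < ε) (hs : 4 * ε ≤ s) {j : I} (hj : S.InB s j)
    (hj' : S.InB s (S.T j)) (h2 : S.G2 j) :
    Link (S.γ j ^ 2) (S.St j) (S.κ j * ξ.ζ j) (ξ.β j) (S.κ j * ξ.ζ (S.T j))
      (ξ.b (S.T j) / S.κ j) ∧ S.Δ (S.T j) = S.Δ j := by
  have A := S.step hε hs hj
  have B := S.step hε hs hj'
  obtain ⟨k1, -, k3, k4, -⟩ := S.kappa_pos hε hs hj
  obtain ⟨k1', -, k3', -⟩ := S.kappa_pos hε hs hj'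
  refine ⟨?_, by rw [Sys.Δ, Sys.Δ, h2.det_eq, A.g1.det_eq]⟩
  have h := (link_T ξ A.g1 h2 B.g1.1.ht A.wu A.wv B.wu B.wv).scale k1
  have e : S.t1 j * S.t1 (S.T j) * S.Gd j / (S.W j * S.W (S.T j)) * S.κ j ^ 2 = S.St j := by
    have := A.hpos
    have := B.hpos
    rw [k3, k3', Sys.St]
    field_simp
  rw [k4, e] at h
  exact h

theorem incr (ξ : Lin S) {s : ℝ} (hε : 0 < ε) (hs : 8 * ε ≤ s) {j : I} (hj : S.InB s j) :
    ∃ z' b', Link (S.γ j ^ 2) (S.Sθ j) (S.κ j * ξ.ζ j) (ξ.β j) z' b' ∧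
      S.κ j * ξ.ζ (S.R j) = z' + ξ.e * (S.κ j / S.κ (S.R j)) ∧
      z' = S.κ j * zt (S.t1 j) (1, -ε) (S.u' j) (S.v' j) (ξ.o j) ∧
      b' = bt (S.t1 j) (1, -ε) (S.u' j) (S.v' j) (ξ.o j) / S.κ j := by
  have hs' : 4 * ε ≤ s := by linarith
  have A := S.step hε hs' hj
  obtain ⟨k1, -, k3, k4, -⟩ := S.kappa_pos hε hs' hj
  obtain ⟨z1, -, z3⟩ := zeta_R ξ A.g3 (A.tR.trans A.t3.symm)
  have h1 := A.hpos
  have h3 := A.h3pos
  have eR : S.κ (S.R j) = S.W (S.R j) / S.h3 j := by rw [Sys.κ, S.h_R]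
  refine ⟨_, _, ?_, ?_, rfl, rfl⟩
  · have h := (link_R ξ A).scale k1
    have e : S.t1 j * ε ^ 2 * S.m1 j / (S.W j * S.W (S.R j)) * S.κ j ^ 2 = S.Sθ j := by
      rw [k3, Sys.Sθ, eR, S.h_R]
      field_simp
    rw [k4, e] at h
    exact h
  · rw [z1, A.t3, eR]
    field_simp

theorem linkT_h {s φ : ℝ} (hs : Sm f ε s φ) {j : I} (hj : S.InB s j) {y : ℝ}
    (hy : |y - f (S.x j)| ≤ 2 * ε / s) : f (S.x j) / 2 ≤ y ∧ y ≤ 2 * f (S.x j) ∧ φ / 2 ≤ y := by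
  have h0 : 0 < s := by linarith [hs.εpos, hs.le16]
  have h1 : 2 * ε / s ≤ φ / 2 := by
    rw [div_le_iff₀ h0]
    linarith [hs.leφ]
  have h2 := hs.low _ hj
  have h3 := hs.φpos
  obtain ⟨h4, h5⟩ := abs_le.1 hy
  exact ⟨by linarith, by linarith, by linarith⟩

theorem linkT_ct (ξ : Lin S) {j : I} (hk : 0 < S.κ j) :
    S.γ j ^ 2 * |S.κ j * ξ.ζ j| = ξ.ct j ∧ 0 ≤ ξ.ct j := by
  refine ⟨by rw [abs_mul, abs_of_pos hk, Lin.ct, mul_assoc], ?_⟩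
  rw [Lin.ct]
  positivity

theorem incr_bd (ξ : Lin S) {s φ : ℝ} (hs : Sm f ε s φ) {j : I} (hj : S.InB s j) :
    |S.Sθ j| ≤ 8 * ε ^ 2 / (s * φ ^ 2) ∧
    |S.κ j * (ξ.ζ (S.R j) - ξ.ζ j) - ξ.e * (S.κ j / S.κ (S.R j)) - S.Sθ j * ξ.β j| ≤
      (8 * ε ^ 2 / (s * φ ^ 2)) ^ 2 * ξ.ct j := by
  have hε := hs.εpos
  have h16 := hs.le16
  have hφ := hs.φpos
  have h0 : 0 < s := by linarith
  have hs' : 4 * ε ≤ s := by linarith
  have A := S.step hε hs' hj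
  obtain ⟨k1, -⟩ := S.kappa_pos hε hs' hj
  have hm : |S.m1 j| ≤ 1 / s := (S.g1_of hε (by linarith) hj).2.2.2.2.2
  have hh := (linkT_h hs hj A.hL).2.2
  have hh3 := (linkT_h hs hj A.hR).2.2
  have hrun : S.Run (s / 2) j 1 := by
    intro l hl
    obtain rfl | rfl : l = 0 ∨ l = 1 := by omega
    · exact hj.mono (by linarith)
    · obtain ⟨a, b⟩ := abs_le.1 (S.xstep hε.le j)
      rw [pow_one]
      exact ⟨by linarith [hj.1], by linarith [hj.2]⟩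
  have hk := (S.kappa_run hε (by linarith) hrun).1
  rw [pow_one] at hk
  have hk2 : 4 * ε / (s / 2) ≤ 1 / 2 := by
    rw [div_le_iff₀ (by linarith)]
    linarith
  have hk3 : S.κ j / 2 ≤ S.κ (S.R j) := by
    have := (abs_le.1 hk).1
    have h5 : 1 / 2 ≤ S.κ (S.R j) / S.κ j := by linarith
    rw [le_div_iff₀ k1] at h5
    linarith
  have kR : 0 < S.κ (S.R j) := by linarith
  have hS : |S.Sθ j| ≤ 8 * ε ^ 2 / (s * φ ^ 2) := by
    have h1 := A.hpos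
    have h3 := A.h3pos
    rw [Sys.Sθ, S.h_R, abs_div, abs_mul, abs_mul, abs_mul, linkT_abs A.g1.1.ht, abs_of_pos k1,
      abs_of_pos (by positivity : 0 < ε ^ 2),
      abs_of_pos (by positivity : 0 < S.κ (S.R j) * S.h j * S.h3 j)]
    calc 1 * ε ^ 2 * |S.m1 j| * S.κ j / (S.κ (S.R j) * S.h j * S.h3 j)
        ≤ 1 * ε ^ 2 * (1 / s) * S.κ j / (S.κ j / 2 * (φ / 2) * (φ / 2)) := by gcongr
      _ = 8 * ε ^ 2 / (s * φ ^ 2) := by
        field_simp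
        ring
  refine ⟨hS, ?_⟩
  obtain ⟨z', b', hl, e, -⟩ := incr ξ hε (by linarith) hj
  obtain ⟨c1, c2⟩ := linkT_ct ξ k1
  have h4 := hl.H4 (sq_nonneg _)
  have e2 : S.κ j * (ξ.ζ (S.R j) - ξ.ζ j) - ξ.e * (S.κ j / S.κ (S.R j)) - S.Sθ j * ξ.β j =
      z' - S.κ j * ξ.ζ j - S.Sθ j * ξ.β j := by
    rw [mul_sub, e]
    ring
  have h5 : S.Sθ j ^ 2 ≤ (8 * ε ^ 2 / (s * φ ^ 2)) ^ 2 := by
    rw [← sq_abs]
    exact pow_le_pow_left₀ (abs_nonneg _) hS 2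
  rw [e2]
  calc _ ≤ _ := h4
    _ ≤ S.γ j ^ 2 * S.Sθ j ^ 2 / 2 * |S.κ j * ξ.ζ j| :=
      mul_le_mul_of_nonneg_right (min_le_left _ _) (abs_nonneg _)
    _ = S.Sθ j ^ 2 / 2 * ξ.ct j := by rw [← c1]; ring
    _ ≤ _ := mul_le_mul_of_nonneg_right (by linarith [sq_nonneg (S.Sθ j)]) c2

theorem h_bounds {s φ : ℝ} (hs : Sm f ε s φ) {j : I} (hj : S.InB s j) :
    f (S.x j) / 2 ≤ S.h j ∧ S.h j ≤ 2 * f (S.x j) ∧ φ / 2 ≤ S.h j ∧ S.h j ≤ 1 := by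
  have A := S.step hs.εpos (by linarith [hs.εpos, hs.le16]) hj
  obtain ⟨a, b, c⟩ := linkT_h hs hj A.hL
  exact ⟨a, b, c, A.hle⟩

theorem linkT_est {k r ρ δ : ℝ} (hδ : 0 < δ) (hr : |r| ≤ |k| / 4 + min 1 (δ / 4))
    (hρ : |ρ - 1| ≤ 1 / 2) :
    |(-k + r) * ρ| ≤ 4 * (|k| + 1) ∧ (δ ≤ |k| → |k| / 4 ≤ |(-k + r) * ρ| ∧
      |(-k + r) * ρ| ≤ 4 * |k| ∧ (-k + r) * ρ * k < 0) := by
  obtain ⟨ρ1, ρ2⟩ := abs_le.1 hρ
  have hρ0 : 0 < ρ := by linarith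
  have m1 := min_le_left 1 (δ / 4)
  have m2 := min_le_right 1 (δ / 4)
  have u1 : |-k + r| ≤ |k| + |r| := by
    have := abs_add_le (-k) r
    rwa [abs_neg] at this
  have u2 : |k| - |r| ≤ |-k + r| := by
    have := abs_sub_abs_le_abs_sub k r
    rw [← abs_neg (k - r)] at this
    rwa [show -k + r = -(k - r) by ring]
  have n1 := abs_nonneg k
  have n2 := abs_nonneg (-k + r)
  rw [abs_mul, abs_of_pos hρ0]
  refine ⟨by nlinarith, fun h => ⟨by nlinarith, by nlinarith, ?_⟩⟩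
  have h1 : r * k ≤ |r| * |k| := by
    rw [← abs_mul]
    exact le_abs_self _
  have h2 : |k| * |k| = k * k := abs_mul_abs_self k
  have h3 : |r| * |k| ≤ |k| / 2 * |k| := mul_le_mul_of_nonneg_right (by linarith) n1
  have h4 : 0 < |k| * |k| := mul_pos (by linarith) (by linarith)
  have h5 : (-k + r) * k < 0 := by nlinarith
  calc (-k + r) * ρ * k = (-k + r) * k * ρ := by ring
    _ < 0 := mul_neg_of_neg_of_pos h5 hρ0

theorem St_est (c : Ctx0 f g) {σ δ : ℝ} (hσ : 0 < σ) (hσ' : σ ≤ c.σ0) (hδ : 0 < δ) :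
    EvG0 c fun _ _ S _ _ => ∀ j, S.InB σ j → S.InB σ (S.T j) → S.G2 j →
      |S.St j| ≤ 4 * (|S.m2 j| + 1) / (S.h j * S.h (S.T j)) ∧
      (δ ≤ |S.m2 j| → |S.m2 j| / (4 * (S.h j * S.h (S.T j))) ≤ |S.St j| ∧
        |S.St j| ≤ 4 * |S.m2 j| / (S.h j * S.h (S.T j)) ∧
        S.St j * (S.t1 j * S.t1 (S.T j) * S.t2 j * S.m2 j) < 0) := by
  have hk := kap_link c hσ hσ' (δ := 1 / 2) (by norm_num)
  unfold EvG0 at hk ⊢
  filter_upwards [hk, ev_le (a := σ / 4) (by positivity), ev_le (a := min 1 (δ / 4))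
    (lt_min one_pos (by positivity))] with ε hk hε hε' I S yL yR hm j hj hj' h2
  have e0 := hε.1
  have hs : 4 * ε ≤ σ := by linarith [hε.2]
  have A := S.step e0 hs hj
  have B := S.step e0 hs hj'
  have hρ := (hk I S yL yR hm j hj hj').2
  obtain ⟨k1', -⟩ := S.kappa_pos e0 hs hj'
  have hm1 : |S.m1 j| ≤ 1 / σ := (S.g1_of e0 (by linarith) hj).2.2.2.2.2
  have a1 := linkT_abs A.g1.1.ht
  have a2 := linkT_abs B.g1.1.ht
  have a3 := linkT_abs h2.1.ht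
  have hp : 0 < S.h j * S.h (S.T j) := mul_pos A.hpos B.hpos
  have b1 : |ε * (S.t1 j * S.m1 j)| ≤ 1 / 4 := by
    rw [abs_mul, abs_mul, a1, one_mul, abs_of_pos e0]
    calc ε * |S.m1 j| ≤ σ / 4 * (1 / σ) := by gcongr; exact hε.2
      _ = 1 / 4 := by field_simp
  have b2 : |S.t2 j * S.m2 j| = |S.m2 j| := by rw [abs_mul, a3, one_mul]
  have hr : |ε * (S.t1 j * S.m1 j) * (S.t2 j * S.m2 j) + ε * (S.t1 j * S.m1 j) * ε| ≤
      |S.t2 j * S.m2 j| / 4 + min 1 (δ / 4) := by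
    refine (abs_add_le _ _).trans ?_
    rw [abs_mul _ (S.t2 j * S.m2 j), abs_mul _ ε, abs_of_pos e0]
    have := mul_le_mul_of_nonneg_right b1 (abs_nonneg (S.t2 j * S.m2 j))
    have := mul_le_mul_of_nonneg_right b1 e0.le
    linarith [hε'.2]
  obtain ⟨E1, E2⟩ := linkT_est hδ hr hρ
  set Y := (-(S.t2 j * S.m2 j) + (ε * (S.t1 j * S.m1 j) * (S.t2 j * S.m2 j) +
    ε * (S.t1 j * S.m1 j) * ε)) * (S.κ j / S.κ (S.T j)) with hY
  have eS : S.St j = S.t1 j * S.t1 (S.T j) * Y / (S.h j * S.h (S.T j)) := by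
    have := A.hpos
    have := B.hpos
    rw [hY, Sys.St, Sys.Gd]
    field_simp
    ring
  have eA : |S.St j| = |Y| / (S.h j * S.h (S.T j)) := by
    rw [eS, abs_div, abs_mul, abs_mul, a1, a2, abs_of_pos hp, one_mul, one_mul]
  rw [b2] at E1 E2
  rw [eA]
  refine ⟨by gcongr, fun h => ?_⟩
  obtain ⟨E3, E4, E5⟩ := E2 h
  refine ⟨?_, by gcongr, ?_⟩
  · rw [← div_div]
    gcongr
  · have e1 := linkT_sq A.g1.1.ht
    have e2 := linkT_sq B.g1.1.ht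
    have e3 : S.St j * (S.t1 j * S.t1 (S.T j) * S.t2 j * S.m2 j) =
        S.t1 j * S.t1 j * (S.t1 (S.T j) * S.t1 (S.T j)) * (Y * (S.t2 j * S.m2 j)) /
          (S.h j * S.h (S.T j)) := by
      rw [eS]
      ring
    rw [e3, e1, e2, one_mul, one_mul]
    exact div_neg_of_neg_of_pos E5 hp

theorem linkT_beta (ξ : Lin S) {j : I} (k1 : 0 < S.κ j) (k2 : 0 < S.κ (S.T j))
    (hρ : |S.κ j / S.κ (S.T j) - 1| ≤ 1 / 2) :
    |ξ.β (S.T j)| ≤ 2 * |ξ.b (S.T j) / S.κ j| := by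
  have e : ξ.β (S.T j) = S.κ j / S.κ (S.T j) * (ξ.b (S.T j) / S.κ j) := by
    rw [Lin.β]
    field_simp
  rw [e, abs_mul, abs_of_pos (div_pos k1 k2)]
  exact mul_le_mul_of_nonneg_right (by linarith [(abs_le.1 hρ).2]) (abs_nonneg _)

/-- bounds for beta at both ends of a genuine link whose parameter lies in [a, A] -/
theorem link_bound (c : Ctx0 f g) {σ : ℝ} (hσ : 0 < σ) (hσ' : σ ≤ c.σ0) :
    EvG0 c fun _ _ S _ _ => ∀ (ξ : Lin S) (j) (M a A : ℝ), S.InB σ j → S.InB σ (S.T j) →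
      S.G2 j → 0 < a → a ≤ |S.St j| → |S.St j| ≤ A →
      S.κ j * |ξ.ζ (S.T j) - ξ.ζ j| ≤ M →
      |ξ.β j| ≤ M / a + A * ξ.ct j ∧ |ξ.β (S.T j)| ≤ 2 * (3 * M / a + A * ξ.ct j + S.γ j * M) := by
  have hk := kap_link c hσ hσ' (δ := 1 / 2) (by norm_num)
  unfold EvG0 at hk ⊢
  filter_upwards [hk, ev_le (a := σ / 4) (by positivity)] with ε hk hε I S yL yR hm ξ j M a A hj
    hj' h2 ha h3 h4 hM
  have e0 := hε.1
  have hs : 4 * ε ≤ σ := by linarith [hε.2]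
  obtain ⟨k1, -, -, -, hγ, -⟩ := S.kappa_pos e0 hs hj
  obtain ⟨k2, -⟩ := S.kappa_pos e0 hs hj'
  have hl := (plink ξ e0 hs hj hj' h2).1
  have hS : 0 < |S.St j| := ha.trans_le h3
  have hS0 : S.St j ≠ 0 := abs_pos.1 hS
  obtain ⟨c1, c2⟩ := linkT_ct ξ k1
  have hz : |S.κ j * ξ.ζ (S.T j) - S.κ j * ξ.ζ j| ≤ M := by
    rwa [← mul_sub, abs_mul, abs_of_pos k1]
  have hM0 : 0 ≤ M := (abs_nonneg _).trans hz
  have H1 := hl.H1 (sq_nonneg _) hS0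
  have H2 := hl.H2 (sq_nonneg _) hS0
  rw [Real.sqrt_sq hγ] at H2
  have b1 : |ξ.β j| ≤ M / a + A * ξ.ct j := by
    refine H1.trans (add_le_add (by gcongr) ?_)
    calc _ ≤ S.γ j ^ 2 * |S.St j| / 2 * |S.κ j * ξ.ζ j| :=
          mul_le_mul_of_nonneg_right (min_le_left _ _) (abs_nonneg _)
      _ = |S.St j| / 2 * ξ.ct j := by rw [← c1]; ring
      _ ≤ _ := mul_le_mul_of_nonneg_right (by linarith) c2
  refine ⟨b1, (linkT_beta ξ k1 k2 (hk I S yL yR hm j hj hj').2).trans ?_⟩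
  have b2 : (2 / |S.St j| + S.γ j) * |S.κ j * ξ.ζ (S.T j) - S.κ j * ξ.ζ j| ≤
      (2 / a + S.γ j) * M := by gcongr
  have b3 : (2 / a + S.γ j) * M = 2 * (M / a) + S.γ j * M := by ring
  have b4 : 3 * M / a = 3 * (M / a) := by ring
  linarith

/-- comparison of beta along a genuine link of bounded parameter -/
theorem link_cmp (c : Ctx0 f g) {σ A : ℝ} (hσ : 0 < σ) (hσ' : σ ≤ c.σ0) (hA : 0 < A) :
    EvG0 c fun _ _ S _ _ => ∀ (ξ : Lin S) (j), S.InB σ j → S.InB σ (S.T j) → S.G2 j →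
      |S.St j| ≤ A → |ξ.β (S.T j)| ≤ 4 * |ξ.β j| + 2 * A * ξ.ct j ∧
        S.κ j * |ξ.ζ (S.T j) - ξ.ζ j| ≤ A * |ξ.β j| + A ^ 2 * ξ.ct j := by
  have hk := kap_link c hσ hσ' (δ := 1 / 2) (by norm_num)
  obtain ⟨φ, hφ⟩ := c.hf.ev_sm hσ (by linarith [c.σ0_le])
  unfold EvG0 at hk ⊢
  filter_upwards [hk, hφ, ev_le (a := 1 / (10000 * A)) (by positivity)] with ε hk hsm hε I S yL yR
    hm ξ j hj hj' h2 h4
  have e0 := hε.1
  have hs : 4 * ε ≤ σ := by linarith [hsm.le16]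
  obtain ⟨k1, -, -, -, hγ, -⟩ := S.kappa_pos e0 hs hj
  obtain ⟨k2, -⟩ := S.kappa_pos e0 hs hj'
  have hl := (plink ξ e0 hs hj hj' h2).1
  obtain ⟨c1, c2⟩ := linkT_ct ξ k1
  have H3 := hl.H3 (sq_nonneg _)
  have H4 := hl.H4 (sq_nonneg _)
  have hg := S.gamma_le hsm hj
  have n1 := abs_nonneg (S.St j)
  have n2 := abs_nonneg (ξ.β j)
  have g1 : S.γ j * |S.St j| ≤ 1 := by
    have h5 := hε.2
    rw [le_div_iff₀ (by positivity)] at h5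
    calc S.γ j * |S.St j| ≤ 10000 * ε * A := by gcongr
      _ ≤ 1 := by linarith
  have g2 : S.γ j ^ 2 * S.St j ^ 2 ≤ 1 := by
    rw [← sq_abs (S.St j), ← mul_pow]
    exact pow_le_one₀ (by positivity) g1
  have g3 : S.St j ^ 2 ≤ A ^ 2 := by
    rw [← sq_abs]
    exact pow_le_pow_left₀ n1 h4 2
  constructor
  · refine (linkT_beta ξ k1 k2 (hk I S yL yR hm j hj hj').2).trans ?_
    have b1 := abs_sub_abs_le_abs_sub (ξ.b (S.T j) / S.κ j) (ξ.β j)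
    have b2 : S.γ j ^ 2 * S.St j ^ 2 / 2 * |ξ.β j| ≤ 1 * |ξ.β j| :=
      mul_le_mul_of_nonneg_right (by linarith) n2
    have b3 : S.γ j ^ 2 * |S.St j| * |S.κ j * ξ.ζ j| ≤ A * ξ.ct j := by
      calc _ = |S.St j| * ξ.ct j := by rw [← c1]; ring
        _ ≤ _ := mul_le_mul_of_nonneg_right h4 c2
    linarith
  · have b1 : min (S.γ j ^ 2 * S.St j ^ 2 / 2) (√(S.γ j ^ 2) * |S.St j|) * |S.κ j * ξ.ζ j| ≤
        A ^ 2 * ξ.ct j := by
      calc _ ≤ S.γ j ^ 2 * S.St j ^ 2 / 2 * |S.κ j * ξ.ζ j| :=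
            mul_le_mul_of_nonneg_right (min_le_left _ _) (abs_nonneg _)
        _ = S.St j ^ 2 / 2 * ξ.ct j := by rw [← c1]; ring
        _ ≤ _ := mul_le_mul_of_nonneg_right (by linarith [sq_nonneg (S.St j)]) c2
    have b2 := abs_sub_abs_le_abs_sub (S.κ j * ξ.ζ (S.T j) - S.κ j * ξ.ζ j) (S.St j * ξ.β j)
    have b3 : |S.St j * ξ.β j| ≤ A * |ξ.β j| := by
      rw [abs_mul]
      exact mul_le_mul_of_nonneg_right h4 n2
    have b4 : |S.κ j * ξ.ζ (S.T j) - S.κ j * ξ.ζ j| = S.κ j * |ξ.ζ (S.T j) - ξ.ζ j| := by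
      rw [← mul_sub, abs_mul, abs_of_pos k1]
    linarith

end XR
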