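import Pool.Agent.P.MP_408b1f_gt.Geo3
import Pool.Agent.P.MP_408b1f_gt.Defs3

/-! Windows of R around deep indices.
hwin: j = (R^n).symm j0; xstep_pow keeps all abscissas within n eps <= sigma0 of x j0; the heights
change by a chord slope (sandO, sandP of step, bounded by g1_of at the level sigma0) times the change
of x, which is at most eps per step.
zfacts: Ctx.η_le, deep_of_height for O j and P (T j) (yP_T), g2_of, mid_iff (the height is strictly
between yL and yR), mid_t2, gge. zmove: sandO; kO j and kO (R j) have absolute value >= eta/2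
(hslope with a = eta/2) and the sign of t2 j * t1 j (t2 (R j) = t2 j by zfacts, tR); h3 >= f0 / 2.
pfacts: deep_of_height; G1.ydiff with f >= f0 and heights in [0,1].
pchord: run_mono with Small.sm for both runs: tau * (x (T i l) - x (i l)) grows by at least
f0 eps per step.
flat: take l large, s from steep0, steep1 of c.hg, so g y >= l (1 - y) for y in [1 - s, 1) (SG at y
tested at 1; sg_exists) and g y >= l y near 0. With n = floor (r / eps) and the window of hwin around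
i (for i and for T i, comm_pow), at both ends of the window the chord |x (T i') - x i'| is positive
(pchord) and at most 3 r, it equals g (yO i') (g2_of_ne, G2.x_eq), so the height is within 3 r / l of
the extreme value; the abscissas of the ends differ from the centre by at least n eps f0 / 2
>= r f0 / 4 (run_mono). The support inequalities at P (T i) and O i tested at the two ends give
slopes at most 12 / (l f0). The bottom case by S.neg, c.neg. -/

open Set MeasureTheory Filter Topology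

noncomputable section

namespace XR

variable {f g : ℝ → ℝ} {ε : ℝ} {I : Type} {S : Sys f g ε I} {yL yR ς : ℝ}

private theorem w1_abs {a b p M d e : ℝ} (ha : |a| ≤ M) (hb : |b| ≤ M) (h1 : a ≤ p) (h2 : p ≤ b)
    (hd : |d| ≤ e) : |p * d| ≤ M * e := by
  have h3 : |p| ≤ M := abs_le.2 ⟨by linarith only [h1, ha, (abs_le.1 ha).1], by linarith [(abs_le.1 hb).2]⟩
  rw [abs_mul]
  exact mul_le_mul h3 hd (abs_nonneg _) ((abs_nonneg _).trans h3)

private theorem w1_h {c : Ctx0 f g} (hs : c.Small ε) {j : I} (hj : S.InB c.σ0 j) :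
    S.StepF c.σ0 j ∧ c.f0 / 2 ≤ S.h3 j := by
  have h0 := c.σ0pos
  have h1 := hs.εpos
  have h2 := hs.leσ
  have h3 := hs.lef
  have h4 := c.f0pos
  have st : S.StepF c.σ0 j := S.step h1 (by linarith only [h1, h2]) hj
  have hf : c.f0 ≤ f (S.x j) := c.fge _ ⟨by linarith only [h1, h2, hj.1], by linarith only [h1, h2, hj.2]⟩
  have hb : 2 * ε / c.σ0 ≤ c.f0 / 2 := by
    rw [div_le_iff₀ h0]
    nlinarith only [h1, h3]
  have a1 := abs_le.1 st.hR
  exact ⟨st, by linarith only [hf, hb, a1, a1.1]⟩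

private theorem w1_ystep {c : Ctx0 f g} (hs : c.Small ε) {j : I} (hj : S.InB c.σ0 j)
    (hj' : S.InB c.σ0 (S.R j)) :
    |S.yO (S.R j) - S.yO j| ≤ ε / c.σ0 ∧ |S.yP (S.R j) - S.yP j| ≤ ε / c.σ0 := by
  have h0 := c.σ0pos
  have h1 := hs.εpos
  have h2 := hs.leσ
  have st := (w1_h hs hj).1
  have g1 := S.g1_of h1 (by linarith only [h1, h2]) hj
  have g2 := S.g1_of h1 (by linarith only [h1, h2]) hj'
  have hx := S.xstep h1.le j
  have e : ε / c.σ0 = 1 / c.σ0 * ε := by ring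
  obtain ⟨p, p1, p2, p3, -⟩ := st.sandP
  obtain ⟨r, r1, r2, r3, -⟩ := st.sandO
  rw [p1, r1, e]
  exact ⟨w1_abs g1.2.2.2.1 g2.2.2.2.1 r2 r3 hx, w1_abs g2.2.1 g1.2.1 p2 p3 hx⟩

private theorem w1_yrun {c : Ctx0 f g} (hs : c.Small ε) {j : I} {m : ℕ} (h : S.Run c.σ0 j m) :
    |S.yO ((S.R ^ m) j) - S.yO j| ≤ m * (ε / c.σ0) ∧
      |S.yP ((S.R ^ m) j) - S.yP j| ≤ m * (ε / c.σ0) := by
  induction m with
  | zero => simp
  | succ k ih =>
    have ih' := ih (h.mono (Nat.le_succ k))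
    have a := h k (Nat.le_succ k)
    have b := h (k + 1) le_rfl
    rw [S.g2a_pow_succ] at b ⊢
    have st := w1_ystep hs a b
    rw [Nat.cast_succ]
    constructor
    · have := abs_sub_le (S.yO (S.R ((S.R ^ k) j))) (S.yO ((S.R ^ k) j)) (S.yO j)
      linarith only [ih', st, this, st.1, ih'.1]
    · have := abs_sub_le (S.yP (S.R ((S.R ^ k) j))) (S.yP ((S.R ^ k) j)) (S.yP j)
      linarith only [ih', st, this, st.2, ih'.2]

private theorem w1_pow (a b : ℕ) (j : I) : (S.R ^ (a + b)) j = (S.R ^ a) ((S.R ^ b) j) := by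
  rw [pow_add, Equiv.Perm.mul_apply]

private theorem w1_steep (hg : Half g) (l : ℝ) : ∃ s > 0, ∀ τ E : ℝ,
    ((τ = 1 ∧ E = 1) ∨ (τ = -1 ∧ E = 0)) → ∀ y ∈ Icc (0:ℝ) 1, τ * (E - y) ≤ s →
      l * (τ * (E - y)) ≤ g y := by
  obtain ⟨s0, hs0, h0⟩ := hg.steep0 l
  obtain ⟨s1, hs1, h1⟩ := hg.steep1 l
  refine ⟨min (1 / 2) (min s0 s1), by positivity, ?_⟩
  intro τ E h y hy hd
  have d1 := hd.trans (min_le_left _ _)
  have d2 := (hd.trans (min_le_right _ _)).trans (min_le_left _ _)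
  have d3 := (hd.trans (min_le_right _ _)).trans (min_le_right _ _)
  rcases h with ⟨rfl, rfl⟩ | ⟨rfl, rfl⟩
  · rcases hy.2.eq_or_lt with e | e
    · rw [e, hg.zero1]; simp
    · have y0 : 0 < y := by linarith only [d1, e]
      obtain ⟨m, hm⟩ := sg_exists hg.conc (x := y) ⟨y0, e⟩
      have a := h1 y ⟨by linarith only [d3], e⟩ y0 m hm
      have b := hm 1 ⟨zero_le_one, le_rfl⟩
      rw [hg.zero1] at b
      nlinarith only [b, e, a]
  · rcases hy.1.eq_or_lt with e | e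
    · rw [← e, hg.zero0]; simp
    · have y1 : y < 1 := by linarith only [d1, e]
      obtain ⟨m, hm⟩ := sg_exists hg.conc (x := y) ⟨e, y1⟩
      have a := h0 y ⟨e, by linarith only [d2]⟩ y1 m hm
      have b := hm 0 ⟨le_rfl, zero_le_one⟩
      rw [hg.zero0] at b
      nlinarith only [b, e, a]

private theorem w1_sl {k A q δ : ℝ} (hq : 0 < q) (hδ : 0 < δ) (hA : q ≤ A)
    (h : -(δ * q) ≤ k * A) : -δ ≤ k := by
  by_contra hk
  push Not at hk
  nlinarith only [h, hq, hk, hδ, hA]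

theorem hwin {c : Ctx0 f g} (hs : c.Small ε) {j0 : I} (h0 : S.InB (2 * c.σ0) j0) {n : ℕ}
    (hn : n * ε ≤ c.σ0) :
    ∃ j, (S.R ^ n) j = j0 ∧ S.Run c.σ0 j (2 * n) ∧ ∀ l ≤ 2 * n,
      |S.x ((S.R ^ l) j) - S.x j0| ≤ n * ε ∧ |S.yO ((S.R ^ l) j) - S.yO j0| ≤ n * ε / c.σ0 ∧
        |S.yP ((S.R ^ l) j) - S.yP j0| ≤ n * ε / c.σ0 := by
  have h1 := hs.εpos
  have hσ := c.σ0pos
  obtain ⟨j, hj⟩ : ∃ j, (S.R ^ n) j = j0 := ⟨(S.R ^ n).symm j0, by simp⟩
  have hx : ∀ l ≤ 2 * n, |S.x ((S.R ^ l) j) - S.x j0| ≤ n * ε := by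
    intro l hl
    rcases le_total l n with h | h
    · obtain ⟨k, rfl⟩ := Nat.exists_eq_add_of_le' h
      have a := S.xstep_pow h1.le ((S.R ^ l) j) k
      rw [← w1_pow, hj, abs_sub_comm] at a
      refine a.trans ?_
      push_cast
      have : (0:ℝ) ≤ l * ε := by positivity
      linarith only [this]
    · obtain ⟨k, rfl⟩ := Nat.exists_eq_add_of_le' h
      have a := S.xstep_pow h1.le j0 k
      rw [w1_pow, hj]
      refine a.trans (mul_le_mul_of_nonneg_right ?_ h1.le)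
      exact_mod_cast (by omega : k ≤ n)
  have hr : S.Run c.σ0 j (2 * n) := by
    intro l hl
    have a := abs_le.1 (hx l hl)
    exact ⟨by linarith only [hn, a, a.1, h0.1], by linarith only [hn, a, a.2, h0.2]⟩
  refine ⟨j, hj, hr, fun l hl => ⟨hx l hl, ?_⟩⟩
  have hq : 0 ≤ ε / c.σ0 := by positivity
  rw [mul_div_assoc]
  rcases le_total l n with h | h
  · obtain ⟨k, rfl⟩ := Nat.exists_eq_add_of_le' h
    have r1 : S.Run c.σ0 ((S.R ^ l) j) k := (hr.mono (by omega : l + k ≤ _)).shift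
    have a := w1_yrun hs r1
    rw [← w1_pow, hj, abs_sub_comm, abs_sub_comm (S.yP j0)] at a
    have b : (k:ℝ) * (ε / c.σ0) ≤ ((k + l : ℕ) : ℝ) * (ε / c.σ0) :=
      mul_le_mul_of_nonneg_right (by exact_mod_cast Nat.le_add_right k l) hq
    exact ⟨a.1.trans b, a.2.trans b⟩
  · obtain ⟨k, rfl⟩ := Nat.exists_eq_add_of_le' h
    have r1 : S.Run c.σ0 ((S.R ^ n) j) k := (hr.mono (by omega : n + k ≤ _)).shift
    have a := w1_yrun hs r1
    rw [hj] at a
    rw [w1_pow, hj]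
    have b : (k:ℝ) * (ε / c.σ0) ≤ (n : ℝ) * (ε / c.σ0) :=
      mul_le_mul_of_nonneg_right (by exact_mod_cast (by omega : k ≤ n)) hq
    exact ⟨a.1.trans b, a.2.trans b⟩

theorem zfacts {c : Ctx f g} (hs : c.Small ε) (hm : Mg c.η c.ys S yL yR ς) {j : I}
    (h : |S.yO j - c.ys| ≤ c.η / 4) :
    S.InB (2 * c.σ0) j ∧ S.InB (2 * c.σ0) (S.T j) ∧ S.G2 j ∧ S.t1 (S.T j) = S.t1 j ∧
      S.t1 j * S.t2 j = -ς ∧ S.yO j ∈ Icc c.η (1 - c.η) ∧ 4 * c.σ0 ≤ g (S.yO j) := by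
  have h1 := hs.εpos
  have hσ := c.σ0pos
  have hη := c.ηpos
  have h2 := hs.leσ
  have h3 := hs.leη
  have e := c.η_le hm
  have a := abs_le.1 h
  have hlt : |S.yO j - c.ys| < c.η / 2 := by linarith only [h, h1, h3]
  have d1 := deep_of_height (c := c.toCtx0) hm (S.memO j).1 (Or.inr (Or.inr hlt))
  have d2 := deep_of_height (c := c.toCtx0) hm (S.memP (S.T j)).1
    (Or.inr (Or.inr (by rw [S.lev2]; exact hlt)))
  rw [S.xO] at d1
  have b1 : S.InB (2 * c.σ0) j := ⟨d1.1.le, d1.2.le⟩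
  have b2 : S.InB (2 * c.σ0) (S.T j) := ⟨d2.1.le, d2.2.le⟩
  have g2 : S.G2 j := S.g2_of (by linarith only [h1, h3, e, a, a.1, e.1]) (by linarith only [h1, h3, e, a, a.2, e.2])
  have g1 := (S.g1_of h1 (by linarith only [h1, h2]) b1).1
  have g1' := (S.g1_of h1 (by linarith only [h1, h2]) b2).1
  have hmid : (S.yO j - yL) * (S.yO j - yR) < 0 := by
    have s1 := hm.sL
    have s2 := hm.sR
    rcases hm.hς with k | k <;> rw [k] at s1 s2
    · exact mul_neg_of_neg_of_pos (by linarith only [h1, h3, a, s1, a.2]) (by linarith only [hη, a, s2, a.1])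
    · exact mul_neg_of_pos_of_neg (by linarith only [hη, a, s1, a.1]) (by linarith only [h1, h3, a, s2, a.2])
  have ht : S.t1 j = S.t1 (S.T j) := (mid_iff hm.toMg0 g2 g1 g1'
    ⟨by linarith only [h1, h2, d1, b1.1], by linarith only [h1, h2, d1, b1.2]⟩ ⟨by linarith only [h1, h2, b2.1], by linarith only [h1, h2, b2.2]⟩).2 hmid
  exact ⟨b1, b2, g2, ht.symm, mid_t2 hη hm g2 g1 g1' ht,
    ⟨by linarith only [hη, e, a, a.1, e.1], by linarith only [h1, h3, e, a, a.2, e.2]⟩,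
    c.gge _ ⟨by linarith only [hη, e, a, a.1, e.1], by linarith only [h1, h3, e, a, a.2, e.2]⟩⟩

theorem zmove {c : Ctx f g} (hs : c.Small ε) (hm : Mg c.η c.ys S yL yR ς) {j : I}
    (h : |S.yO j - c.ys| ≤ c.η / 4) (h' : |S.yO (S.R j) - c.ys| ≤ c.η / 4) :
    S.t2 (S.R j) = S.t2 j ∧ c.η * c.f0 / 4 * ε ≤ S.t2 j * (S.yO (S.R j) - S.yO j) := by
  have h1 := hs.εpos
  have hσ := c.σ0pos
  have hη := c.ηpos
  have hf := c.f0pos
  have h2 := hs.leσ
  obtain ⟨a1, -, a3, -, a5, a6, -⟩ := zfacts hs hm h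
  obtain ⟨b1, -, b3, -, b5, b6, -⟩ := zfacts hs hm h'
  obtain ⟨st, hh⟩ := w1_h (c := c.toCtx0) hs (a1.mono (by linarith only [h1, h2]))
  have gA := S.g1_of h1 (by linarith) a1
  have gB := S.g1_of h1 (by linarith only [h1, h2]) b1
  have tR := st.tR
  have ht2 : S.t2 (S.R j) = S.t2 j := by
    rw [tR] at b5
    rcases gA.1.1.ht with k | k <;> rw [k] at a5 b5 <;> linarith only [a5, b5]
  refine ⟨ht2, ?_⟩
  have hη2 : 0 < c.η / 2 := by positivity
  have uA := a3.hslope hη2 (by linarith only [hη, a6.1]) (by linarith only [hη, a6.2])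
  have uB := b3.hslope hη2 (by linarith only [hη, b6.1]) (by linarith only [hη, b6.2])
  have kA := (geo3_slope a3.1.ht gA.1.1.ht gA.1.1.hu' a3.1.hu' uA.1 gA.2.2.2.1).1
  have kB := (geo3_slope b3.1.ht gB.1.1.ht gB.1.1.hu' b3.1.hu' uB.1 gB.2.2.2.1).1
  rw [ht2, tR] at kB
  obtain ⟨r, r1, r2, r3, -⟩ := st.sandO
  rw [st.xR] at r1
  simp only [Sys.kO] at r2 r3
  have q : c.η / 2 ≤ S.t2 j * S.t1 j * r := by
    rcases gA.1.1.ht with k | k <;> rcases a3.1.ht with k' | k' <;>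
      rw [k, k'] at kA kB ⊢ <;> linarith only [kA, r2, kB, r3]
  have z : S.t2 j * (S.yO (S.R j) - S.yO j) = S.t2 j * S.t1 j * r * S.h3 j * ε := by
    rw [r1]; ring
  rw [z]
  refine mul_le_mul_of_nonneg_right ?_ h1.le
  have : c.η / 2 * (c.f0 / 2) ≤ S.t2 j * S.t1 j * r * S.h3 j :=
    mul_le_mul q hh (by positivity) (by linarith only [hη, q])
  linarith only [this]

theorem pfacts {c : Ctx f g} (hs : c.Small ε) (hm : Mg c.η c.ys S yL yR ς) {i : I} {τ δ : ℝ}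
    (hδ : δ ≤ c.η / 4) (hδ' : δ ≤ c.f0 / 2)
    (h : (τ = 1 ∧ 1 - δ ≤ S.yO i) ∨ (τ = -1 ∧ S.yO i ≤ δ)) :
    S.InB (2 * c.σ0) i ∧ S.InB (2 * c.σ0) (S.T i) ∧ S.t1 i = -τ ∧ S.t1 (S.T i) = τ := by
  have h1 := hs.εpos
  have hσ := c.σ0pos
  have hη := c.ηpos
  have hf := c.f0pos
  have h2 := hs.leσ
  have hd : S.yO i < c.η / 2 ∨ 1 - c.η / 2 < S.yO i ∨ |S.yO i - c.ys| < c.η / 2 := by
    rcases h with h | h
    · exact Or.inr (Or.inl (by linarith only [hδ, hη, h, h.2]))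
    · exact Or.inl (by linarith only [hδ, hη, h, h.2])
  have d1 := deep_of_height (c := c.toCtx0) hm (S.memO i).1 hd
  have d2 := deep_of_height (c := c.toCtx0) hm (S.memP (S.T i)).1 (by rw [S.lev2]; exact hd)
  rw [S.xO] at d1
  have b1 : S.InB (2 * c.σ0) i := ⟨d1.1.le, d1.2.le⟩
  have b2 : S.InB (2 * c.σ0) (S.T i) := ⟨d2.1.le, d2.2.le⟩
  have g1 := (S.g1_of h1 (by linarith only [h1, h2]) b1).1
  have g1' := (S.g1_of h1 (by linarith only [h1, h2]) b2).1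
  have f1 : c.f0 ≤ f (S.x i) := c.fge _ ⟨by linarith only [h1, h2, d1, b1.1], by linarith only [h1, h2, d1, b1.2]⟩
  have f2 : c.f0 ≤ f (S.x (S.T i)) := c.fge _ ⟨by linarith only [h1, h2, b2.1], by linarith only [h1, h2, b2.2]⟩
  have y1 := g1.ydiff
  have y2 := g1'.ydiff
  rw [S.yP_T] at y2
  have m1 := S.yP_mem i
  have m2 := S.yO_mem (S.T i)
  refine ⟨b1, b2, ?_, ?_⟩
  · rcases h with ⟨rfl, h⟩ | ⟨rfl, h⟩ <;> rcases g1.1.ht with k | k <;> rw [k] at y1 ⊢ <;>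
      linarith only [h1, h2, d1, hδ', hf, f1, y1, h, m1.1, m1.2]
  · rcases h with ⟨rfl, h⟩ | ⟨rfl, h⟩ <;> rcases g1'.1.ht with k | k <;> rw [k] at y2 ⊢ <;>
      linarith only [hδ', hf, f2, y2, h, h1, h2, d1, m2.1, m2.2]

theorem pchord {c : Ctx0 f g} (hs : c.Small ε) {i : I} {N : ℕ} {τ : ℝ}
    (h1 : S.Run c.σ0 i N) (h2 : S.Run c.σ0 (S.T i) N) (t1 : S.t1 i = -τ) (t2 : S.t1 (S.T i) = τ)
    {l l' : ℕ} (hl : l ≤ l') (hl' : l' ≤ N) :
    ((l' : ℝ) - l) * (c.f0 * ε) ≤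
      τ * (S.x (S.T ((S.R ^ l') i)) - S.x ((S.R ^ l') i)) -
        τ * (S.x (S.T ((S.R ^ l) i)) - S.x ((S.R ^ l) i)) := by
  have hσ := c.σ0pos
  have r1 : S.Run (c.σ0 / 2) i N := fun k hk => (h1 k hk).mono (by linarith only [hσ])
  have r2 : S.Run (c.σ0 / 2) (S.T i) N := fun k hk => (h2 k hk).mono (by linarith only [hσ])
  have a := (S.run_mono hs.sm r1 hl (by omega)).2
  have b := (S.run_mono hs.sm r2 hl (by omega)).2
  rw [t1] at a
  rw [t2, S.comm_pow, S.comm_pow] at b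
  linarith only [a, b]

theorem flat (c : Ctx f g) {δ : ℝ} (hδ : 0 < δ) :
    ∀ᶠ r in 𝓝[>] (0:ℝ), EvG c fun ε _ S => ∀ i, |S.x (S.T i) - S.x i| < c.f0 / 4 * ε →
      (S.yO i ≤ r ∨ 1 - r ≤ S.yO i) → |S.kP (S.T i)| ≤ δ ∧ |S.kO i| ≤ δ := by
  have hσ := c.σ0pos
  have hη := c.ηpos
  have hf := c.f0pos
  have hσ8 := c.toCtx0.σ0_le
  have hf1 : c.f0 ≤ 1 := (c.fge (1 / 2) ⟨by linarith only [hσ, hσ8], by linarith only [hσ, hσ8]⟩).trans
    (c.hf.le1 _ ⟨by norm_num, by norm_num⟩)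
  obtain ⟨s, hs0, hst⟩ := w1_steep c.hg (12 / (δ * c.f0))
  filter_upwards [ev_le (a := c.η / 4) (by positivity), ev_le (a := c.f0 / 2) (by positivity),
    ev_le hσ, ev_le (a := s * c.σ0 / 2) (by positivity)] with r r1 r2 r3 r4
  have hr := r1.1
  filter_upwards [c.toCtx0.ev_small, ev_le (a := r / 2) (by positivity)] with ε hs e1
  intro I S yL yR ς hm i hi hy
  have h1 := hs.εpos
  obtain ⟨τ, E, hτ, hd⟩ : ∃ τ E : ℝ, ((τ = 1 ∧ E = 1) ∨ (τ = -1 ∧ E = 0)) ∧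
      τ * (E - S.yO i) ≤ r := by
    rcases hy with h | h
    · exact ⟨-1, 0, Or.inr ⟨rfl, rfl⟩, by linarith only [h]⟩
    · exact ⟨1, 1, Or.inl ⟨rfl, rfl⟩, by linarith only [h]⟩
  have hτ1 : |τ| = 1 := by rcases hτ with ⟨rfl, -⟩ | ⟨rfl, -⟩ <;> simp
  have hd0 : 0 ≤ τ * (E - S.yO i) := by
    have m := S.yO_mem i
    rcases hτ with ⟨rfl, rfl⟩ | ⟨rfl, rfl⟩ <;> linarith only [m.1, m.2]
  obtain ⟨b1, b2, t1, t2⟩ := pfacts (τ := τ) hs hm (i := i) r1.2 r2.2 (by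
    rcases hτ with ⟨rfl, rfl⟩ | ⟨rfl, rfl⟩
    · exact Or.inl ⟨rfl, by linarith only [hd]⟩
    · exact Or.inr ⟨rfl, by linarith only [hd]⟩)
  obtain ⟨n, n1, n2⟩ : ∃ n : ℕ, n * ε ≤ r ∧ r / 2 ≤ n * ε := by
    refine ⟨⌊r / ε⌋₊, ?_, ?_⟩
    · have := Nat.floor_le (a := r / ε) (by positivity)
      rwa [le_div_iff₀ h1] at this
    · have := Nat.lt_floor_add_one (r / ε)
      rw [div_lt_iff₀ h1] at this
      linarith only [e1, this, e1.2]
  obtain ⟨j, hj, rj, wj⟩ := hwin (c := c.toCtx0) hs b1 (n1.trans r3.2)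
  obtain ⟨j', hj', rj', wj'⟩ := hwin (c := c.toCtx0) hs b2 (n1.trans r3.2)
  obtain rfl : j' = S.T j := (S.R ^ n).injective (by rw [hj', S.comm_pow, hj])
  have ra : S.Run (c.σ0 / 2) j (2 * n) := fun k hk => (rj k hk).mono (by linarith only [r3, e1])
  have rb : S.Run (c.σ0 / 2) (S.T j) (2 * n) := fun k hk => (rj' k hk).mono (by linarith only [r3, e1])
  have a1 := S.run_mono hs.sm ra (Nat.zero_le n) (by omega)
  have a2 := (S.run_mono hs.sm ra (by omega : n ≤ 2 * n) (by omega)).2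
  have c1 := S.run_mono hs.sm rb (Nat.zero_le n) (by omega)
  have c2 := (S.run_mono hs.sm rb (by omega : n ≤ 2 * n) (by omega)).2
  rw [hj] at a1 a2
  rw [hj'] at c1 c2
  have tj : S.t1 j = -τ := a1.1.symm.trans t1
  have tj' : S.t1 (S.T j) = τ := c1.1.symm.trans t2
  have p1 := pchord (c := c.toCtx0) hs rj rj' tj tj' (Nat.zero_le n) (by omega)
  have p2 := pchord (c := c.toCtx0) hs rj rj' tj tj' (by omega : n ≤ 2 * n) le_rfl
  have a1' := a1.2
  have c1' := c1.2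
  rw [hj] at p1 p2
  rw [tj] at a1' a2
  rw [tj'] at c1' c2
  rw [S.comm_pow] at c2
  simp only [pow_zero, Equiv.Perm.one_apply, Nat.cast_zero, sub_zero] at p1 a1' c1'
  have cast2 : ((2 * n : ℕ) : ℝ) - n = n := by push_cast; ring
  rw [cast2] at p2 a2 c2
  have hc : |τ * (S.x (S.T i) - S.x i)| < c.f0 / 4 * ε := by rw [abs_mul, hτ1, one_mul]; exact hi
  have hc' := abs_lt.1 hc
  have hfe : c.f0 * ε ≤ n * (c.f0 * ε) := by
    have : ε ≤ n * ε := by linarith only [e1, n2, e1.2]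
    nlinarith only [hf, e1, n2]
  have hfe0 : 0 < c.f0 * ε := by positivity
  have key : ∀ l ≤ 2 * n, S.x (S.T ((S.R ^ l) j)) ≠ S.x ((S.R ^ l) j) →
      τ * (E - S.yO ((S.R ^ l) j)) ≤ δ * (r * c.f0 / 4) := by
    intro l hl hne
    have g2 := S.g2_of_ne c.hg.zero0 c.hg.zero1 hne
    have xe := g2.x_eq
    obtain ⟨w1, w2, -⟩ := wj l hl
    obtain ⟨w3, -⟩ := wj' l hl
    rw [S.comm_pow] at w3
    have hi' := abs_lt.1 hi
    have w1' := abs_le.1 w1
    have w3' := abs_le.1 w3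
    have hfr : c.f0 / 4 * ε ≤ r := by nlinarith only [hσ, e1, hf, hσ8, hc', hf1, r1, e1.2]
    have gl : g (S.yO ((S.R ^ l) j)) ≤ 3 * r := by
      rcases g2.1.ht with k | k <;> rw [k] at xe <;>
        linarith only [n1, xe, hi', w1', w3', hfr, w1'.1, w1'.2, w3'.1, w3'.2, hi'.1, hi'.2]
    have w4 : n * ε / c.σ0 ≤ s / 2 := by
      rw [div_le_iff₀ hσ]
      linarith only [r4, n1, r4.2]
    have w5 : r ≤ s / 2 := by nlinarith only [r4, e1, hσ8, hs0, r4.2]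
    have w2' := abs_le.1 w2
    have ds : τ * (E - S.yO ((S.R ^ l) j)) ≤ s := by
      rcases hτ with ⟨rfl, rfl⟩ | ⟨rfl, rfl⟩ <;> linarith only [w4, w5, w2', hd, w2'.1, w2'.2]
    have := (hst τ E hτ _ (S.yO_mem _) ds).trans gl
    rw [div_mul_eq_mul_div, div_le_iff₀ (by positivity)] at this
    linarith only [this]
  have k0 := key 0 (Nat.zero_le _) (by
    intro e
    simp only [pow_zero, Equiv.Perm.one_apply] at e
    rw [e] at p1
    linarith only [p1, hc', hfe, hc'.2])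
  have k2 := key (2 * n) le_rfl (by
    intro e
    rw [e] at p2
    linarith only [p2, hc', hfe, hc'.1])
  simp only [pow_zero, Equiv.Perm.one_apply] at k0
  have g1 := (S.g1_of h1 (by linarith only [r3, e1, hs.leσ]) b1).1
  have g1' := (S.g1_of h1 (by linarith only [r3, e1, hs.leσ]) b2).1
  have o0 := (g1.geo1_O j).1
  have o2 := (g1.geo1_O ((S.R ^ (2 * n)) j)).1
  have q0 := (g1'.geo1_P (S.T j)).1
  have q2 := (g1'.geo1_P (S.T ((S.R ^ (2 * n)) j))).1
  rw [t1] at o0 o2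
  rw [t2, S.yP_T, S.yP_T] at q0 q2
  have hq : 0 < r * c.f0 / 4 := by positivity
  have hA : r * c.f0 / 4 ≤ n * (ε * c.f0 / 2) := by nlinarith only [hf, n2]
  refine ⟨abs_le.2 ⟨w1_sl hq hδ (hA.trans c2) (by linarith only [hd0, k2, q2]), ?_⟩,
    abs_le.2 ⟨w1_sl hq hδ (hA.trans a1') (by linarith only [hd0, k0, o0]), ?_⟩⟩
  · have := w1_sl (k := -S.kP (S.T i)) hq hδ (hA.trans c1') (by linarith only [hd0, k0, q0])
    linarith only [this]
  · have := w1_sl (k := -S.kO i) hq hδ (hA.trans a2) (by linarith only [hd0, k2, o2])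
    linarith only [this]

end XR
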