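import Pool.Agent.P.MP_408b1f_gt.KeSum
import Pool.Agent.P.MP_408b1f_gt.Win1

/-! Bounds for beta through the different types of links. In EvAll unfold with three
filter_upwards; use Lambda >= 1, Ctx.ev_σ, Ctx.ev_sm, ev_small, and the EvG0 facts St_est,
link_bound, link_cmp, kap_link, kap_near at the level sigma. bc gives ct <= M / Lambda.
st_near: nearL, nearL_t (nearR, nearR_t): both links are genuine, |m2| in [z, 2 / eta] with the sign
given by Half.sg_lower; St_est; h i in [f / 2, 2 f], h of the partners in [f0 / 2, 1] (h_bounds);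
both parameters have the sign of - t1 i at the left end; kap_near with delta = 1/2.
plink_bd: s <= min sq (eta / 4) and below the thresholds of steep0, steep1 for c.hg; both ends are
deep (deep_of_height), G2 (g2_of_ne), g (yO i) = |x (T i) - x i| >= d so yO i is in (0,1),
l <= |m2| <= Cq / d (gq); St_est with delta = 1 gives a = l / 4, A = 16 Cq / (d f0^2); link_bound,
gamma_le. elink_bd: link_bound with a, A from st_near.
zlink_cmp: zfacts, hslope, St_est, plink with H3, H4, kap_link, gamma_le.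
glink_bd: G2 (g2_of), z <= |m2| <= 1 / r, h >= phi / 2; link_bound gives a bound C (sigma, r) M,
and sqrt eps * C <= 1 eventually. -/

open Set MeasureTheory Filter Topology

noncomputable section

namespace XR

variable {f g : ℝ → ℝ}

theorem lk_low {z m h h' H H' X : ℝ} (hz : 0 ≤ z) (hm : z ≤ m) (p : 0 < h) (p' : 0 < h')
    (q : h ≤ H) (q' : h' ≤ H') (hX : m / (4 * (h * h')) ≤ X) : z / (4 * (H * H')) ≤ X := by
  refine le_trans ?_ hX
  have : 0 < H := p.trans_le q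
  have : 0 ≤ m := hz.trans hm
  gcongr

theorem lk_up {m U h h' a a' X : ℝ} (hU : 0 ≤ U) (hm : m ≤ U) (p : 0 < a) (p' : 0 < a')
    (q : a ≤ h) (q' : a' ≤ h') (hX : X ≤ 4 * m / (h * h')) : X ≤ 4 * U / (a * a') := by
  refine hX.trans ?_
  have : 0 < h := p.trans_le q
  gcongr

theorem lk_same {x x' u v : ℝ} (h : x * u < 0) (h' : x' * v < 0) (huv : 0 < u * v) :
    0 < x * x' := by
  by_contra hn
  nlinarith only [h, h', hn, huv, mul_pos_of_neg_of_neg h h', mul_nonneg (neg_nonneg.2 (not_lt.1 hn)) huv.le]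

theorem lk_ct {ε : ℝ} {I : Type} {S : Sys f g ε I} {ξ : Lin S} {σ Λ M : ℝ} (hb : ξ.Bd σ Λ M)
    (hΛ : 0 < Λ) {j : I} (hj : S.InB σ j) : ξ.ct j ≤ M / Λ := by
  rw [le_div_iff₀ hΛ, mul_comm]
  exact hb.bc j hj

theorem lk_near {c : Ctx f g} {ε : ℝ} {I : Type} {S : Sys f g ε I} {yL yR ς : ℝ}
    (hs : c.Small ε) (hm : Mg c.η c.ys S yL yR ς) {i : I}
    (hi : S.x i ≤ 2 * c.σ0 ∨ 1 - 2 * c.σ0 ≤ S.x i) :
    S.G2 i ∧ S.G2 (S.T.symm i) ∧ S.InB (4 * c.σ0) (S.T i) ∧ S.InB (4 * c.σ0) (S.T.symm i) ∧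
      S.yO i ∈ Icc (c.η / 2) (1 - c.η / 2) ∧ S.yP i ∈ Icc (c.η / 2) (1 - c.η / 2) ∧
      S.t1 (S.T i) * S.t2 i = -ς ∧ S.t1 (S.T.symm i) * S.t2 (S.T.symm i) = -ς ∧
      ∃ s : ℝ, (s = 1 ∨ s = -1) ∧ c.η / 2 ≤ s * (c.ys - S.yO i) ∧
        c.η / 2 ≤ s * (c.ys - S.yP i) := by
  have p := c.ηpos
  rcases hi with hi | hi
  · obtain ⟨a1, a2, a3, a4, a5, a6, a7, a8⟩ := nearL hs hm.toMg0 hi
    obtain ⟨b1, b2, b3, b4⟩ := nearL_t hs hm hi
    have l := hm.hL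
    have a1' := abs_le.1 a1
    have a2' := abs_le.1 a2
    refine ⟨a3, a4, a7, a8, ⟨by linarith only [p, l, a2', l.1, a2'.1], by linarith only [p, l, a2', l.2, a2'.2]⟩,
      ⟨by linarith only [p, l, a1', l.1, a1'.1], by linarith only [p, l, a1', l.2, a1'.2]⟩, by rw [a5, b1]; ring,
      by rw [a6, b2]; ring, -ς, ?_, by linarith only [b3], by linarith only [b4]⟩
    rcases hm.hς with rfl | rfl <;> simp
  · obtain ⟨a1, a2, a3, a4, a5, a6, a7, a8⟩ := nearR hs hm.toMg0 hi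
    obtain ⟨b1, b2, b3, b4⟩ := nearR_t hs hm hi
    have l := hm.hR
    have a1' := abs_le.1 a1
    have a2' := abs_le.1 a2
    exact ⟨a3, a4, a7, a8, ⟨by linarith only [p, l, a2', l.1, a2'.1], by linarith only [p, l, a2', l.2, a2'.2]⟩,
      ⟨by linarith only [p, l, a1', l.1, a1'.1], by linarith only [p, l, a1', l.2, a1'.2]⟩, by rw [a5, b1]; ring,
      by rw [a6, b2]; ring, ς, hm.hς, b3, b4⟩

theorem lk_abs {s a d : ℝ} (hs : s = 1 ∨ s = -1) (h : a ≤ s * d) : a ≤ |d| := by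
  rcases hs with rfl | rfl
  · linarith [le_abs_self d]
  · linarith [neg_abs_le d]

theorem lk_ratio {a b : ℝ} (ha : 0 < a) (hb : 0 < b) (h : |b / a - 1| ≤ 1 / 2) :
    1 / 4 ≤ (a / b) ^ 2 ∧ (a / b) ^ 2 ≤ 4 := by
  have h1 := abs_le.1 h
  have h2 : 1 / 2 ≤ b / a := by linarith only [h1, h1.1]
  have h3 : b / a ≤ 3 / 2 := by linarith only [h1, h1.2]
  rw [le_div_iff₀ ha] at h2
  rw [div_le_iff₀ ha] at h3
  have h4 : 1 / 2 ≤ a / b := by rw [le_div_iff₀ hb]; linarith only [ha, h3]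
  have h5 : a / b ≤ 2 := by rw [div_le_iff₀ hb]; linarith only [h2]
  constructor <;> nlinarith only [h4, h5]

theorem st_near (c : Ctx f g) : ∃ z0 > (0:ℝ), ∃ C0 > (0:ℝ), ∀ σ, 0 < σ → σ ≤ c.σ0 →
    EvG c fun _ _ S => ∀ i, (S.x i ≤ 2 * c.σ0 ∨ 1 - 2 * c.σ0 ≤ S.x i) → S.InB σ i →
      z0 / f (S.x i) ≤ |S.St i| ∧ |S.St i| ≤ C0 / f (S.x i) ∧
      z0 / f (S.x i) ≤ |S.St (S.T.symm i) * (S.κ i / S.κ (S.T.symm i)) ^ 2| ∧
      |S.St (S.T.symm i) * (S.κ i / S.κ (S.T.symm i)) ^ 2| ≤ C0 / f (S.x i) ∧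
      0 < S.St (S.T.symm i) * (S.κ i / S.κ (S.T.symm i)) ^ 2 * S.St i := by
  have p1 := c.σ0pos
  have p2 := c.ηpos
  have p3 := c.f0pos
  obtain ⟨z, pz, hz⟩ := c.hg.sg_lower c.ysI c.ysmax (δ := c.η / 2) (by positivity)
  refine ⟨z / 32, by positivity, 128 / (c.η * c.f0), by positivity, fun σ hσ hσ' => ?_⟩
  obtain ⟨φ, hφ⟩ := c.ev_sm hσ hσ'
  unfold EvG
  filter_upwards [c.ev_small, hφ, St_est c.toCtx0 hσ hσ' pz,
    kap_near c.toCtx0 hσ hσ' (δ := 1 / 2) (by norm_num)]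
    with ε hs hsm hSt hk I S yL yR ς hm i hi hb
  have hSt := hSt I S yL yR hm.toMg0
  have hk := ((hk I S yL yR hm.toMg0 i hi).2.2 hb).2
  obtain ⟨g1, g2, bA, bB, y1, y2, t1, t2, s, s0, s1, s2⟩ := lk_near hs hm hi
  have hη : 0 < c.η / 2 := by positivity
  have e := S.yO_Tsymm i
  have bA' : S.InB σ (S.T i) := bA.mono (by linarith only [p1, hσ'])
  have bB' : S.InB σ (S.T.symm i) := bB.mono (by linarith only [p1, hσ'])
  have hb' : S.InB σ (S.T (S.T.symm i)) := by rwa [Equiv.apply_symm_apply]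
  have u1 := (g1.hslope hη y1.1 y1.2).2.2.2.2
  have u2 := (g2.hslope hη (by rw [e]; exact y2.1) (by rw [e]; exact y2.2)).2.2.2.2
  obtain ⟨l1, l1'⟩ := hz _ (S.yO_mem i) (by rw [abs_sub_comm]; exact lk_abs s0 s1) _ g1.2
  obtain ⟨l2, l2'⟩ := hz _ (S.yO_mem (S.T.symm i))
    (by rw [e, abs_sub_comm]; exact lk_abs s0 s2) _ g2.2
  rw [e] at l2'
  obtain ⟨c1, c2, c3⟩ := (hSt i hb bA' g1).2 l1
  obtain ⟨d1, d2, d3⟩ := (hSt _ bB' hb' g2).2 l2
  rw [Equiv.apply_symm_apply] at d1 d2 d3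
  obtain ⟨h1, h2, -, -⟩ := h_bounds hsm hb
  obtain ⟨-, -, h3, h4⟩ := h_bounds hs.sm (bA.mono (s' := c.σ0 / 2) (by linarith only [p1]))
  obtain ⟨-, -, h5, h6⟩ := h_bounds hs.sm (bB.mono (s' := c.σ0 / 2) (by linarith only [p1]))
  have pf : 0 < f (S.x i) := hsm.φpos.trans_le (hsm.low _ hb)
  have hε := hs.εpos
  have k1 := (S.kappa_pos hε (by linarith only [hε, hsm.le16]) hb).1
  have k2 := (S.kappa_pos hε (by linarith only [hε, hsm.le16]) bB').1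
  obtain ⟨r1, r2⟩ := lk_ratio k1 k2 hk
  have m1 := lk_low pz.le l1 (by linarith only [h1, pf]) (by linarith only [p3, h3]) h2 h4 c1
  have m2 := lk_up (by positivity) u1 (by positivity) (by positivity) h1 h3 c2
  have m3 := lk_low pz.le l2 (by linarith only [p3, h5]) (by linarith only [h1, pf]) h6 h2 d1
  have m4 := lk_up (by positivity) u2 (by positivity) (by positivity) h5 h1 d2
  have e1 : z / (4 * (2 * f (S.x i) * 1)) = 4 * (z / 32 / f (S.x i)) := by field_simp; ring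
  have e2 : z / (4 * (1 * (2 * f (S.x i)))) = 4 * (z / 32 / f (S.x i)) := by field_simp; ring
  have e3 : 4 * (1 / (c.η / 2)) / (f (S.x i) / 2 * (c.f0 / 2)) =
      128 / (c.η * c.f0) / f (S.x i) / 4 := by field_simp; ring
  have e4 : 4 * (1 / (c.η / 2)) / (c.f0 / 2 * (f (S.x i) / 2)) =
      128 / (c.η * c.f0) / f (S.x i) / 4 := by field_simp; ring
  rw [e1] at m1
  rw [e2] at m3
  rw [e3] at m2
  rw [e4] at m4
  have q1 : 0 < z / 32 / f (S.x i) := by positivity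
  have q2 : 0 < 128 / (c.η * c.f0) / f (S.x i) := by positivity
  have n1 := abs_nonneg (S.St (S.T.symm i))
  rw [abs_mul, abs_of_nonneg (sq_nonneg (S.κ i / S.κ (S.T.symm i)))]
  refine ⟨by linarith only [m1, q1], by linarith only [m1, m2, q1], by nlinarith only [m3, r1, q1], by nlinarith only [m4, r2, m1, m2, q1], ?_⟩
  have w1 : S.St i * (S.t1 i * -ς * S.m2 i) < 0 := by
    rw [← t1]; linarith only [c3]
  have w2 : S.St (S.T.symm i) * (S.t1 i * -ς * S.m2 (S.T.symm i)) < 0 := by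
    rw [← t2]; linarith only [d3]
  have w3 : 0 < S.m2 (S.T.symm i) * S.m2 i := by
    rcases s0 with rfl | rfl
    · exact mul_pos (by nlinarith only [l2', p2, s2]) (by nlinarith only [l1', p2, s1])
    · exact mul_pos_of_neg_of_neg (by nlinarith only [l2', p2, s2]) (by nlinarith only [l1', p2, s1])
  have ti : S.t1 i = 1 ∨ S.t1 i = -1 := S.g2a_t hsm hb
  have w4 : 0 < (S.t1 i * -ς * S.m2 (S.T.symm i)) * (S.t1 i * -ς * S.m2 i) := by
    rcases ti with h | h <;> rcases hm.hς with rfl | rfl <;> rw [h] <;> linarith only [w3]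
  have w5 := lk_same w2 w1 w4
  have w6 : 0 < (S.κ i / S.κ (S.T.symm i)) ^ 2 := by positivity
  nlinarith only [w5, w6, mul_pos w5 w6]

theorem plink_bd (c : Ctx f g) : ∃ Cp > (0:ℝ), ∀ l ≥ (1:ℝ), ∃ s > (0:ℝ),
    EvAll c fun Λ _ _ _ S ξ M => ∀ i d, (S.yO i ≤ s ∨ 1 - s ≤ S.yO i) → 0 < d →
      d ≤ |S.x (S.T i) - S.x i| → |ξ.β i| ≤ (30 / l + Cp / (d * Λ)) * M ∧
        |ξ.β (S.T i)| ≤ (30 / l + Cp / (d * Λ)) * M := by
  have p1 := c.σ0pos
  have p2 := c.ηpos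
  have p3 := c.f0pos
  obtain ⟨Q, pQ, hQ⟩ : ∃ Q > (0:ℝ), c.Cq ≤ Q :=
    ⟨|c.Cq| + 1, by positivity, by linarith [le_abs_self c.Cq]⟩
  refine ⟨32 * Q / c.f0 ^ 2, by positivity, fun l hl => ?_⟩
  have pl : 0 < l := by linarith
  obtain ⟨s1, ps1, hs1⟩ := c.hg.steep0 l
  obtain ⟨s2, ps2, hs2⟩ := c.hg.steep1 l
  have psq := c.sqpos
  obtain ⟨s, ps, a1, a2, a3, a4⟩ : ∃ s > (0:ℝ), s ≤ s1 ∧ s ≤ s2 ∧ s ≤ c.sq ∧ s ≤ c.η / 4 :=
    ⟨min s1 (min s2 (min c.sq (c.η / 4))), by positivity, min_le_left _ _,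
      (min_le_right _ _).trans (min_le_left _ _),
      (min_le_right _ _).trans ((min_le_right _ _).trans (min_le_left _ _)),
      (min_le_right _ _).trans ((min_le_right _ _).trans (min_le_right _ _))⟩
  refine ⟨s, ps, ?_⟩
  filter_upwards [eventually_gt_atTop 0] with Λ pΛ
  filter_upwards [c.ev_σ] with σ hσ
  filter_upwards [c.ev_small, St_est c.toCtx0 p1 le_rfl one_pos, link_bound c.toCtx0 p1 le_rfl,
    ev_le (a := 3 / (10000 * l)) (by positivity)]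
    with ε hs hSt hlb e1 I S yL yR ς hm ξ M hb i d hy pd hd
  have hSt := hSt I S yL yR hm.toMg0
  have hlb := hlb I S yL yR hm.toMg0 ξ
  have hM := hb.nn
  have hy' : S.yO i < c.η / 2 ∨ 1 - c.η / 2 < S.yO i ∨ |S.yO i - c.ys| < c.η / 2 := by
    rcases hy with h | h
    · left; linarith only [ps, a4, h]
    · right; left; linarith only [ps, a4, h]
  have d1 := deep_of_height hm (S.memO i).1 hy'
  have d2 := deep_of_height hm (S.memP (S.T i)).1 (by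
    have := S.yP_T i
    simp only [Sys.yP] at this
    rw [this]; exact hy')
  rw [S.xO] at d1
  have b1 : S.InB c.σ0 i := ⟨by linarith only [p1, d1, d1.1], by linarith only [p1, d1, d1.2]⟩
  have b2 : S.InB c.σ0 (S.T i) :=
    ⟨by show c.σ0 ≤ (S.P (S.T i)).1; linarith only [p1, d2, d2.1],
      by show (S.P (S.T i)).1 ≤ 1 - c.σ0; linarith only [p1, d2, d2.2]⟩
  have g2 : S.G2 i := S.g2_of_ne c.hg.zero0 c.hg.zero1 (fun h => by
    rw [h, sub_self, abs_zero] at hd; linarith only [pd, hd])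
  have gp : 0 < g (S.yO i) := g2.1.hlen
  have gd : d ≤ g (S.yO i) := by
    rw [g2.x_eq, sub_sub_cancel_left, abs_neg, abs_mul, linkT_abs g2.1.ht, one_mul,
      abs_of_pos gp] at hd
    exact hd
  have ym := S.yO_mem i
  have y0 : 0 < S.yO i := lt_of_le_of_ne ym.1 fun h => by
    rw [← h, c.hg.zero0] at gp; exact lt_irrefl _ gp
  have y1 : S.yO i < 1 := lt_of_le_of_ne ym.2 fun h => by
    rw [h, c.hg.zero1] at gp; exact lt_irrefl _ gp
  have ml : l ≤ |S.m2 i| := by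
    rcases hy with h | h
    · exact (hs1 _ ⟨y0, h.trans a1⟩ y1 _ g2.2).trans (le_abs_self _)
    · have := hs2 _ ⟨by linarith only [a2, h], y1⟩ y0 _ g2.2
      linarith only [this, neg_abs_le (S.m2 i)]
  have mu : |S.m2 i| ≤ Q / d := by
    have := c.gq _ ⟨y0, y1⟩ (hy.imp (fun h => h.trans a3) fun h => by linarith only [a3, h]) _ g2.2
    rw [le_div_iff₀ pd]
    nlinarith only [pQ, gd, hQ, pd, this, gp, abs_nonneg (S.m2 i)]
  obtain ⟨c1, c2, -⟩ := (hSt i b1 b2 g2).2 (hl.trans ml)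
  obtain ⟨-, -, h1, h2⟩ := h_bounds hs.sm (b1.mono (s' := c.σ0 / 2) (by linarith only [p1]))
  obtain ⟨-, -, h3, h4⟩ := h_bounds hs.sm (b2.mono (s' := c.σ0 / 2) (by linarith only [p1]))
  have m1 := lk_low pl.le ml (by linarith only [p3, h1]) (by linarith only [p3, h3]) h2 h4 c1
  have m2 := lk_up (by positivity) mu (by positivity) (by positivity) h1 h3 c2
  obtain ⟨r1, r2⟩ := hlb i M _ _ b1 b2 g2 (by positivity) m1 m2
    (hb.bD i (b1.mono hσ.2) (b2.mono hσ.2))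
  have ct := lk_ct hb pΛ (b1.mono hσ.2)
  have ga := S.gamma_le hs.sm (b1.mono (s' := c.σ0 / 2) (by linarith only [p1]))
  have ga' : S.γ i * M ≤ 3 * (M / l) := by
    have h5 := e1.2
    rw [le_div_iff₀ (by positivity)] at h5
    have : S.γ i ≤ 3 / l := by rw [le_div_iff₀ pl]; nlinarith only [ga, h5, hl]
    calc S.γ i * M ≤ 3 / l * M := mul_le_mul_of_nonneg_right this hM
      _ = _ := by ring
  have f1 : 4 * (Q / d) / (c.f0 / 2 * (c.f0 / 2)) * ξ.ct i ≤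
      32 * Q / c.f0 ^ 2 / (d * Λ) * M / 2 := by
    calc _ ≤ 4 * (Q / d) / (c.f0 / 2 * (c.f0 / 2)) * (M / Λ) :=
          mul_le_mul_of_nonneg_left ct (by positivity)
      _ = _ := by field_simp; ring
  have f2 : M / (l / (4 * (1 * 1))) = 4 * (M / l) := by field_simp
  have f3 : 3 * M / (l / (4 * (1 * 1))) = 12 * (M / l) := by field_simp; ring
  have f4 : (30 / l + 32 * Q / c.f0 ^ 2 / (d * Λ)) * M =
      30 * (M / l) + 32 * Q / c.f0 ^ 2 / (d * Λ) * M := by ring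
  have f5 : 0 ≤ M / l := by positivity
  have f6 : 0 ≤ 32 * Q / c.f0 ^ 2 / (d * Λ) * M := by positivity
  rw [f2] at r1
  rw [f3] at r2
  rw [f4]
  constructor <;> linarith only [r1, f1, f5, f6, r2, ga']

theorem elink_bd (c : Ctx f g) : ∃ Ce > (0:ℝ), EvAll c fun Λ σ ε _ S ξ M => ∀ i,
    (S.x i ≤ 2 * c.σ0 ∨ 1 - 2 * c.σ0 ≤ S.x i) → S.InB σ i →
      |ξ.β (S.T i)| ≤ Ce * (f (S.x i) + 1 / (Λ * f (S.x i)) + ε) * M := by
  have p1 := c.σ0pos
  obtain ⟨z0, pz, C0, pC, h⟩ := st_near c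
  refine ⟨6 / z0 + 2 * C0 + 20000, by positivity, ?_⟩
  filter_upwards [eventually_gt_atTop 0] with Λ pΛ
  filter_upwards [c.ev_σ] with σ hσ
  obtain ⟨φ, hφ⟩ := c.ev_sm hσ.1 hσ.2
  filter_upwards [c.ev_small, hφ, h σ hσ.1 hσ.2, link_bound c.toCtx0 hσ.1 hσ.2]
    with ε hs hsm hst hlb I S yL yR ς hm ξ M hb i hi hi'
  have hM := hb.nn
  have hε := hs.εpos
  obtain ⟨a1, a2, -⟩ := hst I S yL yR ς hm i hi hi'
  obtain ⟨g1, -, bA, -⟩ := lk_near hs hm hi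
  have bA' : S.InB σ (S.T i) := bA.mono (by linarith only [p1, hσ, hσ.2])
  have pf : 0 < f (S.x i) := hsm.φpos.trans_le (hsm.low _ hi')
  obtain ⟨-, r⟩ := hlb I S yL yR hm.toMg0 ξ i M _ _ hi' bA' g1 (by positivity) a1 a2
    (hb.bD i hi' bA')
  have ct := lk_ct hb pΛ hi'
  have ga := S.gamma_le hsm hi'
  have f1 : C0 / f (S.x i) * ξ.ct i ≤ C0 * (1 / (Λ * f (S.x i)) * M) := by
    calc _ ≤ C0 / f (S.x i) * (M / Λ) := mul_le_mul_of_nonneg_left ct (by positivity)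
      _ = _ := by field_simp
  have f2 : 3 * M / (z0 / f (S.x i)) = 3 / z0 * (f (S.x i) * M) := by field_simp
  have f3 : S.γ i * M ≤ 10000 * (ε * M) := by nlinarith only [hM, ga]
  have n1 : 0 ≤ f (S.x i) * M := by positivity
  have n2 : 0 ≤ 1 / (Λ * f (S.x i)) * M := by positivity
  have n3 : 0 ≤ ε * M := by positivity
  have n4 : 0 < 3 / z0 := by positivity
  have e : (6 / z0 + 2 * C0 + 20000) * (f (S.x i) + 1 / (Λ * f (S.x i)) + ε) * M =
      (2 * (3 / z0) + 2 * C0 + 20000) *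
        (f (S.x i) * M + 1 / (Λ * f (S.x i)) * M + ε * M) := by ring
  rw [f2] at r
  rw [e]
  nlinarith only [r, f1, f3, n1, n2, n4, n3, pC, mul_nonneg n4.le n2, mul_nonneg n4.le n3, mul_nonneg pC.le n1, mul_nonneg pC.le n3]

theorem zlink_cmp (c : Ctx f g) : ∃ Cz > (0:ℝ), EvAll c fun Λ _ ε _ S ξ M => ∀ j,
    |S.yO j - c.ys| ≤ c.η / 4 → |S.St j| ≤ Cz ∧
      |ξ.b (S.T j) / S.κ j - ξ.β j| ≤ Cz * (ε ^ 2 * |ξ.β j| + M / Λ) ∧
      |ξ.β (S.T j)| ≤ Cz * (|ξ.β j| + M / Λ) ∧ |ξ.β j| ≤ Cz * (|ξ.β (S.T j)| + M / Λ) ∧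
      S.κ j * |ξ.ζ (S.T j) - ξ.ζ j| ≤ Cz * (|ξ.β j| + M / Λ) ∧
      S.κ j * |ξ.ζ (S.T j) - ξ.ζ j| ≤ Cz * (|ξ.β (S.T j)| + M / Λ) := by
  have p1 := c.σ0pos
  have p2 := c.ηpos
  have p3 := c.f0pos
  obtain ⟨A, hA⟩ : ∃ A, A = 4 * (1 / c.η + 1) / (c.f0 / 2 * (c.f0 / 2)) := ⟨_, rfl⟩
  have pA : 0 < A := by rw [hA]; positivity
  obtain ⟨C, c1, c2, c3, c4⟩ : ∃ C : ℝ, 4 ≤ C ∧ 3 * A ≤ C ∧ 3 * A ^ 2 ≤ C ∧
      10000 ^ 2 * A ^ 2 ≤ C :=
    ⟨4 + 3 * A + 10000 ^ 2 * A ^ 2, by nlinarith only [pA], by nlinarith only [], by nlinarith only [pA], by nlinarith only [pA]⟩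
  refine ⟨C, by linarith, ?_⟩
  filter_upwards [eventually_gt_atTop 0] with Λ pΛ
  filter_upwards [c.ev_σ] with σ hσ
  filter_upwards [c.ev_small, St_est c.toCtx0 p1 le_rfl one_pos, link_cmp c.toCtx0 p1 le_rfl pA,
    kap_link c.toCtx0 p1 le_rfl (δ := 1 / 2) (by norm_num),
    ev_le (a := 1 / (10000 * A)) (by positivity)]
    with ε hs hSt hcm hk e1 I S yL yR ς hm ξ M hb j hj
  have hM := hb.nn
  have hε := hs.εpos
  obtain ⟨z1, z2, g2, -, -, y, -⟩ := zfacts hs hm hj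
  have b1 : S.InB c.σ0 j := z1.mono (by linarith only [p1])
  have b2 : S.InB c.σ0 (S.T j) := z2.mono (by linarith only [p1])
  have u := (g2.hslope p2 y.1 y.2).2.2.2.2
  obtain ⟨-, -, h1, -⟩ := h_bounds hs.sm (b1.mono (s' := c.σ0 / 2) (by linarith only [p1]))
  obtain ⟨-, -, h3, -⟩ := h_bounds hs.sm (b2.mono (s' := c.σ0 / 2) (by linarith only [p1]))
  have sA : |S.St j| ≤ A := by
    rw [hA]
    exact lk_up (by positivity) (by linarith only [u]) (by positivity) (by positivity) h1 h3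
      (hSt I S yL yR hm.toMg0 j b1 b2 g2).1
  obtain ⟨m1, m2⟩ := hcm I S yL yR hm.toMg0 ξ j b1 b2 g2 sA
  have hs4 : 4 * ε ≤ c.σ0 := by linarith only [e1, hs.leσ]
  obtain ⟨k1, -, -, -, hγ, -⟩ := S.kappa_pos hε hs4 b1
  obtain ⟨k2, -⟩ := S.kappa_pos hε hs4 b2
  have H3 := (plink ξ hε hs4 b1 b2 g2).1.H3 (sq_nonneg _)
  obtain ⟨q1, q2⟩ := linkT_ct ξ k1
  have ct := lk_ct hb pΛ (b1.mono hσ.2)
  have ga := S.gamma_le hs.sm (b1.mono (s' := c.σ0 / 2) (by linarith only [e1, hs4]))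
  have n1 := abs_nonneg (S.St j)
  have n2 := abs_nonneg (ξ.β j)
  have n3 := abs_nonneg (ξ.β (S.T j))
  have n4 : 0 ≤ M / Λ := by positivity
  have g1 : S.γ j * |S.St j| ≤ 10000 * ε * A := by gcongr
  have g1' : 10000 * ε * A ≤ 1 := by
    have h5 := e1.2
    rw [le_div_iff₀ (by positivity)] at h5
    linarith only [h5]
  have g3 : S.γ j ^ 2 * S.St j ^ 2 ≤ (10000 * ε * A) ^ 2 := by
    rw [← sq_abs (S.St j), ← mul_pow]
    exact pow_le_pow_left₀ (by positivity) g1 2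
  have g4 : (10000 * ε * A) ^ 2 ≤ 1 := pow_le_one₀ (by positivity) g1'
  have g5 : (10000 * ε * A) ^ 2 ≤ C * ε ^ 2 := by
    calc _ = 10000 ^ 2 * A ^ 2 * ε ^ 2 := by ring
      _ ≤ _ := mul_le_mul_of_nonneg_right c4 (sq_nonneg _)
  have b3 : S.γ j ^ 2 * |S.St j| * |S.κ j * ξ.ζ j| ≤ A * (M / Λ) := by
    calc _ = |S.St j| * ξ.ct j := by rw [← q1]; ring
      _ ≤ _ := mul_le_mul sA ct q2 pA.le
  have b4 : S.γ j ^ 2 * S.St j ^ 2 / 2 * |ξ.β j| ≤ C * (ε ^ 2 * |ξ.β j|) := by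
    calc _ ≤ C * ε ^ 2 * |ξ.β j| := mul_le_mul_of_nonneg_right
          (by nlinarith only [g3, g5, mul_nonneg (sq_nonneg (S.γ j)) (sq_nonneg (S.St j))]) n2
      _ = _ := by ring
  have b5 : S.γ j ^ 2 * S.St j ^ 2 / 2 * |ξ.β j| ≤ 1 / 2 * |ξ.β j| :=
    mul_le_mul_of_nonneg_right (by linarith only [g3, g4]) n2
  have b6 : |ξ.b (S.T j) / S.κ j| ≤ 3 / 2 * |ξ.β (S.T j)| := by
    have e : ξ.b (S.T j) / S.κ j = S.κ (S.T j) / S.κ j * ξ.β (S.T j) := by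
      rw [Lin.β]; field_simp
    have r := abs_le.1 (hk I S yL yR hm.toMg0 j b1 b2).1
    rw [e, abs_mul, abs_of_pos (div_pos k2 k1)]
    exact mul_le_mul_of_nonneg_right (by linarith only [r, r.2]) n3
  have b7 : |ξ.β j| ≤ 3 * |ξ.β (S.T j)| + 2 * A * (M / Λ) := by
    have := abs_sub_abs_le_abs_sub (ξ.β j) (ξ.b (S.T j) / S.κ j)
    rw [abs_sub_comm] at this
    linarith only [H3, b3, b5, b6, this]
  have b8 : A * ξ.ct j ≤ A * (M / Λ) := mul_le_mul_of_nonneg_left ct pA.le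
  have b9 : A ^ 2 * ξ.ct j ≤ A ^ 2 * (M / Λ) := mul_le_mul_of_nonneg_left ct (sq_nonneg _)
  have x1 := mul_le_mul_of_nonneg_right c1 n2
  have x2 := mul_le_mul_of_nonneg_right c1 n3
  have x3 := mul_le_mul_of_nonneg_right c2 n2
  have x4 := mul_le_mul_of_nonneg_right c2 n3
  have x5 := mul_le_mul_of_nonneg_right c2 n4
  have x6 := mul_le_mul_of_nonneg_right c3 n4
  have x7 := mul_nonneg pA.le n4
  have x8 := mul_nonneg (sq_nonneg A) n4
  have x9 := mul_nonneg pA.le n2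
  have x10 := mul_le_mul_of_nonneg_left b7 pA.le
  simp only [mul_add]
  refine ⟨by linarith only [c1, c2, sA], by linarith only [H3, b3, b4, x5, x7], by linarith only [m1, b8, x1, x5, x7], by linarith only [m1, b7, b8, x2, x5, x7], by linarith only [m1, m2, b7, b8, b9, x1, x3, x5, x6, x7], by linarith only [m2, b9, x4, x6, x10]⟩

theorem glink_bd (c : Ctx f g) {r : ℝ} (hr : 0 < r) : EvAll c fun _ σ ε _ S ξ M => ∀ j,
    S.InB σ j → S.InB σ (S.T j) → S.yO j ∈ Icc r (1 - r) → r ≤ |S.yO j - c.ys| →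
      √ε * |ξ.β j| ≤ M ∧ √ε * |ξ.β (S.T j)| ≤ M := by
  obtain ⟨z, pz, hz⟩ := c.hg.sg_lower c.ysI c.ysmax hr
  filter_upwards [eventually_ge_atTop 1] with Λ pΛ
  filter_upwards [c.ev_σ] with σ hσ
  obtain ⟨φ, hφ⟩ := c.ev_sm hσ.1 hσ.2
  have pφ : 0 < φ := hφ.exists.choose_spec.φpos
  obtain ⟨A, hA⟩ : ∃ A, A = 4 * (1 / r) / (φ / 2 * (φ / 2)) := ⟨_, rfl⟩
  have pA : 0 < A := by rw [hA]; positivity
  obtain ⟨C, hC⟩ : ∃ C, C = 24 / z + 2 * A + 2 := ⟨_, rfl⟩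
  have pC : 0 < C := by rw [hC]; positivity
  filter_upwards [hφ, St_est c.toCtx0 hσ.1 hσ.2 pz, link_bound c.toCtx0 hσ.1 hσ.2,
    ev_le (a := r / 4) (by positivity), ev_le (a := 1 / 10000) (by positivity),
    ev_le (a := (1 / C) ^ 2) (by positivity)]
    with ε hsm hSt hlb e1 e2 e3 I S yL yR ς hm ξ M hb j b1 b2 y hy
  have hM := hb.nn
  have g2 : S.G2 j := S.g2_of (by linarith only [e1, y.1, e1.2]) (by linarith only [e1, y.2, e1.2])
  have u := (g2.hslope hr y.1 y.2).2.2.2.2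
  have l := (hz _ (S.yO_mem j) hy _ g2.2).1
  obtain ⟨c1, c2, -⟩ := (hSt I S yL yR hm.toMg0 j b1 b2 g2).2 l
  obtain ⟨-, -, h1, h2⟩ := h_bounds hsm b1
  obtain ⟨-, -, h3, h4⟩ := h_bounds hsm b2
  have m1 := lk_low pz.le l (by linarith only [pφ, h1]) (by linarith only [pφ, h3]) h2 h4 c1
  have m2 := lk_up (by positivity) u (by positivity) (by positivity) h1 h3 c2
  rw [← hA] at m2
  obtain ⟨r1, r2⟩ := hlb I S yL yR hm.toMg0 ξ j M _ _ b1 b2 g2 (by positivity) m1 m2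
    (hb.bD j b1 b2)
  have ct : ξ.ct j ≤ M := (lk_ct hb (by linarith only [pΛ, e1, e2]) b1).trans (div_le_self hM pΛ)
  have ga : S.γ j * M ≤ 1 * M :=
    mul_le_mul_of_nonneg_right (by linarith only [e2, S.gamma_le hsm b1, e2.2]) hM
  have f1 : A * ξ.ct j ≤ A * M := mul_le_mul_of_nonneg_left ct pA.le
  have f2 : M / (z / (4 * (1 * 1))) = 4 * (M / z) := by field_simp
  have f3 : 3 * M / (z / (4 * (1 * 1))) = 12 * (M / z) := by field_simp; ring
  have f4 : C * M = 24 * (M / z) + 2 * (A * M) + 2 * M := by rw [hC]; ring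
  have f5 : 0 ≤ M / z := by positivity
  have f6 : 0 ≤ A * M := by positivity
  rw [f2] at r1
  rw [f3] at r2
  have sq : √ε ≤ 1 / C := Real.sqrt_le_iff.2 ⟨by positivity, e3.2⟩
  have fin : ∀ b : ℝ, 0 ≤ b → b ≤ C * M → √ε * b ≤ M := fun b b0 hb' => by
    calc √ε * b ≤ 1 / C * (C * M) := mul_le_mul sq hb' b0 (by positivity)
      _ = M := by field_simp
  exact ⟨fin _ (abs_nonneg _) (by linarith only [hM, r1, f1, f4, f5, f6]), fin _ (abs_nonneg _) (by linarith only [r2, ga, f1, f4])⟩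

end XR
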