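import Pool.Agent.P.MP_408b1f_gt.Defs

/-! A Sard type lemma and the null lemma.
sard_line: for z in S compactness of the unit sphere gives (a) k with
norm (z' - z) <= k |pi (z' - z)| for z' in S within 1/k of z, and (b) ev (z' - z) = o (norm (z' - z)).
Split S by k and by a countable cover with sets of diameter < 1/k. On a piece S', pi is injective;
the function phi on pi '' S' with phi (pi z) = ev z has derivative zero within pi '' S' at each point;
addHaar_image_eq_zero_of_det_fderivWithin_eq_zero gives that phi '' (pi '' S') = ev '' S' is null.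
null_of_rigid: split B by N, i0, c and by the code of (p, eps): for every i the value of the first
coordinate if it is in Kf (else none), the same for Kg, and the truth values of all the
coincidence relations in LinSol. There are countably many codes. On a code class in
E = (Fin N to V) times R apply sard_line: limits of c n (z n - z) satisfy LinSol (differentiability
of f at the base point; if the coordinate is in Kf it is constant on the class). -/

open Set MeasureTheory Filter Topology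

noncomputable section

namespace XR

section aux

variable {E : Type} [NormedAddCommGroup E] [NormedSpace ℝ E] [FiniteDimensional ℝ E]

/-- A continuous linear map that kills the tangent directions is small compared with `π`. -/
theorem sard_small {F : Type} [NormedAddCommGroup F] [NormedSpace ℝ F] {S : Set E} {z : E}
    (π : E →L[ℝ] ℝ) (A : E →L[ℝ] F) (δ : ℕ → ℝ) (C : F → ℝ → Prop)
    (h : ∀ (zn : ℕ → E) (c : ℕ → ℝ) (ξ : E), (∀ n, zn n ∈ S) → Tendsto zn atTop (𝓝 z) →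
      Tendsto (fun n => c n • (zn n - z)) atTop (𝓝 ξ) → ‖ξ‖ = 1 → C (A ξ) (π ξ))
    (hC : ∀ (a : ℕ → F) (b : ℕ → ℝ) (φ : ℕ → ℕ) (a0 : F) (b0 : ℝ), StrictMono φ →
      Tendsto a atTop (𝓝 a0) → Tendsto b atTop (𝓝 b0) → (∀ n, δ (φ n) * |b n| < ‖a n‖) →
      ¬ C a0 b0) :
    ∃ k : ℕ, ∀ z' ∈ S, ‖z' - z‖ < 1 / (k + 1) → ‖A (z' - z)‖ ≤ δ k * |π (z' - z)| := by
  by_contra hc
  push Not at hc
  choose zn h1 h2 h3 using hc
  have h0 : ∀ n, 0 < ‖zn n - z‖ := fun n => norm_pos_iff.2 fun e => by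
    have := h3 n
    simp [e] at this
  have hz : Tendsto zn atTop (𝓝 z) := tendsto_iff_norm_sub_tendsto_zero.2
    (squeeze_zero (fun n => norm_nonneg _) (fun n => (h2 n).le)
      tendsto_one_div_add_atTop_nhds_zero_nat)
  obtain ⟨ξ, hξ, φ, hφ, hl⟩ := (isCompact_sphere (0 : E) 1).tendsto_subseq
    (x := fun n => ‖zn n - z‖⁻¹ • (zn n - z)) fun n => by
      rw [mem_sphere_zero_iff_norm, norm_smul, norm_inv, norm_norm, inv_mul_cancel₀ (h0 n).ne']
  refine hC _ _ φ _ _ hφ ((A.continuous.tendsto ξ).comp hl) ((π.continuous.tendsto ξ).comp hl)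
    (fun n => ?_) (h (fun n => zn (φ n)) (fun n => ‖zn (φ n) - z‖⁻¹) ξ (fun n => h1 _)
      (hz.comp hφ.tendsto_atTop) hl (mem_sphere_zero_iff_norm.1 hξ))
  simp only [Function.comp, map_smul, norm_smul, smul_eq_mul, abs_mul, norm_inv, norm_norm, abs_inv,
    abs_norm]
  rw [mul_left_comm]
  exact mul_lt_mul_of_pos_left (h3 _) (inv_pos.2 (h0 _))

end aux

theorem sard_line {E : Type} [NormedAddCommGroup E] [NormedSpace ℝ E] [FiniteDimensional ℝ E]
    (S : Set E) (π ev : E →L[ℝ] ℝ)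
    (h : ∀ z ∈ S, ∀ (zn : ℕ → E) (c : ℕ → ℝ) (ξ : E), (∀ n, zn n ∈ S) → Tendsto zn atTop (𝓝 z) →
      Tendsto (fun n => c n • (zn n - z)) atTop (𝓝 ξ) → ev ξ = 0 ∧ (π ξ = 0 → ξ = 0)) :
    volume (ev '' S) = 0 := by
  have ha : ∀ z ∈ S, ∃ k : ℕ, ∀ z' ∈ S, ‖z' - z‖ < 1 / (k + 1) →
      ‖z' - z‖ ≤ k * |π (z' - z)| := fun z hz =>
    sard_small π (ContinuousLinearMap.id ℝ E) (fun k => k) (fun _ b => b ≠ 0)
      (fun zn c ξ h1 h2 h3 h4 e => by simp [(h z hz zn c ξ h1 h2 h3).2 e] at h4)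
      (fun a b φ a0 b0 hφ h1 h2 h3 h4 => by
        have h5 : Tendsto (fun n => (φ n : ℝ) * |b n|) atTop atTop :=
          (tendsto_natCast_atTop_atTop.comp hφ.tendsto_atTop).atTop_mul_pos (abs_pos.2 h4) h2.abs
        exact not_tendsto_atTop_of_tendsto_nhds h1.norm
          (tendsto_atTop_mono (fun n => (h3 n).le) h5))
  have hb : ∀ z ∈ S, ∀ δ : ℝ, 0 < δ → ∃ k : ℕ, ∀ z' ∈ S, ‖z' - z‖ < 1 / (k + 1) →
      ‖ev (z' - z)‖ ≤ δ * |π (z' - z)| := fun z hz δ hδ =>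
    sard_small π ev (fun _ => δ) (fun a b => a = 0 ∧ b ≠ 0)
      (fun zn c ξ h1 h2 h3 h4 => ⟨(h z hz zn c ξ h1 h2 h3).1, fun e => by
        simp [(h z hz zn c ξ h1 h2 h3).2 e] at h4⟩)
      (fun a b φ a0 b0 _ h1 h2 h3 h4 => by
        have h5 := le_of_tendsto_of_tendsto' (h2.abs.const_mul δ) h1.norm fun n => (h3 n).le
        rw [h4.1, norm_zero] at h5
        exact absurd h5 (not_le.2 (mul_pos hδ (abs_pos.2 h4.2))))
  obtain ⟨T, hT⟩ : ∃ T : ℕ → Set E, ∀ k z, z ∈ T k ↔ z ∈ S ∧ ∀ z' ∈ S, ‖z' - z‖ < 1 / (k + 1) →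
      ‖z' - z‖ ≤ k * |π (z' - z)| := ⟨fun k => {z | _}, fun _ _ => Iff.rfl⟩
  have hc : ∀ (k : ℕ) (q : E), volume (ev '' (T k ∩ Metric.ball q (1 / (k + 1) / 2))) = 0 := by
    intro k q
    generalize hU : T k ∩ Metric.ball q (1 / (k + 1) / 2) = U
    have h0 : ∀ z ∈ U, z ∈ S := fun z hz => ((hT k z).1 (hU ▸ hz).1).1
    have h1 : ∀ z ∈ U, ∀ z' ∈ U, ‖z' - z‖ ≤ k * |π z' - π z| := by
      intro z hz z' hz'
      rw [← map_sub]
      refine ((hT k z).1 (hU ▸ hz).1).2 z' (h0 z' hz') ?_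
      have e1 : dist z q < 1 / (k + 1) / 2 := (hU ▸ hz).2
      have e2 : dist z' q < 1 / (k + 1) / 2 := (hU ▸ hz').2
      rw [← dist_eq_norm]
      linarith [dist_triangle_right z' z q]
    have h2 : InjOn π U := fun z hz z' hz' e => by
      have := h1 z hz z' hz'
      rw [e, sub_self, abs_zero, mul_zero, norm_le_zero_iff, sub_eq_zero] at this
      exact this.symm
    have h3 : ∀ z ∈ U, Function.invFunOn π U (π z) = z := fun z hz => h2.leftInvOn_invFunOn hz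
    have h4 : ev '' U = (fun t => ev (Function.invFunOn π U t)) '' (π '' U) := by
      rw [image_image]
      exact image_congr fun z hz => by rw [h3 z hz]
    rw [h4]
    refine addHaar_image_eq_zero_of_det_fderivWithin_eq_zero volume (f' := fun _ => 0) ?_
      fun _ _ => by simp
    rintro _ ⟨z, hz, rfl⟩
    rw [hasFDerivWithinAt_iff_isLittleO, Asymptotics.isLittleO_iff]
    intro δ hδ
    obtain ⟨m, hm⟩ := hb z (h0 z hz) δ hδ
    have h5 : (0 : ℝ) < 1 / (m + 1) / (k + 1) := by positivity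
    filter_upwards [self_mem_nhdsWithin, mem_nhdsWithin_of_mem_nhds (Metric.ball_mem_nhds _ h5)]
    rintro _ ⟨z', hz', rfl⟩ h6
    rw [Metric.mem_ball, Real.dist_eq, lt_div_iff₀ (by positivity)] at h6
    have h7 := hm z' (h0 z' hz') (by
      have := h1 z hz z' hz'
      nlinarith [abs_nonneg (π z' - π z)])
    simpa only [h3 z hz, h3 z' hz', map_sub, zero_apply, sub_zero,
      Real.norm_eq_abs] using h7
  have hd : ∀ k : ℕ, volume (ev '' T k) = 0 := by
    intro k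
    obtain ⟨t, -, h1, h2⟩ := TopologicalSpace.countable_cover_nhdsWithin
      (f := fun q => T k ∩ Metric.ball q (1 / (k + 1) / 2)) (s := T k) fun q _ =>
        inter_mem_nhdsWithin _ (Metric.ball_mem_nhds _ (by positivity))
    refine measure_mono_null (image_mono h2) ?_
    rw [image_iUnion₂]
    exact (measure_biUnion_null_iff h1).2 fun q _ => hc k q
  refine measure_mono_null (t := ⋃ k, ev '' T k) ?_ (measure_iUnion_null hd)
  rintro _ ⟨z, hz, rfl⟩
  obtain ⟨k, hk⟩ := ha z hz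
  exact mem_iUnion.2 ⟨k, z, (hT k z).2 ⟨hz, hk⟩, rfl⟩

open Classical in
/-- The value of `x` if it lies in `K`. -/
def sardOpt (K : Set ℝ) (x : ℝ) : Option K := if h : x ∈ K then some ⟨x, h⟩ else none

theorem sardOpt_eq {K : Set ℝ} {x y : ℝ} (h : sardOpt K y = sardOpt K x) (hx : x ∈ K) : y = x := by
  unfold sardOpt at h
  rw [dif_pos hx] at h
  split_ifs at h with hy
  exact congrArg Subtype.val (Option.some.inj h)

/-- The combinatorial type of a configuration. -/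
def sardCode {N : ℕ} (f g : ℝ → ℝ) (Kf Kg : Set ℝ) (z : (Fin N → V) × ℝ) :
    (Fin N → Option Kf × Option Kg) × (Fin N → Fin N → Prop × Prop × Prop × Prop × Prop) :=
  (fun i => (sardOpt Kf (z.1 i).1, sardOpt Kg (z.1 i).2), fun i j =>
    ((z.1 i).1 = (z.1 j).1, (z.1 i).2 = (z.1 j).2, (z.1 i).2 - (z.1 j).2 = f (z.1 i).1,
      (z.1 i).1 - (z.1 j).1 = g (z.1 i).2, w z.2 (z.1 i) = w z.2 (z.1 j)))

theorem sard_der {f : ℝ → ℝ} {K : Set ℝ} {x a : ℝ} {xn c : ℕ → ℝ}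
    (hf : x ∉ K → DifferentiableAt ℝ f x) (hK : ∀ n, sardOpt K (xn n) = sardOpt K x)
    (h1 : Tendsto xn atTop (𝓝 x)) (h2 : Tendsto (fun n => c n * (xn n - x)) atTop (𝓝 a)) :
    Tendsto (fun n => c n * (f (xn n) - f x)) atTop (𝓝 (deriv f x * a)) := by
  by_cases hx : x ∈ K
  · simp only [fun n => sardOpt_eq (hK n) hx, sub_self, mul_zero] at h2 ⊢
    rw [← tendsto_nhds_unique tendsto_const_nhds h2, mul_zero]
    exact tendsto_const_nhds
  · have h3 := ((continuousAt_dslope_same.2 (hf hx)).tendsto.comp h1).mul h2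
    rw [dslope_same] at h3
    refine h3.congr fun n => ?_
    rw [← sub_smul_dslope f x (xn n), smul_eq_mul, Function.comp]
    ring

theorem sard_lin {N : ℕ} {f g : ℝ → ℝ} {Kf Kg : Set ℝ} {z ξ : (Fin N → V) × ℝ}
    {zn : ℕ → (Fin N → V) × ℝ} {c : ℕ → ℝ}
    (hf : ∀ i, (z.1 i).1 ∉ Kf → DifferentiableAt ℝ f (z.1 i).1)
    (hg : ∀ i, (z.1 i).2 ∉ Kg → DifferentiableAt ℝ g (z.1 i).2)
    (hc : ∀ n, sardCode f g Kf Kg (zn n) = sardCode f g Kf Kg z) (h1 : Tendsto zn atTop (𝓝 z))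
    (h2 : Tendsto (fun n => c n • (zn n - z)) atTop (𝓝 ξ)) : LinSol f g Kf Kg z.2 z.1 ξ.1 ξ.2 := by
  have x1 : ∀ i, Tendsto (fun n => ((zn n).1 i).1) atTop (𝓝 (z.1 i).1) := fun i =>
    (tendsto_pi_nhds.1 h1.fst_nhds i).fst_nhds
  have y1 : ∀ i, Tendsto (fun n => ((zn n).1 i).2) atTop (𝓝 (z.1 i).2) := fun i =>
    (tendsto_pi_nhds.1 h1.fst_nhds i).snd_nhds
  have x2 : ∀ i, Tendsto (fun n => c n * (((zn n).1 i).1 - (z.1 i).1)) atTop (𝓝 (ξ.1 i).1) :=
    fun i => (tendsto_pi_nhds.1 h2.fst_nhds i).fst_nhds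
  have y2 : ∀ i, Tendsto (fun n => c n * (((zn n).1 i).2 - (z.1 i).2)) atTop (𝓝 (ξ.1 i).2) :=
    fun i => (tendsto_pi_nhds.1 h2.fst_nhds i).snd_nhds
  have e2 : Tendsto (fun n => c n * ((zn n).2 - z.2)) atTop (𝓝 ξ.2) := h2.snd_nhds
  have k1 : ∀ i n, sardOpt Kf ((zn n).1 i).1 = sardOpt Kf (z.1 i).1 := fun i n =>
    congrArg (fun k => (k.1 i).1) (hc n)
  have k2 : ∀ i n, sardOpt Kg ((zn n).1 i).2 = sardOpt Kg (z.1 i).2 := fun i n =>
    congrArg (fun k => (k.1 i).2) (hc n)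
  have r1 : ∀ i j, (z.1 i).1 = (z.1 j).1 → ∀ n, ((zn n).1 i).1 = ((zn n).1 j).1 :=
    fun i j h n => (congrArg (fun k => (k.2 i j).1) (hc n)).mpr h
  have r2 : ∀ i j, (z.1 i).2 = (z.1 j).2 → ∀ n, ((zn n).1 i).2 = ((zn n).1 j).2 :=
    fun i j h n => (congrArg (fun k => (k.2 i j).2.1) (hc n)).mpr h
  have r3 : ∀ i j, (z.1 i).2 - (z.1 j).2 = f (z.1 i).1 →
      ∀ n, ((zn n).1 i).2 - ((zn n).1 j).2 = f ((zn n).1 i).1 :=
    fun i j h n => (congrArg (fun k => (k.2 i j).2.2.1) (hc n)).mpr h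
  have r4 : ∀ i j, (z.1 i).1 - (z.1 j).1 = g (z.1 i).2 →
      ∀ n, ((zn n).1 i).1 - ((zn n).1 j).1 = g ((zn n).1 i).2 :=
    fun i j h n => (congrArg (fun k => (k.2 i j).2.2.2.1) (hc n)).mpr h
  have r5 : ∀ i j, w z.2 (z.1 i) = w z.2 (z.1 j) →
      ∀ n, w (zn n).2 ((zn n).1 i) = w (zn n).2 ((zn n).1 j) :=
    fun i j h n => (congrArg (fun k => (k.2 i j).2.2.2.2) (hc n)).mpr h
  refine ⟨fun i h => ?_, fun i h => ?_, fun i j h => ?_, fun i j h => ?_, fun i j _ h => ?_,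
    fun i j _ h => ?_, fun i j h => ?_⟩
  · exact tendsto_nhds_unique (x2 i) (tendsto_const_nhds.congr fun n => by
      rw [sardOpt_eq (k1 i n) h, sub_self, mul_zero])
  · exact tendsto_nhds_unique (y2 i) (tendsto_const_nhds.congr fun n => by
      rw [sardOpt_eq (k2 i n) h, sub_self, mul_zero])
  · exact tendsto_nhds_unique (x2 i) ((x2 j).congr fun n => by rw [h, r1 i j h n])
  · exact tendsto_nhds_unique (y2 i) ((y2 j).congr fun n => by rw [h, r2 i j h n])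
  · exact tendsto_nhds_unique ((y2 i).sub (y2 j))
      ((sard_der (hf i) (k1 i) (x1 i) (x2 i)).congr fun n => by rw [← h, ← r3 i j h n]; ring)
  · exact tendsto_nhds_unique ((x2 i).sub (x2 j))
      ((sard_der (hg i) (k2 i) (y1 i) (y2 i)).congr fun n => by rw [← h, ← r4 i j h n]; ring)
  · refine tendsto_nhds_unique (((x2 i).sub ((y2 i).const_mul z.2)).sub
      ((x2 j).sub ((y2 j).const_mul z.2))) ((e2.mul ((y1 i).sub (y1 j))).congr fun n => ?_)
    have h' := r5 i j h n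
    unfold w at h h'
    linear_combination c n * h - c n * h'

theorem null_of_rigid (f g : ℝ → ℝ) {Kf Kg : Set ℝ} (hf : Kf.Countable) (hg : Kg.Countable) :
    volume {ε : ℝ | RigidCfg f g Kf Kg ε} = 0 := by
  have := hf.to_subtype
  have := hg.to_subtype
  obtain ⟨S, hS⟩ : ∃ S : ∀ (N : ℕ) (_ : Fin N) (_ : Bool)
      (_ : (Fin N → Option Kf × Option Kg) × (Fin N → Fin N → Prop × Prop × Prop × Prop × Prop)),
      Set ((Fin N → V) × ℝ), ∀ N i0 c k z, z ∈ S N i0 c k ↔ sardCode f g Kf Kg z = k ∧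
        (∀ i, (z.1 i).1 ∉ Kf → DifferentiableAt ℝ f (z.1 i).1) ∧
        (∀ i, (z.1 i).2 ∉ Kg → DifferentiableAt ℝ g (z.1 i).2) ∧
        ∀ (ξ : Fin N → V) (e : ℝ), LinSol f g Kf Kg z.2 z.1 ξ e →
          e = 0 ∧ ((if c then (ξ i0).1 else (ξ i0).2) = 0 → ξ = 0) :=
    ⟨fun N i0 c k => {z | _}, fun _ _ _ _ _ => Iff.rfl⟩
  refine measure_mono_null (t := ⋃ N, ⋃ i0, ⋃ c, ⋃ k,
    ContinuousLinearMap.snd ℝ (Fin N → V) ℝ '' S N i0 c k) ?_
    (measure_iUnion_null fun N => measure_iUnion_null fun i0 => measure_iUnion_null fun c =>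
      measure_iUnion_null fun k => ?_)
  · rintro ε ⟨N, p, h1, h2, i0, c, h3⟩
    simp only [mem_iUnion]
    exact ⟨N, i0, c, _, (p, ε), (hS _ _ _ _ _).2 ⟨rfl, h1, h2, h3⟩, rfl⟩
  · refine sard_line _ ((if c then ContinuousLinearMap.fst ℝ ℝ ℝ
      else ContinuousLinearMap.snd ℝ ℝ ℝ).comp ((ContinuousLinearMap.proj i0).comp
        (ContinuousLinearMap.fst ℝ (Fin N → V) ℝ))) _ fun z hz zn b ξ h1 h2 h3 => ?_
    obtain ⟨a1, a2, a3, a4⟩ := (hS _ _ _ _ _).1 hz
    obtain ⟨a5, a6⟩ := a4 _ _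
      (sard_lin a2 a3 (fun n => ((hS _ _ _ _ _).1 (h1 n)).1.trans a1.symm) h2 h3)
    refine ⟨a5, fun e => Prod.ext (a6 ?_) a5⟩
    cases c <;> exact e

end XR
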