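import Pool.Agent.P.MP_408b1f_gt.SGA

/-! From a rigid flag system to a rigid configuration: enumerate I ⊕ I by Fin N
(Finite.equivFin), p = Sum.elim P O. A solution of LinSol restricts to a Lin S: l1 from cf for the
pair (P j, O j) when t1 j = 1 and (O j, P j) when t1 j = -1, with sg_eq_deriv when the displacement
is nonzero (then the abscissa is regular) and trivially otherwise; l2 from cg; l3 from cw and lev3.
All flag points lie in the unit box. -/

open Set MeasureTheory Filter Topology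

noncomputable section

namespace XR

theorem rigidCfg_of_rigid {f g : ℝ → ℝ} {ε : ℝ} {I : Type} (S : Sys f g ε I) (h : Rigid S) :
    RigidCfg f g {x ∈ Icc (0:ℝ) 1 | ¬ Reg f x} {y ∈ Icc (0:ℝ) 1 | ¬ Reg g y} ε := by
  have := S.fin
  obtain ⟨N, ⟨E⟩⟩ := Finite.exists_equiv_fin (I ⊕ I)
  obtain ⟨j0, c, hc⟩ := h
  let q : I ⊕ I → V := Sum.elim S.P S.O
  have hq : ∀ i, q i ∈ S.K := by
    rintro (i | i)
    exacts [(S.memP i).1, (S.memO i).1]
  have hx : ∀ i, (q i).1 ∈ Icc (0:ℝ) 1 := fun i =>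
    ⟨(S.hK.box _ (hq i)).1, (S.hK.box _ (hq i)).2.1⟩
  have hy : ∀ i, (q i).2 ∈ Icc (0:ℝ) 1 := fun i =>
    ⟨(S.hK.box _ (hq i)).2.2.1, (S.hK.box _ (hq i)).2.2.2⟩
  refine ⟨N, fun k => q (E.symm k), fun k hk => ?_, fun k hk => ?_, E (Sum.inl j0), c,
    fun ξ e hs => ?_⟩
  · by_contra hn
    exact hk ⟨hx _, fun hr => hn hr.2.2.1⟩
  · by_contra hn
    exact hk ⟨hy _, fun hr => hn hr.2.2.1⟩
  have rx : ∀ i, (ξ (E i)).1 ≠ 0 → Reg f (q i).1 := fun i hi => by
    by_contra hn
    exact hi (hs.kx (E i) (by rw [E.symm_apply_apply]; exact ⟨hx i, hn⟩))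
  have ry : ∀ i, (ξ (E i)).2 ≠ 0 → Reg g (q i).2 := fun i hi => by
    by_contra hn
    exact hi (hs.ky (E i) (by rw [E.symm_apply_apply]; exact ⟨hy i, hn⟩))
  have ex : ∀ i j, (q i).1 = (q j).1 → (ξ (E i)).1 = (ξ (E j)).1 := fun i j h =>
    hs.ex (E i) (E j) (by simpa only [E.symm_apply_apply] using h)
  have ey : ∀ i j, (q i).2 = (q j).2 → (ξ (E i)).2 = (ξ (E j)).2 := fun i j h =>
    hs.ey (E i) (E j) (by simpa only [E.symm_apply_apply] using h)
  have cw : ∀ i j, w ε (q i) = w ε (q j) →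
      w ε (ξ (E i)) - w ε (ξ (E j)) = e * ((q i).2 - (q j).2) := fun i j h => by
    simpa only [E.symm_apply_apply] using
      hs.cw (E i) (E j) (by simpa only [E.symm_apply_apply] using h)
  have cf : ∀ i j m, SG f (q i).1 m → (q i).1 = (q j).1 → (q i).2 - (q j).2 = f (q i).1 →
      (ξ (E i)).2 - (ξ (E j)).2 = m * (ξ (E i)).1 := fun i j m hm h h' => by
    have h1 := hs.cf (E i) (E j) (by simpa only [E.symm_apply_apply] using h)
      (by simpa only [E.symm_apply_apply] using h')
    simp only [E.symm_apply_apply] at h1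
    by_cases h0 : (ξ (E i)).1 = 0
    · rw [h1, h0, mul_zero, mul_zero]
    · have hr := rx i h0
      rw [h1, sg_eq_deriv ⟨hr.1, hr.2.1⟩ hr.2.2.1 hm]
  have cg : ∀ i j m, SG g (q i).2 m → (q i).2 = (q j).2 → (q i).1 - (q j).1 = g (q i).2 →
      (ξ (E i)).1 - (ξ (E j)).1 = m * (ξ (E i)).2 := fun i j m hm h h' => by
    have h1 := hs.cg (E i) (E j) (by simpa only [E.symm_apply_apply] using h)
      (by simpa only [E.symm_apply_apply] using h')
    simp only [E.symm_apply_apply] at h1
    by_cases h0 : (ξ (E i)).2 = 0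
    · rw [h1, h0, mul_zero, mul_zero]
    · have hr := ry i h0
      rw [h1, sg_eq_deriv ⟨hr.1, hr.2.1⟩ hr.2.2.1 hm]
  let L : Lin S :=
    { p := fun j => ξ (E (Sum.inl j))
      o := fun j => ξ (E (Sum.inr j))
      e := e
      eqx := fun i j h => ex (Sum.inl i) (Sum.inr j) h
      eqy := fun i j h => ey (Sum.inl i) (Sum.inr j) h
      l1 := fun j hj => by
        have h1 := S.lev1 j
        have h2 : (S.P j).2 = (S.O j).2 + S.t1 j * f (S.O j).1 := by
          simpa using congrArg Prod.snd hj.1.hz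
        rcases hj.1.ht with ht | ht
        · have := cf (Sum.inl j) (Sum.inr j) (S.m1 j) (by simpa [q, h1] using hj.2) h1
            (by simp [q, h1, h2, ht])
          rw [this, ht, one_mul]
        · have := cf (Sum.inr j) (Sum.inl j) (S.m1 j) hj.2 h1.symm (by simp [q, h2, ht])
          rw [← ex (Sum.inl j) (Sum.inr j) h1] at this
          rw [ht]
          linarith
      l2 := fun j hj => by
        have h1 := S.lev2 j
        have h2 : (S.P (S.T j)).1 = (S.O j).1 - S.t2 j * g (S.O j).2 := by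
          simpa [sub_eq_add_neg] using congrArg Prod.fst hj.1.hz
        rcases hj.1.ht with ht | ht
        · have := cg (Sum.inr j) (Sum.inl (S.T j)) (S.m2 j) hj.2 h1.symm (by simp [q, h2, ht])
          rw [ht]
          linarith
        · have := cg (Sum.inl (S.T j)) (Sum.inr j) (S.m2 j) (by simpa [q, h1] using hj.2) h1
            (by simp [q, h1, h2, ht])
          rw [ey (Sum.inl (S.T j)) (Sum.inr j) h1] at this
          rw [ht]
          linarith
      l3 := fun j => cw (Sum.inl (S.R j)) (Sum.inr j) (S.lev3 j)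
      rpx := fun j => rx (Sum.inl j)
      rpy := fun j => ry (Sum.inl j)
      rox := fun j => rx (Sum.inr j)
      roy := fun j => ry (Sum.inr j) }
  refine ⟨(hc L).1, fun h0 => funext fun k => ?_⟩
  obtain ⟨i, rfl⟩ := E.surjective k
  rcases i with i | i
  exacts [((hc L).2 h0 i).1, ((hc L).2 h0 i).2]

end XR
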