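import Pool.Agent.P.MP_408b1f_gt.MainLin
import Pool.Agent.P.MP_408b1f_gt.HCase
import Pool.Agent.P.MP_408b1f_gt.Corner
import Pool.Agent.P.MP_408b1f_gt.FqN5
import Pool.Agent.P.MP_408b1f_gt.ExSys
import Pool.Agent.P.MP_408b1f_gt.ToLin
import Pool.Agent.P.MP_408b1f_gt.Sard
import Pool.Agent.P.MP_408b1f_gt.Ends

/-! No family is bad in all directions. -/

open Set MeasureTheory Filter Topology

noncomputable section

namespace XR

variable {f g : ℝ → ℝ}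

theorem AllBad.ev_sys (h : AllBad f g) :
    ∀ᶠ ε in 𝓝[>] (0:ℝ), ∃ (I : Type) (S : Sys f g ε I), S.HExtra := by
  filter_upwards [ev_le (a := 1 / 10) (by norm_num)] with ε hε
  obtain ⟨K, L, hKL⟩ := h.bad ε
  exact exists_sys hKL hε.1 hε.2 h.half.zero0 h.half.zero1

theorem AllBad.not_rigid (h : AllBad f g)
    (hr : ∀ᶠ ε in 𝓝[>] (0:ℝ), ∃ (I : Type) (S : Sys f g ε I), Rigid S) : False := by
  have hn := null_of_rigid f g h.half.countable_nonreg h.swap.half.countable_nonreg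
  obtain ⟨a, ha, hsub⟩ := mem_nhdsGT_iff_exists_Ioo_subset.1 hr
  have : volume (Ioo (0:ℝ) a) = 0 := measure_mono_null (fun ε hε => by
    obtain ⟨I, S, hS⟩ := hsub hε
    exact rigidCfg_of_rigid S hS) hn
  rw [Real.volume_Ioo, ENNReal.ofReal_eq_zero] at this
  have : (0:ℝ) < a := ha
  linarith

theorem AllBad.not_full (h : AllBad f g) {y : ℝ} (hy : y ∈ Icc (0:ℝ) 1) : g y ≠ 1 := by
  intro h1
  refine h.not_rigid ?_
  filter_upwards [h.ev_sys, hcase h.half h.swap.half hy h1] with ε ⟨I, S, hS⟩ H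
  exact ⟨I, S, H I S hS⟩

theorem AllBad.exists_rho (h : AllBad f g) :
    ∃ ρ > (0:ℝ), ∀ y ∈ Icc (0:ℝ) 1, g y ≤ 1 - 2 * ρ := by
  obtain ⟨y, hy, hmax⟩ := h.swap.half.exists_max
  have hy' : y ∈ Icc (0:ℝ) 1 := Ioo_subset_Icc_self hy
  have h1 : g y < 1 := lt_of_le_of_ne (h.swap.half.le1 y hy') (h.not_full hy')
  exact ⟨(1 - g y) / 2, by linarith, fun z hz => by have : g z ≤ g y := hmax hz; linarith⟩

theorem AllBad.ev_mg0 (h : AllBad f g) : ∃ η > (0:ℝ), ∀ᶠ ε in 𝓝[>] (0:ℝ),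
    ∃ (I : Type) (S : Sys f g ε I) (yL yR : ℝ), Mg0 η S yL yR := by
  obtain ⟨η, hη, H⟩ := margins h.half h.swap.half
  refine ⟨η, hη, ?_⟩
  filter_upwards [h.ev_sys, H] with ε ⟨I, S, _⟩ H
  obtain ⟨yL, yR, hm⟩ := H I S
  exact ⟨I, S, yL, yR, hm⟩

theorem no_allbad (h : AllBad f g) : False := by
  have hf := h.half
  have hg := h.swap.half
  obtain ⟨ρ1, p1, g1⟩ := h.exists_rho
  obtain ⟨ρ2, p2, f2⟩ := h.swap.exists_rho
  have pρ : 0 < min ρ1 ρ2 := lt_min p1 p2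
  have hgρ : ∀ y ∈ Icc (0:ℝ) 1, g y ≤ 1 - 2 * min ρ1 ρ2 := fun y hy => by
    linarith [g1 y hy, min_le_left ρ1 ρ2]
  have hfρ : ∀ y ∈ Icc (0:ℝ) 1, f y ≤ 1 - 2 * min ρ1 ρ2 := fun y hy => by
    linarith [f2 y hy, min_le_right ρ1 ρ2]
  obtain ⟨η', pη', H'⟩ := h.swap.ev_mg0
  obtain ⟨c', -, e'⟩ := exists_ctx0 hg hf pρ pη' hfρ
  obtain ⟨Cq, sq, psq, hq⟩ := fq c' (by rwa [e'])
  obtain ⟨η, pη, H⟩ := h.ev_mg0
  obtain ⟨c0, -, e0⟩ := exists_ctx0 hf hg pρ pη hgρ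
  obtain ⟨ys, hys, hmax⟩ := hg.exists_max
  have hys' : ys ∈ Icc (0:ℝ) 1 := Ioo_subset_Icc_self hys
  obtain ⟨η1, p1, -, H1⟩ := n5 c0 hys' hmax
  obtain ⟨c1, e1ρ, e1⟩ := exists_ctx0 hf hg pρ p1 hgρ
  let c : Ctx f g :=
    { toCtx0 := c1, ys := ys, Cq := Cq, sq := sq, ysI := hys', ysmax := hmax,
      fle := by rw [e1ρ]; exact hfρ, sqpos := psq, gq := hq }
  refine h.not_rigid ?_
  filter_upwards [H, H1, main_lin c] with ε ⟨I, S, yL, yR, hm⟩ H1 H2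
  obtain ⟨ς, hς⟩ := H1 I S yL yR (by rwa [e0])
  exact ⟨I, S, H2 I S yL yR ς (by show Mg c1.η ys S yL yR ς; rwa [e1])⟩

end XR
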