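import Pool.Agent.P.MP_408b1f_gt.KE

/-! The case M = 0. classify gives beta = 0, hence b = 0, on InB sigma (kappa_pos). Put Z i = zeta i
for i in InB sigma and Z i = zeta (T i) otherwise. Z (T i) = Z i by bD, bDD (at T i) or by definition
(nearL, nearR: the T image of an index outside is inside). Z (R i) = Z i: ke with n = 1 if both are
inside; otherwise both are near the same end (xstep), T i and T (R i) = R (T i) are inside, Z = zeta
of the T image for both (bD), ke with n = 1 for T i. So Z is constant (trans). At j0: p j0 = (0, Y),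
b j0 = 0 and w u * v.1, w v * u.1 > 0 (step: wu, wv, g1) give Y = 0, so zeta j0 = 0. Then p j = 0 on
InB sigma (eq_zero_of_zt_bt, w_eq_dot), o j = 0 there (tr1, Tr.zero), and outside use tr2 at i and at
T.symm i. -/

open Set MeasureTheory Filter Topology

noncomputable section

namespace XR

variable {f g : ℝ → ℝ}

theorem zero_near {ε : ℝ} {I : Type} {S : Sys f g ε I} {yL yR : ℝ} {c : Ctx0 f g}
    (hs : c.Small ε) (hm : Mg0 c.η S yL yR) {i : I}
    (hi : S.x i ≤ 2 * c.σ0 ∨ 1 - 2 * c.σ0 ≤ S.x i) :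
    S.G2 i ∧ S.G2 (S.T.symm i) ∧ S.InB (4 * c.σ0) (S.T i) ∧ S.InB (4 * c.σ0) (S.T.symm i) := by
  rcases hi with hi | hi
  · obtain ⟨-, -, a1, a2, -, -, a3, a4⟩ := nearL hs hm hi
    exact ⟨a1, a2, a3, a4⟩
  · obtain ⟨-, -, a1, a2, -, -, a3, a4⟩ := nearR hs hm hi
    exact ⟨a1, a2, a3, a4⟩

theorem zero_const {ε : ℝ} {I : Type} (S : Sys f g ε I) {Z : I → ℝ} (hR : ∀ i, Z (S.R i) = Z i)
    (hT : ∀ i, Z (S.T i) = Z i) (i j : I) : Z j = Z i := by
  obtain ⟨m, n, rfl⟩ := S.trans i j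
  have h1 : ∀ (m : ℕ) (k : I), Z ((S.R ^ m) k) = Z k := by
    intro m k
    induction m with
    | zero => rfl
    | succ m ih => rw [pow_succ', Equiv.Perm.mul_apply, hR, ih]
  have h2 : ∀ (m : ℕ) (k : I), Z ((S.T ^ m) k) = Z k := by
    intro m k
    induction m with
    | zero => rfl
    | succ m ih => rw [pow_succ', Equiv.Perm.mul_apply, hT, ih]
  rw [h1, h2]

theorem zero_start {σ : ℝ} {α u v ξ : V} (hσ : σ = 1 ∨ σ = -1) (h1 : 0 < σ * dot α u)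
    (h2 : 0 < σ * dot α v) (h3 : 0 < σ * u.1) (h4 : 0 < σ * v.1) (hξ : ξ.1 = 0)
    (hb : bt σ α u v ξ = 0) : ξ = 0 := by
  have p1 := (linkT_pos hσ h1 h2).2.2.2
  have p2 := (linkT_pos hσ h1 h4).2.2.2
  have p3 := (linkT_pos hσ h2 h3).2.2.2
  have hσ0 : σ ≠ 0 := by rcases hσ with h | h <;> rw [h] <;> norm_num
  have hd : σ * √(dot α u * dot α v) ≠ 0 := mul_ne_zero hσ0 (Real.sqrt_pos.2 p1).ne'
  rw [bt, div_eq_zero_iff, or_iff_left hd] at hb
  simp only [det, hξ] at hb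
  have h5 : (dot α u * v.1 + dot α v * u.1) * ξ.2 = 0 := by linarith
  have h6 : ξ.2 = 0 := (mul_eq_zero.1 h5).resolve_left (by linarith)
  exact Prod.ext hξ h6

theorem zero_core {ε : ℝ} {I : Type} {S : Sys f g ε I} {yL yR σ φ : ℝ} {c : Ctx0 f g}
    (hs : c.Small ε) (hsm : Sm f ε σ φ) (hσ : σ ≤ c.σ0) (hm : Mg0 c.η S yL yR) (ξ : Lin S)
    (hb : ∀ j, S.InB σ j → ξ.b j = 0)
    (hR : ∀ j, S.InB σ j → S.InB σ (S.R j) → ξ.ζ (S.R j) = ξ.ζ j)
    (hT : ∀ j, S.InB σ j → S.InB σ (S.T j) → ξ.ζ (S.T j) = ξ.ζ j)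
    (hTT : ∀ i, ¬ S.InB σ i → ξ.ζ (S.T i) = ξ.ζ (S.T.symm i)) {j0 : I} (hj0 : S.InB σ j0)
    (hp0 : (ξ.p j0).1 = 0) (j : I) : ξ.p j = 0 ∧ ξ.o j = 0 := by
  classical
  have hε := hs.εpos
  have h0 := c.σ0pos
  have h64 := hs.leσ
  have h4 : σ ≤ 4 * c.σ0 := by linarith
  have out : ∀ i, ¬ S.InB σ i → S.x i < σ ∨ 1 - σ < S.x i := by
    intro i hi
    by_contra hc
    push Not at hc
    exact hi hc
  have near : ∀ i, ¬ S.InB σ i → S.x i ≤ 2 * c.σ0 ∨ 1 - 2 * c.σ0 ≤ S.x i := by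
    intro i hi
    rcases out i hi with h | h
    · exact Or.inl (by linarith)
    · exact Or.inr (by linarith)
  set Z : I → ℝ := fun i => if S.InB σ i then ξ.ζ i else ξ.ζ (S.T i) with hZ
  have Zin : ∀ i, S.InB σ i → Z i = ξ.ζ i := fun i hi => if_pos hi
  have Zout : ∀ i, ¬ S.InB σ i → Z i = ξ.ζ (S.T i) := fun i hi => if_neg hi
  have Znear : ∀ i, (S.x i ≤ 2 * c.σ0 ∨ 1 - 2 * c.σ0 ≤ S.x i) → Z i = ξ.ζ (S.T i) := by
    intro i hi
    by_cases h : S.InB σ i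
    · rw [Zin i h, hT i h ((zero_near hs hm hi).2.2.1.mono h4)]
    · exact Zout i h
  have ZT : ∀ i, Z (S.T i) = Z i := by
    intro i
    by_cases h : S.InB σ i
    · by_cases h' : S.InB σ (S.T i)
      · rw [Zin _ h, Zin _ h', hT i h h']
      · rw [Zin _ h, Zout _ h', hTT _ h', Equiv.symm_apply_apply]
    · rw [Zout _ h, Zin _ ((zero_near hs hm (near i h)).2.2.1.mono h4)]
  have ZR : ∀ i, Z (S.R i) = Z i := by
    intro i
    by_cases h : S.InB σ i ∧ S.InB σ (S.R i)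
    · rw [Zin _ h.1, Zin _ h.2, hR i h.1 h.2]
    · obtain ⟨s1, s2⟩ := abs_le.1 (S.xstep hε.le i)
      have hn : (S.x i ≤ 2 * c.σ0 ∨ 1 - 2 * c.σ0 ≤ S.x i) ∧
          (S.x (S.R i) ≤ 2 * c.σ0 ∨ 1 - 2 * c.σ0 ≤ S.x (S.R i)) := by
        rcases not_and_or.1 h with h | h
        · rcases out _ h with h | h
          · exact ⟨Or.inl (by linarith), Or.inl (by linarith)⟩
          · exact ⟨Or.inr (by linarith), Or.inr (by linarith)⟩
        · rcases out _ h with h | h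
          · exact ⟨Or.inl (by linarith), Or.inl (by linarith)⟩
          · exact ⟨Or.inr (by linarith), Or.inr (by linarith)⟩
      have a1 := (zero_near hs hm hn.1).2.2.1.mono h4
      have a2 := (zero_near hs hm hn.2).2.2.1.mono h4
      rw [← S.comm] at a2
      rw [Znear _ hn.1, Znear _ hn.2, ← S.comm, hR _ a1 a2]
  have h16 := hsm.le16
  have sg : ∀ i, S.InB σ i → (S.t1 i = 1 ∨ S.t1 i = -1) ∧ 0 < S.t1 i * dot (1, -ε) (S.u i) ∧
      0 < S.t1 i * dot (1, -ε) (S.v i) ∧ S.G1 i := by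
    intro i hi
    have F := S.step hε (by linarith) hi
    rw [linkT_dot, linkT_dot]
    exact ⟨F.g1.1.ht, F.wu, F.wv, F.g1⟩
  have z0 : ξ.ζ j0 = 0 := by
    obtain ⟨a1, a2, a3, a4⟩ := sg j0 hj0
    have := zero_start a1 a2 a3 a4.1.hu a4.1.hv hp0 (hb j0 hj0)
    rw [Lin.ζ, this]
    simp [zt, dot]
  have inn : ∀ i, S.InB σ i → ξ.p i = 0 ∧ ξ.o i = 0 := by
    intro i hi
    obtain ⟨a1, a2, a3, a4⟩ := sg i hi
    have hz : ξ.ζ i = 0 := by rw [← Zin i hi, zero_const S ZR ZT j0 i, Zin j0 hj0, z0]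
    have hp := eq_zero_of_zt_bt a1 a2 a3 hz (hb i hi)
    exact ⟨hp, (tr1 ξ a4).zero.1 hp⟩
  by_cases h : S.InB σ j
  · exact inn j h
  · obtain ⟨a1, a2, a3, a4⟩ := zero_near hs hm (near j h)
    refine ⟨?_, (tr2 ξ a1).zero.2 (inn _ (a3.mono h4)).1⟩
    have := (tr2 ξ a2).zero.1 (inn _ (a4.mono h4)).2
    rwa [Equiv.apply_symm_apply] at this

theorem zero_case (c : Ctx f g) : EvAll c fun _ σ _ _ S ξ M => M = 0 → ∀ j0, S.InB σ j0 →
    (ξ.p j0).1 = 0 → ∀ j, ξ.p j = 0 ∧ ξ.o j = 0 := by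
  obtain ⟨Cw, -, hcl⟩ := classify c
  filter_upwards [hcl 1 one_pos 1 one_pos, ke c one_pos] with Λ h1 h2
  filter_upwards [h1, h2, c.ev_σ] with σ h1 h2 hσ
  obtain ⟨φ, hφ⟩ := c.ev_sm hσ.1 hσ.2
  filter_upwards [h1, h2, hφ, c.toCtx0.ev_small] with ε h1 h2 hsm hs I S yL yR ς hm ξ M hb hM
    j0 hj0 hp0
  subst hM
  obtain ⟨cen, ex, h1⟩ := h1 I S yL yR ς hm ξ 0 hb
  have h2 := h2 I S yL yR ς hm ξ 0 hb
  have hε := hsm.εpos
  have h16 := hsm.le16
  have kp : ∀ j, S.InB σ j → 0 < S.κ j := fun j hj => (S.kappa_pos hε (by linarith) hj).1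
  have zz : ∀ {a x : ℝ}, 0 < a → a * |x| ≤ 0 → x = 0 := by
    intro a x ha h
    by_contra hx
    have := mul_pos ha (abs_pos.2 hx)
    linarith
  have he : ξ.e = 0 := abs_nonpos_iff.1 (by simpa using hb.be)
  refine zero_core hs hsm hσ.2 hm.toMg0 ξ (fun j hj => ?_) (fun j hj hj' => ?_)
    (fun j hj hj' => ?_) (fun i hi => ?_) hj0 hp0
  · have hβ : ξ.β j = 0 := by
      rcases h1 j hj with h | ⟨-, -, h⟩ | ⟨-, -, h⟩
      · exact zz (Real.sqrt_pos.2 hε) h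
      · exact zz hε (by simpa using h)
      · exact zz (pow_pos hε 2) (by simpa using h)
    rw [Lin.β, div_eq_zero_iff] at hβ
    exact hβ.resolve_right (kp j hj).ne'
  · have hr : S.Run σ j 1 := by
      intro l hl
      rcases Nat.le_one_iff_eq_zero_or_eq_one.1 hl with rfl | rfl
      · exact hj
      · rwa [pow_one]
    have := h2 j 1 hr
    rw [he, mul_zero, sub_zero, mul_zero, pow_one, abs_mul, abs_of_pos (kp j hj)] at this
    exact sub_eq_zero.1 (zz (kp j hj) this)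
  · exact sub_eq_zero.1 (zz (kp j hj) (hb.bD j hj hj'))
  · have hn : S.x i ≤ 2 * c.σ0 ∨ 1 - 2 * c.σ0 ≤ S.x i := by
      by_contra hc
      push Not at hc
      exact hi ⟨by linarith [hc.1, hσ.1, hσ.2], by linarith [hc.2, hσ.1, hσ.2]⟩
    have := (zero_near hs hm.toMg0 hn).2.2.1.mono (s' := σ) (by linarith [hσ.1, hσ.2])
    exact sub_eq_zero.1 (zz (kp _ this) (hb.bDD i hi))

end XR
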