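import Pool.Agent.P.MP_408b1f_gt.An1
import Pool.Agent.P.MP_408b1f_gt.An45
import Pool.Agent.P.MP_408b1f_gt.Zero

/-! Rigidity in the main case. -/

open Set MeasureTheory Filter Topology

noncomputable section

namespace XR

variable {f g : ℝ → ℝ} {ε : ℝ} {I : Type} {S : Sys f g ε I}

theorem Lin.exists_bd (ξ : Lin S) (hε : 0 < ε) (σ Λ : ℝ) : ∃ M, ξ.Bd σ Λ M := by
  have := S.fin
  obtain ⟨a, ha⟩ := (Set.finite_range fun j => Λ * ξ.ct j).bddAbove
  obtain ⟨b, hb⟩ := (Set.finite_range fun j => S.κ j * |ξ.ζ (S.T j) - ξ.ζ j|).bddAbove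
  obtain ⟨d, hd⟩ :=
    (Set.finite_range fun i => S.κ (S.T i) * |ξ.ζ (S.T i) - ξ.ζ (S.T.symm i)|).bddAbove
  refine ⟨max (max 0 (|ξ.e| / ε)) (max a (max b d)), ?_, ?_, ?_, ?_, ?_⟩
  · exact (le_max_left _ _).trans (le_max_left _ _)
  · have : |ξ.e| / ε ≤ max (max 0 (|ξ.e| / ε)) (max a (max b d)) :=
      (le_max_right _ _).trans (le_max_left _ _)
    rw [div_le_iff₀ hε] at this; linarith
  · exact fun j _ => (ha ⟨j, rfl⟩).trans ((le_max_left _ _).trans (le_max_right _ _))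
  · exact fun j _ _ => (hb ⟨j, rfl⟩).trans
      ((le_max_left _ _).trans ((le_max_right _ _).trans (le_max_right _ _)))
  · exact fun j _ => (hd ⟨j, rfl⟩).trans
      ((le_max_right _ _).trans ((le_max_right _ _).trans (le_max_right _ _)))

theorem le_zero_of_halves {a k M : ℝ} (h : ∀ n : ℕ, a ≤ k * ((1 / 2) ^ n * M)) : a ≤ 0 := by
  have : Tendsto (fun n : ℕ => k * ((1 / 2 : ℝ) ^ n * M)) atTop (𝓝 (k * (0 * M))) :=
    ((tendsto_pow_atTop_nhds_zero_of_lt_one (by norm_num) (by norm_num)).mul_const M).const_mul k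
  simp only [zero_mul, mul_zero] at this
  exact ge_of_tendsto' this h

theorem Lin.bd_zero (ξ : Lin S) {σ Λ M : ℝ} (h : ξ.Bd σ Λ M)
    (hh : ∀ M, ξ.Bd σ Λ M → ξ.Bd σ Λ (1 / 2 * M)) : ξ.Bd σ Λ 0 := by
  have hn : ∀ n : ℕ, ξ.Bd σ Λ ((1 / 2) ^ n * M) := by
    intro n
    induction n with
    | zero => simpa using h
    | succ n ih => have := hh _ ih; rwa [← mul_assoc, ← pow_succ'] at this
  refine ⟨le_rfl, ?_, fun j hj => ?_, fun j hj hj' => ?_, fun j hj => ?_⟩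
  · rw [mul_zero]; exact le_zero_of_halves (k := ε) fun n => (hn n).be
  · exact le_zero_of_halves (k := 1) fun n => by rw [one_mul]; exact (hn n).bc j hj
  · exact le_zero_of_halves (k := 1) fun n => by rw [one_mul]; exact (hn n).bD j hj hj'
  · exact le_zero_of_halves (k := 1) fun n => by rw [one_mul]; exact (hn n).bDD j hj

theorem main_lin (c : Ctx f g) : EvG c fun _ _ S => Rigid S := by
  have h2 : (0:ℝ) < 1 / 2 := by norm_num
  have H := ((an1 c h2).and ((an3 c h2).and ((an4 c h2).and (an5 c h2)))).and (zero_case c)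
  obtain ⟨Λ, H⟩ := H.exists
  obtain ⟨σ, H, hσ⟩ := (H.and c.ev_σ).exists
  filter_upwards [H, ev_le (a := 1) one_pos] with ε H hε I S yL yR ς hm
  obtain ⟨i⟩ := S.ne
  obtain ⟨n, h1, h3⟩ := S.hbulk i
  have hσ4 : σ ≤ 1 / 4 := by linarith [hσ.2, c.toCtx0.σ0_le]
  have hB : S.InB σ ((S.R ^ n) i) := ⟨hσ4.trans h1, h3.trans (by linarith)⟩
  refine ⟨(S.R ^ n) i, true, fun ξ => ?_⟩
  obtain ⟨M, hM⟩ := ξ.exists_bd hε.1 σ Λ
  have h0 : ξ.Bd σ Λ 0 := ξ.bd_zero hM fun M hM => by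
    obtain ⟨⟨a1, a3, a4, a5⟩, -⟩ := H I S yL yR ς hm ξ M hM
    exact ⟨by linarith [hM.nn], a5, a1, a3, a4⟩
  refine ⟨?_, fun hx => (H I S yL yR ς hm ξ 0 h0).2 rfl _ hB (by simpa using hx)⟩
  have := h0.be
  rw [mul_zero] at this
  exact abs_nonpos_iff.1 this

end XR
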