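import Pool.Agent.P.MP_408b1f_gt.Pot1

/-! Continuity of the potential and its integral formula.
cap_continuousAt: dominated convergence for indicators (off the null line the indicator of the
half plane is locally constant in (P,Q)).
pot_continuousOn: at Q different from P0 directly; at Q = P0 use a second point R of Zs and the
cocycle identity pot P0 X = pot P0 R - pot X R (if there is none, Zs is a subsingleton).
pot_top: by concavity of top, K ∩ Hl P1 P2 is the region over the open interval (s1,s2) strictly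
above the chord and weakly below top (Frame.volume_eq_lintegral, Frame.det_eq). -/

open Set MeasureTheory Filter Topology

noncomputable section

namespace XR

variable {K L : Set V}

private theorem pot2_open (P Q : V) : IsOpen (Hl P Q) :=
  isOpen_lt continuous_const (by unfold det3 det; fun_prop)

theorem cap_continuousAt (hK : Body K) {P Q : V} (h : P ≠ Q) :
    ContinuousAt (fun pq : V × V => cap K pq.1 pq.2) (P, Q) := by
  have hfin : IsFiniteMeasure (volume.restrict K) :=
    isFiniteMeasure_restrict.2 hK.comp.measure_lt_top.ne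
  have e : (fun pq : V × V => cap K pq.1 pq.2)
      = fun pq => ∫ X in K, (Hl pq.1 pq.2).indicator (fun _ => (1 : ℝ)) X := by
    funext pq
    rw [integral_indicator_const _ (pot2_open _ _).measurableSet, smul_eq_mul, mul_one, cap,
      Measure.real, Measure.restrict_apply (pot2_open _ _).measurableSet, inter_comm]
  rw [e]
  refine continuousAt_of_dominated (bound := fun _ => 1) (Eventually.of_forall fun pq => ?_)
    (Eventually.of_forall fun pq => Eventually.of_forall fun X => ?_) (integrable_const _) ?_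
  · exact aestronglyMeasurable_const.indicator (pot2_open _ _).measurableSet
  · by_cases hX : X ∈ Hl pq.1 pq.2 <;> simp [hX]
  · have h0 : ∀ᵐ X, det3 P Q X ≠ 0 := by
      rw [ae_iff]
      simpa using volume_line h
    filter_upwards [ae_restrict_of_ae h0] with X hX
    have hc : ContinuousAt (fun pq : V × V => det3 pq.1 pq.2 X) (P, Q) := by
      unfold det3 det; fun_prop
    rcases lt_or_gt_of_ne hX with h1 | h1
    · refine (continuousAt_const (y := (0 : ℝ))).congr ?_
      filter_upwards [hc.eventually_lt continuousAt_const h1] with pq h2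
      exact (indicator_of_notMem (s := Hl pq.1 pq.2)
        (fun h3 : 0 < det3 pq.1 pq.2 X => lt_asymm h2 h3) fun _ => (1 : ℝ)).symm
    · refine (continuousAt_const (y := (1 : ℝ))).congr ?_
      filter_upwards [continuousAt_const.eventually_lt hc h1] with pq h2
      exact (indicator_of_mem (s := Hl pq.1 pq.2) h2 fun _ => (1 : ℝ)).symm

theorem isCompact_Zs (h : Pr K L) : IsCompact (Zs K L) := by
  have e : Zs K L = K ∩ (L ∩ ((interior K)ᶜ ∩ (interior L)ᶜ)) := rfl
  rw [e]
  exact h.bK.comp.inter_right (h.bL.comp.isClosed.inter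
    (isOpen_interior.isClosed_compl.inter isOpen_interior.isClosed_compl))

private theorem pot2_at (h : Pr K L) {P Q : V} (hPQ : P ≠ Q) :
    ContinuousAt (fun pq : V × V => pot K L pq.1 pq.2) (P, Q) :=
  (cap_continuousAt h.bK hPQ).sub (cap_continuousAt h.bL hPQ)

theorem pot_continuousOn (h : Pr K L) {P0 : V} (h0 : P0 ∈ Zs K L) :
    ContinuousOn (pot K L P0) (Zs K L) := by
  intro Q hQ
  by_cases hPQ : P0 = Q
  · subst hPQ
    by_cases hR : ∃ R ∈ Zs K L, P0 ≠ R
    · obtain ⟨R, hR, hne⟩ := hR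
      have h1 : ContinuousAt (fun X => pot K L P0 R - pot K L X R) P0 :=
        continuousAt_const.sub ((pot2_at h hne).comp (f := fun X : V => (X, R)) (by fun_prop))
      refine h1.continuousWithinAt.congr (fun X hX => ?_) ?_
      · rw [← pot_cocycle h h0 hX hR, add_sub_cancel_right]
      · rw [pot_self, sub_self]
    · push Not at hR
      exact (continuousWithinAt_singleton (f := pot K L P0) (x := P0)).mono
        fun X hX => (hR X hX).symm
  · exact ((pot2_at h hPQ).comp (f := fun X : V => (P0, X)) (by fun_prop)).continuousWithinAt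

private theorem pot2_cap (F : Frame) (ho : F.o = 1) (hK : Body K) {s1 s2 : ℝ}
    (hs : s1 < s2) (h1 : s1 ∈ Icc (F.lo K) (F.hi K)) (h2 : s2 ∈ Icc (F.lo K) (F.hi K))
    {t1 t2 : ℝ} (e1 : F.top K s1 = t1) (e2 : F.top K s2 = t2) :
    cap K (F.pt s1 t1) (F.pt s2 t2) =
      ∫ s in s1..s2, (F.top K s - (t1 + (t2 - t1) / (s2 - s1) * (s - s1))) := by
  have hd : 0 < s2 - s1 := sub_pos.2 hs
  have hH : ∀ s t, F.pt s t ∈ Hl (F.pt s1 t1) (F.pt s2 t2) ↔
      t1 + (t2 - t1) / (s2 - s1) * (s - s1) < t := by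
    intro s t
    rw [Hl, mem_ofPred_eq, det3, F.det_eq, ho, F.lev_sub, F.lev_sub, F.hgt_sub, F.hgt_sub]
    simp only [Frame.lev_pt, Frame.hgt_pt, one_mul]
    rw [← lt_sub_iff_add_lt', div_mul_eq_mul_div, div_lt_iff₀ hd, sub_pos, mul_comm (t - t1)]
  have hsub : Icc s1 s2 ⊆ Icc (F.lo K) (F.hi K) := Icc_subset_Icc h1.1 h2.2
  have hch : ∀ s ∈ Icc s1 s2, F.pt s (t1 + (t2 - t1) / (s2 - s1) * (s - s1)) ∈ K := by
    intro s hs'
    have p1 : F.pt s1 t1 ∈ K := (F.pt_mem_iff hK h1 _).2 ⟨e1 ▸ F.bot_le_top hK h1, e1.ge⟩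
    have p2 : F.pt s2 t2 ∈ K := (F.pt_mem_iff hK h2 _).2 ⟨e2 ▸ F.bot_le_top hK h2, e2.ge⟩
    have p3 := hK.conv p1 p2 (a := (s2 - s) / (s2 - s1)) (b := (s - s1) / (s2 - s1))
      (div_nonneg (sub_nonneg.2 hs'.2) hd.le) (div_nonneg (sub_nonneg.2 hs'.1) hd.le)
      (by field_simp; ring)
    have p4 : ∀ a b : ℝ, a • F.pt s1 t1 + b • F.pt s2 t2
        = F.pt (a * s1 + b * s2) (a * t1 + b * t2) := fun a b => by
      simp only [Frame.pt]; module
    have p5 : (s2 - s) / (s2 - s1) * s1 + (s - s1) / (s2 - s1) * s2 = s := by field_simp; ring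
    have p6 : (s2 - s) / (s2 - s1) * t1 + (s - s1) / (s2 - s1) * t2
        = t1 + (t2 - t1) / (s2 - s1) * (s - s1) := by field_simp; ring
    rwa [p4, p5, p6] at p3
  have hsec : ∀ s, volume {t : ℝ | F.pt s t ∈ K ∩ Hl (F.pt s1 t1) (F.pt s2 t2)}
      = (Ioc s1 s2).indicator
        (fun s => ENNReal.ofReal (F.top K s - (t1 + (t2 - t1) / (s2 - s1) * (s - s1)))) s := by
    intro s
    by_cases hs' : s ∈ Ioc s1 s2
    · rw [indicator_of_mem hs', ← Real.volume_Ioc]
      congr 1
      ext t
      have hs2 := hsub (Ioc_subset_Icc_self hs')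
      have hb := ((F.pt_mem_iff hK hs2 _).1 (hch s (Ioc_subset_Icc_self hs'))).1
      rw [mem_ofPred_eq, mem_inter_iff, hH, F.pt_mem_iff hK hs2, mem_Ioc]
      exact ⟨fun h => ⟨h.2, h.1.2⟩, fun h => ⟨⟨hb.trans h.1.le, h.2⟩, h.1⟩⟩
    · rw [indicator_of_notMem hs']
      refine measure_mono_null (fun t ht => ?_) measure_empty
      obtain ⟨p1, p2⟩ := ht
      rw [hH, ← lt_sub_iff_add_lt', div_mul_eq_mul_div, div_lt_iff₀ hd] at p2
      have hs2 := F.lev_mem hK p1
      rw [F.lev_pt] at hs2
      have p3 := ((F.pt_mem_iff hK hs2 _).1 p1).2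
      rw [mem_Ioc, not_and_or, not_lt, not_le] at hs'
      rcases hs' with p4 | p4
      · rcases p4.eq_or_lt with rfl | p4
        · nlinarith
        · have p5 := (F.concaveOn_top hK).slope_anti_adjacent hs2 h2 p4 hs
          rw [e1, e2, div_le_div_iff₀ hd (sub_pos.2 p4)] at p5
          nlinarith
      · have p5 := (F.concaveOn_top hK).slope_anti_adjacent h1 hs2 hs p4
        rw [e1, e2, div_le_div_iff₀ (sub_pos.2 p4) hd] at p5
        nlinarith
  rw [cap, F.volume_eq_lintegral (hK.comp.measurableSet.inter (pot2_open _ _).measurableSet),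
    lintegral_congr hsec, lintegral_indicator measurableSet_Ioc, intervalIntegral.integral_of_le hs.le,
    integral_eq_lintegral_of_nonneg_ae]
  · filter_upwards [ae_restrict_mem measurableSet_Ioc] with s hs'
    exact sub_nonneg.2 ((F.pt_mem_iff hK (hsub (Ioc_subset_Icc_self hs')) _).1
      (hch s (Ioc_subset_Icc_self hs'))).2
  · refine ContinuousOn.aestronglyMeasurable ?_ measurableSet_Ioc
    exact ((F.continuousOn_top hK).mono (Ioc_subset_Icc_self.trans hsub)).sub (by fun_prop)

theorem pot_top (F : Frame) (ho : F.o = 1) (hK : Body K) (hL : Body L) {s1 s2 : ℝ}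
    (hs : s1 < s2) (h1K : s1 ∈ Icc (F.lo K) (F.hi K)) (h2K : s2 ∈ Icc (F.lo K) (F.hi K))
    (h1L : s1 ∈ Icc (F.lo L) (F.hi L)) (h2L : s2 ∈ Icc (F.lo L) (F.hi L))
    (e1 : F.top K s1 = F.top L s1) (e2 : F.top K s2 = F.top L s2) :
    pot K L (F.pt s1 (F.top K s1)) (F.pt s2 (F.top K s2)) =
      ∫ s in s1..s2, (F.top K s - F.top L s) := by
  have hi : ∀ {M : Set V}, Body M → s1 ∈ Icc (F.lo M) (F.hi M) → s2 ∈ Icc (F.lo M) (F.hi M) →
      IntervalIntegrable (fun s => F.top M s -
        (F.top K s1 + (F.top K s2 - F.top K s1) / (s2 - s1) * (s - s1))) volume s1 s2 := by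
    intro M hM p1 p2
    refine ContinuousOn.intervalIntegrable_of_Icc hs.le ?_
    exact ((F.continuousOn_top hM).mono (Icc_subset_Icc p1.1 p2.2)).sub (by fun_prop)
  rw [pot, pot2_cap F ho hK hs h1K h2K rfl rfl, pot2_cap F ho hL hs h1L h2L e1.symm e2.symm,
    ← intervalIntegral.integral_sub (hi hK h1K h2K) (hi hL h1L h2L)]
  simp only [sub_sub_sub_cancel_right]

end XR
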