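import Pool.Agent.P.MP_408b1f_gt.DP
import Pool.Agent.P.MP_408b1f_gt.Pot2
import Pool.Agent.P.MP_408b1f_gt.Sm

/-! Nontriviality of the potential and absence of a common fixed extreme point.
BadPair.mid: a common chord over x in [1/2, 1/2 + eps]; its midpoint is interior to both.
hMt: let (xT,1) ∈ K; if xT <= 1/2 take a common chord over [xT, xT + eps] and interpolate between
(xT,1) and a point (1,y): the top is >= 1 - 2 eps; symmetric otherwise.
nt: zeros x1 in [eps, 2 eps] and x2 in [1 - 4 eps, 1 - 3 eps] of delta = top K - top L; by eq_of_slab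
delta is not identically zero between; take a component (a,b) of the nonzero set; delta has a sign
there so its integral, which is the potential (pot_top in F1), is nonzero.
nofix: show pot E X = 0 for every common top point X over x in (0, 1 - 3 eps]; then nt and the
cocycle identity give a contradiction. Fix X0 over x0. The set of X in Zs with
X.2 = top K X.1, X.1 <= x0, pot E X = pot E X0 is compact (pot_continuousOn, continuity of top on
[0,1]); let X* minimise X.1. If X*.1 = E.1 then X* = E (the chord of K ∩ L at the minimal abscissa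
is a point: face_ext for F1.neg and f 0 = 0). If w X* = w E then pot E X* = 0 (equal points, or
face_ext for (F3 eps).neg and pot_zero_of_side). Otherwise X* is Inner for F1 and F3 (K ∩ L has a
point with abscissa >= 1 - eps), O' = sm (eps,1) X* = X* - len (eps,1) with len > 0 (if X* were the
lower end, the segment from E to O' would pass strictly above the top point X*), O'.1 > E.1 (else a
vertical face), O' is not a top point in F1 (concavity along the segment E X* gives w O' < w X*),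
so X' = sm (0,1) O' is a common top point with smaller abscissa and the same potential (sm_Zs,
sm_gen): contradiction. nofixR is nofix for BadPair.neg. -/

open Set MeasureTheory Filter Topology

noncomputable section

namespace XR

variable {f g : ℝ → ℝ} {K L : Set V} {ε : ℝ}

theorem nt_top_mem (hK : Fam f g K) {x : ℝ} (hx : x ∈ Icc (0:ℝ) 1) : (x, F1.top K x) ∈ K := by
  rw [hK.mem_iff hx, hK.top_eq hx]
  exact ⟨le_add_of_nonneg_right (hK.vert x hx).1, le_rfl⟩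

theorem nt_le_top (hK : Fam f g K) {p : V} (hp : p ∈ K) : p.2 ≤ F1.top K p.1 :=
  ((hK.mem_iff ⟨(hK.box p hp).1, (hK.box p hp).2.1⟩ p.2).1 hp).2

theorem nt_top_Zs (h : BadPair f g ε K L) {x : ℝ} (hx : x ∈ Icc (0:ℝ) 1)
    (e : F1.top K x = F1.top L x) : (x, F1.top K x) ∈ Zs K L := by
  refine ⟨nt_top_mem h.hK hx, e ▸ nt_top_mem h.hL hx, fun hi => ?_, fun hi => ?_⟩
  · have := ((F1.mem_interior_iff h.hK.body _).1 hi).2.2
    simp at this
  · have := ((F1.mem_interior_iff h.hL.body _).1 hi).2.2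
    simp [e] at this

theorem nt_cont (hK : Fam f g K) : ContinuousOn (F1.top K) (Icc 0 1) := by
  have := F1.continuousOn_top hK.body
  rwa [hK.F1_lo, hK.F1_hi] at this

theorem nt_neg_mem {p : V} (hp : p ∈ negP '' K ∩ negP '' L) : ∃ q ∈ K ∩ L, p = negP q := by
  obtain ⟨⟨q, hq, e⟩, ⟨q', hq', e'⟩⟩ := hp
  have h1 : q' = q := by
    have h2 := e'.trans e.symm
    simp only [negP, Prod.mk.injEq] at h2
    exact Prod.ext (by linarith [h2.1]) (by linarith [h2.2])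
  exact ⟨q, ⟨hq, h1 ▸ hq'⟩, e.symm⟩

theorem BadPair.mid (h : BadPair f g ε K L) (hε : 0 < ε) (hε' : ε ≤ 1 / 10) :
    ∃ o ∈ interior (K ∩ L), 1 / 2 ≤ o.1 ∧ o.1 ≤ 1 / 2 + ε := by
  obtain ⟨x, hx, e⟩ := common_chord h.hK h.hL hε h.same (x1 := 1 / 2) (by norm_num) (by linarith)
  have hx' : x ∈ Ioo (0:ℝ) 1 := ⟨by linarith [hx.1], by linarith [hx.2]⟩
  have hp := h.hK.pos x hx'
  have e1 := h.hK.top_eq (Ioo_subset_Icc_self hx')
  have e2 := h.hL.top_eq (Ioo_subset_Icc_self hx')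
  refine ⟨(x, F1.top K x - f x / 2), ?_, hx.1, hx.2⟩
  rw [interior_inter]
  constructor
  · rw [F1.mem_interior_iff h.hK.body, h.hK.F1_lo, h.hK.F1_hi]
    simp only [F1_lev, F1_hgt]
    exact ⟨hx', by linarith, by linarith⟩
  · rw [F1.mem_interior_iff h.hL.body, h.hL.F1_lo, h.hL.F1_hi]
    simp only [F1_lev, F1_hgt]
    exact ⟨hx', by linarith, by linarith⟩

theorem BadPair.pr (h : BadPair f g ε K L) (hε : 0 < ε) (hε' : ε ≤ 1 / 10) : Pr K L := by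
  obtain ⟨o, ho, -⟩ := h.mid hε hε'
  exact ⟨h.hK.body, h.hL.body, ⟨o, ho⟩,
    SameX.vol_eq (F := F1) (h.hK.sameX1 h.hL) h.hK.body h.hL.body⟩

theorem BadPair.hMl (h : BadPair f g ε K L) (hε : 0 < ε) (hε' : ε ≤ 1 / 10) :
    ∃ p ∈ K ∩ L, p.1 ≤ ε := by
  obtain ⟨x, hx, e⟩ := common_chord h.hK h.hL hε h.same (x1 := 0) le_rfl (by linarith)
  have hz := nt_top_Zs h (x := x) ⟨hx.1, by linarith [hx.2]⟩ e
  exact ⟨_, ⟨hz.1, hz.2.1⟩, by simpa using hx.2⟩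

theorem BadPair.hMr (h : BadPair f g ε K L) (hε : 0 < ε) (hε' : ε ≤ 1 / 10) :
    ∃ p ∈ K ∩ L, 1 - ε ≤ p.1 := by
  obtain ⟨x, hx, e⟩ := common_chord h.hK h.hL hε h.same (x1 := 1 - ε) (by linarith) (by linarith)
  have hz := nt_top_Zs h (x := x) ⟨by linarith [hx.1], by linarith [hx.2]⟩ e
  exact ⟨_, ⟨hz.1, hz.2.1⟩, hx.1⟩

theorem nt_hMt (h : BadPair f g ε K L) (hε : 0 < ε) (hε' : ε ≤ 1 / 10) :
    ∃ p ∈ K ∩ L, 1 - 2 * ε ≤ p.2 := by
  obtain ⟨xT, hT⟩ := h.hK.exT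
  have hb := h.hK.box _ hT
  simp only at hb
  rcases le_total xT (1 / 2) with hx0 | hx0
  · obtain ⟨x, hx, e⟩ := common_chord h.hK h.hL hε h.same (x1 := xT) hb.1 (by linarith)
    have hz := nt_top_Zs h (x := x) ⟨by linarith [hx.1], by linarith [hx.2]⟩ e
    refine ⟨_, ⟨hz.1, hz.2.1⟩, ?_⟩
    obtain ⟨y, hy⟩ := h.hK.exR
    have hy0 : 0 ≤ y := (h.hK.box _ hy).2.2.1
    have hd : 0 < 1 - xT := by linarith
    have hl0 : 0 ≤ (x - xT) / (1 - xT) := div_nonneg (by linarith [hx.1]) hd.le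
    have hl1 : (x - xT) / (1 - xT) ≤ 2 * ε := by
      rw [div_le_iff₀ hd]; nlinarith [hx.2]
    have hm := h.hK.body.conv hT hy (a := 1 - (x - xT) / (1 - xT)) (b := (x - xT) / (1 - xT))
      (by linarith) hl0 (by ring)
    have h2 := nt_le_top h.hK hm
    simp only [Prod.fst_add, Prod.snd_add, Prod.smul_mk, smul_eq_mul] at h2
    have e1 : (1 - (x - xT) / (1 - xT)) * xT + (x - xT) / (1 - xT) * 1 = x := by
      field_simp; ring
    rw [e1] at h2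
    have := mul_nonneg hl0 hy0
    simp only
    linarith
  · obtain ⟨x, hx, e⟩ := common_chord h.hK h.hL hε h.same (x1 := xT - ε) (by linarith)
      (by linarith)
    have hz := nt_top_Zs h (x := x) ⟨by linarith [hx.1], by linarith [hx.2]⟩ e
    refine ⟨_, ⟨hz.1, hz.2.1⟩, ?_⟩
    obtain ⟨y, hy⟩ := h.hK.exL
    have hy0 : 0 ≤ y := (h.hK.box _ hy).2.2.1
    have hd : 0 < xT := by linarith
    have hl0 : 0 ≤ (xT - x) / xT := div_nonneg (by linarith [hx.2]) hd.le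
    have hl1 : (xT - x) / xT ≤ 2 * ε := by
      rw [div_le_iff₀ hd]; nlinarith [hx.1]
    have hm := h.hK.body.conv hT hy (a := 1 - (xT - x) / xT) (b := (xT - x) / xT)
      (by linarith) hl0 (by ring)
    have h2 := nt_le_top h.hK hm
    simp only [Prod.fst_add, Prod.snd_add, Prod.smul_mk, smul_eq_mul] at h2
    have e1 : (1 - (xT - x) / xT) * xT + (xT - x) / xT * 0 = x := by
      field_simp; ring
    rw [e1] at h2
    have := mul_nonneg hl0 hy0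
    simp only
    linarith

theorem BadPair.hMb (h : BadPair f g ε K L) (hε : 0 < ε) (hε' : ε ≤ 1 / 10) :
    ∃ p ∈ K ∩ L, p.2 ≤ 2 * ε := by
  obtain ⟨p, hp, h1⟩ := nt_hMt h.neg hε hε'
  obtain ⟨q, hq, rfl⟩ := nt_neg_mem hp
  refine ⟨q, hq, ?_⟩
  simp only [negP] at h1
  linarith

theorem BadPair.hMt (h : BadPair f g ε K L) (hε : 0 < ε) (hε' : ε ≤ 1 / 10) :
    ∃ p ∈ K ∩ L, 1 - 2 * ε ≤ p.2 := nt_hMt h hε hε'

theorem nt_integral_ne {δ : ℝ → ℝ} {a b : ℝ} (hab : a < b) (hc : ContinuousOn δ (Icc a b))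
    (hne : ∀ y ∈ Ioo a b, δ y ≠ 0) : ∫ s in a..b, δ s ≠ 0 := by
  have hi : IntervalIntegrable δ volume a b := hc.intervalIntegrable_of_Icc hab.le
  by_cases hp : ∀ y ∈ Ioo a b, 0 < δ y
  · exact (intervalIntegral.intervalIntegral_pos_of_pos_on hi hp hab).ne'
  · push Not at hp
    obtain ⟨y0, hy0, h0⟩ := hp
    have hn : ∀ y ∈ Ioo a b, 0 < -δ y := by
      intro y hy
      by_contra hcon
      obtain ⟨z, hz, e⟩ := isPreconnected_Ioo.intermediate_value hy0 hy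
        (hc.mono Ioo_subset_Icc_self) (show (0:ℝ) ∈ Icc (δ y0) (δ y) from ⟨h0, by linarith⟩)
      exact hne z hz e
    have := intervalIntegral.intervalIntegral_pos_of_pos_on hi.neg hn hab
    simp only [Pi.neg_apply, intervalIntegral.integral_neg] at this
    linarith

theorem nt_component {δ : ℝ → ℝ} {x1 x2 x : ℝ} (hc : ContinuousOn δ (Icc x1 x2))
    (hx : x ∈ Icc x1 x2) (h1 : δ x1 = 0) (h2 : δ x2 = 0) (hne : δ x ≠ 0) :
    ∃ a b, x1 ≤ a ∧ a < b ∧ b ≤ x2 ∧ δ a = 0 ∧ δ b = 0 ∧ ∀ y ∈ Ioo a b, δ y ≠ 0 := by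
  have cA : IsCompact (Icc x1 x ∩ δ ⁻¹' {0}) :=
    isCompact_Icc.of_isClosed_subset ((hc.mono (Icc_subset_Icc_right hx.2)).preimage_isClosed_of_isClosed
      isClosed_Icc isClosed_singleton) inter_subset_left
  have cB : IsCompact (Icc x x2 ∩ δ ⁻¹' {0}) :=
    isCompact_Icc.of_isClosed_subset ((hc.mono (Icc_subset_Icc_left hx.1)).preimage_isClosed_of_isClosed
      isClosed_Icc isClosed_singleton) inter_subset_left
  obtain ⟨a, ⟨ha, ha0⟩, hamax⟩ := cA.exists_isGreatest ⟨x1, ⟨le_rfl, hx.1⟩, h1⟩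
  obtain ⟨b, ⟨hb, hb0⟩, hbmin⟩ := cB.exists_isLeast ⟨x2, ⟨hx.2, le_rfl⟩, h2⟩
  have hax : a < x := lt_of_le_of_ne ha.2 fun e => hne (e ▸ ha0)
  refine ⟨a, b, ha.1, hax.trans_le hb.1, hb.2, ha0, hb0, fun y hy hy0 => ?_⟩
  rcases le_total y x with h | h
  · exact absurd (hamax ⟨⟨ha.1.trans hy.1.le, h⟩, hy0⟩) (not_le.2 hy.1)
  · exact absurd (hbmin ⟨⟨h, hy.2.le.trans hb.2⟩, hy0⟩) (not_le.2 hy.2)

theorem BadPair.nt (h : BadPair f g ε K L) (hε : 0 < ε) (hε' : ε ≤ 1 / 10) :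
    ∃ x1 ∈ Icc ε (1 - 3 * ε), ∃ x2 ∈ Icc ε (1 - 3 * ε), F1.top K x1 = F1.top L x1 ∧
      F1.top K x2 = F1.top L x2 ∧ pot K L (x1, F1.top K x1) (x2, F1.top K x2) ≠ 0 := by
  obtain ⟨x1, hx1, e1⟩ := common_chord h.hK h.hL hε h.same (x1 := ε) hε.le (by linarith)
  obtain ⟨x2, hx2, e2⟩ := common_chord h.hK h.hL hε h.same (x1 := 1 - 4 * ε) (by linarith)
    (by linarith)
  have hsub : Icc x1 x2 ⊆ Icc 0 1 :=
    Icc_subset_Icc (by linarith [hx1.1]) (by linarith [hx2.2])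
  have hc : ContinuousOn (fun s => F1.top K s - F1.top L s) (Icc x1 x2) :=
    ((nt_cont h.hK).sub (nt_cont h.hL)).mono hsub
  have hex : ∃ x ∈ Icc x1 x2, F1.top K x - F1.top L x ≠ 0 := by
    by_contra hcon
    push Not at hcon
    exact h.ne (eq_of_slab h.hK h.hL hε h.same (x1 := x1) (x2 := x2) (by linarith [hx1.1])
      (by linarith [hx2.2]) (by linarith [hx1.2, hx2.1]) fun x hx => sub_eq_zero.1 (hcon x hx))
  obtain ⟨x, hx, hne⟩ := hex
  obtain ⟨a, b, ha, hab, hb, a0, b0, hy⟩ := nt_component hc hx (sub_eq_zero.2 e1)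
    (sub_eq_zero.2 e2) hne
  have ha' : a ∈ Icc (0:ℝ) 1 := hsub ⟨ha, hab.le.trans hb⟩
  have hb' : b ∈ Icc (0:ℝ) 1 := hsub ⟨ha.trans hab.le, hb⟩
  have a1 := sub_eq_zero.1 a0
  have b1 := sub_eq_zero.1 b0
  refine ⟨a, ⟨by linarith [hx1.1], by linarith [hx2.2]⟩, b,
    ⟨by linarith [hx1.1], by linarith [hx2.2]⟩, a1, b1, ?_⟩
  have hp := pot_top F1 rfl h.hK.body h.hL.body hab
    (by rwa [h.hK.F1_lo, h.hK.F1_hi]) (by rwa [h.hK.F1_lo, h.hK.F1_hi])
    (by rwa [h.hL.F1_lo, h.hL.F1_hi]) (by rwa [h.hL.F1_lo, h.hL.F1_hi]) a1 b1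
  rw [F1_pt, F1_pt] at hp
  rw [hp]
  exact nt_integral_ne hab (hc.mono (Icc_subset_Icc ha hb)) hy

theorem BadPair.osc (h : BadPair f g ε K L) (hε : 0 < ε) (hε' : ε ≤ 1 / 10) : Osc K L := by
  obtain ⟨x1, hx1, x2, hx2, e1, e2, hp⟩ := h.nt hε hε'
  exact ⟨_, nt_top_Zs h ⟨by linarith [hx1.1], by linarith [hx1.2]⟩ e1, _,
    nt_top_Zs h ⟨by linarith [hx2.1], by linarith [hx2.2]⟩ e2, hp⟩

/-- a segment of `K` passes strictly above `Z` -/
theorem nt_above (hK : Fam f g K) (hε : 0 < ε) {E Q Z : V} (hE : E ∈ K) (hQ : Q ∈ K)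
    (h1 : E.1 < Z.1) (h2 : Z.1 < Q.1) (h3 : w ε E < w ε Z) (h4 : w ε Q = w ε Z) :
    Z.2 < F1.top K Z.1 := by
  have hd : 0 < Q.1 - E.1 := by linarith
  have hl0 : 0 < (Q.1 - Z.1) / (Q.1 - E.1) := div_pos (by linarith) hd
  have hl1 : (Q.1 - Z.1) / (Q.1 - E.1) ≤ 1 := by
    rw [div_le_one hd]; linarith
  have e1 : (Q.1 - Z.1) / (Q.1 - E.1) * E.1 + (1 - (Q.1 - Z.1) / (Q.1 - E.1)) * Q.1 = Z.1 := by
    field_simp; ring
  generalize (Q.1 - Z.1) / (Q.1 - E.1) = l at hl0 hl1 e1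
  have hm := hK.body.conv hE hQ (a := l) (b := 1 - l) hl0.le (by linarith) (by ring)
  have h5 := nt_le_top hK hm
  simp only [Prod.fst_add, Prod.snd_add, Prod.smul_fst, Prod.smul_snd, smul_eq_mul] at h5
  rw [e1] at h5
  refine lt_of_lt_of_le ?_ h5
  simp only [w] at h3 h4
  have h6 := mul_pos hl0 (sub_pos.2 h3)
  refine lt_of_mul_lt_mul_left ?_ hε.le
  nlinarith

theorem nt_left (h : BadPair f g ε K L) (hε : 0 < ε) (hε' : ε ≤ 1 / 10) (h0 : f 0 = 0)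
    {E Z : V} (hE : E ∈ K ∩ L) (hmin : ∀ p ∈ K ∩ L, E.1 ≤ p.1) (hZ : Z ∈ K ∩ L)
    (e : Z.1 = E.1) : Z = E := by
  by_contra hne
  have h1 := face_ext F1.neg (h.pr hε hε') (h.hK.sameX1 h.hL).neg hZ hE hne
    (fun p hp => by simp only [Frame.neg_lev, F1_lev]; linarith [hmin p hp])
    (fun p hp => by simp only [Frame.neg_lev, F1_lev]; linarith [hmin p hp])
  obtain ⟨y, hy⟩ := h.hK.exL
  have h2 := h1 _ (Or.inl hy)
  simp only [Frame.neg_lev, F1_lev] at h2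
  have h3 : Z.1 = 0 := le_antisymm (by linarith) (h.hK.box _ hZ.1).1
  have h4 := h.hK.vdist hZ.1 hE.1 e
  rw [h3, h0, abs_nonpos_iff, sub_eq_zero] at h4
  exact hne (Prod.ext e h4)

theorem nt_face (h : BadPair f g ε K L) (hε : 0 < ε) (hε' : ε ≤ 1 / 10)
    {E Z : V} (hE : E ∈ K ∩ L) (hmin : ∀ p ∈ K ∩ L, w ε E ≤ w ε p) (hZ : Z ∈ K ∩ L)
    (hne : Z ≠ E) (e : w ε Z = w ε E) : E ∈ Zs K L ∧ pot K L Z E = 0 := by
  have h1 := face_ext (F3 ε).neg (h.pr hε hε') h.same.neg hZ hE hne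
    (fun p hp => by simp only [Frame.neg_lev, F3_lev]; linarith [hmin p hp])
    (fun p hp => by simp only [Frame.neg_lev, F3_lev]; linarith [hmin p hp])
  simp only [Frame.neg_lev, F3_lev, neg_le_neg_iff] at h1
  have hni : ∀ M : Set V, Body M → M ⊆ K ∪ L → E ∉ interior M := by
    intro M hM hsub hi
    have h2 := (((F3 ε).mem_interior_iff hM E).1 hi).1.1
    obtain ⟨p, hp, hpe⟩ := (F3 ε).exists_lev_eq_lo hM
    have h3 := h1 p (hsub hp)
    rw [F3_lev] at h2 hpe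
    linarith
  refine ⟨⟨hE.1, hE.2, hni K h.hK.body subset_union_left, hni L h.hL.body subset_union_right⟩,
    pot_zero_of_side (h.pr hε hε') ?_⟩
  have hd : ∀ X : V, det3 Z E X = -(E.2 - Z.2) * (w ε X - w ε Z) := by
    intro X
    simp only [w] at e
    simp only [det3, det, w, Prod.fst_sub, Prod.snd_sub]
    linear_combination (-(X.2 - Z.2)) * e
  rcases le_total 0 (E.2 - Z.2) with hs | hs
  · left
    intro X hX
    rw [hd]
    nlinarith [h1 X hX]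
  · right
    intro X hX
    rw [hd]
    nlinarith [h1 X hX]

theorem nt_step (h : BadPair f g ε K L) (hε : 0 < ε) (hε' : ε ≤ 1 / 10) (h0 : f 0 = 0)
    {E X : V} (hE : E ∈ K ∩ L) (hmin : ∀ p ∈ K ∩ L, E.1 ≤ p.1 ∧ w ε E ≤ w ε p)
    (hX : X ∈ Zs K L) (htop : X.2 = F1.top K X.1) (hx : X.1 ≤ 1 - 3 * ε) (h1 : E.1 < X.1)
    (h3 : w ε E < w ε X) :
    ∃ X' ∈ Zs K L, X'.2 = F1.top K X'.1 ∧ X'.1 < X.1 ∧ pot K L X X' = 0 := by
  have hP := h.pr hε hε'
  have hXM : X ∈ K ∩ L := ⟨hX.1, hX.2.1⟩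
  obtain ⟨R, hR, hR1⟩ := h.hMr hε hε'
  have hi3 : Inner (K ∩ L) (F3 ε).lev X := by
    refine ⟨⟨E, hE, by simpa using h3⟩, R, hR, ?_⟩
    have b1 := (h.hK.box _ hR.1).2.2.2
    have b2 := (h.hK.box _ hX.1).2.2.1
    simp only [F3_lev, w]
    nlinarith
  obtain ⟨hs, -, -, hcase⟩ := sm_gen (F3 ε) hP h.same hX hi3
  have hlt := (F3 ε).bot_lt_top h.hK.body hs
  obtain ⟨hO, hpO⟩ := sm_Zs hP (F3 ε).d_ne h.same hX
  have hw : w ε (sm (K ∩ L) (F3 ε).d X) = w ε X := by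
    have := sm_lev (F3 ε) (K ∩ L) X
    rwa [F3_lev, F3_lev] at this
  generalize sm (K ∩ L) (F3 ε).d X = O at hcase hO hpO hw
  have hOM : O ∈ K ∩ L := ⟨hO.1, hO.2.1⟩
  rcases hcase with ⟨e1, e2⟩ | ⟨e1, e2⟩
  · have hy : O.2 < X.2 := by
      have a1 := congrArg (F3 ε).hgt e1
      have a2 := congrArg (F3 ε).hgt e2
      rw [Frame.hgt_pt, F3_hgt] at a1 a2
      rw [a1, a2]
      exact hlt
    have hOX : O.1 < X.1 := by
      simp only [w] at hw
      nlinarith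
    have hEO : E.1 < O.1 := by
      refine lt_of_le_of_ne (hmin O hOM).1 fun e => ?_
      have := nt_left h hε hε' h0 hE (fun p hp => (hmin p hp).1) hOM e.symm
      rw [this] at hw
      exact h3.ne hw
    have hi1 : Inner (K ∩ L) F1.lev O :=
      ⟨⟨E, hE, by simpa using hEO⟩, X, hXM, by simpa using hOX⟩
    obtain ⟨-, -, -, hcase'⟩ := sm_gen F1 hP (h.hK.sameX1 h.hL) hO hi1
    obtain ⟨hX', hpX'⟩ := sm_Zs hP F1.d_ne (h.hK.sameX1 h.hL) hO
    rcases hcase' with ⟨e3, -⟩ | ⟨-, e4⟩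
    · have a1 := congrArg Prod.snd e3
      rw [F1_pt, F1_lev] at a1
      exact absurd a1 (nt_above h.hK hε hE.1 hX.1 hEO hOX (hw ▸ h3) hw.symm).ne
    · rw [F1_pt, F1_lev] at e4
      rw [e4] at hX' hpX'
      refine ⟨_, hX', rfl, hOX, ?_⟩
      rw [← pot_cocycle hP hX hO hX', hpO, hpX', add_zero]
  · have hy : X.2 < O.2 := by
      have a1 := congrArg (F3 ε).hgt e1
      have a2 := congrArg (F3 ε).hgt e2
      rw [Frame.hgt_pt, F3_hgt] at a1 a2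
      rw [a1, a2]
      exact hlt
    have hOX : X.1 < O.1 := by
      simp only [w] at hw
      nlinarith
    exact absurd htop (nt_above h.hK hε hE.1 hO.1 h1 hOX h3 hw).ne

theorem nt_key (h : BadPair f g ε K L) (hε : 0 < ε) (hε' : ε ≤ 1 / 10) (h0 : f 0 = 0)
    {E X0 : V} (hE : E ∈ K ∩ L) (hmin : ∀ p ∈ K ∩ L, E.1 ≤ p.1 ∧ w ε E ≤ w ε p)
    (hX0 : X0 ∈ Zs K L) (htop : X0.2 = F1.top K X0.1) (hx : X0.1 ≤ 1 - 3 * ε) :
    E ∈ Zs K L ∧ pot K L X0 E = 0 := by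
  have hP := h.pr hε hε'
  have hZ := isCompact_Zs hP
  have hc1 : ContinuousOn (fun X : V => X.2 - F1.top K X.1) (Zs K L) :=
    continuous_snd.continuousOn.sub ((nt_cont h.hK).comp continuous_fst.continuousOn
      fun X hX => ⟨(h.hK.box X hX.1).1, (h.hK.box X hX.1).2.1⟩)
  have hc : ContinuousOn (fun X : V => (X.2 - F1.top K X.1, pot K L X0 X, X.1)) (Zs K L) :=
    hc1.prodMk ((pot_continuousOn hP hX0).prodMk continuous_fst.continuousOn)
  have hA := hZ.of_isClosed_subset (hc.preimage_isClosed_of_isClosed hZ.isClosed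
    ((isClosed_singleton (x := (0:ℝ))).prod ((isClosed_singleton (x := (0:ℝ))).prod
      (isClosed_Iic (a := 1 - 3 * ε))))) inter_subset_left
  obtain ⟨X, ⟨hX, a1, a2, a3⟩, hXmin⟩ := hA.exists_isMinOn
    ⟨X0, hX0, sub_eq_zero.2 htop, pot_self K L X0, hx⟩ continuous_fst.continuousOn
  have b1 : X.2 = F1.top K X.1 := sub_eq_zero.1 a1
  have b2 : pot K L X0 X = 0 := a2
  have b3 : X.1 ≤ 1 - 3 * ε := a3
  have hXM : X ∈ K ∩ L := ⟨hX.1, hX.2.1⟩
  by_cases hXE : X = E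
  · exact hXE ▸ ⟨hX, b2⟩
  rcases (hmin X hXM).1.eq_or_lt with c1 | c1
  · exact absurd (nt_left h hε hε' h0 hE (fun p hp => (hmin p hp).1) hXM c1.symm) hXE
  rcases (hmin X hXM).2.eq_or_lt with c2 | c2
  · obtain ⟨d1, d2⟩ := nt_face h hε hε' hE (fun p hp => (hmin p hp).2) hXM hXE c2.symm
    exact ⟨d1, by rw [← pot_cocycle hP hX0 hX d1, b2, d2, add_zero]⟩
  · obtain ⟨X', hX', d1, d2, d3⟩ := nt_step h hε hε' h0 hE hmin hX b1 b3 c1 c2
    have d4 : pot K L X0 X' = 0 := by rw [← pot_cocycle hP hX0 hX hX', b2, d3, add_zero]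
    have d5 : X.1 ≤ X'.1 := hXmin ⟨hX', sub_eq_zero.2 d1, d4, d2.le.trans b3⟩
    exact absurd d5 (not_le.2 d2)

theorem BadPair.nofix (h : BadPair f g ε K L) (hε : 0 < ε) (hε' : ε ≤ 1 / 10) (h0 : f 0 = 0)
    {E : V} (hE : E ∈ K ∩ L) (hmin : ∀ p ∈ K ∩ L, E.1 ≤ p.1 ∧ w ε E ≤ w ε p) : False := by
  obtain ⟨x1, hx1, x2, hx2, e1, e2, hp⟩ := h.nt hε hε'
  have z1 := nt_top_Zs h ⟨by linarith [hx1.1], by linarith [hx1.2]⟩ e1
  have z2 := nt_top_Zs h ⟨by linarith [hx2.1], by linarith [hx2.2]⟩ e2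
  obtain ⟨hEZ, p1⟩ := nt_key h hε hε' h0 hE hmin z1 rfl hx1.2
  obtain ⟨-, p2⟩ := nt_key h hε hε' h0 hE hmin z2 rfl hx2.2
  have := pot_cocycle (h.pr hε hε') z1 z2 hEZ
  rw [p1, p2, add_zero] at this
  exact hp this

theorem BadPair.nofixR (h : BadPair f g ε K L) (hε : 0 < ε) (hε' : ε ≤ 1 / 10) (h1 : f 1 = 0)
    {E : V} (hE : E ∈ K ∩ L) (hmax : ∀ p ∈ K ∩ L, p.1 ≤ E.1 ∧ w ε p ≤ w ε E) : False := by
  refine h.neg.nofix hε hε' (by simpa [negF] using h1) (E := negP E)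
    ⟨mem_image_of_mem _ hE.1, mem_image_of_mem _ hE.2⟩ fun p hp => ?_
  obtain ⟨q, hq, rfl⟩ := nt_neg_mem hp
  obtain ⟨a1, a2⟩ := hmax q hq
  simp only [w, negP] at a2 ⊢
  constructor <;> linarith

end XR
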