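import Pool.Agent.P.MP_408b1f_gt.Tan
import Pool.Agent.P.MP_408b1f_gt.Cyc

/-! The sandwich lemma: at a common boundary point where K and L have the same one-sided tangent,
the unsigned areas between the two boundary arcs cut off by parallel lines of two directions are
asymptotically equivalent.
Proof of sandwich. By tan_top and tan_unique, top K and top L (frame F') both have right derivative
m' at s' = lev' z with e' + m' d' = tau / lev' tau; similarly in F. Fn F' s' h is the area of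
E'(h) = {lev' p in (s', s'+h), hgt' p strictly between top' K and top' L} (volume_between).
A point p of E'(h) is z + h' tau / lev' tau + o(h') with 0 < h' < h, so lev p - lev z lies in
(0, (1 + eta) h lev tau / lev' tau); p lies in exactly one of K, L (it is above both bottom
functions of F' for small h, by continuity and bot < top); being close to z it is above both bottom
functions of F, so hgt p is weakly between top K (lev p) and top L (lev p). The weak region and the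
strict region differ by two graphs, which are null (volume_eq_lintegral), or compute the area of the
weak region directly. -/

open Set MeasureTheory Filter Topology

noncomputable section

namespace XR

def Fn (F : Frame) (K L : Set V) (s h : ℝ) : ℝ := ∫ t in s..(s + h), |F.top K t - F.top L t|

variable {K L : Set V}

theorem sw_der (F : Frame) (hK : Body K) {z τ : V} (h1 : F.lev z ∈ Ioo (F.lo K) (F.hi K))
    (t1 : F.hgt z = F.top K (F.lev z)) (hτ : IsTan F.o K z τ) :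
    0 < F.lev τ ∧ HasDerivWithinAt (F.top K) (F.hgt τ / F.lev τ) (Ioi (F.lev z)) (F.lev z) := by
  obtain ⟨m, hm, -, ht⟩ := tan_top F hK h1
  rw [← t1, F.pt_lev_hgt] at ht
  obtain ⟨l, hl, rfl⟩ := tan_unique hK F.ho ht hτ
  have e1 : F.lev (l • (F.e + m • F.d)) = l := by
    rw [F.lev_smul, F.lev_add, F.lev_smul]; simp
  have e2 : F.hgt (l • (F.e + m • F.d)) = l * m := by
    rw [F.hgt_smul, F.hgt_add, F.hgt_smul]; simp
  rw [e1, e2, mul_div_cancel_left₀ _ hl.ne']
  exact ⟨hl, hm⟩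

theorem sw_nhds (F : Frame) (hK : Body K) {z : V} (h1 : F.lev z ∈ Ioo (F.lo K) (F.hi K))
    (t1 : F.hgt z = F.top K (F.lev z)) :
    ∀ᶠ p in 𝓝 z, F.lev p ∈ Ioo (F.lo K) (F.hi K) ∧ F.bot K (F.lev p) < F.hgt p := by
  have c1 : ContinuousAt (F.bot K) (F.lev z) :=
    (F.continuousOn_bot hK).continuousAt (Icc_mem_nhds h1.1 h1.2)
  have c2 : ContinuousAt (fun p => F.bot K (F.lev p)) z :=
    ContinuousAt.comp (f := F.lev) c1 F.continuous_lev.continuousAt
  refine (F.continuous_lev.continuousAt.eventually (Ioo_mem_nhds h1.1 h1.2)).and ?_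
  exact c2.eventually_lt F.continuous_hgt.continuousAt (by rw [t1]; exact F.bot_lt_top hK h1)

theorem sw_lin {f : ℝ → ℝ} {m s δ : ℝ} (h : HasDerivWithinAt f m (Ioi s) s) (hδ : 0 < δ) :
    ∀ᶠ u in 𝓝[>] (0:ℝ), ∀ t ∈ Ioo s (s + u), |f t - f s - (t - s) * m| ≤ δ * (t - s) := by
  have h1 := (hasDerivWithinAt_iff_isLittleO.1 h).def hδ
  obtain ⟨u, hu, hsub⟩ := mem_nhdsGT_iff_exists_Ioo_subset.1 h1
  have hu' : (0:ℝ) < u - s := sub_pos.2 hu
  filter_upwards [Ioo_mem_nhdsGT hu'] with v hv t ht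
  have := hsub ⟨ht.1, by linarith [ht.2, hv.2]⟩
  simp only [mem_ofPred_eq, Real.norm_eq_abs, smul_eq_mul] at this
  rwa [abs_of_pos (sub_pos.2 ht.1)] at this

theorem sw_move (F F' : Frame) (hK : Body K) (hL : Body L) {p : V}
    (a1 : F'.lev p ∈ Ioo (F'.lo K) (F'.hi K)) (a2 : F'.bot K (F'.lev p) < F'.hgt p)
    (a3 : F'.hgt p < F'.top K (F'.lev p)) (a4 : F'.top L (F'.lev p) < F'.hgt p)
    (b1 : F.lev p ∈ Ioo (F.lo L) (F.hi L)) (b2 : F.bot L (F.lev p) < F.hgt p) :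
    F.top L (F.lev p) < F.hgt p ∧ F.hgt p < F.top K (F.lev p) := by
  have h1 : p ∈ interior K := (F'.mem_interior_iff hK p).2 ⟨a1, a2, a3⟩
  have h2 : p ∉ L := fun h => absurd ((F'.mem_iff hL p).1 h).2.2 (not_le.2 a4)
  refine ⟨?_, ((F.mem_interior_iff hK p).1 h1).2.2⟩
  by_contra h
  exact h2 ((F.mem_iff hL p).2 ⟨Ioo_subset_Icc_self b1, b2.le, not_lt.1 h⟩)

theorem sw_small {c b : ℝ} (hb : 0 < b) : ∀ᶠ h in 𝓝[>] (0:ℝ), c * h < b := by
  have : Tendsto (fun h : ℝ => c * h) (𝓝[>] 0) (𝓝 (c * 0)) :=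
    (tendsto_const_nhds.mul tendsto_id).mono_left nhdsWithin_le_nhds
  rw [mul_zero] at this
  exact this.eventually (gt_mem_nhds hb)

theorem sw_cont (F : Frame) (hK : Body K) {s h : ℝ} (h1 : s ∈ Ioo (F.lo K) (F.hi K))
    (h2 : h < F.hi K - s) : ContinuousOn (F.top K) (Icc s (s + h)) :=
  (F.continuousOn_top hK).mono (Icc_subset_Icc h1.1.le (by linarith))

theorem sandwich (F F' : Frame) (hoo : F'.o = F.o) (hK : Body K) (hL : Body L) {z τ : V}
    (hK1 : F.lev z ∈ Ioo (F.lo K) (F.hi K)) (hL1 : F.lev z ∈ Ioo (F.lo L) (F.hi L))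
    (hK2 : F'.lev z ∈ Ioo (F'.lo K) (F'.hi K)) (hL2 : F'.lev z ∈ Ioo (F'.lo L) (F'.hi L))
    (tK1 : F.hgt z = F.top K (F.lev z)) (tL1 : F.hgt z = F.top L (F.lev z))
    (tK2 : F'.hgt z = F'.top K (F'.lev z)) (tL2 : F'.hgt z = F'.top L (F'.lev z))
    (hτK : IsTan F.o K z τ) (hτL : IsTan F.o L z τ) {η : ℝ} (hη : 0 < η) :
    ∀ᶠ h in 𝓝[>] (0:ℝ), Fn F' K L (F'.lev z) h ≤
      Fn F K L (F.lev z) ((1 + η) * (F.lev τ / F'.lev τ) * h) := by
  obtain ⟨ha, -⟩ := sw_der F hK hK1 tK1 hτK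
  obtain ⟨ha', dK⟩ := sw_der F' hK hK2 tK2 (hoo ▸ hτK)
  obtain ⟨-, dL⟩ := sw_der F' hL hL2 tL2 (hoo ▸ hτL)
  set q := F.lev τ / F'.lev τ with hq
  have hq0 : 0 < q := div_pos ha ha'
  have hm : 0 < min η 1 := lt_min hη one_pos
  set δ := min η 1 * q / (2 * (|F.lev F'.d| + 1)) with hδ
  have hδ0 : 0 < δ := by positivity
  have hδ1 : δ * |F.lev F'.d| ≤ min η 1 * q / 2 := by
    have : δ * (|F.lev F'.d| + 1) = min η 1 * q / 2 := by rw [hδ]; field_simp
    nlinarith
  obtain ⟨ρ, hρ, hball⟩ := Metric.eventually_nhds_iff.1 (((sw_nhds F hK hK1 tK1).and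
    (sw_nhds F hL hL1 tL1)).and ((sw_nhds F' hK hK2 tK2).and (sw_nhds F' hL hL2 tL2)))
  filter_upwards [self_mem_nhdsWithin, sw_lin dK hδ0, sw_lin dL hδ0,
    sw_small (c := ‖τ‖ / F'.lev τ + δ * ‖F'.d‖) hρ,
    sw_small (c := (1 + η) * q) (sub_pos.2 hK1.2), sw_small (c := (1 + η) * q) (sub_pos.2 hL1.2),
    sw_small (c := 1) (sub_pos.2 hK2.2), sw_small (c := 1) (sub_pos.2 hL2.2)]
    with h h0 lK lL hs1 hs2 hs3 hs4 hs5
  have h0 : 0 < h := h0
  rw [one_mul] at hs4 hs5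
  have hH : 0 < (1 + η) * q * h := by positivity
  have v1 := F'.volume_between (a := F'.lev z) (b := F'.lev z + h) (by linarith)
    (sw_cont F' hK hK2 hs4) (sw_cont F' hL hL2 hs5)
  have v2 := F.volume_between (a := F.lev z) (b := F.lev z + (1 + η) * q * h) (by linarith)
    (sw_cont F hK hK1 hs2) (sw_cont F hL hL1 hs3)
  have hnn : 0 ≤ Fn F K L (F.lev z) ((1 + η) * q * h) :=
    intervalIntegral.integral_nonneg (by linarith) fun _ _ => abs_nonneg _
  rw [← ENNReal.ofReal_le_ofReal_iff hnn, Fn, Fn, ← v1, ← v2]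
  refine measure_mono fun p hp => ?_
  obtain ⟨hp1, hp2, hp3⟩ := hp
  have b1 := lK _ hp1
  have b2 := lL _ hp1
  rw [← tK2] at b1
  rw [← tL2] at b2
  set u := F'.lev p - F'.lev z with hu
  have hu0 : 0 < u := sub_pos.2 hp1.1
  have hu1 : u < h := by rw [hu]; linarith [hp1.2]
  set r := F'.hgt p - F'.hgt z - u * (F'.hgt τ / F'.lev τ) with hr
  have hr1 : |r| ≤ δ * u := by
    rw [abs_le] at b1 b2 ⊢
    rw [min_lt_iff] at hp2
    rw [lt_max_iff] at hp3
    constructor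
    · rcases hp2 with h | h <;> linarith [b1.1, b2.1]
    · rcases hp3 with h | h <;> linarith [b1.2, b2.2]
  have hpz : p - z = (u / F'.lev τ) • τ + r • F'.d := by
    rw [← F'.pt_lev_hgt (p - z), ← F'.pt_lev_hgt ((u / F'.lev τ) • τ + r • F'.d)]
    congr 1
    · rw [F'.lev_sub, F'.lev_add, F'.lev_smul, F'.lev_smul, F'.lev_d, ← hu]
      field_simp
      ring
    · rw [F'.hgt_sub, F'.hgt_add, F'.hgt_smul, F'.hgt_smul, F'.hgt_d, hr]
      ring
  have hd : dist p z < ρ := by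
    rw [dist_eq_norm, hpz]
    refine lt_of_le_of_lt ((norm_add_le _ _).trans ?_) hs1
    rw [norm_smul, norm_smul, Real.norm_eq_abs, Real.norm_eq_abs, abs_of_pos (div_pos hu0 ha'),
      add_mul]
    refine add_le_add ?_ ?_
    · rw [div_mul_eq_mul_div, div_mul_eq_mul_div, mul_comm]
      gcongr
    · calc |r| * ‖F'.d‖ ≤ δ * h * ‖F'.d‖ := by
            gcongr
            exact hr1.trans (by gcongr)
        _ = _ := by ring
  obtain ⟨⟨⟨c1, c2⟩, c3, c4⟩, ⟨c5, c6⟩, c7, c8⟩ := hball hd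
  have hl : F.lev p - F.lev z = u * q + r * F.lev F'.d := by
    rw [← F.lev_sub, hpz, F.lev_add, F.lev_smul, F.lev_smul, hq]
    ring
  have hrd : |r * F.lev F'.d| ≤ min η 1 * q / 2 * u := by
    rw [abs_mul]
    calc |r| * |F.lev F'.d| ≤ δ * u * |F.lev F'.d| := by gcongr
      _ = δ * |F.lev F'.d| * u := by ring
      _ ≤ _ := by gcongr
  rw [abs_le] at hrd
  have hqu : 0 < q * u := mul_pos hq0 hu0
  have hm1 : min η 1 * (q * u) ≤ 1 * (q * u) := by gcongr; exact min_le_right _ _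
  have hm2 : min η 1 * (q * u) ≤ η * (q * u) := by gcongr; exact min_le_left _ _
  have hm3 : (1 + η) * q * u < (1 + η) * q * h := by gcongr
  have hm4 : 0 < η * (q * u) := mul_pos hη hqu
  refine ⟨⟨by linarith [hrd.1], by linarith [hrd.2]⟩, ?_⟩
  rcases le_total (F'.top K (F'.lev p)) (F'.top L (F'.lev p)) with hc | hc
  · rw [min_eq_left hc] at hp2
    rw [max_eq_right hc] at hp3
    have := sw_move F F' hL hK c7 c8 hp3 hp2 c1 c2
    exact ⟨min_lt_of_left_lt this.1, lt_max_of_lt_right this.2⟩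
  · rw [min_eq_right hc] at hp2
    rw [max_eq_left hc] at hp3
    have := sw_move F F' hK hL c5 c6 hp3 hp2 c3 c4
    exact ⟨min_lt_of_right_lt this.1, lt_max_of_lt_left this.2⟩

/-- both inequalities: apply sandwich twice; lev tau and lev' tau are positive -/
theorem sandwich_rel (F F' : Frame) (hoo : F'.o = F.o) (hK : Body K) (hL : Body L) {z τ : V}
    (hK1 : F.lev z ∈ Ioo (F.lo K) (F.hi K)) (hL1 : F.lev z ∈ Ioo (F.lo L) (F.hi L))
    (hK2 : F'.lev z ∈ Ioo (F'.lo K) (F'.hi K)) (hL2 : F'.lev z ∈ Ioo (F'.lo L) (F'.hi L))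
    (tK1 : F.hgt z = F.top K (F.lev z)) (tL1 : F.hgt z = F.top L (F.lev z))
    (tK2 : F'.hgt z = F'.top K (F'.lev z)) (tL2 : F'.hgt z = F'.top L (F'.lev z))
    (hτK : IsTan F.o K z τ) (hτL : IsTan F.o L z τ) :
    ARel (Fn F K L (F.lev z)) (Fn F' K L (F'.lev z)) (F'.lev τ / F.lev τ) := by
  obtain ⟨ha, -⟩ := sw_der F hK hK1 tK1 hτK
  obtain ⟨ha', -⟩ := sw_der F' hK hK2 tK2 (hoo ▸ hτK)
  have hl : 0 < F'.lev τ / F.lev τ := div_pos ha' ha
  refine ⟨hl, fun η hη => ?_⟩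
  have h1 := sandwich F' F hoo.symm hK hL hK2 hL2 hK1 hL1 tK2 tL2 tK1 tL1 (hoo ▸ hτK)
    (hoo ▸ hτL) hη
  have h2 := sandwich F F' hoo hK hL hK1 hL1 hK2 hL2 tK1 tL1 tK2 tL2 hτK hτL hη
  have ht : Tendsto (fun t : ℝ => F'.lev τ / F.lev τ * t) (𝓝[>] 0) (𝓝[>] 0) := by
    refine tendsto_nhdsWithin_iff.2 ⟨?_, ?_⟩
    · have : Tendsto (fun t : ℝ => F'.lev τ / F.lev τ * t) (𝓝[>] 0)
          (𝓝 (F'.lev τ / F.lev τ * 0)) :=
        (tendsto_const_nhds.mul tendsto_id).mono_left nhdsWithin_le_nhds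
      rwa [mul_zero] at this
    · filter_upwards [self_mem_nhdsWithin] with t ht
      exact mul_pos hl ht
  filter_upwards [h1, ht.eventually h2] with t a1 a2
  refine ⟨a1, ?_⟩
  rwa [show (1 + η) * (F.lev τ / F'.lev τ) * (F'.lev τ / F.lev τ * t) = (1 + η) * t by
    field_simp] at a2

theorem germ_Fn (F : Frame) (hK : Body K) (hL : Body L) {s : ℝ}
    (hK1 : s ∈ Ioo (F.lo K) (F.hi K)) (hL1 : s ∈ Ioo (F.lo L) (F.hi L))
    (hpos : ∀ r > (0:ℝ), ∃ s' ∈ Ioo s (s + r), F.top K s' ≠ F.top L s') :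
    Germ (Fn F K L s) := by
  have hr : 0 < min (F.hi K - s) (F.hi L - s) := lt_min (sub_pos.2 hK1.2) (sub_pos.2 hL1.2)
  have hc : ∀ t, t < min (F.hi K - s) (F.hi L - s) →
      ContinuousOn (fun x => |F.top K x - F.top L x|) (Icc s (s + t)) := fun t ht =>
    ((sw_cont F hK hK1 (ht.trans_le (min_le_left _ _))).sub
      (sw_cont F hL hL1 (ht.trans_le (min_le_right _ _)))).abs
  refine ⟨_, hr, fun a ha b hb hab => ?_, fun t ht => ?_, ?_⟩
  · refine intervalIntegral.integral_mono_interval le_rfl (by linarith [ha.1]) (by linarith)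
      (Eventually.of_forall fun _ => abs_nonneg _) ?_
    exact (hc b hb.2).intervalIntegrable_of_Icc (by linarith [hb.1])
  · obtain ⟨s', hs', hne⟩ := hpos t ht.1
    exact intervalIntegral.integral_pos (by linarith [ht.1]) (hc t ht.2)
      (fun _ _ => abs_nonneg _) ⟨s', Ioo_subset_Icc_self hs', abs_pos.2 (sub_ne_zero.2 hne)⟩
  · obtain ⟨C, hC⟩ := isCompact_Icc.exists_bound_of_continuousOn (hc _ (half_lt_self hr))
    have ht : Tendsto (fun h : ℝ => C * h) (𝓝[>] 0) (𝓝 (C * 0)) :=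
      (tendsto_const_nhds.mul tendsto_id).mono_left nhdsWithin_le_nhds
    rw [mul_zero] at ht
    refine squeeze_zero_norm' ?_ ht
    filter_upwards [Ioo_mem_nhdsGT (half_pos hr)] with h hh
    have := intervalIntegral.norm_integral_le_of_norm_le_const (a := s) (b := s + h) (C := C)
      (f := fun x => |F.top K x - F.top L x|) fun x hx => by
        rw [uIoc_of_le (by linarith [hh.1])] at hx
        exact hC x ⟨hx.1.le, by linarith [hx.2, hh.2]⟩
    rwa [add_sub_cancel_left, abs_of_pos hh.1] at this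

/-- near zero the function of the flipped frame is the same -/
theorem Fn_flip (F : Frame) (hK : Body K) (hL : Body L) (hX : SameX F.d K L) {s : ℝ}
    (hK1 : s ∈ Ioo (F.lo K) (F.hi K)) :
    ∀ᶠ h in 𝓝[>] (0:ℝ), Fn F.flip K L s h = Fn F K L s h := by
  filter_upwards [Ioo_mem_nhdsGT (sub_pos.2 hK1.2)] with h hh
  refine intervalIntegral.integral_congr fun t ht => ?_
  rw [uIcc_of_le (by linarith [hh.1])] at ht
  have := (hX.frame hK hL).2.2 t ⟨hK1.1.le.trans ht.1, by linarith [ht.2, hh.2]⟩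
  simp only [Frame.len] at this
  simp only [Frame.flip_top]
  rw [abs_sub_comm]
  congr 1
  linarith

end XR
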