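import Pool.Agent.P.MP_408b1f_gt.EdgeTan
import Pool.Agent.P.MP_408b1f_gt.SW
import Pool.Agent.P.MP_408b1f_gt.Flag1

/-! Normalisation of the tangents along all genuine edges.
Choose tangents a (of K), b (of L) at every P i (orientation 1) and O i (orientation -1)
(exists_tan). If det a b differs from 0 put u = a, v = b / |det a b|. If det a b = 0 (tangential
flag, tan_parallel) put u = v = c a with c > 0 chosen as follows. Nodes: pairs (k, i) with
Inner (K ∩ L) (Fr k).lev (O i); the oriented frame G (k,i) is Fr k if P (pi k i) is top and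
(Fr k).neg otherwise (sm_gen); its germ is Fn (G (k,i)) K L (level of P (pi k i)), a Germ by
flag_pos and germ_Fn. rel_cocycle for Rel n n' l = ARel (germ n) (germ n') l gives nu. At a
tangential start flag z = P (pi k i) = P (pi k' i') two nodes are related with label
lev' a / lev a (sandwich_rel); at a tangential end flag O i the nodes (k,i), (k',i) are related
through the flipped frames (orientation -1, O i is top there; Fn_flip; ARel only depends on germs).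
So c = nu (node) / (G node).lev a does not depend on the node at the flag (take c = 1 if there is
none). Norm equality on a genuine edge: by Gen0.det_eq both ends are tangential or both transversal;
tangential: lev u = nu = lev u' in the oriented frame; transversal: |det| = 1 at both ends and
Gen0.det_eq with positivity. Finally edge_tan for the chosen tangents (IsTan.smul). Note
lev (P (pi k i)) = lev (O i) (sm_lev) and sm of P (pi k i) is O i (sm_sm). -/

open Set MeasureTheory Filter Topology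

noncomputable section

namespace XR

/-- `z` is the common top point and `z'` the common bottom point of an inner chord -/
structure NormNd (G : Frame) (K L : Set V) (z z' : V) : Prop where
  o : G.o = 1
  same : SameX G.d K L
  iK : G.lev z ∈ Ioo (G.lo K) (G.hi K)
  iL : G.lev z ∈ Ioo (G.lo L) (G.hi L)
  tK : G.hgt z = G.top K (G.lev z)
  tL : G.hgt z = G.top L (G.lev z)
  lv : G.lev z' = G.lev z
  bK : G.hgt z' = G.bot K (G.lev z)
  bL : G.hgt z' = G.bot L (G.lev z)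

theorem norm_frame {K L : Set V} (F : Frame) (hF : F.o = 1) (h : Pr K L) (hX : SameX F.d K L)
    {z : V} (hz : z ∈ Zs K L) (hi : Inner (K ∩ L) F.lev z) :
    ∃ G : Frame, (G = F ∨ G = F.neg) ∧ NormNd G K L z (sm (K ∩ L) F.d z) := by
  obtain ⟨h1, h2, h3, h4⟩ := sm_gen F h hX hz hi
  obtain ⟨e1, e2, -⟩ := hX.frame h.bK h.bL
  have h1' : F.lev z ∈ Ioo (F.lo L) (F.hi L) := by rw [← e1, ← e2]; exact h1
  have hl := sm_lev F (K ∩ L) z
  rcases h4 with ⟨a, b⟩ | ⟨a, b⟩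
  · have a' : F.hgt z = F.top K (F.lev z) := (congrArg F.hgt a).trans (F.hgt_pt _ _)
    have b' : F.hgt (sm (K ∩ L) F.d z) = F.bot K (F.lev z) :=
      (congrArg F.hgt b).trans (F.hgt_pt _ _)
    exact ⟨F, Or.inl rfl, hF, hX, h1, h1', a', a'.trans h2, hl, b', b'.trans h3⟩
  · have a' : F.hgt z = F.bot K (F.lev z) := (congrArg F.hgt a).trans (F.hgt_pt _ _)
    have b' : F.hgt (sm (K ∩ L) F.d z) = F.top K (F.lev z) :=
      (congrArg F.hgt b).trans (F.hgt_pt _ _)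
    refine ⟨F.neg, Or.inr rfl, hF, hX.neg, ?_, ?_, ?_, ?_, ?_, ?_, ?_⟩
    · rw [F.neg_lev, F.neg_lo, F.neg_hi]
      exact ⟨neg_lt_neg h1.2, neg_lt_neg h1.1⟩
    · rw [F.neg_lev, F.neg_lo, F.neg_hi]
      exact ⟨neg_lt_neg h1'.2, neg_lt_neg h1'.1⟩
    · rw [F.neg_hgt, F.neg_lev, F.neg_top, neg_neg, a']
    · rw [F.neg_hgt, F.neg_lev, F.neg_top, neg_neg, a', h3]
    · rw [F.neg_lev, F.neg_lev, hl]
    · rw [F.neg_hgt, F.neg_lev, F.neg_bot, neg_neg, b']
    · rw [F.neg_hgt, F.neg_lev, F.neg_bot, neg_neg, b', h2]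

theorem norm_lev_pos {K : Set V} (F : Frame) (hK : Body K) {z τ : V}
    (hs : F.lev z ∈ Ioo (F.lo K) (F.hi K)) (ht : F.hgt z = F.top K (F.lev z))
    (hτ : IsTan F.o K z τ) : 0 < F.lev τ := by
  obtain ⟨m, -, -, hm⟩ := tan_top F hK hs
  rw [← ht, F.pt_lev_hgt] at hm
  obtain ⟨l, hl, rfl⟩ := tan_unique hK F.ho hm hτ
  rw [F.lev_smul, F.lev_add, F.lev_smul, F.lev_e, F.lev_d]
  simpa using hl

theorem norm_congr {A B A' B' : ℝ → ℝ} {l : ℝ} (h : ARel A B l)
    (hA : ∀ᶠ t in 𝓝[>] (0:ℝ), A t = A' t) (hB : ∀ᶠ t in 𝓝[>] (0:ℝ), B t = B' t) :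
    ARel A' B' l := by
  have key : ∀ c : ℝ, 0 < c → Tendsto (fun t : ℝ => c * t) (𝓝[>] 0) (𝓝[>] 0) := fun c hc => by
    refine tendsto_nhdsWithin_iff.2 ⟨?_, ?_⟩
    · have : Tendsto (fun t : ℝ => c * t) (𝓝 0) (𝓝 (c * 0)) :=
        (continuous_const.mul continuous_id).tendsto 0
      rw [mul_zero] at this
      exact this.mono_left nhdsWithin_le_nhds
    · filter_upwards [self_mem_nhdsWithin] with t ht
      exact mul_pos hc ht
  refine ⟨h.1, fun η hη => ?_⟩
  have h1 : 0 < 1 + η := by linarith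
  filter_upwards [h.2 η hη, hA, (key _ (mul_pos h1 h.1)).eventually hB, (key _ h.1).eventually hB,
    (key _ h1).eventually hA] with t a1 a2 a3 a4 a5
  rw [← a2, ← a3, ← a4, ← a5]
  exact a1

theorem NormNd.germ {K L : Set V} {G : Frame} {z z' : V} (H : NormNd G K L z z') (h : Pr K L)
    (ho : Osc K L) (hz : IsFlag 1 K L z) : Germ (Fn G K L (G.lev z)) :=
  germ_Fn G h.bK h.bL H.iK H.iL fun r hr =>
    flag_pos G H.o h ho H.iK H.iL (H.tK.symm.trans H.tL) (by rwa [← H.tK, G.pt_lev_hgt]) hr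

theorem NormNd.start {K L : Set V} {G G' : Frame} {z z' z'' τ : V} (H : NormNd G K L z z')
    (H' : NormNd G' K L z z'') (h : Pr K L) (hK : IsTan 1 K z τ) (hL : IsTan 1 L z τ) :
    0 < G.lev τ ∧ ARel (Fn G K L (G.lev z)) (Fn G' K L (G'.lev z)) (G'.lev τ / G.lev τ) := by
  rw [← H.o] at hK hL
  exact ⟨norm_lev_pos G h.bK H.iK H.tK hK, sandwich_rel G G' (H'.o.trans H.o.symm) h.bK h.bL
    H.iK H.iL H'.iK H'.iL H.tK H.tL H'.tK H'.tL hK hL⟩

theorem NormNd.flip {K L : Set V} {G : Frame} {z z' : V} (H : NormNd G K L z z') :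
    G.flip.lev z' ∈ Ioo (G.flip.lo K) (G.flip.hi K) ∧
      G.flip.lev z' ∈ Ioo (G.flip.lo L) (G.flip.hi L) ∧
      G.flip.hgt z' = G.flip.top K (G.flip.lev z') ∧
      G.flip.hgt z' = G.flip.top L (G.flip.lev z') := by
  simp only [G.flip_lev, G.flip_lo, G.flip_hi, G.flip_hgt, G.flip_top, H.lv]
  exact ⟨H.iK, H.iL, congrArg Neg.neg H.bK, congrArg Neg.neg H.bL⟩

theorem NormNd.stop {K L : Set V} {G G' : Frame} {z w z' τ : V} (H : NormNd G K L z z')
    (H' : NormNd G' K L w z') (h : Pr K L) (hK : IsTan (-1) K z' τ) (hL : IsTan (-1) L z' τ) :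
    0 < G.lev τ ∧ ARel (Fn G K L (G.lev z)) (Fn G' K L (G'.lev w)) (G'.lev τ / G.lev τ) := by
  have e : G.flip.o = -1 := by rw [G.flip_o, H.o]
  have e' : G'.flip.o = -1 := by rw [G'.flip_o, H'.o]
  rw [← e] at hK hL
  obtain ⟨a1, a2, a3, a4⟩ := H.flip
  obtain ⟨b1, b2, b3, b4⟩ := H'.flip
  have h1 := norm_lev_pos G.flip h.bK a1 a3 hK
  have h2 := sandwich_rel G.flip G'.flip (e'.trans e.symm) h.bK h.bL a1 a2 b1 b2 a3 a4 b3 b4 hK hL
  simp only [Frame.flip_lev, H.lv, H'.lv] at h1 h2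
  exact ⟨h1, norm_congr h2 (Fn_flip G h.bK h.bL H.same H.iK) (Fn_flip G' h.bK h.bL H'.same H'.iK)⟩

theorem norm_choose {K L : Set V} (h : Pr K L) {o : ℝ} (ho : o = 1 ∨ o = -1) {p : V}
    (hp : p ∈ Zs K L) {N : Type} (G : N → Frame) (ν : N → ℝ) (hν : ∀ n, 0 < ν n) (S : N → Prop)
    (hrel : ∀ τ, IsTan o K p τ → IsTan o L p τ → ∀ n, S n → ∀ n', S n' →
      0 < (G n).lev τ ∧ ν n' = (G n').lev τ / (G n).lev τ * ν n) :
    ∃ u v, IsTan o K p u ∧ IsTan o L p v ∧
      ((u = v ∧ ∀ n, S n → (G n).lev u = ν n) ∨ det u v ^ 2 = 1) := by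
  obtain ⟨a, ha⟩ := exists_tan h.bK hp.1 hp.2.2.1 ho
  obtain ⟨b, hb⟩ := exists_tan h.bL hp.2.1 hp.2.2.2 ho
  by_cases hd : det a b = 0
  · obtain ⟨l, hl, rfl⟩ := tan_parallel h.int ho ha hb hd
    have hb' := hb.smul (inv_pos.2 hl)
    rw [smul_smul, inv_mul_cancel₀ hl.ne', one_smul] at hb'
    by_cases hS : ∃ n, S n
    · obtain ⟨n0, h0⟩ := hS
      have p0 := (hrel a ha hb' n0 h0 n0 h0).1
      have hc : 0 < ν n0 / (G n0).lev a := div_pos (hν n0) p0
      refine ⟨_, _, ha.smul hc, hb'.smul hc, Or.inl ⟨rfl, fun n hn => ?_⟩⟩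
      rw [Frame.lev_smul, (hrel a ha hb' n0 h0 n hn).2]
      ring
    · exact ⟨a, a, ha, hb', Or.inl ⟨rfl, fun n hn => absurd ⟨n, hn⟩ hS⟩⟩
  · refine ⟨a, _, ha, hb.smul (inv_pos.2 (abs_pos.2 hd)), Or.inr ?_⟩
    have e : det a (|det a b|⁻¹ • b) = |det a b|⁻¹ * det a b := by
      generalize |det a b|⁻¹ = c
      simp only [det, Prod.smul_fst, Prod.smul_snd, smul_eq_mul]
      ring
    rw [e, mul_pow, inv_pow, sq_abs]
    exact inv_mul_cancel₀ (pow_ne_zero 2 hd)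

theorem norm_eq {a b : V → ℝ} (hd : ∀ p q, det p q = a p * b q - b p * a q)
    {d z z' u v u' v' : V} {t len m : ℝ} (h : Gen0 a b d z z' u v u' v' t len m) {Q Q' : Prop}
    (h1 : (u = v ∧ Q) ∨ det u v ^ 2 = 1) (h2 : (u' = v' ∧ Q') ∨ det u' v' ^ 2 = 1)
    (h3 : Q → Q' → a u = a u') : a u * a v = a u' * a v' := by
  have e := h.det_eq hd
  have t2 : t * t = 1 := by rcases h.ht with h | h <;> simp [h]
  have x1 : 0 < a u * a v := by
    have := mul_pos h.hu h.hv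
    rwa [mul_mul_mul_comm, t2, one_mul] at this
  have x2 : 0 < a u' * a v' := by
    have := mul_pos h.hu' h.hv'
    rwa [mul_mul_mul_comm, t2, one_mul] at this
  have d0 : ∀ p : V, det p p = 0 := fun p => by simp only [det]; ring
  rw [div_eq_div_iff x1.ne' x2.ne'] at e
  rcases h1 with ⟨rfl, q⟩ | h1 <;> rcases h2 with ⟨rfl, q'⟩ | h2
  · rw [h3 q q']
  · rw [d0, zero_mul, eq_comm, mul_eq_zero] at e
    rcases e with e | e
    · rw [e] at h2; norm_num at h2
    · exact absurd e x1.ne'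
  · rw [d0, zero_mul, mul_eq_zero] at e
    rcases e with e | e
    · rw [e] at h1; norm_num at h1
    · exact absurd e x2.ne'
  · have e2 := congrArg (· ^ 2) e
    simp only [mul_pow (det _ _), h1, h2, one_mul] at e2
    exact ((pow_left_inj₀ x2.le x1.le two_ne_zero).1 e2).symm

theorem exists_norm {K L : Set V} (h : Pr K L) (ho : Osc K L) {I : Type} (P O : I → V)
    (Fr : Fin 3 → Frame) (hFr : ∀ k, (Fr k).o = 1) (hX : ∀ k, SameX (Fr k).d K L)
    (π : Fin 3 → I → I) (hP : ∀ i, IsFlag 1 K L (P i)) (hO : ∀ i, O i ∈ Zs K L)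
    (he : ∀ k i, P (π k i) = sm (K ∩ L) (Fr k).d (O i)) :
    ∃ u v u' v' : I → V, (∀ i, IsTan 1 K (P i) (u i) ∧ IsTan 1 L (P i) (v i) ∧
      IsTan (-1) K (O i) (u' i) ∧ IsTan (-1) L (O i) (v' i) ∧ Nrm (u i) (v i) ∧
      Nrm (u' i) (v' i)) ∧
      ∀ k i, Inner (K ∩ L) (Fr k).lev (O i) → ∃ t m,
        Gen (Fr k).lev (Fr k).hgt (Fr k).d (P (π k i)) (O i) (u (π k i)) (v (π k i)) (u' i) (v' i)
          t ((Fr k).len K ((Fr k).lev (O i))) m ∧
        SGon ((Fr k).len K) ((Fr k).lo K) ((Fr k).hi K) ((Fr k).lev (O i)) m := by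
  have hM := h.body
  have hPZ : ∀ j, P j ∈ Zs K L := fun j => (hP j).1.1
  have hs : ∀ k i, sm (K ∩ L) (Fr k).d (P (π k i)) = O i := fun k i => by
    rw [he]
    exact sm_sm hM (Fr k).d_ne (Zs.mem_inter (hO i)).1
  have hl : ∀ k i, (Fr k).lev (P (π k i)) = (Fr k).lev (O i) := fun k i => by rw [he, sm_lev]
  have hI : ∀ k i, Inner (K ∩ L) (Fr k).lev (O i) → Inner (K ∩ L) (Fr k).lev (P (π k i)) :=
    fun k i hi => by
      unfold Inner at hi ⊢
      rwa [hl]
  have hG : ∀ n : {n : Fin 3 × I // Inner (K ∩ L) (Fr n.1).lev (O n.2)}, ∃ G : Frame,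
      (G = Fr n.1.1 ∨ G = (Fr n.1.1).neg) ∧ NormNd G K L (P (π n.1.1 n.1.2)) (O n.1.2) :=
    fun n => hs n.1.1 n.1.2 ▸ norm_frame (Fr n.1.1) (hFr _) h (hX _) (hPZ _) (hI _ _ n.2)
  choose G hG1 hG2 using hG
  have hg := fun n => (hG2 n).germ h ho (hP _)
  obtain ⟨ν, hν, hrel⟩ := rel_cocycle
    (fun n n' l => ARel (Fn (G n) K L ((G n).lev (P (π n.1.1 n.1.2))))
      (Fn (G n') K L ((G n').lev (P (π n'.1.1 n'.1.2)))) l)
    (fun _ _ _ h => h.1) (fun n => ARel.refl (hg n)) (fun _ _ _ h => h.symm)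
    (fun a _ c _ _ h h' => ARel.trans (hg a) (hg c) h h') (fun n _ h => ARel.uniq (hg n) h)
  have c1 := fun j => norm_choose h (Or.inl rfl) (hPZ j) G ν hν (fun n => π n.1.1 n.1.2 = j)
    (fun τ hK hL n hn n' hn' => by
      have H := hG2 n
      have H' := hG2 n'
      have r := hrel n n' ((G n').lev τ / (G n).lev τ)
      rw [hn] at H r
      rw [hn'] at H' r
      exact ⟨(H.start H' h hK hL).1, r (H.start H' h hK hL).2⟩)
  have c2 := fun i => norm_choose h (Or.inr rfl) (hO i) G ν hν (fun n => n.1.2 = i)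
    (fun τ hK hL n hn n' hn' => by
      have H := hG2 n
      have H' := hG2 n'
      have H1 : NormNd (G n) K L (P (π n.1.1 n.1.2)) (O i) := hn ▸ H
      have H2 : NormNd (G n') K L (P (π n'.1.1 n'.1.2)) (O i) := hn' ▸ H'
      exact ⟨(H1.stop H2 h hK hL).1, hrel n n' _ (H1.stop H2 h hK hL).2⟩)
  choose u v hu hv huv using c1
  choose u' v' hu' hv' huv' using c2
  refine ⟨u, v, u', v', fun i => ⟨hu i, hv i, hu' i, hv' i, (huv i).imp_left And.left,
    (huv' i).imp_left And.left⟩, fun k i hi => ?_⟩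
  obtain ⟨t, m, g0, sg, -⟩ := edge_tan (Fr k) (hFr k) h (hX k) (hPZ (π k i)) (hI k i hi)
    (hu _) (hv _) (by rw [hs]; exact hu' i) (by rw [hs]; exact hv' i)
  rw [hs, hl] at g0
  rw [hl] at sg
  refine ⟨t, m, ⟨g0, norm_eq (fun p q => by rw [(Fr k).det_eq, hFr, one_mul]) g0 (huv _) (huv' _)
    fun q q' => ?_⟩, sg⟩
  have e := (q ⟨(k, i), hi⟩ rfl).trans (q' ⟨(k, i), hi⟩ rfl).symm
  rcases hG1 ⟨(k, i), hi⟩ with e1 | e1 <;> rw [e1] at e
  · exact e
  · simpa using e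

end XR
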