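import Pool.Agent.P.MP_408b1f_gt.Main

/-! Normalisation to the unit box.
fam_of_box: FrA for F1 and F2 (pt_mem_iff, lev_mem, the simp lemmas F1_pt, F2_pt); take
f = F1.len K0 and g = F2.len K0; SameX.frame (F2.d = (-1, 0), SameX.neg).
core: let [a, b], [c, d] be the ranges of the two coordinates on K0 (F1.lo, F1.hi, F2.lo, F2.hi,
lo_lt_hi) and A the diagonal linear equivalence with entries 1 / (b - a), 1 / (d - c), shifted so
that the image of K0 has ranges [0,1], [0,1]. SameX.image, Body.image; SameX (t • d) follows from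
SameX d for t > 0 (sameX_smul: use a frame, or SameX.frame and sameX_of_len, or
Real.volume_preimage_mul). By no_allbad there is d' different from 0 such that SameX d' is injective
on the family; take d = A.symm d'. -/

open Set MeasureTheory Filter Topology

noncomputable section

namespace XR

theorem sameX_smul {d : V} {K L : Set V} (h : SameX d K L) {t : ℝ} (ht : t ≠ 0) :
    SameX (t • d) K L := fun p => by
  have e : ∀ M : Set V, xray M (t • d) p = ENNReal.ofReal |t⁻¹| * xray M d p := fun M => by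
    unfold xray
    rw [← Real.volume_preimage_mul_right ht]
    refine congrArg volume ?_
    ext s
    simp only [mem_ofPred_eq, mem_preimage, mul_smul]
  rw [e, e, h p]

theorem fam_of_box {K0 : Set V} (h0 : Body K0) (a1 : F1.lo K0 = 0) (b1 : F1.hi K0 = 1)
    (a2 : F2.lo K0 = 0) (b2 : F2.hi K0 = 1) {K : Set V} (hK : Body K) (h1 : SameX (0, 1) K0 K)
    (h2 : SameX (1, 0) K0 K) : Fam (F1.len K0) (F2.len K0) K := by
  have h2' : SameX F2.d K0 K := by simpa using h2.neg
  obtain ⟨l1, u1, e1⟩ := SameX.frame (F := F1) h1 h0 hK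
  obtain ⟨l2, u2, e2⟩ := SameX.frame (F := F2) h2' h0 hK
  rw [a1, b1] at e1
  rw [a2, b2] at e2
  rw [a1] at l1
  rw [b1] at u1
  rw [a2] at l2
  rw [b2] at u2
  refine ⟨hK, fun p hp => ?_, fun x hx => ?_, fun y hy => ?_⟩
  · have c1 := F1.lev_mem hK hp
    have c2 := F2.lev_mem hK hp
    rw [← l1, ← u1, F1_lev] at c1
    rw [← l2, ← u2, F2_lev] at c2
    exact ⟨c1.1, c1.2, c2.1, c2.2⟩
  · have hx' : x ∈ Icc (F1.lo K) (F1.hi K) := by rwa [← l1, ← u1]
    rw [e1 x hx, Frame.len]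
    refine ⟨sub_nonneg.2 (F1.bot_le_top hK hx'), F1.bot K x, fun y' => ?_⟩
    rw [← F1_pt, F1.pt_mem_iff hK hx', add_sub_cancel]
  · have hy' : y ∈ Icc (F2.lo K) (F2.hi K) := by rwa [← l2, ← u2]
    rw [e2 y hy, Frame.len]
    refine ⟨sub_nonneg.2 (F2.bot_le_top hK hy'), -F2.top K y, fun x' => ?_⟩
    have e : ((x', y) : V) = F2.pt y (-x') := by simp
    rw [e, F2.pt_mem_iff hK hy']
    constructor <;> rintro ⟨c1, c2⟩ <;> constructor <;> linarith

private theorem normal_range {F : Frame} {K : Set V} (hK : Body K) {φ : V → V}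
    (hφ : ∀ p, F.lev (φ p) = (F.lev p - F.lo K) / (F.hi K - F.lo K)) :
    F.lo (φ '' K) = 0 ∧ F.hi (φ '' K) = 1 := by
  have hlt : 0 < F.hi K - F.lo K := sub_pos.2 (F.lo_lt_hi hK)
  constructor
  · obtain ⟨p, hp, e⟩ := F.exists_lev_eq_lo hK
    refine IsLeast.csInf_eq ⟨⟨φ p, mem_image_of_mem _ hp, by rw [hφ, e, sub_self, zero_div]⟩, ?_⟩
    rintro _ ⟨_, ⟨q, hq, rfl⟩, rfl⟩
    rw [hφ]
    exact div_nonneg (sub_nonneg.2 (F.lev_mem hK hq).1) hlt.le
  · obtain ⟨p, hp, e⟩ := F.exists_lev_eq_hi hK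
    refine IsGreatest.csSup_eq ⟨⟨φ p, mem_image_of_mem _ hp, by rw [hφ, e, div_self hlt.ne']⟩, ?_⟩
    rintro _ ⟨_, ⟨q, hq, rfl⟩, rfl⟩
    rw [hφ, div_le_one hlt]
    linarith [(F.lev_mem hK hq).2]

theorem core {K0 : Set V} (h0 : Body K0) : ∃ d : V, d ≠ 0 ∧ ∀ K L : Set V, Body K → Body L →
    SameX (0, 1) K0 K → SameX (1, 0) K0 K → SameX (0, 1) K0 L → SameX (1, 0) K0 L →
    SameX d K L → K = L := by
  by_contra hcon
  push Not at hcon
  have p1 : 0 < F1.hi K0 - F1.lo K0 := sub_pos.2 (F1.lo_lt_hi h0)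
  have p2 : 0 < F2.hi K0 - F2.lo K0 := sub_pos.2 (F2.lo_lt_hi h0)
  let A : V ≃ₗ[ℝ] V := (LinearEquiv.smulOfNeZero ℝ ℝ _ (inv_ne_zero p1.ne')).prodCongr
    (LinearEquiv.smulOfNeZero ℝ ℝ _ (inv_ne_zero p2.ne'))
  have hA : ∀ p : V, A p = ((F1.hi K0 - F1.lo K0)⁻¹ * p.1, (F2.hi K0 - F2.lo K0)⁻¹ * p.2) :=
    fun p => rfl
  let c : V := (-(F1.lo K0 / (F1.hi K0 - F1.lo K0)), -(F2.lo K0 / (F2.hi K0 - F2.lo K0)))
  obtain ⟨a1, b1⟩ := normal_range (F := F1) h0 (φ := fun p => A p + c) fun p => by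
    simp only [F1_lev, hA, c, Prod.fst_add]
    ring
  obtain ⟨a2, b2⟩ := normal_range (F := F2) h0 (φ := fun p => A p + c) fun p => by
    simp only [F2_lev, hA, c, Prod.snd_add]
    ring
  have fam : ∀ K, Body K → SameX (0, 1) K0 K → SameX (1, 0) K0 K →
      Fam (F1.len ((fun p => A p + c) '' K0)) (F2.len ((fun p => A p + c) '' K0))
        ((fun p => A p + c) '' K) := fun K hK h1 h2 => by
    refine fam_of_box (h0.image A c) a1 b1 a2 b2 (hK.image A c) ?_ ?_
    · have h := sameX_smul (h1.image A c) p2.ne'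
      have e : (F2.hi K0 - F2.lo K0) • A (0, 1) = ((0, 1) : V) := by
        rw [hA]
        ext
        · simp
        · simp [mul_inv_cancel₀ p2.ne']
      rwa [e] at h
    · have h := sameX_smul (h2.image A c) p1.ne'
      have e : (F1.hi K0 - F1.lo K0) • A (1, 0) = ((1, 0) : V) := by
        rw [hA]
        ext
        · simp [mul_inv_cancel₀ p1.ne']
        · simp
      rwa [e] at h
  refine no_allbad (f := F1.len ((fun p => A p + c) '' K0))
    (g := F2.len ((fun p => A p + c) '' K0)) fun d hd => ?_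
  obtain ⟨K, L, hK, hL, k1, k2, l1, l2, hs, hne⟩ :=
    hcon (A.symm d) fun e => hd (by rw [← A.apply_symm_apply d, e, map_zero])
  refine ⟨_, _, fam K hK k1 k2, fam L hL l1 l2, fun e => hne ?_, ?_⟩
  · exact (show Function.Injective fun p : V => A p + c from
      fun p q h => A.injective (add_right_cancel h)).image_injective e
  · have h := hs.image A c
    rwa [A.apply_symm_apply] at h

end XR
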