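import Pool.Agent.P.MP_408b1f_gt.FrB

/-! Caps and the potential. det3 P Q R < 0 means that P, Q, R is a clockwise triple; Hl P Q is the
open half plane to the left of P to Q.
tri_interior: the affine map (s,t) to P + s (Q - P) + t (R - P) is a homeomorphism.
inside_tri: barycentric coordinates are proportional to the three determinants.
cap_tri: up to the three null lines (volume_line), K ∩ Hl P R is the disjoint union of
K ∩ Hl P Q, K ∩ Hl Q R and the open triangle. Use inside_tri to exclude that P, Q or R is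
strictly inside a triangle with vertices in K (for example X ∈ K left of both P Q and Q R puts Q
inside the triangle P, X, R).
collinear_side: the middle point lies in the open segment between two points of K; if K had points
strictly on both sides the middle point would be interior; both bodies lie on the side of a common
interior point.
pot_cocycle: cases: two points equal; clockwise (cap_tri for K and L); anticlockwise (use the
clockwise case for P, R, Q and antisymmetry); collinear and distinct (all three potentials vanish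
by collinear_side and pot_zero_of_side). -/

open Set MeasureTheory Filter Topology

noncomputable section

namespace XR

variable {K L M : Set V} {P Q R : V}

theorem det3_cyc (P Q R : V) : det3 P Q R = det3 Q R P := by simp [det3, det]; ring
theorem det3_swap (P Q R : V) : det3 P Q R = -det3 P R Q := by simp [det3, det]; ring
theorem det3_swap' (P Q R : V) : det3 P Q R = -det3 Q P R := by simp [det3, det]; ring

theorem pot1_det3_sum (P Q R X : V) : det3 P Q X + det3 Q R X + det3 R P X = det3 P Q R := by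
  simp [det3, det]; ring

theorem pot1_continuous_det3 (P Q : V) : Continuous fun X : V => det3 P Q X := by
  unfold det3 det; fun_prop

theorem pot1_isOpen_tri (P Q R : V) :
    IsOpen {X : V | det3 P Q X < 0 ∧ det3 Q R X < 0 ∧ det3 R P X < 0} :=
  (isOpen_lt (pot1_continuous_det3 P Q) continuous_const).inter
    ((isOpen_lt (pot1_continuous_det3 Q R) continuous_const).inter
      (isOpen_lt (pot1_continuous_det3 R P) continuous_const))

theorem pot1_tri_subset (hK : Convex ℝ K) (hP : P ∈ K) (hQ : Q ∈ K) (hR : R ∈ K) :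
    {X : V | det3 P Q X < 0 ∧ det3 Q R X < 0 ∧ det3 R P X < 0} ⊆ K := by
  rintro X ⟨h1, h2, h3⟩
  have hs := pot1_det3_sum P Q R X
  have hD : det3 P Q R < 0 := by linarith
  have hD' : det3 P Q R ≠ 0 := hD.ne
  have e : X = (det3 Q R X / det3 P Q R) • P + (det3 R P X / det3 P Q R) • Q +
      (det3 P Q X / det3 P Q R) • R := by
    ext
    · simp only [Prod.fst_add, Prod.smul_fst, smul_eq_mul]
      field_simp
      simp [det3, det]; ring
    · simp only [Prod.snd_add, Prod.smul_snd, smul_eq_mul]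
      field_simp
      simp [det3, det]; ring
  have a0 : 0 ≤ det3 Q R X / det3 P Q R := (div_pos_of_neg_of_neg h2 hD).le
  have b0 : 0 ≤ det3 R P X / det3 P Q R := (div_pos_of_neg_of_neg h3 hD).le
  have c0 : 0 ≤ det3 P Q X / det3 P Q R := (div_pos_of_neg_of_neg h1 hD).le
  have hsum : det3 Q R X / det3 P Q R + det3 R P X / det3 P Q R + det3 P Q X / det3 P Q R = 1 := by
    field_simp; linarith
  have := hK.sum_mem (t := Finset.univ)
    (w := ![det3 Q R X / det3 P Q R, det3 R P X / det3 P Q R, det3 P Q X / det3 P Q R])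
    (z := ![P, Q, R]) (by intro i _; fin_cases i <;> assumption)
    (by rw [Fin.sum_univ_three]; exact hsum) (by intro i _; fin_cases i <;> assumption)
  rw [Fin.sum_univ_three] at this
  rw [e]
  exact this

theorem pot1_inside (hK : Convex ℝ K) (hP : P ∈ K) (hQ : Q ∈ K) (hR : R ∈ K) {X : V}
    (h1 : det3 P Q X < 0) (h2 : det3 Q R X < 0) (h3 : det3 R P X < 0) : X ∈ interior K :=
  interior_maximal (pot1_tri_subset hK hP hQ hR) (pot1_isOpen_tri P Q R) ⟨h1, h2, h3⟩

theorem pot1_det3_combo (P Q R : V) {a b c : ℝ} (habc : a + b + c = 1) :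
    det3 P Q (a • P + b • Q + c • R) = c * det3 P Q R ∧
      det3 Q R (a • P + b • Q + c • R) = a * det3 P Q R ∧
      det3 R P (a • P + b • Q + c • R) = b * det3 P Q R := by
  have hc : c = 1 - a - b := by linarith
  subst hc
  refine ⟨?_, ?_, ?_⟩ <;> simp [det3, det] <;> ring

theorem tri_interior (hK : Convex ℝ K) (hP : P ∈ K) (hQ : Q ∈ K) (hR : R ∈ K)
    (hd : det3 P Q R ≠ 0) {a b c : ℝ} (ha : 0 < a) (hb : 0 < b) (hc : 0 < c)
    (habc : a + b + c = 1) : a • P + b • Q + c • R ∈ interior K := by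
  obtain ⟨e1, e2, e3⟩ := pot1_det3_combo P Q R habc
  rcases lt_or_gt_of_ne hd with h | h
  · refine pot1_inside hK hP hQ hR ?_ ?_ ?_
    · rw [e1]; exact mul_neg_of_pos_of_neg hc h
    · rw [e2]; exact mul_neg_of_pos_of_neg ha h
    · rw [e3]; exact mul_neg_of_pos_of_neg hb h
  · refine pot1_inside hK hP hR hQ ?_ ?_ ?_
    · rw [det3_swap', e3]; exact neg_neg_of_pos (mul_pos hb h)
    · rw [det3_swap', e2]; exact neg_neg_of_pos (mul_pos ha h)
    · rw [det3_swap', e1]; exact neg_neg_of_pos (mul_pos hc h)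

theorem inside_tri (hK : Convex ℝ K) (hP : P ∈ K) (hQ : Q ∈ K) (hR : R ∈ K) {X : V}
    (h1 : det3 P Q X < 0) (h2 : det3 Q R X < 0) (h3 : det3 R P X < 0) : X ∈ interior K :=
  pot1_inside hK hP hQ hR h1 h2 h3

theorem cw_trans (hM : Convex ℝ M) {a b c d : V} (ha : a ∉ interior M) (hb : b ∈ M) (hc : c ∈ M)
    (hd : d ∈ M) (h1 : det3 a b c < 0) (h2 : det3 a c d < 0) (h3 : det3 a b d ≠ 0) :
    det3 a b d < 0 := by
  refine lt_of_le_of_ne (not_lt.1 fun h => ha ?_) h3
  refine inside_tri hM hb hc hd ?_ ?_ ?_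
  · rwa [← det3_cyc]
  · rwa [← det3_cyc]
  · rw [← det3_cyc, det3_swap]; exact neg_neg_of_pos h

theorem cap_nonneg (K : Set V) (P Q : V) : 0 ≤ cap K P Q := ENNReal.toReal_nonneg

theorem pot1_measurableSet_Hl (P Q : V) : MeasurableSet (Hl P Q) :=
  (isOpen_lt continuous_const (pot1_continuous_det3 P Q)).measurableSet

theorem pot1_ae_det3_ne (h : P ≠ Q) : ∀ᵐ X : V, det3 P Q X ≠ 0 := by
  rw [ae_iff]
  simpa using volume_line h

theorem Body.pot1_ne_top (hK : Body K) {A : Set V} (hA : A ⊆ K) : volume A ≠ ⊤ :=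
  ((measure_mono hA).trans_lt hK.comp.measure_lt_top).ne

theorem cap_add_cap (hK : Body K) (h : P ≠ Q) :
    cap K P Q + cap K Q P = (volume K).toReal := by
  unfold cap
  rw [← ENNReal.toReal_add (hK.pot1_ne_top inter_subset_left) (hK.pot1_ne_top inter_subset_left),
    ← measure_union _ (hK.comp.measurableSet.inter (pot1_measurableSet_Hl Q P))]
  · congr 1
    apply measure_congr
    filter_upwards [pot1_ae_det3_ne h] with X hX
    apply propext
    change X ∈ (K ∩ Hl P Q) ∪ (K ∩ Hl Q P) ↔ X ∈ K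
    constructor
    · rintro (h | h) <;> exact h.1
    · intro hXK
      rcases lt_or_gt_of_ne hX with h1 | h1
      · right
        refine ⟨hXK, ?_⟩
        change 0 < det3 Q P X
        rw [det3_swap']; linarith
      · exact Or.inl ⟨hXK, h1⟩
  · rw [Set.disjoint_left]
    rintro X ⟨-, h1⟩ ⟨-, h2⟩
    have h1' : 0 < det3 P Q X := h1
    have h2' : 0 < det3 Q P X := h2
    rw [det3_swap'] at h2'
    linarith

def triA (P Q R : V) : ℝ :=
  (volume {X : V | det3 P Q X < 0 ∧ det3 Q R X < 0 ∧ det3 R P X < 0}).toReal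

theorem triA_pos (h : det3 P Q R < 0) : 0 < triA P Q R := by
  unfold triA
  refine ENNReal.toReal_pos ?_ ?_
  · refine ((pot1_isOpen_tri P Q R).measure_pos volume
      ⟨(1 / 3 : ℝ) • P + (1 / 3 : ℝ) • Q + (1 / 3 : ℝ) • R, ?_⟩).ne'
    obtain ⟨e1, e2, e3⟩ := pot1_det3_combo P Q R (a := 1 / 3) (b := 1 / 3) (c := 1 / 3) (by norm_num)
    refine ⟨?_, ?_, ?_⟩
    · rw [e1]; linarith
    · rw [e2]; linarith
    · rw [e3]; linarith
  · have hs := pot1_tri_subset (K := Metric.closedBall (0 : V) (‖P‖ + ‖Q‖ + ‖R‖)) (P := P) (Q := Q)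
      (R := R) (convex_closedBall _ _)
      (by rw [mem_closedBall_zero_iff]; linarith [norm_nonneg Q, norm_nonneg R])
      (by rw [mem_closedBall_zero_iff]; linarith [norm_nonneg P, norm_nonneg R])
      (by rw [mem_closedBall_zero_iff]; linarith [norm_nonneg P, norm_nonneg Q])
    exact ((measure_mono hs).trans_lt (isCompact_closedBall _ _).measure_lt_top).ne

theorem pot1_not_two_pos (hK : Convex ℝ K) (hP : P ∈ K) (hR : R ∈ K) (hQ' : Q ∉ interior K)
    (h : det3 P Q R < 0) {X : V} (hX : X ∈ K) (h1 : 0 < det3 P Q X) (h2 : 0 < det3 Q R X) :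
    False := by
  refine hQ' (inside_tri hK hP hX hR ?_ ?_ ?_)
  · rw [det3_swap]; linarith
  · rw [det3_swap, det3_cyc]; linarith
  · rw [det3_cyc]; exact h

theorem cap_tri (hK : Body K) (hP : P ∈ K) (hQ : Q ∈ K) (hR : R ∈ K) (hP' : P ∉ interior K)
    (hQ' : Q ∉ interior K) (hR' : R ∉ interior K) (h : det3 P Q R < 0) :
    cap K P R = cap K P Q + cap K Q R + triA P Q R := by
  have hPQ : P ≠ Q := by rintro rfl; simp [det3, det] at h
  have hQR : Q ≠ R := by rintro rfl; simp [det3, det, mul_comm] at h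
  have hRP : R ≠ P := by rintro rfl; simp [det3, det] at h
  have h' : det3 Q R P < 0 := by rwa [← det3_cyc]
  have h'' : det3 R P Q < 0 := by rwa [← det3_cyc]
  have hT := pot1_tri_subset hK.conv hP hQ hR
  unfold cap triA
  rw [← ENNReal.toReal_add (hK.pot1_ne_top inter_subset_left) (hK.pot1_ne_top inter_subset_left),
    ← measure_union _ (hK.comp.measurableSet.inter (pot1_measurableSet_Hl Q R)),
    ← ENNReal.toReal_add (hK.pot1_ne_top (union_subset inter_subset_left inter_subset_left))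
      (hK.pot1_ne_top hT), ← measure_union _ (pot1_isOpen_tri P Q R).measurableSet]
  · congr 1
    apply measure_congr
    filter_upwards [pot1_ae_det3_ne hPQ, pot1_ae_det3_ne hQR, pot1_ae_det3_ne hRP] with X h1 h2 h3
    apply propext
    change (X ∈ K ∧ 0 < det3 P R X) ↔ ((X ∈ K ∧ 0 < det3 P Q X) ∨ (X ∈ K ∧ 0 < det3 Q R X)) ∨
      (det3 P Q X < 0 ∧ det3 Q R X < 0 ∧ det3 R P X < 0)
    rw [det3_swap' P R X, neg_pos]
    constructor
    · rintro ⟨hX, h4⟩
      rcases lt_or_gt_of_ne h1 with h1 | h1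
      · rcases lt_or_gt_of_ne h2 with h2 | h2
        · exact Or.inr ⟨h1, h2, h4⟩
        · exact Or.inl (Or.inr ⟨hX, h2⟩)
      · exact Or.inl (Or.inl ⟨hX, h1⟩)
    · rintro ((⟨hX, h4⟩ | ⟨hX, h4⟩) | h4)
      · exact ⟨hX, lt_of_le_of_ne
          (not_lt.1 fun h5 => pot1_not_two_pos hK.conv hR hQ hP' h'' hX h5 h4) h3⟩
      · exact ⟨hX, lt_of_le_of_ne
          (not_lt.1 fun h5 => pot1_not_two_pos hK.conv hQ hP hR' h' hX h4 h5) h3⟩
      · exact ⟨hT h4, h4.2.2⟩
  · rw [Set.disjoint_left]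
    rintro X (⟨-, h1⟩ | ⟨-, h1⟩) ⟨h2, h3, -⟩
    · exact lt_asymm h2 h1
    · exact lt_asymm h3 h1
  · rw [Set.disjoint_left]
    rintro X ⟨hX, h1⟩ ⟨-, h2⟩
    exact pot1_not_two_pos hK.conv hP hR hQ' h hX h1 h2

theorem pot1_exists_param (h : P ≠ Q) {X : V} (h0 : det3 P Q X = 0) :
    ∃ s : ℝ, X = P + s • (Q - P) := by
  have h1 : Q.1 - P.1 ≠ 0 ∨ Q.2 - P.2 ≠ 0 := by
    by_contra hc
    push Not at hc
    exact h (Prod.ext (by linarith [hc.1]) (by linarith [hc.2]))
  simp only [det3, det, Prod.fst_sub, Prod.snd_sub] at h0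
  rcases h1 with h1 | h1
  · refine ⟨(X.1 - P.1) / (Q.1 - P.1), Prod.ext ?_ ?_⟩
    · simp only [Prod.fst_add, Prod.smul_fst, Prod.fst_sub, smul_eq_mul]
      field_simp; ring
    · simp only [Prod.snd_add, Prod.smul_snd, Prod.snd_sub, smul_eq_mul]
      field_simp; linarith
  · refine ⟨(X.2 - P.2) / (Q.2 - P.2), Prod.ext ?_ ?_⟩
    · simp only [Prod.fst_add, Prod.smul_fst, Prod.fst_sub, smul_eq_mul]
      field_simp; linarith
    · simp only [Prod.snd_add, Prod.smul_snd, Prod.snd_sub, smul_eq_mul]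
      field_simp; ring

theorem pot1_between_interior (hK : Convex ℝ K) (P d : V) {u m x : ℝ} (hx : P + x • d ∈ interior K)
    (hu : P + u • d ∈ K) (h : (x < m ∧ m < u) ∨ (u < m ∧ m < x)) : P + m • d ∈ interior K := by
  have hne : u - x ≠ 0 := by
    rcases h with h | h
    · linarith [h.1, h.2, (by linarith [h.1, h.2] : 0 < u - x).ne']
    · exact (by linarith [h.1, h.2] : u - x < 0).ne
  have ha : 0 < (u - m) / (u - x) := by
    rcases h with h | h
    · exact div_pos (by linarith [h.2]) (by linarith [h.1, h.2])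
    · exact div_pos_of_neg_of_neg (by linarith [h.1]) (by linarith [h.1, h.2])
  have hb : 0 ≤ (m - x) / (u - x) := by
    rcases h with h | h
    · exact (div_pos (by linarith [h.1]) (by linarith [h.1, h.2])).le
    · exact (div_pos_of_neg_of_neg (by linarith [h.2]) (by linarith [h.1, h.2])).le
  have hab : (u - m) / (u - x) + (m - x) / (u - x) = 1 := by field_simp; ring
  have := hK.combo_interior_self_mem_interior hx hu ha hb hab
  have e : ((u - m) / (u - x)) • (P + x • d) + ((m - x) / (u - x)) • (P + u • d) =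
      P + m • d := by
    have e2 : (u - m) / (u - x) * x + (m - x) / (u - x) * u = m := by field_simp; ring
    rw [smul_add, smul_add, smul_smul, smul_smul, add_add_add_comm, ← add_smul, ← add_smul, hab,
      e2, one_smul]
  rwa [e] at this

theorem pot1_three_not_interior (hK : Convex ℝ K) (P d : V) {a m b x : ℝ} (ham : a < m) (hmb : m < b)
    (ha : P + a • d ∈ K) (hb : P + b • d ∈ K) (hm : P + m • d ∉ interior K) :
    P + x • d ∉ interior K := by
  intro hx
  rcases lt_trichotomy x m with h | h | h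
  · exact hm (pot1_between_interior hK P d hx hb (Or.inl ⟨h, hmb⟩))
  · exact hm (h ▸ hx)
  · exact hm (pot1_between_interior hK P d hx ha (Or.inr ⟨ham, h⟩))

theorem pot1_line_not_interior (hK : Convex ℝ K) (hP : P ∈ K) (hQ : Q ∈ K) (hR : R ∈ K)
    (hP' : P ∉ interior K) (hQ' : Q ∉ interior K) (hR' : R ∉ interior K)
    (hPQ : P ≠ Q) (hQR : Q ≠ R) (hPR : P ≠ R) (h0 : det3 P Q R = 0) {X : V}
    (hX : det3 P Q X = 0) : X ∉ interior K := by
  obtain ⟨r, hr⟩ := pot1_exists_param hPQ h0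
  obtain ⟨x, rfl⟩ := pot1_exists_param hPQ hX
  have e0 : P + (0 : ℝ) • (Q - P) = P := by simp
  have e1 : P + (1 : ℝ) • (Q - P) = Q := by simp
  have r0 : r ≠ 0 := by rintro rfl; exact hPR (by rw [hr, e0])
  have r1 : r ≠ 1 := by rintro rfl; exact hQR (by rw [hr, e1])
  rcases lt_or_gt_of_ne r0 with h1 | h1
  · exact pot1_three_not_interior hK P (Q - P) h1 zero_lt_one (hr ▸ hR) (e1.symm ▸ hQ) (e0.symm ▸ hP')
  · rcases lt_or_gt_of_ne r1 with h2 | h2
    · exact pot1_three_not_interior hK P (Q - P) h1 h2 (e0.symm ▸ hP) (e1.symm ▸ hQ) (hr ▸ hR')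
    · exact pot1_three_not_interior hK P (Q - P) zero_lt_one h2 (e0.symm ▸ hP) (hr ▸ hR)
        (e1.symm ▸ hQ')

theorem pot1_same_side (hK : Convex ℝ K) (hl : ∀ X, det3 P Q X = 0 → X ∉ interior K) {z X : V}
    (hz : z ∈ interior K) (hX : X ∈ K) : 0 ≤ det3 P Q z * det3 P Q X := by
  by_contra hc
  push Not at hc
  set a := det3 P Q z with ha
  set b := det3 P Q X with hb
  have hne : b - a ≠ 0 := by
    intro h
    have : b = a := by linarith
    rw [this] at hc
    nlinarith [mul_self_nonneg a]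
  have hb0 : b ≠ 0 := by rintro h; rw [h] at hc; simp at hc
  have h1 : 0 < b / (b - a) := by
    have : 0 < b * (b - a) := by nlinarith [mul_self_pos.2 hb0]
    exact div_pos_iff.2 (mul_pos_iff.1 this)
  have h2 : 0 ≤ -a / (b - a) := by
    have : 0 ≤ -a * (b - a) := by nlinarith [mul_self_nonneg a]
    exact div_nonneg_iff.2 (mul_nonneg_iff.1 this)
  have h3 : b / (b - a) + -a / (b - a) = 1 := by field_simp; ring
  refine hl _ ?_ (hK.combo_interior_self_mem_interior hz hX h1 h2 h3)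
  have e : ∀ s t : ℝ, s + t = 1 → det3 P Q (s • z + t • X) = s * a + t * b := by
    intro s t hst
    have : t = 1 - s := by linarith
    subst this
    simp [ha, hb, det3, det]; ring
  rw [e _ _ h3]
  field_simp; ring

theorem collinear_side (h : Pr K L) (hP : P ∈ Zs K L) (hQ : Q ∈ Zs K L) (hR : R ∈ Zs K L)
    (hPQ : P ≠ Q) (hQR : Q ≠ R) (hPR : P ≠ R) (h0 : det3 P Q R = 0) :
    (∀ X ∈ K ∪ L, det3 P Q X ≤ 0) ∨ (∀ X ∈ K ∪ L, 0 ≤ det3 P Q X) := by
  obtain ⟨z, hz⟩ := h.int
  rw [interior_inter] at hz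
  have lK : ∀ X, det3 P Q X = 0 → X ∉ interior K := fun X hX =>
    pot1_line_not_interior h.bK.conv hP.1 hQ.1 hR.1 hP.2.2.1 hQ.2.2.1 hR.2.2.1 hPQ hQR hPR h0 hX
  have lL : ∀ X, det3 P Q X = 0 → X ∉ interior L := fun X hX =>
    pot1_line_not_interior h.bL.conv hP.2.1 hQ.2.1 hR.2.1 hP.2.2.2 hQ.2.2.2 hR.2.2.2 hPQ hQR hPR h0 hX
  have key : ∀ X ∈ K ∪ L, 0 ≤ det3 P Q z * det3 P Q X := by
    rintro X (hX | hX)
    · exact pot1_same_side h.bK.conv lK hz.1 hX
    · exact pot1_same_side h.bL.conv lL hz.2 hX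
  have hz0 : det3 P Q z ≠ 0 := fun h1 => lK z h1 hz.1
  rcases lt_or_gt_of_ne hz0 with h1 | h1
  · left
    intro X hX
    by_contra hc
    exact absurd (key X hX) (not_le.2 (mul_neg_of_neg_of_pos h1 (not_le.1 hc)))
  · right
    intro X hX
    exact (mul_nonneg_iff_of_pos_left h1).1 (key X hX)

theorem pot_self (K L : Set V) (P : V) : pot K L P P = 0 := by
  have : Hl P P = ∅ := by
    ext X
    simp [Hl, det3, det]
  simp [pot, cap, this]

theorem pot_antisymm (h : Pr K L) (P Q : V) : pot K L Q P = -pot K L P Q := by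
  by_cases hPQ : P = Q
  · subst hPQ
    simp [pot_self]
  · have h1 := cap_add_cap h.bK hPQ
    have h2 := cap_add_cap h.bL hPQ
    rw [h.vol] at h1
    unfold pot
    linarith

theorem pot_swap (K L : Set V) (P Q : V) : pot L K P Q = -pot K L P Q := by simp [pot]

theorem pot1_pot_zero_of_le (hs : ∀ X ∈ K ∪ L, det3 P Q X ≤ 0) : pot K L P Q = 0 := by
  have h1 : K ∩ Hl P Q = ∅ := by
    ext X
    exact ⟨fun hX => absurd (hs X (Or.inl hX.1)) (not_le.2 hX.2), False.elim⟩
  have h2 : L ∩ Hl P Q = ∅ := by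
    ext X
    exact ⟨fun hX => absurd (hs X (Or.inr hX.1)) (not_le.2 hX.2), False.elim⟩
  simp [pot, cap, h1, h2]

theorem pot_zero_of_side (h : Pr K L)
    (hs : (∀ X ∈ K ∪ L, det3 P Q X ≤ 0) ∨ (∀ X ∈ K ∪ L, 0 ≤ det3 P Q X)) :
    pot K L P Q = 0 := by
  rcases hs with hs | hs
  · exact pot1_pot_zero_of_le hs
  · rw [pot_antisymm h, pot1_pot_zero_of_le, neg_zero]
    intro X hX
    rw [det3_swap']
    linarith [hs X hX]

theorem pot1_pot_cocycle_cw (h : Pr K L) (hP : P ∈ Zs K L) (hQ : Q ∈ Zs K L) (hR : R ∈ Zs K L)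
    (hd : det3 P Q R < 0) : pot K L P Q + pot K L Q R = pot K L P R := by
  have h1 := cap_tri h.bK hP.1 hQ.1 hR.1 hP.2.2.1 hQ.2.2.1 hR.2.2.1 hd
  have h2 := cap_tri h.bL hP.2.1 hQ.2.1 hR.2.1 hP.2.2.2 hQ.2.2.2 hR.2.2.2 hd
  unfold pot
  linarith

theorem pot_cocycle (h : Pr K L) (hP : P ∈ Zs K L) (hQ : Q ∈ Zs K L) (hR : R ∈ Zs K L) :
    pot K L P Q + pot K L Q R = pot K L P R := by
  by_cases hPQ : P = Q
  · subst hPQ; rw [pot_self, zero_add]
  by_cases hQR : Q = R
  · subst hQR; rw [pot_self, add_zero]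
  by_cases hPR : P = R
  · subst hPR; rw [pot_self, pot_antisymm h P Q, add_neg_cancel]
  rcases lt_trichotomy (det3 P Q R) 0 with hd | hd | hd
  · exact pot1_pot_cocycle_cw h hP hQ hR hd
  · rw [pot_zero_of_side h (collinear_side h hP hQ hR hPQ hQR hPR hd),
      pot_zero_of_side h (collinear_side h hQ hR hP hQR (Ne.symm hPR) (Ne.symm hPQ)
        (by rwa [← det3_cyc])),
      pot_zero_of_side h (collinear_side h hP hR hQ hPR (Ne.symm hQR) hPQ
        (by rw [det3_swap, hd, neg_zero])), add_zero]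
  · have h1 := pot1_pot_cocycle_cw h hP hR hQ (by rw [det3_swap]; linarith)
    have h2 := pot_antisymm h Q R
    linarith

theorem Pr.symm (h : Pr K L) : Pr L K :=
  ⟨h.bL, h.bK, by rw [inter_comm]; exact h.int, h.vol.symm⟩

theorem Pr.body (h : Pr K L) : Body (K ∩ L) :=
  ⟨h.bK.conv.inter h.bL.conv, h.bK.comp.inter_right h.bL.comp.isClosed, h.int⟩

theorem Zs_comm (K L : Set V) : Zs L K = Zs K L := by
  ext p
  simp only [Zs, mem_ofPred_eq]
  tauto

theorem Zs.mem_inter (hP : P ∈ Zs K L) : P ∈ K ∩ L ∧ P ∉ interior (K ∩ L) := by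
  refine ⟨⟨hP.1, hP.2.1⟩, fun h => ?_⟩
  rw [interior_inter] at h
  exact hP.2.2.1 h.1

theorem Zmin_eq (h : Pr K L) : Zmin K L = Zmax L K := by
  ext p
  simp only [Zmin, Zmax, mem_ofPred_eq, Zs_comm K L, pot_swap K L, pot_antisymm h p, neg_neg]

end XR
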