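import Pool.Agent.P.MP_408b1f_gt.FamA
import Pool.Agent.P.MP_408b1f_gt.SGA

/-! Point reflection of flag systems. -/

open Set MeasureTheory Filter Topology

noncomputable section

namespace XR

variable {f g : ℝ → ℝ} {ε : ℝ} {I : Type}

@[simp] theorem negP_fst (p : V) : (negP p).1 = 1 - p.1 := rfl
@[simp] theorem negP_snd (p : V) : (negP p).2 = 1 - p.2 := rfl
theorem negP_negP (p : V) : negP (negP p) = p := by simp [negP]
theorem negP_sub (p q : V) : negP p - negP q = -(p - q) := by ext <;> simp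
theorem mem_negP {K : Set V} {p : V} : p ∈ negP '' K ↔ negP p ∈ K :=
  ⟨by rintro ⟨q, hq, rfl⟩; rwa [negP_negP], fun h => ⟨_, h, negP_negP p⟩⟩
theorem negP_mem {K : Set V} {p : V} : negP p ∈ negP '' K ↔ p ∈ K := by
  rw [mem_negP, negP_negP]
theorem negP_inter (K L : Set V) : negP '' K ∩ negP '' L = negP '' (K ∩ L) := by
  ext p; simp only [mem_inter_iff, mem_negP]
theorem negP_union (K L : Set V) : negP '' K ∪ negP '' L = negP '' (K ∪ L) := by
  rw [image_union]
theorem w_negP (p : V) : w ε (negP p) = 1 - ε - w ε p := by simp [w]; ring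
theorem w_neg (p : V) : w ε (-p) = -w ε p := by simp [w]; ring
theorem det_neg_neg (p q : V) : det (-p) (-q) = det p q := by simp [det]

theorem IsTan.negP {o : ℝ} {K : Set V} {p τ : V} (h : IsTan o K p τ) :
    IsTan o (negP '' K) (negP p) (-τ) := by
  refine ⟨neg_ne_zero.2 h.ne, ?_, ?_⟩
  · rintro X ⟨Y, hY, rfl⟩
    rw [negP_sub, det_neg_neg]; exact h.supp Y hY
  · intro α hα
    have := h.dual (-α) fun X hX => by
      have := hα _ (negP_mem.2 hX)
      rw [negP_sub] at this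
      simp only [dot, Prod.fst_neg, Prod.snd_neg] at this ⊢; linarith
    simp only [dot, Prod.fst_neg, Prod.snd_neg] at this ⊢; linarith

theorem inner_negP {M : Set V} {a : V → ℝ} {c : ℝ} (ha : ∀ p, a (negP p) = c - a p) {z : V} :
    Inner (negP '' M) a (negP z) ↔ Inner M a z := by
  constructor
  · rintro ⟨⟨_, ⟨p, hp, rfl⟩, h1⟩, ⟨_, ⟨q, hq, rfl⟩, h2⟩⟩
    rw [ha, ha] at h1 h2
    exact ⟨⟨q, hq, by linarith⟩, ⟨p, hp, by linarith⟩⟩
  · rintro ⟨⟨p, hp, h1⟩, ⟨q, hq, h2⟩⟩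
    exact ⟨⟨negP q, negP_mem.2 hq, by rw [ha, ha]; linarith⟩,
      ⟨negP p, negP_mem.2 hp, by rw [ha, ha]; linarith⟩⟩

theorem Gen.negP {a b : V → ℝ} (ha : ∀ p, a (-p) = -a p) (hb : ∀ p, b (-p) = -b p)
    {d z z' u v u' v' : V} {t len m : ℝ} (h : Gen a b d z z' u v u' v' t len m) :
    Gen a b d (negP z) (negP z') (-u) (-v) (-u') (-v') (-t) len (-m) := by
  refine ⟨⟨?_, h.hlen, ?_, ?_, ?_, ?_, ?_, ?_, ?_⟩, ?_⟩
  · rcases h.ht with h1 | h1 <;> simp [h1]
  · have := h.hz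
    ext
    · have h1 := congrArg Prod.fst this
      simp only [Prod.fst_add, Prod.smul_fst, smul_eq_mul, negP_fst] at h1 ⊢; linarith
    · have h1 := congrArg Prod.snd this
      simp only [Prod.snd_add, Prod.smul_snd, smul_eq_mul, negP_snd] at h1 ⊢; linarith
  · rw [ha]; have := h.hu; linarith
  · rw [ha]; have := h.hv; linarith
  · rw [ha]; have := h.hu'; linarith
  · rw [ha]; have := h.hv'; linarith
  · simp only [ha, hb, neg_div_neg_eq]; have := h.su; linarith
  · simp only [ha, hb, neg_div_neg_eq]; have := h.sv; linarith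
  · simp only [ha]; have := h.hn; linarith

theorem Gen.of_negP {a b : V → ℝ} (ha : ∀ p, a (-p) = -a p) (hb : ∀ p, b (-p) = -b p)
    {d z z' u v u' v' : V} {t len m : ℝ}
    (h : Gen a b d (XR.negP z) (XR.negP z') (-u) (-v) (-u') (-v') (-t) len (-m)) :
    Gen a b d z z' u v u' v' t len m := by
  simpa only [negP_negP, neg_neg] using h.negP ha hb

theorem SG.of_neg {x m : ℝ} (h : SG (negF f) (1 - x) (-m)) : SG f x m := by
  intro x' hx'
  have := h (1 - x') ⟨by linarith [hx'.2], by linarith [hx'.1]⟩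
  simp only [negF, sub_sub_cancel] at this; linarith

theorem brk_negP {K L : Set V} {a : V → ℝ} {c : ℝ} (ha : ∀ p, a (negP p) = c - a p) {z z' : V}
    (h : z' = z ∨ (∀ p ∈ K ∪ L, a z ≤ a p) ∨ (∀ p ∈ K ∪ L, a p ≤ a z)) :
    negP z' = negP z ∨ (∀ p ∈ negP '' K ∪ negP '' L, a (negP z) ≤ a p) ∨
      (∀ p ∈ negP '' K ∪ negP '' L, a p ≤ a (negP z)) := by
  rw [negP_union]
  rcases h with h | h | h
  · exact Or.inl (by rw [h])
  · refine Or.inr (Or.inr ?_)
    rintro _ ⟨p, hp, rfl⟩; rw [ha, ha]; linarith [h p hp]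
  · refine Or.inr (Or.inl ?_)
    rintro _ ⟨p, hp, rfl⟩; rw [ha, ha]; linarith [h p hp]

theorem interior_negP {M : Set V} (h : (interior M).Nonempty) :
    (interior (negP '' M)).Nonempty := by
  obtain ⟨p, hp⟩ := h
  have hc : Continuous negP := by unfold negP; fun_prop
  refine ⟨negP p, ?_⟩
  have : negP '' M = negP ⁻¹' M := by ext q; exact mem_negP
  rw [this]
  apply preimage_interior_subset_interior_preimage hc
  simpa [negP_negP] using hp

def Sys.neg (S : Sys f g ε I) : Sys (negF f) (negF g) ε I where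
  K := negP '' S.K
  L := negP '' S.L
  hK := S.hK.neg
  hL := S.hL.neg
  fin := S.fin
  ne := S.ne
  R := S.R
  T := S.T
  comm := S.comm
  trans := S.trans
  P := fun i => negP (S.P i)
  O := fun i => negP (S.O i)
  u := fun i => -S.u i
  v := fun i => -S.v i
  u' := fun i => -S.u' i
  v' := fun i => -S.v' i
  t1 := fun i => -S.t1 i
  m1 := fun i => -S.m1 i
  t2 := fun i => -S.t2 i
  m2 := fun i => -S.m2 i
  t3 := fun i => -S.t3 i
  h3 := S.h3
  m3 := fun i => -S.m3 i
  inj := fun i j h => S.inj (by simpa only [negP_negP] using congrArg negP h)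
  memP := fun i => by rw [negP_inter]; exact negP_mem.2 (S.memP i)
  memO := fun i => by rw [negP_inter]; exact negP_mem.2 (S.memO i)
  tanPK := fun i => (S.tanPK i).negP
  tanPL := fun i => (S.tanPL i).negP
  tanOK := fun i => (S.tanOK i).negP
  tanOL := fun i => (S.tanOL i).negP
  nrmP := fun i => by
    rcases S.nrmP i with h | h
    · exact Or.inl (by rw [h])
    · exact Or.inr (by rw [det_neg_neg, h])
  nrmO := fun i => by
    rcases S.nrmO i with h | h
    · exact Or.inl (by rw [h])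
    · exact Or.inr (by rw [det_neg_neg, h])
  lev1 := fun i => by simp [S.lev1 i]
  lev2 := fun i => by simp [S.lev2 i]
  lev3 := fun i => by rw [w_negP, w_negP, S.lev3 i]
  gen1 := fun i hi => by
    rw [negP_inter, inner_negP (c := 1) (fun _ => rfl)] at hi
    obtain ⟨h1, h2⟩ := S.gen1 i hi
    refine ⟨?_, h2.neg⟩
    have : negF f (negP (S.O i)).1 = f (S.O i).1 := by simp [negF]
    rw [this]; exact h1.negP (fun _ => rfl) (fun _ => rfl)
  gen2 := fun i hi => by
    rw [negP_inter, inner_negP (c := 1) (fun _ => rfl)] at hi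
    obtain ⟨h1, h2⟩ := S.gen2 i hi
    refine ⟨?_, h2.neg⟩
    have : negF g (negP (S.O i)).2 = g (S.O i).2 := by simp [negF]
    rw [this]; exact h1.negP (fun _ => rfl) (fun p => by simp [negx])
  gen3 := fun i hi => by
    rw [negP_inter, inner_negP (c := 1 - ε) w_negP] at hi
    exact (S.gen3 i hi).negP w_neg (fun _ => rfl)
  brk1 := fun i hi => by
    rw [negP_inter, inner_negP (c := 1) (fun _ => rfl)] at hi
    exact brk_negP (a := Prod.fst) (c := 1) (fun _ => rfl) (S.brk1 i hi)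
  brk2 := fun i hi => by
    rw [negP_inter, inner_negP (c := 1) (fun _ => rfl)] at hi
    exact brk_negP (a := Prod.snd) (c := 1) (fun _ => rfl) (S.brk2 i hi)
  brk3 := fun i hi => by
    rw [negP_inter, inner_negP (c := 1 - ε) w_negP] at hi
    exact brk_negP (a := w ε) (c := 1 - ε) w_negP (S.brk3 i hi)
  intM := by rw [negP_inter]; exact interior_negP S.intM
  hMl := by
    obtain ⟨p, hp, h⟩ := S.hMr
    exact ⟨negP p, by rw [negP_inter]; exact negP_mem.2 hp, by simp; linarith⟩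
  hMr := by
    obtain ⟨p, hp, h⟩ := S.hMl
    exact ⟨negP p, by rw [negP_inter]; exact negP_mem.2 hp, by simp; linarith⟩
  hMb := by
    obtain ⟨p, hp, h⟩ := S.hMt
    exact ⟨negP p, by rw [negP_inter]; exact negP_mem.2 hp, by simp; linarith⟩
  hMt := by
    obtain ⟨p, hp, h⟩ := S.hMb
    exact ⟨negP p, by rw [negP_inter]; exact negP_mem.2 hp, by simp; linarith⟩
  hbulk := fun j => by
    obtain ⟨n, h1, h2⟩ := S.hbulk j
    exact ⟨n, by simp; linarith, by simp; linarith⟩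

namespace Sys

variable (S : Sys f g ε I)

@[simp] theorem neg_R : S.neg.R = S.R := rfl
@[simp] theorem neg_T : S.neg.T = S.T := rfl
@[simp] theorem neg_K : S.neg.K = negP '' S.K := rfl
@[simp] theorem neg_L : S.neg.L = negP '' S.L := rfl
@[simp] theorem neg_P (j : I) : S.neg.P j = negP (S.P j) := rfl
@[simp] theorem neg_O (j : I) : S.neg.O j = negP (S.O j) := rfl
@[simp] theorem neg_u (j : I) : S.neg.u j = -S.u j := rfl
@[simp] theorem neg_v (j : I) : S.neg.v j = -S.v j := rfl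
@[simp] theorem neg_u' (j : I) : S.neg.u' j = -S.u' j := rfl
@[simp] theorem neg_v' (j : I) : S.neg.v' j = -S.v' j := rfl
@[simp] theorem neg_t1 (j : I) : S.neg.t1 j = -S.t1 j := rfl
@[simp] theorem neg_t2 (j : I) : S.neg.t2 j = -S.t2 j := rfl
@[simp] theorem neg_t3 (j : I) : S.neg.t3 j = -S.t3 j := rfl
@[simp] theorem neg_m1 (j : I) : S.neg.m1 j = -S.m1 j := rfl
@[simp] theorem neg_m2 (j : I) : S.neg.m2 j = -S.m2 j := rfl
@[simp] theorem neg_m3 (j : I) : S.neg.m3 j = -S.m3 j := rfl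
@[simp] theorem neg_h3 (j : I) : S.neg.h3 j = S.h3 j := rfl
@[simp] theorem neg_x (j : I) : S.neg.x j = 1 - S.x j := rfl
@[simp] theorem neg_yP (j : I) : S.neg.yP j = 1 - S.yP j := rfl
@[simp] theorem neg_yO (j : I) : S.neg.yO j = 1 - S.yO j := rfl
@[simp] theorem neg_kP (j : I) : S.neg.kP j = S.kP j := by simp [kP, neg_div_neg_eq]
@[simp] theorem neg_lP (j : I) : S.neg.lP j = S.lP j := by simp [lP, neg_div_neg_eq]
@[simp] theorem neg_kO (j : I) : S.neg.kO j = S.kO j := by simp [kO, neg_div_neg_eq]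
@[simp] theorem neg_lO (j : I) : S.neg.lO j = S.lO j := by simp [lO, neg_div_neg_eq]
@[simp] theorem neg_W (j : I) : S.neg.W j = S.W j := by simp [W, w_neg]
@[simp] theorem neg_h (j : I) : S.neg.h j = S.h j := rfl
@[simp] theorem neg_κ (j : I) : S.neg.κ j = S.κ j := by simp [κ]
@[simp] theorem neg_Δ (j : I) : S.neg.Δ j = S.Δ j := by simp [Δ, det_neg_neg]
@[simp] theorem neg_γ (j : I) : S.neg.γ j = S.γ j := by simp [γ, det_neg_neg]
@[simp] theorem neg_InB (σ : ℝ) (j : I) : S.neg.InB σ j ↔ S.InB σ j := by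
  simp only [InB, neg_x]; constructor <;> rintro ⟨h1, h2⟩ <;> constructor <;> linarith
@[simp] theorem neg_Run (σ : ℝ) (j : I) (n : ℕ) : S.neg.Run σ j n ↔ S.Run σ j n := by
  simp only [Run]; exact forall₂_congr fun l _ => S.neg_InB σ _
@[simp] theorem neg_G1 (j : I) : S.neg.G1 j ↔ S.G1 j := by
  have : negF f (negP (S.O j)).1 = f (S.O j).1 := by simp [negF]
  constructor
  · rintro ⟨h1, h2⟩
    simp only [neg_O, this] at h1
    exact ⟨Gen.of_negP (fun _ => rfl) (fun _ => rfl) h1, SG.of_neg h2⟩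
  · rintro ⟨h1, h2⟩
    refine ⟨?_, h2.neg⟩
    simp only [neg_O, this]
    exact h1.negP (fun _ => rfl) (fun _ => rfl)
@[simp] theorem neg_G2 (j : I) : S.neg.G2 j ↔ S.G2 j := by
  have : negF g (negP (S.O j)).2 = g (S.O j).2 := by simp [negF]
  constructor
  · rintro ⟨h1, h2⟩
    simp only [neg_O, this] at h1
    exact ⟨Gen.of_negP (fun _ => rfl) (fun p => by simp [negx]) h1, SG.of_neg h2⟩
  · rintro ⟨h1, h2⟩
    refine ⟨?_, h2.neg⟩
    simp only [neg_O, this]
    exact h1.negP (fun _ => rfl) (fun p => by simp [negx])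
@[simp] theorem neg_G3 (j : I) : S.neg.G3 j ↔ S.G3 j :=
  ⟨fun h => Gen.of_negP w_neg (fun _ => rfl) h, fun h => h.negP w_neg (fun _ => rfl)⟩

end Sys

def Lin.neg {S : Sys f g ε I} (ξ : Lin S) : Lin S.neg where
  p := fun j => -ξ.p j
  o := fun j => -ξ.o j
  e := ξ.e
  eqx := fun i j h => by
    have := ξ.eqx i j (by simp at h; exact h); simp [this]
  eqy := fun i j h => by
    have := ξ.eqy i j (by simp at h; exact h); simp [this]
  l1 := fun j h => by
    have := ξ.l1 j ((S.neg_G1 j).1 h)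
    simp only [Sys.neg_t1, Sys.neg_m1, Prod.fst_neg, Prod.snd_neg]; linarith
  l2 := fun j h => by
    have := ξ.l2 j ((S.neg_G2 j).1 h)
    simp only [Sys.neg_t2, Sys.neg_m2, Sys.neg_T, Prod.fst_neg, Prod.snd_neg]; linarith
  l3 := fun j => by
    have := ξ.l3 j
    simp only [w_neg, Sys.neg_R, Sys.neg_P, Sys.neg_O, negP_snd]; linarith
  rpx := fun j h => (ξ.rpx j (by simpa using h)).neg
  rpy := fun j h => (ξ.rpy j (by simpa using h)).neg
  rox := fun j h => (ξ.rox j (by simpa using h)).neg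
  roy := fun j h => (ξ.roy j (by simpa using h)).neg

theorem zt_neg (σ : ℝ) (α u v ξ : V) : zt (-σ) α (-u) (-v) (-ξ) = zt σ α u v ξ := by
  have h : ∀ p : V, dot α (-p) = -dot α p := fun p => by simp [dot]; ring
  simp only [zt, h, neg_mul_neg]; rw [neg_mul, neg_div_neg_eq]
theorem bt_neg (σ : ℝ) (α u v ξ : V) : bt (-σ) α (-u) (-v) (-ξ) = bt σ α u v ξ := by
  have h : ∀ p : V, dot α (-p) = -dot α p := fun p => by simp [dot]; ring
  simp only [bt, h, neg_mul_neg, det_neg_neg]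
  rw [neg_mul, neg_mul, neg_mul, ← neg_add, neg_div, neg_div_neg_eq]

namespace Lin

variable {S : Sys f g ε I} (ξ : Lin S)

@[simp] theorem neg_e : ξ.neg.e = ξ.e := rfl
@[simp] theorem neg_p (j : I) : ξ.neg.p j = -ξ.p j := rfl
@[simp] theorem neg_o (j : I) : ξ.neg.o j = -ξ.o j := rfl
@[simp] theorem neg_ζ (j : I) : ξ.neg.ζ j = ξ.ζ j := zt_neg _ _ _ _ _
@[simp] theorem neg_b (j : I) : ξ.neg.b j = ξ.b j := bt_neg _ _ _ _ _
@[simp] theorem neg_β (j : I) : ξ.neg.β j = ξ.β j := by simp [β]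
@[simp] theorem neg_ct (j : I) : ξ.neg.ct j = ξ.ct j := by simp [ct]
theorem Bd.neg {σ Λ M : ℝ} (h : ξ.Bd σ Λ M) : ξ.neg.Bd σ Λ M where
  nn := h.nn
  be := h.be
  bc := fun j hj => by simpa using h.bc j ((S.neg_InB σ j).1 hj)
  bD := fun j hj hj' => by
    simpa using h.bD j ((S.neg_InB σ j).1 hj) ((S.neg_InB σ _).1 hj')
  bDD := fun j hj => by simpa using h.bDD j (fun h' => hj ((S.neg_InB σ j).2 h'))

end Lin

def Ctx0.neg (c : Ctx0 f g) : Ctx0 (negF f) (negF g) where
  hf := c.hf.neg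
  hg := c.hg.neg
  ρ := c.ρ
  η := c.η
  σ0 := c.σ0
  f0 := c.f0
  ρpos := c.ρpos
  ηpos := c.ηpos
  σ0pos := c.σ0pos
  f0pos := c.f0pos
  gle := fun y hy => c.gle _ ⟨by linarith [hy.2], by linarith [hy.1]⟩
  σ0ρ := c.σ0ρ
  nearL := fun x hx => by
    have := c.nearR (1 - x) ⟨by linarith [hx.2], by linarith [hx.1]⟩
    simp only [negF]; linarith
  nearR := fun x hx => c.nearL (1 - x) ⟨by linarith [hx.2], by linarith [hx.1]⟩
  gge := fun y hy => c.gge _ ⟨by linarith [hy.2], by linarith [hy.1]⟩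
  fge := fun x hx => c.fge _ ⟨by linarith [hx.2], by linarith [hx.1]⟩

def Ctx.neg (c : Ctx f g) : Ctx (negF f) (negF g) where
  toCtx0 := c.toCtx0.neg
  ys := 1 - c.ys
  Cq := c.Cq
  sq := c.sq
  ysI := ⟨by linarith [c.ysI.2], by linarith [c.ysI.1]⟩
  ysmax := fun y hy => by
    have := c.ysmax (a := 1 - y) ⟨by linarith [hy.2], by linarith [hy.1]⟩
    simpa [negF] using this
  fle := fun x hx => c.fle _ ⟨by linarith [hx.2], by linarith [hx.1]⟩
  sqpos := c.sqpos
  gq := fun y hy hs m hm => by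
    have := c.gq (1 - y) ⟨by linarith [hy.2], by linarith [hy.1]⟩
      (by rcases hs with h | h; exacts [Or.inr (by linarith), Or.inl (by linarith)]) (-m)
      (SG.of_neg (by simpa using hm))
    simpa [negF] using this

theorem Mg0.neg {η : ℝ} {S : Sys f g ε I} {yL yR : ℝ} (h : Mg0 η S yL yR) :
    Mg0 η S.neg (1 - yR) (1 - yL) where
  memL := by rw [Sys.neg_K, mem_negP]; simpa [negP] using h.memR
  memR := by rw [Sys.neg_K, mem_negP]; simpa [negP] using h.memL
  hL := ⟨by linarith [h.hR.2], by linarith [h.hR.1]⟩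
  hR := ⟨by linarith [h.hL.2], by linarith [h.hL.1]⟩

theorem Mg.neg {η ys : ℝ} {S : Sys f g ε I} {yL yR ς : ℝ} (h : Mg η ys S yL yR ς) :
    Mg η (1 - ys) S.neg (1 - yR) (1 - yL) ς where
  toMg0 := h.toMg0.neg
  hς := h.hς
  sL := by have := h.sR; linarith
  sR := by have := h.sL; linarith

/-- transfer of an eventual statement proved for the reflected data -/
theorem EvAll.of_neg (c : Ctx f g)
    {Q : (Λ σ ε : ℝ) → (I : Type) → (S : Sys (negF f) (negF g) ε I) → Lin S → ℝ → Prop}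
    (h : EvAll c.neg Q) : EvAll c fun Λ σ ε I S ξ M => Q Λ σ ε I S.neg ξ.neg M := by
  filter_upwards [h] with Λ h
  filter_upwards [h] with σ h
  filter_upwards [h] with ε h I S yL yR ς hm ξ M hb
  exact h I S.neg _ _ ς hm.neg ξ.neg M hb.neg

theorem EvG0.of_neg (c : Ctx0 f g)
    {Q : (ε : ℝ) → (I : Type) → Sys (negF f) (negF g) ε I → ℝ → ℝ → Prop} (h : EvG0 c.neg Q) :
    EvG0 c fun ε I S yL yR => Q ε I S.neg (1 - yR) (1 - yL) := by
  filter_upwards [h] with ε h I S yL yR hm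
  exact h I S.neg _ _ hm.neg

theorem EvAll.mono {c : Ctx f g} 
    {Q Q' : (Λ σ ε : ℝ) → (I : Type) → (S : Sys f g ε I) → Lin S → ℝ → Prop}
    (h : EvAll c Q) (hQ : ∀ Λ σ ε I S ξ M, Q Λ σ ε I S ξ M → Q' Λ σ ε I S ξ M) : EvAll c Q' := by
  filter_upwards [h] with Λ h
  filter_upwards [h] with σ h
  filter_upwards [h] with ε h I S yL yR ς hm ξ M hb
  exact hQ _ _ _ _ _ _ _ (h I S yL yR ς hm ξ M hb)

theorem EvAll.and {c : Ctx f g} 
    {Q Q' : (Λ σ ε : ℝ) → (I : Type) → (S : Sys f g ε I) → Lin S → ℝ → Prop}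
    (h : EvAll c Q) (h' : EvAll c Q') :
    EvAll c fun Λ σ ε I S ξ M => Q Λ σ ε I S ξ M ∧ Q' Λ σ ε I S ξ M := by
  filter_upwards [h, h'] with Λ h h'
  filter_upwards [h, h'] with σ h h'
  filter_upwards [h, h'] with ε h h' I S yL yR ς hm ξ M hb
  exact ⟨h I S yL yR ς hm ξ M hb, h' I S yL yR ς hm ξ M hb⟩

end XR
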