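import Pool.Agent.P.MP_408b1f_gt.Links

/-! The exceptional step, core estimate.
gap_step: zfacts; S theta j = t eps^2 (m1 j / f (x j)^2) nu j with
nu j = (kappa j / kappa (R j)) f^2 / (h j h (R j)) close to 1 (kappa_run at the level sigma0, hL, hR
of step, f >= f0), the same for T j with the same t = t1; kap_link at the level sigma0. Half.gap with
the constant min (4 sigma0) (eta / 4): x (T j) - x j = - t2 g (G2.x_eq). In the first case
x1 = x j, x2 = x (T j), sg = - t2 j; in the second x1 = x (T j), x2 = x j, sg = t2 j.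
xcore: all indices of the two runs are in InB (2 sigma0) (zfacts). ke_sum with Small.sm for j and
for T j (N = 2 n, comm_pow); multiply the second by lam = kappa j / kappa (T j) in [1/2, 2] and
subtract. The left side is at most 3 eta' M (kratio); the e terms are O (r M); the terms with l
different from n are at most 2 n * C eps^2 * C M / eps = O (r M) (incr_bd, zlink_cmp for T); the
ct terms are O (eps^3 M). What remains is, with k = R^n j, mu = kappa k / kappa (T k),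
(kappa j / kappa k) (mu S theta (T k) beta (T k) - S theta k beta k), and
beta (T k) = mu * (b (T k) / kappa k); zlink_cmp and gap_step give
z eps^2 |beta k| <= small M + C eps^4 |beta k|. -/

open Set MeasureTheory Filter Topology

noncomputable section

namespace XR

variable {f g : ℝ → ℝ}

theorem xc_mul {x y a b : ℝ} (hx : |x - 1| ≤ a) (hy : |y - 1| ≤ b) (ha : a ≤ 1) :
    |x * y - 1| ≤ a + 2 * b := by
  have e : x * y - 1 = (x - 1) + x * (y - 1) := by ring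
  have h1 : |x| ≤ 2 := by
    obtain ⟨h2, h3⟩ := abs_le.1 hx
    rw [abs_le]; constructor <;> linarith only [ha, h2, h3]
  have h2 : |x * (y - 1)| ≤ 2 * b := by
    rw [abs_mul]
    exact mul_le_mul h1 hy (abs_nonneg _) (by norm_num)
  rw [e]
  exact (abs_add_le _ _).trans (add_le_add hx h2)

theorem xc_inv {x y a : ℝ} (h : |y / x - 1| ≤ a) (ha : a ≤ 1 / 2) : |x / y - 1| ≤ 2 * a := by
  rw [← inv_div y x]
  generalize y / x = u at h
  obtain ⟨h1, h2⟩ := abs_le.1 h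
  have hu : 0 < u := by linarith only [ha, h1]
  have e : u⁻¹ - 1 = -(u - 1) / u := by field_simp; ring
  have h0 : 0 ≤ a := (abs_nonneg _).trans h
  rw [e, abs_div, abs_neg, abs_of_pos hu, div_le_iff₀ hu]
  nlinarith only [h, h1, ha, h2]

theorem xc_gap {a b A B z δ : ℝ} (h : ∀ l, |l - 1| ≤ z → z ≤ |a - l * b|) (hA : |A - 1| ≤ δ)
    (hB : |B - 1| ≤ δ) (hδ : δ ≤ 1 / 2) (hz : 4 * δ ≤ z) : z / 2 ≤ |A * a - B * b| := by
  obtain ⟨a1, a2⟩ := abs_le.1 hA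
  obtain ⟨b1, b2⟩ := abs_le.1 hB
  have hA0 : 0 < A := by linarith only [hδ, a1]
  have h0 : 0 ≤ δ := (abs_nonneg _).trans hA
  have h1 : |B / A - 1| ≤ z := by
    have e : B / A - 1 = (B - A) / A := by field_simp
    rw [e, abs_div, abs_of_pos hA0, div_le_iff₀ hA0, abs_le]
    constructor <;> nlinarith only [hz, a1, a2, b1, hδ, b2]
  have h2 := h _ h1
  have e : A * a - B * b = A * (a - B / A * b) := by field_simp
  rw [e, abs_mul, abs_of_pos hA0]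
  nlinarith only [a1, h2, hδ, hz, a2]

theorem xc_nu {c : Ctx0 f g} {ε θ : ℝ} {I : Type} {S : Sys f g ε I} (hs : c.Small ε)
    (h1 : 8 * ε ≤ θ * c.σ0) (h2 : 4 * ε ≤ θ * (c.σ0 * c.f0)) (hθ : θ ≤ 1 / 10) {j : I}
    (hj : S.InB (2 * c.σ0) j) :
    ∃ ν, |ν - 1| ≤ 5 * θ ∧ S.Sθ j = S.t1 j * ε ^ 2 * (ν * (S.m1 j / f (S.x j) ^ 2)) := by
  have hε := hs.εpos
  have hσ := c.σ0pos
  have hf := c.f0pos
  have h64 := hs.leσ
  have hj1 : S.InB c.σ0 j := hj.mono (by linarith only [hε, h64])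
  have F := S.step hε (by linarith only [hε, h64] : 4 * ε ≤ c.σ0) hj1
  have hrun : S.Run c.σ0 j 1 := by
    intro l hl
    obtain rfl | rfl : l = 0 ∨ l = 1 := by omega
    · exact hj1
    · obtain ⟨a, b⟩ := abs_le.1 (S.xstep hε.le j)
      rw [pow_one]
      exact ⟨by linarith only [hε, h64, a, hj.1], by linarith only [hε, h64, b, hj.2]⟩
  have hk := (S.kappa_run hε (by linarith only [hε, h64]) hrun).1
  rw [pow_one] at hk
  have hk2 : 4 * ε / c.σ0 ≤ θ / 2 := by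
    rw [div_le_iff₀ hσ]
    linarith only [h1]
  have r1 := xc_inv (hk.trans hk2) (by linarith only [hθ])
  have hfx : c.f0 ≤ f (S.x j) := c.fge _ ⟨by linarith only [hε, h64, hj.1], by linarith only [hε, h64, hj.2]⟩
  have hfx0 : 0 < f (S.x j) := hf.trans_le hfx
  have key : ∀ y, |y - f (S.x j)| ≤ 2 * ε / c.σ0 → |f (S.x j) / y - 1| ≤ 2 * (θ / 2) := by
    intro y hy
    refine xc_inv ?_ (by linarith only [hθ])
    have e : y / f (S.x j) - 1 = (y - f (S.x j)) / f (S.x j) := by field_simp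
    rw [e, abs_div, abs_of_pos hfx0, div_le_iff₀ hfx0]
    refine hy.trans ?_
    rw [div_le_iff₀ hσ]
    have hθ0 : 0 ≤ θ := by
      by_contra hn
      have := mul_neg_of_neg_of_pos (not_le.1 hn) hσ
      linarith only [h1, hε, this]
    have := mul_le_mul_of_nonneg_left hfx (mul_nonneg hθ0 hσ.le)
    linarith only [h2, this]
  have r2 := key _ F.hL
  have r3 := key _ F.hR
  have m1 := xc_mul r1 r2 (by linarith only [hθ])
  have m2 := xc_mul m1 r3 (by linarith only [hθ])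
  refine ⟨_, m2.trans (by linarith only []), ?_⟩
  have p1 := F.hpos
  have p2 := F.h3pos
  have p3 := (S.kappa_pos hε (by linarith only [hε, h64] : 4 * ε ≤ c.σ0) (hrun 1 le_rfl)).1
  rw [pow_one] at p3
  rw [Sys.Sθ, S.h_R]
  field_simp

theorem xc_sum {N n : ℕ} (hn : n < N) {a a' : ℕ → ℝ} {P P' e l E E' D : ℝ}
    (h1 : |P - N * e - ∑ i ∈ Finset.range N, a i| ≤ E)
    (h2 : |P' - N * e - ∑ i ∈ Finset.range N, a' i| ≤ E') (hl : |l - 1| ≤ 1 / 2) (hD : 0 ≤ D)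
    (h3 : ∀ i < N, i ≠ n → |l * a' i - a i| ≤ D) :
    |l * a' n - a n| ≤ |l * P' - P| + N * |e| / 2 + 2 * E' + E + N * D := by
  have hmem : n ∈ Finset.range N := Finset.mem_range.2 hn
  have e1 : l * a' n - a n + ∑ i ∈ (Finset.range N).erase n, (l * a' i - a i) =
      l * ∑ i ∈ Finset.range N, a' i - ∑ i ∈ Finset.range N, a i := by
    rw [Finset.add_sum_erase _ (fun i => l * a' i - a i) hmem, Finset.sum_sub_distrib,
      Finset.mul_sum]
  have e2 : |∑ i ∈ (Finset.range N).erase n, (l * a' i - a i)| ≤ N * D := by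
    refine (Finset.abs_sum_le_sum_abs _ _).trans ?_
    refine (Finset.sum_le_card_nsmul _ _ D fun i hi => ?_).trans ?_
    · obtain ⟨i1, i2⟩ := Finset.mem_erase.1 hi
      exact h3 i (Finset.mem_range.1 i2) i1
    · rw [nsmul_eq_mul]
      refine mul_le_mul_of_nonneg_right ?_ hD
      have := Finset.card_erase_le (s := Finset.range N) (a := n)
      rw [Finset.card_range] at this
      exact_mod_cast this
  generalize ∑ i ∈ (Finset.range N).erase n, (l * a' i - a i) = U at e1 e2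
  generalize ∑ i ∈ Finset.range N, a' i = A' at e1 h2
  generalize ∑ i ∈ Finset.range N, a i = A at e1 h1
  have e3 : l * a' n - a n = (l * P' - P) - (l - 1) * (N * e) - l * (P' - N * e - A') +
      (P - N * e - A) - U := by linear_combination e1
  have b1 : |(l - 1) * (N * e)| ≤ N * |e| / 2 := by
    rw [abs_mul, abs_mul, Nat.abs_cast]
    have := mul_le_mul_of_nonneg_right hl (by positivity : (0:ℝ) ≤ N * |e|)
    linarith only [this]
  have b2 : |l * (P' - N * e - A')| ≤ 2 * E' := by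
    rw [abs_mul]
    refine mul_le_mul ?_ h2 (abs_nonneg _) (by norm_num)
    obtain ⟨u, v⟩ := abs_le.1 hl
    rw [abs_le]; constructor <;> linarith only [u, v]
  rw [e3]
  obtain ⟨c1, c2⟩ := abs_le.1 b1
  obtain ⟨c3, c4⟩ := abs_le.1 b2
  obtain ⟨c5, c6⟩ := abs_le.1 h1
  obtain ⟨c7, c8⟩ := abs_le.1 e2
  have c9 := le_abs_self (l * P' - P)
  have c10 := neg_abs_le (l * P' - P)
  rw [abs_le]; constructor <;> linarith only [c2, c4, c5, c8, c10, c1, c3, c6, c7, c9]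

theorem gap_step (c : Ctx f g) : ∃ z > (0:ℝ), EvG c fun ε _ S => ∀ j,
    |S.yO j - c.ys| ≤ c.η / 4 →
      (c.η / 4 ≤ -(S.t2 j * S.m1 j) ∨ c.η / 4 ≤ S.t2 j * S.m1 (S.T j)) →
      z * ε ^ 2 ≤ |(S.κ j / S.κ (S.T j)) ^ 2 * S.Sθ (S.T j) - S.Sθ j| := by
  obtain ⟨z, hz, hgap⟩ := c.hf.gap (c := min (4 * c.σ0) (c.η / 4))
    (lt_min (by linarith [c.σ0pos]) (by linarith [c.ηpos]))
  refine ⟨z / 2, by positivity, ?_⟩
  obtain ⟨θ, hθ, hθ1, hθ2⟩ : ∃ θ : ℝ, 0 < θ ∧ θ ≤ 1 / 40 ∧ θ ≤ z / 60 :=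
    ⟨min (1 / 40) (z / 60), lt_min (by norm_num) (by positivity), min_le_left _ _,
      min_le_right _ _⟩
  have hσ := c.σ0pos
  have hf := c.f0pos
  have hk := kap_link c.toCtx0 hσ le_rfl hθ
  unfold EvG0 at hk
  unfold EvG
  filter_upwards [hk, c.toCtx0.ev_small, ev_le (a := θ * c.σ0 / 8) (by positivity),
    ev_le (a := θ * (c.σ0 * c.f0) / 4) (by positivity)]
    with ε hk hs e1 e2 I S yL yR ς hm j hy hcase
  have hε := hs.εpos
  obtain ⟨z1, z2, z3, z4, -, -, z7⟩ := zfacts hs hm hy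
  have hnu := fun j => xc_nu (θ := θ) (S := S) (j := j) hs (by linarith only [e1, e1.2])
    (by linarith only [e2, e2.2]) (by linarith only [hθ, hθ1])
  obtain ⟨ν, n1, n2⟩ := hnu _ z1
  obtain ⟨ν', n3, n4⟩ := hnu _ z2
  have hμ := (hk I S yL yR hm.toMg0 j (z1.mono (by linarith only [hσ])) (z2.mono (by linarith only [hσ]))).2
  have m1 := xc_mul (xc_mul hμ hμ (by linarith only [hθ, hθ1])) n3 (by linarith only [hθ, hθ1])
  have g1 := (S.g1_of hε (by linarith only [hσ, hs.leσ]) z1).1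
  have g2 := (S.g1_of hε (by linarith only [hσ, hs.leσ]) z2).1
  have s1 : SG f (S.x j) (S.m1 j) := S.xO j ▸ g1.2
  have s2 : SG f (S.x (S.T j)) (S.m1 (S.T j)) := S.xO (S.T j) ▸ g2.2
  have i1 : S.x j ∈ Ioo (0:ℝ) 1 := ⟨by linarith only [hσ, z1.1], by linarith only [hσ, z1.2]⟩
  have i2 : S.x (S.T j) ∈ Ioo (0:ℝ) 1 := ⟨by linarith only [hσ, z2.1], by linarith only [hσ, z2.2]⟩
  have ht2 := z3.1.ht
  have hx := z3.x_eq
  have hsq := linkT_sq ht2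
  have q1 := min_le_left (4 * c.σ0) (c.η / 4)
  have q2 := min_le_right (4 * c.σ0) (c.η / 4)
  have key : z / 2 ≤ |S.κ j / S.κ (S.T j) * (S.κ j / S.κ (S.T j)) * ν' *
      (S.m1 (S.T j) / f (S.x (S.T j)) ^ 2) - ν * (S.m1 j / f (S.x j) ^ 2)| := by
    rcases hcase with h | h
    · rw [abs_sub_comm]
      refine xc_gap (δ := 13 * θ) (fun l hl => hgap (-S.t2 j) _ _ _ _ l ?_ i1 i2 ?_ ?_ s1 s2 hl)
        (by linarith only [hθ, n1]) (by linarith only [m1]) (by linarith only [hθ, hθ1]) (by linarith only [hθ, hθ2])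
      · rcases ht2 with h | h <;> rw [h] <;> norm_num
      · have e : -S.t2 j * (S.x (S.T j) - S.x j) = g (S.yO j) := by
          rw [hx]; linear_combination g (S.yO j) * hsq
        linarith only [z7, q1, e]
      · linarith only [q2, h]
    · refine xc_gap (δ := 13 * θ) (fun l hl => hgap (S.t2 j) _ _ _ _ l ht2 i2 i1 ?_ ?_ s2 s1 hl)
        (by linarith only [m1]) (by linarith only [hθ, n1]) (by linarith only [hθ, hθ1]) (by linarith only [hθ, hθ2])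
      · have e : S.t2 j * (S.x j - S.x (S.T j)) = g (S.yO j) := by
          rw [hx]; linear_combination g (S.yO j) * hsq
        linarith only [z7, q1, e]
      · linarith only [q2, h]
  have e : (S.κ j / S.κ (S.T j)) ^ 2 * S.Sθ (S.T j) - S.Sθ j = S.t1 j * ε ^ 2 *
      (S.κ j / S.κ (S.T j) * (S.κ j / S.κ (S.T j)) * ν' *
        (S.m1 (S.T j) / f (S.x (S.T j)) ^ 2) - ν * (S.m1 j / f (S.x j) ^ 2)) := by
    rw [n2, n4, z4]; ring
  rw [e, abs_mul, abs_mul, linkT_abs g1.1.ht, one_mul, abs_of_pos (by positivity : 0 < ε ^ 2),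
    mul_comm]
  exact mul_le_mul_of_nonneg_left key (by positivity)

theorem xc_err {c : Ctx0 f g} {ε : ℝ} {I : Type} {S : Sys f g ε I} (hs : c.Small ε) (ξ : Lin S)
    {σ Λ M q r : ℝ} (hσ : σ ≤ c.σ0) (hΛ : 1 ≤ Λ) (hB : ξ.Bd σ Λ M)
    (hq : q = 8 / (c.σ0 / 2 * c.f0 ^ 2)) {j : I} {N : ℕ} (hN : N * ε ≤ 2 * r)
    (h : S.Run (2 * c.σ0) j N) :
    |S.κ j * (ξ.ζ ((S.R ^ N) j) - ξ.ζ j) - N * ξ.e -
        ∑ l ∈ Finset.range N, S.κ j / S.κ ((S.R ^ l) j) *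
          (S.Sθ ((S.R ^ l) j) * ξ.β ((S.R ^ l) j))| ≤ r * (1 + 4 * q ^ 2) * M := by
  have hε := hs.εpos
  have hσ0 := c.σ0pos
  have h64 := hs.leσ
  have hε1 : ε ≤ 1 := by linarith only [h64, c.σ0_le]
  have hM := hB.nn
  have hrun : S.Run (c.σ0 / 2) j N := fun l hl => (h l hl).mono (by linarith only [hε, h64])
  refine (ke_sum ξ hs.sm hrun).trans ?_
  have e : 8 * ε ^ 2 / (c.σ0 / 2 * c.f0 ^ 2) = q * ε ^ 2 := by rw [hq]; ring
  rw [e]
  have a1 : 8 * ε / (c.σ0 / 2) ≤ 1 / 2 := by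
    rw [div_le_iff₀ (by linarith only [hε, h64])]; linarith only [hε, h64]
  have a2 : (N:ℝ) * (8 * ε / (c.σ0 / 2)) * |ξ.e| ≤ N * (1 / 2) * (ε * M) :=
    mul_le_mul (mul_le_mul_of_nonneg_left a1 (Nat.cast_nonneg N)) hB.be (abs_nonneg _)
      (by positivity)
  have a3 : ∑ l ∈ Finset.range N, ξ.ct ((S.R ^ l) j) ≤ N * M := by
    refine (Finset.sum_le_card_nsmul _ _ M fun l hl => ?_).trans ?_
    · have hi := h l (Finset.mem_range.1 hl).le
      have b1 := hB.bc _ (hi.mono (by linarith only [hσ, hε, h64]))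
      have b2 := (linkT_ct ξ (S.kappa_pos hε (by linarith only [hε, h64]) hi).1).2
      nlinarith only [b1, hΛ, b2]
    · rw [Finset.card_range, nsmul_eq_mul]
  have a4 := mul_le_mul_of_nonneg_left a3 (by positivity : 0 ≤ 2 * (q * ε ^ 2) ^ 2)
  have a5 := mul_le_mul_of_nonneg_right hN hM
  have a6 : ε ^ 3 ≤ 1 := pow_le_one₀ hε.le hε1
  have a7 : ε ^ 3 * (N * ε * M) ≤ 1 * (2 * r * M) :=
    mul_le_mul a6 a5 (by positivity) zero_le_one
  have a8 := mul_le_mul_of_nonneg_left a7 (by positivity : 0 ≤ 2 * q ^ 2)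
  nlinarith only [a2, a4, a5, a8]

theorem xc_last {z e q Cz M β B μ ρ s s' X : ℝ} (hq : 0 ≤ q) (he : 0 ≤ e)
    (hρ : 1 / 2 ≤ ρ) (hμ : |μ - 1| ≤ 1 / 2) (hs' : |s'| ≤ q * e) (hg : z * e ≤ |μ ^ 2 * s' - s|)
    (hB : |B - β| ≤ Cz * (e * |β| + M)) (hX : |ρ * (μ * (s' * (μ * B)) - s * β)| ≤ X) :
    z * (e * |β|) ≤ 2 * X + 4 * q * Cz * e * (e * |β| + M) := by
  have e1 : (μ ^ 2 * s' - s) * β = (μ * (s' * (μ * B)) - s * β) - μ ^ 2 * s' * (B - β) := by ring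
  have h1 : |μ * (s' * (μ * B)) - s * β| ≤ 2 * X := by
    rw [abs_mul, abs_of_pos (by linarith only [hρ] : 0 < ρ)] at hX
    have := mul_le_mul_of_nonneg_right hρ (abs_nonneg (μ * (s' * (μ * B)) - s * β))
    linarith only [hX, this]
  have h2 : μ ^ 2 ≤ 4 := by
    obtain ⟨u, v⟩ := abs_le.1 hμ
    nlinarith only [v, u]
  have h3 : |μ ^ 2 * s' * (B - β)| ≤ 4 * (q * e) * (Cz * (e * |β| + M)) := by
    rw [abs_mul, abs_mul, abs_of_nonneg (sq_nonneg μ)]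
    exact mul_le_mul (mul_le_mul h2 hs' (abs_nonneg _) (by norm_num)) hB (abs_nonneg _)
      (by positivity)
  have h4 : z * e * |β| ≤ |(μ ^ 2 * s' - s) * β| := by
    rw [abs_mul]
    exact mul_le_mul_of_nonneg_right hg (abs_nonneg _)
  rw [e1] at h4
  have h5 := abs_sub (μ * (s' * (μ * B)) - s * β) (μ ^ 2 * s' * (B - β))
  linarith only [h1, h3, h4, h5]

theorem xc_core {c : Ctx f g} {ε : ℝ} {I : Type} {S : Sys f g ε I} {yL yR ς : ℝ}
    (hs : c.Small ε) (hm : Mg c.η c.ys S yL yR ς) (ξ : Lin S) {σ Λ M q r Cz C1 z η' : ℝ}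
    (hσ : σ ≤ c.σ0) (hΛ : 1 ≤ Λ) (hB : ξ.Bd σ Λ M) (hq : q = 8 / (c.σ0 / 2 * c.f0 ^ 2))
    (hCz : 0 < Cz) (hC1 : 0 < C1)
    (hk : ∀ j, S.InB c.σ0 j → S.InB c.σ0 (S.T j) → |S.κ j / S.κ (S.T j) - 1| ≤ 1 / 2)
    (hZ : ∀ j, |S.yO j - c.ys| ≤ c.η / 4 →
      |ξ.b (S.T j) / S.κ j - ξ.β j| ≤ Cz * (ε ^ 2 * |ξ.β j| + M / Λ) ∧
      |ξ.β (S.T j)| ≤ Cz * (|ξ.β j| + M / Λ))
    {j : I} {n : ℕ} (hn : 1 ≤ n) (hr : n * ε ≤ r)
    (hy : ∀ l ≤ 2 * n, |S.yO ((S.R ^ l) j) - c.ys| ≤ c.η / 4)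
    (hb : ∀ l < 2 * n, l ≠ n → ε * |ξ.β ((S.R ^ l) j)| ≤ C1 * M)
    (h0 : S.κ j * |ξ.ζ (S.T j) - ξ.ζ j| ≤ η' * M)
    (h1 : S.κ ((S.R ^ (2 * n)) j) * |ξ.ζ (S.T ((S.R ^ (2 * n)) j)) - ξ.ζ ((S.R ^ (2 * n)) j)| ≤
      η' * M)
    (hg : z * ε ^ 2 ≤ |(S.κ ((S.R ^ n) j) / S.κ (S.T ((S.R ^ n) j))) ^ 2 *
      S.Sθ (S.T ((S.R ^ n) j)) - S.Sθ ((S.R ^ n) j)|) :
    z * (ε ^ 2 * |ξ.β ((S.R ^ n) j)|) ≤
      2 * ((3 * η' + r * (4 + 12 * q ^ 2 + 4 * q * C1 + 8 * q * (Cz * (C1 + 1)))) * M) +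
        4 * q * Cz * ε ^ 2 * (ε ^ 2 * |ξ.β ((S.R ^ n) j)| + M) := by
  have hε := hs.εpos
  have hσ0 := c.σ0pos
  have hf0 := c.f0pos
  have h64 := hs.leσ
  have hε1 : ε ≤ 1 := by linarith only [h64, c.toCtx0.σ0_le]
  have hM := hB.nn
  have hq0 : 0 ≤ q := by rw [hq]; positivity
  have hMΛ : M / Λ ≤ M := div_le_self hM hΛ
  have hMΛ0 : 0 ≤ M / Λ := div_nonneg hM (by linarith)
  have hN : ((2 * n : ℕ) : ℝ) * ε ≤ 2 * r := by push_cast; linarith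
  have r1 : S.Run (2 * c.σ0) j (2 * n) := fun l hl => (zfacts hs hm (hy l hl)).1
  have r2 : S.Run (2 * c.σ0) (S.T j) (2 * n) := fun l hl => by
    rw [S.comm_pow]; exact (zfacts hs hm (hy l hl)).2.1
  have r1' : S.Run (c.σ0 / 2) j (2 * n) := fun l hl => (r1 l hl).mono (by linarith only [hε, h64])
  have r2' : S.Run (c.σ0 / 2) (S.T j) (2 * n) := fun l hl => (r2 l hl).mono (by linarith only [hε, h64])
  have E1 := xc_err hs ξ hσ hΛ hB hq hN r1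
  have E2 := xc_err hs ξ hσ hΛ hB hq hN r2
  have kp : ∀ i, S.InB (2 * c.σ0) i → 0 < S.κ i := fun i hi =>
    (S.kappa_pos hε (by linarith only [hε, h64]) hi).1
  have sb : ∀ i, S.InB (2 * c.σ0) i → |S.Sθ i| ≤ q * ε ^ 2 := fun i hi => by
    have := (incr_bd ξ hs.sm (hi.mono (by linarith only [hε, h64]))).1
    rwa [show 8 * ε ^ 2 / (c.σ0 / 2 * c.f0 ^ 2) = q * ε ^ 2 by rw [hq]; ring] at this
  have j0 : S.InB (2 * c.σ0) j := by simpa using r1 0 (Nat.zero_le _)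
  have j0' : S.InB (2 * c.σ0) (S.T j) := by simpa using r2 0 (Nat.zero_le _)
  have k0 := kp _ j0
  have k0' := kp _ j0'
  have hl := hk j (j0.mono (by linarith only [hε, h64])) (j0'.mono (by linarith only [hε, h64]))
  have term : ∀ i, ∀ l ≤ 2 * n, S.Run (2 * c.σ0) i (2 * n) → ∀ D,
      ε * |ξ.β ((S.R ^ l) i)| ≤ D → |S.κ i / S.κ ((S.R ^ l) i) *
        (S.Sθ ((S.R ^ l) i) * ξ.β ((S.R ^ l) i))| ≤ 2 * q * ε * D := by
    intro i l hl hi D hD
    have i0 : S.InB (2 * c.σ0) i := by simpa using hi 0 (Nat.zero_le _)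
    have p0 := kp _ i0
    have p1 := kp _ (hi l hl)
    have p2 := (kratio hs.sm (fun l hl => (hi l hl).mono (by linarith only [hε, h64])) hl).1
    have p3 : S.κ i / S.κ ((S.R ^ l) i) ≤ 2 := by rwa [div_le_iff₀ p1]
    rw [abs_mul, abs_mul, abs_of_pos (div_pos p0 p1)]
    calc _ ≤ 2 * (q * ε ^ 2 * |ξ.β ((S.R ^ l) i)|) :=
          mul_le_mul p3 (mul_le_mul_of_nonneg_right (sb _ (hi l hl)) (abs_nonneg _))
            (by positivity) (by norm_num)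
      _ = 2 * q * ε * (ε * |ξ.β ((S.R ^ l) i)|) := by ring
      _ ≤ _ := mul_le_mul_of_nonneg_left hD (by positivity)
  have main := xc_sum (n := n) (by omega) E1 E2 hl
    (D := 2 * (2 * q * ε * (Cz * (C1 + 1) * M)) + 2 * q * ε * (C1 * M)) (by positivity)
    (fun l hl' hne => by
      have t1 := term j l hl'.le r1 _ (hb l hl' hne)
      have t2 := term (S.T j) l hl'.le r2 (Cz * (C1 + 1) * M) (by
        rw [S.comm_pow]
        have u1 := mul_le_mul_of_nonneg_left (hZ _ (hy l hl'.le)).2 hε.le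
        have u2 := hb l hl' hne
        have u3 : ε * (M / Λ) ≤ 1 * M := mul_le_mul hε1 hMΛ hMΛ0 zero_le_one
        have u4 := mul_le_mul_of_nonneg_left (add_le_add u2 u3) hCz.le
        linarith only [u1, u4])
      refine (abs_sub _ _).trans (add_le_add ?_ t1)
      rw [abs_mul]
      refine mul_le_mul ?_ t2 (abs_nonneg _) (by norm_num)
      obtain ⟨u, v⟩ := abs_le.1 hl
      rw [abs_le]; constructor <;> linarith only [u, v])
  simp only [S.comm_pow] at main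
  have hnn : n ≤ 2 * n := by omega
  have kn := kp _ (r1 n hnn)
  have jn' := r2 n hnn
  rw [S.comm_pow] at jn'
  have kn' := kp _ jn'
  have lhs : |S.κ j / S.κ (S.T j) * (S.κ (S.T j) * (ξ.ζ (S.T ((S.R ^ (2 * n)) j)) - ξ.ζ (S.T j))) -
      S.κ j * (ξ.ζ ((S.R ^ (2 * n)) j) - ξ.ζ j)| ≤ 3 * η' * M := by
    have e : S.κ j / S.κ (S.T j) * (S.κ (S.T j) * (ξ.ζ (S.T ((S.R ^ (2 * n)) j)) - ξ.ζ (S.T j))) -
        S.κ j * (ξ.ζ ((S.R ^ (2 * n)) j) - ξ.ζ j) =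
        S.κ j * (ξ.ζ (S.T ((S.R ^ (2 * n)) j)) - ξ.ζ ((S.R ^ (2 * n)) j)) -
          S.κ j * (ξ.ζ (S.T j) - ξ.ζ j) := by
      field_simp
      ring
    rw [e]
    refine (abs_sub _ _).trans ?_
    rw [abs_mul, abs_mul, abs_of_pos k0]
    have u1 := mul_le_mul_of_nonneg_right (kratio hs.sm r1' le_rfl).1
      (abs_nonneg (ξ.ζ (S.T ((S.R ^ (2 * n)) j)) - ξ.ζ ((S.R ^ (2 * n)) j)))
    linarith only [h0, h1, u1]
  have ee : ((2 * n : ℕ) : ℝ) * |ξ.e| ≤ 2 * r * M := by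
    have u1 := mul_le_mul_of_nonneg_left hB.be (Nat.cast_nonneg (α := ℝ) (2 * n))
    have u2 := mul_le_mul_of_nonneg_right hN hM
    linarith only [u1, u2]
  have ed : ((2 * n : ℕ) : ℝ) * (2 * (2 * q * ε * (Cz * (C1 + 1) * M)) + 2 * q * ε * (C1 * M)) ≤
      r * (4 * q * C1 + 8 * q * (Cz * (C1 + 1))) * M := by
    have u1 := mul_le_mul_of_nonneg_right hN
      (by positivity : 0 ≤ (2 * q * C1 + 4 * q * (Cz * (C1 + 1))) * M)
    linarith only [u1]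
  have ex : S.κ j / S.κ (S.T j) * (S.κ (S.T j) / S.κ (S.T ((S.R ^ n) j)) *
        (S.Sθ (S.T ((S.R ^ n) j)) * ξ.β (S.T ((S.R ^ n) j)))) -
      S.κ j / S.κ ((S.R ^ n) j) * (S.Sθ ((S.R ^ n) j) * ξ.β ((S.R ^ n) j)) =
      S.κ j / S.κ ((S.R ^ n) j) * (S.κ ((S.R ^ n) j) / S.κ (S.T ((S.R ^ n) j)) *
        (S.Sθ (S.T ((S.R ^ n) j)) * (S.κ ((S.R ^ n) j) / S.κ (S.T ((S.R ^ n) j)) *
          (ξ.b (S.T ((S.R ^ n) j)) / S.κ ((S.R ^ n) j)))) -
        S.Sθ ((S.R ^ n) j) * ξ.β ((S.R ^ n) j)) := by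
    rw [show ξ.β (S.T ((S.R ^ n) j)) = ξ.b (S.T ((S.R ^ n) j)) / S.κ (S.T ((S.R ^ n) j)) from rfl]
    field_simp
  rw [ex] at main
  refine xc_last hq0 (sq_nonneg ε) ?_
    (hk _ ((r1 n hnn).mono (by linarith only [hε, h64])) (jn'.mono (by linarith only [hε, h64]))) (sb _ jn') hg
    ((hZ _ (hy n hnn)).1.trans (mul_le_mul_of_nonneg_left (by linarith only [hMΛ]) hCz.le))
    (main.trans (by linarith only [lhs, ee, ed]))
  rw [le_div_iff₀ kn]
  linarith only [hnn, (kratio hs.sm r1' hnn).2.1]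

theorem xcore (c : Ctx f g) {C1 η : ℝ} (hC1 : 0 < C1) (hη : 0 < η) :
    ∃ η' > (0:ℝ), ∀ᶠ r in 𝓝[>] (0:ℝ), EvAll c fun _ _ ε _ S ξ M => ∀ (j) (n : ℕ), 1 ≤ n →
      n * ε ≤ r → (∀ l ≤ 2 * n, |S.yO ((S.R ^ l) j) - c.ys| ≤ c.η / 4) →
      (∀ l < 2 * n, l ≠ n → ε * |ξ.β ((S.R ^ l) j)| ≤ C1 * M) →
      S.κ j * |ξ.ζ (S.T j) - ξ.ζ j| ≤ η' * M →
      S.κ ((S.R ^ (2 * n)) j) * |ξ.ζ (S.T ((S.R ^ (2 * n)) j)) - ξ.ζ ((S.R ^ (2 * n)) j)| ≤
        η' * M →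
      (c.η / 4 ≤ -(S.t2 ((S.R ^ n) j) * S.m1 ((S.R ^ n) j)) ∨
        c.η / 4 ≤ S.t2 ((S.R ^ n) j) * S.m1 (S.T ((S.R ^ n) j))) →
      ε ^ 2 * |ξ.β ((S.R ^ n) j)| ≤ η * M ∧ ε ^ 2 * |ξ.β (S.T ((S.R ^ n) j))| ≤ η * M := by
  obtain ⟨z, hz, hG⟩ := gap_step c
  obtain ⟨Cz, hCz, hZ⟩ := zlink_cmp c
  have hσ0 := c.σ0pos
  have hf0 := c.f0pos
  obtain ⟨q, hq⟩ : ∃ q, q = 8 / (c.σ0 / 2 * c.f0 ^ 2) := ⟨_, rfl⟩
  have hq0 : 0 < q := by rw [hq]; positivity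
  obtain ⟨K, hK⟩ : ∃ K, K = 4 + 12 * q ^ 2 + 4 * q * C1 + 8 * q * (Cz * (C1 + 1)) := ⟨_, rfl⟩
  have hK0 : 0 < K := by rw [hK]; positivity
  obtain ⟨η1, hη1, b1, b2⟩ : ∃ η1 : ℝ, 0 < η1 ∧ η1 ≤ η ∧ Cz * η1 ≤ η / 2 := by
    refine ⟨min η (η / 2 / Cz), lt_min hη (by positivity), min_le_left _ _, ?_⟩
    have := min_le_right η (η / 2 / Cz)
    rwa [le_div_iff₀' hCz] at this
  refine ⟨z * η1 / 36, by positivity, ?_⟩
  have hk := kap_link c.toCtx0 hσ0 le_rfl (δ := 1 / 2) (by norm_num)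
  filter_upwards [ev_le (a := z * η1 / 12 / K) (by positivity)] with r hr
  unfold EvG0 at hk
  unfold EvG at hG
  unfold EvAll at hZ ⊢
  filter_upwards [hZ, eventually_ge_atTop (1:ℝ)] with Λ hZ hΛ
  filter_upwards [hZ, c.ev_σ] with σ hZ hσ
  filter_upwards [hZ, hG, hk, c.toCtx0.ev_small, ev_le (a := 1) one_pos,
    ev_le (a := z / 2 / (4 * q * Cz)) (by positivity),
    ev_le (a := z * η1 / 6 / (4 * q * Cz)) (by positivity),
    ev_le (a := η / 2 / Cz) (by positivity)]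
    with ε hZ hG hk hs e1 e2 e3 e4 I S yL yR ς hm ξ M hB j n hn hnr hy hb h0 h1 hcase
  have hε := hs.εpos
  have hM := hB.nn
  have hnn : n ≤ 2 * n := by omega
  have hZ' := hZ I S yL yR ς hm ξ M hB
  have main := xc_core hs hm ξ hσ.2 hΛ hB hq hCz hC1
    (fun j a b => (hk I S yL yR hm.toMg0 j a b).2)
    (fun j a => ⟨(hZ' j a).2.1, (hZ' j a).2.2.1⟩) hn hnr hy hb h0 h1
    (hG I S yL yR ς hm _ (hy n hnn) hcase)
  rw [← hK] at main
  have hT := (hZ' _ (hy n hnn)).2.2.1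
  have hMΛ : M / Λ ≤ M := div_le_self hM hΛ
  have hee : ε ^ 2 ≤ ε := by nlinarith only [e1, e1.2]
  have c1 : r * K ≤ z * η1 / 12 := (le_div_iff₀ hK0).1 hr.2
  have c2 : ε ^ 2 * (4 * q * Cz) ≤ z / 2 := (le_div_iff₀ (by positivity)).1 (hee.trans e2.2)
  have c3 : ε ^ 2 * (4 * q * Cz) ≤ z * η1 / 6 := (le_div_iff₀ (by positivity)).1 (hee.trans e3.2)
  have c4 : ε ^ 2 * Cz ≤ η / 2 := (le_div_iff₀ hCz).1 (hee.trans e4.2)
  have hY : 0 ≤ ε ^ 2 * |ξ.β ((S.R ^ n) j)| := by positivity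
  have d1 := mul_le_mul_of_nonneg_right c1 hM
  have d2 := mul_le_mul_of_nonneg_right c2 hY
  have d3 := mul_le_mul_of_nonneg_right c3 hM
  have d4 := mul_le_mul_of_nonneg_right c4 hM
  have d5 : ε ^ 2 * |ξ.β ((S.R ^ n) j)| ≤ η1 * M := by
    refine le_of_mul_le_mul_left ?_ hz
    linarith only [main, d1, d2, d3]
  have d6 := mul_le_mul_of_nonneg_right b1 hM
  have d7 := mul_le_mul_of_nonneg_right b2 hM
  refine ⟨by linarith only [d5, d6], ?_⟩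
  have d8 := mul_le_mul_of_nonneg_left hT (sq_nonneg ε)
  have d9 := mul_le_mul_of_nonneg_left d5 hCz.le
  have d10 := mul_le_mul_of_nonneg_left hMΛ (by positivity : 0 ≤ ε ^ 2 * Cz)
  linarith only [d4, d7, d8, d9, d10]

end XR
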