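import Pool.Agent.P.MP_408b1f_gt.XCore

/-! The exceptional step. Constants in this order: Cp (plink_bd), Cz (zlink_cmp),
C1 = (Cz + 1) (31 + 2 Cp / f0), eta' (xcore), l with Cz * 30 / l <= eta' / 2, s (plink_bd), then r
small (below the thresholds of xcore, of flat with delta = eta / 4, and
2 r / sigma0 <= min s (eta / 4) (f0 / 2)), then Lambda with Cz (3 Cp / (f0 r) + 1) / Lambda <= eta' / 2.
Take n = floor (r / eps) >= 1, n eps >= r / 2. In xlemA let i0 = T.symm j0 (yO_Tsymm), windows from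
hwin for j0 and i0 (the start index of the second is T.symm of the first, comm_pow_symm); pfacts,
pchord give chords of length >= (|l - n| - 1/4) f0 eps >= (3/4) f0 eps for l different from n and
>= (3/8) f0 r at l = 0, 2 n; plink_bd (second component) bounds beta; zlink_cmp bounds the two end
differences. Gap condition: t1 j0 m1 j0 = kP - kO (G1.m1_eq), |kP j0| <= eta / 4 (flat at i0),
|kO j0| >= eta / 2 (hslope) with the sign of t2 j0 * t1 j0. In xlemB the link near ys is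
k0 = T.symm j0, the degenerate link is j0; use the first component of plink_bd, then zlink_cmp to pass
to the k run; |kO j0| <= eta / 4 (flat at j0), |kP j0| >= eta / 2 with the sign of t2 k0 * t1 j0. -/

open Set MeasureTheory Filter Topology

noncomputable section

namespace XR

variable {f g : ℝ → ℝ}

section aux

variable {ε : ℝ} {I : Type} {S : Sys f g ε I} {yL yR ς : ℝ}

theorem xlem_win {c : Ctx f g} (hs : c.Small ε) (hm : Mg c.η c.ys S yL yR ς) {r : ℝ} {n : ℕ}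
    (hnr : n * ε ≤ r) (hrσ : r ≤ c.σ0) (hδ : 2 * (r / c.σ0) ≤ c.η / 4)
    (hδ' : 2 * (r / c.σ0) ≤ c.f0 / 2) {i0 : I} (hx : |S.x (S.T i0) - S.x i0| < c.f0 / 4 * ε)
    (hy : S.yO i0 ≤ r ∨ 1 - r ≤ S.yO i0) :
    ∃ i, (S.R ^ n) i = i0 ∧ ∀ l ≤ 2 * n,
      (S.yO ((S.R ^ l) i) ≤ 2 * (r / c.σ0) ∨ 1 - 2 * (r / c.σ0) ≤ S.yO ((S.R ^ l) i)) ∧
      |S.yP ((S.R ^ l) i) - S.yP i0| ≤ r / c.σ0 ∧
      |S.yO (S.T ((S.R ^ l) i)) - S.yO (S.T i0)| ≤ r / c.σ0 ∧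
      (|(l : ℝ) - n| - 1 / 4) * (c.f0 * ε) ≤ |S.x (S.T ((S.R ^ l) i)) - S.x ((S.R ^ l) i)| := by
  have hσ := c.σ0pos
  have hσ8 := c.toCtx0.σ0_le
  have hε := hs.εpos
  have hr0 : 0 ≤ r := le_trans (by positivity) hnr
  have hrr : r ≤ r / c.σ0 := by
    rw [le_div_iff₀ hσ]; nlinarith only [hr0, hσ8]
  have hq : n * ε / c.σ0 ≤ r / c.σ0 := div_le_div_of_nonneg_right hnr hσ.le
  obtain ⟨τ, hτ, hτ0⟩ : ∃ τ : ℝ, (τ = 1 ∨ τ = -1) ∧
      ((τ = 1 ∧ 1 - r ≤ S.yO i0) ∨ (τ = -1 ∧ S.yO i0 ≤ r)) := by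
    rcases hy with h | h
    · exact ⟨-1, Or.inr rfl, Or.inr ⟨rfl, h⟩⟩
    · exact ⟨1, Or.inl rfl, Or.inl ⟨rfl, h⟩⟩
  have hp0 := pfacts hs hm (i := i0) (τ := τ) hδ hδ' (by
    rcases hτ0 with h | h
    · exact Or.inl ⟨h.1, by linarith only [hr0, hrr, h, h.2]⟩
    · exact Or.inr ⟨h.1, by linarith only [hr0, hrr, h, h.2]⟩)
  obtain ⟨i, hi, hrun, hw⟩ := hwin hs hp0.1 (n := n) (hnr.trans hrσ)
  obtain ⟨i', hi', hrun', hw'⟩ := hwin hs hp0.2.1 (n := n) (hnr.trans hrσ)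
  have hii : i' = S.T i := by
    apply (S.R ^ n).injective
    rw [hi', S.comm_pow, hi]
  subst hii
  have hht : ∀ l ≤ 2 * n, (τ = 1 ∧ 1 - 2 * (r / c.σ0) ≤ S.yO ((S.R ^ l) i)) ∨
      (τ = -1 ∧ S.yO ((S.R ^ l) i) ≤ 2 * (r / c.σ0)) := by
    intro l hl
    have h2 := abs_le.1 (hw l hl).2.1
    rcases hτ0 with h | h
    · exact Or.inl ⟨h.1, by linarith only [hrr, hq, h2, h, h.2, h2.1]⟩
    · exact Or.inr ⟨h.1, by linarith only [hrr, hq, h2, h, h.2, h2.2]⟩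
  have hp := pfacts hs hm (i := i) (τ := τ) hδ hδ' (by simpa using hht 0 (Nat.zero_le _))
  refine ⟨i, hi, fun l hl => ⟨?_, (hw l hl).2.2.trans hq, ?_, ?_⟩⟩
  · rcases hht l hl with h | h
    · exact Or.inr h.2
    · exact Or.inl h.2
  · have := (hw' l hl).2.1
    rw [S.comm_pow] at this
    exact this.trans hq
  · have hx' := abs_lt.1 hx
    have key : ∀ a : ℝ, τ * a ≤ |a| ∧ -(τ * a) ≤ |a| := by
      intro a
      rcases hτ with h | h <;> rw [h] <;> constructor <;> linarith only [le_abs_self a, neg_abs_le a]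
    have k0 := key (S.x (S.T i0) - S.x i0)
    have k1 := key (S.x (S.T ((S.R ^ l) i)) - S.x ((S.R ^ l) i))
    rcases le_total l n with h | h
    · have h1 := pchord hs hrun hrun' hp.2.2.1 hp.2.2.2 h (by omega : n ≤ 2 * n)
      rw [hi] at h1
      have h2 : (l : ℝ) - n ≤ 0 := by
        have : (l : ℝ) ≤ n := by exact_mod_cast h
        linarith only [this]
      rw [abs_of_nonpos h2]
      nlinarith only [hx, k0, k1, h1, k0.1, k1.2]
    · have h1 := pchord hs hrun hrun' hp.2.2.1 hp.2.2.2 h hl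
      rw [hi] at h1
      have h2 : 0 ≤ (l : ℝ) - n := by
        have : (n : ℝ) ≤ l := by exact_mod_cast h
        linarith only [this]
      rw [abs_of_nonneg h2]
      nlinarith only [hx, k0, k1, h1, k0.2, k1.1]

/-- bounds for beta along the window of a degenerate link -/
theorem xlem_bd {c : Ctx f g} (hs : c.Small ε) (hm : Mg c.η c.ys S yL yR ς) {r : ℝ} {n : ℕ}
    (hn1 : 1 ≤ n) (hnr : n * ε ≤ r) (hnr' : r / 2 ≤ n * ε) (hrσ : r ≤ c.σ0)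
    (hδ : 2 * (r / c.σ0) ≤ c.η / 4) (hδ' : 2 * (r / c.σ0) ≤ c.f0 / 2) {Cp l0 s Λ M : ℝ}
    (hCp : 0 < Cp) (hl0 : 1 ≤ l0) (hΛ : 1 ≤ Λ) (hM : 0 ≤ M) (hδs : 2 * (r / c.σ0) ≤ s)
    (ξ : Lin S)
    (hP : ∀ i d, (S.yO i ≤ s ∨ 1 - s ≤ S.yO i) → 0 < d →
      d ≤ |S.x (S.T i) - S.x i| → |ξ.β i| ≤ (30 / l0 + Cp / (d * Λ)) * M ∧
        |ξ.β (S.T i)| ≤ (30 / l0 + Cp / (d * Λ)) * M)
    {i0 : I} (hx : |S.x (S.T i0) - S.x i0| < c.f0 / 4 * ε)
    (hy : S.yO i0 ≤ r ∨ 1 - r ≤ S.yO i0) :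
    ∃ i, (S.R ^ n) i = i0 ∧ ∀ l ≤ 2 * n,
      |S.yP ((S.R ^ l) i) - S.yP i0| ≤ r / c.σ0 ∧
      |S.yO (S.T ((S.R ^ l) i)) - S.yO (S.T i0)| ≤ r / c.σ0 ∧
      (l ≠ n → ε * |ξ.β ((S.R ^ l) i)| ≤ (30 + 2 * Cp / c.f0) * M ∧
        ε * |ξ.β (S.T ((S.R ^ l) i))| ≤ (30 + 2 * Cp / c.f0) * M) ∧
      ((l = 0 ∨ l = 2 * n) → |ξ.β ((S.R ^ l) i)| ≤ (30 / l0 + 3 * Cp / (c.f0 * r) / Λ) * M ∧
        |ξ.β (S.T ((S.R ^ l) i))| ≤ (30 / l0 + 3 * Cp / (c.f0 * r) / Λ) * M) := by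
  obtain ⟨i, hi, hw⟩ := xlem_win hs hm hnr hrσ hδ hδ' hx hy
  have hε := hs.εpos
  have hf0 := c.f0pos
  have hσ8 := c.toCtx0.σ0_le
  have hε1 : ε ≤ 1 := by linarith only [hσ8, hs.leσ]
  have hn : (1 : ℝ) ≤ n := by exact_mod_cast hn1
  have hr : 0 < r := lt_of_lt_of_le (by positivity) hnr
  refine ⟨i, hi, fun l hl => ?_⟩
  obtain ⟨h1, h2, h3, h4⟩ := hw l hl
  have h1' : S.yO ((S.R ^ l) i) ≤ s ∨ 1 - s ≤ S.yO ((S.R ^ l) i) := by
    rcases h1 with h | h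
    · exact Or.inl (by linarith only [hδs, h])
    · exact Or.inr (by linarith only [hδs, h])
  refine ⟨h2, h3, fun hln => ?_, fun hl0' => ?_⟩
  · have ha : (1 : ℝ) ≤ |(l : ℝ) - n| := by
      rcases Nat.lt_or_gt_of_ne hln with h | h
      · have : (l : ℝ) + 1 ≤ n := by exact_mod_cast h
        rw [le_abs]; right; linarith only [this]
      · have : (n : ℝ) + 1 ≤ l := by exact_mod_cast h
        rw [le_abs]; left; linarith only [this]
    have hd : c.f0 * ε / 2 ≤ |S.x (S.T ((S.R ^ l) i)) - S.x ((S.R ^ l) i)| := by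
      refine le_trans ?_ h4
      have : 0 < c.f0 * ε := by positivity
      nlinarith only [hrσ, this, hσ8, hr, ha]
    obtain ⟨b1, b2⟩ := hP _ _ h1' (by positivity) hd
    have hc : ε * (30 / l0 + Cp / (c.f0 * ε / 2 * Λ)) ≤ 30 + 2 * Cp / c.f0 := by
      have e1 : ε * (30 / l0 + Cp / (c.f0 * ε / 2 * Λ)) = 30 * (ε / l0) + 2 * Cp / c.f0 / Λ := by
        field_simp
      have e2 : ε / l0 ≤ 1 := by rw [div_le_one (by linarith only [hrσ, hl0, hσ8, hr])]; linarith only [hl0, hε1]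
      have e3 : 2 * Cp / c.f0 / Λ ≤ 2 * Cp / c.f0 := div_le_self (by positivity) hΛ
      rw [e1]; linarith only [e2, e3]
    have hc' := mul_le_mul_of_nonneg_right hc hM
    constructor
    · have := mul_le_mul_of_nonneg_left b1 hε.le
      linarith only [hc', this, mul_assoc ε (30 / l0 + Cp / (c.f0 * ε / 2 * Λ)) M]
    · have := mul_le_mul_of_nonneg_left b2 hε.le
      linarith only [hc', this, mul_assoc ε (30 / l0 + Cp / (c.f0 * ε / 2 * Λ)) M]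
  · have ha : |(l : ℝ) - n| = n := by
      rcases hl0' with h | h
      · rw [h]; simp
      · rw [h]; push_cast
        rw [abs_of_nonneg (by linarith only [hrσ, hσ8, hn, hr])]; ring
    rw [ha] at h4
    have hd : c.f0 * r / 3 ≤ |S.x (S.T ((S.R ^ l) i)) - S.x ((S.R ^ l) i)| := by
      refine le_trans ?_ h4
      have e1 : c.f0 * (r / 2) ≤ c.f0 * (n * ε) := mul_le_mul_of_nonneg_left hnr' hf0.le
      have e2 : 0 ≤ (n - 1) * (c.f0 * ε) := mul_nonneg (by linarith only [hn]) (by positivity)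
      have e3 : 0 < c.f0 * r := by positivity
      nlinarith only [e1, e2, e3]
    have e1 : Cp / (c.f0 * r / 3 * Λ) = 3 * Cp / (c.f0 * r) / Λ := by
      field_simp
    have := hP _ _ h1' (by positivity) hd
    rwa [e1] at this

theorem xlem_sgn {t t' k' a : ℝ} (ht : t = 1 ∨ t = -1) (ht' : t' = 1 ∨ t' = -1)
    (hk : |k'| ≤ a) : -a ≤ t * t' * k' ∧ t * t' * k' ≤ a := by
  have := abs_le.1 hk
  rcases ht with h | h <;> rcases ht' with h' | h' <;> rw [h, h'] <;> constructor <;>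
    linarith only [this, this.1, this.2]

theorem xlem_gapA {c : Ctx f g} (hs : c.Small ε) (hm : Mg c.η c.ys S yL yR ς) {j : I}
    (h : |S.yO j - c.ys| ≤ c.η / 4) (hk : |S.kP j| ≤ c.η / 4) :
    c.η / 4 ≤ -(S.t2 j * S.m1 j) := by
  have hη := c.ηpos
  have hσ := c.σ0pos
  obtain ⟨z1, z2, z3, z4, z5, z6, z7⟩ := zfacts hs hm h
  obtain ⟨g1, b1, b2, b3, b4, b5⟩ := S.g1_of hs.εpos (by linarith only [hσ, hs.leσ, hs.εpos]) z1
  have hsl := z3.hslope (a := c.η / 2) (by positivity) (by linarith only [hη, z6.1]) (by linarith only [hη, z6.2])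
  have e1 := geo3_slope z3.1.ht g1.1.ht g1.1.hu' z3.1.hu' hsl.1 b3
  have e2 := (xlem_sgn z3.1.ht g1.1.ht hk).2
  have e3 := g1.m1_eq.1
  have e4 : S.t1 j * S.t1 j = 1 := by rcases g1.1.ht with h | h <;> rw [h] <;> norm_num
  have e5 : -(S.t2 j * S.m1 j) = S.t2 j * S.t1 j * S.kO j - S.t2 j * S.t1 j * S.kP j := by
    linear_combination (S.t2 j * S.t1 j) * e3 + (S.t2 j * S.m1 j) * e4
  have e6 : c.η / 2 ≤ S.t2 j * S.t1 j * S.kO j := e1.1
  linarith only [e2, e5, e6]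

theorem xlem_gapB {c : Ctx f g} (hs : c.Small ε) (hm : Mg c.η c.ys S yL yR ς) {j : I}
    (h : |S.yO j - c.ys| ≤ c.η / 4) (hk : |S.kO (S.T j)| ≤ c.η / 4) :
    c.η / 4 ≤ S.t2 j * S.m1 (S.T j) := by
  have hη := c.ηpos
  have hσ := c.σ0pos
  obtain ⟨z1, z2, z3, z4, z5, z6, z7⟩ := zfacts hs hm h
  obtain ⟨g1, b1, b2, b3, b4, b5⟩ := S.g1_of hs.εpos (by linarith only [hσ, hs.leσ, hs.εpos]) z2
  have hsl := z3.hslope (a := c.η / 2) (by positivity) (by linarith only [hη, z6.1]) (by linarith only [hη, z6.2])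
  have e1 := geo3_slope z3.1.ht g1.1.ht g1.1.hu z3.1.hu hsl.2.2.1 b1
  have e2 := (xlem_sgn z3.1.ht g1.1.ht hk).2
  have e3 := g1.m1_eq.1
  have e4 : S.t1 (S.T j) * S.t1 (S.T j) = 1 := by
    rcases g1.1.ht with h | h <;> rw [h] <;> norm_num
  have e5 : S.t2 j * S.m1 (S.T j) =
      S.t2 j * S.t1 (S.T j) * S.kP (S.T j) - S.t2 j * S.t1 (S.T j) * S.kO (S.T j) := by
    linear_combination (-(S.t2 j * S.t1 (S.T j))) * e3 - (S.t2 j * S.m1 (S.T j)) * e4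
  have e6 : c.η / 2 ≤ S.t2 j * S.t1 (S.T j) * S.kP (S.T j) := e1.1
  linarith only [e2, e5, e6]

end aux

theorem xlemAB (c : Ctx f g) {η : ℝ} (hη : 0 < η) :
    ∀ᶠ r in 𝓝[>] (0:ℝ), EvAll c fun _ _ ε _ S ξ M => (∀ j0,
      |S.x j0 - S.x (S.T.symm j0)| < c.f0 / 4 * ε → (S.yP j0 ≤ r ∨ 1 - r ≤ S.yP j0) →
      |S.yO j0 - c.ys| ≤ r → ε ^ 2 * |ξ.β j0| ≤ η * M) ∧ ∀ j0,
      |S.x (S.T j0) - S.x j0| < c.f0 / 4 * ε → (S.yO j0 ≤ r ∨ 1 - r ≤ S.yO j0) →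
      |S.yP j0 - c.ys| ≤ r → ε ^ 2 * |ξ.β j0| ≤ η * M := by
  have hf0 := c.f0pos
  have hσ0 := c.σ0pos
  have hσ8 := c.toCtx0.σ0_le
  have hcη := c.ηpos
  obtain ⟨Cp, hCp, hP⟩ := plink_bd c
  obtain ⟨Cz, hCz, hZ⟩ := zlink_cmp c
  obtain ⟨η', hη', hX⟩ := xcore c (C1 := (Cz + 1) * (31 + 2 * Cp / c.f0)) (by positivity) hη
  obtain ⟨l0, hl0, hl0'⟩ : ∃ l0 : ℝ, 1 ≤ l0 ∧ Cz * (30 / l0) ≤ η' / 2 := by
    refine ⟨1 + 60 * Cz / η', le_add_of_nonneg_right (by positivity), ?_⟩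
    rw [← mul_div_assoc, div_le_iff₀ (by positivity)]
    have : η' / 2 * (1 + 60 * Cz / η') = η' / 2 + Cz * 30 := by field_simp; ring
    rw [this]; linarith only [hη']
  obtain ⟨s, hs0, hP⟩ := hP l0 hl0
  filter_upwards [hX, flat c (δ := c.η / 4) (by positivity), ev_le hσ0,
    ev_le (a := s * c.σ0 / 2) (by positivity), ev_le (a := c.η / 4 * c.σ0 / 2) (by positivity),
    ev_le (a := c.f0 / 2 * c.σ0 / 2) (by positivity)] with r hX hF hr r1 r2 r3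
  have hr0 := hr.1
  have d1 : 2 * (r / c.σ0) ≤ s := by
    rw [← mul_div_assoc, div_le_iff₀ hσ0]; linarith only [r1, r1.2]
  have d2 : 2 * (r / c.σ0) ≤ c.η / 4 := by
    rw [← mul_div_assoc, div_le_iff₀ hσ0]; linarith only [r2, r2.2]
  have d3 : 2 * (r / c.σ0) ≤ c.f0 / 2 := by
    rw [← mul_div_assoc, div_le_iff₀ hσ0]; linarith only [r3, r3.2]
  have hrr : r ≤ r / c.σ0 := by
    rw [le_div_iff₀ hσ0]; nlinarith only [hr, hσ8]
  filter_upwards [hX, hP, hZ, eventually_ge_atTop 1,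
    eventually_ge_atTop (2 * (Cz * (3 * Cp / (c.f0 * r) + 1)) / η')] with Λ hX hP hZ hΛ hΛ'
  filter_upwards [hX, hP, hZ] with σ hX hP hZ
  filter_upwards [hX, hP, hZ, hF, c.toCtx0.ev_small, ev_le (a := r / 2) (by positivity)]
    with ε hX hP hZ hF hs hεr I S yL yR ς hm ξ M hB
  replace hX := hX I S yL yR ς hm ξ M hB
  replace hP := hP I S yL yR ς hm ξ M hB
  replace hZ := hZ I S yL yR ς hm ξ M hB
  replace hF := hF I S yL yR ς hm
  have hε := hs.εpos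
  have hε1 : ε ≤ 1 := by linarith only [hσ8, hr, hεr, hs.leσ]
  have hM := hB.nn
  obtain ⟨n, hn1, hnr, hnr'⟩ : ∃ n : ℕ, 1 ≤ n ∧ n * ε ≤ r ∧ r / 2 ≤ n * ε := by
    refine ⟨⌊r / ε⌋₊, ?_, ?_, ?_⟩
    · rw [Nat.one_le_floor_iff, le_div_iff₀ hε]; linarith only [hεr, hεr.2]
    · rw [← le_div_iff₀ hε]; exact Nat.floor_le (by positivity)
    · have := Nat.lt_floor_add_one (r / ε)
      rw [div_lt_iff₀ hε] at this
      linarith only [hεr, this, hεr.2]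
  have hend : ∀ b : ℝ, b ≤ (30 / l0 + 3 * Cp / (c.f0 * r) / Λ) * M →
      Cz * (b + M / Λ) ≤ η' * M := by
    intro b hb
    have e1 : Cz * (3 * Cp / (c.f0 * r) + 1) / Λ ≤ η' / 2 := by
      rw [div_le_iff₀ (by linarith only [hσ8, hr, hΛ, hεr])]
      rw [div_le_iff₀ hη'] at hΛ'
      linarith only [hΛ']
    have e2 : Cz * ((30 / l0 + 3 * Cp / (c.f0 * r) / Λ) * M + M / Λ) =
        (Cz * (30 / l0) + Cz * (3 * Cp / (c.f0 * r) + 1) / Λ) * M := by ring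
    calc Cz * (b + M / Λ) ≤ Cz * ((30 / l0 + 3 * Cp / (c.f0 * r) / Λ) * M + M / Λ) := by
          gcongr
      _ = _ := e2
      _ ≤ η' * M := by
          apply mul_le_mul_of_nonneg_right _ hM
          linarith only [hl0', e1]
  have hQ : 0 < 2 * Cp / c.f0 := by positivity
  constructor
  · intro j0 hx hy hz
    have hT : S.T (S.T.symm j0) = j0 := S.T.apply_symm_apply j0
    have hx' : |S.x (S.T (S.T.symm j0)) - S.x (S.T.symm j0)| < c.f0 / 4 * ε := by rwa [hT]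
    have hy' : S.yO (S.T.symm j0) ≤ r ∨ 1 - r ≤ S.yO (S.T.symm j0) := by rwa [S.yO_Tsymm]
    obtain ⟨i, hi, hw⟩ := xlem_bd hs hm hn1 hnr hnr' hr.2 d2 d3 hCp hl0 hΛ hM d1 ξ hP hx' hy'
    have hj : (S.R ^ n) (S.T i) = j0 := by rw [S.comm_pow, hi, hT]
    have hh : ∀ l ≤ 2 * n, |S.yO ((S.R ^ l) (S.T i)) - c.ys| ≤ c.η / 4 := by
      intro l hl
      have h1 := abs_le.1 (hw l hl).2.1
      have h2 := abs_le.1 hz
      rw [hT] at h1
      rw [S.comm_pow, abs_le]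
      constructor <;> linarith only [d2, hrr, h1, h2, h1.1, h1.2, h2.1, h2.2]
    have := hX (S.T i) n hn1 hnr hh ?_ ?_ ?_ ?_
    · rw [hj] at this; exact this.1
    · intro l hl hln
      rw [S.comm_pow]
      refine ((hw l hl.le).2.2.1 hln).2.trans (mul_le_mul_of_nonneg_right ?_ hM)
      nlinarith only [hσ8, hσ0, hr, hεr, hCz, hQ]
    · refine (hZ _ (by simpa using hh 0 (Nat.zero_le _))).2.2.2.2.1.trans (hend _ ?_)
      simpa using ((hw 0 (Nat.zero_le _)).2.2.2 (Or.inl rfl)).2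
    · refine (hZ _ (hh _ le_rfl)).2.2.2.2.1.trans (hend _ ?_)
      rw [S.comm_pow]
      exact ((hw _ le_rfl).2.2.2 (Or.inr rfl)).2
    · left
      have h1 := hh n (by omega)
      rw [hj] at h1 ⊢
      refine xlem_gapA hs hm h1 ?_
      have := (hF _ hx' hy').1
      rwa [hT] at this
  · intro j0 hx hy hz
    obtain ⟨i, hi, hw⟩ := xlem_bd hs hm hn1 hnr hnr' hr.2 d2 d3 hCp hl0 hΛ hM d1 ξ hP hx hy
    have hT : ∀ l : ℕ, S.T ((S.R ^ l) (S.T.symm i)) = (S.R ^ l) i := by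
      intro l; rw [S.comm_pow_symm, S.T.apply_symm_apply]
    have hh : ∀ l ≤ 2 * n, |S.yO ((S.R ^ l) (S.T.symm i)) - c.ys| ≤ c.η / 4 := by
      intro l hl
      have h1 := abs_le.1 (hw l hl).1
      have h2 := abs_le.1 hz
      rw [S.comm_pow_symm, S.yO_Tsymm, abs_le]
      constructor <;> linarith only [d2, hrr, h1, h2, h1.1, h1.2, h2.1, h2.2]
    have := hX (S.T.symm i) n hn1 hnr hh ?_ ?_ ?_ ?_
    · rw [hT, hi] at this; exact this.2
    · intro l hl hln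
      have h1 := (hZ _ (hh l hl.le)).2.2.2.1
      rw [hT] at h1
      have h2 := ((hw l hl.le).2.2.1 hln).1
      have h3 : ε * (M / Λ) ≤ M := by
        have : M / Λ ≤ M := div_le_self hM hΛ
        have h0 : 0 ≤ M / Λ := by positivity
        nlinarith only [hM, hσ0, hσ8, hr, hεr, this]
      calc ε * |ξ.β ((S.R ^ l) (S.T.symm i))| ≤ ε * (Cz * (|ξ.β ((S.R ^ l) i)| + M / Λ)) := by
            gcongr
        _ = Cz * (ε * |ξ.β ((S.R ^ l) i)| + ε * (M / Λ)) := by ring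
        _ ≤ Cz * ((30 + 2 * Cp / c.f0) * M + M) := by gcongr
        _ = Cz * (31 + 2 * Cp / c.f0) * M := by ring
        _ ≤ _ := by
            apply mul_le_mul_of_nonneg_right _ hM
            nlinarith only [hσ8, hr, hεr, hQ]
    · refine (hZ _ (by simpa using hh 0 (Nat.zero_le _))).2.2.2.2.2.trans (hend _ ?_)
      simpa using ((hw 0 (Nat.zero_le _)).2.2.2 (Or.inl rfl)).1
    · refine (hZ _ (hh _ le_rfl)).2.2.2.2.2.trans (hend _ ?_)
      rw [hT]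
      exact ((hw _ le_rfl).2.2.2 (Or.inr rfl)).1
    · right
      refine xlem_gapB hs hm (hh n (by omega)) ?_
      rw [hT, hi]
      exact (hF _ hx hy).2

theorem xlemA (c : Ctx f g) {η : ℝ} (hη : 0 < η) :
    ∀ᶠ r in 𝓝[>] (0:ℝ), EvAll c fun _ _ ε _ S ξ M => ∀ j0,
      |S.x j0 - S.x (S.T.symm j0)| < c.f0 / 4 * ε → (S.yP j0 ≤ r ∨ 1 - r ≤ S.yP j0) →
      |S.yO j0 - c.ys| ≤ r → ε ^ 2 * |ξ.β j0| ≤ η * M := by
  filter_upwards [xlemAB c hη] with r h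
  exact h.mono fun _ _ _ _ _ _ _ h => h.1

theorem xlemB (c : Ctx f g) {η : ℝ} (hη : 0 < η) :
    ∀ᶠ r in 𝓝[>] (0:ℝ), EvAll c fun _ _ ε _ S ξ M => ∀ j0,
      |S.x (S.T j0) - S.x j0| < c.f0 / 4 * ε → (S.yO j0 ≤ r ∨ 1 - r ≤ S.yO j0) →
      |S.yP j0 - c.ys| ≤ r → ε ^ 2 * |ξ.β j0| ≤ η * M := by
  filter_upwards [xlemAB c hη] with r h
  exact h.mono fun _ _ _ _ _ _ _ h => h.2

end XR
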